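import Pool.Agent.SFP.AD

/-!
# Module A1: random sampling (second moment)   (difficulty 2)

`A^k` is `Fintype.piFinset (fun _ : Fin k => A)`, `μ` the average of `g` over `A`.  Let `f = g - μ`: `∑_{x ∈ A} f x = 0`, `|f x| ≤ 1` for `x ∈ A`
(`0 ≤ g, μ ≤ 1`).  Proof of `A1_sample` by expanding the square: `∑_a f (a i) f (a j) = 0` for `i ≠ j` (`Finset.prod_univ_sum` or
`Finset.sum_prod_piFinset` with the factor `∑_{x ∈ A} f x = 0`), and `∑_a f (a i) ^ 2 ≤ |A| ^ k`.
Or by induction on `k` (`Fin.cons`, `Fin.consEquiv`): `S (k + 1) = ∑_{b ∈ A} ∑_{a ∈ A^k} (f b + ∑ f (a i)) ^ 2 = |A| ^ k ∑ f b ^ 2 + 0 + |A| S k`.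
-/

namespace SFP

open Finset

theorem A1_sample {α : Type*} (A : Finset α) (hA : A.Nonempty) (g : α → ℝ) (h0 : ∀ a ∈ A, 0 ≤ g a)
    (h1 : ∀ a ∈ A, g a ≤ 1) (k : ℕ) :
    ∑ a ∈ Fintype.piFinset (fun _ : Fin k => A), (∑ i, (g (a i) - (∑ x ∈ A, g x) / A.card)) ^ 2 ≤
      k * (A.card : ℝ) ^ k := by
  have hc : (0 : ℝ) < A.card := by exact_mod_cast hA.card_pos
  set μ : ℝ := (∑ x ∈ A, g x) / A.card with hμ
  have hμ0 : 0 ≤ μ := div_nonneg (Finset.sum_nonneg h0) hc.le
  have hμ1 : μ ≤ 1 := by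
    rw [hμ, div_le_one hc]
    calc ∑ x ∈ A, g x ≤ ∑ x ∈ A, (1 : ℝ) := Finset.sum_le_sum h1
      _ = A.card := by simp
  have hf0 : ∑ x ∈ A, (g x - μ) = 0 := by
    rw [Finset.sum_sub_distrib, Finset.sum_const, nsmul_eq_mul, hμ]
    field_simp
    ring
  have hf1 : ∀ x ∈ A, (g x - μ) * (g x - μ) ≤ 1 := by
    intro x hx
    have i0 := h0 x hx
    have i1 := h1 x hx
    nlinarith
  have cross : ∀ i j : Fin k, i ≠ j →
      ∑ a ∈ Fintype.piFinset (fun _ : Fin k => A), (g (a i) - μ) * (g (a j) - μ) = 0 := by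
    intro i j hij
    have e := Finset.prod_univ_sum (fun _ : Fin k => A)
      (fun l x => (if l = i then (g x - μ) else 1) * (if l = j then (g x - μ) else 1))
    have e2 : ∀ a : Fin k → α, ∏ l, ((if l = i then (g (a l) - μ) else 1) * (if l = j then (g (a l) - μ) else 1)) =
        (g (a i) - μ) * (g (a j) - μ) := by
      intro a
      rw [Finset.prod_mul_distrib, Finset.prod_ite_eq' Finset.univ i, Finset.prod_ite_eq' Finset.univ j]
      simp
    rw [← Finset.sum_congr rfl (fun a _ => e2 a), ← e]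
    apply Finset.prod_eq_zero (Finset.mem_univ i)
    simp [hij, hf0]
  calc ∑ a ∈ Fintype.piFinset (fun _ : Fin k => A), (∑ i, (g (a i) - μ)) ^ 2
      = ∑ a ∈ Fintype.piFinset (fun _ : Fin k => A), ∑ i, ∑ j, (g (a i) - μ) * (g (a j) - μ) := by
        apply Finset.sum_congr rfl
        intro a _
        rw [sq, Finset.sum_mul_sum]
    _ = ∑ i, ∑ j, ∑ a ∈ Fintype.piFinset (fun _ : Fin k => A), (g (a i) - μ) * (g (a j) - μ) := by
        rw [Finset.sum_comm]
        apply Finset.sum_congr rfl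
        intro i _
        rw [Finset.sum_comm]
    _ = ∑ i, ∑ a ∈ Fintype.piFinset (fun _ : Fin k => A), (g (a i) - μ) * (g (a i) - μ) := by
        apply Finset.sum_congr rfl
        intro i _
        apply Finset.sum_eq_single i
        · intro j _ hj
          exact cross i j hj.symm
        · intro h
          exact absurd (Finset.mem_univ i) h
    _ ≤ ∑ i : Fin k, ∑ a ∈ Fintype.piFinset (fun _ : Fin k => A), (1 : ℝ) := by
        apply Finset.sum_le_sum
        intro i _
        apply Finset.sum_le_sum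
        intro a ha
        exact hf1 _ (Fintype.mem_piFinset.1 ha i)
    _ = k * (A.card : ℝ) ^ k := by
        simp [Fintype.card_piFinset]

end SFP
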