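import Pool.Agent.SFP.A1

/-!
# Module A2: the near period (Croot-Sisask)   (difficulty 3)

`F x = conv A B x / |A|` is the average over `a ∈ A` of `g_x a = 1[a ≤ x ∧ x - a ∈ B]` (`F_avg`).  For `a ∈ A^k` (`Fin k → ℕ`) let
`F_a x = (1/k) #{i : a i ≤ x ∧ x - a i ∈ B}`.
* `A2_good`: with `R = L + 2 X`: by `A1_sample` for each `x`: `∑_a (F_a x - F x)^2 ≤ |A|^k / k`.  Sum over `x ∈ range R`: `∑_a ∑_x (F_a x - F x)^2 ≤ |A|^k R / k`.
  So `a` is bad, i.e. `∑_x (F_a x - F x)^2 > 2 R / k`, for less than half of the `a` (Markov): at least `|A|^k / 2` tuples are good, and for good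
  `a`: `∑_{x < R} |F_a x - F x| ≤ √(R * (2 R / k)) = R √(2/k)` (Cauchy-Schwarz, `sq_sum_le_card_mul_sum_sq` or `inner_mul_le_norm_mul_norm`).
* `near_period`: `k` with `2 * 3 * √(2/k) ≤ ε₁`, i.e. `72 ≤ k ε₁^2`, `k ≥ 1`.  `N = 2 * 32^k + 2`.  For `s = T, 2 T, ..., (N - 1) T` the translates
  `{a + (s, ..., s) : a good}` are subsets of `[1, 2X]^k` (`piFinset (Icc 1 (2X))`, `a i ≤ X`, `s ≤ N T ≤ X`) with at least `|A|^k / 2 ≥ (X/16)^k / 2` elements; if they were
  disjoint: `(N - 1) (X/16)^k / 2 ≤ (2X)^k`, i.e. `N - 1 ≤ 2 * 32^k`, false.  So `a + s = a' + s'` with `s' < s` (both good): `a' i = a i + m`,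
  `m = s - s' ∈ [T, N T]`.  (Pigeonhole: `Finset.exists_ne_map_eq_of_card_lt_of_maps_to` on pairs (good `a`, `s`) `↦ a + s`; the number of pairs is larger than
  `(2X)^k`; equal images with the same `s` would give the same `a`.)
  `F_{a'} (x + m) = F_a x` exactly (`a i + m ≤ x + m ↔ a i ≤ x`, `x + m - (a i + m) = x - a i`).  So for all `x`:
  `|F (x + m) - F x| ≤ |F (x + m) - F_{a'} (x + m)| + |F_a x - F x|`.  Sum over `x < R`: the second sum is `≤ R √(2/k)`; the first one is a sum over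
  `y = x + m`; for `y ≥ R` both `F y` and `F_{a'} y` vanish (`y = a + b < X + L`; `a' i ≤ X`), so it is `≤ ∑_{y < R} |F y - F_{a'} y| ≤ R √(2/k)`.
  Total `≤ 2 R √(2/k) ≤ 6 L √(2/k) ≤ ε₁ L` (`R ≤ 3 L`).  Multiply by `|A|`.
-/

namespace SFP

open Finset

/-- indicator -/
noncomputable def A2_g (B : Finset ℕ) (x a : ℕ) : ℝ := if a ≤ x ∧ x - a ∈ B then 1 else 0

theorem A2_conv (A B : Finset ℕ) (x : ℕ) : (conv A B x : ℝ) = ∑ a ∈ A, A2_g B x a := by
  unfold conv A2_g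
  rw [Finset.sum_boole]
  congr 1
  refine Finset.card_nbij' (fun p => p.1) (fun a => (a, x - a)) ?_ ?_ ?_ ?_
  · intro p hp
    have hp' := (mem_filter.1 hp)
    have h1 := mem_product.1 hp'.1
    have h2 : p.1 + p.2 = x := hp'.2
    refine mem_filter.2 ⟨h1.1, by change p.1 ≤ x; omega, ?_⟩
    have : x - p.1 = p.2 := by omega
    change x - p.1 ∈ B
    rw [this]
    exact h1.2
  · intro a ha
    have ha' := mem_filter.1 ha
    refine mem_filter.2 ⟨mem_product.2 ⟨ha'.1, ha'.2.2⟩, ?_⟩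
    change a + (x - a) = x
    omega
  · intro p hp
    have hp' := (mem_filter.1 hp)
    refine Prod.ext rfl ?_
    change x - p.1 = p.2
    omega
  · intro a _
    rfl

noncomputable def A2_S (A B : Finset ℕ) {k : ℕ} (a : Fin k → ℕ) (x : ℕ) : ℝ :=
  ∑ i, (A2_g B x (a i) - (∑ y ∈ A, A2_g B x y) / A.card)

theorem A2_S_eq (A B : Finset ℕ) {k : ℕ} (a : Fin k → ℕ) (x : ℕ) :
    A2_S A B a x = ∑ i, A2_g B x (a i) - k * ((conv A B x : ℝ) / A.card) := by
  unfold A2_S
  rw [sum_sub_distrib, sum_const, card_univ, Fintype.card_fin, nsmul_eq_mul, A2_conv]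

theorem A2_g01 (B : Finset ℕ) (x a : ℕ) : 0 ≤ A2_g B x a ∧ A2_g B x a ≤ 1 := by
  unfold A2_g
  split_ifs <;> norm_num

open Classical in
noncomputable def A2_good (A B : Finset ℕ) (k R : ℕ) : Finset (Fin k → ℕ) :=
  (Fintype.piFinset (fun _ : Fin k => A)).filter
    (fun a => ∑ x ∈ range R, (A2_S A B a x) ^ 2 ≤ 2 * R * k)

theorem A2_good_card (A B : Finset ℕ) (hA : A.Nonempty) {k R : ℕ} (hk : 0 < k) (hR : 0 < R) :
    (A.card : ℝ) ^ k ≤ 2 * ((A2_good A B k R).card : ℝ) := by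
  classical
  set P := Fintype.piFinset (fun _ : Fin k => A) with hP
  have hcP : P.card = A.card ^ k := by
    rw [hP, Fintype.card_piFinset, prod_const, card_univ, Fintype.card_fin]
  have htot : ∑ a ∈ P, ∑ x ∈ range R, (A2_S A B a x) ^ 2 ≤ R * (k * (A.card : ℝ) ^ k) := by
    rw [sum_comm]
    have : ∀ x ∈ range R, ∑ a ∈ P, (A2_S A B a x) ^ 2 ≤ k * (A.card : ℝ) ^ k := by
      intro x _
      exact A1_sample A hA (A2_g B x) (fun a _ => (A2_g01 B x a).1) (fun a _ => (A2_g01 B x a).2) k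
    refine (sum_le_sum this).trans ?_
    rw [sum_const, card_range, nsmul_eq_mul]
  set bad := P.filter (fun a => ¬ ∑ x ∈ range R, (A2_S A B a x) ^ 2 ≤ 2 * R * k) with hbad
  have hcard : (A2_good A B k R).card + bad.card = P.card := by
    unfold A2_good
    exact card_filter_add_card_filter_not _
  have hRk : (0 : ℝ) < R * k := by positivity
  have h1 : (bad.card : ℝ) * (2 * R * k) ≤ ∑ a ∈ bad, ∑ x ∈ range R, (A2_S A B a x) ^ 2 := by
    rw [← nsmul_eq_mul]
    refine card_nsmul_le_sum _ _ _ fun a ha => ?_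
    have := (mem_filter.1 ha).2
    push Not at this
    exact this.le
  have h2 : ∑ a ∈ bad, ∑ x ∈ range R, (A2_S A B a x) ^ 2 ≤ ∑ a ∈ P, ∑ x ∈ range R, (A2_S A B a x) ^ 2 :=
    sum_le_sum_of_subset_of_nonneg (filter_subset _ _) fun a _ _ => sum_nonneg fun x _ => sq_nonneg _
  have h3 : (bad.card : ℝ) * 2 ≤ (A.card : ℝ) ^ k := by
    have h4 : (R * k : ℝ) * (bad.card * 2) ≤ (R * k) * (A.card : ℝ) ^ k := by
      calc (R * k : ℝ) * (bad.card * 2) = bad.card * (2 * R * k) := by ring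
        _ ≤ R * (k * (A.card : ℝ) ^ k) := h1.trans (h2.trans htot)
        _ = (R * k) * (A.card : ℝ) ^ k := by ring
    exact le_of_mul_le_mul_left h4 hRk
  have h5 : ((A2_good A B k R).card : ℝ) + bad.card = (A.card : ℝ) ^ k := by
    have := hcard
    rw [hcP] at this
    exact_mod_cast this
  linarith

theorem A2_abs {A B : Finset ℕ} {k R : ℕ} {a : Fin k → ℕ} (ha : a ∈ A2_good A B k R) :
    (∑ x ∈ range R, |A2_S A B a x|) ≤ R * Real.sqrt (2 * k) := by
  classical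
  have h1 : ∑ x ∈ range R, (A2_S A B a x) ^ 2 ≤ 2 * R * k := by
    unfold A2_good at ha
    exact (mem_filter.1 ha).2
  have h2 : (∑ x ∈ range R, |A2_S A B a x|) ^ 2 ≤ (range R).card * ∑ x ∈ range R, |A2_S A B a x| ^ 2 :=
    sq_sum_le_card_mul_sum_sq
  rw [card_range] at h2
  have h3 : ∑ x ∈ range R, |A2_S A B a x| ^ 2 = ∑ x ∈ range R, (A2_S A B a x) ^ 2 :=
    sum_congr rfl fun x _ => sq_abs _
  rw [h3] at h2
  have h4 : (∑ x ∈ range R, |A2_S A B a x|) ^ 2 ≤ (R * Real.sqrt (2 * k)) ^ 2 := by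
    rw [mul_pow, Real.sq_sqrt (by positivity)]
    calc (∑ x ∈ range R, |A2_S A B a x|) ^ 2 ≤ R * ∑ x ∈ range R, (A2_S A B a x) ^ 2 := h2
      _ ≤ R * (2 * R * k) := mul_le_mul_of_nonneg_left h1 (by positivity)
      _ = (R : ℝ) ^ 2 * (2 * k) := by ring
  exact (sq_le_sq₀ (sum_nonneg fun x _ => abs_nonneg _) (by positivity)).1 h4

theorem A2_shift {B : Finset ℕ} {x a m : ℕ} : A2_g B (x + m) (a + m) = A2_g B x a := by
  unfold A2_g
  have h : (a + m ≤ x + m ∧ x + m - (a + m) ∈ B) ↔ (a ≤ x ∧ x - a ∈ B) := by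
    rw [Nat.add_le_add_iff_right, Nat.add_sub_add_right]
  simp only [h]

theorem A2_zero {A B : Finset ℕ} {X L : ℕ} (hX : ∀ a ∈ A, 1 ≤ a ∧ a ≤ X) (hB : ∀ b ∈ B, b < L) {k : ℕ}
    {a : Fin k → ℕ} (ha : ∀ i, a i ∈ A) {y : ℕ} (hy : L + 2 * X ≤ y) : A2_S A B a y = 0 := by
  have h1 : ∀ c ∈ A, A2_g B y c = 0 := by
    intro c hc
    unfold A2_g
    rw [if_neg]
    rintro ⟨h1, h2⟩
    have h3 := hB _ h2
    have h4 := (hX c hc).2
    omega
  unfold A2_S
  rw [sum_eq_zero h1]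
  refine sum_eq_zero fun i _ => ?_
  rw [h1 _ (ha i)]
  simp

theorem A2_main {A B : Finset ℕ} {X L k m : ℕ} (hk : 0 < k) (hX : ∀ a ∈ A, 1 ≤ a ∧ a ≤ X) (hB : ∀ b ∈ B, b < L)
    (hA : A.Nonempty) {a a' : Fin k → ℕ} (ha : a ∈ A2_good A B k (L + 2 * X))
    (ha' : a' ∈ A2_good A B k (L + 2 * X)) (haa : ∀ i, a' i = a i + m) :
    k * ∑ x ∈ range (L + 2 * X), |(conv A B (x + m) : ℝ) - conv A B x| ≤
      A.card * (2 * ((L + 2 * X : ℕ) * Real.sqrt (2 * k))) := by
  classical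
  have hc : (0 : ℝ) < A.card := by exact_mod_cast card_pos.2 hA
  have hmem : ∀ i, a' i ∈ A := by
    intro i
    unfold A2_good at ha'
    exact Fintype.mem_piFinset.1 (mem_filter.1 ha').1 i
  have hpt : ∀ x, k * |(conv A B (x + m) : ℝ) - conv A B x| ≤
      A.card * (|A2_S A B a' (x + m)| + |A2_S A B a x|) := by
    intro x
    have e1 := A2_S_eq A B a' (x + m)
    have e2 := A2_S_eq A B a x
    have e3 : ∑ i, A2_g B (x + m) (a' i) = ∑ i, A2_g B x (a i) := by
      refine sum_congr rfl fun i _ => ?_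
      rw [haa i, A2_shift]
    rw [e3] at e1
    have e4 : (k : ℝ) * ((conv A B (x + m) : ℝ) - conv A B x) =
        A.card * (A2_S A B a x - A2_S A B a' (x + m)) := by
      rw [e1, e2]
      field_simp
      ring
    have e5 : (k : ℝ) * |(conv A B (x + m) : ℝ) - conv A B x| =
        A.card * |A2_S A B a x - A2_S A B a' (x + m)| := by
      have := congrArg abs e4
      rw [abs_mul, abs_mul, abs_of_nonneg (by positivity : (0 : ℝ) ≤ k), abs_of_nonneg hc.le] at this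
      exact this
    rw [e5]
    refine mul_le_mul_of_nonneg_left ?_ hc.le
    calc |A2_S A B a x - A2_S A B a' (x + m)| ≤ |A2_S A B a x| + |A2_S A B a' (x + m)| := abs_sub _ _
      _ = _ := add_comm _ _
  rw [mul_sum]
  refine (sum_le_sum fun x _ => hpt x).trans ?_
  rw [← mul_sum, sum_add_distrib]
  refine mul_le_mul_of_nonneg_left ?_ hc.le
  have h1 := A2_abs ha
  have h2 := A2_abs ha'
  have h3 : ∑ x ∈ range (L + 2 * X), |A2_S A B a' (x + m)| ≤ ∑ x ∈ range (L + 2 * X), |A2_S A B a' x| := by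
    have e1 : ∑ x ∈ range (L + 2 * X), |A2_S A B a' (x + m)| =
        ∑ y ∈ (range (L + 2 * X)).image (fun x => x + m), |A2_S A B a' y| := by
      rw [sum_image]
      intro x _ y _ h
      exact Nat.add_right_cancel h
    rw [e1, ← sum_filter_add_sum_filter_not _ (fun y => y < L + 2 * X)]
    have e2 : ∑ y ∈ ((range (L + 2 * X)).image (fun x => x + m)).filter (fun y => ¬ y < L + 2 * X),
        |A2_S A B a' y| = 0 := by
      refine sum_eq_zero fun y hy => ?_
      rw [A2_zero hX hB hmem (not_lt.1 (mem_filter.1 hy).2), abs_zero]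
    rw [e2, add_zero]
    refine sum_le_sum_of_subset_of_nonneg ?_ fun y _ _ => abs_nonneg _
    intro y hy
    exact mem_range.2 (mem_filter.1 hy).2
  linarith

theorem near_period {ε : ℝ} (hε : 0 < ε) : ∃ N : ℕ, 1 ≤ N ∧ ∀ (X L T : ℕ) (A B : Finset ℕ), 1 ≤ T → X ≤ L →
    N * T ≤ X → X ≤ 16 * A.card → (∀ a ∈ A, 1 ≤ a ∧ a ≤ X) → (∀ b ∈ B, b < L) →
    ∃ m : ℕ, T ≤ m ∧ m ≤ N * T ∧
      ∑ x ∈ range (L + 2 * X), |(conv A B (x + m) : ℝ) - conv A B x| ≤ ε * A.card * L := by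
  classical
  obtain ⟨k₀, hk₀⟩ := exists_nat_ge (72 / ε ^ 2)
  obtain ⟨k, hk⟩ : ∃ k, k = k₀ + 1 := ⟨_, rfl⟩
  have hkpos : 0 < k := by omega
  have hk1 : 72 ≤ ε ^ 2 * k := by
    have h1 : 72 / ε ^ 2 ≤ k := by
      rw [hk]
      push_cast
      linarith
    rw [div_le_iff₀ (by positivity)] at h1
    linarith
  refine ⟨2 * 32 ^ k + 2, by omega, ?_⟩
  intro X L T A B hT hXL hNT hXA hAX hBL
  have hNT1 : 1 ≤ X := by
    have : 1 ≤ (2 * 32 ^ k + 2) * T := Nat.mul_pos (by omega) hT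
    omega
  have hApos : 0 < A.card := by omega
  have hA : A.Nonempty := card_pos.1 hApos
  have hgood := A2_good_card A B hA (k := k) (R := L + 2 * X) hkpos (by omega)
  have hmemA : ∀ a ∈ A2_good A B k (L + 2 * X), ∀ i, a i ∈ A := by
    intro a ha i
    unfold A2_good at ha
    exact Fintype.mem_piFinset.1 (mem_filter.1 ha).1 i
  -- pigeonhole
  have hmaps : Set.MapsTo (fun p : (Fin k → ℕ) × ℕ => fun i => p.1 i + p.2 * T)
      ((A2_good A B k (L + 2 * X) ×ˢ Icc 1 (2 * 32 ^ k + 1) : Finset _) : Set ((Fin k → ℕ) × ℕ))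
      (Fintype.piFinset (fun _ : Fin k => Icc 1 (2 * X)) : Set (Fin k → ℕ)) := by
    intro p hp
    have hp' := mem_product.1 (mem_coe.1 hp)
    refine mem_coe.2 (Fintype.mem_piFinset.2 fun i => ?_)
    have h1 := hAX _ (hmemA _ hp'.1 i)
    have h2 := mem_Icc.1 hp'.2
    have h3 : p.2 * T ≤ (2 * 32 ^ k + 2) * T := Nat.mul_le_mul_right T (by omega)
    refine mem_Icc.2 ⟨?_, ?_⟩
    · change 1 ≤ p.1 i + p.2 * T
      omega
    · change p.1 i + p.2 * T ≤ 2 * X
      omega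
  have hcard : (Fintype.piFinset (fun _ : Fin k => Icc 1 (2 * X))).card <
      (A2_good A B k (L + 2 * X) ×ˢ Icc 1 (2 * 32 ^ k + 1)).card := by
    rw [Fintype.card_piFinset, prod_const, card_univ, Fintype.card_fin, card_product, Nat.card_Icc, Nat.card_Icc,
      Nat.add_sub_cancel, Nat.add_sub_cancel]
    have h1 : ((2 * X : ℕ) : ℝ) ^ k ≤ 32 ^ k * (A.card : ℝ) ^ k := by
      rw [← mul_pow]
      refine pow_le_pow_left₀ (by positivity) ?_ k
      have : 2 * X ≤ 32 * A.card := by omega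
      exact_mod_cast this
    have hApos' : (0 : ℝ) < (A.card : ℝ) ^ k := by
      have : (0 : ℝ) < A.card := by exact_mod_cast hApos
      positivity
    have h2 : ((2 * X : ℕ) : ℝ) ^ k < ((A2_good A B k (L + 2 * X)).card : ℝ) * (2 * 32 ^ k + 1) := by
      have h32 : (0 : ℝ) < 32 ^ k := by positivity
      nlinarith [mul_le_mul_of_nonneg_right hgood (show (0 : ℝ) ≤ 2 * 32 ^ k + 1 by positivity)]
    exact_mod_cast h2
  obtain ⟨p, hp, p', hp', hne, heq⟩ := exists_ne_map_eq_of_card_lt_of_maps_to hcard hmaps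
  -- the two cases
  have hfin : ∀ p p' : (Fin k → ℕ) × ℕ, p ∈ A2_good A B k (L + 2 * X) ×ˢ Icc 1 (2 * 32 ^ k + 1) →
      p' ∈ A2_good A B k (L + 2 * X) ×ˢ Icc 1 (2 * 32 ^ k + 1) → p'.2 < p.2 →
      (fun i => p.1 i + p.2 * T) = (fun i => p'.1 i + p'.2 * T) →
      ∃ m : ℕ, T ≤ m ∧ m ≤ (2 * 32 ^ k + 2) * T ∧
      ∑ x ∈ range (L + 2 * X), |(conv A B (x + m) : ℝ) - conv A B x| ≤ ε * A.card * L := by
    intro p p' hp hp' hlt heq
    have h1 := mem_product.1 hp
    have h2 := mem_product.1 hp'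
    have h3 := mem_Icc.1 h1.2
    have h4 := mem_Icc.1 h2.2
    refine ⟨(p.2 - p'.2) * T, ?_, ?_, ?_⟩
    · exact Nat.le_mul_of_pos_left T (by omega)
    · exact Nat.mul_le_mul_right T (by omega)
    · have haa : ∀ i, p'.1 i = p.1 i + (p.2 - p'.2) * T := by
        intro i
        have h5 : p.1 i + p.2 * T = p'.1 i + p'.2 * T := congrFun heq i
        have h6 : (p.2 - p'.2) * T + p'.2 * T = p.2 * T := by
          rw [← Nat.add_mul, Nat.sub_add_cancel hlt.le]
        omega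
      have hm := A2_main (m := (p.2 - p'.2) * T) hkpos hAX hBL hA h1.1 h2.1 haa
      have hkr : (0 : ℝ) < k := by exact_mod_cast hkpos
      have hL : (0 : ℝ) ≤ L := by positivity
      have hR3 : ((L + 2 * X : ℕ) : ℝ) ≤ 3 * L := by
        have : L + 2 * X ≤ 3 * L := by omega
        exact_mod_cast this
      have hsq : 6 * Real.sqrt (2 * k) ≤ ε * k := by
        have h7 : (6 * Real.sqrt (2 * k)) ^ 2 ≤ (ε * k) ^ 2 := by
          rw [mul_pow, Real.sq_sqrt (by positivity)]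
          nlinarith [mul_le_mul_of_nonneg_right hk1 hkr.le]
        exact (sq_le_sq₀ (by positivity) (by positivity)).1 h7
      have h8 : (k : ℝ) * ∑ x ∈ range (L + 2 * X), |(conv A B (x + (p.2 - p'.2) * T) : ℝ) - conv A B x| ≤
          k * (ε * A.card * L) := by
        refine hm.trans ?_
        have hs0 : 0 ≤ Real.sqrt (2 * k) := Real.sqrt_nonneg _
        have hc0 : (0 : ℝ) ≤ A.card := by positivity
        calc (A.card : ℝ) * (2 * ((L + 2 * X : ℕ) * Real.sqrt (2 * k)))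
            ≤ A.card * (2 * ((3 * L) * Real.sqrt (2 * k))) := by
              refine mul_le_mul_of_nonneg_left ?_ hc0
              refine mul_le_mul_of_nonneg_left ?_ (by norm_num)
              exact mul_le_mul_of_nonneg_right hR3 hs0
          _ = A.card * L * (6 * Real.sqrt (2 * k)) := by ring
          _ ≤ A.card * L * (ε * k) := mul_le_mul_of_nonneg_left hsq (by positivity)
          _ = k * (ε * A.card * L) := by ring
      exact le_of_mul_le_mul_left h8 hkr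
  rcases lt_trichotomy p.2 p'.2 with h | h | h
  · exact hfin p' p hp' hp h heq.symm
  · exfalso
    apply hne
    refine Prod.ext ?_ h
    funext i
    have h5 : p.1 i + p.2 * T = p'.1 i + p'.2 * T := congrFun heq i
    rw [h] at h5
    omega
  · exact hfin p p' hp hp' h heq

end SFP
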