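import Pool.Agent.SFP.AD

/-!
# Module A3: few Schur triples   (difficulty 2)

* `A3_few0`: `{(a, y) ∈ A × B : a + y ∈ B}`: for each `a` there are `rp B a` of them (`card_filter_product`, `sum_card`).
* `sum_conv`: `∑_{z ∈ B} conv A B z = #{(a, y) ∈ A × B : a + y ∈ B}` (`card_eq_sum_card_fiberwise`).
* `A3_few`: `#{(a, y) ∈ A × B : a + y + m ∈ B} = ∑_{z ∈ B, m ≤ z} conv A B (z - m)`.  With `x = z - m` (`x < L`, `x + m = z ∈ B`):
  `∑_{x < L', x + m ∈ B} conv A B x ≤ ∑_{x < L', x + m ∈ B} conv A B (x + m) + ∑_{x < L'} |conv A B (x + m) - conv A B x| ≤ ∑_{z ∈ B} conv A B z + δ`.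
-/

namespace SFP

open Finset

theorem A3_prod (A B : Finset ℕ) (P : ℕ × ℕ → Prop) [DecidablePred P] :
    ((A ×ˢ B).filter P).card = ∑ a ∈ A, (B.filter (fun y => P (a, y))).card := by
  rw [card_filter, sum_product]
  exact sum_congr rfl fun a _ => (card_filter _ _).symm

theorem A3_few0 {A B : Finset ℕ} {e : ℝ} (hr : ∀ a ∈ A, (rp B a : ℝ) ≤ e) :
    (((A ×ˢ B).filter (fun p => p.1 + p.2 ∈ B)).card : ℝ) ≤ A.card * e := by
  rw [A3_prod, Nat.cast_sum]
  have h : ∀ a ∈ A, ((B.filter (fun y => (a, y).1 + (a, y).2 ∈ B)).card : ℝ) ≤ e := by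
    intro a ha
    have h1 : (B.filter (fun y => (a, y).1 + (a, y).2 ∈ B)).card = rp B a := by
      unfold rp
      congr 1
      refine filter_congr fun y _ => ?_
      show a + y ∈ B ↔ y + a ∈ B
      rw [add_comm]
    rw [h1]
    exact hr a ha
  refine (sum_le_sum h).trans (le_of_eq ?_)
  rw [sum_const, nsmul_eq_mul]

theorem sum_conv (A B : Finset ℕ) :
    ∑ z ∈ B, conv A B z = ((A ×ˢ B).filter (fun p => p.1 + p.2 ∈ B)).card := by
  rw [card_eq_sum_card_fiberwise (f := fun p : ℕ × ℕ => p.1 + p.2) (t := B)]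
  · refine sum_congr rfl fun z hz => ?_
    unfold conv
    congr 1
    rw [filter_filter]
    refine filter_congr fun p _ => ?_
    constructor
    · intro h
      exact ⟨by rw [h]; exact hz, h⟩
    · intro h
      exact h.2
  · intro p hp
    rw [mem_coe, mem_filter] at hp
    exact hp.2

theorem A3_few {A B : Finset ℕ} {L L' m : ℕ} {e δ : ℝ} (hB : ∀ b ∈ B, b < L) (hL : L ≤ L')
    (hr : ∀ a ∈ A, (rp B a : ℝ) ≤ e)
    (hm : ∑ x ∈ range L', |(conv A B (x + m) : ℝ) - conv A B x| ≤ δ) :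
    (((A ×ˢ B).filter (fun p => p.1 + p.2 + m ∈ B)).card : ℝ) ≤ A.card * e + δ := by
  obtain ⟨S, hS⟩ : ∃ S, S = (range L').filter (fun x => x + m ∈ B) := ⟨_, rfl⟩
  have h1 : ((A ×ˢ B).filter (fun p => p.1 + p.2 + m ∈ B)).card = ∑ x ∈ S, conv A B x := by
    rw [card_eq_sum_card_fiberwise (f := fun p : ℕ × ℕ => p.1 + p.2) (t := S)]
    · refine sum_congr rfl fun x hx => ?_
      unfold conv
      congr 1
      rw [filter_filter]
      rw [hS, mem_filter] at hx
      refine filter_congr fun p _ => ?_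
      constructor
      · intro h
        exact h.2
      · intro h
        exact ⟨by rw [h]; exact hx.2, h⟩
    · intro p hp
      rw [mem_coe, mem_filter] at hp
      rw [mem_coe, hS, mem_filter, mem_range]
      refine ⟨?_, hp.2⟩
      have := hB _ hp.2
      show p.1 + p.2 < L'
      omega
  have h2 : ∑ x ∈ S, (conv A B x : ℝ) ≤
      ∑ x ∈ S, (conv A B (x + m) : ℝ) + ∑ x ∈ S, |(conv A B (x + m) : ℝ) - conv A B x| := by
    rw [← sum_add_distrib]
    refine sum_le_sum fun x _ => ?_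
    have := neg_abs_le ((conv A B (x + m) : ℝ) - conv A B x)
    linarith
  have h3 : ∑ x ∈ S, |(conv A B (x + m) : ℝ) - conv A B x| ≤ δ := by
    refine le_trans (sum_le_sum_of_subset_of_nonneg (t := range L') ?_ fun x _ _ => abs_nonneg _) hm
    rw [hS]
    exact filter_subset _ _
  have h4 : ∑ x ∈ S, (conv A B (x + m) : ℝ) ≤ ∑ z ∈ B, (conv A B z : ℝ) := by
    have h5 : ∑ x ∈ S, (conv A B (x + m) : ℝ) = ∑ z ∈ S.image (fun x => x + m), (conv A B z : ℝ) := by
      rw [sum_image]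
      intro a _ b _ hab
      exact Nat.add_right_cancel hab
    rw [h5]
    refine sum_le_sum_of_subset_of_nonneg ?_ fun z _ _ => Nat.cast_nonneg _
    intro z hz
    rw [mem_image] at hz
    obtain ⟨x, hx, rfl⟩ := hz
    rw [hS, mem_filter] at hx
    exact hx.2
  have h6 : ∑ z ∈ B, (conv A B z : ℝ) ≤ A.card * e := by
    have h7 := sum_conv A B
    have h8 : ∑ z ∈ B, (conv A B z : ℝ) = (((A ×ˢ B).filter (fun p => p.1 + p.2 ∈ B)).card : ℝ) := by
      rw [← h7, Nat.cast_sum]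
    rw [h8]
    exact A3_few0 hr
  rw [h1, Nat.cast_sum]
  linarith

end SFP
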