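import Pool.Agent.SFP.AD

/-!
# Module A4: arithmetic removal lemma in `ℤ / m`   (difficulty 3)

`SimpleGraph.triangle_removal` (Mathlib.Combinatorics.SimpleGraph.Triangle.Removal) for the tripartite graph `G` on `Fin 3 × ZMod m` (`n = 3 m` vertices;
`SimpleGraph.fromRel` or a direct definition): `(0, i) - (1, i + x)` for `x ∈ X`, `(1, i) - (2, i + y)` for `y ∈ Y`, `(0, i) - (2, i + z)` for `z ∈ Z`.
A triangle has one vertex in each of the three parts (there are no edges inside a part), so it is `(0, i), (1, i + x), (2, i + x + y)` with `x ∈ X`, `y ∈ Y`,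
`x + y ∈ Z`: the number of triangles is at most `m * #{(x, y) ∈ X × Y : x + y ∈ Z} ≤ γ m^3` (injection of the triangles into triples `(i, x, y)`).
With `ε' = ε / 54` (`≤ 1`), `γ = (1/2) triangleRemovalBound ε'` (positive) we have `γ m^3 < triangleRemovalBound ε' * (3m)^3`, so there is a triangle free `G' ≤ G` with
fewer than `ε' (3m)^2 = ε m^2 / 6` edges removed.  `X' = {x ∈ X : fewer than m/3 of the edges (0, i) - (1, i + x), i ∈ ZMod m, are removed}`, similarly `Y'`, `Z'`.
`|X \ X'| m / 3 ≤ number of removed edges ≤ ε m^2 / 6`, so `|X \ X'| ≤ ε m / 2` (different `(i, x)` give different edges).  If `x ∈ X'`, `y ∈ Y'`, `x + y = z ∈ Z'`: for each `i` the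
triangle `(0, i), (1, i + x), (2, i + z)` of `G` must lose one of its edges; the edges `(0, i) - (1, i + x)` are removed for `< m/3` of the `i`, the edges
`(1, i + x) - (2, i + x + y)` for `< m/3` of the `i`, the edges `(0, i) - (2, i + z)` for `< m/3`: so some `i` keeps all three, a triangle of `G'`: contradiction.
(For `ε > 1` use `min ε 1`.)
-/

namespace SFP

open Finset

/-- The tripartite graph of three subsets of `ℤ / m`. -/
def A4_G (m : ℕ) (X Y Z : Finset (ZMod m)) : SimpleGraph (Fin 3 × ZMod m) :=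
  SimpleGraph.fromRel fun a b => (a.1 = 0 ∧ b.1 = 1 ∧ b.2 - a.2 ∈ X) ∨
    (a.1 = 1 ∧ b.1 = 2 ∧ b.2 - a.2 ∈ Y) ∨ (a.1 = 0 ∧ b.1 = 2 ∧ b.2 - a.2 ∈ Z)

theorem A4_ne {m : ℕ} {X Y Z : Finset (ZMod m)} {a b : Fin 3 × ZMod m} (h : (A4_G m X Y Z).Adj a b) :
    a.1 ≠ b.1 := by
  unfold A4_G at h
  rw [SimpleGraph.fromRel_adj] at h
  obtain ⟨-, h⟩ := h
  rcases h with (⟨h1, h2, -⟩ | ⟨h1, h2, -⟩ | ⟨h1, h2, -⟩) | (⟨h1, h2, -⟩ | ⟨h1, h2, -⟩ | ⟨h1, h2, -⟩) <;>
    · rw [h1, h2]
      decide

theorem A4_01 {m : ℕ} {X Y Z : Finset (ZMod m)} {i j : ZMod m} :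
    (A4_G m X Y Z).Adj (0, i) (1, j) ↔ j - i ∈ X := by
  unfold A4_G
  rw [SimpleGraph.fromRel_adj]
  simp

theorem A4_12 {m : ℕ} {X Y Z : Finset (ZMod m)} {i j : ZMod m} :
    (A4_G m X Y Z).Adj (1, i) (2, j) ↔ j - i ∈ Y := by
  unfold A4_G
  rw [SimpleGraph.fromRel_adj]
  simp

theorem A4_02 {m : ℕ} {X Y Z : Finset (ZMod m)} {i j : ZMod m} :
    (A4_G m X Y Z).Adj (0, i) (2, j) ↔ j - i ∈ Z := by
  unfold A4_G
  rw [SimpleGraph.fromRel_adj]
  simp

open Classical in
theorem A4_tri (m : ℕ) [NeZero m] (X Y Z : Finset (ZMod m)) :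
    ((A4_G m X Y Z).cliqueFinset 3).card ≤ m * ((X ×ˢ Y).filter (fun p => p.1 + p.2 ∈ Z)).card := by
  set T := (X ×ˢ Y).filter (fun p => p.1 + p.2 ∈ Z) with hT
  have hsub : (A4_G m X Y Z).cliqueFinset 3 ⊆ ((univ : Finset (ZMod m)) ×ˢ T).image
      (fun q => {((0 : Fin 3), q.1), (1, q.1 + q.2.1), (2, q.1 + q.2.1 + q.2.2)}) := by
    intro s hs
    rw [SimpleGraph.mem_cliqueFinset_iff, SimpleGraph.isNClique_iff] at hs
    obtain ⟨hcl, hc⟩ := hs
    have hinj : Set.InjOn Prod.fst (s : Set (Fin 3 × ZMod m)) := by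
      intro a ha b hb hab
      by_contra hne
      exact A4_ne (hcl ha hb hne) hab
    have him : s.image Prod.fst = univ := by
      apply Finset.eq_univ_of_card
      rw [Finset.card_image_of_injOn hinj, hc]
      rfl
    have hex : ∀ c : Fin 3, ∃ i, (c, i) ∈ s := by
      intro c
      have : c ∈ s.image Prod.fst := by rw [him]; exact mem_univ _
      obtain ⟨⟨a, b⟩, hab, rfl⟩ := Finset.mem_image.1 this
      exact ⟨b, hab⟩
    obtain ⟨i, hi⟩ := hex 0
    obtain ⟨j, hj⟩ := hex 1
    obtain ⟨k, hk⟩ := hex 2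
    have h01 := hcl hi hj (by simp)
    have h12 := hcl hj hk (by simp)
    have h02 := hcl hi hk (by simp)
    rw [A4_01] at h01
    rw [A4_12] at h12
    rw [A4_02] at h02
    rw [Finset.mem_image]
    refine ⟨(i, (j - i, k - j)), ?_, ?_⟩
    · rw [Finset.mem_product, hT, Finset.mem_filter, Finset.mem_product]
      refine ⟨mem_univ _, ⟨h01, h12⟩, ?_⟩
      show j - i + (k - j) ∈ Z
      have : j - i + (k - j) = k - i := by ring
      rw [this]
      exact h02
    · symm
      have e1 : i + (j - i) = j := by ring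
      have e2 : i + (j - i) + (k - j) = k := by ring
      simp only [e1]
      symm
      apply Finset.eq_of_subset_of_card_le
      · intro a ha
        simp only [Finset.mem_insert, Finset.mem_singleton] at ha
        rcases ha with rfl | rfl | rfl
        · exact hi
        · exact hj
        · rw [show j + (k - j) = k by ring]
          exact hk
      · rw [hc, Finset.card_insert_of_notMem (by simp), Finset.card_insert_of_notMem (by simp),
          Finset.card_singleton]
  refine (Finset.card_le_card hsub).trans (Finset.card_image_le.trans ?_)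
  rw [Finset.card_product, Finset.card_univ, ZMod.card]

open Classical in
theorem A4_rem {m : ℕ} [NeZero m] {G G' : SimpleGraph (Fin 3 × ZMod m)} [DecidableRel G'.Adj] {p q : Fin 3}
    (hpq : p ≠ q)
    {X : Finset (ZMod m)} (hX : ∀ x ∈ X, ∀ i, G.Adj (p, i) (q, i + x)) :
    (X.filter (fun x => ¬ 3 * (univ.filter (fun i : ZMod m => ¬ G'.Adj (p, i) (q, i + x))).card < m)).card * m ≤
      3 * (G.edgeFinset \ G'.edgeFinset).card := by
  set W := X.filter (fun x => ¬ 3 * (univ.filter (fun i : ZMod m => ¬ G'.Adj (p, i) (q, i + x))).card < m)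
    with hW
  have h1 : W.card * m ≤ ∑ x ∈ W, 3 * (univ.filter (fun i : ZMod m => ¬ G'.Adj (p, i) (q, i + x))).card := by
    rw [← smul_eq_mul]
    apply Finset.card_nsmul_le_sum
    intro x hx
    rw [hW, Finset.mem_filter] at hx
    exact not_lt.1 hx.2
  rw [← Finset.mul_sum] at h1
  refine h1.trans (Nat.mul_le_mul_left 3 ?_)
  rw [← Finset.card_sigma]
  apply Finset.card_le_card_of_injOn (fun z => s((p, z.2), (q, z.2 + z.1)))
  · rintro ⟨x, i⟩ hz
    rw [Finset.mem_coe, Finset.mem_sigma] at hz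
    obtain ⟨h2, h3⟩ := hz
    simp only [Finset.mem_filter, mem_univ, true_and] at h3
    rw [hW, Finset.mem_filter] at h2
    rw [Finset.mem_coe, Finset.mem_sdiff, SimpleGraph.mem_edgeFinset, SimpleGraph.mem_edgeFinset,
      SimpleGraph.mem_edgeSet, SimpleGraph.mem_edgeSet]
    exact ⟨hX x h2.1 i, h3⟩
  · rintro ⟨x, i⟩ - ⟨x', i'⟩ - h
    simp only [Sym2.eq_iff, Prod.mk.injEq] at h
    rcases h with ⟨⟨-, h2⟩, -, h3⟩ | ⟨⟨h2, -⟩, -⟩
    · subst h2
      have := add_left_cancel h3
      subst this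
      rfl
    · exact absurd h2 hpq

theorem removal {ε : ℝ} (hε : 0 < ε) : ∃ γ : ℝ, 0 < γ ∧ ∀ (m : ℕ) [NeZero m] (X Y Z : Finset (ZMod m)),
    (((X ×ˢ Y).filter (fun p => p.1 + p.2 ∈ Z)).card : ℝ) ≤ γ * (m : ℝ) ^ 2 →
    ∃ X' Y' Z' : Finset (ZMod m), X' ⊆ X ∧ Y' ⊆ Y ∧ Z' ⊆ Z ∧ ((X \ X').card : ℝ) ≤ ε * m ∧
      ((Y \ Y').card : ℝ) ≤ ε * m ∧ ((Z \ Z').card : ℝ) ≤ ε * m ∧ ∀ x ∈ X', ∀ y ∈ Y', x + y ∉ Z' := by
  classical
  set ε' : ℝ := min ε 1 / 54 with hε'
  have hmin : 0 < min ε 1 := lt_min hε one_pos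
  have hε0 : 0 < ε' := by positivity
  have hε1 : ε' ≤ 1 := by
    have := min_le_right ε 1
    rw [hε']
    linarith
  have hb := SimpleGraph.triangleRemovalBound_pos hε0
  refine ⟨SimpleGraph.triangleRemovalBound ε' / 2, by positivity, ?_⟩
  intro m _ X Y Z hP
  have hm : (0 : ℝ) < m := by exact_mod_cast Nat.pos_of_ne_zero (NeZero.ne m)
  set G := A4_G m X Y Z with hG
  have hcard : (Fintype.card (Fin 3 × ZMod m) : ℝ) = 3 * m := by
    rw [Fintype.card_prod, Fintype.card_fin, ZMod.card]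
    push_cast
    ring
  have htri : ((G.cliqueFinset 3).card : ℝ) <
      SimpleGraph.triangleRemovalBound ε' * (Fintype.card (Fin 3 × ZMod m) : ℝ) ^ 3 := by
    have h1 : ((G.cliqueFinset 3).card : ℝ) ≤ m * (SimpleGraph.triangleRemovalBound ε' / 2 * (m : ℝ) ^ 2) := by
      have h2 := A4_tri m X Y Z
      have h3 : ((G.cliqueFinset 3).card : ℝ) ≤
          m * (((X ×ˢ Y).filter (fun p => p.1 + p.2 ∈ Z)).card : ℝ) := by exact_mod_cast h2
      exact h3.trans (mul_le_mul_of_nonneg_left hP hm.le)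
    rw [hcard]
    have h4 : 0 < SimpleGraph.triangleRemovalBound ε' * (m : ℝ) ^ 3 := by positivity
    nlinarith
  obtain ⟨G', hle, hdec, hedge, hfree⟩ := SimpleGraph.triangle_removal htri
  have hR : ((G.edgeFinset \ G'.edgeFinset).card : ℝ) < min ε 1 / 6 * (m : ℝ) ^ 2 := by
    have hsub : G'.edgeFinset ⊆ G.edgeFinset := SimpleGraph.edgeFinset_mono hle
    have h1 : ((G.edgeFinset \ G'.edgeFinset).card : ℝ) = (G.edgeFinset.card : ℝ) - G'.edgeFinset.card := by
      rw [Finset.card_sdiff_of_subset hsub, Nat.cast_sub (Finset.card_le_card hsub)]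
    rw [h1]
    refine lt_of_le_of_lt (le_of_eq ?_) (hedge.trans_le (le_of_eq ?_))
    · rfl
    · push_cast
      rw [hcard, hε']
      ring
  -- the bound for each of the three sets
  have hbound : ∀ {p q : Fin 3} (hpq : p ≠ q) {W : Finset (ZMod m)},
      (∀ x ∈ W, ∀ i, G.Adj (p, i) (q, i + x)) →
      ((W \ W.filter (fun x => 3 * (univ.filter (fun i : ZMod m => ¬ G'.Adj (p, i) (q, i + x))).card < m)).card : ℝ)
        ≤ ε * m := by
    intro p q hpq W hW
    have h1 := A4_rem (G' := G') hpq hW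
    have h2 : W \ W.filter (fun x => 3 * (univ.filter (fun i : ZMod m => ¬ G'.Adj (p, i) (q, i + x))).card < m) =
        W.filter (fun x => ¬ 3 * (univ.filter (fun i : ZMod m => ¬ G'.Adj (p, i) (q, i + x))).card < m) := by
      ext x
      simp only [Finset.mem_sdiff, Finset.mem_filter, not_and]
      tauto
    rw [h2]
    have h3 : ((W.filter (fun x => ¬ 3 * (univ.filter (fun i : ZMod m => ¬ G'.Adj (p, i) (q, i + x))).card < m)).card : ℝ) * m
        ≤ 3 * ((G.edgeFinset \ G'.edgeFinset).card : ℝ) := by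
      have h4 : (W.filter (fun x => ¬ 3 * (univ.filter (fun i : ZMod m => ¬ G'.Adj (p, i) (q, i + x))).card < m)).card * m
          ≤ 3 * (G.edgeFinset \ G'.edgeFinset).card := by
        exact h1
      exact_mod_cast h4
    have h5 : min ε 1 ≤ ε := min_le_left _ _
    have h6 : ((W.filter (fun x => ¬ 3 * (univ.filter (fun i : ZMod m => ¬ G'.Adj (p, i) (q, i + x))).card < m)).card : ℝ) * m
        ≤ ε * m * m := by
      nlinarith [mul_pos hm hm]
    exact le_of_mul_le_mul_right h6 hm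
  refine ⟨X.filter (fun x => 3 * (univ.filter (fun i : ZMod m => ¬ G'.Adj (0, i) (1, i + x))).card < m),
    Y.filter (fun x => 3 * (univ.filter (fun i : ZMod m => ¬ G'.Adj (1, i) (2, i + x))).card < m),
    Z.filter (fun x => 3 * (univ.filter (fun i : ZMod m => ¬ G'.Adj (0, i) (2, i + x))).card < m),
    Finset.filter_subset _ _, Finset.filter_subset _ _, Finset.filter_subset _ _, ?_, ?_, ?_, ?_⟩
  · refine hbound (by decide) ?_
    intro x hx i
    rw [hG, A4_01]
    simpa using hx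
  · refine hbound (by decide) ?_
    intro x hx i
    rw [hG, A4_12]
    simpa using hx
  · refine hbound (by decide) ?_
    intro x hx i
    rw [hG, A4_02]
    simpa using hx
  · intro x hx y hy hz
    rw [Finset.mem_filter] at hx hy hz
    set I1 := univ.filter (fun i : ZMod m => ¬ G'.Adj (0, i) (1, i + x)) with hI1
    set I2 := univ.filter (fun i : ZMod m => ¬ G'.Adj (1, i) (2, i + y)) with hI2
    set I3 := univ.filter (fun i : ZMod m => ¬ G'.Adj (0, i) (2, i + (x + y))) with hI3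
    set I2' := I2.image (fun i => i - x) with hI2'
    have hc2 : I2'.card ≤ I2.card := Finset.card_image_le
    have hcup : (I1 ∪ I2' ∪ I3).card < m := by
      have h1 := Finset.card_union_le (I1 ∪ I2') I3
      have h2 := Finset.card_union_le I1 I2'
      have := hx.2
      have := hy.2
      have := hz.2
      omega
    obtain ⟨i, hi⟩ : ∃ i : ZMod m, i ∉ I1 ∪ I2' ∪ I3 := by
      by_contra hcon
      push Not at hcon
      have h1 : (univ : Finset (ZMod m)) ⊆ I1 ∪ I2' ∪ I3 := fun i _ => hcon i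
      have h2 := Finset.card_le_card h1
      rw [Finset.card_univ, ZMod.card] at h2
      omega
    simp only [Finset.mem_union, not_or] at hi
    obtain ⟨⟨h1, h2⟩, h3⟩ := hi
    have a1 : G'.Adj (0, i) (1, i + x) := by
      by_contra hcon
      exact h1 (by rw [hI1, Finset.mem_filter]; exact ⟨mem_univ _, hcon⟩)
    have a2 : G'.Adj (1, i + x) (2, i + x + y) := by
      by_contra hcon
      apply h2
      rw [hI2', Finset.mem_image]
      refine ⟨i + x, ?_, by ring⟩
      rw [hI2, Finset.mem_filter]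
      exact ⟨mem_univ _, hcon⟩
    have a3 : G'.Adj (0, i) (2, i + x + y) := by
      by_contra hcon
      apply h3
      rw [hI3, Finset.mem_filter]
      refine ⟨mem_univ _, ?_⟩
      rw [← add_assoc]
      exact hcon
    refine hfree {(0, i), (1, i + x), (2, i + x + y)} ?_
    rw [SimpleGraph.is3Clique_triple_iff]
    exact ⟨a1, a3, a2⟩

end SFP
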