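import Pool.Agent.SFP.AD
import Pool.Agent.DG.K3

/-!
# Module A5: Kneser's theorem in `ℤ / m`   (difficulty 2-3)

`Pool.Agent.DG.k3` for `X`, `Y`, `-Z` in `Q = ZMod m` (`x + y + (-z) ≠ 0`): a subgroup `F` with `|cl F X| + |cl F Y| + |cl F (-Z)| ≤ |Q / F| + 1`.
`Q` is cyclic: let `q = Nat.card (Q ⧸ F)` (`q ∣ m`, `AddSubgroup.card_quotient_dvd_card`, `Nat.card_zmod`).  `F = {x : q ∣ x.val}` i.e. for `x, y : ZMod m`:
`x - y ∈ F ↔ x.val % q = y.val % q`: `q • x ∈ F` for all `x` (the class of `x` in `Q / F` is killed by the order `q` of `Q / F`), so `F` contains the multiples of `q`,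
there are `m / q` of them (`x.val ∈ {0, q, 2 q, ..}`), and `|F| = m / q`, so `F` is this set; `(x - y).val ≡ x.val - y.val mod m`, hence mod `q`.
So `|cl F X| = cls q X`, `|cl F Y| = cls q Y`, `|cl F (-Z)| = cls q Z` (`x ↦ class of x` resp. `x.val % q` have the same fibres: `Finset.card_bij` or
`card_image_eq_of_same_fibres`; `-z, -z'` are congruent iff `z, z'` are).  Each class has at most `m / q` elements: `|X| ≤ cls q X * (m / q)` (`le_cls`), so
`(1 + ε) m < (q + 1) (m / q)`, i.e. `(1 + ε) q < q + 1`, `ε q < 1`.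
-/

namespace SFP

open Finset

/-- each class modulo `q` has at most `m / q` elements -/
theorem le_cls {m q : ℕ} [NeZero m] (hq : q ∣ m) (X : Finset (ZMod m)) :
    (X.card : ℝ) * q ≤ cls q X * m := by
  have hm : 0 < m := NeZero.pos m
  have hq0 : 0 < q := Nat.pos_of_dvd_of_pos hq hm
  have h1 : X.card ≤ m / q * (X.image (fun x => x.val % q)).card := by
    refine Finset.card_le_mul_card_image X (m / q) ?_
    intro r _
    have h2 : (X.filter (fun x => x.val % q = r)).card ≤ (range (m / q)).card := by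
      refine Finset.card_le_card_of_injOn (fun x => x.val / q) ?_ ?_
      · intro x _
        simp only [coe_range, Set.mem_Iio]
        exact Nat.div_lt_div_of_lt_of_dvd hq (ZMod.val_lt x)
      · intro x hx y hy hxy
        have hx2 := (Finset.mem_filter.1 (Finset.mem_coe.1 hx)).2
        have hy2 := (Finset.mem_filter.1 (Finset.mem_coe.1 hy)).2
        have hxy' : x.val / q = y.val / q := hxy
        apply ZMod.val_injective m
        rw [← Nat.div_add_mod x.val q, ← Nat.div_add_mod y.val q, hxy', hx2, hy2]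
    rwa [card_range] at h2
  have h3 : X.card * q ≤ (X.image (fun x => x.val % q)).card * m := by
    calc X.card * q ≤ m / q * (X.image (fun x => x.val % q)).card * q := Nat.mul_le_mul_right _ h1
      _ = (X.image (fun x => x.val % q)).card * (m / q * q) := by ring
      _ = (X.image (fun x => x.val % q)).card * m := by rw [Nat.div_mul_cancel hq]
  show (X.card : ℝ) * q ≤ (((X.image (fun x => x.val % q)).card : ℕ) : ℝ) * m
  exact_mod_cast h3

/-- elements of `ZMod m` with the same residue modulo the index of `F` are congruent modulo `F` -/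
theorem A5_mk {m : ℕ} [NeZero m] (F : AddSubgroup (ZMod m)) (x : ZMod m) :
    (QuotientAddGroup.mk (((x.val % Nat.card (ZMod m ⧸ F) : ℕ) : ZMod m)) : ZMod m ⧸ F)
      = QuotientAddGroup.mk x := by
  obtain ⟨q, hq⟩ : ∃ q : ℕ, q = Nat.card (ZMod m ⧸ F) := ⟨_, rfl⟩
  rw [← hq, QuotientAddGroup.eq]
  have h1 : -((x.val % q : ℕ) : ZMod m) + x = q • ((x.val / q : ℕ) : ZMod m) := by
    have h2 : ((q * (x.val / q) + x.val % q : ℕ) : ZMod m) = x := by
      rw [Nat.div_add_mod, ZMod.natCast_zmod_val]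
    rw [nsmul_eq_mul]
    rw [Nat.cast_add, Nat.cast_mul] at h2
    linear_combination -h2
  rw [h1, ← QuotientAddGroup.eq_zero_iff, QuotientAddGroup.mk_nsmul, hq]
  exact card_nsmul_eq_zero'

theorem A5_iff {m : ℕ} [NeZero m] (F : AddSubgroup (ZMod m)) (r r' : ℕ)
    (hr : r < Nat.card (ZMod m ⧸ F)) (hr' : r' < Nat.card (ZMod m ⧸ F))
    (h : (QuotientAddGroup.mk ((r : ZMod m)) : ZMod m ⧸ F) = QuotientAddGroup.mk ((r' : ZMod m))) :
    r = r' := by
  have : Fintype (ZMod m ⧸ F) := Fintype.ofFinite _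
  have hpos : 0 < Nat.card (ZMod m ⧸ F) := by omega
  have hs : Function.Surjective (fun r : Fin (Nat.card (ZMod m ⧸ F)) =>
      (QuotientAddGroup.mk (((r : ℕ) : ZMod m)) : ZMod m ⧸ F)) := by
    intro c
    obtain ⟨x, rfl⟩ := QuotientAddGroup.mk_surjective c
    exact ⟨⟨x.val % Nat.card (ZMod m ⧸ F), Nat.mod_lt _ hpos⟩, A5_mk F x⟩
  have hb := (Fintype.bijective_iff_surjective_and_card _).2 ⟨hs, by
    rw [Fintype.card_fin, Nat.card_eq_fintype_card]⟩
  have h2 := hb.1 (a₁ := ⟨r, hr⟩) (a₂ := ⟨r', hr'⟩) h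
  exact congrArg Fin.val h2

theorem A5_card {m : ℕ} [NeZero m] (F : AddSubgroup (ZMod m)) (X : Finset (ZMod m)) :
    (Pool.Agent.DG.cl F X).card = cls (Nat.card (ZMod m ⧸ F)) X := by
  classical
  have hpos : 0 < Nat.card (ZMod m ⧸ F) := Nat.card_pos
  have h1 : Pool.Agent.DG.cl F X
      = (X.image (fun x => x.val % Nat.card (ZMod m ⧸ F))).image
        (fun r : ℕ => (QuotientAddGroup.mk ((r : ZMod m)) : ZMod m ⧸ F)) := by
    ext c
    rw [Pool.Agent.DG.mem_cl, Finset.image_image]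
    simp only [mem_image, Function.comp]
    constructor
    · rintro ⟨x, hx, rfl⟩
      exact ⟨x, hx, A5_mk F x⟩
    · rintro ⟨x, hx, rfl⟩
      exact ⟨x, hx, (A5_mk F x).symm⟩
  rw [h1, Finset.card_image_of_injOn]
  · rfl
  · intro r hr r' hr' he
    rw [Finset.mem_coe, Finset.mem_image] at hr hr'
    obtain ⟨x, _, rfl⟩ := hr
    obtain ⟨x', _, rfl⟩ := hr'
    exact A5_iff F _ _ (Nat.mod_lt _ hpos) (Nat.mod_lt _ hpos) he

theorem A5_neg {m : ℕ} [NeZero m] (F : AddSubgroup (ZMod m)) (Z : Finset (ZMod m)) :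
    (Pool.Agent.DG.cl F (Z.image (fun z => -z))).card = (Pool.Agent.DG.cl F Z).card := by
  classical
  have h1 : Pool.Agent.DG.cl F (Z.image (fun z => -z)) = (Pool.Agent.DG.cl F Z).image (fun c => -c) := by
    ext c
    rw [Pool.Agent.DG.mem_cl, Finset.mem_image]
    constructor
    · rintro ⟨x, hx, rfl⟩
      obtain ⟨z, hz, rfl⟩ := Finset.mem_image.1 hx
      exact ⟨QuotientAddGroup.mk z, Pool.Agent.DG.mem_cl.2 ⟨z, hz, rfl⟩, rfl⟩
    · rintro ⟨c', hc', rfl⟩
      obtain ⟨z, hz, rfl⟩ := Pool.Agent.DG.mem_cl.1 hc'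
      exact ⟨-z, Finset.mem_image.2 ⟨z, hz, rfl⟩, rfl⟩
  rw [h1, Finset.card_image_of_injective _ neg_injective]

theorem kneser {ε : ℝ} (hε : 0 < ε) {m : ℕ} [NeZero m] {X Y Z : Finset (ZMod m)} (hX : X.Nonempty)
    (hY : Y.Nonempty) (hZ : Z.Nonempty) (h : ∀ x ∈ X, ∀ y ∈ Y, x + y ∉ Z)
    (hc : (1 + ε) * m < (X.card : ℝ) + Y.card + Z.card) :
    ∃ q : ℕ, 1 ≤ q ∧ q ∣ m ∧ q * ε < 1 ∧ cls q X + cls q Y + cls q Z ≤ q + 1 := by
  classical
  obtain ⟨F, -, hF⟩ := Pool.Agent.DG.k3 X Y (Z.image (fun z => -z)) hX hY (hZ.image _) (by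
    intro x hx y hy z hz h0
    obtain ⟨z', hz', rfl⟩ := Finset.mem_image.1 hz
    have h1 : x + y = z' := by
      have h2 : x + y + -z' + z' = 0 + z' := by rw [h0]
      rwa [neg_add_cancel_right, zero_add] at h2
    exact h x hx y hy (h1 ▸ hz'))
  rw [A5_card, A5_card, A5_neg, A5_card] at hF
  have hpos : 0 < Nat.card (ZMod m ⧸ F) := Nat.card_pos
  have hdvd : Nat.card (ZMod m ⧸ F) ∣ m := by
    have := F.card_quotient_dvd_card
    rwa [Nat.card_zmod] at this
  obtain ⟨q, hq⟩ : ∃ q : ℕ, q = Nat.card (ZMod m ⧸ F) := ⟨_, rfl⟩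
  rw [← hq] at hF hpos hdvd
  refine ⟨q, hpos, hdvd, ?_, hF⟩
  have e1 := le_cls hdvd X
  have e2 := le_cls hdvd Y
  have e3 := le_cls hdvd Z
  have hm : (0 : ℝ) < m := by exact_mod_cast NeZero.pos m
  have hq' : (0 : ℝ) < q := by exact_mod_cast hpos
  have hF' : (cls q X : ℝ) + cls q Y + cls q Z ≤ q + 1 := by exact_mod_cast hF
  have h4 : ((X.card : ℝ) + Y.card + Z.card) * q ≤ (q + 1) * m := by
    calc ((X.card : ℝ) + Y.card + Z.card) * q ≤ ((cls q X : ℝ) + cls q Y + cls q Z) * m := by linarith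
      _ ≤ (q + 1) * m := mul_le_mul_of_nonneg_right hF' hm.le
  have h5 : (1 + ε) * m * q < (q + 1) * m := lt_of_lt_of_le (mul_lt_mul_of_pos_right hc hq') h4
  have h6 : (q * ε - 1) * m < 0 := by nlinarith
  by_contra hcon
  push Not at hcon
  have : 0 ≤ (q * ε - 1) * m := mul_nonneg (by linarith) hm.le
  linarith

end SFP
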