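import Pool.Agent.SFP.A6a

/-!
# Module A6b: a good pair of blocks   (difficulty 2-3)

* `avg_pair`: otherwise `N s j > g` or `f s j ≤ 1 + ε / 4` for all `s < n`, `j < k`; in both cases `f s j ≤ 1 + ε / 4 + (2 / g) N s j` (`f ≤ 3`, `N ≥ 0`, `N > g` gives `(2/g) N ≥ 2`).
  Sum: `∑ ∑ f ≤ (1 + ε / 4) n k + (2 / g) ∑ ∑ N < (1 + ε / 4) n k + (ε / 4) n k`, contradiction.
* `sum_dens`: `n = X / m`, `k = L / m - X / m - 1` (natural numbers).  `J := k`.
  (1) `∑_s |A_s| ≥ |A| - m` (`sum_blk`: the elements of `A` not below `n m` are in `[n m, X]`, at most `X - n m + 1 ≤ m` of them).  So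
      `∑_s |A_s| / m ≥ n (|A| - m) / X` (`n m ≤ X`; if `|A| < m` the right side is negative), `≥ n (|A| / X - ε / 100)`.
  (2) `k m ≥ L - X - 2 m` (reals), `k m ≤ L`.  `∑_j |B_j| ≥ |B| - (L - k m) ≥ |B| - X - 2 m`, so `∑_j |B_j| / m ≥ k (|B| - X - 2 m) / L ≥ k (|B| / L - 3 ε / 100)` (`m ≤ X`, `X / L ≤ ε / 100`).
  (3) for each `s < n`: `∑_j |B_{j+s+1}| = #{b ∈ B : (s+1) m ≤ b < (s+1+k) m}` (`sum_blk` for `n := s + 1 + k` and `s + 1`; `sum_range_add`-type) `≥ |B| - (s+1) m - (L - (s+1+k) m)` as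
      `s + 1 + k ≤ L / m`, which is `|B| - (L - k m)`: the same bound.
  Total: `∑_s ∑_j (..)/m ≥ n k (|A| / X + 2 |B| / L - 7 ε / 100) ≥ n k (1 + ε / 2)`.
-/

namespace SFP

open Finset

theorem avg_pair {n k : ℕ} {ε g : ℝ} (hg : 0 < g) (f N : ℕ → ℕ → ℝ) (hf : ∀ s j, f s j ≤ 3)
    (hN : ∀ s j, 0 ≤ N s j) (h0 : 0 ≤ ε)
    (h1 : (1 + ε / 2) * (n * k) ≤ ∑ s ∈ range n, ∑ j ∈ range k, f s j)
    (h2 : ∑ s ∈ range n, ∑ j ∈ range k, N s j < ε / 8 * g * (n * k)) :
    ∃ s j, s < n ∧ j < k ∧ 1 + ε / 4 < f s j ∧ N s j ≤ g := by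
  by_contra hcon
  push Not at hcon
  have h3 : ∀ s ∈ range n, ∀ j ∈ range k, f s j ≤ 1 + ε / 4 + 2 / g * N s j := by
    intro s hs j hj
    have h4 := hcon s j (Finset.mem_range.1 hs) (Finset.mem_range.1 hj)
    rcases le_or_gt (f s j) (1 + ε / 4) with h5 | h5
    · have : 0 ≤ 2 / g * N s j := mul_nonneg (by positivity) (hN s j)
      linarith
    · have h6 := h4 h5
      have h7 : 2 ≤ 2 / g * N s j := by
        have h8 : 2 / g * g ≤ 2 / g * N s j := mul_le_mul_of_nonneg_left h6.le (by positivity)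
        rwa [div_mul_cancel₀ _ hg.ne'] at h8
      linarith [hf s j]
  have h4 : ∑ s ∈ range n, ∑ j ∈ range k, f s j
      ≤ ∑ s ∈ range n, ∑ j ∈ range k, (1 + ε / 4 + 2 / g * N s j) :=
    Finset.sum_le_sum (fun s hs => Finset.sum_le_sum (fun j hj => h3 s hs j hj))
  have h5 : ∑ s ∈ range n, ∑ j ∈ range k, (1 + ε / 4 + 2 / g * N s j)
      = (1 + ε / 4) * (n * k) + 2 / g * ∑ s ∈ range n, ∑ j ∈ range k, N s j := by
    rw [Finset.mul_sum]
    simp_rw [Finset.sum_add_distrib, ← Finset.mul_sum]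
    simp only [Finset.sum_const, card_range, nsmul_eq_mul]
    ring
  have h6 : 2 / g * ∑ s ∈ range n, ∑ j ∈ range k, N s j < 2 / g * (ε / 8 * g * (n * k)) :=
    mul_lt_mul_of_pos_left h2 (by positivity)
  have h7 : 2 / g * (ε / 8 * g * (n * k)) = ε / 4 * (n * k) := by
    field_simp
    ring
  rw [h5] at h4
  linarith

theorem A6b_cnt {B : Finset ℕ} {L w : ℕ} (hB : ∀ b ∈ B, b < L) (hw : w ≤ L) :
    (B.card : ℝ) ≤ ((B.filter (fun b => b < w)).card : ℝ) + ((L : ℝ) - w) := by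
  have h1 := Finset.card_filter_add_card_filter_not (s := B) (fun b => b < w)
  have h2 : (B.filter (fun b => ¬ b < w)).card ≤ L - w := by
    rw [← Nat.card_Ico w L]
    refine Finset.card_le_card ?_
    intro b hb
    rw [Finset.mem_filter] at hb
    rw [Finset.mem_Ico]
    exact ⟨not_lt.1 hb.2, hB b hb.1⟩
  have h3 : B.card ≤ (B.filter (fun b => b < w)).card + (L - w) := by omega
  have h4 : ((L - w : ℕ) : ℝ) = (L : ℝ) - w := Nat.cast_sub hw
  rw [← h4]
  exact_mod_cast h3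

theorem A6b_lt {B : Finset ℕ} {w : ℕ} : ((B.filter (fun b => b < w)).card : ℝ) ≤ w := by
  have h2 : (B.filter (fun b => b < w)).card ≤ w := by
    conv_rhs => rw [← card_range w]
    refine Finset.card_le_card ?_
    intro b hb
    rw [Finset.mem_filter] at hb
    rw [Finset.mem_range]
    exact hb.2
  exact_mod_cast h2

theorem A6b_div {N T m q V : ℝ} (hN : 0 ≤ N) (hNT : T ≤ N) (hm : 0 < m) (hV : 0 < V) (hq : 0 ≤ q)
    (h : q * m ≤ V) : q * (T / V) ≤ N / m := by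
  rcases le_or_gt T 0 with h1 | h1
  · have h2 : T / V ≤ 0 := div_nonpos_of_nonpos_of_nonneg h1 hV.le
    have h3 : q * (T / V) ≤ 0 := mul_nonpos_of_nonneg_of_nonpos hq h2
    have h4 : 0 ≤ N / m := div_nonneg hN hm.le
    linarith
  · rw [le_div_iff₀ hm]
    have h2 : q * (T / V) * m = (q * m) * (T / V) := by ring
    rw [h2]
    have h3 : (q * m) * (T / V) ≤ V * (T / V) := mul_le_mul_of_nonneg_right h (by positivity)
    rw [mul_div_cancel₀ _ hV.ne'] at h3
    linarith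

theorem sum_dens {ε : ℝ} {m X L : ℕ} [NeZero m] {A B : Finset ℕ} (hA : ∀ a ∈ A, 1 ≤ a ∧ a ≤ X)
    (hB : ∀ b ∈ B, b < L) (hε : 0 < ε) (h1 : 100 * (m : ℝ) ≤ ε * X) (h2 : 100 * (X : ℝ) ≤ ε * L)
    (h3 : ε ≤ 1) (hd : 1 + ε < (A.card : ℝ) / X + 2 * ((B.card : ℝ) / L)) :
    (1 + ε / 2) * (((X / m : ℕ) : ℝ) * ((L / m - X / m - 1 : ℕ) : ℝ)) ≤
      ∑ s ∈ range (X / m), ∑ j ∈ range (L / m - X / m - 1),
        (((blk m A s).card : ℝ) + (blk m B j).card + (blk m B (j + s + 1)).card) / m := by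
  have hm : 0 < m := NeZero.pos m
  have hmR : (0 : ℝ) < m := by exact_mod_cast hm
  have hmX : 100 * (m : ℝ) ≤ X := by nlinarith [(Nat.cast_nonneg X : (0 : ℝ) ≤ X)]
  have hXR : (0 : ℝ) < X := by linarith
  have hXL : 100 * (X : ℝ) ≤ L := by nlinarith [(Nat.cast_nonneg L : (0 : ℝ) ≤ L)]
  have hLR : (0 : ℝ) < L := by linarith
  have hmX' : 100 * m ≤ X := by exact_mod_cast hmX
  have hXL' : 100 * X ≤ L := by exact_mod_cast hXL
  obtain ⟨n, hn⟩ : ∃ n, n = X / m := ⟨_, rfl⟩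
  obtain ⟨l, hl⟩ : ∃ l, l = L / m := ⟨_, rfl⟩
  have hnm : n * m ≤ X := by rw [hn]; exact Nat.div_mul_le_self X m
  have hnm2 : X < n * m + m := by
    have := Nat.lt_div_mul_add hm (a := X)
    rwa [← hn] at this
  have hlm : l * m ≤ L := by rw [hl]; exact Nat.div_mul_le_self L m
  have hlm2 : L < l * m + m := by
    have := Nat.lt_div_mul_add hm (a := L)
    rwa [← hl] at this
  have hn1 : n + 1 ≤ l := by
    have h5 : (n + 1) * m ≤ l * m + m := by nlinarith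
    by_contra hcon
    have h6 : l ≤ n := by omega
    have h7 : l * m ≤ n * m := Nat.mul_le_mul_right _ h6
    omega
  obtain ⟨k, hk⟩ : ∃ k, l = n + 1 + k := ⟨l - (n + 1), by omega⟩
  have hkk : L / m - X / m - 1 = k := by rw [← hn, ← hl]; omega
  rw [hkk, ← hn]
  -- real forms
  have hnmR : (n : ℝ) * m ≤ X := by exact_mod_cast hnm
  have hnm2R : (X : ℝ) + 1 ≤ n * m + m := by exact_mod_cast hnm2
  have hlmR : ((n : ℝ) + 1 + k) * m ≤ L := by
    have : ((n + 1 + k : ℕ) : ℝ) * m ≤ L := by rw [← hk]; exact_mod_cast hlm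
    push_cast at this
    exact this
  have hlm2R : (L : ℝ) ≤ ((n : ℝ) + 1 + k) * m + m := by
    have : (L : ℝ) ≤ ((n + 1 + k : ℕ) : ℝ) * m + m := by rw [← hk]; exact_mod_cast hlm2.le
    push_cast at this
    exact this
  have hn0 : (0 : ℝ) ≤ n := Nat.cast_nonneg n
  have hk0 : (0 : ℝ) ≤ k := Nat.cast_nonneg k
  have hkm : (k : ℝ) * m ≤ L := by nlinarith
  have hLk : (L : ℝ) - k * m ≤ X + 2 * m := by nlinarith
  -- the sums
  have sA : (A.card : ℝ) - m ≤ ∑ s ∈ range n, ((blk m A s).card : ℝ) := by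
    have e1 := sum_blk hm A n
    have e2 := A6b_cnt (B := A) (L := X + 1) (w := n * m) (fun a ha => by
      have := (hA a ha).2
      omega) (by omega)
    have e3 : ∑ s ∈ range n, ((blk m A s).card : ℝ) = ((A.filter (fun a => a < n * m)).card : ℝ) := by
      exact_mod_cast e1
    rw [e3]
    push_cast at e2
    linarith
  have sB : (B.card : ℝ) - (X + 2 * m) ≤ ∑ j ∈ range k, ((blk m B j).card : ℝ) := by
    have e1 := sum_blk hm B k
    have e2 := A6b_cnt (B := B) (L := L) (w := k * m) hB (by exact_mod_cast hkm)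
    have e3 : ∑ s ∈ range k, ((blk m B s).card : ℝ) = ((B.filter (fun a => a < k * m)).card : ℝ) := by
      exact_mod_cast e1
    rw [e3]
    push_cast at e2
    linarith
  have sC : ∀ s ∈ range n, (B.card : ℝ) - (X + 2 * m) ≤ ∑ j ∈ range k, ((blk m B (j + s + 1)).card : ℝ) := by
    intro s hs
    have hs' : s + 1 ≤ n := Finset.mem_range.1 hs
    have hsR : (s : ℝ) + 1 ≤ n := by exact_mod_cast hs'
    have e1 := sum_blk hm B (s + 1 + k)
    have e1' := sum_blk hm B (s + 1)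
    have hw : (s + 1 + k) * m ≤ L := by
      refine le_trans (Nat.mul_le_mul_right _ ?_) hlm
      omega
    have e2 := A6b_cnt (B := B) (L := L) (w := (s + 1 + k) * m) hB hw
    have e2' := A6b_lt (B := B) (w := (s + 1) * m)
    rw [Finset.sum_range_add] at e1
    have e3 : ∑ j ∈ range (s + 1), ((blk m B j).card : ℝ)
        + ∑ j ∈ range k, ((blk m B (s + 1 + j)).card : ℝ)
          = ((B.filter (fun a => a < (s + 1 + k) * m)).card : ℝ) := by
      exact_mod_cast e1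
    have e4 : ∑ j ∈ range (s + 1), ((blk m B j).card : ℝ)
        = ((B.filter (fun a => a < (s + 1) * m)).card : ℝ) := by
      exact_mod_cast e1'
    have e5 : ∑ j ∈ range k, ((blk m B (j + s + 1)).card : ℝ)
        = ∑ j ∈ range k, ((blk m B (s + 1 + j)).card : ℝ) := by
      refine Finset.sum_congr rfl (fun j _ => ?_)
      rw [show j + s + 1 = s + 1 + j by ring]
    rw [e5]
    push_cast at e2 e2'
    nlinarith
  have nnA : 0 ≤ ∑ s ∈ range n, ((blk m A s).card : ℝ) := Finset.sum_nonneg (fun _ _ => Nat.cast_nonneg _)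
  have nnB : 0 ≤ ∑ j ∈ range k, ((blk m B j).card : ℝ) := Finset.sum_nonneg (fun _ _ => Nat.cast_nonneg _)
  have dA := A6b_div nnA sA hmR hXR hn0 hnmR
  have dB := A6b_div nnB sB hmR hLR hk0 hkm
  have dC : ∀ s ∈ range n, (k : ℝ) * (((B.card : ℝ) - (X + 2 * m)) / L)
      ≤ (∑ j ∈ range k, ((blk m B (j + s + 1)).card : ℝ)) / m := fun s hs =>
    A6b_div (Finset.sum_nonneg (fun _ _ => Nat.cast_nonneg _)) (sC s hs) hmR hLR hk0 hkm
  -- the total
  have tot : ∑ s ∈ range n, ∑ j ∈ range k,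
        (((blk m A s).card : ℝ) + (blk m B j).card + (blk m B (j + s + 1)).card) / m
      = k * ((∑ s ∈ range n, ((blk m A s).card : ℝ)) / m) + n * ((∑ j ∈ range k, ((blk m B j).card : ℝ)) / m)
        + ∑ s ∈ range n, (∑ j ∈ range k, ((blk m B (j + s + 1)).card : ℝ)) / m := by
    simp_rw [add_div, Finset.sum_add_distrib, ← Finset.sum_div]
    simp only [Finset.sum_const, card_range, nsmul_eq_mul]
    rw [← Finset.mul_sum]
    ring
  have tC : (n : ℝ) * ((k : ℝ) * (((B.card : ℝ) - (X + 2 * m)) / L))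
      ≤ ∑ s ∈ range n, (∑ j ∈ range k, ((blk m B (j + s + 1)).card : ℝ)) / m := by
    have := Finset.card_nsmul_le_sum (range n)
      (fun s => (∑ j ∈ range k, ((blk m B (j + s + 1)).card : ℝ)) / m)
      ((k : ℝ) * (((B.card : ℝ) - (X + 2 * m)) / L)) dC
    rwa [card_range, nsmul_eq_mul] at this
  rw [tot]
  have t1 : (k : ℝ) * ((n : ℝ) * (((A.card : ℝ) - m) / X)) ≤ k * ((∑ s ∈ range n, ((blk m A s).card : ℝ)) / m) :=
    mul_le_mul_of_nonneg_left dA hk0
  have t2 : (n : ℝ) * ((k : ℝ) * (((B.card : ℝ) - (X + 2 * m)) / L))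
      ≤ n * ((∑ j ∈ range k, ((blk m B j).card : ℝ)) / m) := mul_le_mul_of_nonneg_left dB hn0
  have r1 : (A.card : ℝ) / X - ε / 100 ≤ ((A.card : ℝ) - m) / X := by
    rw [sub_div]
    have : (m : ℝ) / X ≤ ε / 100 := by
      rw [div_le_div_iff₀ hXR (by norm_num)]
      linarith
    linarith
  have r2 : (B.card : ℝ) / L - 3 * ε / 100 ≤ ((B.card : ℝ) - (X + 2 * m)) / L := by
    rw [sub_div]
    have : ((X : ℝ) + 2 * m) / L ≤ 3 * ε / 100 := by
      rw [div_le_div_iff₀ hLR (by norm_num)]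
      linarith
    linarith
  have hnk : 0 ≤ (n : ℝ) * k := mul_nonneg hn0 hk0
  have f1 : (n : ℝ) * k * ((A.card : ℝ) / X - ε / 100) ≤ (k : ℝ) * ((n : ℝ) * (((A.card : ℝ) - m) / X)) := by
    have := mul_le_mul_of_nonneg_left r1 hnk
    linarith
  have f2 : (n : ℝ) * k * ((B.card : ℝ) / L - 3 * ε / 100)
      ≤ (n : ℝ) * ((k : ℝ) * (((B.card : ℝ) - (X + 2 * m)) / L)) := by
    have := mul_le_mul_of_nonneg_left r2 hnk
    linarith
  have f3 : (1 + ε / 2) * ((n : ℝ) * k) ≤ (n : ℝ) * k * ((A.card : ℝ) / X - ε / 100)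
      + 2 * ((n : ℝ) * k * ((B.card : ℝ) / L - 3 * ε / 100)) := by
    have : (1 + ε / 2) ≤ ((A.card : ℝ) / X - ε / 100) + 2 * ((B.card : ℝ) / L - 3 * ε / 100) := by linarith
    have := mul_le_mul_of_nonneg_left this hnk
    linarith
  linarith

end SFP
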