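import Pool.Agent.SFP.AD

/-!
# Module A6a: blocks   (difficulty 2)

* `blk_card`: `a ↦ (a : ZMod m)` is injective on `{a : a / m = s}` (`a = s m + a % m`, `ZMod.natCast_eq_natCast_iff'`).
* `mem_blk`: `x ∈ blk m A s ↔ s m + x.val ∈ A`.
* `sum_blk`: fibres of `a ↦ a / m` (`card_eq_sum_card_fiberwise`, `Nat.div_lt_iff_lt_mul`).
* `blk_le`: at most `m` elements (`ZMod.card`).
* `sum_blk_N`: the pairs `(x̄, ȳ) ∈ blk A s × blk B j` with `x̄ + ȳ ∈ blk B (j + s + 1)`: `x = s m + x', y = j m + y'` with `x' = x̄.val < m`, `y' = ȳ.val < m`, `x ∈ A`, `y ∈ B`,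
  `z = (j + s + 1) m + z' ∈ B` with `z' = (x̄ + ȳ).val = (x' + y') % m` (`ZMod.val_add`).  If `x' + y' < m`: `z = x + y + m`.  Otherwise `z' = x' + y' - m`, `z = x + y`.  So
  `(s, j, x̄, ȳ) ↦ (x, y)` is an injection of the disjoint union of these sets into the union of the two sets on the right (`s = x / m`, `j = y / m`).
* `rp_ge`: `P ∪ (P + h)` is contained in `{y ∈ [u, u + m + h) : y % q = c}`, which has exactly `(m + h) / q` elements (`q ∣ m + h`; e.g. `Nat.Ico_filter_modEq_card`, or induction),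
  `|P ∩ (P + h)| ≤ rp W h`, `|P ∪ (P + h)| = 2 |P| - |P ∩ (P + h)|`.
-/

namespace SFP

open Finset

theorem blk_card {m : ℕ} (hm : 0 < m) (A : Finset ℕ) (s : ℕ) :
    (blk m A s).card = (A.filter (fun a => a / m = s)).card := by
  unfold blk
  apply card_image_of_injOn
  intro a ha b hb hab
  simp only [coe_filter, Set.mem_setOf_eq] at ha hb
  have h1 : a % m = b % m := (ZMod.natCast_eq_natCast_iff' a b m).1 hab
  rw [← Nat.div_add_mod a m, ← Nat.div_add_mod b m, ha.2, hb.2, h1]

theorem mem_blk {m : ℕ} [NeZero m] {A : Finset ℕ} {s : ℕ} {x : ZMod m} :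
    x ∈ blk m A s ↔ s * m + x.val ∈ A := by
  unfold blk
  rw [mem_image]
  constructor
  · rintro ⟨a, ha, rfl⟩
    rw [mem_filter] at ha
    rw [ZMod.val_natCast]
    have h2 := Nat.div_add_mod' a m
    rw [← ha.2, h2]
    exact ha.1
  · intro h
    refine ⟨s * m + x.val, mem_filter.2 ⟨h, ?_⟩, ?_⟩
    · rw [Nat.mul_comm, Nat.mul_add_div (NeZero.pos m), Nat.div_eq_of_lt (ZMod.val_lt x), add_zero]
    · push_cast
      simp

theorem sum_blk {m : ℕ} (hm : 0 < m) (A : Finset ℕ) (n : ℕ) :
    ∑ s ∈ range n, (blk m A s).card = (A.filter (fun a => a < n * m)).card := by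
  simp only [blk_card hm]
  have h := card_eq_sum_card_fiberwise (f := fun a => a / m) (s := A.filter (fun a => a < n * m))
    (t := range n) (by
      intro a ha
      simp only [coe_filter, Set.mem_setOf_eq] at ha
      simp only [coe_range, Set.mem_Iio]
      exact (Nat.div_lt_iff_lt_mul hm).2 ha.2)
  rw [h]
  apply sum_congr rfl
  intro s hs
  rw [mem_range] at hs
  congr 1
  ext a
  simp only [mem_filter]
  constructor
  · rintro ⟨h1, h2⟩
    refine ⟨⟨h1, ?_⟩, h2⟩
    rw [← Nat.div_lt_iff_lt_mul hm, h2]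
    exact hs
  · rintro ⟨⟨h1, _⟩, h2⟩
    exact ⟨h1, h2⟩

theorem blk_le {m : ℕ} [NeZero m] (A : Finset ℕ) (s : ℕ) : (blk m A s).card ≤ m := by
  have h := card_le_univ (blk m A s)
  rwa [ZMod.card] at h

theorem sum_blk_N {m : ℕ} [NeZero m] (A B : Finset ℕ) (n k : ℕ) :
    ∑ s ∈ range n, ∑ j ∈ range k,
      ((blk m A s ×ˢ blk m B j).filter (fun p => p.1 + p.2 ∈ blk m B (j + s + 1))).card ≤
    ((A ×ˢ B).filter (fun p => p.1 + p.2 ∈ B)).card +
      ((A ×ˢ B).filter (fun p => p.1 + p.2 + m ∈ B)).card := by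
  obtain ⟨U, hU⟩ : ∃ U, U = (A ×ˢ B).filter (fun p => p.1 + p.2 ∈ B) ∪
      (A ×ˢ B).filter (fun p => p.1 + p.2 + m ∈ B) := ⟨_, rfl⟩
  have hUc : U.card ≤ ((A ×ˢ B).filter (fun p => p.1 + p.2 ∈ B)).card +
      ((A ×ˢ B).filter (fun p => p.1 + p.2 + m ∈ B)).card := by
    rw [hU]; exact card_union_le _ _
  refine le_trans ?_ hUc
  have hm : 0 < m := NeZero.pos m
  have h1 : ∀ s j : ℕ, ((blk m A s ×ˢ blk m B j).filter
      (fun p => p.1 + p.2 ∈ blk m B (j + s + 1))).card ≤
      (U.filter (fun p => (p.1 / m, p.2 / m) = (s, j))).card := by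
    intro s j
    apply card_le_card_of_injOn (fun p : ZMod m × ZMod m => (s * m + p.1.val, j * m + p.2.val))
    · intro p hp
      simp only [coe_filter, Set.mem_setOf_eq, mem_product, mem_blk] at hp
      obtain ⟨⟨hA, hB⟩, hC⟩ := hp
      have e1 : (s * m + p.1.val) / m = s := by
        rw [Nat.mul_comm, Nat.mul_add_div hm, Nat.div_eq_of_lt (ZMod.val_lt p.1), add_zero]
      have e2 : (j * m + p.2.val) / m = j := by
        rw [Nat.mul_comm, Nat.mul_add_div hm, Nat.div_eq_of_lt (ZMod.val_lt p.2), add_zero]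
      simp only [coe_filter, Set.mem_setOf_eq]
      refine ⟨?_, by rw [e1, e2]⟩
      rw [hU, mem_union, mem_filter, mem_filter]
      rw [ZMod.val_add] at hC
      have l1 := ZMod.val_lt p.1
      have l2 := ZMod.val_lt p.2
      rcases lt_or_ge (p.1.val + p.2.val) m with hlt | hge
      · right
        refine ⟨mem_product.2 ⟨hA, hB⟩, ?_⟩
        rw [Nat.mod_eq_of_lt hlt] at hC
        have e3 : (j + s + 1) * m + (p.1.val + p.2.val) =
            s * m + p.1.val + (j * m + p.2.val) + m := by ring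
        rwa [e3] at hC
      · left
        refine ⟨mem_product.2 ⟨hA, hB⟩, ?_⟩
        have e4 : (p.1.val + p.2.val) % m = p.1.val + p.2.val - m := by
          rw [Nat.mod_eq_sub_mod hge, Nat.mod_eq_of_lt (by omega)]
        rw [e4] at hC
        have e3 : (j + s + 1) * m + (p.1.val + p.2.val - m) =
            s * m + p.1.val + (j * m + p.2.val) := by
          have e5 : (j + s + 1) * m = s * m + j * m + m := by ring
          omega
        rwa [e3] at hC
    · intro p _ q _ hpq
      simp only [Prod.mk.injEq] at hpq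
      have e1 : p.1.val = q.1.val := by omega
      have e2 : p.2.val = q.2.val := by omega
      exact Prod.ext (ZMod.val_injective m e1) (ZMod.val_injective m e2)
  calc ∑ s ∈ range n, ∑ j ∈ range k,
      ((blk m A s ×ˢ blk m B j).filter (fun p => p.1 + p.2 ∈ blk m B (j + s + 1))).card
      ≤ ∑ s ∈ range n, ∑ j ∈ range k,
        (U.filter (fun p => (p.1 / m, p.2 / m) = (s, j))).card :=
        sum_le_sum (fun s _ => sum_le_sum (fun j _ => h1 s j))
    _ = ∑ x ∈ range n ×ˢ range k, (U.filter (fun p => (p.1 / m, p.2 / m) = x)).card := by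
        rw [sum_product]
    _ = ∑ x ∈ range n ×ˢ range k, ((U.filter (fun p => (p.1 / m, p.2 / m) ∈ range n ×ˢ range k)).filter
          (fun p => (p.1 / m, p.2 / m) = x)).card := by
        apply sum_congr rfl
        intro x hx
        congr 1
        ext p
        simp only [mem_filter]
        constructor
        · rintro ⟨a1, a2⟩
          exact ⟨⟨a1, by rw [a2]; exact hx⟩, a2⟩
        · rintro ⟨⟨a1, _⟩, a2⟩
          exact ⟨a1, a2⟩
    _ = (U.filter (fun p => (p.1 / m, p.2 / m) ∈ range n ×ˢ range k)).card := by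
        rw [← card_eq_sum_card_fiberwise (f := fun p : ℕ × ℕ => (p.1 / m, p.2 / m))]
        intro p hp
        simp only [coe_filter, Set.mem_setOf_eq] at hp
        exact hp.2
    _ ≤ U.card := card_filter_le _ _

theorem rp_ge {W P : Finset ℕ} {u m h q c : ℕ} (hq : 0 < q) (hm : q ∣ m) (hh : q ∣ h) (hP : P ⊆ W)
    (hP1 : ∀ y ∈ P, u ≤ y ∧ y < u + m ∧ y % q = c) : 2 * P.card ≤ rp W h + (m + h) / q := by
  obtain ⟨Q, hQ⟩ : ∃ Q, Q = P.image (fun y => y + h) := ⟨_, rfl⟩
  have hQc : Q.card = P.card := by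
    rw [hQ]; exact card_image_of_injective _ (add_left_injective h)
  have h1 : (P ∩ Q).card ≤ rp W h := by
    unfold rp
    apply card_le_card_of_injOn (fun y => y - h)
    · intro y hy
      rw [mem_coe, mem_inter, hQ, mem_image] at hy
      obtain ⟨hy1, z, hz, rfl⟩ := hy
      simp only [Nat.add_sub_cancel, coe_filter, Set.mem_setOf_eq]
      exact ⟨hP hz, hP hy1⟩
    · intro y hy z hz hyz
      rw [mem_coe, mem_inter, hQ, mem_image] at hy hz
      obtain ⟨hy1, a, ha, rfl⟩ := hy
      obtain ⟨hz1, b, hb, rfl⟩ := hz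
      simp only [Nat.add_sub_cancel] at hyz
      rw [hyz]
  have h2 : (P ∪ Q).card ≤ (m + h) / q := by
    rw [← card_range ((m + h) / q)]
    have hcl : ∀ y ∈ P ∪ Q, u ≤ y ∧ y < u + m + h ∧ y % q = c := by
      intro y hy
      rw [mem_union, hQ, mem_image] at hy
      rcases hy with hy | ⟨z, hz, rfl⟩
      · have := hP1 y hy
        exact ⟨this.1, by omega, this.2.2⟩
      · have := hP1 z hz
        refine ⟨by omega, by omega, ?_⟩
        obtain ⟨h', rfl⟩ := hh
        rw [Nat.add_mul_mod_self_left]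
        exact this.2.2
    apply card_le_card_of_injOn (fun y => (y - u) / q)
    · intro y hy
      obtain ⟨a1, a2, a3⟩ := hcl y hy
      rw [coe_range, Set.mem_Iio]
      apply Nat.div_lt_div_of_lt_of_dvd (Nat.dvd_add hm hh)
      omega
    · intro y hy z hz hyz
      obtain ⟨a1, a2, a3⟩ := hcl y hy
      obtain ⟨b1, b2, b3⟩ := hcl z hz
      simp only at hyz
      have hmod : (y - u) % q = (z - u) % q := by
        have e : (y - u) ≡ (z - u) [MOD q] := by
          apply Nat.ModEq.add_right_cancel' u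
          rw [Nat.sub_add_cancel a1, Nat.sub_add_cancel b1]
          exact a3.trans b3.symm
        exact e
      have e1 := Nat.div_add_mod (y - u) q
      have e2 := Nat.div_add_mod (z - u) q
      rw [hyz, hmod] at e1
      omega
  have h3 := card_union_add_card_inter P Q
  omega

end SFP
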