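import Pool.Agent.SFP.A4
import Pool.Agent.SFP.A5
import Pool.Agent.SFP.A6a

/-!
# Module A6c: a pair of blocks with few Schur triples   (difficulty 3)

`U, V, W ⊆ ZMod m` are the blocks `blk A s`, `blk B j`, `blk B j'`; `w : ℕ → Finset ℕ` etc. are hidden in the hypothesis `hover`: for each of them, and each `q ≤ K0` with `q ∣ m`, a
subset of a class mod `q` has at most `(m / q) (1/2 + ..)` elements.  Precisely the hypothesis on a set `U` is
`OV κ K0 U : ∀ q, 1 ≤ q → q ≤ K0 → q ∣ m → ∀ c, 2 * #{x ∈ U : x.val % q = c} ≤ m / q + κ m`.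

Claim: `(1 + ε / 4) m < |U| + |V| + |W|`, `#{(x, y) ∈ U × V : x + y ∈ W} ≤ γ m ^ 2` (`γ` from `removal (ε / 32)`), `8 ≤ K0 ε`, `κ ≤ ε / 64` and `OV κ K0` for `U, V, W` is impossible.
Proof.  Removal: `U', V', W'` with total size `> (1 + ε/4 - 3 ε/32) m ≥ (1 + ε/8) m`.
If one of them is empty: the two others have together `> (1 + ε / 8) m` elements, so one of `U, V, W` has more than `(1/2 + ε/16) m`; `q = 1`: `2 |U| ≤ m + κ m`, so `ε / 8 ≤ κ`, contradiction.
Otherwise `kneser (ε / 8)`: `q` with `q ∣ m`, `q ε / 8 < 1`, so `q ≤ K0`; `cls q U' + cls q V' + cls q W' ≤ q + 1`, each `cls ≥ 1`, so `q ≥ 2`.  By `OV` each class of `U'` has at most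
`(m / q + κ m) / 2` elements, so `m < |U'| + |V'| + |W'| ≤ (q + 1) (m / q + κ m) / 2` (`card ≤ cls * max fibre`, `card_le_mul_card_image`), i.e.
`2 q < (q + 1) (1 + κ q)`; as `q ≥ 2` and `κ q ≤ (ε / 64)(8 / ε) = 1/8`: `(q + 1) * 9 / 8 ≤ 2 q` for `q ≥ 2` (`9 q + 9 ≤ 16 q` iff `q ≥ 9/7`), contradiction.
-/

namespace SFP

open Finset

/-- no class modulo a small `q` is much more than half full -/
def OV {m : ℕ} (κ : ℝ) (K0 : ℕ) (U : Finset (ZMod m)) : Prop :=
  ∀ q c : ℕ, 1 ≤ q → q ≤ K0 → q ∣ m →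
    2 * ((U.filter (fun x => x.val % q = c)).card : ℝ) ≤ (m : ℝ) / q + κ * m

theorem A6c_cls {m q K0 : ℕ} {κ : ℝ} {U U' : Finset (ZMod m)} (hU : OV κ K0 U) (hs : U' ⊆ U)
    (h1 : 1 ≤ q) (h2 : q ≤ K0) (h3 : q ∣ m) :
    2 * (U'.card : ℝ) ≤ cls q U' * ((m : ℝ) / q + κ * m) := by
  have hc : (U'.card : ℝ) = ∑ b ∈ U'.image (fun x : ZMod m => x.val % q),
      ((U'.filter (fun x => x.val % q = b)).card : ℝ) := by
    have := Finset.card_eq_sum_card_image (fun x : ZMod m => x.val % q) U'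
    exact_mod_cast this
  rw [hc, Finset.mul_sum]
  have : ∀ b ∈ U'.image (fun x : ZMod m => x.val % q),
      2 * ((U'.filter (fun x => x.val % q = b)).card : ℝ) ≤ ((m : ℝ) / q + κ * m) := by
    intro b _
    refine le_trans ?_ (hU q b h1 h2 h3)
    have : (U'.filter (fun x => x.val % q = b)).card ≤ (U.filter (fun x => x.val % q = b)).card :=
      Finset.card_le_card (Finset.filter_subset_filter _ hs)
    have h' : ((U'.filter (fun x => x.val % q = b)).card : ℝ) ≤
      ((U.filter (fun x => x.val % q = b)).card : ℝ) := by exact_mod_cast this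
    linarith
  refine le_trans (Finset.sum_le_card_nsmul _ _ _ this) ?_
  rw [nsmul_eq_mul]
  rfl

theorem A6c_half {m K0 : ℕ} {κ : ℝ} {U : Finset (ZMod m)} (hU : OV κ K0 U) (hK : 1 ≤ K0) :
    2 * (U.card : ℝ) ≤ (m : ℝ) + κ * m := by
  have := hU 1 0 le_rfl hK (one_dvd _)
  have h2 : U.filter (fun x : ZMod m => x.val % 1 = 0) = U := by
    refine Finset.filter_true_of_mem ?_
    intro x _
    exact Nat.mod_one _
  rw [h2] at this
  simpa using this

theorem A6c_sub {m : ℕ} {e : ℝ} {U U' : Finset (ZMod m)} (hs : U' ⊆ U)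
    (h : ((U \ U').card : ℝ) ≤ e) : (U.card : ℝ) - e ≤ U'.card := by
  have h1 := Finset.card_sdiff_add_card_eq_card hs
  have h2 : ((U \ U').card : ℝ) + U'.card = U.card := by exact_mod_cast h1
  linarith

theorem three_blocks {ε : ℝ} (hε : 0 < ε) (hε1 : ε ≤ 1) : ∃ γ : ℝ, 0 < γ ∧
    ∀ (m K0 : ℕ) [NeZero m] (U V W : Finset (ZMod m)), 8 ≤ K0 * ε →
      OV (ε / 64) K0 U → OV (ε / 64) K0 V → OV (ε / 64) K0 W →
      (1 + ε / 4) * m < (U.card : ℝ) + V.card + W.card →
      ¬ (((U ×ˢ V).filter (fun p => p.1 + p.2 ∈ W)).card : ℝ) ≤ γ * (m : ℝ) ^ 2 := by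
  obtain ⟨γ, hγ, hrem⟩ := removal (ε := ε / 32) (by positivity)
  refine ⟨γ, hγ, ?_⟩
  intro m K0 _ U V W hK hU hV hW hc hcount
  obtain ⟨U', V', W', hU', hV', hW', h1, h2, h3, hfree⟩ := hrem m U V W hcount
  have hm : (0 : ℝ) < m := by
    have := NeZero.ne m
    exact_mod_cast Nat.pos_of_ne_zero this
  have hK1 : 1 ≤ K0 := by
    rcases Nat.eq_zero_or_pos K0 with h | h
    · subst h; norm_num at hK
    · exact h
  have hem : 0 < ε * m := mul_pos hε hm
  have a1 := A6c_sub hU' h1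
  have a2 := A6c_sub hV' h2
  have a3 := A6c_sub hW' h3
  have b1 := A6c_half hU hK1
  have b2 := A6c_half hV hK1
  have b3 := A6c_half hW hK1
  rcases Finset.eq_empty_or_nonempty U' with e1 | n1
  · subst e1
    simp only [Finset.card_empty, Nat.cast_zero] at a1
    nlinarith
  rcases Finset.eq_empty_or_nonempty V' with e2 | n2
  · subst e2
    simp only [Finset.card_empty, Nat.cast_zero] at a2
    nlinarith
  rcases Finset.eq_empty_or_nonempty W' with e3 | n3
  · subst e3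
    simp only [Finset.card_empty, Nat.cast_zero] at a3
    nlinarith
  have hsum : (1 + ε / 8) * m < (U'.card : ℝ) + V'.card + W'.card := by nlinarith
  obtain ⟨q, hq1, hqm, hqe, hcl⟩ := kneser (ε := ε / 8) (by positivity) n1 n2 n3 hfree hsum
  have hqK : q ≤ K0 := by
    have : (q : ℝ) * ε < K0 * ε := by linarith
    have h' : (q : ℝ) < K0 := lt_of_mul_lt_mul_right this hε.le
    exact_mod_cast h'.le
  have c1 := A6c_cls hU hU' hq1 hqK hqm
  have c2 := A6c_cls hV hV' hq1 hqK hqm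
  have c3 := A6c_cls hW hW' hq1 hqK hqm
  have p1 : 1 ≤ cls q U' := by
    unfold cls; exact Finset.card_pos.mpr (n1.image _)
  have p2 : 1 ≤ cls q V' := by
    unfold cls; exact Finset.card_pos.mpr (n2.image _)
  have p3 : 1 ≤ cls q W' := by
    unfold cls; exact Finset.card_pos.mpr (n3.image _)
  have hq2 : 2 ≤ q := by omega
  have hq2' : (2 : ℝ) ≤ q := by exact_mod_cast hq2
  have hqpos : (0 : ℝ) < q := by linarith
  have hcl' : (cls q U' : ℝ) + cls q V' + cls q W' ≤ q + 1 := by exact_mod_cast hcl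
  have hB : 0 < (m : ℝ) / q + ε / 64 * m := by positivity
  have hfin : 2 * (m : ℝ) < (q + 1) * ((m : ℝ) / q + ε / 64 * m) := by
    have : ((cls q U' : ℝ) + cls q V' + cls q W') * ((m : ℝ) / q + ε / 64 * m) ≤
      (q + 1) * ((m : ℝ) / q + ε / 64 * m) := mul_le_mul_of_nonneg_right hcl' hB.le
    nlinarith
  have hrew : (q + 1) * ((m : ℝ) / q + ε / 64 * m) * q = m * ((q + 1) * (1 + ε / 64 * q)) := by
    field_simp
  have hfin2 : 2 * (m : ℝ) * q < m * ((q + 1) * (1 + ε / 64 * q)) := by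
    rw [← hrew]
    exact mul_lt_mul_of_pos_right hfin hqpos
  have hfin3 : 2 * (q : ℝ) < (q + 1) * (1 + ε / 64 * q) := by
    have : (m : ℝ) * (2 * q) < m * ((q + 1) * (1 + ε / 64 * q)) := by linarith
    exact lt_of_mul_lt_mul_left this hm.le
  have hk : ε / 64 * q ≤ 1 / 8 := by linarith
  nlinarith

/-- blocks satisfy `OV` -/
theorem ov_blk {m : ℕ} [NeZero m] {W : Finset ℕ} {κ e : ℝ} {K0 : ℕ}
    (h : ∀ q, 1 ≤ q → q ≤ K0 → ∃ h : ℕ, q ∣ h ∧ (h : ℝ) + e ≤ κ * m ∧ (rp W h : ℝ) ≤ e) (s : ℕ) :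
    OV κ K0 (blk m W s) := by
  intro q c h1 h2 h3
  obtain ⟨hh, hq, he, hrp⟩ := h q h1 h2
  have hm : 0 < m := Nat.pos_of_ne_zero (NeZero.ne m)
  set P : Finset ℕ := W.filter (fun y => y / m = s ∧ y % q = c) with hPdef
  have hcard : ((blk m W s).filter (fun x => x.val % q = c)).card ≤ P.card := by
    refine Finset.card_le_card_of_injOn (fun x : ZMod m => s * m + x.val) ?_ ?_
    · intro x hx
      have hx := Finset.mem_coe.mp hx
      rw [Finset.mem_filter, mem_blk] at hx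
      have hlt : x.val < m := ZMod.val_lt x
      refine Finset.mem_coe.mpr ?_
      rw [hPdef, Finset.mem_filter]
      refine ⟨hx.1, ?_, ?_⟩
      · rw [Nat.mul_comm s m, Nat.mul_add_div hm, Nat.div_eq_of_lt hlt, Nat.add_zero]
      · obtain ⟨k, hk⟩ := h3
        have : s * m + x.val = x.val + q * (k * s) := by
          have hk2 : s * m = q * (k * s) := by
            calc s * m = s * (q * k) := congrArg (fun t => s * t) hk
              _ = q * (k * s) := by ring
          omega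
        show (s * m + x.val) % q = c
        rw [this, Nat.add_mul_mod_self_left]
        exact hx.2
    · intro x _ y _ hxy
      have hxy' : s * m + x.val = s * m + y.val := hxy
      exact ZMod.val_injective m (by omega)
  have hge : 2 * P.card ≤ rp W hh + (m + hh) / q := by
    refine rp_ge (W := W) (P := P) (u := s * m) (c := c) h1 h3 hq (Finset.filter_subset _ _) ?_
    intro y hy
    rw [hPdef, Finset.mem_filter] at hy
    obtain ⟨_, hy1, hy2⟩ := hy
    have h4 := Nat.div_add_mod y m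
    have h5 := Nat.mod_lt y hm
    rw [hy1, Nat.mul_comm] at h4
    refine ⟨?_, ?_, hy2⟩
    · omega
    · omega
  have hge' : 2 * (P.card : ℝ) ≤ rp W hh + (((m + hh) / q : ℕ) : ℝ) := by exact_mod_cast hge
  have hdiv : (((m + hh) / q : ℕ) : ℝ) ≤ (m : ℝ) / q + hh := by
    have h6 : (((m + hh) / q : ℕ) : ℝ) ≤ ((m + hh : ℕ) : ℝ) / q := Nat.cast_div_le
    have h7 : ((m + hh : ℕ) : ℝ) / q = (m : ℝ) / q + (hh : ℝ) / q := by
      push_cast; rw [add_div]
    have hq1 : (1 : ℝ) ≤ q := by exact_mod_cast h1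
    have h8 : (hh : ℝ) / q ≤ hh := div_le_self (by positivity) hq1
    linarith
  have hcard' : (((blk m W s).filter (fun x => x.val % q = c)).card : ℝ) ≤ P.card := by
    exact_mod_cast hcard
  linarith

end SFP
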