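import Pool.Agent.SFP.A2
import Pool.Agent.SFP.A3
import Pool.Agent.SFP.A6b
import Pool.Agent.SFP.A6c

/-!
# Module A6: Theorem UP   (difficulty 3)

Parameters: `ε ≤ 1` (for `ε > 1` take `ε = 1`).  `γ` from `three_blocks ε`.  `ε₁ = ε γ / 128` (`> 0`), `N` from `near_period ε₁`, `M' = ⌈100 / ε⌉₊` (`≥ 100`), `K0 = ⌈8 / ε⌉₊`,
`η = min (ε γ / 128) (ε / (256 N M'))`, `R = ⌈256 N M' / ε⌉₊ + 200` (so `R ≥ 200`, `R ε ≥ 256 N M'`, `R ≥ N M'`, `R ≥ 100 / ε`).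
Let `X, L, A, B` as in the theorem and suppose `1 + ε < |A| / X + 2 |B| / L`.
`T = X / (N M')` (`≥ 1`, as `X ≥ R ≥ N M'`); `N T ≤ X / M' ≤ X`.  `near_period`: `m`, `T ≤ m ≤ N T`.  Then `M' m ≤ N M' T ≤ X`, so `100 m ≤ ε X` (`M' ε ≥ 100`), and
`m ≥ T ≥ X / (2 N M')` (as `T ≥ 1`: `X < (T + 1) N M' ≤ 2 T N M'`).  `100 X ≤ ε L`, as `R X ≤ L`.
`sum_dens` gives the hypothesis `h1` of `avg_pair` for `f s j = (|A_s| + |B_j| + |B_{j+s+1}|) / m ≤ 3` (`blk_le`).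
`N s j` = number of pairs: `sum_blk_N`, `A3_few0`, `A3_few` (`e = η X`, `L' = L + 2 X`, `δ = ε₁ |A| L`): `∑ ∑ N ≤ 2 |A| η X + ε₁ |A| L ≤ (2 η + ε₁) X L ≤ (3 ε γ / 128) X L` (`|A| ≤ X ≤ L`).
`n = X / m ≥ X / (2 m)` and `k = L / m - X / m - 1 ≥ L / (2 m)` (reals; `k ≥ L / m - X / m - 2`, `X ≤ L / 200`, `m ≤ X / 100`), so `n k ≥ X L / (4 m^2)` and
`(ε / 8) (γ m^2) (n k) ≥ (ε γ / 32) X L > ∑ ∑ N` (`X L > 0`).  `avg_pair` with `g = γ m^2`: `s, j` with `(1 + ε / 4) m < |A_s| + |B_j| + |B_{j+s+1}|`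
and few triples; `three_blocks` (`8 ≤ K0 ε`) gives a contradiction, once `OV (ε / 64) K0` holds for the blocks: `ov_blk` with `κ = ε / 64`, `e = η X`: for `q ≤ K0` take the `h` of the hypothesis:
`h + η X ≤ X / R + η X ≤ X ε / (256 N M') + X ε / (256 N M') = X ε / (128 N M') ≤ (ε / 64) m`.
-/

namespace SFP

open Finset

theorem A6_count {c γ' : ℝ} {X L m n k : ℕ} [NeZero m] {A B : Finset ℕ} (hAX : (A.card : ℝ) ≤ X) (hXL : (X : ℝ) ≤ L)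
    {η : ℝ} (hη0 : 0 ≤ η) (hη1 : η ≤ c) (hc : 0 ≤ c) (hB : ∀ b ∈ B, b < L)
    (hrB : ∀ a ∈ A, (rp B a : ℝ) ≤ η * X)
    (hm3 : ∑ x ∈ range (L + 2 * X), |(conv A B (x + m) : ℝ) - conv A B x| ≤ c * A.card * L)
    (hγ' : 3 * c ≤ γ') :
    (∑ s ∈ range n, ∑ j ∈ range k,
      (((blk m A s ×ˢ blk m B j).filter (fun p => p.1 + p.2 ∈ blk m B (j + s + 1))).card : ℝ)) ≤
      γ' * (X * L) := by
  have hX0 : (0 : ℝ) ≤ X := by positivity
  have hL0 : (0 : ℝ) ≤ L := by positivity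
  have e1 := sum_blk_N (m := m) A B n k
  have e1' : (∑ s ∈ range n, ∑ j ∈ range k,
    (((blk m A s ×ˢ blk m B j).filter (fun p => p.1 + p.2 ∈ blk m B (j + s + 1))).card : ℝ)) ≤
    (((A ×ˢ B).filter (fun p => p.1 + p.2 ∈ B)).card : ℝ) +
    (((A ×ˢ B).filter (fun p => p.1 + p.2 + m ∈ B)).card : ℝ) := by exact_mod_cast e1
  have e2 := A3_few0 hrB
  have e3 := A3_few (L' := L + 2 * X) hB (by omega) hrB hm3
  have e4 : (A.card : ℝ) * (η * X) ≤ c * (X * L) := by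
    calc (A.card : ℝ) * (η * X) ≤ X * (η * L) :=
          mul_le_mul hAX (mul_le_mul_of_nonneg_left hXL hη0) (by positivity) hX0
      _ = η * (X * L) := by ring
      _ ≤ _ := mul_le_mul_of_nonneg_right hη1 (by positivity)
  have e5 : c * (A.card : ℝ) * L ≤ c * (X * L) := by
    calc c * (A.card : ℝ) * L ≤ c * X * L := by
          apply mul_le_mul_of_nonneg_right _ hL0
          exact mul_le_mul_of_nonneg_left hAX hc
      _ = _ := by ring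
  have e6 : 3 * c * (X * L) ≤ γ' * (X * L) := mul_le_mul_of_nonneg_right hγ' (by positivity)
  linarith

theorem A6_nk {X L m : ℕ} (hm0' : 0 < m) (hXm100 : 100 * (m : ℝ) ≤ X) (hLX : 100 * (X : ℝ) ≤ L) :
    (X : ℝ) * L / (4 * (m : ℝ) ^ 2) ≤ ((X / m : ℕ) : ℝ) * ((L / m - X / m - 1 : ℕ) : ℝ) := by
  have hm0 : (0 : ℝ) < m := by exact_mod_cast hm0'
  have hX1 : 100 ≤ (X : ℝ) / m := by
    rw [le_div_iff₀ hm0]
    exact hXm100
  have hn2 : (X : ℝ) / m / 2 ≤ ((X / m : ℕ) : ℝ) := by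
    have e1 : (X : ℝ) / m < ((X / m : ℕ) : ℝ) + 1 := by
      rw [div_lt_iff₀ hm0]
      have := Nat.lt_mul_div_succ X hm0'
      have h2 : (X : ℝ) < m * (((X / m : ℕ) : ℝ) + 1) := by exact_mod_cast this
      linarith
    linarith
  have hk2 : (L : ℝ) / m / 2 ≤ ((L / m - X / m - 1 : ℕ) : ℝ) := by
    have e1 : (L : ℝ) / m < ((L / m : ℕ) : ℝ) + 1 := by
      rw [div_lt_iff₀ hm0]
      have := Nat.lt_mul_div_succ L hm0'
      have h2 : (L : ℝ) < m * (((L / m : ℕ) : ℝ) + 1) := by exact_mod_cast this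
      linarith
    have e2 : ((X / m : ℕ) : ℝ) ≤ X / m := Nat.cast_div_le
    have e3 : ((L / m : ℕ) : ℝ) ≤ ((L / m - X / m - 1 : ℕ) : ℝ) + ((X / m : ℕ) : ℝ) + 1 := by
      have : L / m ≤ (L / m - X / m - 1) + X / m + 1 := by omega
      exact_mod_cast this
    have e5 : 100 * ((X : ℝ) / m) ≤ L / m := by
      rw [← mul_div_assoc]
      exact div_le_div_of_nonneg_right hLX hm0.le
    linarith
  have e : (X : ℝ) * L / (4 * (m : ℝ) ^ 2) = (X : ℝ) / m / 2 * (L / m / 2) := by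
    field_simp
    norm_num
  rw [e]
  exact mul_le_mul hn2 hk2 (by positivity) (by positivity)

theorem A6_avg {ε g : ℝ} {m n k : ℕ} [NeZero m] {A B : Finset ℕ} (hε : 0 < ε) (hg0 : 0 < g)
    (h1 : (1 + ε / 2) * ((n : ℝ) * k) ≤ ∑ s ∈ range n, ∑ j ∈ range k,
        (((blk m A s).card : ℝ) + (blk m B j).card + (blk m B (j + s + 1)).card) / m)
    (h2 : (∑ s ∈ range n, ∑ j ∈ range k,
      (((blk m A s ×ˢ blk m B j).filter (fun p => p.1 + p.2 ∈ blk m B (j + s + 1))).card : ℝ)) <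
      ε / 8 * g * ((n : ℝ) * k)) :
    ∃ s j, (1 + ε / 4) * m < ((blk m A s).card : ℝ) + (blk m B j).card + (blk m B (j + s + 1)).card ∧
      (((blk m A s ×ˢ blk m B j).filter (fun p => p.1 + p.2 ∈ blk m B (j + s + 1))).card : ℝ) ≤ g := by
  have hm0' : 0 < m := Nat.pos_of_ne_zero (NeZero.ne m)
  have hm0 : (0 : ℝ) < m := by exact_mod_cast hm0'
  have hf3 : ∀ s j, (((blk m A s).card : ℝ) + (blk m B j).card + (blk m B (j + s + 1)).card) / m ≤ 3 := by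
    intro s j
    rw [div_le_iff₀ hm0]
    have e1 : ((blk m A s).card : ℝ) ≤ m := by exact_mod_cast blk_le A s
    have e2 : ((blk m B j).card : ℝ) ≤ m := by exact_mod_cast blk_le B j
    have e3 : ((blk m B (j + s + 1)).card : ℝ) ≤ m := by exact_mod_cast blk_le B (j + s + 1)
    linarith
  have hN0 : ∀ s j, (0 : ℝ) ≤
      (((blk m A s ×ˢ blk m B j).filter (fun p => p.1 + p.2 ∈ blk m B (j + s + 1))).card : ℝ) :=
    fun s j => Nat.cast_nonneg _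
  obtain ⟨s, j, hs, hj, hf, hNsj⟩ := avg_pair hg0 _ _ hf3 hN0 hε.le h1 h2
  exact ⟨s, j, (lt_div_iff₀ hm0).mp hf, hNsj⟩

theorem A6_core {ε γ η : ℝ} {X L m K0 : ℕ} [NeZero m] {A B : Finset ℕ} (hε : 0 < ε) (hε1 : ε ≤ 1) (hγ : 0 < γ)
    (hη0 : 0 ≤ η) (hη1 : η ≤ ε * γ / 128)
    (hA : ∀ a ∈ A, 1 ≤ a ∧ a ≤ X) (hB : ∀ b ∈ B, b < L) (hXL : (X : ℝ) ≤ L) (hX0 : (0 : ℝ) < X)
    (hrB : ∀ a ∈ A, (rp B a : ℝ) ≤ η * X)
    (hm3 : ∑ x ∈ range (L + 2 * X), |(conv A B (x + m) : ℝ) - conv A B x| ≤ ε * γ / 128 * A.card * L)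
    (h100m : 100 * (m : ℝ) ≤ ε * X) (h100X : 100 * (X : ℝ) ≤ ε * L)
    (hcon : 1 + ε < (A.card : ℝ) / X + 2 * ((B.card : ℝ) / L)) (hK1 : 8 ≤ (K0 : ℝ) * ε)
    (hOA : ∀ s, OV (ε / 64) K0 (blk m A s)) (hOB : ∀ s, OV (ε / 64) K0 (blk m B s))
    (hblocks : ∀ (U V W : Finset (ZMod m)), 8 ≤ K0 * ε →
      OV (ε / 64) K0 U → OV (ε / 64) K0 V → OV (ε / 64) K0 W →
      (1 + ε / 4) * m < (U.card : ℝ) + V.card + W.card →
      ¬ (((U ×ˢ V).filter (fun p => p.1 + p.2 ∈ W)).card : ℝ) ≤ γ * (m : ℝ) ^ 2) : False := by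
  have hm0' : 0 < m := Nat.pos_of_ne_zero (NeZero.ne m)
  have hm0 : (0 : ℝ) < m := by exact_mod_cast hm0'
  have h1 := sum_dens hA hB hε h100m h100X hε1 hcon
  have hAX : (A.card : ℝ) ≤ X := by
    have hsub : A ⊆ Icc 1 X := fun a ha => mem_Icc.mpr (hA a ha)
    have := card_le_card hsub
    rw [Nat.card_Icc, Nat.add_sub_cancel] at this
    exact_mod_cast this
  have hL0 : (0 : ℝ) < L := by linarith
  have hcount := A6_count (n := X / m) (k := L / m - X / m - 1) hAX hXL hη0 hη1 (by positivity) hB hrB hm3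
    (le_refl (3 * (ε * γ / 128)))
  have hnk := A6_nk (X := X) (L := L) hm0' (by
    have : ε * (X : ℝ) ≤ 1 * X := mul_le_mul_of_nonneg_right hε1 hX0.le
    linarith) (by
    have : ε * (L : ℝ) ≤ 1 * L := mul_le_mul_of_nonneg_right hε1 hL0.le
    linarith)
  have h2 : (∑ s ∈ range (X / m), ∑ j ∈ range (L / m - X / m - 1),
      (((blk m A s ×ˢ blk m B j).filter (fun p => p.1 + p.2 ∈ blk m B (j + s + 1))).card : ℝ)) <
      ε / 8 * (γ * (m : ℝ) ^ 2) * (((X / m : ℕ) : ℝ) * ((L / m - X / m - 1 : ℕ) : ℝ)) := by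
    refine lt_of_le_of_lt hcount ?_
    have e2 : ε / 8 * (γ * (m : ℝ) ^ 2) * ((X : ℝ) * L / (4 * (m : ℝ) ^ 2)) = ε * γ / 32 * (X * L) := by
      field_simp
      norm_num
    have e3 := mul_le_mul_of_nonneg_left hnk (show 0 ≤ ε / 8 * (γ * (m : ℝ) ^ 2) by positivity)
    rw [e2] at e3
    have e4 : 0 < ε * γ * (X * L) := by positivity
    refine lt_of_lt_of_le ?_ e3
    linarith
  have hg0 : 0 < γ * (m : ℝ) ^ 2 := by positivity
  obtain ⟨s, j, hf, hNsj⟩ := A6_avg hε hg0 h1 h2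
  exact hblocks (blk m A s) (blk m B j) (blk m B (j + s + 1)) hK1 (hOA s) (hOB j) (hOB _) hf hNsj

theorem A6_le1 {ε : ℝ} (hε : 0 < ε) (hε1 : ε ≤ 1) : ∃ (R K0 : ℕ) (η : ℝ), 1 ≤ R ∧ 1 ≤ K0 ∧ 0 < η ∧
    ∀ (X L : ℕ) (A B : Finset ℕ), (∀ a ∈ A, 1 ≤ a ∧ a ≤ X) → (∀ b ∈ B, b < L) → R ≤ X → R * X ≤ L →
      X ≤ 16 * A.card → (∀ a ∈ A, (rp B a : ℝ) ≤ η * X) →
      (∀ q, 1 ≤ q → q ≤ K0 → ∃ h : ℕ, 1 ≤ h ∧ q ∣ h ∧ R * h ≤ X ∧ (rp B h : ℝ) ≤ η * X ∧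
        (rp A h : ℝ) ≤ η * X) →
      (A.card : ℝ) / X + 2 * ((B.card : ℝ) / L) ≤ 1 + ε := by
  obtain ⟨γ, hγ, hblocks⟩ := three_blocks hε hε1
  obtain ⟨N, hN1, hnp⟩ := near_period (ε := ε * γ / 128) (by positivity)
  obtain ⟨M', hM1⟩ := exists_nat_ge (100 / ε)
  obtain ⟨K0, hK0⟩ := exists_nat_ge (8 / ε)
  have hM2 : 100 ≤ ε * (M' : ℝ) := by
    rw [div_le_iff₀ hε] at hM1
    linarith
  have hM0 : (0 : ℝ) < M' := lt_of_lt_of_le (by positivity) hM1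
  have hM0' : 0 < M' := by exact_mod_cast hM0
  have hK1 : 8 ≤ (K0 : ℝ) * ε := by
    rwa [div_le_iff₀ hε] at hK0
  have hN0 : (0 : ℝ) < N := by exact_mod_cast hN1
  have hNM : (0 : ℝ) < 256 * (N * M') := by positivity
  obtain ⟨η, hη0, hη1, hη2⟩ : ∃ η : ℝ, 0 < η ∧ η ≤ ε * γ / 128 ∧ η ≤ ε / (256 * (N * M')) :=
    ⟨min (ε * γ / 128) (ε / (256 * (N * M'))), lt_min (by positivity) (by positivity), min_le_left _ _,
      min_le_right _ _⟩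
  obtain ⟨R₁, hR₁⟩ := exists_nat_ge (256 * ((N : ℝ) * M') / ε)
  obtain ⟨R, hR200, hR1'⟩ : ∃ R : ℕ, 200 ≤ R ∧ 256 * ((N : ℝ) * M') ≤ R * ε := by
    refine ⟨R₁ + 200, by omega, ?_⟩
    rw [div_le_iff₀ hε] at hR₁
    push_cast
    linarith
  clear hR₁ hK0 hM1
  refine ⟨R, K0, η, by omega, ?_, hη0, ?_⟩
  · by_contra hcon
    have : K0 = 0 := by omega
    rw [this] at hK1
    norm_num at hK1
  intro X L A B hA hB hRX hRXL hXA hrB hq
  by_contra hcon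
  push Not at hcon
  have hR0 : (0 : ℝ) < R := by
    have : 0 < R := by omega
    exact_mod_cast this
  have hX0' : 0 < X := by omega
  have hX0 : (0 : ℝ) < X := by exact_mod_cast hX0'
  have hNMR : N * M' ≤ R := by
    have h1 : ((N * M' : ℕ) : ℝ) ≤ R := by
      push_cast
      have h2 : (R : ℝ) * ε ≤ R * 1 := mul_le_mul_of_nonneg_left hε1 hR0.le
      have h3 : (0 : ℝ) < N * M' := by positivity
      linarith
    exact_mod_cast h1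
  have hNM0 : 0 < N * M' := Nat.mul_pos hN1 hM0'
  obtain ⟨T, hT1, hTX, hTX2⟩ : ∃ T : ℕ, 1 ≤ T ∧ N * M' * T ≤ X ∧ X < N * M' * (T + 1) :=
    ⟨X / (N * M'), (Nat.one_le_div_iff hNM0).mpr (hNMR.trans hRX), Nat.mul_div_le X (N * M'),
      Nat.lt_mul_div_succ X hNM0⟩
  have hXL : X ≤ L := by
    calc X = 1 * X := (one_mul X).symm
      _ ≤ R * X := Nat.mul_le_mul_right _ (by omega)
      _ ≤ L := hRXL
  have hNT : N * T ≤ X := by
    refine le_trans ?_ hTX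
    calc N * T = N * 1 * T := by ring
      _ ≤ N * M' * T := Nat.mul_le_mul_right _ (Nat.mul_le_mul_left _ hM0')
  obtain ⟨m, hm1, hm2, hm3⟩ := hnp X L T A B hT1 hXL hNT hXA hA hB
  have hm0' : 0 < m := by omega
  have hm0 : (0 : ℝ) < m := by exact_mod_cast hm0'
  have : NeZero m := ⟨hm0'.ne'⟩
  have hMm : M' * m ≤ X := by
    calc M' * m ≤ M' * (N * T) := Nat.mul_le_mul_left _ hm2
      _ = N * M' * T := by ring
      _ ≤ X := hTX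
  have hMm' : (M' : ℝ) * m ≤ X := by exact_mod_cast hMm
  have h100m : 100 * (m : ℝ) ≤ ε * X := by
    calc 100 * (m : ℝ) ≤ (ε * M') * m := mul_le_mul_of_nonneg_right hM2 hm0.le
      _ = ε * (M' * m) := by ring
      _ ≤ ε * X := mul_le_mul_of_nonneg_left hMm' hε.le
  have hXm : (X : ℝ) ≤ 2 * (N * M') * m := by
    have h2 : X ≤ 2 * (N * M') * m := by
      calc X ≤ N * M' * (T + 1) := hTX2.le
        _ ≤ N * M' * (2 * m) := Nat.mul_le_mul_left _ (by omega)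
        _ = 2 * (N * M') * m := by ring
    exact_mod_cast h2
  have hRXL' : (R : ℝ) * X ≤ L := by exact_mod_cast hRXL
  have hNM1 : (1 : ℝ) ≤ N * M' := by exact_mod_cast hNM0
  have h100X : 100 * (X : ℝ) ≤ ε * L := by
    calc 100 * (X : ℝ) ≤ (R * ε) * X := mul_le_mul_of_nonneg_right (by linarith) hX0.le
      _ = ε * (R * X) := by ring
      _ ≤ ε * L := mul_le_mul_of_nonneg_left hRXL' hε.le
  -- overlaps
  have hover : ∀ q, 1 ≤ q → q ≤ K0 → ∃ h : ℕ, q ∣ h ∧ (h : ℝ) + η * X ≤ ε / 64 * m ∧ (rp B h : ℝ) ≤ η * X ∧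
      (rp A h : ℝ) ≤ η * X := by
    intro q hq1 hq2
    obtain ⟨h, hh1, hh2, hh3, hh4, hh5⟩ := hq q hq1 hq2
    refine ⟨h, hh2, ?_, hh4, hh5⟩
    have hh3' : (R : ℝ) * h ≤ X := by exact_mod_cast hh3
    have e1 : (h : ℝ) ≤ X * (ε / (256 * (N * M'))) := by
      have e2 : 256 * ((N : ℝ) * M') * h ≤ ε * X := by
        calc 256 * ((N : ℝ) * M') * h ≤ (R * ε) * h := mul_le_mul_of_nonneg_right hR1' (by positivity)
          _ = ε * (R * h) := by ring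
          _ ≤ ε * X := mul_le_mul_of_nonneg_left hh3' hε.le
      rw [← mul_div_assoc, le_div_iff₀ hNM]
      linarith
    have e3 : η * X ≤ X * (ε / (256 * (N * M'))) := by
      rw [mul_comm]
      exact mul_le_mul_of_nonneg_left hη2 hX0.le
    have e4 : X * (ε / (256 * (N * M'))) ≤ ε / 128 * m := by
      calc X * (ε / (256 * (N * M'))) ≤ (2 * (N * M') * m) * (ε / (256 * (N * M'))) :=
            mul_le_mul_of_nonneg_right hXm (by positivity)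
        _ = ε / 128 * m := by
            field_simp
            norm_num
    linarith
  have hOA : ∀ s, OV (ε / 64) K0 (blk m A s) := fun s => ov_blk (e := η * X) (fun q hq1 hq2 => by
    obtain ⟨h, g1, g2, g3, g4⟩ := hover q hq1 hq2
    exact ⟨h, g1, g2, g4⟩) s
  have hOB : ∀ s, OV (ε / 64) K0 (blk m B s) := fun s => ov_blk (e := η * X) (fun q hq1 hq2 => by
    obtain ⟨h, g1, g2, g3, g4⟩ := hover q hq1 hq2
    exact ⟨h, g1, g2, g3⟩) s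
  exact A6_core hε hε1 hγ hη0.le hη1 hA hB (by exact_mod_cast hXL) hX0 hrB hm3 h100m h100X hcon hK1 hOA hOB
    (fun U V W => hblocks m K0 U V W)

/-- **Theorem UP.** -/
theorem up_thm {ε : ℝ} (hε : 0 < ε) : ∃ (R K0 : ℕ) (η : ℝ), 1 ≤ R ∧ 1 ≤ K0 ∧ 0 < η ∧
    ∀ (X L : ℕ) (A B : Finset ℕ), (∀ a ∈ A, 1 ≤ a ∧ a ≤ X) → (∀ b ∈ B, b < L) → R ≤ X → R * X ≤ L →
      X ≤ 16 * A.card → (∀ a ∈ A, (rp B a : ℝ) ≤ η * X) →
      (∀ q, 1 ≤ q → q ≤ K0 → ∃ h : ℕ, 1 ≤ h ∧ q ∣ h ∧ R * h ≤ X ∧ (rp B h : ℝ) ≤ η * X ∧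
        (rp A h : ℝ) ≤ η * X) →
      (A.card : ℝ) / X + 2 * ((B.card : ℝ) / L) ≤ 1 + ε := by
  obtain ⟨R, K0, η, h1, h2, h3, h4⟩ := A6_le1 (ε := min ε 1) (lt_min hε one_pos) (min_le_right _ _)
  refine ⟨R, K0, η, h1, h2, h3, fun X L A B g1 g2 g3 g4 g5 g6 g7 => ?_⟩
  have := h4 X L A B g1 g2 g3 g4 g5 g6 g7
  have h5 := min_le_left ε 1
  linarith

end SFP
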