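import Pool.Agent.SFP.A6

/-!
# Module A7: Theorem UP for sections (UPS)   (difficulty 3)

`up_thm (ε / 2)` gives `R₀, K0, η`; `R = R₀ + ⌈2 / ε⌉₊ + 1`.  `A = sct S (D * ρ) Z ⊆ [1, Z]`.
For `c' < ρ` with `c' % d = c` let `y₀ > v` be the least number with `y₀ % ρ = c'` (`v < y₀ ≤ v + ρ`), `L = w / ρ + 1` and
`B = {t < L : y₀ + ρ t ≤ v + w ∧ y₀ + ρ t ∈ sct S D N}`: every `y` in the window with `y % ρ = c'` is `y₀ + ρ t` with `t ≤ (w - 1) / ρ`, so `t < L`; so the number of such `y` is `|B|`.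
* `rp B a ≤ rp (sct S D N) (ρ a)` (injection `t ↦ y₀ + ρ t`), and `ρ a ∈ sct S D N` for `a ∈ A` (`D (ρ a) = D ρ a ∈ S`, `ρ a ≤ ρ Z ≤ N`), so `≤ e ≤ η Z`.
* `h = ρ' x`: `ρ h ∈ sct S D N`, so `rp B h ≤ rp (sct S D N) (ρ h) ≤ e`; `rp A h ≤ rp (sct S (D ρ) N) h ≤ e` (`A ⊆ sct S (D ρ) N` as `Z ≤ ρ Z ≤ N`; `h ∈ sct S (D ρ) N`).  `q ∣ ρ' ∣ h`, `R₀ h ≤ Z`.
* `R₀ ≤ Z`, `R₀ Z ≤ w / ρ < L` (`R ρ Z ≤ w`), `Z ≤ 16 |A|` as `|A| ≥ (1 - ε) Z / 3 ≥ Z / 6`.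
`up_thm`: `2 |B| / L ≤ 1 + ε / 2 - (1 - ε) / 3`, `|B| ≤ (1/3 + 5 ε / 12) L ≤ (1/3 + 5 ε / 12) (w / ρ + 1)`.  Sum over the at most `ρ / d` residues `c'` (`d ∣ ρ`):
`≤ (1/3 + 5 ε/12) (w / d + ρ / d)`, `ρ ≤ w / R ≤ (ε / 2) w`: `(1/3 + 5 ε / 12)(1 + ε / 2) ≤ 1/3 + ε` for `ε ≤ 1/2`.
(If `c ≥ d` the set is empty.)
-/

namespace SFP

open Finset

/-- one residue class modulo `ρ` -/
theorem A7_class {ε η : ℝ} {R₀ K0 : ℕ} (hε : 0 < ε) (hε1 : ε ≤ 1 / 2)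
    (hup : ∀ (X L : ℕ) (A B : Finset ℕ), (∀ a ∈ A, 1 ≤ a ∧ a ≤ X) → (∀ b ∈ B, b < L) → R₀ ≤ X → R₀ * X ≤ L →
      X ≤ 16 * A.card → (∀ a ∈ A, (rp B a : ℝ) ≤ η * X) →
      (∀ q, 1 ≤ q → q ≤ K0 → ∃ h : ℕ, 1 ≤ h ∧ q ∣ h ∧ R₀ * h ≤ X ∧ (rp B h : ℝ) ≤ η * X ∧
        (rp A h : ℝ) ≤ η * X) →
      (A.card : ℝ) / X + 2 * ((B.card : ℝ) / L) ≤ 1 + ε / 2)
    (S : Finset ℕ) (D ρ ρ' N Z x v w : ℕ) (e : ℝ) (hD : 0 < D) (hρ : 0 < ρ) (hρ' : 0 < ρ') (hx : 0 < x)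
    (h1 : RSF (sct S D N) e) (h2 : RSF (sct S (D * ρ) N) e) (hq : ∀ q, 1 ≤ q → q ≤ K0 → q ∣ ρ')
    (hZN : ρ * Z ≤ N) (hdens : (1 - ε) * (Z : ℝ) ≤ 3 * ((sct S (D * ρ) Z).card : ℝ))
    (hxS : D * ρ * (ρ' * x) ∈ S) (hRx : R₀ * (ρ' * x) ≤ Z) (hxZ : ρ' * x ≤ Z) (hRZ : R₀ ≤ Z) (hZ : 0 < Z)
    (he : e ≤ η * Z) (hw : R₀ * ρ * Z ≤ w) (c' : ℕ) (hc' : c' < ρ) :
    (((sct S D N).filter (fun y => v < y ∧ y ≤ v + w ∧ y % ρ = c')).card : ℝ) ≤
      (1 / 3 + 5 * ε / 12) * ((w : ℝ) / ρ + 1) := by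
  classical
  -- the first element of the class
  obtain ⟨y₀, hy1, hy2, hy3⟩ : ∃ y₀, v < y₀ ∧ y₀ ≤ v + ρ ∧ y₀ % ρ = c' := by
    refine ⟨v + 1 + (c' + ρ - (v + 1) % ρ) % ρ, by omega, ?_, ?_⟩
    · have := Nat.mod_lt (c' + ρ - (v + 1) % ρ) hρ
      omega
    · have h3 := Nat.mod_lt (v + 1) hρ
      have h4 := Nat.div_add_mod (v + 1) ρ
      rw [Nat.add_mod_mod]
      have e : v + 1 + (c' + ρ - (v + 1) % ρ) = c' + ρ * ((v + 1) / ρ + 1) := by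
        rw [mul_add, mul_one]
        omega
      rw [e, Nat.add_mul_mod_self_left, Nat.mod_eq_of_lt hc']
  have hyy : ∀ y, v < y → y % ρ = c' → ∃ t, y = y₀ + ρ * t := by
    intro y hy hyc
    have h3 : y₀ ≤ y := by
      by_contra hcon
      push Not at hcon
      have h4 : (y₀ - y) % ρ = 0 := by
        have := (Nat.modEq_iff_dvd' hcon.le).mp (show y ≡ y₀ [MOD ρ] by
          unfold Nat.ModEq
          rw [hyc, hy3])
        exact Nat.mod_eq_zero_of_dvd this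
      have h5 := Nat.dvd_of_mod_eq_zero h4
      have h6 := Nat.le_of_dvd (by omega) h5
      omega
    have h4 := (Nat.modEq_iff_dvd' h3).mp (show y₀ ≡ y [MOD ρ] by
      unfold Nat.ModEq
      rw [hyc, hy3])
    obtain ⟨t, ht⟩ := h4
    exact ⟨t, by omega⟩
  set L := w / ρ + 1 with hL
  set A := sct S (D * ρ) Z with hA
  set B := (range L).filter (fun t => y₀ + ρ * t ≤ v + w ∧ y₀ + ρ * t ∈ sct S D N) with hB
  have hcard : ((sct S D N).filter (fun y => v < y ∧ y ≤ v + w ∧ y % ρ = c')).card ≤ B.card := by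
    apply card_le_card_of_injOn (fun y => (y - y₀) / ρ)
    · intro y hy
      simp only [coe_filter, Set.mem_ofPred_eq] at hy
      obtain ⟨hy4, hy5, hy6, hy7⟩ := hy
      obtain ⟨t, rfl⟩ := hyy y hy5 hy7
      have e : (y₀ + ρ * t - y₀) / ρ = t := by
        rw [Nat.add_sub_cancel_left, Nat.mul_div_cancel_left t hρ]
      simp only [hB, coe_filter, Set.mem_ofPred_eq, mem_range]
      rw [e]
      refine ⟨?_, hy6, hy4⟩
      rw [hL, Nat.lt_succ_iff, Nat.le_div_iff_mul_le hρ]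
      have : ρ * t < w := by omega
      linarith
    · intro y hy y' hy' h
      simp only [coe_filter, Set.mem_ofPred_eq] at hy hy'
      obtain ⟨t, ht⟩ := hyy y hy.2.1 hy.2.2.2
      obtain ⟨t', ht'⟩ := hyy y' hy'.2.1 hy'.2.2.2
      dsimp only at h
      rw [ht, ht', Nat.add_sub_cancel_left, Nat.add_sub_cancel_left, Nat.mul_div_cancel_left t hρ,
        Nat.mul_div_cancel_left t' hρ] at h
      rw [ht, ht', h]
  have hrpB : ∀ a, rp B a ≤ rp (sct S D N) (ρ * a) := by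
    intro a
    unfold rp
    apply card_le_card_of_injOn (fun t => y₀ + ρ * t)
    · intro t ht
      simp only [hB, coe_filter, Set.mem_ofPred_eq, mem_filter, mem_range] at ht ⊢
      refine ⟨ht.1.2.2, ?_⟩
      have e : y₀ + ρ * t + ρ * a = y₀ + ρ * (t + a) := by ring
      rw [e]
      exact ht.2.2.2
    · intro t _ t' _ h
      dsimp only at h
      exact Nat.eq_of_mul_eq_mul_left hρ (by omega)
  have hAmem : ∀ a ∈ A, 1 ≤ a ∧ a ≤ Z ∧ D * ρ * a ∈ S := by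
    intro a ha
    rw [hA] at ha
    unfold sct at ha
    rw [mem_filter, mem_Icc] at ha
    exact ⟨ha.1.1, ha.1.2, ha.2⟩
  have hρmem : ∀ a, 1 ≤ a → a ≤ Z → D * ρ * a ∈ S → ρ * a ∈ sct S D N := by
    intro a ha1 ha2 ha3
    unfold sct
    rw [mem_filter, mem_Icc]
    refine ⟨⟨Nat.mul_pos hρ ha1, (Nat.mul_le_mul_left ρ ha2).trans hZN⟩, ?_⟩
    rw [← mul_assoc]
    exact ha3
  have hZN' : Z ≤ N := by
    calc Z = 1 * Z := (one_mul Z).symm
      _ ≤ ρ * Z := Nat.mul_le_mul_right _ hρ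
      _ ≤ N := hZN
  have hh1 : 1 ≤ ρ' * x := Nat.mul_pos hρ' hx
  have hZ0 : (0 : ℝ) < Z := by exact_mod_cast hZ
  have key := hup Z L A B (fun a ha => ⟨(hAmem a ha).1, (hAmem a ha).2.1⟩)
    (fun b hb => by
      rw [hB, mem_filter, mem_range] at hb
      exact hb.1) hRZ (by
      have : R₀ * Z ≤ w / ρ := by
        rw [Nat.le_div_iff_mul_le hρ]
        calc R₀ * Z * ρ = R₀ * ρ * Z := by ring
          _ ≤ w := hw
      omega) (by
      have h3 : (Z : ℝ) ≤ 16 * A.card := by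
        have h4 : ε * (Z : ℝ) ≤ 1 / 2 * Z := mul_le_mul_of_nonneg_right hε1 hZ0.le
        have h5 : (0 : ℝ) ≤ A.card := by positivity
        linarith
      exact_mod_cast h3)
    (fun a ha => by
      obtain ⟨ha1, ha2, ha3⟩ := hAmem a ha
      have h3 : (rp B a : ℝ) ≤ rp (sct S D N) (ρ * a) := by exact_mod_cast hrpB a
      have h4 := (h1 _ (hρmem a ha1 ha2 ha3)).1
      linarith)
    (fun q hq1 hq2 => by
      refine ⟨ρ' * x, hh1, Dvd.dvd.mul_right (hq q hq1 hq2) x, hRx, ?_, ?_⟩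
      · have h3 : (rp B (ρ' * x) : ℝ) ≤ rp (sct S D N) (ρ * (ρ' * x)) := by exact_mod_cast hrpB _
        have h4 := (h1 _ (hρmem (ρ' * x) hh1 hxZ hxS)).1
        linarith
      · have h3 : rp A (ρ' * x) ≤ rp (sct S (D * ρ) N) (ρ' * x) := by
          have hsub : A ⊆ sct S (D * ρ) N := by
            rw [hA]
            unfold sct
            apply filter_subset_filter
            exact Icc_subset_Icc le_rfl hZN'
          unfold rp
          apply card_le_card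
          intro t ht
          rw [mem_filter] at ht ⊢
          exact ⟨hsub ht.1, hsub ht.2⟩
        have h3' : (rp A (ρ' * x) : ℝ) ≤ rp (sct S (D * ρ) N) (ρ' * x) := by exact_mod_cast h3
        have h4 := (h2 (ρ' * x) (by
          unfold sct
          rw [mem_filter, mem_Icc]
          exact ⟨⟨hh1, hxZ.trans hZN'⟩, hxS⟩)).1
        linarith)
  have hL0 : (0 : ℝ) < L := by
    rw [hL]
    positivity
  have hdens' : (1 - ε) / 3 ≤ (A.card : ℝ) / Z := by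
    rw [le_div_iff₀ hZ0]
    linarith
  have hBL : (B.card : ℝ) / L ≤ 1 / 3 + 5 * ε / 12 := by linarith
  have hBL' : (B.card : ℝ) ≤ (1 / 3 + 5 * ε / 12) * L := (div_le_iff₀ hL0).mp hBL
  have hLw : (L : ℝ) ≤ (w : ℝ) / ρ + 1 := by
    rw [hL]
    push_cast
    have : ((w / ρ : ℕ) : ℝ) ≤ w / ρ := Nat.cast_div_le
    linarith
  calc (((sct S D N).filter (fun y => v < y ∧ y ≤ v + w ∧ y % ρ = c')).card : ℝ) ≤ B.card := by
        exact_mod_cast hcard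
    _ ≤ (1 / 3 + 5 * ε / 12) * L := hBL'
    _ ≤ (1 / 3 + 5 * ε / 12) * ((w : ℝ) / ρ + 1) := mul_le_mul_of_nonneg_left hLw (by positivity)

theorem A7_sum {S' : Finset ℕ} {P : ℕ → Prop} [DecidablePred P] {ρ d c : ℕ} (hρ : 0 < ρ) (hd : 0 < d) (hdρ : d ∣ ρ)
    {G : ℝ} (hG : 0 ≤ G)
    (h : ∀ c' < ρ, ((S'.filter (fun y => P y ∧ y % ρ = c')).card : ℝ) ≤ G) :
    ((S'.filter (fun y => P y ∧ y % d = c)).card : ℝ) ≤ (ρ : ℝ) / d * G := by
  classical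
  have h1 : (S'.filter (fun y => P y ∧ y % d = c)) ⊆
      ((range ρ).filter (fun c' => c' % d = c)).biUnion (fun c' => S'.filter (fun y => P y ∧ y % ρ = c')) := by
    intro y hy
    rw [mem_filter] at hy
    rw [mem_biUnion]
    refine ⟨y % ρ, ?_, ?_⟩
    · rw [mem_filter, mem_range]
      refine ⟨Nat.mod_lt _ hρ, ?_⟩
      rw [Nat.mod_mod_of_dvd _ hdρ]
      exact hy.2.2
    · rw [mem_filter]
      exact ⟨hy.1, hy.2.1, rfl⟩
  have h2 : ((range ρ).filter (fun c' => c' % d = c)).card ≤ ρ / d := by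
    have h3 : ((range ρ).filter (fun c' => c' % d = c)).card ≤ (range (ρ / d)).card := by
      apply card_le_card_of_injOn (fun c' => c' / d)
      · intro c' hc'
        simp only [coe_filter, Set.mem_ofPred_eq, mem_range] at hc'
        rw [mem_coe, mem_range]
        exact Nat.div_lt_div_of_lt_of_dvd hdρ hc'.1
      · intro a ha b hb hab
        simp only [coe_filter, Set.mem_ofPred_eq, mem_range] at ha hb
        dsimp only at hab
        rw [← Nat.div_add_mod a d, ← Nat.div_add_mod b d, hab, ha.2, hb.2]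
    rwa [card_range] at h3
  have h3 : ((S'.filter (fun y => P y ∧ y % d = c)).card : ℝ) ≤
      ∑ c' ∈ (range ρ).filter (fun c' => c' % d = c), ((S'.filter (fun y => P y ∧ y % ρ = c')).card : ℝ) := by
    exact_mod_cast (card_le_card h1).trans card_biUnion_le
  refine h3.trans ?_
  have h4 : ∑ c' ∈ (range ρ).filter (fun c' => c' % d = c), ((S'.filter (fun y => P y ∧ y % ρ = c')).card : ℝ) ≤
      ∑ c' ∈ (range ρ).filter (fun c' => c' % d = c), G := by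
    apply sum_le_sum
    intro c' hc'
    rw [mem_filter, mem_range] at hc'
    exact h c' hc'.1
  refine h4.trans ?_
  rw [sum_const, nsmul_eq_mul]
  apply mul_le_mul_of_nonneg_right _ hG
  calc ((((range ρ).filter (fun c' => c' % d = c)).card : ℕ) : ℝ) ≤ ((ρ / d : ℕ) : ℝ) := by exact_mod_cast h2
    _ ≤ (ρ : ℝ) / d := Nat.cast_div_le

theorem ups {ε : ℝ} (hε : 0 < ε) (hε1 : ε ≤ 1 / 2) : ∃ (R K0 : ℕ) (η : ℝ), 1 ≤ R ∧ 1 ≤ K0 ∧ 0 < η ∧
    ∀ (S : Finset ℕ) (D ρ ρ' N Z x v w c d : ℕ) (e : ℝ), 0 < D → 0 < ρ → 0 < ρ' → 0 < x →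
      RSF (sct S D N) e → RSF (sct S (D * ρ) N) e →
      0 < d → d ∣ ρ → (∀ q, 1 ≤ q → q ≤ K0 → q ∣ ρ') →
      ρ * Z ≤ N → (1 - ε) * (Z : ℝ) ≤ 3 * ((sct S (D * ρ) Z).card : ℝ) →
      D * ρ * (ρ' * x) ∈ S → R * (ρ' * x) ≤ Z → R ≤ Z → e ≤ η * Z → R * ρ * Z ≤ w → v + w ≤ N →
      (((sct S D N).filter (fun y => v < y ∧ y ≤ v + w ∧ y % d = c)).card : ℝ) ≤ (1 / 3 + ε) * w / d := by
  obtain ⟨R₀, K0, η, hR₀, hK0, hη, hup⟩ := up_thm (ε := ε / 2) (by positivity)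
  obtain ⟨r, hr⟩ := exists_nat_ge (2 / ε)
  refine ⟨R₀ + r, K0, η, by omega, hK0, hη, ?_⟩
  intro S D ρ ρ' N Z x v w c d e hD hρ hρ' hx h1 h2 hd hdρ hq hZN hdens hxS hRx hRZ he hw hvw
  have hZ : 0 < Z := by omega
  have hρ0 : (0 : ℝ) < ρ := by exact_mod_cast hρ
  have hd0 : (0 : ℝ) < d := by exact_mod_cast hd
  have hxZ : ρ' * x ≤ Z := by
    calc ρ' * x = 1 * (ρ' * x) := (one_mul _).symm
      _ ≤ (R₀ + r) * (ρ' * x) := Nat.mul_le_mul_right _ (by omega)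
      _ ≤ Z := hRx
  have hcl := fun c' hc' => A7_class hε hε1 hup S D ρ ρ' N Z x v w e hD hρ hρ' hx h1 h2 hq hZN hdens hxS
    ((Nat.mul_le_mul_right _ (by omega)).trans hRx) hxZ (by omega) hZ he
    ((Nat.mul_le_mul_right _ (Nat.mul_le_mul_right _ (by omega))).trans hw) c' hc'
  have hw0 : (0 : ℝ) ≤ w := by positivity
  have hsum := A7_sum (S' := sct S D N) (P := fun y => v < y ∧ y ≤ v + w) (c := c) hρ hd hdρ
    (G := (1 / 3 + 5 * ε / 12) * ((w : ℝ) / ρ + 1)) (by positivity) (by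
      intro c' hc'
      have := hcl c' hc'
      simpa only [and_assoc] using this)
  have e1 : (((sct S D N).filter (fun y => v < y ∧ y ≤ v + w ∧ y % d = c)).card : ℝ) ≤
      (ρ : ℝ) / d * ((1 / 3 + 5 * ε / 12) * ((w : ℝ) / ρ + 1)) := by
    simpa only [and_assoc] using hsum
  refine e1.trans ?_
  have hρw : (ρ : ℝ) ≤ ε / 2 * w := by
    have h3 : r * ρ ≤ w := by
      calc r * ρ = r * ρ * 1 := (mul_one _).symm
        _ ≤ (R₀ + r) * ρ * Z := Nat.mul_le_mul (Nat.mul_le_mul_right _ (by omega)) hZ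
        _ ≤ w := hw
    have h3' : (r : ℝ) * ρ ≤ w := by exact_mod_cast h3
    have h4 : 2 / ε * ρ ≤ w := (mul_le_mul_of_nonneg_right hr hρ0.le).trans h3'
    have h5 : ε / 2 * (2 / ε * ρ) = ρ := by field_simp
    rw [← h5]
    exact mul_le_mul_of_nonneg_left h4 (by positivity)
  have e2 : (ρ : ℝ) / d * ((1 / 3 + 5 * ε / 12) * ((w : ℝ) / ρ + 1)) = (1 / 3 + 5 * ε / 12) * (w + ρ) / d := by
    field_simp
  rw [e2]
  apply div_le_div_of_nonneg_right _ hd0.le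
  have e3 : (1 / 3 + 5 * ε / 12) * (w + ρ) ≤ (1 / 3 + 5 * ε / 12) * (w + ε / 2 * w) :=
    mul_le_mul_of_nonneg_left (by linarith) (by positivity)
  refine e3.trans ?_
  have e4 : (1 / 3 + 5 * ε / 12) * (w + ε / 2 * w) = (1 / 3 + 7 * ε / 12 + 5 * ε / 24 * ε) * w := by ring
  rw [e4]
  apply mul_le_mul_of_nonneg_right _ hw0
  have e5 : 5 * ε / 24 * ε ≤ 5 * ε / 24 * (1 / 2) := mul_le_mul_of_nonneg_left hε1 (by positivity)
  linarith

end SFP
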