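import Pool.Agent.SFP.A7

/-!
# Module A8: UPS for the cells   (difficulty 2)

`ups ε` gives `R, K0, η`.  `B0 = R F^J + ⌈R F^J / σ⌉₊ + ⌈1 / η⌉₊ + R + 1`.  `Z = cl T B E (2l)` or `cl T B E (2l-1)`, whichever cell of the block `l` at `D ρ` is dense (`NE`:
`-ε ≤ ex = 3 card / Z - 1`, so `(1 - ε) Z ≤ 3 card`).  `x` = any element of the dense cell of `(l', D ρ ρ')` (it is not empty, as `ex ≥ -ε > -1`): `x ≤ cl T B E (2l')`, `D ρ ρ' x ∈ S`.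
Check (`cl T B E k = T B^(E (k+1))`, `E ≥ J + 1`, `B ≥ R F^J`, so `B^E ≥ R (F B)^J`; for `σ B^E ≥ R (F B)^J` use `B ≥ R F^J / σ`):
* `e = T ≤ η Z`: `Z ≥ T B^(E 2 l)`, `B ≥ 1 / η`, `E 2 l ≥ 1`.  `R ≤ Z`.
* `R ρ' x ≤ R (F B)^J T B^(E (2l'+1)) ≤ T B^(E (2l'+2)) ≤ T B^(E 2 l) ≤ Z` (`l' < l`).
* `R ρ Z ≤ R (F B)^J T B^(E (2l+1)) ≤ σ B^E T B^(E(2l+1)) = σ T B^(E (2l+2)) ≤ σ T B^(E 2 j) ≤ σ cl T B E k ≤ w` (`l < j`, `k ≥ 2j - 1`).
* `ρ Z ≤ N`: `ρ Z ≤ R ρ Z ≤ w ≤ v + w ≤ N`.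
-/

namespace SFP

open Finset

theorem A8_dense {S : Finset ℕ} {D X : ℕ} {ε : ℝ} (hX : 0 < X) (h : -ε ≤ ex S D X) :
    (1 - ε) * (X : ℝ) ≤ 3 * ((sct S D X).card : ℝ) := by
  unfold ex at h
  have hX' : (0 : ℝ) < X := by exact_mod_cast hX
  have h1 : 1 - ε ≤ 3 * ((sct S D X).card : ℝ) / X := by linarith
  rwa [le_div_iff₀ hX'] at h1

theorem A8_ne {S : Finset ℕ} {T B E D l : ℕ} {ε : ℝ} (hl : 1 ≤ l) (h : NE S T B E ε D l) :
    ∃ m, 2 * l ≤ m + 1 ∧ m ≤ 2 * l ∧ -ε ≤ ex S D (cl T B E m) := by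
  rcases h with h | h
  · exact ⟨2 * l, by omega, le_refl _, h⟩
  · exact ⟨2 * l - 1, by omega, by omega, h⟩

theorem ups_cell {ε σ : ℝ} (hε : 0 < ε) (hε1 : ε ≤ 1 / 2) (hσ : 0 < σ) : ∃ K0 : ℕ, 1 ≤ K0 ∧
    ∀ F J E : ℕ, 0 < F → (∀ q, 1 ≤ q → q ≤ K0 → q ∣ F) → J + 1 ≤ E → ∃ B0 : ℕ, ∀ B, B0 ≤ B →
    ∀ (T : ℕ) (S : Finset ℕ) (D ρ ρ' N j l l' k : ℕ), 1 ≤ T → 0 < D → 0 < ρ → 0 < ρ' →
      RSF (sct S D N) T → RSF (sct S (D * ρ) N) T → F ∣ ρ → F ∣ ρ' → ρ ≤ (F * B) ^ J → ρ' ≤ (F * B) ^ J →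
      1 ≤ l' → l' < l → l < j → NE S T B E ε (D * ρ) l → NE S T B E ε (D * ρ * ρ') l' →
      (k = 2 * j ∨ k = 2 * j - 1) → ∀ v w c d : ℕ, 0 < d → d ∣ F → σ * (cl T B E k : ℝ) ≤ w →
      v + w ≤ N →
      (((sct S D N).filter (fun y => v < y ∧ y ≤ v + w ∧ y % d = c)).card : ℝ) ≤ (1 / 3 + ε) * w / d := by
  obtain ⟨R, K0, η, hR, hK0, hη, H⟩ := ups hε hε1
  refine ⟨K0, hK0, ?_⟩
  intro F J E hF hFq hE
  refine ⟨R * F ^ J + ⌈(R * F ^ J : ℝ) / σ⌉₊ + ⌈1 / η⌉₊ + R + 1, ?_⟩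
  intro B hB T S D ρ ρ' N j l l' k hT hD hρ hρ' hS1 hS2 hFρ hFρ' hρle hρle' hl1 hll hlj hNE hNE' hk
    v w c d hd hdF hw hvw
  have hB1 : 1 ≤ B := by omega
  have hBR : R ≤ B := by omega
  have hB2 : R * F ^ J ≤ B := by omega
  have hB3 : (R * F ^ J : ℝ) ≤ σ * B := by
    have h1 : (R * F ^ J : ℝ) / σ ≤ B := by
      calc (R * F ^ J : ℝ) / σ ≤ (⌈(R * F ^ J : ℝ) / σ⌉₊ : ℝ) := Nat.le_ceil _
        _ ≤ B := by exact_mod_cast (by omega : ⌈(R * F ^ J : ℝ) / σ⌉₊ ≤ B)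
    rw [div_le_iff₀ hσ] at h1
    linarith
  have hB4 : 1 ≤ η * B := by
    have h1 : 1 / η ≤ B := by
      calc 1 / η ≤ (⌈1 / η⌉₊ : ℝ) := Nat.le_ceil _
        _ ≤ B := by exact_mod_cast (by omega : ⌈1 / η⌉₊ ≤ B)
    rw [div_le_iff₀ hη] at h1
    linarith
  have key1 : R * (F * B) ^ J ≤ B ^ E := by
    calc R * (F * B) ^ J = (R * F ^ J) * B ^ J := by rw [mul_pow]; ring
      _ ≤ B * B ^ J := Nat.mul_le_mul_right _ hB2
      _ = B ^ (J + 1) := by ring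
      _ ≤ B ^ E := Nat.pow_le_pow_right hB1 hE
  have hB1' : (1 : ℝ) ≤ B := by exact_mod_cast hB1
  have hT' : (1 : ℝ) ≤ T := by exact_mod_cast hT
  have key2 : (R : ℝ) * (F * B : ℝ) ^ J ≤ σ * (B : ℝ) ^ E := by
    calc (R : ℝ) * (F * B : ℝ) ^ J = (R * F ^ J) * B ^ J := by rw [mul_pow]; ring
      _ ≤ (σ * B) * B ^ J := mul_le_mul_of_nonneg_right hB3 (by positivity)
      _ = σ * (B : ℝ) ^ (J + 1) := by ring
      _ ≤ σ * (B : ℝ) ^ E := mul_le_mul_of_nonneg_left (pow_le_pow_right₀ hB1' hE) hσ.le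
  have hclpos : ∀ i, 0 < cl T B E i := by
    intro i
    unfold cl
    positivity
  obtain ⟨m, hm1, hm2, hm3⟩ := A8_ne (by omega) hNE
  obtain ⟨m', hm1', hm2', hm3'⟩ := A8_ne hl1 hNE'
  have hd1 := A8_dense (hclpos m) hm3
  have hd2 := A8_dense (hclpos m') hm3'
  obtain ⟨x, hx⟩ : (sct S (D * ρ * ρ') (cl T B E m')).Nonempty := by
    rw [← card_pos]
    have h1 : (0 : ℝ) < cl T B E m' := by exact_mod_cast hclpos m'
    have h2 : 0 < (1 - ε) * (cl T B E m' : ℝ) := mul_pos (by linarith) h1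
    have h3 : (0 : ℝ) < ((sct S (D * ρ * ρ') (cl T B E m')).card : ℝ) := by linarith
    exact_mod_cast h3
  unfold sct at hx
  rw [mem_filter, mem_Icc] at hx
  obtain ⟨⟨hx1, hx2⟩, hx3⟩ := hx
  have hZ1 : B ≤ B ^ (E * (m + 1)) := by
    calc B = B ^ 1 := (pow_one B).symm
      _ ≤ B ^ (E * (m + 1)) := Nat.pow_le_pow_right hB1 (Nat.mul_pos (by omega) (by omega))
  have hZ2 : T * B ≤ cl T B E m := Nat.mul_le_mul_left T hZ1
  have g1 : R * (ρ' * x) ≤ cl T B E m := by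
    calc R * (ρ' * x) = (R * ρ') * x := by ring
      _ ≤ (R * (F * B) ^ J) * cl T B E m' :=
          Nat.mul_le_mul (Nat.mul_le_mul_left R hρle') hx2
      _ ≤ B ^ E * cl T B E m' := Nat.mul_le_mul_right _ key1
      _ = T * B ^ (E * (m' + 2)) := by
          unfold cl
          rw [show E * (m' + 2) = E + E * (m' + 1) by ring, pow_add]
          ring
      _ ≤ T * B ^ (E * (m + 1)) :=
          Nat.mul_le_mul_left T (Nat.pow_le_pow_right hB1 (Nat.mul_le_mul_left E (by omega)))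
      _ = cl T B E m := rfl
  have g2 : R ≤ cl T B E m := by
    calc R ≤ B := hBR
      _ = 1 * B := (one_mul B).symm
      _ ≤ T * B := Nat.mul_le_mul_right B hT
      _ ≤ _ := hZ2
  have g3 : (T : ℝ) ≤ η * (cl T B E m : ℕ) := by
    have h1 : (T : ℝ) * B ≤ (cl T B E m : ℕ) := by exact_mod_cast hZ2
    calc (T : ℝ) = T * 1 := (mul_one _).symm
      _ ≤ T * (η * B) := mul_le_mul_of_nonneg_left hB4 (by linarith)
      _ = η * (T * B) := by ring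
      _ ≤ η * (cl T B E m : ℕ) := mul_le_mul_of_nonneg_left h1 hη.le
  have g4 : R * ρ * cl T B E m ≤ w := by
    have h1 : (R : ℝ) * ρ * (cl T B E m : ℕ) ≤ w := by
      have hρR : (ρ : ℝ) ≤ (F * B : ℝ) ^ J := by exact_mod_cast hρle
      have hclR : (cl T B E m : ℝ) = T * (B : ℝ) ^ (E * (m + 1)) := by
        unfold cl; push_cast; ring
      have hclk : (cl T B E k : ℝ) = T * (B : ℝ) ^ (E * (k + 1)) := by
        unfold cl; push_cast; ring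
      calc (R : ℝ) * ρ * (cl T B E m : ℕ) ≤ (R * (F * B : ℝ) ^ J) * (cl T B E m : ℕ) := by
            apply mul_le_mul_of_nonneg_right _ (by positivity)
            exact mul_le_mul_of_nonneg_left hρR (by positivity)
        _ ≤ (σ * (B : ℝ) ^ E) * (cl T B E m : ℕ) :=
            mul_le_mul_of_nonneg_right key2 (by positivity)
        _ = σ * (T * (B : ℝ) ^ (E * (m + 2))) := by
            rw [hclR, show E * (m + 2) = E + E * (m + 1) by ring, pow_add]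
            ring
        _ ≤ σ * (T * (B : ℝ) ^ (E * (k + 1))) := by
            apply mul_le_mul_of_nonneg_left _ hσ.le
            apply mul_le_mul_of_nonneg_left _ (by linarith)
            apply pow_le_pow_right₀ hB1'
            apply Nat.mul_le_mul_left
            omega
        _ = σ * (cl T B E k : ℝ) := by rw [hclk]
        _ ≤ w := hw
    exact_mod_cast h1
  have g5 : ρ * cl T B E m ≤ N := by
    calc ρ * cl T B E m = 1 * (ρ * cl T B E m) := (one_mul _).symm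
      _ ≤ R * (ρ * cl T B E m) := Nat.mul_le_mul_right _ hR
      _ = R * ρ * cl T B E m := by ring
      _ ≤ w := g4
      _ ≤ v + w := Nat.le_add_left _ _
      _ ≤ N := hvw
  refine H S D ρ ρ' N (cl T B E m) x v w c d T hD hρ hρ' (by omega) hS1 hS2 hd
    (hdF.trans hFρ) (fun q hq1 hq2 => (hFq q hq1 hq2).trans hFρ') g5 hd1 ?_ g1 g2 g3 g4 hvw
  rw [← mul_assoc]
  exact hx3

end SFP
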