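import Pool.Agent.SFP.Defs

/-!
# Part A: definitions (blocks, classes)
-/

namespace SFP

open Finset

/-- The number of residues modulo `q` met by `X ⊆ ℤ / m`. -/
def cls (q : ℕ) {m : ℕ} (X : Finset (ZMod m)) : ℕ := (X.image (fun x => x.val % q)).card

/-- The block `s`: the elements of `A` in `[s m, (s + 1) m)`, as residues modulo `m`. -/
def blk (m : ℕ) (A : Finset ℕ) (s : ℕ) : Finset (ZMod m) :=
  (A.filter (fun a => a / m = s)).image (fun a : ℕ => (a : ZMod m))

end SFP
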