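import Pool.Agent.SFP.CD

/-!
# Module C1: lower bounds in windows   (difficulty 2)

Let `τ Z ≤ w`, `v + w ≤ Z`, `1 ≤ d ≤ K` and `N = #(S ∩ (v, v + w] ∩ (c mod d))`.  Upper bound: directly from `h1` (`ρ ≤ τ`, `δ ≤ ε`).
Lower bound: `S` is the disjoint union of `S ∩ (0, v]`, `S ∩ (v + w, Z]` and of the `S ∩ (v, v + w] ∩ (c' mod d)`, `c' < d` (one of them, `c' = c % d`, has `N` elements).
* `#(S ∩ (v, v + w] ∩ (c' mod d)) ≤ (1/3 + δ) w / d` for the `d - 1` other classes.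
* `#(S ∩ (0, v]) ≤ (1/3 + δ) v + ρ Z`: if `ρ Z ≤ v` this is `h1` for `d = 1` (window `(0, v]`); otherwise trivially `≤ v ≤ ρ Z`.
* `#(S ∩ (v + w, Z]) ≤ (1/3 + δ) (Z - v - w) + ρ Z`: the same (window `(v + w, Z]`).
Sum: `(1/3 - δ) Z ≤ |S| ≤ N + (1/3 + δ) Z - (1/3 + δ) w / d + 2 ρ Z`, so `N ≥ (1/3 + δ) w / d - 2 (δ + ρ) Z ≥ w / (3 d) - 2 (δ + ρ) Z`, and
`2 (δ + ρ) Z ≤ ε w / d`, because `2 (δ + ρ) Z d ≤ 2 (δ + ρ) K Z ≤ ε τ Z ≤ ε w`.
-/

namespace SFP

open Finset

theorem c_window {S : Finset ℕ} {Z K : ℕ} {δ ρ ε τ : ℝ} (hS : S ⊆ Icc 1 Z) (hδ : 0 ≤ δ)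
    (hρ : 0 ≤ ρ) (hρτ : ρ ≤ τ) (hδε : δ ≤ ε) (hp : 2 * (δ + ρ) * K ≤ ε * τ)
    (h1 : ∀ d : ℕ, 1 ≤ d → d ≤ K → ∀ c v w : ℕ, ρ * Z ≤ w → v + w ≤ Z →
      ((S.filter (fun x => v < x ∧ x ≤ v + w ∧ x % d = c % d)).card : ℝ) ≤ (1 / 3 + δ) * w / d)
    (hc : (1 / 3 - δ) * Z ≤ (S.card : ℝ)) : WB S Z K ε τ := by
  intro d hd hdK c v w hw hv
  have hZ0 : (0 : ℝ) ≤ Z := Nat.cast_nonneg Z
  have hw0 : (0 : ℝ) ≤ w := Nat.cast_nonneg w
  have hv0 : (0 : ℝ) ≤ v := Nat.cast_nonneg v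
  have hd0 : (0 : ℝ) < d := by exact_mod_cast hd
  have hε0 : 0 ≤ ε := hδ.trans hδε
  have hK1 : 1 ≤ K := hd.trans hdK
  have hρw : ρ * Z ≤ w := (mul_le_mul_of_nonneg_right hρτ hZ0).trans hw
  have hvR : (v : ℝ) + w ≤ Z := by exact_mod_cast hv
  refine ⟨?_, ?_⟩
  swap
  · refine (h1 d hd hdK c v w hρw hv).trans ?_
    gcongr
  -- the three parts
  set F : ℕ → ℕ := fun c' => (S.filter (fun x => v < x ∧ x ≤ v + w ∧ x % d = c' % d)).card with hF
  have hA : ((S.filter (fun x => x ≤ v)).card : ℝ) ≤ (1 / 3 + δ) * v + ρ * Z := by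
    rcases le_or_gt (ρ * Z) v with h | h
    · have h2 := h1 1 le_rfl hK1 0 0 v h (by omega)
      have h3 : S.filter (fun x => x ≤ v) ⊆ S.filter (fun x => 0 < x ∧ x ≤ 0 + v ∧ x % 1 = 0 % 1) := by
        intro x hx
        rw [mem_filter] at hx ⊢
        have h4 := mem_Icc.1 (hS hx.1)
        exact ⟨hx.1, by omega, by omega, by omega⟩
      have h4 : ((S.filter (fun x => x ≤ v)).card : ℝ) ≤
          ((S.filter (fun x => 0 < x ∧ x ≤ 0 + v ∧ x % 1 = 0 % 1)).card : ℝ) := by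
        exact_mod_cast card_le_card h3
      have h5 : 0 ≤ ρ * Z := mul_nonneg hρ hZ0
      push_cast at h2
      linarith
    · have h3 : S.filter (fun x => x ≤ v) ⊆ Icc 1 v := by
        intro x hx
        rw [mem_filter] at hx
        have h4 := mem_Icc.1 (hS hx.1)
        exact mem_Icc.2 ⟨h4.1, hx.2⟩
      have h4 : ((S.filter (fun x => x ≤ v)).card : ℝ) ≤ v := by
        have h5 := card_le_card h3
        rw [Nat.card_Icc] at h5
        have h6 : (S.filter (fun x => x ≤ v)).card ≤ v := by omega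
        exact_mod_cast h6
      have h5 : 0 ≤ (1 / 3 + δ) * v := by positivity
      linarith
  have hB : ((S.filter (fun x => v + w < x)).card : ℝ) ≤ (1 / 3 + δ) * ((Z : ℝ) - v - w) + ρ * Z := by
    have hcast : ((Z - (v + w) : ℕ) : ℝ) = (Z : ℝ) - v - w := by
      rw [Nat.cast_sub hv]
      push_cast
      ring
    rcases le_or_gt (ρ * Z) ((Z - (v + w) : ℕ) : ℝ) with h | h
    · have h2 := h1 1 le_rfl hK1 0 (v + w) (Z - (v + w)) h (by omega)
      have h3 : S.filter (fun x => v + w < x) ⊆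
          S.filter (fun x => v + w < x ∧ x ≤ v + w + (Z - (v + w)) ∧ x % 1 = 0 % 1) := by
        intro x hx
        rw [mem_filter] at hx ⊢
        have h4 := mem_Icc.1 (hS hx.1)
        exact ⟨hx.1, by omega, by omega, by omega⟩
      have h4 : ((S.filter (fun x => v + w < x)).card : ℝ) ≤
          ((S.filter (fun x => v + w < x ∧ x ≤ v + w + (Z - (v + w)) ∧ x % 1 = 0 % 1)).card : ℝ) := by
        exact_mod_cast card_le_card h3
      have h5 : 0 ≤ ρ * Z := mul_nonneg hρ hZ0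
      rw [hcast] at h2
      push_cast at h2
      linarith
    · have h3 : S.filter (fun x => v + w < x) ⊆ Ioc (v + w) Z := by
        intro x hx
        rw [mem_filter] at hx
        have h4 := mem_Icc.1 (hS hx.1)
        exact mem_Ioc.2 ⟨hx.2, h4.2⟩
      have h4 : ((S.filter (fun x => v + w < x)).card : ℝ) ≤ ((Z - (v + w) : ℕ) : ℝ) := by
        have h5 := card_le_card h3
        rw [Nat.card_Ioc] at h5
        exact_mod_cast h5
      have h5 : 0 ≤ (1 / 3 + δ) * ((Z : ℝ) - v - w) := mul_nonneg (by positivity) (by linarith)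
      linarith
  have hM : (S.filter (fun x => v < x ∧ x ≤ v + w)).card = ∑ c' ∈ range d, F c' := by
    have h2 := card_eq_sum_card_fiberwise (f := fun x : ℕ => x % d)
      (s := S.filter (fun x => v < x ∧ x ≤ v + w)) (t := range d)
      (fun x _ => by
        have : x % d < d := Nat.mod_lt x (by omega)
        simpa using this)
    rw [h2]
    apply sum_congr rfl
    intro c' hc'
    rw [mem_range] at hc'
    simp only [hF]
    congr 1
    rw [filter_filter]
    apply filter_congr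
    intro x _
    rw [Nat.mod_eq_of_lt hc', and_assoc]
  have hcd : c % d ∈ range d := mem_range.2 (Nat.mod_lt c (by omega))
  have hFc : F (c % d) = (S.filter (fun x => v < x ∧ x ≤ v + w ∧ x % d = c % d)).card := by
    simp only [hF, Nat.mod_mod]
  have hM2 : ((S.filter (fun x => v < x ∧ x ≤ v + w)).card : ℝ) ≤
      ((S.filter (fun x => v < x ∧ x ≤ v + w ∧ x % d = c % d)).card : ℝ) +
        ((d : ℝ) - 1) * ((1 / 3 + δ) * w / d) := by
    rw [hM, ← add_sum_erase _ _ hcd, hFc, Nat.cast_add, Nat.cast_sum]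
    have h3 : ∑ c' ∈ (range d).erase (c % d), (F c' : ℝ) ≤
        ((range d).erase (c % d)).card • ((1 / 3 + δ) * w / d) := by
      apply sum_le_card_nsmul
      intro c' _
      exact h1 d hd hdK c' v w hρw hv
    rw [card_erase_of_mem hcd, card_range, nsmul_eq_mul, Nat.cast_sub hd, Nat.cast_one] at h3
    linarith
  have hS3 : S.card ≤ (S.filter (fun x => x ≤ v)).card + (S.filter (fun x => v + w < x)).card +
      (S.filter (fun x => v < x ∧ x ≤ v + w)).card := by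
    have h2 : S ⊆ (S.filter (fun x => x ≤ v)) ∪ (S.filter (fun x => v + w < x)) ∪
        (S.filter (fun x => v < x ∧ x ≤ v + w)) := by
      intro x hx
      simp only [mem_union, mem_filter, hx, true_and]
      omega
    refine (card_le_card h2).trans ((card_union_le _ _).trans ?_)
    have := card_union_le (S.filter (fun x => x ≤ v)) (S.filter (fun x => v + w < x))
    omega
  have hS3' : (S.card : ℝ) ≤ ((S.filter (fun x => x ≤ v)).card : ℝ) +
      ((S.filter (fun x => v + w < x)).card : ℝ) + ((S.filter (fun x => v < x ∧ x ≤ v + w)).card : ℝ) := by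
    exact_mod_cast hS3
  have hfin : 2 * (δ + ρ) * Z ≤ ε * w / d := by
    rw [le_div_iff₀ hd0]
    have hdK' : (d : ℝ) ≤ K := by exact_mod_cast hdK
    calc 2 * (δ + ρ) * Z * d ≤ 2 * (δ + ρ) * Z * K := by gcongr
      _ = 2 * (δ + ρ) * K * Z := by ring
      _ ≤ ε * τ * Z := by gcongr
      _ = ε * (τ * Z) := by ring
      _ ≤ ε * w := by gcongr
  have hdiv : (1 / 3 + δ) * w / d = w / d * (1 / 3) + δ * (w / d) := by ring
  have hdiv2 : (1 / 3 - ε) * w / d = w / d * (1 / 3) - ε * w / d := by ring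
  have hdiv3 : ((d : ℝ) - 1) * ((1 / 3 + δ) * w / d) = (1 / 3 + δ) * w - (1 / 3 + δ) * w / d := by
    field_simp
  have hpos : 0 ≤ δ * ((w : ℝ) / d) := by positivity
  rw [hdiv3, hdiv] at hM2
  rw [hdiv2]
  nlinarith

end SFP
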