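import Pool.Agent.SFP.C8

/-!
# Module C9: (t3) the elements after a window   (difficulty 2-3)

`c` from `c_arc`.  Let `x ∈ S`, `v + m ≤ x < v + 2 m`, and suppose `t = nd (α x - c) > 23/100`.  `s = (α x - c) - round (α x - c)`, `|s| = t ≤ 1/2`.  `s' = s - 1/2` if `s ≥ 0`, `s' = s + 1/2` if `s < 0`: `|s'| = 1/2 - t ≤ 27/100`.
Let `c' = c + s'/2`, `r = 1/6 - |s'|/2 ≥ 1/6 - 27/200 ≥ 0.0316`.  `Y = {y ∈ (v, v + m] : nd (α y - c') ≤ r}` has at least `(2 r - 1/10^4) m ≥ 0.063 m` elements (`FR.lo`).  For `y ∈ Y`: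
`nd (α y - c) ≤ r + |s'|/2 = 1/6` and `nd (α y - c - s') ≤ r + |s'|/2 = 1/6` (`nd_lip`); `c + s' = α x ± 1/2 - round (..)`, so `nd (α y - α x - 1/2) ≤ 1/6` (`nd_add_int`; `∓1/2` differ by an integer), `nd (α y - α x) ≥ 1/3` (`nd_sub_half`),
`nd (α (x - y)) ≥ 1/3` (`nd_neg`; `y ≤ v + m ≤ x`, `Nat.cast_sub`).
* `x - y < 2 m` (`y > v`), so by `FR.ex` at most `m / 10^4` of the `y ∈ Y` have `x - y ∉ S` (`y ↦ x - y` is injective).
* `#{y ∈ (v, v + m] : nd (α y - c) ≤ 1/6} ≤ (1/3 + 1/10^4) m` (`FR.up`), and at least `(1/3 - 1/10^4) m - 45 m / 1000` of these are in `S` (`HT.win`, `c_arc`).  So at most `(45/1000 + 2/10^4) m` elements of `Y` are not in `S`.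
* the other `y ∈ Y` satisfy `y ∈ S`, `x - y ∈ S` (so `x - y ≥ 1`, `y < x`): they are counted in `rm S x ≤ e₀ ≤ m / 10^4`.
Total: `0.063 m ≤ (0.0001 + 0.0452 + 0.0001) m`, contradiction.
-/

namespace SFP

open Finset

theorem c_t3 {S : Finset ℕ} {Z m : ℕ} {α e₀ : ℝ} (h : HT S Z m α e₀) {v : ℕ} (hv : v + m ≤ Z) :
    ∃ c : ℝ, ∀ x ∈ S, v + m ≤ x → x < v + 2 * m → nd (α * x - c) ≤ 23 / 100 := by
  obtain ⟨c, hc⟩ := c_arc h hv
  refine ⟨c, fun x hx hx1 hx2 => ?_⟩
  by_contra hcon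
  have hcon : 23 / 100 < nd (α * x - c) := not_le.1 hcon
  have hm : (10 : ℝ) ^ 6 ≤ m := by exact_mod_cast h.m1
  obtain ⟨s, hs⟩ : ∃ s : ℝ, s = (α * x - c) - round (α * x - c) := ⟨_, rfl⟩
  have hst : nd (α * x - c) = |s| := by
    rw [hs]
    rfl
  have hs2 : |s| ≤ 1 / 2 := by
    rw [← hst]
    exact nd_le_half _
  rw [hst] at hcon
  -- the shifted residue
  obtain ⟨s', k, hs', hs's⟩ : ∃ (s' : ℝ) (k : ℤ), |s'| ≤ 27 / 100 ∧ c + s' = α * x - 1 / 2 + k := by
    rcases le_or_gt 0 s with h0 | h0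
    · refine ⟨s - 1 / 2, -round (α * x - c), ?_, ?_⟩
      · rw [abs_of_nonneg h0] at hcon hs2
        rw [abs_le]
        constructor <;> linarith
      · rw [hs]
        push_cast
        ring
    · refine ⟨s + 1 / 2, -round (α * x - c) + 1, ?_, ?_⟩
      · rw [abs_of_neg h0] at hcon hs2
        rw [abs_le]
        constructor <;> linarith
      · rw [hs]
        push_cast
        ring
  obtain ⟨r, hr⟩ : ∃ r : ℝ, r = 1 / 6 - |s'| / 2 := ⟨_, rfl⟩
  have hr0 : 315 / 10000 ≤ r := by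
    rw [hr]
    linarith
  have hr1 : r ≤ 1 / 2 := by
    rw [hr]
    linarith [abs_nonneg s']
  obtain ⟨Y, hY⟩ : ∃ Y, Y = (Ioc v (v + m)).filter (fun y : ℕ => nd (α * y - (c + s' / 2)) ≤ r) :=
    ⟨_, rfl⟩
  have hYc : (2 * r - 1 / 10 ^ 4) * m ≤ (Y.card : ℝ) := by
    rw [hY]
    exact h.fr.lo v (c + s' / 2) r (by linarith) hr1
  have hY1 : ∀ y ∈ Y, nd (α * y - c) ≤ 1 / 6 := by
    intro y hy
    rw [hY, mem_filter] at hy
    have h1 := nd_lip (α * y - c) (α * y - (c + s' / 2))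
    have h2 : (α * y - c) - (α * y - (c + s' / 2)) = s' / 2 := by ring
    rw [h2, abs_div, abs_two] at h1
    linarith [hy.2]
  have hY2 : ∀ y ∈ Y, 1 / 3 ≤ nd (α * y - α * x) := by
    intro y hy
    rw [hY, mem_filter] at hy
    have h1 := nd_lip (α * y - (c + s')) (α * y - (c + s' / 2))
    have h2 : (α * y - (c + s')) - (α * y - (c + s' / 2)) = -(s' / 2) := by ring
    rw [h2, abs_neg, abs_div, abs_two] at h1
    have h3 : nd (α * y - (c + s')) ≤ 1 / 6 := by linarith [hy.2]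
    have h4 : α * y - (c + s') = (α * y - α * x) + 1 / 2 + ((-k : ℤ) : ℝ) := by
      rw [hs's]
      push_cast
      ring
    rw [h4, nd_add_int] at h3
    have h5 : (α * y - α * x) + 1 / 2 = ((α * y - α * x) - 1 / 2) + ((1 : ℤ) : ℝ) := by
      push_cast
      ring
    rw [h5, nd_add_int, nd_sub_half] at h3
    linarith
  -- the three parts
  have hsub : Y ⊆ (Y.filter (fun y => y ∉ S) ∪ Y.filter (fun y => x - y ∉ S)) ∪
      Y.filter (fun y => y ∈ S ∧ x - y ∈ S) := by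
    intro y hy
    rw [mem_union, mem_union, mem_filter, mem_filter, mem_filter]
    by_cases h1 : y ∈ S
    · by_cases h2 : x - y ∈ S
      · exact Or.inr ⟨hy, h1, h2⟩
      · exact Or.inl (Or.inr ⟨hy, h2⟩)
    · exact Or.inl (Or.inl ⟨hy, h1⟩)
  have hcard := (card_le_card hsub).trans (card_union_le _ _)
  have hcard2 := card_union_le (Y.filter (fun y => y ∉ S)) (Y.filter (fun y => x - y ∉ S))
  have hIoc : ∀ y ∈ Y, v < y ∧ y ≤ v + m := by
    intro y hy
    rw [hY, mem_filter, mem_Ioc] at hy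
    exact hy.1
  -- part 2
  have hp2 : ((Y.filter (fun y => x - y ∉ S)).card : ℝ) ≤ m / 10 ^ 4 := by
    refine le_trans ?_ h.fr.ex
    have : (Y.filter (fun y => x - y ∉ S)).card ≤
        ((range (3 * m)).filter (fun y : ℕ => 1 / 3 ≤ nd (α * y) ∧ y ∉ S)).card := by
      apply card_le_card_of_injOn (fun y => x - y)
      · intro y hy
        have hy := mem_coe.1 hy
        rw [mem_filter] at hy
        have h1 := hIoc y hy.1
        have h2 := hY2 y hy.1
        refine mem_coe.2 (mem_filter.2 ⟨mem_range.2 (show x - y < 3 * m by omega), ?_, hy.2⟩)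
        change 1 / 3 ≤ nd (α * ((x - y : ℕ) : ℝ))
        rw [Nat.cast_sub (by omega : y ≤ x), ← nd_neg]
        convert! h2 using 2
        ring
      · intro y hy z hz hyz
        have hy := mem_coe.1 hy
        have hz := mem_coe.1 hz
        rw [mem_filter] at hy hz
        have h1 := hIoc y hy.1
        have h2 := hIoc z hz.1
        have hyz : x - y = x - z := hyz
        omega
    exact_mod_cast this
  -- part 3
  have hp3 : ((Y.filter (fun y => y ∈ S ∧ x - y ∈ S)).card : ℝ) ≤ m / 10 ^ 4 := by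
    refine le_trans ?_ ((h.rsf x hx).2.trans h.e1)
    have : (Y.filter (fun y => y ∈ S ∧ x - y ∈ S)).card ≤ rm S x := by
      unfold rm
      apply card_le_card
      intro y hy
      rw [mem_filter] at hy
      refine mem_filter.2 ⟨hy.2.1, ?_, hy.2.2⟩
      by_contra hlt
      have h0 : x - y = 0 := by omega
      have h1 := h.sub hy.2.2
      rw [h0, mem_Icc] at h1
      omega
    exact_mod_cast this
  -- part 1
  have hp1 : ((Y.filter (fun y => y ∉ S)).card : ℝ) ≤ (45 / 1000 + 2 / 10 ^ 4) * m := by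
    obtain ⟨W, hW⟩ : ∃ W, W = (Ioc v (v + m)).filter (fun y : ℕ => nd (α * y - c) ≤ 1 / 6) := ⟨_, rfl⟩
    have hWc : (W.card : ℝ) ≤ (2 * (1 / 6) + 1 / 10 ^ 4) * m := by
      rw [hW]
      exact h.fr.up v c (1 / 6) (by norm_num)
    have h1 : (Y.filter (fun y => y ∉ S)).card + (W.filter (fun y => y ∈ S)).card ≤ W.card := by
      rw [← card_filter_add_card_filter_not (s := W) (fun y => y ∈ S), add_comm]
      apply Nat.add_le_add_left
      apply card_le_card
      intro y hy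
      rw [mem_filter] at hy
      rw [mem_filter, hW, mem_filter, mem_Ioc]
      exact ⟨⟨hIoc y hy.1, hY1 y hy.1⟩, hy.2⟩
    have h2 : (S.filter (fun y => v < y ∧ y ≤ v + m)).card ≤
        (W.filter (fun y => y ∈ S)).card +
          (S.filter (fun y => v < y ∧ y ≤ v + m ∧ 1 / 6 < nd (α * y - c))).card := by
      refine (card_le_card ?_).trans (card_union_le _ _)
      intro y hy
      rw [mem_filter] at hy
      rw [mem_union, mem_filter, mem_filter, hW, mem_filter, mem_Ioc]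
      rcases le_or_gt (nd (α * y - c)) (1 / 6) with h3 | h3
      · exact Or.inl ⟨⟨hy.2, h3⟩, hy.1⟩
      · exact Or.inr ⟨hy.1, hy.2.1, hy.2.2, h3⟩
    have h1' : ((Y.filter (fun y => y ∉ S)).card : ℝ) + ((W.filter (fun y => y ∈ S)).card : ℝ) ≤
        W.card := by exact_mod_cast h1
    have h2' : ((S.filter (fun y => v < y ∧ y ≤ v + m)).card : ℝ) ≤
        ((W.filter (fun y => y ∈ S)).card : ℝ) +
          ((S.filter (fun y => v < y ∧ y ≤ v + m ∧ 1 / 6 < nd (α * y - c))).card : ℝ) := by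
      exact_mod_cast h2
    have h3 := h.win v hv
    linarith
  have hcard' : (Y.card : ℝ) ≤ (((Y.filter (fun y => y ∉ S)).card : ℝ) +
      ((Y.filter (fun y => x - y ∉ S)).card : ℝ)) +
      ((Y.filter (fun y => y ∈ S ∧ x - y ∈ S)).card : ℝ) := by
    have := hcard.trans (Nat.add_le_add_right hcard2 _)
    exact_mod_cast this
  have hfin : (2 * r - 1 / 10 ^ 4) * m ≥ (63 / 1000 - 1 / 10 ^ 4) * m := by
    have : (0 : ℝ) ≤ m := Nat.cast_nonneg m
    nlinarith
  linarith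

end SFP
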