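import Pool.Agent.SFP.C7
import Pool.Agent.SFP.C9

/-!
# Module C10: `S` is structured   (difficulty 1-2)

The frequency `α`.  First part of `Str`: `x ∈ S`, `x ≤ ζ Z ≤ m / 2 < 2 m`: `c_t1`, `1/3 - 1/100 ≥ 26/100`.
Second part: let `v : ℕ`.  If `v < m`: `c = 1/2`; `x ≤ v + ζ Z < m + m / 2 < 2 m`, `nd (α x - 1/2) = 1/2 - nd (α x) ≤ 1/2 - 1/3 + 1/100 ≤ 24/100` (`nd_sub_half`, `c_t1`).
If `m ≤ v ≤ Z`: `c` from `c_t3` for the window at `v - m` (`(v - m) + m = v ≤ Z`): `v ≤ x ≤ v + m / 2 < (v - m) + 2 m`.  If `v > Z`: no `x ∈ S` has `v ≤ x`, any `c`.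
-/

namespace SFP

open Finset

theorem c_str {S : Finset ℕ} {Z m : ℕ} {α e₀ ζ : ℝ} (h : HT S Z m α e₀) (hζ : ζ * Z ≤ m / 2) :
    Str S Z ζ := by
  have hm1 := h.m1
  have hmR : (10 : ℝ) ^ 6 ≤ m := by exact_mod_cast hm1
  refine ⟨α, ?_, ?_⟩
  · intro x hx hxz
    have h1 : (x : ℝ) < (2 * m : ℕ) := by
      push_cast
      linarith
    have h2 := c_t1 h hx (by exact_mod_cast h1)
    linarith
  · intro v
    rcases lt_or_ge v m with hv | hv
    · refine ⟨1 / 2, fun x hx _ hxz => ?_⟩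
      have hvR : (v : ℝ) < m := by exact_mod_cast hv
      have h1 : (x : ℝ) < (2 * m : ℕ) := by
        push_cast
        linarith
      have h2 := c_t1 h hx (by exact_mod_cast h1)
      rw [nd_sub_half]
      linarith
    · rcases le_or_gt v Z with hz | hz
      · obtain ⟨c, hc⟩ := c_t3 h (v := v - m) (by omega)
        refine ⟨c, fun x hx hvx hxz => ?_⟩
        have h1 : (x : ℝ) < (v + m : ℕ) := by
          push_cast
          linarith
        have h2 : x < v + m := by exact_mod_cast h1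
        have h3 := hc x hx (by omega) (by omega)
        linarith
      · refine ⟨0, fun x hx hvx _ => ?_⟩
        have h1 := (mem_Icc.1 (h.sub hx)).2
        omega

end SFP
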