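import Pool.Agent.SFP.CD
import Pool.Agent.SFP.A6a

/-!
# Module C1b: the blocks are balanced   (difficulty 2)

`j`-th block: `S ∩ [j m, (j + 1) m)`; `x ∈ blk m S j ↔ j * m + x.val ∈ S` (`mem_blk`).  For `q ∣ m`: `(j m + x.val) % q = x.val % q`.  So
`#{x ∈ blk m S j : x.val % q = c % q} = #{a ∈ S : j m ≤ a < (j + 1) m, a % q = c % q}` (bijection `x ↦ j m + x.val`, inverse `a ↦ (a : ZMod m)`, `ZMod.val_natCast`).
This set differs from the window `{a ∈ S : j m < a ≤ j m + m, a % q = c % q}` at most by the elements `j m` and `(j + 1) m`, so the two numbers differ by at most `1`.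
The window has between `(1/3 - ε) m / q` and `(1/3 + ε) m / q` elements (`h` for `v = j m`, `w = m`, `v + w = (j + 1) m ≤ Z`, `τ Z ≤ m`), and `1 ≤ ε m / q` as `q ≤ K ≤ ε m`.
-/

namespace SFP

open Finset

theorem bal_blk {S : Finset ℕ} {Z K m : ℕ} [NeZero m] {ε τ : ℝ} (h : WB S Z K ε τ)
    (hτ : τ * Z ≤ m) (hKm : (K : ℝ) ≤ ε * m) {j : ℕ} (hj : (j + 1) * m ≤ Z) :
    BAL K (2 * ε) (blk m S j) := by
  classical
  intro q c hq hqK hqm
  have hm0 : 0 < m := Nat.pos_of_ne_zero (NeZero.ne m)
  set T := (blk m S j).filter (fun x => x.val % q = c % q) with hT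
  set W := S.filter (fun x => j * m < x ∧ x ≤ j * m + m ∧ x % q = c % q) with hW
  have hjm : j * m + m = (j + 1) * m := by ring
  obtain ⟨h1, h2⟩ := h q hq hqK c (j * m) m hτ (by rw [hjm]; exact hj)
  rw [← hW] at h1 h2
  have hmod : ∀ a : ℕ, (j * m + a) % q = a % q := by
    intro a
    obtain ⟨k, hk⟩ := hqm
    have e : j * m + a = a + q * (j * k) := by rw [hk]; ring
    rw [e, Nat.add_mul_mod_self_left]
  have hinj : Function.Injective (fun x : ZMod m => j * m + x.val) := by
    intro x y hxy
    have : x.val = y.val := by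
      simp only at hxy
      omega
    exact ZMod.val_injective m this
  have s1 : T.image (fun x : ZMod m => j * m + x.val) ⊆ insert (j * m) W := by
    intro a ha
    obtain ⟨x, hx, rfl⟩ := mem_image.1 ha
    rw [hT, mem_filter] at hx
    obtain ⟨hx1, hx2⟩ := hx
    have hx3 := mem_blk.1 hx1
    have hlt := ZMod.val_lt x
    rcases Nat.eq_zero_or_pos x.val with h0 | h0
    · rw [h0, add_zero]
      exact mem_insert_self _ _
    · apply mem_insert_of_mem
      rw [hW, mem_filter]
      refine ⟨hx3, by omega, by omega, ?_⟩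
      rw [hmod]
      exact hx2
  have s2 : W ⊆ insert (j * m + m) (T.image (fun x : ZMod m => j * m + x.val)) := by
    intro a ha
    rw [hW, mem_filter] at ha
    obtain ⟨ha1, ha2, ha3, ha4⟩ := ha
    rcases Nat.eq_or_lt_of_le ha3 with h0 | h0
    · rw [h0]
      exact mem_insert_self _ _
    · apply mem_insert_of_mem
      rw [mem_image]
      have hv : ((a - j * m : ℕ) : ZMod m).val = a - j * m := by
        rw [ZMod.val_natCast, Nat.mod_eq_of_lt (by omega)]
      have hae : j * m + (a - j * m) = a := by omega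
      refine ⟨((a - j * m : ℕ) : ZMod m), ?_, ?_⟩
      · rw [hT, mem_filter, mem_blk, hv, hae]
        refine ⟨ha1, ?_⟩
        rw [← ha4]
        have := hmod (a - j * m)
        rw [hae] at this
        exact this.symm
      · rw [hv, hae]
  have c1 : T.card ≤ W.card + 1 := by
    have := card_le_card s1
    rw [card_image_of_injective _ hinj] at this
    exact this.trans (card_insert_le _ _)
  have c2 : W.card ≤ T.card + 1 := by
    refine (card_le_card s2).trans ((card_insert_le _ _).trans ?_)
    rw [card_image_of_injective _ hinj]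
  have c1R : (T.card : ℝ) ≤ W.card + 1 := by exact_mod_cast c1
  have c2R : (W.card : ℝ) ≤ T.card + 1 := by exact_mod_cast c2
  have hq0 : (0 : ℝ) < q := by exact_mod_cast hq
  have hqK' : (q : ℝ) ≤ K := by exact_mod_cast hqK
  have hone : 1 ≤ ε * m / q := by
    rw [le_div_iff₀ hq0]
    linarith
  rw [mul_div_assoc] at h1 h2 hone ⊢
  rw [mul_div_assoc]
  set X : ℝ := (m : ℝ) / q
  constructor <;> nlinarith

end SFP
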