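import Pool.Agent.SFP.A3
import Pool.Agent.SFP.A6a

/-!
# Module C2a: Schur triples modulo `m` with a negative shift   (difficulty 2)

The analogues of `A3_few` (module A3) and `sum_blk_N` (module A6a) for `x + y - m ∈ B`: copy the proofs from the store (`sfp_A3.lean`, `sfp_A6a.lean`) and modify them.
* `A3_few'`: the number of pairs is `∑_{z ∈ B} conv A B (z + m) ≤ ∑_{z ∈ B} conv A B z + ∑_{z < L'} |conv A B (z + m) - conv A B z|`, and
  `∑_{z ∈ B} conv A B z = #{(a, y) ∈ A × B : a + y ∈ B} ≤ |A| e` (`sum_conv`, `A3_few0`); `B ⊆ range L ⊆ range L'`.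
* `sum_blk_N'`: the pairs `(x̄, ȳ) ∈ blk A s × blk B j` with `x̄ + ȳ ∈ blk B (j + s)`: `x = s m + x'`, `y = j m + y'` with `x' = x̄.val < m`, `y' = ȳ.val < m`, `x ∈ A`, `y ∈ B`,
  `z = (j + s) m + z' ∈ B` with `z' = (x̄ + ȳ).val = (x' + y') % m` (`ZMod.val_add`).  If `x' + y' < m`: `z = x + y`.  Otherwise `z' = x' + y' - m`, `z = x + y - m`, `m ≤ x + y`.  So
  `(s, j, x̄, ȳ) ↦ (x, y)` is an injection of the disjoint union of these sets into the union of the two sets on the right (`s = x / m`, `j = y / m`).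
-/

namespace SFP

open Finset

theorem A3_few' {A B : Finset ℕ} {L L' m : ℕ} {e δ : ℝ} (hB : ∀ b ∈ B, b < L) (hL : L ≤ L')
    (hr : ∀ a ∈ A, (rp B a : ℝ) ≤ e)
    (hm : ∑ x ∈ range L', |(conv A B (x + m) : ℝ) - conv A B x| ≤ δ) :
    (((A ×ˢ B).filter (fun p => m ≤ p.1 + p.2 ∧ p.1 + p.2 - m ∈ B)).card : ℝ) ≤ A.card * e + δ := by
  have h1 : ((A ×ˢ B).filter (fun p => m ≤ p.1 + p.2 ∧ p.1 + p.2 - m ∈ B)).card =
      ∑ z ∈ B, conv A B (z + m) := by
    rw [card_eq_sum_card_fiberwise (f := fun p : ℕ × ℕ => p.1 + p.2 - m) (t := B)]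
    · refine sum_congr rfl fun z hz => ?_
      unfold conv
      congr 1
      rw [filter_filter]
      refine filter_congr fun p _ => ?_
      constructor
      · rintro ⟨⟨h1, h2⟩, h3⟩
        omega
      · intro h
        have h3 : p.1 + p.2 - m = z := by omega
        exact ⟨⟨by omega, by rw [h3]; exact hz⟩, h3⟩
    · intro p hp
      rw [mem_coe, mem_filter] at hp
      exact hp.2.2
  have h2 : ∑ z ∈ B, (conv A B (z + m) : ℝ) ≤
      ∑ z ∈ B, (conv A B z : ℝ) + ∑ z ∈ B, |(conv A B (z + m) : ℝ) - conv A B z| := by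
    rw [← sum_add_distrib]
    refine sum_le_sum fun x _ => ?_
    have := le_abs_self ((conv A B (x + m) : ℝ) - conv A B x)
    linarith
  have h3 : ∑ z ∈ B, |(conv A B (z + m) : ℝ) - conv A B z| ≤ δ := by
    refine le_trans (sum_le_sum_of_subset_of_nonneg (t := range L') ?_ fun x _ _ => abs_nonneg _) hm
    intro z hz
    have := hB z hz
    rw [mem_range]
    omega
  have h6 : ∑ z ∈ B, (conv A B z : ℝ) ≤ A.card * e := by
    have h7 := sum_conv A B
    have h8 : ∑ z ∈ B, (conv A B z : ℝ) = (((A ×ˢ B).filter (fun p => p.1 + p.2 ∈ B)).card : ℝ) := by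
      rw [← h7, Nat.cast_sum]
    rw [h8]
    exact A3_few0 hr
  rw [h1, Nat.cast_sum]
  linarith

theorem sum_blk_N' {m : ℕ} [NeZero m] (A B : Finset ℕ) (n k : ℕ) :
    ∑ s ∈ range n, ∑ j ∈ range k,
      ((blk m A s ×ˢ blk m B j).filter (fun p => p.1 + p.2 ∈ blk m B (j + s))).card ≤
    ((A ×ˢ B).filter (fun p => p.1 + p.2 ∈ B)).card +
      ((A ×ˢ B).filter (fun p => m ≤ p.1 + p.2 ∧ p.1 + p.2 - m ∈ B)).card := by
  obtain ⟨U, hU⟩ : ∃ U, U = (A ×ˢ B).filter (fun p => p.1 + p.2 ∈ B) ∪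
      (A ×ˢ B).filter (fun p => m ≤ p.1 + p.2 ∧ p.1 + p.2 - m ∈ B) := ⟨_, rfl⟩
  have hUc : U.card ≤ ((A ×ˢ B).filter (fun p => p.1 + p.2 ∈ B)).card +
      ((A ×ˢ B).filter (fun p => m ≤ p.1 + p.2 ∧ p.1 + p.2 - m ∈ B)).card := by
    rw [hU]; exact card_union_le _ _
  refine le_trans ?_ hUc
  have hm : 0 < m := NeZero.pos m
  have h1 : ∀ s j : ℕ, ((blk m A s ×ˢ blk m B j).filter
      (fun p => p.1 + p.2 ∈ blk m B (j + s))).card ≤
      (U.filter (fun p => (p.1 / m, p.2 / m) = (s, j))).card := by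
    intro s j
    apply card_le_card_of_injOn (fun p : ZMod m × ZMod m => (s * m + p.1.val, j * m + p.2.val))
    · intro p hp
      simp only [coe_filter, Set.mem_setOf_eq, mem_product, mem_blk] at hp
      obtain ⟨⟨hA, hB⟩, hC⟩ := hp
      have e1 : (s * m + p.1.val) / m = s := by
        rw [Nat.mul_comm, Nat.mul_add_div hm, Nat.div_eq_of_lt (ZMod.val_lt p.1), add_zero]
      have e2 : (j * m + p.2.val) / m = j := by
        rw [Nat.mul_comm, Nat.mul_add_div hm, Nat.div_eq_of_lt (ZMod.val_lt p.2), add_zero]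
      simp only [coe_filter, Set.mem_setOf_eq]
      refine ⟨?_, by rw [e1, e2]⟩
      rw [hU, mem_union, mem_filter, mem_filter]
      rw [ZMod.val_add] at hC
      have l1 := ZMod.val_lt p.1
      have l2 := ZMod.val_lt p.2
      rcases lt_or_ge (p.1.val + p.2.val) m with hlt | hge
      · left
        refine ⟨mem_product.2 ⟨hA, hB⟩, ?_⟩
        rw [Nat.mod_eq_of_lt hlt] at hC
        have e3 : (j + s) * m + (p.1.val + p.2.val) =
            s * m + p.1.val + (j * m + p.2.val) := by ring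
        rwa [e3] at hC
      · right
        have e4 : (p.1.val + p.2.val) % m = p.1.val + p.2.val - m := by
          rw [Nat.mod_eq_sub_mod hge, Nat.mod_eq_of_lt (by omega)]
        rw [e4] at hC
        have e5 : (j + s) * m = s * m + j * m := by ring
        have e3 : (j + s) * m + (p.1.val + p.2.val - m) =
            s * m + p.1.val + (j * m + p.2.val) - m := by
          omega
        rw [e3] at hC
        refine ⟨mem_product.2 ⟨hA, hB⟩, ?_, hC⟩
        show m ≤ s * m + p.1.val + (j * m + p.2.val)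
        omega
    · intro p _ q _ hpq
      simp only [Prod.mk.injEq] at hpq
      have e1 : p.1.val = q.1.val := by omega
      have e2 : p.2.val = q.2.val := by omega
      exact Prod.ext (ZMod.val_injective m e1) (ZMod.val_injective m e2)
  calc ∑ s ∈ range n, ∑ j ∈ range k,
      ((blk m A s ×ˢ blk m B j).filter (fun p => p.1 + p.2 ∈ blk m B (j + s))).card
      ≤ ∑ s ∈ range n, ∑ j ∈ range k,
        (U.filter (fun p => (p.1 / m, p.2 / m) = (s, j))).card :=
        sum_le_sum (fun s _ => sum_le_sum (fun j _ => h1 s j))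
    _ = ∑ x ∈ range n ×ˢ range k, (U.filter (fun p => (p.1 / m, p.2 / m) = x)).card := by
        rw [sum_product]
    _ = ∑ x ∈ range n ×ˢ range k, ((U.filter (fun p => (p.1 / m, p.2 / m) ∈ range n ×ˢ range k)).filter
          (fun p => (p.1 / m, p.2 / m) = x)).card := by
        apply sum_congr rfl
        intro x hx
        congr 1
        ext p
        simp only [mem_filter]
        constructor
        · rintro ⟨a1, a2⟩
          exact ⟨⟨a1, by rw [a2]; exact hx⟩, a2⟩
        · rintro ⟨⟨a1, _⟩, a2⟩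
          exact ⟨a1, a2⟩
    _ = (U.filter (fun p => (p.1 / m, p.2 / m) ∈ range n ×ˢ range k)).card := by
        rw [← card_eq_sum_card_fiberwise (f := fun p : ℕ × ℕ => (p.1 / m, p.2 / m))]
        intro p hp
        simp only [coe_filter, Set.mem_setOf_eq] at hp
        exact hp.2
    _ ≤ U.card := card_filter_le _ _

end SFP
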