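import Pool.Agent.SFP.CD
import Pool.Agent.SFP.A2
import Pool.Agent.SFP.C2a

/-!
# Module C2: the near period `m` of `S`   (difficulty 2-3)

`ε₁ = g / 32`, `N` from `near_period` for `ε₁`, `τ = 1 / (8000 N)`, `Z₀ = 8000 N`.  Let `X = Z / 4`, `L = Z + 1`, `T = Z / (4000 N)` (natural division), `A = S ∩ [1, X]` (`= S.filter (· ≤ X)`), `B = S`.
`1 ≤ T`, `N T ≤ Z / 4000 ≤ X ≤ L`, `X ≤ 16 |A|`: `near_period` gives `m` with `T ≤ m ≤ N T` and `∑_{x < L + 2 X} |conv A B (x + m) - conv A B x| ≤ ε₁ |A| L`.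
`4000 m ≤ 4000 N T ≤ Z`; `m ≥ T ≥ Z / (4000 N) - 1 ≥ Z / (8000 N)` (as `Z ≥ 8000 N`).
For `s < X / m` the elements `a ∈ S` with `a / m = s` are `< (X / m) m ≤ X`, so `blk m S s = blk m A s`.
`NN m S s j ≤ #{(x, y) ∈ blk A s × blk B j : x + y ∈ blk B (j + s)} + #{.. : x + y ∈ blk B (j + s + 1)}` (union bound).  Sum (`sum_blk_N'`, `sum_blk_N`, then `A3_few0`, `A3_few`, `A3_few'` with
`L' = L + 2 X`, `e = e₀`, `δ = ε₁ |A| L`; `rp S a ≤ e₀` for `a ∈ S` by `RSF`):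
`∑∑ NN ≤ 2 |A| e₀ + 2 (|A| e₀ + ε₁ |A| L) ≤ |A| (4 e₀ + 2 ε₁ (Z + 1)) ≤ X (4 e₀ + 4 ε₁ Z) ≤ X (g Z / 8 + g Z / 8) = g X Z / 4`.
`(X / m) m ≥ X - m ≥ X / 2` and `(Z / m) m ≥ Z - m ≥ Z / 2` (reals), so `g (X/m) (Z/m) m² ≥ g X Z / 4`.
(`X / m` is `Z / 4 / m` in the statement.)
-/

namespace SFP

open Finset

theorem C2_blk {m X : ℕ} (S : Finset ℕ) {s : ℕ} (hs : s < X / m) :
    blk m S s = blk m (S.filter (fun x => x ≤ X)) s := by
  unfold blk
  congr 1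
  ext a
  rw [mem_filter, mem_filter, mem_filter]
  constructor
  · rintro ⟨h1, h2⟩
    refine ⟨⟨h1, ?_⟩, h2⟩
    by_contra hlt
    push Not at hlt
    have h3 : X / m ≤ a / m := Nat.div_le_div_right hlt.le
    omega
  · rintro ⟨⟨h1, _⟩, h2⟩
    exact ⟨h1, h2⟩

theorem C2_NN (m : ℕ) (S : Finset ℕ) (s j : ℕ) : NN m S s j ≤
    ((blk m S s ×ˢ blk m S j).filter (fun p => p.1 + p.2 ∈ blk m S (j + s))).card +
    ((blk m S s ×ˢ blk m S j).filter (fun p => p.1 + p.2 ∈ blk m S (j + s + 1))).card := by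
  unfold NN
  refine le_trans (card_le_card ?_) (card_union_le _ _)
  intro p hp
  rw [mem_filter, mem_union] at hp
  rw [mem_union, mem_filter, mem_filter]
  rcases hp.2 with h | h
  · exact Or.inl ⟨hp.1, h⟩
  · exact Or.inr ⟨hp.1, h⟩

theorem c_period {g : ℝ} (hg : 0 < g) : ∃ (τ : ℝ) (Z₀ : ℕ), 0 < τ ∧ τ ≤ 1 / 8 ∧
    ∀ (Z : ℕ) (S : Finset ℕ) (e₀ : ℝ), Z₀ ≤ Z → S ⊆ Icc 1 Z → RSF S e₀ → 0 ≤ e₀ → 32 * e₀ ≤ g * Z →
      Z / 4 ≤ 16 * (S.filter (fun x => x ≤ Z / 4)).card →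
      ∃ m : ℕ, 0 < m ∧ τ * Z ≤ m ∧ 4000 * m ≤ Z ∧
        ∑ s ∈ range (Z / 4 / m), ∑ j ∈ range (Z / m), (NN m S s j : ℝ) ≤
          g * (((Z / 4 / m : ℕ) : ℝ) * ((Z / m : ℕ) : ℝ)) * (m : ℝ) ^ 2 := by
  obtain ⟨N, hN, hnp⟩ := near_period (ε := g / 32) (by positivity)
  have hNr : (1 : ℝ) ≤ N := by exact_mod_cast hN
  refine ⟨1 / (8000 * N), 8000 * N, by positivity, ?_, ?_⟩
  · rw [div_le_div_iff₀ (by positivity) (by norm_num)]
    linarith
  intro Z S e₀ hZ hS hR he0 he hA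
  obtain ⟨X, hX⟩ : ∃ X, X = Z / 4 := ⟨_, rfl⟩
  obtain ⟨T, hT⟩ : ∃ T, T = Z / (4000 * N) := ⟨_, rfl⟩
  obtain ⟨A, hAd⟩ : ∃ A, A = S.filter (fun x => x ≤ X) := ⟨_, rfl⟩
  rw [← hX] at hA ⊢
  rw [← hAd] at hA
  have hT1 : 1 ≤ T := by
    rw [hT]
    exact (Nat.one_le_div_iff (by positivity)).2 (by omega)
  have hNT : 4000 * (N * T) ≤ Z := by
    rw [hT, ← mul_assoc]
    exact Nat.mul_div_le Z (4000 * N)
  have hTge : Z < (T + 1) * (4000 * N) := by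
    rw [hT]
    have h1 := Nat.lt_div_mul_add (a := Z) (b := 4000 * N) (by positivity)
    nlinarith
  have hXZ : 4 * X ≤ Z := by omega
  have hXZ' : Z < 4 * X + 4 := by omega
  obtain ⟨m, hTm, hmN, hsum⟩ := hnp X (Z + 1) T A S hT1 (by omega) (by omega) hA
    (by
      intro a ha
      rw [hAd, mem_filter] at ha
      exact ⟨(mem_Icc.1 (hS ha.1)).1, ha.2⟩)
    (by
      intro b hb
      have := (mem_Icc.1 (hS hb)).2
      omega)
  have hm0 : 0 < m := by omega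
  have hm4 : 4000 * m ≤ Z := by omega
  have : NeZero m := ⟨hm0.ne'⟩
  refine ⟨m, hm0, ?_, hm4, ?_⟩
  · have h1 : (Z : ℝ) < ((T : ℝ) + 1) * (4000 * N) := by exact_mod_cast hTge
    have h2 : (T : ℝ) ≤ m := by exact_mod_cast hTm
    have h3 : (8000 : ℝ) * N ≤ Z := by exact_mod_cast hZ
    rw [div_mul_eq_mul_div, one_mul, div_le_iff₀ (by positivity)]
    have hT1r : (1 : ℝ) ≤ T := by exact_mod_cast hT1
    nlinarith
  · have hrA : ∀ a ∈ A, (rp S a : ℝ) ≤ e₀ := by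
      intro a ha
      rw [hAd, mem_filter] at ha
      exact (hR a ha.1).1
    have hbS : ∀ b ∈ S, b < Z + 1 := by
      intro b hb
      have := (mem_Icc.1 (hS hb)).2
      omega
    have f0 := A3_few0 hrA
    have f1 := A3_few (L' := Z + 1 + 2 * X) hbS (by omega) hrA hsum
    have f2 := A3_few' (L' := Z + 1 + 2 * X) hbS (by omega) hrA hsum
    have g1 := sum_blk_N (m := m) A S (X / m) (Z / m)
    have g2 := sum_blk_N' (m := m) A S (X / m) (Z / m)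
    have key : ∑ s ∈ range (X / m), ∑ j ∈ range (Z / m), NN m S s j ≤
        ((((A ×ˢ S).filter (fun p => p.1 + p.2 ∈ S)).card +
          ((A ×ˢ S).filter (fun p => m ≤ p.1 + p.2 ∧ p.1 + p.2 - m ∈ S)).card) +
        (((A ×ˢ S).filter (fun p => p.1 + p.2 ∈ S)).card +
          ((A ×ˢ S).filter (fun p => p.1 + p.2 + m ∈ S)).card)) := by
      refine le_trans ?_ (add_le_add g2 g1)
      rw [← sum_add_distrib]
      refine sum_le_sum fun s hs => ?_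
      rw [← sum_add_distrib]
      refine sum_le_sum fun j _ => ?_
      have h1 := C2_NN m S s j
      rw [C2_blk S (mem_range.1 hs), ← hAd] at h1
      exact h1
    have keyr : ∑ s ∈ range (X / m), ∑ j ∈ range (Z / m), (NN m S s j : ℝ) ≤
        4 * (A.card * e₀) + 2 * (g / 32 * A.card * ((Z + 1 : ℕ) : ℝ)) := by
      have h1 : ∑ s ∈ range (X / m), ∑ j ∈ range (Z / m), (NN m S s j : ℝ) =
          ((∑ s ∈ range (X / m), ∑ j ∈ range (Z / m), NN m S s j : ℕ) : ℝ) := by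
        push_cast
        rfl
      rw [h1]
      have h2 : ((∑ s ∈ range (X / m), ∑ j ∈ range (Z / m), NN m S s j : ℕ) : ℝ) ≤
        ((((A ×ˢ S).filter (fun p => p.1 + p.2 ∈ S)).card : ℝ) +
          (((A ×ˢ S).filter (fun p => m ≤ p.1 + p.2 ∧ p.1 + p.2 - m ∈ S)).card : ℝ)) +
        ((((A ×ˢ S).filter (fun p => p.1 + p.2 ∈ S)).card : ℝ) +
          (((A ×ˢ S).filter (fun p => p.1 + p.2 + m ∈ S)).card : ℝ)) := by exact_mod_cast key
      linarith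
    refine keyr.trans ?_
    have hAX : (A.card : ℝ) ≤ X := by
      have h1 : A ⊆ Icc 1 X := by
        intro a ha
        rw [hAd, mem_filter] at ha
        exact mem_Icc.2 ⟨(mem_Icc.1 (hS ha.1)).1, ha.2⟩
      have h2 := card_le_card h1
      rw [Nat.card_Icc] at h2
      exact_mod_cast (by omega : A.card ≤ X)
    have hmr : (1 : ℝ) ≤ m := by exact_mod_cast hm0
    have hm4r : (4000 : ℝ) * m ≤ Z := by exact_mod_cast hm4
    have hXZr : (Z : ℝ) < 4 * X + 4 := by exact_mod_cast hXZ'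
    have hXr : (0 : ℝ) ≤ X := Nat.cast_nonneg X
    have d1 : (X : ℝ) / 2 ≤ ((X / m : ℕ) : ℝ) * m := by
      have h1 : X < (X / m + 1) * m := by
        have := Nat.lt_div_mul_add (a := X) hm0
        nlinarith
      have h2 : (X : ℝ) < (((X / m : ℕ) : ℝ) + 1) * m := by exact_mod_cast h1
      linarith
    have d2 : (Z : ℝ) / 2 ≤ ((Z / m : ℕ) : ℝ) * m := by
      have h1 : Z < (Z / m + 1) * m := by
        have := Nat.lt_div_mul_add (a := Z) hm0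
        nlinarith
      have h2 : (Z : ℝ) < (((Z / m : ℕ) : ℝ) + 1) * m := by exact_mod_cast h1
      linarith
    have hAn : (0 : ℝ) ≤ A.card := Nat.cast_nonneg _
    have hZr : (1 : ℝ) ≤ Z := by linarith
    calc 4 * (A.card * e₀) + 2 * (g / 32 * A.card * ((Z + 1 : ℕ) : ℝ))
        = A.card * (4 * e₀ + g / 16 * (Z + 1)) := by push_cast; ring
      _ ≤ X * (4 * e₀ + g / 16 * (Z + 1)) := by gcongr
      _ ≤ X * (g * Z / 4) := by
          gcongr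
          nlinarith
      _ = g * ((X / 2) * (Z / 2)) := by ring
      _ ≤ g * ((((X / m : ℕ) : ℝ) * m) * (((Z / m : ℕ) : ℝ) * m)) := by gcongr
      _ = g * (((X / m : ℕ) : ℝ) * ((Z / m : ℕ) : ℝ)) * (m : ℝ) ^ 2 := by ring

end SFP
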