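import Pool.Agent.SFP.CD
import Pool.Agent.SFP.A4
import Pool.Agent.SFP.A5

/-!
# Module C3: three large sets   (difficulty 2)

`γ = min γ₀ 1`, `γ₀` from `removal (k / 10)`.  Suppose `|U| + |V| + |W| > (1 + 2 k) m`.  Removal: `U' ⊆ U`, `V' ⊆ V`, `W' ⊆ W` without `x + y ∈ W'`, each of them loses at most `k m / 10` elements, so
`|U'| + |V'| + |W'| > (1 + 2 k - 3 k / 10) m ≥ (1 + k) m`.
Let `1 ≤ q`, `q ∣ m`, `q k < 1` (then `q ≤ K`, as `1 ≤ K k`).  Each class of `U` modulo `q` has at least `m / (4 q) > k m / 4 > k m / 10` elements (`LO`, `m > 0`), so `U'` meets each class; the same for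
`V'`, `W'`: `cls q U' = cls q V' = cls q W' = q` (the image of `x ↦ x.val % q` is `range q`).  In particular (`q = 1`; `k < 1`? if `k = 1` use `1 ≤ q`, `q * (k / 2) < 1`: simply show that
`U', V', W'` are nonempty from `|U| ≥ m / 4` (`LO` for `q = 1 ≤ K`) and `k m / 10 < m / 4`).  `kneser` with `ε = k`: such a `q` with `3 q ≤ q + 1`, contradiction.
(`1 ≤ K`, as `1 ≤ K k`.)
-/

namespace SFP

open Finset

theorem C3_card {m : ℕ} {A A' : Finset (ZMod m)} (h : A' ⊆ A) :
    (A.card : ℝ) = A'.card + (A \ A').card := by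
  have := card_sdiff_add_card_eq_card h
  have h2 : (((A \ A').card + A'.card : ℕ) : ℝ) = A.card := by rw [this]
  push_cast at h2
  linarith

/-- after the removal all classes are still met -/
theorem C3_meet {m K q c : ℕ} {A A' : Finset (ZMod m)} {k : ℝ} (hA : LO K A)
    (hc : ((A \ A').card : ℝ) ≤ k / 10 * m) (hq : 1 ≤ q) (hqK : q ≤ K) (hqm : q ∣ m)
    (hk : 4 * ((q : ℝ) * k) < 10) (hm : (0 : ℝ) < m) : ∃ x ∈ A', x.val % q = c % q := by
  by_contra hcon
  push Not at hcon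
  have h1 := hA q c hq hqK hqm
  have h2 : A.filter (fun x => x.val % q = c % q) ⊆ A \ A' := by
    intro x hx
    obtain ⟨hxA, hxc⟩ := mem_filter.1 hx
    exact mem_sdiff.2 ⟨hxA, fun h => hcon x h hxc⟩
  have h3 : ((A.filter (fun x => x.val % q = c % q)).card : ℝ) ≤ (A \ A').card := by
    exact_mod_cast card_le_card h2
  have hq0 : (0 : ℝ) < q := by exact_mod_cast hq
  have h4 : (m : ℝ) / (4 * q) ≤ k / 10 * m := h1.trans (h3.trans hc)
  rw [div_le_iff₀ (by positivity)] at h4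
  nlinarith

theorem big_three {k : ℝ} (hk : 0 < k) (hk1 : k ≤ 1) : ∃ γ : ℝ, 0 < γ ∧ γ ≤ 1 ∧
    ∀ (m K : ℕ) [NeZero m] (U V W : Finset (ZMod m)), 1 ≤ K * k → LO K U → LO K V → LO K W →
      (((U ×ˢ V).filter (fun p => p.1 + p.2 ∈ W)).card : ℝ) ≤ γ * (m : ℝ) ^ 2 →
      (U.card : ℝ) + V.card + W.card ≤ (1 + 2 * k) * m := by
  obtain ⟨γ₀, hγ₀, hrem⟩ := removal (ε := k / 10) (by positivity)
  refine ⟨min γ₀ 1, lt_min hγ₀ one_pos, min_le_right _ _, ?_⟩
  intro m K _ U V W hK hU hV hW hcard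
  by_contra hcon
  rw [not_le] at hcon
  have hm0 : 0 < m := Nat.pos_of_ne_zero (NeZero.ne m)
  have hmR : (0 : ℝ) < m := by exact_mod_cast hm0
  have hK1 : 1 ≤ K := by
    by_contra h0
    have : K = 0 := by omega
    rw [this] at hK
    norm_num at hK
  obtain ⟨U', V', W', hUU, hVV, hWW, hcU, hcV, hcW, hfree⟩ := hrem m U V W
    (hcard.trans (mul_le_mul_of_nonneg_right (min_le_left _ _) (by positivity)))
  have hne : ∀ {A A' : Finset (ZMod m)}, LO K A → A' ⊆ A → ((A \ A').card : ℝ) ≤ k / 10 * m → A'.Nonempty := by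
    intro A A' hA _ hc
    obtain ⟨x, hx, -⟩ := C3_meet (q := 1) (c := 0) hA hc le_rfl hK1 (one_dvd m) (by push_cast; linarith) hmR
    exact ⟨x, hx⟩
  have hc2 : (1 + k) * m < (U'.card : ℝ) + V'.card + W'.card := by
    have e1 := C3_card hUU
    have e2 := C3_card hVV
    have e3 := C3_card hWW
    nlinarith
  obtain ⟨q, hq1, hqm, hqk, hcls⟩ := kneser hk (hne hU hUU hcU) (hne hV hVV hcV) (hne hW hWW hcW) hfree hc2
  have hqK : q ≤ K := by
    have h1 : (q : ℝ) * k < K * k := lt_of_lt_of_le hqk hK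
    have h2 : (q : ℝ) < K := lt_of_mul_lt_mul_right h1 hk.le
    exact_mod_cast h2.le
  have hq0 : (0 : ℝ) < q := by exact_mod_cast hq1
  have hall : ∀ {A A' : Finset (ZMod m)}, LO K A → ((A \ A').card : ℝ) ≤ k / 10 * m → q ≤ cls q A' := by
    intro A A' hA hc
    have : range q ⊆ A'.image (fun x => x.val % q) := by
      intro c hcq
      rw [mem_range] at hcq
      obtain ⟨x, hx, hxc⟩ := C3_meet (q := q) (c := c) hA hc hq1 hqK hqm (by nlinarith) hmR
      exact mem_image.2 ⟨x, hx, by rw [hxc, Nat.mod_eq_of_lt hcq]⟩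
    have h1 := card_le_card this
    rw [card_range] at h1
    exact h1
  have a1 := hall hU hcU
  have a2 := hall hV hcV
  have a3 := hall hW hcW
  omega

end SFP
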