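import Pool.Agent.SFP.C3

/-!
# Module C3b: a good pair of blocks gives two almost equal consecutive blocks   (difficulty 1)

`γ` from `big_three k`; `U = blk m S s`, `V = blk m S j`, `W = blk m S (j + s) ∪ blk m S (j + s + 1)`: `LO K` by `BAL.lo`, `LO.mono`.  `BAL.card` (`1 ≤ K` as `1 ≤ K k`, `k ≤ 1`): `|U|, |V| ≥ (1/3 - ε) m`, so
`|W| ≤ (1 + 2 k) m - 2 (1/3 - ε) m = (1/3 + 2 k + 2 ε) m` and `|S_{j+s} \ S_{j+s+1}| = |W| - |S_{j+s+1}| ≤ (2 k + 3 ε) m` (`card_union_eq..`, `card_sdiff`).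
-/

namespace SFP

open Finset

theorem c_step {k : ℝ} (hk : 0 < k) (hk1 : k ≤ 1) : ∃ γ : ℝ, 0 < γ ∧ γ ≤ 1 ∧
    ∀ (m K : ℕ) [NeZero m] (S : Finset ℕ) (s j : ℕ) (ε : ℝ), 1 ≤ K * k → ε ≤ 1 / 12 →
      BAL K ε (blk m S s) → BAL K ε (blk m S j) → BAL K ε (blk m S (j + s)) →
      BAL K ε (blk m S (j + s + 1)) → (NN m S s j : ℝ) ≤ γ * (m : ℝ) ^ 2 →
      ((blk m S (j + s) \ blk m S (j + s + 1)).card : ℝ) ≤ (2 * k + 3 * ε) * m := by
  obtain ⟨γ, hγ, hγ1, h⟩ := big_three hk hk1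
  refine ⟨γ, hγ, hγ1, ?_⟩
  intro m K _ S s j ε hK hε b1 b2 b3 b4 hNN
  have hK1 : 1 ≤ K := by
    rcases Nat.eq_zero_or_pos K with h0 | h0
    · rw [h0] at hK
      norm_num at hK
    · exact h0
  have h1 := h m K (blk m S s) (blk m S j) (blk m S (j + s) ∪ blk m S (j + s + 1)) hK (b1.lo hε)
    (b2.lo hε) ((b3.lo hε).mono subset_union_left) hNN
  have c1 := (b1.card hK1).1
  have c2 := (b2.card hK1).1
  have c4 := (b4.card hK1).1
  have h2 : ((blk m S (j + s) \ blk m S (j + s + 1)).card : ℝ) + (blk m S (j + s + 1)).card =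
      (blk m S (j + s) ∪ blk m S (j + s + 1)).card := by
    exact_mod_cast card_sdiff_add_card (blk m S (j + s)) (blk m S (j + s + 1))
  nlinarith

end SFP
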