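import Pool.Agent.SFP.CD

/-!
# Module C4: a run of three good indices   (difficulty 2)

Suppose not.  `T = R / 20` (natural division; `T ≥ R / 40` in `ℝ` and `T ≥ 1`, as `R ≥ 1000`).  For `t < T` let `k = n + 3 t`: `n ≤ k` and `k + 5 ≤ n + 3 T + 5 ≤ R / 4 + 3 R / 20 + 5 ≤ R`.  So there is `i < 3` such that
`κ t = k + i ∈ [n + 3 t, n + 3 t + 3)` is bad: `g < f s j` for all `s < n`, `j < R` with `s + j = κ t`; for each `s < n` this is the case for `j = κ t - s` (`< R`, `s < n ≤ κ t`).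
The map `(t, s) ↦ (s, κ t - s)` is injective (`κ` is strictly increasing), so
`∑_{s < n} ∑_{j < R} f s j ≥ ∑_{t < T} ∑_{s < n} f s (κ t - s) > T n g ≥ (R / 40) n g`: contradiction.
(`sum_comm`, `sum_le_sum_of_subset_of_nonneg`, `sum_image`; or for each `s` separately: `∑_{j < R} f s j ≥ ∑_{t < T} f s (κ t - s) > T g`.)
-/

namespace SFP

open Finset

theorem c_run {n R : ℕ} {g : ℝ} (hg : 0 < g) (hn : 1 ≤ n) (hR : 1000 ≤ R) (hnR : 4 * n ≤ R)
    (f : ℕ → ℕ → ℝ) (hf : ∀ s j, 0 ≤ f s j)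
    (hs : ∑ s ∈ range n, ∑ j ∈ range R, f s j ≤ g / 40 * (n * R)) :
    ∃ k, n ≤ k ∧ k + 5 ≤ R ∧ ∀ i < 3, ∃ s j, s < n ∧ j < R ∧ s + j = k + i ∧ f s j ≤ g := by
  by_contra hcon
  push Not at hcon
  choose! i hi hb using hcon
  let T : ℕ := R / 20
  have hT1 : 20 * T ≤ R := Nat.mul_div_le R 20
  have hT2 : R < 20 * (T + 1) := by
    have := Nat.lt_mul_div_succ R (show 0 < 20 by norm_num)
    exact this
  let κ : ℕ → ℕ := fun t => n + 3 * t + i (n + 3 * t)
  have hk5 : ∀ t < T, n + 3 * t + 5 ≤ R := by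
    intro t ht
    omega
  have hi3 : ∀ t < T, i (n + 3 * t) < 3 := fun t ht => hi _ (by omega) (hk5 t ht)
  have hκ : ∀ t < T, ∀ s < n, g < f s (κ t - s) := by
    intro t ht s hs
    have h3 := hi3 t ht
    have h5 := hk5 t ht
    apply hb (n + 3 * t) (by omega) h5 s (κ t - s) hs
    · show n + 3 * t + i (n + 3 * t) - s < R
      omega
    · show s + (n + 3 * t + i (n + 3 * t) - s) = n + 3 * t + i (n + 3 * t)
      omega
  have hrow : ∀ s ∈ range n, (T : ℝ) * g ≤ ∑ j ∈ range R, f s j := by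
    intro s hs
    rw [mem_range] at hs
    have hinj : Set.InjOn (fun t => κ t - s) (range T : Finset ℕ) := by
      intro t ht t' ht' he
      have ht := mem_range.1 (mem_coe.1 ht)
      have ht' := mem_range.1 (mem_coe.1 ht')
      have a1 := hi3 t ht
      have a2 := hi3 t' ht'
      have he : n + 3 * t + i (n + 3 * t) - s = n + 3 * t' + i (n + 3 * t') - s := he
      omega
    have h1 : ∑ t ∈ range T, f s (κ t - s) = ∑ j ∈ (range T).image (fun t => κ t - s), f s j :=
      (sum_image hinj).symm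
    have h2 : (range T).image (fun t => κ t - s) ⊆ range R := by
      intro j hj
      obtain ⟨t, ht, rfl⟩ := mem_image.1 hj
      have ht := mem_range.1 ht
      have a1 := hi3 t ht
      have a2 := hk5 t ht
      rw [mem_range]
      show n + 3 * t + i (n + 3 * t) - s < R
      omega
    have h3 : ∑ j ∈ (range T).image (fun t => κ t - s), f s j ≤ ∑ j ∈ range R, f s j :=
      sum_le_sum_of_subset_of_nonneg h2 fun j _ _ => hf s j
    have h4 : ∑ _t ∈ range T, g ≤ ∑ t ∈ range T, f s (κ t - s) :=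
      sum_le_sum fun t ht => (hκ t (mem_range.1 ht) s hs).le
    rw [sum_const, card_range, nsmul_eq_mul] at h4
    linarith
  have htot : (n : ℝ) * (T * g) ≤ ∑ s ∈ range n, ∑ j ∈ range R, f s j := by
    have := sum_le_sum hrow
    rw [sum_const, card_range, nsmul_eq_mul] at this
    exact this
  have hT2R : (R : ℝ) < 20 * (T + 1) := by exact_mod_cast hT2
  have hRR : (1000 : ℝ) ≤ R := by exact_mod_cast hR
  have hnn : (1 : ℝ) ≤ n := by exact_mod_cast hn
  have h5 : (R : ℝ) / 40 < T := by linarith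
  have h6 : (n : ℝ) * g * (R / 40) < n * g * T := by
    apply mul_lt_mul_of_pos_left h5
    positivity
  have h7 : g / 40 * ((n : ℝ) * R) = n * g * (R / 40) := by ring
  have h8 : (n : ℝ) * (T * g) = n * g * T := by ring
  linarith

end SFP
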