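import Pool.Agent.SFP.C1b
import Pool.Agent.SFP.C2
import Pool.Agent.SFP.C3b
import Pool.Agent.SFP.C4

/-!
# Module C4b: four almost equal consecutive blocks   (difficulty 2-3)

WLOG `b ≤ 1` (replace `b` by `min b 1`).  `k = b / 12`, `γ` from `c_step k`, `K = ⌈1 / k⌉₊` (`1 ≤ K k`, `1 ≤ K`), `(τ, Z₁)` from `c_period (γ / 40)`, `ε = b / 200` (`2 ε ≤ 1/12`), `η = γ / 1280`,
`Z₀ = max (max Z₁ 8) ⌈K / (ε τ)⌉₊`.  Let `S` be as in the theorem.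
* `Z / 4 ≤ 16 #(S.filter (· ≤ Z / 4))`: `WB` for `d = 1`, `v = 0`, `w = Z / 4` (`τ Z ≤ Z / 8 ≤ Z / 4` as natural division, since `Z ≥ 8`; elements of `S` are `≥ 1`): `≥ (1/3 - ε) w ≥ w / 16`.
* `c_period`: `m` with `τ Z ≤ m`, `4000 m ≤ Z`, `∑∑ NN ≤ (γ / 40) n R m²`, `n = Z / 4 / m`, `R = Z / m` (`32 e₀ ≤ 32 η Z = (γ / 40) Z`).
* `R ≥ 4000`, `n ≥ 1` (`Z / 4 ≥ 1000 m`), `4 n ≤ R` (`n = R / 4`, `Nat.div_div_eq_div_mul`).  `c_run` with `f s j = NN m S s j / m²`, `g = γ`: `k₀` with `n ≤ k₀`, `k₀ + 5 ≤ R`, and for `i < 3` a pair `s, j`, `s < n`, `j < R`, `s + j = k₀ + i`,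
  `NN m S s j ≤ γ m²`.
* all blocks `t < R` are `BAL K (2 ε)`: `bal_blk` (`(t + 1) m ≤ R m ≤ Z`, `K ≤ ε m` as `m ≥ τ Z ≥ τ Z₀ ≥ K / ε`).  `c_step`: `|S_{k₀+i} \ S_{k₀+i+1}| ≤ (2 k + 6 ε) m ≤ (b / 6 + 3 b / 100) m ≤ (b / 3) m` for `i < 3`.
* `S_{k₀} \ S_{k₀+i} ⊆ ⋃_{i' < i} (S_{k₀+i'} \ S_{k₀+i'+1})`, so at most `3 (b / 3) m` elements for `i ≤ 3`.  `(k₀ + 4) m ≤ R m ≤ Z`.
-/

namespace SFP

open Finset

theorem C4b_tri {α : Type*} [DecidableEq α] (U V W : Finset α) :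
    (U \ W).card ≤ (U \ V).card + (V \ W).card := by
  refine le_trans (card_le_card ?_) (card_union_le _ _)
  intro x hx
  rw [mem_sdiff] at hx
  rw [mem_union, mem_sdiff, mem_sdiff]
  by_cases h : x ∈ V
  · exact Or.inr ⟨h, hx.2⟩
  · exact Or.inl ⟨hx.1, h⟩

theorem c_one {b : ℝ} (hb : 0 < b) : ∃ (K Z₀ : ℕ) (ε τ η : ℝ), 1 ≤ K ∧ 0 < ε ∧ 0 < τ ∧ τ ≤ 1 / 8 ∧ 0 < η ∧
    ∀ (Z : ℕ) (S : Finset ℕ) (e₀ : ℝ), Z₀ ≤ Z → S ⊆ Icc 1 Z → RSF S e₀ → 0 ≤ e₀ → e₀ ≤ η * Z →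
      WB S Z K ε τ →
      ∃ m k : ℕ, 0 < m ∧ τ * Z ≤ m ∧ 4000 * m ≤ Z ∧ (k + 4) * m ≤ Z ∧
        ∀ i ≤ 3, ((blk m S k \ blk m S (k + i)).card : ℝ) ≤ b * m := by
  obtain ⟨b', hb', hb'1, hb'b⟩ : ∃ b' : ℝ, 0 < b' ∧ b' ≤ 1 ∧ b' ≤ b :=
    ⟨min b 1, lt_min hb one_pos, min_le_right _ _, min_le_left _ _⟩
  obtain ⟨γ, hγ, hγ1, hstep⟩ := c_step (k := b' / 12) (by positivity) (by linarith)
  obtain ⟨τ, Z₁, hτ, hτ8, hper⟩ := c_period (g := γ / 40) (by positivity)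
  set K : ℕ := ⌈1 / (b' / 12)⌉₊ with hK
  have hK1 : 1 ≤ (K : ℝ) * (b' / 12) := by
    have h1 : 1 / (b' / 12) ≤ (K : ℝ) := Nat.le_ceil _
    rw [div_le_iff₀ (by positivity)] at h1
    exact h1
  have hK0 : 1 ≤ K := by
    rcases Nat.eq_zero_or_pos K with h | h
    · rw [h, Nat.cast_zero, zero_mul] at hK1
      linarith
    · exact h
  set ε : ℝ := b' / 200 with hε
  have hε0 : 0 < ε := by positivity
  refine ⟨K, max (max Z₁ 8) ⌈(K : ℝ) / (ε * τ)⌉₊, ε, τ, γ / 1280, hK0, hε0, hτ, hτ8, by positivity, ?_⟩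
  intro Z S e₀ hZ hS hRSF he0 he hWB
  have hZ1 : Z₁ ≤ Z := (le_max_left _ _).trans ((le_max_left _ _).trans hZ)
  have hZ8 : 8 ≤ Z := (le_max_right _ _).trans ((le_max_left _ _).trans hZ)
  have hZK : (K : ℝ) / (ε * τ) ≤ Z := (Nat.le_ceil _).trans (by exact_mod_cast (le_max_right _ _).trans hZ)
  -- (a)
  have hw : τ * Z ≤ ((Z / 4 : ℕ) : ℝ) := by
    have h1 : Z ≤ 4 * (Z / 4) + 3 := by omega
    have h2 : (Z : ℝ) ≤ 4 * ((Z / 4 : ℕ) : ℝ) + 3 := by exact_mod_cast h1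
    have h3 : (8 : ℝ) ≤ Z := by exact_mod_cast hZ8
    have h4 : τ * Z ≤ 1 / 8 * Z := mul_le_mul_of_nonneg_right hτ8 (by positivity)
    linarith
  have ha : Z / 4 ≤ 16 * (S.filter (fun x => x ≤ Z / 4)).card := by
    obtain ⟨h1, -⟩ := hWB 1 le_rfl hK0 0 0 (Z / 4) hw (by omega)
    have h2 : ((S.filter (fun x => 0 < x ∧ x ≤ 0 + Z / 4 ∧ x % 1 = 0 % 1)).card : ℝ) ≤
        ((S.filter (fun x => x ≤ Z / 4)).card : ℝ) := by
      refine Nat.cast_le.2 (card_le_card ?_)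
      intro x hx
      rw [mem_filter] at hx ⊢
      refine ⟨hx.1, ?_⟩
      have := hx.2.2.1
      omega
    have h3 : (0 : ℝ) ≤ ((Z / 4 : ℕ) : ℝ) := Nat.cast_nonneg _
    have h4 : ((Z / 4 : ℕ) : ℝ) ≤ 16 * ((S.filter (fun x => x ≤ Z / 4)).card : ℝ) := by
      rw [Nat.cast_one, div_one] at h1
      have h5 : 1 / 16 * ((Z / 4 : ℕ) : ℝ) ≤ (1 / 3 - ε) * ((Z / 4 : ℕ) : ℝ) :=
        mul_le_mul_of_nonneg_right (by linarith) h3
      linarith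
    exact_mod_cast h4
  obtain ⟨m, hm, hτm, hm4, hsum⟩ := hper Z S e₀ hZ1 hS hRSF he0 (by linarith) ha
  haveI : NeZero m := ⟨hm.ne'⟩
  have hmR : (0 : ℝ) < m := by exact_mod_cast hm
  set n : ℕ := Z / 4 / m with hn
  set R : ℕ := Z / m with hR
  have hR4 : 4000 ≤ R := (Nat.le_div_iff_mul_le hm).2 hm4
  have hn1 : 1 ≤ n := by
    rw [hn, Nat.le_div_iff_mul_le hm]
    omega
  have hnR : 4 * n ≤ R := by
    have : n = R / 4 := by
      rw [hn, hR, Nat.div_div_eq_div_mul, Nat.div_div_eq_div_mul, mul_comm]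
    rw [this]
    exact Nat.mul_div_le _ _
  have hRm : R * m ≤ Z := Nat.div_mul_le_self Z m
  obtain ⟨k₀, hk1, hk2, hk3⟩ := c_run (n := n) (R := R) hγ hn1 (by omega) hnR
    (fun s j => (NN m S s j : ℝ) / (m : ℝ) ^ 2) (fun s j => by positivity) (by
      have h1 : ∑ s ∈ range n, ∑ j ∈ range R, (NN m S s j : ℝ) / (m : ℝ) ^ 2 =
          (∑ s ∈ range n, ∑ j ∈ range R, (NN m S s j : ℝ)) / (m : ℝ) ^ 2 := by
        rw [sum_div]
        refine sum_congr rfl fun s _ => ?_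
        rw [sum_div]
      show ∑ s ∈ range n, ∑ j ∈ range R, (NN m S s j : ℝ) / (m : ℝ) ^ 2 ≤ _
      rw [h1, div_le_iff₀ (by positivity)]
      exact hsum)
  have hKm : (K : ℝ) ≤ ε * m := by
    have h1 : (K : ℝ) ≤ Z * (ε * τ) := (div_le_iff₀ (by positivity)).1 hZK
    have h2 : ε * (τ * Z) ≤ ε * m := mul_le_mul_of_nonneg_left hτm hε0.le
    linarith
  have hbal : ∀ t, t < R → BAL K (2 * ε) (blk m S t) := by
    intro t ht
    exact bal_blk hWB hτm hKm ((Nat.mul_le_mul_right m ht).trans hRm)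
  have hone : ∀ i < 3, ((blk m S (k₀ + i) \ blk m S (k₀ + i + 1)).card : ℝ) ≤ b' / 3 * m := by
    intro i hi
    obtain ⟨s, j, hs, hj, hsj, hN⟩ := hk3 i hi
    have hN' : (NN m S s j : ℝ) ≤ γ * (m : ℝ) ^ 2 := (div_le_iff₀ (by positivity)).1 hN
    have hjs : j + s = k₀ + i := by omega
    have h1 := hstep m K S s j (2 * ε) hK1 (by linarith) (hbal s (by omega)) (hbal j hj)
      (hbal (j + s) (by omega)) (hbal (j + s + 1) (by omega)) hN'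
    rw [hjs] at h1
    refine h1.trans (mul_le_mul_of_nonneg_right ?_ hmR.le)
    rw [hε]
    linarith
  have hall : ∀ i ≤ 3, ((blk m S k₀ \ blk m S (k₀ + i)).card : ℝ) ≤ i * (b' / 3 * m) := by
    intro i
    induction i with
    | zero =>
      intro _
      simp
    | succ i ih =>
      intro hi
      have h1 := ih (by omega)
      have h2 := hone i (by omega)
      have h3 : ((blk m S k₀ \ blk m S (k₀ + (i + 1))).card : ℝ) ≤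
          ((blk m S k₀ \ blk m S (k₀ + i)).card : ℝ) +
            ((blk m S (k₀ + i) \ blk m S (k₀ + i + 1)).card : ℝ) := by
        exact_mod_cast C4b_tri (blk m S k₀) (blk m S (k₀ + i)) (blk m S (k₀ + i + 1))
      push_cast
      linarith
  refine ⟨m, k₀, hm, hτm, hm4, (Nat.mul_le_mul_right m (by omega)).trans hRm, fun i hi => ?_⟩
  refine (hall i hi).trans ?_
  have h1 : (i : ℝ) ≤ 3 := by exact_mod_cast hi
  have h2 : (i : ℝ) * (b' / 3 * m) ≤ 3 * (b' / 3 * m) := mul_le_mul_of_nonneg_right h1 (by positivity)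
  have h3 : b' * m ≤ b * m := mul_le_mul_of_nonneg_right hb'b hmR.le
  linarith

end SFP
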