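import Pool.Agent.SFP.CD
import Pool.Agent.SFP.A6a

/-!
# Module C5: the set `E`   (difficulty 2)

* `c5_few`: `M = blk m S k`, `x = a m + x'` with `x' = x % m`, `a = x / m ≤ 2`.  Let `i ∈ M` with `i + x ∈ M` (mod `m`).  `y = k m + i.val ∈ S` (`mem_blk`).  `y + x = (k + a) m + (i.val + x')`, and `(i + x).val = i.val + x'` or
  `i.val + x' - m` (`ZMod.val_add`, `ZMod.val_natCast`).  So `y + x = (k + a) m + (i + x).val` or `(k + a + 1) m + (i + x).val`.  Unless `i + x` is one of the `≤ b` elements of `M \ blk m S (k + a)` or of the `≤ b` elements of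
  `M \ blk m S (k + a + 1)`, we get `y + x ∈ S`.  So `#{i ∈ M : i + x ∈ M} ≤ #{y ∈ S : y + x ∈ S} + 2 b ≤ e₀ + 2 b` (`i ↦ k m + i.val` and `i ↦ i + x` are injective; `a, a + 1 ≤ 3`).
* `ee_neg`: `i ↦ i - r` is a bijection of `{i ∈ M : i + (-r) ∈ M}` with `{i ∈ M : i + r ∈ M}`.
* `ee_pairs`: for each `r ∈ EE M t` there are at most `t` elements `i ∈ M` with `i + r ∈ M`; `|EE M t| ≤ m` (`card_eq_sum_card_fiberwise` for `p ↦ p.2`).
-/

namespace SFP

open Finset

theorem c5_few {m : ℕ} [NeZero m] {S : Finset ℕ} {k : ℕ} {e₀ b : ℝ} (hr : RSF S e₀)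
    (hM : ∀ i ≤ 3, ((blk m S k \ blk m S (k + i)).card : ℝ) ≤ b) {x : ℕ} (hx : x ∈ S)
    (hxm : x < 3 * m) :
    (((blk m S k).filter (fun i => i + (x : ZMod m) ∈ blk m S k)).card : ℝ) ≤ e₀ + 2 * b := by
  have hm : 0 < m := Nat.pos_of_ne_zero (NeZero.ne m)
  obtain ⟨a, ha⟩ : ∃ a, a = x / m := ⟨_, rfl⟩
  have ha2 : a ≤ 2 := by
    have : x / m < 3 := (Nat.div_lt_iff_lt_mul hm).2 hxm
    omega
  have hxd : x = a * m + x % m := by
    rw [ha]
    have := Nat.div_add_mod x m
    rw [mul_comm] at this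
    exact this.symm
  have h1 := hM a (by omega)
  have h2 := hM (a + 1) (by omega)
  have h3 := (hr x hx).1
  have hsub : (blk m S k).filter (fun i => i + (x : ZMod m) ∈ blk m S k) ⊆
      (((blk m S k).filter (fun i => i + (x : ZMod m) ∈ blk m S k)).filter
        (fun i => i + (x : ZMod m) ∈ blk m S (k + a) ∧ i + (x : ZMod m) ∈ blk m S (k + (a + 1)))) ∪
      ((((blk m S k \ blk m S (k + a))).image (fun j => j - (x : ZMod m))) ∪
      (((blk m S k \ blk m S (k + (a + 1)))).image (fun j => j - (x : ZMod m)))) := by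
    intro i hi
    have hi' := mem_filter.1 hi
    rw [mem_union, mem_union, mem_filter]
    by_cases c1 : i + (x : ZMod m) ∈ blk m S (k + a)
    · by_cases c2 : i + (x : ZMod m) ∈ blk m S (k + (a + 1))
      · exact Or.inl ⟨hi, c1, c2⟩
      · refine Or.inr (Or.inr (mem_image.2 ⟨i + x, mem_sdiff.2 ⟨hi'.2, c2⟩, by ring⟩))
    · refine Or.inr (Or.inl (mem_image.2 ⟨i + x, mem_sdiff.2 ⟨hi'.2, c1⟩, by ring⟩))
  have hF1 : (((blk m S k).filter (fun i => i + (x : ZMod m) ∈ blk m S k)).filter
        (fun i => i + (x : ZMod m) ∈ blk m S (k + a) ∧ i + (x : ZMod m) ∈ blk m S (k + (a + 1)))).card ≤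
      rp S x := by
    unfold rp
    refine card_le_card_of_injOn (fun i => k * m + i.val) ?_ ?_
    · intro i hi
      have hi1 := (mem_filter.1 (Finset.mem_coe.1 hi)).1
      have hi2 := (mem_filter.1 (Finset.mem_coe.1 hi)).2
      have hiM := (mem_filter.1 hi1).1
      rw [mem_coe, mem_filter]
      refine ⟨mem_blk.1 hiM, ?_⟩
      have hv : (i + (x : ZMod m)).val = (i.val + x % m) % m := by
        rw [ZMod.val_add, ZMod.val_natCast]
      have hil : i.val < m := ZMod.val_lt i
      have hxl : x % m < m := Nat.mod_lt _ hm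
      rcases lt_or_ge (i.val + x % m) m with hc | hc
      · rw [Nat.mod_eq_of_lt hc] at hv
        have h4 := mem_blk.1 hi2.1
        rw [hv] at h4
        have h5 : k * m + i.val + x = (k + a) * m + (i.val + x % m) := by
          rw [add_mul]; omega
        show k * m + i.val + x ∈ S
        rw [h5]
        exact h4
      · rw [Nat.mod_eq_sub_mod hc, Nat.mod_eq_of_lt (by omega)] at hv
        have h4 := mem_blk.1 hi2.2
        rw [hv] at h4
        have h5 : k * m + i.val + x = (k + (a + 1)) * m + (i.val + x % m - m) := by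
          rw [add_mul, add_mul]; omega
        show k * m + i.val + x ∈ S
        rw [h5]
        exact h4
    · intro i _ j _ hij
      have : i.val = j.val := by
        have : k * m + i.val = k * m + j.val := hij
        omega
      exact ZMod.val_injective m this
  have hcard := (card_le_card hsub).trans ((card_union_le _ _).trans
    (Nat.add_le_add hF1 ((card_union_le _ _).trans (Nat.add_le_add card_image_le card_image_le))))
  have hcard' : (((blk m S k).filter (fun i => i + (x : ZMod m) ∈ blk m S k)).card : ℝ) ≤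
      (rp S x : ℝ) + (((blk m S k \ blk m S (k + a)).card : ℝ) + ((blk m S k \ blk m S (k + (a + 1))).card : ℝ)) := by
    exact_mod_cast hcard
  linarith

theorem ee_neg {m : ℕ} [NeZero m] {M : Finset (ZMod m)} {t : ℝ} {r : ZMod m} (h : r ∈ EE M t) :
    -r ∈ EE M t := by
  unfold EE at h ⊢
  rw [mem_filter] at h ⊢
  refine ⟨mem_univ _, ?_⟩
  have : (M.filter (fun i => i + -r ∈ M)).card ≤ (M.filter (fun i => i + r ∈ M)).card := by
    refine card_le_card_of_injOn (fun i => i + -r) ?_ (fun i _ j _ hij => by simpa using hij)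
    intro i hi
    have hi' := mem_filter.1 (mem_coe.1 hi)
    rw [mem_coe, mem_filter]
    refine ⟨hi'.2, ?_⟩
    show i + -r + r ∈ M
    rw [neg_add_cancel_right]
    exact hi'.1
  have h2 : ((M.filter (fun i => i + -r ∈ M)).card : ℝ) ≤ ((M.filter (fun i => i + r ∈ M)).card : ℝ) := by
    exact_mod_cast this
  exact h2.trans h.2

theorem ee_pairs {m : ℕ} [NeZero m] (M : Finset (ZMod m)) {t : ℝ} (ht : 0 ≤ t) :
    (((M ×ˢ EE M t).filter (fun p => p.1 + p.2 ∈ M)).card : ℝ) ≤ t * m := by
  have h1 : ((M ×ˢ EE M t).filter (fun p => p.1 + p.2 ∈ M)).card =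
      ∑ r ∈ EE M t, (M.filter (fun i => i + r ∈ M)).card := by
    rw [card_filter, sum_product_right]
    refine sum_congr rfl fun r _ => ?_
    rw [card_filter]
  rw [h1]
  push_cast
  have h2 : ∑ r ∈ EE M t, ((M.filter (fun i => i + r ∈ M)).card : ℝ) ≤ ∑ _r ∈ EE M t, t := by
    refine sum_le_sum fun r hr => ?_
    exact (mem_filter.1 hr).2
  refine h2.trans ?_
  rw [sum_const, nsmul_eq_mul, mul_comm]
  refine mul_le_mul_of_nonneg_left ?_ ht
  have h3 : (EE M t).card ≤ m := by
    have := card_le_univ (EE M t)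
    rwa [ZMod.card] at this
  exact_mod_cast h3

end SFP
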