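import Pool.Agent.SFP.C3
import Pool.Agent.SFP.C5

/-!
# Module C5b: the set `E` is almost equal to the first three blocks   (difficulty 2)

WLOG `b ≤ 1` (`b' = min b 1`).  `k₅ = b / 4`, `γ` from `big_three k₅`, `K = ⌈1 / k₅⌉₊` (`1 ≤ K k₅`, `1 ≤ K`), `ε = b / 12` (`≤ 1/12`), `β = γ / 3`.
`M = blk m S k`, `t = 3 β m`, `E = EE M t`.
* `E = -E`: `ee_neg`.
* `blk m S j ⊆ E` for `j ≤ 2`: let `r ∈ blk m S j`, `x = j m + r.val ∈ S` (`mem_blk`), `x < 3 m`, `(x : ZMod m) = r`.  `c5_few` (with `b := β m`): `#{i ∈ M : i + r ∈ M} ≤ e₀ + 2 β m ≤ 3 β m`.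
* `ee_pairs`: `#{(i, r) ∈ M × E : i + r ∈ M} ≤ 3 β m² = γ m²`.  `big_three` for `(M, E, M)` (`LO`: `BAL.lo`, and `LO.mono` for `blk m S 0 ⊆ E`): `2 |M| + |E| ≤ (1 + 2 k₅) m`; `|M| ≥ (1/3 - ε) m`
  (`BAL.card`), so `|E| ≤ (1/3 + 2 k₅ + 2 ε) m`.
* `|E \ S_j| = |E| - |S_j| ≤ (2 k₅ + 3 ε) m ≤ (b / 2 + b / 4) m ≤ b m` (`BAL.card` for the block `j`).
-/

namespace SFP

open Finset

theorem c_two {b : ℝ} (hb : 0 < b) : ∃ (K : ℕ) (ε β : ℝ), 1 ≤ K ∧ 0 < ε ∧ 0 < β ∧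
    ∀ (m k : ℕ) [NeZero m] (S : Finset ℕ) (e₀ : ℝ), RSF S e₀ → 0 ≤ e₀ → e₀ ≤ β * m →
      (∀ j ≤ 2, BAL K ε (blk m S j)) → BAL K ε (blk m S k) →
      (∀ i ≤ 3, ((blk m S k \ blk m S (k + i)).card : ℝ) ≤ β * m) →
      ∃ E : Finset (ZMod m), (∀ x ∈ E, -x ∈ E) ∧ (∀ j ≤ 2, blk m S j ⊆ E) ∧
        ∀ j ≤ 2, ((E \ blk m S j).card : ℝ) ≤ b * m := by
  obtain ⟨b', hb'⟩ : ∃ b', b' = min b 1 := ⟨_, rfl⟩
  have hb0 : 0 < b' := by rw [hb']; exact lt_min hb one_pos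
  have hb1 : b' ≤ 1 := by rw [hb']; exact min_le_right _ _
  have hbb : b' ≤ b := by rw [hb']; exact min_le_left _ _
  obtain ⟨γ, hγ0, hγ1, hγ⟩ := big_three (k := b' / 4) (by linarith) (by linarith)
  have hK1 : (1 : ℝ) ≤ (⌈1 / (b' / 4)⌉₊ : ℝ) * (b' / 4) := by
    have h1 : 1 / (b' / 4) ≤ (⌈1 / (b' / 4)⌉₊ : ℝ) := Nat.le_ceil _
    have h2 : 0 < b' / 4 := by linarith
    calc (1 : ℝ) = 1 / (b' / 4) * (b' / 4) := by field_simp
      _ ≤ _ := mul_le_mul_of_nonneg_right h1 h2.le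
  have hKpos : 1 ≤ ⌈1 / (b' / 4)⌉₊ := by
    rw [Nat.one_le_ceil_iff]
    positivity
  refine ⟨⌈1 / (b' / 4)⌉₊, b' / 12, γ / 3, hKpos, by linarith, by linarith, ?_⟩
  intro m k _ S e₀ hr he0 he hbal hbalk hdiff
  have hm : 0 < m := Nat.pos_of_ne_zero (NeZero.ne m)
  have hmR : (0 : ℝ) < m := by exact_mod_cast hm
  have ht0 : (0 : ℝ) ≤ γ * m := by positivity
  have hsub : ∀ j ≤ 2, blk m S j ⊆ EE (blk m S k) (γ * m) := by
    intro j hj r hrj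
    have hxS : j * m + r.val ∈ S := mem_blk.1 hrj
    have hrl : r.val < m := ZMod.val_lt r
    have hx3 : j * m + r.val < 3 * m := by
      have : j * m ≤ 2 * m := Nat.mul_le_mul_right _ hj
      omega
    have hcast : ((j * m + r.val : ℕ) : ZMod m) = r := by
      push_cast
      rw [ZMod.natCast_self, mul_zero, zero_add, ZMod.natCast_zmod_val]
    have h1 := c5_few hr hdiff hxS hx3
    rw [hcast] at h1
    unfold EE
    rw [mem_filter]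
    refine ⟨mem_univ _, h1.trans ?_⟩
    linarith
  refine ⟨EE (blk m S k) (γ * m), fun x hx => ee_neg hx, hsub, ?_⟩
  have hpairs := ee_pairs (blk m S k) ht0
  have hpairs' : (((blk m S k ×ˢ EE (blk m S k) (γ * m)).filter
      (fun p => p.1 + p.2 ∈ blk m S k)).card : ℝ) ≤ γ * (m : ℝ) ^ 2 := by
    refine hpairs.trans (le_of_eq ?_)
    ring
  have hlok : LO ⌈1 / (b' / 4)⌉₊ (blk m S k) := hbalk.lo (by linarith)
  have hloE : LO ⌈1 / (b' / 4)⌉₊ (EE (blk m S k) (γ * m)) :=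
    ((hbal 0 (by omega)).lo (by linarith)).mono (hsub 0 (by omega))
  have h3 := hγ m _ (blk m S k) (EE (blk m S k) (γ * m)) (blk m S k) hK1 hlok hloE hlok hpairs'
  have h4 := (hbalk.card hKpos).1
  intro j hj
  have h5 := ((hbal j hj).card hKpos).1
  have h6 : (((EE (blk m S k) (γ * m)) \ blk m S j).card : ℝ) =
      ((EE (blk m S k) (γ * m)).card : ℝ) - ((blk m S j).card : ℝ) := by
    rw [card_sdiff_of_subset (hsub j hj), Nat.cast_sub (card_le_card (hsub j hj))]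
  rw [h6]
  have h7 : b' * (m : ℝ) ≤ b * m := mul_le_mul_of_nonneg_right hbb hmR.le
  nlinarith

end SFP
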