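import Pool.Agent.SFP.CD
import Pool.Agent.SFP.A4
import Pool.Agent.SFP.A6a

/-!
# Module C6: a large symmetric sum-free subset of `E`   (difficulty 2)
-/

namespace SFP

open Finset

theorem C6_sumset {m : ℕ} [NeZero m] (D : Finset (ZMod m)) :
    (((univ : Finset (ZMod m × ZMod m)).filter (fun p => p.1 + p.2 ∈ D)).card) ≤ m * D.card := by
  have h : (((univ : Finset (ZMod m × ZMod m)).filter (fun p => p.1 + p.2 ∈ D)).card) ≤
      ((univ : Finset (ZMod m)) ×ˢ D).card := by
    apply card_le_card_of_injOn (fun p => (p.1, p.1 + p.2))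
    · intro p hp
      simp only [coe_filter, mem_univ, true_and, Set.mem_ofPred_eq] at hp
      simp only [coe_product, Set.mem_prod, coe_univ, Set.mem_univ, true_and, mem_coe]
      exact hp
    · intro p _ q _ hpq
      simp only [Prod.mk.injEq] at hpq
      obtain ⟨h1, h2⟩ := hpq
      rw [h1] at h2
      exact Prod.ext h1 (add_left_cancel h2)
  rwa [card_product, card_univ, ZMod.card] at h

theorem c6_few {m : ℕ} [NeZero m] {S : Finset ℕ} {e₀ b : ℝ} (hr : RSF S e₀) (he : 0 ≤ e₀)
    {E : Finset (ZMod m)} (h0 : ((E \ blk m S 0).card : ℝ) ≤ b)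
    (h1 : ((E \ blk m S 1).card : ℝ) ≤ b) :
    (((E ×ˢ E).filter (fun p => p.1 + p.2 ∈ E)).card : ℝ) ≤ 4 * b * m + e₀ * m := by
  set D0 := E \ blk m S 0 with hD0
  set D1 := E \ blk m S 1 with hD1
  set G := (univ : Finset (ZMod m × ZMod m)).filter
    (fun p => p.1.val ∈ S ∧ p.2.val ∈ S ∧ p.2.val + p.1.val ∈ S) with hG
  have hsub : (E ×ˢ E).filter (fun p => p.1 + p.2 ∈ E) ⊆
      (((D0 ×ˢ univ ∪ univ ×ˢ D0) ∪ univ.filter (fun p => p.1 + p.2 ∈ D0)) ∪
        univ.filter (fun p => p.1 + p.2 ∈ D1)) ∪ G := by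
    intro p hp
    rw [mem_filter, mem_product] at hp
    obtain ⟨⟨hp1, hp2⟩, hp3⟩ := hp
    by_cases c1 : p.1 ∈ blk m S 0
    swap
    · simp only [mem_union, mem_product, mem_univ, and_true]
      left; left; left; left
      rw [hD0, mem_sdiff]; exact ⟨hp1, c1⟩
    by_cases c2 : p.2 ∈ blk m S 0
    swap
    · simp only [mem_union, mem_product, mem_univ, true_and]
      left; left; left; right
      rw [hD0, mem_sdiff]; exact ⟨hp2, c2⟩
    by_cases c3 : p.1 + p.2 ∈ blk m S 0
    swap
    · simp only [mem_union]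
      left; left; right
      rw [mem_filter, hD0, mem_sdiff]; exact ⟨mem_univ _, hp3, c3⟩
    by_cases c4 : p.1 + p.2 ∈ blk m S 1
    swap
    · simp only [mem_union]
      left; right
      rw [mem_filter, hD1, mem_sdiff]; exact ⟨mem_univ _, hp3, c4⟩
    simp only [mem_union]
    right
    rw [mem_blk, zero_mul, zero_add] at c1 c2 c3
    rw [mem_blk, one_mul] at c4
    rw [hG, mem_filter]
    refine ⟨mem_univ _, c1, c2, ?_⟩
    by_cases hlt : p.1.val + p.2.val < m
    · rw [ZMod.val_add_of_lt hlt] at c3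
      rw [add_comm]; exact c3
    · rw [ZMod.val_add_of_le (by omega)] at c4
      have : m + (p.1.val + p.2.val - m) = p.2.val + p.1.val := by omega
      rwa [this] at c4
  have hGc : (G.card : ℝ) ≤ e₀ * m := by
    have hf : ∀ x ∈ (univ : Finset (ZMod m)), ((G.filter (fun p => p.1 = x)).card : ℝ) ≤ e₀ := by
      intro x _
      by_cases hx : x.val ∈ S
      · refine le_trans ?_ (hr x.val hx).1
        have : (G.filter (fun p => p.1 = x)).card ≤ rp S x.val := by
          unfold rp
          apply card_le_card_of_injOn (fun p => p.2.val)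
          · intro p hp
            simp only [coe_filter, Set.mem_ofPred_eq, hG, mem_filter, mem_univ, true_and] at hp
            simp only [coe_filter, Set.mem_ofPred_eq]
            obtain ⟨⟨h1, h2, h3⟩, h4⟩ := hp
            rw [h4] at h3
            exact ⟨h2, h3⟩
          · intro p hp q hq hpq
            simp only [coe_filter, Set.mem_ofPred_eq] at hp hq
            exact Prod.ext (hp.2.trans hq.2.symm) (ZMod.val_injective m hpq)
        exact_mod_cast this
      · have : G.filter (fun p => p.1 = x) = ∅ := by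
          rw [filter_eq_empty_iff]
          intro p hp h
          rw [hG, mem_filter] at hp
          exact hx (h ▸ hp.2.1)
        rw [this]
        simpa using he
    have h2 : G.card = ∑ x ∈ (univ : Finset (ZMod m)), (G.filter (fun p => p.1 = x)).card :=
      card_eq_sum_card_fiberwise (fun _ _ => mem_coe.mpr (mem_univ _))
    have h3 : (G.card : ℝ) = ∑ x ∈ (univ : Finset (ZMod m)), ((G.filter (fun p => p.1 = x)).card : ℝ) := by
      exact_mod_cast h2
    rw [h3]
    refine (sum_le_sum hf).trans ?_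
    rw [sum_const, card_univ, ZMod.card, nsmul_eq_mul, mul_comm]
  have hc := card_le_card hsub
  have hu : (((((D0 ×ˢ (univ : Finset (ZMod m)) ∪ univ ×ˢ D0) ∪ univ.filter (fun p => p.1 + p.2 ∈ D0)) ∪
        univ.filter (fun p => p.1 + p.2 ∈ D1)) ∪ G).card) ≤
      D0.card * m + m * D0.card + m * D0.card + m * D1.card + G.card := by
    refine (card_union_le _ _).trans ?_
    gcongr
    refine (card_union_le _ _).trans ?_
    gcongr
    · refine (card_union_le _ _).trans ?_
      gcongr
      · refine (card_union_le _ _).trans ?_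
        rw [card_product, card_product, card_univ, ZMod.card]
      · exact C6_sumset D0
    · exact C6_sumset D1
  have h5 : ((((E ×ˢ E).filter (fun p => p.1 + p.2 ∈ E)).card : ℕ) : ℝ) ≤
      D0.card * m + m * D0.card + m * D0.card + m * D1.card + G.card := by
    exact_mod_cast hc.trans hu
  have hm0 : (0 : ℝ) ≤ m := Nat.cast_nonneg m
  nlinarith [mul_le_mul_of_nonneg_right h0 hm0, mul_le_mul_of_nonneg_right h1 hm0]

theorem c_three {b : ℝ} (hb : 0 < b) : ∃ β : ℝ, 0 < β ∧
    ∀ (m : ℕ) [NeZero m] (S : Finset ℕ) (e₀ : ℝ) (E : Finset (ZMod m)), RSF S e₀ → 0 ≤ e₀ →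
      e₀ ≤ β * m → (∀ x ∈ E, -x ∈ E) → ((E \ blk m S 0).card : ℝ) ≤ β * m →
      ((E \ blk m S 1).card : ℝ) ≤ β * m →
      ∃ A ⊆ E, SSF A ∧ ((E \ A).card : ℝ) ≤ b * m := by
  obtain ⟨γ, hγ, hrem⟩ := removal (ε := b / 6) (by positivity)
  refine ⟨min γ 1 / 5, by positivity, ?_⟩
  intro m _ S e₀ E hr he he2 hE h0 h1
  have hm0 : (0 : ℝ) ≤ m := Nat.cast_nonneg m
  have hfew := c6_few hr he h0 h1
  have hγ5 : min γ 1 / 5 * 5 ≤ γ := by
    have := min_le_left γ (1 : ℝ)
    linarith
  have hle : (((E ×ˢ E).filter (fun p => p.1 + p.2 ∈ E)).card : ℝ) ≤ γ * (m : ℝ) ^ 2 := by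
    refine hfew.trans ?_
    have h2 : e₀ * m ≤ (min γ 1 / 5 * m) * m := mul_le_mul_of_nonneg_right he2 hm0
    have h3 : (min γ 1 / 5 * 5) * (m : ℝ) ^ 2 ≤ γ * (m : ℝ) ^ 2 :=
      mul_le_mul_of_nonneg_right hγ5 (by positivity)
    nlinarith
  obtain ⟨X', Y', Z', hX, hY, hZ, cX, cY, cZ, hsum⟩ := hrem m E E E hle
  set A₁ := X' ∩ Y' ∩ Z' with hA₁
  refine ⟨A₁.filter (fun x => -x ∈ A₁), ?_, ⟨?_, ?_⟩, ?_⟩
  · intro x hx
    rw [mem_filter, hA₁, mem_inter, mem_inter] at hx
    exact hX hx.1.1.1
  · intro x hx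
    rw [mem_filter] at hx ⊢
    exact ⟨hx.2, by rw [neg_neg]; exact hx.1⟩
  · intro x hx y hy hxy
    rw [mem_filter, hA₁, mem_inter, mem_inter] at hx hy hxy
    exact hsum x hx.1.1.1 y hy.1.1.2 hxy.1.2
  · have hsub : E \ A₁.filter (fun x => -x ∈ A₁) ⊆
        ((E \ X') ∪ (E \ Y') ∪ (E \ Z')) ∪
          ((E \ X') ∪ (E \ Y') ∪ (E \ Z')).image (fun x => -x) := by
      intro x hx
      rw [mem_sdiff, mem_filter, not_and_or] at hx
      obtain ⟨hxE, hx | hx⟩ := hx
      · rw [mem_union]
        left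
        rw [hA₁, mem_inter, mem_inter] at hx
        simp only [mem_union, mem_sdiff]
        tauto
      · rw [mem_union]
        right
        rw [mem_image]
        refine ⟨-x, ?_, neg_neg x⟩
        rw [hA₁, mem_inter, mem_inter] at hx
        have := hE x hxE
        simp only [mem_union, mem_sdiff]
        tauto
    have hc1 : ((E \ X') ∪ (E \ Y') ∪ (E \ Z')).card ≤ (E \ X').card + (E \ Y').card + (E \ Z').card := by
      refine (card_union_le _ _).trans ?_
      gcongr
      exact card_union_le _ _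
    have hc2 : (((E \ X') ∪ (E \ Y') ∪ (E \ Z')).image (fun x => -x)).card ≤
        (E \ X').card + (E \ Y').card + (E \ Z').card := card_image_le.trans hc1
    have hc3 : (E \ A₁.filter (fun x => -x ∈ A₁)).card ≤
        2 * ((E \ X').card + (E \ Y').card + (E \ Z').card) := by
      refine (card_le_card hsub).trans ((card_union_le _ _).trans ?_)
      omega
    have hc4 : ((E \ A₁.filter (fun x => -x ∈ A₁)).card : ℝ) ≤
        2 * ((E \ X').card + (E \ Y').card + (E \ Z').card) := by exact_mod_cast hc3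
    refine hc4.trans ?_
    linarith

end SFP
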