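import Pool.Agent.SFP.ZDefs

/-!
# Module ZRot (2): `x ↦ fract (u x / m)` is a rotation coordinate

`φ x = Int.fract (u * x.val / m)`, `g = gcd u m`, `m' = m / g`, `κ = g / m = 1 / m'`. `φ x = k / m'` with
`k = (u/g) * x.val mod m'`. Additivity: `(x + y).val ≡ x.val + y.val mod m`, so `u (x+y).val / m` and `u x.val/m + u y.val/m` differ by an
integer. Every `k < m'` is attained by exactly `g` elements `x` (`u / g` is invertible mod `m'`, each residue mod `m'` has `g` lifts).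
`up`: `φ x ∈ [α, β]` iff `k ∈ [α m', β m']`, at most `(β - α) m' + 1` values of `k`, each `g` times: `(β - α) m + g`.
`lo`: the number of `k ∈ [0, m')` with `k < β m'` is at least `β m'` (`0 ≤ β ≤ 1`), each `g` times.
-/

namespace SFP

open Finset

theorem ZRot_fract_mod {m : ℕ} [NeZero m] (u y : ℕ) :
    Int.fract ((u : ℝ) * ((y % m : ℕ) : ℝ) / m) = Int.fract ((u : ℝ) * y / m) := by
  have hm : (m : ℝ) ≠ 0 := by exact_mod_cast (NeZero.ne m)
  have h1 : (y : ℝ) = m * ((y / m : ℕ) : ℝ) + ((y % m : ℕ) : ℝ) := by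
    exact_mod_cast (Nat.div_add_mod y m).symm
  have h2 : (u : ℝ) * y / m = (u : ℝ) * ((y % m : ℕ) : ℝ) / m + ((u * (y / m) : ℕ) : ℝ) := by
    conv_lhs => rw [h1]
    push_cast
    field_simp
    ring
  rw [h2, Int.fract_add_natCast]

section aux

variable {m : ℕ} [NeZero m] (u : ℕ)

/-- `m / gcd u m` -/
def ZRot_m (m u : ℕ) : ℕ := m / Nat.gcd u m

theorem ZRot_gpos (m : ℕ) [NeZero m] (u : ℕ) : 0 < Nat.gcd u m :=
  Nat.gcd_pos_of_pos_right _ (Nat.pos_of_ne_zero (NeZero.ne m))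

theorem ZRot_mul (m : ℕ) (u : ℕ) : Nat.gcd u m * ZRot_m m u = m :=
  Nat.mul_div_cancel' (Nat.gcd_dvd_right u m)

theorem ZRot_mpos (m : ℕ) [NeZero m] (u : ℕ) : 0 < ZRot_m m u := by
  rcases Nat.eq_zero_or_pos (ZRot_m m u) with h | h
  · exfalso
    have h1 := ZRot_mul m u
    rw [h, mul_zero] at h1
    exact NeZero.ne m h1.symm
  · exact h

/-- the homomorphism `x ↦ (u / g) x` -/
def ZRot_f (m u : ℕ) : ZMod m →+ ZMod (ZRot_m m u) :=
  (AddMonoidHom.mulLeft ((u / Nat.gcd u m : ℕ) : ZMod (ZRot_m m u))).comp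
    (ZMod.castHom (Dvd.intro_left _ (ZRot_mul m u)) (ZMod (ZRot_m m u))).toAddMonoidHom

theorem ZRot_f_val (x : ZMod m) :
    (ZRot_f m u x).val = ((u / Nat.gcd u m) * x.val) % ZRot_m m u := by
  have h1 : ZRot_f m u x = (((u / Nat.gcd u m) * x.val : ℕ) : ZMod (ZRot_m m u)) := by
    show ((u / Nat.gcd u m : ℕ) : ZMod (ZRot_m m u)) *
      (ZMod.castHom (Dvd.intro_left _ (ZRot_mul m u)) (ZMod (ZRot_m m u)) x) = _
    rw [ZMod.castHom_apply, ← ZMod.natCast_val, Nat.cast_mul]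
  rw [h1, ZMod.val_natCast]

theorem ZRot_phi (x : ZMod m) :
    Int.fract ((u : ℝ) * (x.val : ℝ) / m) = ((ZRot_f m u x).val : ℝ) / (ZRot_m m u : ℝ) := by
  rw [ZRot_f_val]
  have hg : ((Nat.gcd u m : ℕ) : ℝ) ≠ 0 := by exact_mod_cast (ZRot_gpos m u).ne'
  have hm' : ((ZRot_m m u : ℕ) : ℝ) ≠ 0 := by exact_mod_cast (ZRot_mpos m u).ne'
  have h1 : (u : ℝ) = (Nat.gcd u m : ℕ) * ((u / Nat.gcd u m : ℕ) : ℝ) := by
    exact_mod_cast (Nat.mul_div_cancel' (Nat.gcd_dvd_left u m)).symm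
  have h2 : (m : ℝ) = (Nat.gcd u m : ℕ) * ((ZRot_m m u : ℕ) : ℝ) := by
    exact_mod_cast (ZRot_mul m u).symm
  have h3 : (u : ℝ) * (x.val : ℝ) / m =
      (((u / Nat.gcd u m) * x.val : ℕ) : ℝ) / (ZRot_m m u : ℝ) := by
    rw [Nat.cast_mul]
    obtain ⟨g, hg'⟩ : ∃ g : ℝ, g = ((Nat.gcd u m : ℕ) : ℝ) := ⟨_, rfl⟩
    obtain ⟨v, hv⟩ : ∃ v : ℝ, v = ((u / Nat.gcd u m : ℕ) : ℝ) := ⟨_, rfl⟩
    obtain ⟨M, hM⟩ : ∃ M : ℝ, M = ((ZRot_m m u : ℕ) : ℝ) := ⟨_, rfl⟩
    rw [← hg', ← hv] at h1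
    rw [← hg', ← hM] at h2
    rw [← hg'] at hg
    rw [← hM] at hm'
    rw [← hv, ← hM, h1, h2]
    field_simp
  rw [h3, Int.fract_div_natCast_eq_div_natCast_mod]

theorem ZRot_surj : Function.Surjective (ZRot_f m u) := by
  have hm0 : NeZero (ZRot_m m u) := ⟨(ZRot_mpos m u).ne'⟩
  have hu : IsUnit ((u / Nat.gcd u m : ℕ) : ZMod (ZRot_m m u)) := by
    rw [ZMod.isUnit_iff_coprime]
    exact Nat.coprime_div_gcd_div_gcd (ZRot_gpos m u)
  obtain ⟨w, hw⟩ := hu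
  intro y
  obtain ⟨x, hx⟩ := ZMod.castHom_surjective (Dvd.intro_left _ (ZRot_mul m u)) (((w⁻¹ : (ZMod (ZRot_m m u))ˣ) : ZMod (ZRot_m m u)) * y)
  refine ⟨x, ?_⟩
  show ((u / Nat.gcd u m : ℕ) : ZMod (ZRot_m m u)) *
      (ZMod.castHom (Dvd.intro_left _ (ZRot_mul m u)) (ZMod (ZRot_m m u)) x) = y
  rw [hx, ← hw, Units.mul_inv_cancel_left]

theorem ZRot_fiber (y : ZMod (ZRot_m m u)) :
    (univ.filter (fun x : ZMod m => ZRot_f m u x = y)).card = Nat.gcd u m := by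
  have hm0 : NeZero (ZRot_m m u) := ⟨(ZRot_mpos m u).ne'⟩
  have h1 : ∀ y' : ZMod (ZRot_m m u), (univ.filter (fun x : ZMod m => ZRot_f m u x = y')).card =
      (univ.filter (fun x : ZMod m => ZRot_f m u x = y)).card := fun y' =>
    AddMonoidHom.card_fiber_eq_of_mem_range (ZRot_f m u) (ZRot_surj u y') (ZRot_surj u y)
  have h2 : Fintype.card (ZMod m) =
      ∑ y' : ZMod (ZRot_m m u), (univ.filter (fun x : ZMod m => ZRot_f m u x = y')).card :=
    card_eq_sum_card_fiberwise (f := ZRot_f m u) (s := univ) (t := univ) (fun x _ => mem_univ _)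
  rw [sum_congr rfl (fun y' _ => h1 y'), sum_const, card_univ, ZMod.card, ZMod.card, smul_eq_mul] at h2
  have h3 := ZRot_mul m u
  have h4 := ZRot_mpos m u
  have h5 : ZRot_m m u * (univ.filter (fun x : ZMod m => ZRot_f m u x = y)).card =
      ZRot_m m u * Nat.gcd u m := by
    rw [← h2, mul_comm, h3]
  exact Nat.eq_of_mul_eq_mul_left h4 h5

theorem ZRot_count (P : ℝ → Prop) [DecidablePred P] :
    (univ.filter (fun x : ZMod m => P (Int.fract ((u : ℝ) * (x.val : ℝ) / m)))).card =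
      Nat.gcd u m * ((range (ZRot_m m u)).filter (fun k : ℕ => P ((k : ℝ) / (ZRot_m m u : ℝ)))).card := by
  have hm0 : NeZero (ZRot_m m u) := ⟨(ZRot_mpos m u).ne'⟩
  have h1 : (univ.filter (fun x : ZMod m => P (Int.fract ((u : ℝ) * (x.val : ℝ) / m)))).card =
      ∑ y ∈ univ.filter (fun y : ZMod (ZRot_m m u) => P ((y.val : ℝ) / (ZRot_m m u : ℝ))),
        (univ.filter (fun x : ZMod m => ZRot_f m u x = y)).card := by
    rw [card_eq_sum_card_fiberwise (f := ZRot_f m u)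
      (t := univ.filter (fun y : ZMod (ZRot_m m u) => P ((y.val : ℝ) / (ZRot_m m u : ℝ))))]
    · refine sum_congr rfl fun y hy => ?_
      congr 1
      ext x
      rw [mem_filter, mem_filter, mem_filter]
      constructor
      · rintro ⟨-, h⟩
        exact ⟨mem_univ _, h⟩
      · rintro ⟨-, h⟩
        refine ⟨⟨mem_univ _, ?_⟩, h⟩
        rw [mem_filter] at hy
        rw [ZRot_phi, h]
        exact hy.2
    · intro x hx
      rw [mem_coe, mem_filter] at hx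
      rw [mem_coe, mem_filter]
      refine ⟨mem_univ _, ?_⟩
      rw [← ZRot_phi]
      exact hx.2
  rw [h1, sum_congr rfl (fun y _ => ZRot_fiber u y), sum_const, smul_eq_mul, mul_comm]
  congr 1
  refine card_bij (fun y _ => y.val) ?_ ?_ ?_
  · intro y hy
    rw [mem_filter] at hy
    rw [mem_filter, mem_range]
    exact ⟨ZMod.val_lt y, hy.2⟩
  · intro y _ y' _ h
    exact ZMod.val_injective _ h
  · intro k hk
    rw [mem_filter, mem_range] at hk
    refine ⟨(k : ZMod (ZRot_m m u)), ?_, ZMod.val_cast_of_lt hk.1⟩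
    rw [mem_filter, ZMod.val_cast_of_lt hk.1]
    exact ⟨mem_univ _, hk.2⟩

end aux

theorem ZRot_up (M : ℕ) (hM : 0 < M) {α β : ℝ} (h : α ≤ β) :
    (((range M).filter (fun k : ℕ => α ≤ (k : ℝ) / (M : ℝ) ∧ (k : ℝ) / (M : ℝ) ≤ β)).card : ℝ) ≤
      (β - α) * M + 1 := by
  have hM' : (0 : ℝ) < M := by exact_mod_cast hM
  have h1 : ((range M).filter (fun k : ℕ => α ≤ (k : ℝ) / (M : ℝ) ∧ (k : ℝ) / (M : ℝ) ≤ β)).card ≤
      (Icc ⌈α * M⌉ ⌊β * M⌋).card := by
    refine card_le_card_of_injOn (fun k : ℕ => (k : ℤ)) ?_ ?_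
    · intro k hk
      rw [mem_coe, mem_filter] at hk
      rw [mem_coe, mem_Icc]
      obtain ⟨-, h2, h3⟩ := hk
      rw [le_div_iff₀ hM'] at h2
      rw [div_le_iff₀ hM'] at h3
      constructor
      · rw [Int.ceil_le]
        exact_mod_cast h2
      · rw [Int.le_floor]
        exact_mod_cast h3
    · intro a _ b _ hab
      exact Int.ofNat_injective hab
  have h2 : ((Icc ⌈α * M⌉ ⌊β * M⌋).card : ℝ) ≤ (β - α) * M + 1 := by
    rw [Int.card_Icc]
    have h3 : 0 ≤ (β - α) * M + 1 := by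
      have : 0 ≤ (β - α) * M := mul_nonneg (by linarith) hM'.le
      linarith
    rcases le_total 0 (⌊β * M⌋ + 1 - ⌈α * M⌉) with h4 | h4
    · have h5 : (((⌊β * M⌋ + 1 - ⌈α * M⌉).toNat : ℕ) : ℝ) = ((⌊β * M⌋ + 1 - ⌈α * M⌉ : ℤ) : ℝ) := by
        exact_mod_cast congrArg (fun z : ℤ => (z : ℝ)) (Int.toNat_of_nonneg h4)
      rw [h5]
      push_cast
      have h6 := Int.floor_le (β * M)
      have h7 := Int.le_ceil (α * M)
      linarith
    · rw [Int.toNat_of_nonpos h4]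
      simpa using h3
  exact (Nat.cast_le.2 h1).trans h2

theorem ZRot_lo (M : ℕ) (hM : 0 < M) {β : ℝ} (h1 : β ≤ 1) :
    β * M ≤ (((range M).filter (fun k : ℕ => (k : ℝ) / (M : ℝ) < β)).card : ℝ) := by
  have hM' : (0 : ℝ) < M := by exact_mod_cast hM
  have h2 : (range ⌈β * M⌉₊).card ≤ ((range M).filter (fun k : ℕ => (k : ℝ) / (M : ℝ) < β)).card := by
    refine card_le_card ?_
    intro k hk
    rw [mem_range, Nat.lt_ceil] at hk
    rw [mem_filter, mem_range, div_lt_iff₀ hM']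
    refine ⟨?_, hk⟩
    have : (k : ℝ) < M := by nlinarith
    exact_mod_cast this
  rw [card_range] at h2
  exact (Nat.le_ceil _).trans (Nat.cast_le.2 h2)

theorem z_rot {m : ℕ} [NeZero m] (u : ℕ) :
    Rot (fun x : ZMod m => Int.fract (u * (x.val : ℝ) / m)) ((Nat.gcd u m : ℝ) / m) where
  nonneg x := Int.fract_nonneg _
  lt_one x := Int.fract_lt_one _
  add x y := by
    show Int.fract ((u : ℝ) * ((x + y).val : ℝ) / m) =
        Int.fract ((u : ℝ) * (x.val : ℝ) / m) + Int.fract ((u : ℝ) * (y.val : ℝ) / m) ∨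
      Int.fract ((u : ℝ) * ((x + y).val : ℝ) / m) =
        Int.fract ((u : ℝ) * (x.val : ℝ) / m) + Int.fract ((u : ℝ) * (y.val : ℝ) / m) - 1
    rw [ZMod.val_add, ZRot_fract_mod]
    have e : (u : ℝ) * ((x.val + y.val : ℕ) : ℝ) / m =
        (u : ℝ) * (x.val : ℝ) / m + (u : ℝ) * (y.val : ℝ) / m := by
      push_cast
      ring
    rw [e]
    obtain ⟨a, ha⟩ : ∃ a, a = (u : ℝ) * (x.val : ℝ) / m := ⟨_, rfl⟩
    obtain ⟨b, hb⟩ : ∃ b, b = (u : ℝ) * (y.val : ℝ) / m := ⟨_, rfl⟩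
    rw [← ha, ← hb]
    obtain ⟨z, hz⟩ := Int.fract_add a b
    have h1 := Int.fract_nonneg (a + b)
    have h2 := Int.fract_lt_one (a + b)
    have h3 := Int.fract_nonneg a
    have h4 := Int.fract_lt_one a
    have h5 := Int.fract_nonneg b
    have h6 := Int.fract_lt_one b
    have h7 : (-2 : ℝ) < z := by rw [← hz]; linarith
    have h8 : (z : ℝ) < 1 := by rw [← hz]; linarith
    have h9 : -2 < z := by exact_mod_cast h7
    have h10 : z < 1 := by exact_mod_cast h8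
    have h11 : z = 0 ∨ z = -1 := by omega
    rcases h11 with h | h
    · left
      rw [h, Int.cast_zero] at hz
      linarith
    · right
      rw [h] at hz
      push_cast at hz
      linarith
  up α β h := by
    have hm : (0 : ℝ) < m := by exact_mod_cast Nat.pos_of_ne_zero (NeZero.ne m)
    have h1 := ZRot_count (m := m) u (fun t => α ≤ t ∧ t ≤ β)
    have h2 := ZRot_up (ZRot_m m u) (ZRot_mpos m u) h
    have h3 : (m : ℝ) = (Nat.gcd u m : ℕ) * ((ZRot_m m u : ℕ) : ℝ) := by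
      exact_mod_cast (ZRot_mul m u).symm
    show ((univ.filter (fun x : ZMod m => α ≤ Int.fract ((u : ℝ) * (x.val : ℝ) / m) ∧
      Int.fract ((u : ℝ) * (x.val : ℝ) / m) ≤ β)).card : ℝ) ≤ _
    rw [h1, Nat.cast_mul, ZMod.card]
    have h4 : (β - α + (Nat.gcd u m : ℝ) / m) * m = (Nat.gcd u m : ℝ) * ((β - α) * (ZRot_m m u : ℕ) + 1) := by
      rw [add_mul, div_mul_cancel₀ _ hm.ne']
      conv_lhs => rw [h3]
      ring
    rw [h4]
    exact mul_le_mul_of_nonneg_left h2 (Nat.cast_nonneg _)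
  lo β h0 h1 := by
    have hm : (0 : ℝ) < m := by exact_mod_cast Nat.pos_of_ne_zero (NeZero.ne m)
    have h2 := ZRot_count (m := m) u (fun t => t < β)
    have h3 := ZRot_lo (ZRot_m m u) (ZRot_mpos m u) h1
    have h4 : (m : ℝ) = (Nat.gcd u m : ℕ) * ((ZRot_m m u : ℕ) : ℝ) := by
      exact_mod_cast (ZRot_mul m u).symm
    show _ ≤ ((univ.filter (fun x : ZMod m => Int.fract ((u : ℝ) * (x.val : ℝ) / m) < β)).card : ℝ)
    rw [h2, Nat.cast_mul, ZMod.card]
    have h5 : (β - (Nat.gcd u m : ℝ) / m) * m = (Nat.gcd u m : ℝ) * (β * (ZRot_m m u : ℕ)) - Nat.gcd u m := by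
      rw [sub_mul, div_mul_cancel₀ _ hm.ne']
      conv_lhs => rw [h4]
      ring
    rw [h5]
    have h6 := mul_le_mul_of_nonneg_left h3 (Nat.cast_nonneg (α := ℝ) (Nat.gcd u m))
    have h7 : (0 : ℝ) ≤ (Nat.gcd u m : ℕ) := Nat.cast_nonneg _
    linarith

/-- `φ` of a natural number. -/
theorem z_rot_nat {m : ℕ} [NeZero m] (u y : ℕ) :
    Int.fract (u * (((y : ZMod m)).val : ℝ) / m) = Int.fract ((u : ℝ) / m * y) := by
  rw [ZMod.val_natCast, ZRot_fract_mod]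
  congr 1
  ring

end SFP
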