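import Pool.Agent.SFP.CD
import Pool.Agent.SFP.ZRot

/-!
# Module C6b: equidistribution of the multiples of `u / m`   (difficulty 2)

`φ x = fract (u x.val / m)`, `Rot φ κ₀` with `κ₀ = gcd u m / m ≤ κ` (`z_rot`).
* `c_equi_z` (upper bound in `ZMod m`): if `r ≥ 1/2` trivial (`κ ≥ 0` as `κ₀ ≥ 0`, `2 r ≥ 1`, `ZMod.card`).  Let `r < 1/2`, `c₀ = fract c`.  `nd (φ x - c) = nd (φ x - c₀) ≤ r` (`nd_add_int`) means `|φ x - c₀ - k| ≤ r`
  for an integer `k` (`round`), and `φ x - c₀ ∈ (-1, 1)`, so `k ∈ {-1, 0, 1}`: `φ x ∈ [c₀ - r, c₀ + r]` or `φ x ≥ c₀ + 1 - r` or `φ x ≤ c₀ - 1 + r`.  As `φ x ∈ [0, 1)`: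
  if `r ≤ c₀ ≤ 1 - r`: `φ x ∈ [c₀ - r, c₀ + r]` (the cases `k = ±1` are impossible or give an end point: `φ x ≤ c₀ - 1 + r ≤ 0` forces `φ x = 0` and `c₀ = 1 - r`; treat `c₀ = 1 - r` in the next case):
  `≤ (2 r + κ) m` by `Rot.up`.  If `c₀ < r`: `φ x ∈ [0, c₀ + r]` or `φ x ∈ [c₀ + 1 - r, 1]`: `≤ (c₀ + r + κ) m + (r - c₀ + κ) m`.  If `c₀ ≥ 1 - r`: `φ x ∈ [c₀ - r, 1]` or `φ x ∈ [0, c₀ - 1 + r]`: the same bound.
* `c_equi_up`: `y ↦ (y : ZMod m)` is injective on `Ioc v (v + m)` (`ZMod.natCast_eq_natCast_iff'`), `fract ((u / m) y) = φ (y : ZMod m)` (`z_rot_nat`), `nd ((u / m) y - c) = nd (φ y - c)`.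
* `c_equi_lo`: the complement in `Ioc v (v + m)` (`m` elements) consists of `y` with `nd ((u / m) y - c) > r`, hence `nd ((u / m) y - (c + 1/2)) ≤ 1/2 - r` (`nd_sub_half`): at most `(1 - 2 r + 2 κ) m` by the upper bound.
-/

namespace SFP

open Finset

theorem C6b_nd_congr {s t : ℝ} (h : Int.fract s = Int.fract t) (c : ℝ) : nd (s - c) = nd (t - c) := by
  have h1 := Int.fract_add_floor s
  have h2 := Int.fract_add_floor t
  have h3 : s - c = (t - c) + ((⌊s⌋ - ⌊t⌋ : ℤ) : ℝ) := by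
    push_cast
    rw [h] at h1
    linarith
  rw [h3, nd_add_int]

theorem c_equi_z {m u : ℕ} [NeZero m] {κ : ℝ} (h : (Nat.gcd u m : ℝ) / m ≤ κ) (c : ℝ) {r : ℝ}
    (hr : 0 ≤ r) :
    ((univ.filter (fun x : ZMod m => nd (u * (x.val : ℝ) / m - c) ≤ r)).card : ℝ) ≤
      (2 * r + 2 * κ) * m := by
  have hm : 0 < m := Nat.pos_of_ne_zero (NeZero.ne m)
  have hmR : (0 : ℝ) < m := by exact_mod_cast hm
  have hκ0 : (0 : ℝ) ≤ (Nat.gcd u m : ℝ) / m := by positivity
  have hκ : 0 ≤ κ := hκ0.trans h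
  rcases le_or_gt (1 / 2) r with hr2 | hr2
  · have h1 : ((univ.filter (fun x : ZMod m => nd (u * (x.val : ℝ) / m - c) ≤ r)).card : ℝ) ≤ m := by
      have := card_le_univ (univ.filter (fun x : ZMod m => nd (u * (x.val : ℝ) / m - c) ≤ r))
      rw [ZMod.card] at this
      exact_mod_cast this
    nlinarith
  have hrot := z_rot (m := m) u
  set φ : ZMod m → ℝ := fun x : ZMod m => Int.fract (u * (x.val : ℝ) / m) with hφ
  set κ₀ : ℝ := (Nat.gcd u m : ℝ) / m with hκ₀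
  obtain ⟨c₀, hc₀⟩ : ∃ c₀, c₀ = Int.fract c := ⟨_, rfl⟩
  have hc0 : 0 ≤ c₀ := by rw [hc₀]; exact Int.fract_nonneg c
  have hc1 : c₀ < 1 := by rw [hc₀]; exact Int.fract_lt_one c
  have hnd : ∀ x : ZMod m, nd (u * (x.val : ℝ) / m - c) = nd (φ x - c₀) := by
    intro x
    have h1 := Int.fract_add_floor (u * (x.val : ℝ) / m : ℝ)
    have h2 := Int.fract_add_floor c
    have h3 : (u * (x.val : ℝ) / m - c : ℝ) = (φ x - c₀) + ((⌊(u * (x.val : ℝ) / m : ℝ)⌋ - ⌊c⌋ : ℤ) : ℝ) := by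
      rw [hφ, hc₀]
      push_cast
      linarith
    rw [h3, nd_add_int]
  have hk : ∀ x : ZMod m, nd (u * (x.val : ℝ) / m - c) ≤ r →
      (c₀ - r ≤ φ x ∧ φ x ≤ c₀ + r) ∨ (c₀ + 1 - r ≤ φ x) ∨ (φ x ≤ c₀ - 1 + r) := by
    intro x hx
    rw [hnd] at hx
    unfold nd at hx
    have hx0 := hrot.nonneg x
    have hx1 := hrot.lt_one x
    have hx2 := abs_le.1 hx
    obtain ⟨k, hkk⟩ : ∃ k, k = round (φ x - c₀) := ⟨_, rfl⟩
    rw [← hkk] at hx2
    have hk1 : (k : ℝ) < 2 := by linarith [hx2.1]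
    have hk2 : (-2 : ℝ) < k := by linarith [hx2.2]
    have hk1' : k < 2 := by exact_mod_cast hk1
    have hk2' : -2 < k := by exact_mod_cast hk2
    have : k = -1 ∨ k = 0 ∨ k = 1 := by omega
    rcases this with rfl | rfl | rfl
    · right; right
      push_cast at hx2
      linarith [hx2.2]
    · left
      push_cast at hx2
      constructor <;> linarith [hx2.1, hx2.2]
    · right; left
      push_cast at hx2
      linarith [hx2.1]
  have hup := hrot.up
  rw [ZMod.card] at hup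
  have hκκ : κ₀ * m ≤ κ * m := mul_le_mul_of_nonneg_right h hmR.le
  have hκm : 0 ≤ κ₀ * m := mul_nonneg hκ0 hmR.le
  rcases lt_or_ge c₀ r with hcr | hcr
  · -- c₀ < r
    have hsub : (univ.filter (fun x : ZMod m => nd (u * (x.val : ℝ) / m - c) ≤ r)) ⊆
        (univ.filter (fun x => 0 ≤ φ x ∧ φ x ≤ c₀ + r)) ∪
        (univ.filter (fun x => c₀ + 1 - r ≤ φ x ∧ φ x ≤ 1)) := by
      intro x hx
      have hx' := hk x (mem_filter.1 hx).2
      have hx0 := hrot.nonneg x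
      have hx1 := hrot.lt_one x
      rw [mem_union, mem_filter, mem_filter]
      rcases hx' with h1 | h1 | h1
      · exact Or.inl ⟨mem_univ _, hx0, h1.2⟩
      · exact Or.inr ⟨mem_univ _, h1, hx1.le⟩
      · exfalso; linarith
    have h1 := hup 0 (c₀ + r) (by linarith)
    have h2 := hup (c₀ + 1 - r) 1 (by linarith)
    have h3 := (card_le_card hsub).trans (card_union_le _ _)
    have h4 : ((univ.filter (fun x : ZMod m => nd (u * (x.val : ℝ) / m - c) ≤ r)).card : ℝ) ≤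
        ((univ.filter (fun x => 0 ≤ φ x ∧ φ x ≤ c₀ + r)).card : ℝ) +
        ((univ.filter (fun x => c₀ + 1 - r ≤ φ x ∧ φ x ≤ 1)).card : ℝ) := by exact_mod_cast h3
    nlinarith
  · rcases lt_or_ge c₀ (1 - r) with hcr' | hcr'
    · have hsub : (univ.filter (fun x : ZMod m => nd (u * (x.val : ℝ) / m - c) ≤ r)) ⊆
          (univ.filter (fun x => c₀ - r ≤ φ x ∧ φ x ≤ c₀ + r)) := by
        intro x hx
        have hx' := hk x (mem_filter.1 hx).2
        have hx0 := hrot.nonneg x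
        have hx1 := hrot.lt_one x
        rw [mem_filter]
        rcases hx' with h1 | h1 | h1
        · exact ⟨mem_univ _, h1⟩
        · exfalso; linarith
        · exfalso; linarith
      have h1 := hup (c₀ - r) (c₀ + r) (by linarith)
      have h3 := card_le_card hsub
      have h4 : ((univ.filter (fun x : ZMod m => nd (u * (x.val : ℝ) / m - c) ≤ r)).card : ℝ) ≤
          ((univ.filter (fun x => c₀ - r ≤ φ x ∧ φ x ≤ c₀ + r)).card : ℝ) := by exact_mod_cast h3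
      nlinarith
    · have hsub : (univ.filter (fun x : ZMod m => nd (u * (x.val : ℝ) / m - c) ≤ r)) ⊆
          (univ.filter (fun x => c₀ - r ≤ φ x ∧ φ x ≤ 1)) ∪
          (univ.filter (fun x => 0 ≤ φ x ∧ φ x ≤ c₀ - 1 + r)) := by
        intro x hx
        have hx' := hk x (mem_filter.1 hx).2
        have hx0 := hrot.nonneg x
        have hx1 := hrot.lt_one x
        rw [mem_union, mem_filter, mem_filter]
        rcases hx' with h1 | h1 | h1
        · exact Or.inl ⟨mem_univ _, h1.1, hx1.le⟩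
        · exfalso; linarith
        · exact Or.inr ⟨mem_univ _, hx0, h1⟩
      have h1 := hup (c₀ - r) 1 (by linarith)
      have h2 := hup 0 (c₀ - 1 + r) (by linarith)
      have h3 := (card_le_card hsub).trans (card_union_le _ _)
      have h4 : ((univ.filter (fun x : ZMod m => nd (u * (x.val : ℝ) / m - c) ≤ r)).card : ℝ) ≤
          ((univ.filter (fun x => c₀ - r ≤ φ x ∧ φ x ≤ 1)).card : ℝ) +
          ((univ.filter (fun x => 0 ≤ φ x ∧ φ x ≤ c₀ - 1 + r)).card : ℝ) := by exact_mod_cast h3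
      nlinarith

theorem c_equi_up {m u : ℕ} [NeZero m] {κ : ℝ} (h : (Nat.gcd u m : ℝ) / m ≤ κ) (v : ℕ) (c : ℝ)
    {r : ℝ} (hr : 0 ≤ r) :
    (((Ioc v (v + m)).filter (fun y : ℕ => nd ((u : ℝ) / m * y - c) ≤ r)).card : ℝ) ≤
      (2 * r + 2 * κ) * m := by
  have hm : 0 < m := Nat.pos_of_ne_zero (NeZero.ne m)
  refine le_trans ?_ (c_equi_z h c hr)
  have : ((Ioc v (v + m)).filter (fun y : ℕ => nd ((u : ℝ) / m * y - c) ≤ r)).card ≤
      (univ.filter (fun x : ZMod m => nd (u * (x.val : ℝ) / m - c) ≤ r)).card := by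
    refine card_le_card_of_injOn (fun y : ℕ => (y : ZMod m)) ?_ ?_
    · intro y hy
      have hy' := (mem_filter.1 (mem_coe.1 hy)).2
      rw [mem_coe, mem_filter]
      refine ⟨mem_univ _, ?_⟩
      rw [C6b_nd_congr (z_rot_nat u y) c]
      exact hy'
    · intro y hy y' hy' hyy
      have h1 := mem_Ioc.1 (mem_filter.1 (mem_coe.1 hy)).1
      have h2 := mem_Ioc.1 (mem_filter.1 (mem_coe.1 hy')).1
      have h3 : y % m = y' % m := (ZMod.natCast_eq_natCast_iff' y y' m).1 hyy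
      rcases le_total y y' with h4 | h4
      · have h5 : (y' - y) % m = 0 := Nat.sub_mod_eq_zero_of_mod_eq h3.symm
        rw [Nat.mod_eq_of_lt (by omega)] at h5
        omega
      · have h5 : (y - y') % m = 0 := Nat.sub_mod_eq_zero_of_mod_eq h3
        rw [Nat.mod_eq_of_lt (by omega)] at h5
        omega
  exact_mod_cast this

theorem c_equi_lo {m u : ℕ} [NeZero m] {κ : ℝ} (h : (Nat.gcd u m : ℝ) / m ≤ κ) (v : ℕ) (c : ℝ)
    {r : ℝ} (hr : 0 ≤ r) (hr1 : r ≤ 1 / 2) :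
    (2 * r - 2 * κ) * m ≤
      (((Ioc v (v + m)).filter (fun y : ℕ => nd ((u : ℝ) / m * y - c) ≤ r)).card : ℝ) := by
  have h1 := c_equi_up h v (c + 1 / 2) (r := 1 / 2 - r) (by linarith)
  have h2 := card_filter_add_card_filter_not (s := Ioc v (v + m)) (fun y : ℕ => nd ((u : ℝ) / m * y - c) ≤ r)
  rw [Nat.card_Ioc] at h2
  have h3 : ((Ioc v (v + m)).filter (fun y : ℕ => ¬ nd ((u : ℝ) / m * y - c) ≤ r)).card ≤
      ((Ioc v (v + m)).filter (fun y : ℕ => nd ((u : ℝ) / m * y - (c + 1 / 2)) ≤ 1 / 2 - r)).card := by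
    refine card_le_card fun y hy => ?_
    rw [mem_filter] at hy ⊢
    refine ⟨hy.1, ?_⟩
    have h4 := nd_sub_half ((u : ℝ) / m * y - c)
    have h5 : (u : ℝ) / m * y - (c + 1 / 2) = (u : ℝ) / m * y - c - 1 / 2 := by ring
    rw [h5, h4]
    have := not_le.1 hy.2
    linarith
  have h6 : (((Ioc v (v + m)).filter (fun y : ℕ => nd ((u : ℝ) / m * y - c) ≤ r)).card : ℝ) +
      (((Ioc v (v + m)).filter (fun y : ℕ => ¬ nd ((u : ℝ) / m * y - c) ≤ r)).card : ℝ) = m := by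
    have : v + m - v = m := by omega
    rw [this] at h2
    exact_mod_cast h2
  have h7 : (((Ioc v (v + m)).filter (fun y : ℕ => ¬ nd ((u : ℝ) / m * y - c) ≤ r)).card : ℝ) ≤
      (((Ioc v (v + m)).filter (fun y : ℕ => nd ((u : ℝ) / m * y - (c + 1 / 2)) ≤ 1 / 2 - r)).card : ℝ) := by
    exact_mod_cast h3
  nlinarith

end SFP
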