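import Pool.Agent.SFP.ZDefs2

/-!
# Module ZCaseA (3): `0` cannot lie in the hull

Write `x = |X|/n`, `a = |A|/n`, `n = |G| > 0`. For `y ∈ A`: `0 ∉ A`, `-y ∈ A`, `φ (-y) = 1 - φ y` if `φ y ≠ 0`.

(S) Let `A₀⁺ = {y ∈ A : φ y ≤ p}`. Then `2 |A₀⁺| ≤ (p + κ) n`: if it is nonempty let `t` be an element with the largest `φ t ≤ p`; `y ↦ t - y` maps `A₀⁺` injectively to
`{φ ≤ φ t}` (`φ (t - y) = φ t - φ y`) and its values are not in `A` (`y + (t - y) = t ∈ A`), so `2 |A₀⁺| ≤ #{φ ≤ p} ≤ (p+κ) n`. `A₀⁻ = {y ∈ A : 1 - p ≤ φ y}`: `y ↦ -y` maps it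
injectively into `A₀⁺`. So `|A₀| ≤ (p + κ) n` for `A₀ = A₀⁺ ∪ A₀⁻`.

1. `y ∈ X`, `p < φ y ≤ L`: `φ (-y) = 1 - φ y ∈ [1 - L, 1 - p)`, `-y ∈ A`; by `a2`: `1 - φ y ≤ L` is impossible (`φ y ≤ L < 1/2`), `1 - p ≤ 1 - φ y` is impossible, so
`1 - φ y ≤ 1/2 + L`: `φ y ≥ 1/2 - L`. 
2. `L < 1/4`: then `1/2 - L > L`, so by 1. there is no such `y`; applied to `e` (`φ e = L`): `L ≤ p`, so `L = p`, and `X ⊆ A₀`: `x ≤ p + κ < 1/4 + κ < .252`. Contradiction.
3. `L ≥ 1/4`. `X ∪ (-X) ⊆ A` gives `|X ∩ -X| ≥ 2|X| - |A|`; `z ∈ X ∩ -X`: by `a1` for `z` and `-z`: `z ∈ A₀` (`φ z ≤ L`; if `φ z > p` then `φ (-z) = 1 - φ z` satisfies neither `≤ L` nor `≥ 1 - p`; similarly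
for `1 - p ≤ φ z` it is in `A₀⁻`; `φ z = 0` is in `A₀⁺`). So `2x - a ≤ p + κ`.
4. `X ⊆ A₀ ∪ {1/2 - L ≤ φ ≤ L}` by 1.: `x ≤ (p + κ) + (2L - 1/2 + κ)`.
5. `fold`: `L ≤ 1 + 3κ - x - a - p`. So `x ≤ p + 2κ - 1/2 + 2(1 + 3κ - x - a - p)`, `3x ≤ 3/2 - 2a - p + 8κ ≤ 3/2 - 2a - (2x - a - κ) + 8κ`, `5x ≤ 3/2 - a + 9κ ≤ 1.168`, `x ≤ .234`. Contradiction.
-/

namespace SFP

open Finset

open Classical in
theorem z_caseA_small {G : Type*} [AddCommGroup G] [Fintype G] {φ : G → ℝ} {κ : ℝ} {A : Finset G}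
    {p : ℝ} (h : Rot φ κ) (hs : SSF A) (p0 : 0 ≤ p) (p1 : p < 1 / 2) :
    ((A.filter (fun y => φ y ≤ p ∨ 1 - p ≤ φ y)).card : ℝ) ≤ (p + κ) * Fintype.card G := by
  set P : Finset G := A.filter (fun y => φ y ≤ p) with hP
  set M : Finset G := A.filter (fun y => 1 - p ≤ φ y) with hM
  have hMP : M.card ≤ P.card := by
    refine card_le_card_of_injOn (fun y => -y) ?_ (fun x _ y _ he => neg_injective he)
    intro y hy
    rw [mem_coe, hM, mem_filter] at hy
    rw [mem_coe, hP, mem_filter]
    refine ⟨hs.1 y hy.1, ?_⟩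
    rw [h.neg (by linarith [hy.2])]
    linarith [hy.2]
  have hPP : 2 * (P.card : ℝ) ≤ (p + κ) * Fintype.card G := by
    rcases P.eq_empty_or_nonempty with he | hne
    · rw [he]
      have := h.kappa_nonneg
      simp only [card_empty, Nat.cast_zero, mul_zero]
      positivity
    · obtain ⟨t, ht, htm⟩ := P.exists_max_image φ hne
      have htA : t ∈ A := by
        rw [hP, mem_filter] at ht
        exact ht.1
      have htp : φ t ≤ p := by
        rw [hP, mem_filter] at ht
        exact ht.2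
      have hd : Disjoint (P.image (fun y => t - y)) P := by
        rw [disjoint_left]
        intro x hx hx'
        rw [mem_image] at hx
        obtain ⟨y, hy, rfl⟩ := hx
        rw [hP, mem_filter] at hx' hy
        exact hs.2 (t - y) hx'.1 y hy.1 (by rw [sub_add_cancel]; exact htA)
      have hsub : P.image (fun y => t - y) ∪ P ⊆ univ.filter (fun x => (0 : ℝ) ≤ φ x ∧ φ x ≤ p) := by
        intro x hx
        rw [mem_filter]
        refine ⟨mem_univ _, h.nonneg x, ?_⟩
        rw [mem_union] at hx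
        rcases hx with hx | hx
        · rw [mem_image] at hx
          obtain ⟨y, hy, rfl⟩ := hx
          rw [h.sub_of_le (htm y hy)]
          have := h.nonneg y
          linarith
        · rw [hP, mem_filter] at hx
          exact hx.2
      have h1 := card_le_card hsub
      rw [card_union_of_disjoint hd, card_image_of_injective _ (sub_right_injective)] at h1
      have h2 := h.up 0 p p0
      have h3 : (P.card : ℝ) + P.card ≤
          ((univ.filter (fun x => (0 : ℝ) ≤ φ x ∧ φ x ≤ p)).card : ℝ) := by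
        exact_mod_cast h1
      have e : (p - 0 + κ) * (Fintype.card G : ℝ) = (p + κ) * Fintype.card G := by ring
      rw [e] at h2
      linarith
  have hU : (A.filter (fun y => φ y ≤ p ∨ 1 - p ≤ φ y)).card ≤ P.card + M.card := by
    rw [filter_or]
    exact card_union_le _ _
  have hU' : ((A.filter (fun y => φ y ≤ p ∨ 1 - p ≤ φ y)).card : ℝ) ≤ P.card + M.card := by
    exact_mod_cast hU
  have hMP' : (M.card : ℝ) ≤ P.card := by exact_mod_cast hMP
  linarith

open Classical in
theorem z_caseA {G : Type*} [AddCommGroup G] [Fintype G] {φ : G → ℝ} {κ : ℝ} {A X : Finset G}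
    {p L : ℝ} (h : CA φ κ A X p L) : False := by
  have hn0 : (0 : ℝ) < Fintype.card G := by
    have := Fintype.card_pos (α := G)
    exact_mod_cast this
  have hS := z_caseA_small h.rot h.ssf h.p0 (by linarith [h.pL, h.lam] : p < 1 / 2)
  have hfold := h.fold
  have hbig := h.big
  have hdens := h.dens
  have hkap := h.kap
  have hκ := h.rot.kappa_nonneg
  have hp0 := h.p0
  have hpL := h.pL
  have hlam := h.lam
  set n : ℝ := (Fintype.card G : ℝ) with hn
  set A0 : Finset G := A.filter (fun y => φ y ≤ p ∨ 1 - p ≤ φ y) with hA0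
  have step1 : ∀ y ∈ X, p < φ y → φ y ≤ L → 1 / 2 - L ≤ φ y := by
    intro y hy h1 h2
    have h3 : φ (-y) = 1 - φ y := h.rot.neg (by linarith)
    have h4 := h.a2 (-y) (h.ssf.1 y (h.sub hy))
    rw [h3] at h4
    rcases h4 with h4 | h4 | ⟨h4, h5⟩
    · linarith
    · linarith
    · linarith
  have hκn : κ * n ≤ 1 / 10 ^ 4 * n := mul_le_mul_of_nonneg_right hkap hn0.le
  by_cases hL : L < 1 / 4
  · obtain ⟨e, he, heL⟩ := h.a3
    have hLp : L ≤ p := by
      by_contra hc
      push Not at hc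
      have := step1 e he (by linarith) (by linarith)
      linarith
    have hX : X ⊆ A0 := by
      intro y hy
      rw [hA0, mem_filter]
      refine ⟨h.sub hy, ?_⟩
      rcases h.a1 y hy with h1 | h1
      · left
        linarith
      · right
        exact h1
    have h1 : (X.card : ℝ) ≤ A0.card := by exact_mod_cast card_le_card hX
    have h2 : (p + κ) * n ≤ (1 / 4 + 1 / 10 ^ 4) * n := by
      apply mul_le_mul_of_nonneg_right _ hn0.le
      linarith
    have h3 : (1 / 4 + 1 / 10 ^ 4) * n < 252 / 1000 * n := by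
      apply mul_lt_mul_of_pos_right _ hn0
      norm_num
    linarith
  · push Not at hL
    set Xm : Finset G := X.image (fun y => -y) with hXm
    have hXmc : Xm.card = X.card := card_image_of_injective _ neg_injective
    have hXmA : X ∪ Xm ⊆ A := by
      apply union_subset h.sub
      intro x hx
      rw [hXm, mem_image] at hx
      obtain ⟨y, hy, rfl⟩ := hx
      exact h.ssf.1 y (h.sub hy)
    have hcapA0 : X ∩ Xm ⊆ A0 := by
      intro z hz
      rw [mem_inter, hXm, mem_image] at hz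
      obtain ⟨hz1, w, hw, hwz⟩ := hz
      rw [hA0, mem_filter]
      refine ⟨h.sub hz1, ?_⟩
      rcases h.a1 z hz1 with h1 | h1
      · by_cases h2 : φ z ≤ p
        · left
          exact h2
        · exfalso
          push Not at h2
          have h3 : φ (-z) = 1 - φ z := h.rot.neg (by linarith)
          have h4 : -z = w := by rw [← hwz, neg_neg]
          rw [h4] at h3
          rcases h.a1 w hw with h5 | h5
          · linarith
          · linarith
      · right
        exact h1
    have hcard := card_union_add_card_inter X Xm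
    have h1 : (X ∪ Xm).card ≤ A.card := card_le_card hXmA
    have h2 : (X ∩ Xm).card ≤ A0.card := card_le_card hcapA0
    have h3 : 2 * X.card ≤ A.card + A0.card := by omega
    have h3' : 2 * (X.card : ℝ) ≤ A.card + A0.card := by exact_mod_cast h3
    have h4 : X ⊆ A0 ∪ univ.filter (fun x => 1 / 2 - L ≤ φ x ∧ φ x ≤ L) := by
      intro y hy
      rw [mem_union]
      rcases h.a1 y hy with h5 | h5
      · by_cases h6 : φ y ≤ p
        · left
          rw [hA0, mem_filter]
          exact ⟨h.sub hy, Or.inl h6⟩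
        · right
          push Not at h6
          rw [mem_filter]
          exact ⟨mem_univ _, step1 y hy h6 h5, h5⟩
      · left
        rw [hA0, mem_filter]
        exact ⟨h.sub hy, Or.inr h5⟩
    have h5 : X.card ≤ A0.card + (univ.filter (fun x => 1 / 2 - L ≤ φ x ∧ φ x ≤ L)).card :=
      (card_le_card h4).trans (card_union_le _ _)
    have h5' : (X.card : ℝ) ≤ A0.card + ((univ.filter (fun x => 1 / 2 - L ≤ φ x ∧ φ x ≤ L)).card : ℝ) := by
      exact_mod_cast h5
    have h6 := h.rot.up (1 / 2 - L) L (by linarith)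
    have e1 : (L - (1 / 2 - L) + κ) * (Fintype.card G : ℝ) = 2 * (L * n) - n / 2 + κ * n := by
      rw [← hn]; ring
    have e2 : (p + κ) * n = p * n + κ * n := by ring
    have e3 : (p + L) * n = p * n + L * n := by ring
    have e4 : (1 + 3 * κ) * n = n + 3 * (κ * n) := by ring
    have e5 : (1 / 3 - 1 / 10 ^ 4) * n = n / 3 - 1 / 10 ^ 4 * n := by ring
    rw [e1] at h6
    rw [e2] at hS
    rw [e3, e4] at hfold
    rw [e5] at hdens
    linarith

end SFP
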