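import Pool.Agent.SFP.ZTwo

/-!
# Module ZCaseB1 (3): no element of `A` near `0`

`x = |X|/n`, `a = |A|/n`, `λ = p + L`, `n = |G|`. Note `a ≤ ..` is not needed from above. `y ∈ A ⟹ -y ∈ A`, `0 ∉ A`, and `t ∈ A ⟹ (y ∈ A ⟹ y + t ∉ A)`.
Facts (from `b2` for `y` and `-y`, `φ (-y) = 1 - φ y` if `φ y ≠ 0`):
(F1) `y ∈ A`, `p < φ y ≤ L` ⟹ `φ y ≥ 1/2 - L` (`φ (-y) = 1 - φ y ∈ [1 - L, 1 - p)` must be `≤ 1/2 + L`).
(F2) `y ∈ A`, `1/2 + p < φ y ≤ 1/2 + L` ⟹ `φ y ≥ 1 - L` (`1 - φ y ∈ [1/2 - L, 1/2 - p)`, so `≤ L`); so if `L < 1/4` there is none and (by `b3`) `L = p` (`e` has `φ e = 1/2 + L`).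
`M = {y ∈ A : 1/2 - p ≤ φ y ≤ 1/2 + p} ⊆ X`, `n_m = |M|/n`.

Suppose `t ∈ A`, `τ = φ t ≤ p`. (So `τ ≤ p < 1/4`, all translates below have no wrap around.)
(i) `z_two3` for `X`: `2x ≤ λ + τ + κ` (`1/2 + L + τ ≤ 1/2 + λ < 1`).
(ii) `n_m ≤ (τ + κ) + (2p - 2τ + κ) = 2p - τ + 2κ`: `z_two1` with `α = 1/2 - p` and `up` for the rest `[1/2 - p + 2τ, 1/2 + p]`.
Case `L ≥ 1/4`: by (F2) `X ⊆ M ∪ {1 - L ≤ φ ≤ 1/2 + L}`, so `x ≤ n_m + 2L - 1/2 + κ ≤ 2λ - 1/2 - τ + 3κ`; with `τ ≥ 2x - λ - κ`: `3x ≤ 3λ - 1/2 + 4κ`; `λ ≤ 1 + 3κ - x - a`: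
`6x ≤ 5/2 - 3a + 13κ ≤ 1.5016`, `x ≤ .2503 < .252`. Contradiction.
Case `L < 1/4`: `L = p`, `λ = 2p`, `X = M` (`b1`). Apply the following to EVERY `t ∈ A` with `τ = φ t ≤ p`:
 (iii) if `τ ≥ p/2`: `x ≤ 2τ + 2κ`: `z_two1` for `[1/2-p, 1/2-p+2τ)`, `z_two4` with `α = 1/2 - p + 2τ`, `β = 1/2 + p ≤ α + 2τ` for the rest (if `τ = p` the rest is the end point: `up`).
 (iv) if `τ < p/2`: if `τ ≤ 2p/5`: `x ≤ p + τ/2 + κ ≤ 1.2p + κ` (`z_two2`). If `2p/5 ≤ τ < p/2`: `x ≤ 2(τ + κ) + (2p - 4τ + κ) = 2p - 2τ + 3κ ≤ 1.2 p + 3κ` (`z_two1` twice, `1/2-p+4τ ≤ 1/2+p`). In both cases, as `2p ≤ 1 + 3κ - x - a`: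
 `x ≤ .6 (1 + 3κ - x - a) + 3κ`, `1.6 x ≤ .6 - .6a + 4.8κ ≤ .4006`, `x ≤ .2504`. Contradiction. So `τ ≥ p/2`.
 So every `t ∈ A` with `φ t ≤ p` has `x/2 - κ ≤ φ t ≤ 2p - x + 2κ` ((iii), (ii)); as there is one, the number of them is `≤ (2p - 1.5x + 4.5κ) n` (`up`). `A = X ∪ {φ ≤ p} ∪ {φ ≥ 1 - p}` (by `b2`, `L = p`) and `y ↦ -y` maps the third set
 injectively into the second: `a ≤ x + 2(2p - 1.5x + 4.5κ)`, `a + 2x ≤ 4p + 9κ ≤ 2(1 + 3κ - x - a) + 9κ`, `4x ≤ 2 - 3a + 15κ ≤ 1.0018`, `x ≤ .2505`. Contradiction.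
-/

namespace SFP

open Finset

section aux

variable {G : Type*} [AddCommGroup G] [Fintype G] {φ : G → ℝ} {κ : ℝ} {A X : Finset G} {p L : ℝ}

/-- (F2) -/
theorem ZCaseB1_F2 (h : CB φ κ A X p L) {y : G} (hy : y ∈ A) (h1 : 1 / 2 + p < φ y)
    (h2 : φ y ≤ 1 / 2 + L) : 1 - L ≤ φ y := by
  have hp0 := h.p0
  have hne : φ y ≠ 0 := by
    intro h0
    rw [h0] at h1
    linarith
  have h3 := h.rot.neg hne
  have h4 := h.ssf.1 y hy
  rcases h.b2 _ h4 with h5 | h5 | h5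
  · rw [h3] at h5; linarith [h5.1]
  · rw [h3] at h5; linarith
  · rw [h3] at h5; linarith

omit [AddCommGroup G] [Fintype G] in
theorem ZCaseB1_two {Y F₁ F₂ : Finset G} {a b : ℝ} (hY : ∀ y ∈ Y, y ∈ F₁ ∨ y ∈ F₂)
    (h1 : (F₁.card : ℝ) ≤ a) (h2 : (F₂.card : ℝ) ≤ b) : (Y.card : ℝ) ≤ a + b := by
  classical
  have h3 : Y ⊆ F₁ ∪ F₂ := fun y hy => mem_union.2 (hY y hy)
  have h4 : Y.card ≤ F₁.card + F₂.card := (card_le_card h3).trans (card_union_le _ _)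
  have h5 : (Y.card : ℝ) ≤ F₁.card + F₂.card := by exact_mod_cast h4
  linarith

/-- (ii) -/
theorem ZCaseB1_ii (h : CB φ κ A X p L) {t : G} (ht : t ∈ A) (hτ : φ t ≤ p) {M : Finset G}
    (hMA : M ⊆ A) (hM : ∀ y ∈ M, 1 / 2 - p ≤ φ y ∧ φ y ≤ 1 / 2 + p) :
    (M.card : ℝ) ≤ (2 * p - φ t + 2 * κ) * Fintype.card G := by
  have hp0 := h.p0
  have hlam := h.lam
  have hpL := h.pL
  have hMt : ∀ y ∈ M, y + t ∉ M := fun y hy hyt => h.ssf.2 y (hMA hy) t ht (hMA hyt)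
  have e1 := z_two1 h.rot M hMt (α := 1 / 2 - p) (by linarith) (by linarith)
  have e2 := h.rot.up (1 / 2 - p + 2 * φ t) (1 / 2 + p) (by linarith)
  have e3 := ZCaseB1_two (Y := M) (fun y hy => by
    by_cases hc : φ y < 1 / 2 - p + 2 * φ t
    · left
      exact mem_filter.2 ⟨hy, (hM y hy).1, hc⟩
    · right
      exact mem_filter.2 ⟨mem_univ _, not_lt.1 hc, (hM y hy).2⟩) e1 e2
  refine e3.trans (le_of_eq ?_)
  ring

theorem ZCaseB1_iii (h : CB φ κ A X p L) (hM : ∀ y ∈ X, 1 / 2 - p ≤ φ y ∧ φ y ≤ 1 / 2 + p)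
    {t : G} (ht : t ∈ A) (hτ : φ t ≤ p) (hτ2 : p ≤ 2 * φ t) :
    (X.card : ℝ) ≤ (2 * φ t + 2 * κ) * Fintype.card G := by
  have hp0 := h.p0
  have hlam := h.lam
  have hpL := h.pL
  have hMt : ∀ y ∈ X, y + t ∉ X := fun y hy hyt => h.ssf.2 y (h.sub hy) t ht (h.sub hyt)
  have e1 := z_two1 h.rot X hMt (α := 1 / 2 - p) (by linarith) (by linarith)
  have e2 := z_two4 h.rot X hMt (α := 1 / 2 - p + 2 * φ t) (β := 1 / 2 + p) (by linarith)
    (by linarith) (by linarith) (by linarith)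
  have e3 := ZCaseB1_two (Y := X) (fun y hy => by
    by_cases hc : φ y < 1 / 2 - p + 2 * φ t
    · left
      exact mem_filter.2 ⟨hy, (hM y hy).1, hc⟩
    · right
      exact mem_filter.2 ⟨hy, not_lt.1 hc, (hM y hy).2⟩) e1 e2
  refine e3.trans (le_of_eq ?_)
  ring

theorem ZCaseB1_iv (h : CB φ κ A X p L) (hM : ∀ y ∈ X, 1 / 2 - p ≤ φ y ∧ φ y ≤ 1 / 2 + p)
    {t : G} (ht : t ∈ A) (hτ2 : 2 * φ t < p) :
    (X.card : ℝ) ≤ (6 / 5 * p + 3 * κ) * Fintype.card G := by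
  have hp0 := h.p0
  have hlam := h.lam
  have hpL := h.pL
  have hτ0 := h.rot.nonneg t
  have hκ := h.rot.kappa_nonneg
  have hN : (0 : ℝ) ≤ Fintype.card G := Nat.cast_nonneg _
  have hMt : ∀ y ∈ X, y + t ∉ X := fun y hy hyt => h.ssf.2 y (h.sub hy) t ht (h.sub hyt)
  by_cases hc : 5 * φ t ≤ 2 * p
  · have e1 := z_two2 h.rot X hMt (α := 1 / 2 - p) (β := 1 / 2 + p) (by linarith) (by linarith)
      (by linarith) hM
    have e2 : (1 / 2 + p - (1 / 2 - p) + φ t + 2 * κ) * (Fintype.card G : ℝ) ≤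
        2 * ((6 / 5 * p + 3 * κ) * Fintype.card G) := by
      have e3 : 1 / 2 + p - (1 / 2 - p) + φ t + 2 * κ ≤ 2 * (6 / 5 * p + 3 * κ) := by linarith
      have := mul_le_mul_of_nonneg_right e3 hN
      linarith
    linarith
  · rw [not_le] at hc
    have e1 := z_two1 h.rot X hMt (α := 1 / 2 - p) (by linarith) (by linarith)
    have e2 := z_two1 h.rot X hMt (α := 1 / 2 - p + 2 * φ t) (by linarith) (by linarith)
    have e3 := h.rot.up (1 / 2 - p + 4 * φ t) (1 / 2 + p) (by linarith)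
    have e4 := ZCaseB1_two (Y := X.filter (fun y => 1 / 2 - p + 2 * φ t ≤ φ y)) (fun y hy => by
      rw [mem_filter] at hy
      by_cases hc : φ y < 1 / 2 - p + 2 * φ t + 2 * φ t
      · left
        exact mem_filter.2 ⟨hy.1, hy.2, hc⟩
      · right
        exact mem_filter.2 ⟨mem_univ _, by linarith [not_lt.1 hc], (hM y hy.1).2⟩) e2 e3
    have e5 := ZCaseB1_two (Y := X) (fun y hy => by
      by_cases hc : φ y < 1 / 2 - p + 2 * φ t
      · left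
        exact mem_filter.2 ⟨hy, (hM y hy).1, hc⟩
      · right
        exact mem_filter.2 ⟨hy, not_lt.1 hc⟩) e1 e4
    refine e5.trans ?_
    have e6 : φ t + κ + (φ t + κ + (1 / 2 + p - (1 / 2 - p + 4 * φ t) + κ)) ≤
        6 / 5 * p + 3 * κ := by linarith
    have := mul_le_mul_of_nonneg_right e6 hN
    linarith

end aux

theorem z_caseB1 {G : Type*} [AddCommGroup G] [Fintype G] {φ : G → ℝ} {κ : ℝ} {A X : Finset G}
    {p L : ℝ} (h : CB φ κ A X p L) : ∀ t ∈ A, p < φ t := by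
  classical
  intro t ht
  by_contra hcon
  have hτ : φ t ≤ p := not_lt.1 hcon
  have hp0 := h.p0
  have hlam := h.lam
  have hpL := h.pL
  have hτ0 := h.rot.nonneg t
  have hκ := h.rot.kappa_nonneg
  have hfold := h.fold
  have hbig := h.big
  have hdens := h.dens
  have hkap := h.kap
  have hN : (0 : ℝ) < Fintype.card G := by
    have : 0 < Fintype.card G := Fintype.card_pos
    exact_mod_cast this
  have hκN : κ * (Fintype.card G : ℝ) ≤ 1 / 10 ^ 4 * Fintype.card G :=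
    mul_le_mul_of_nonneg_right hkap hN.le
  have hMt : ∀ y ∈ X, y + t ∉ X := fun y hy hyt => h.ssf.2 y (h.sub hy) t ht (h.sub hyt)
  have hi := z_two3 h.rot X hMt (α := 1 / 2 - p) (β := 1 / 2 + L) (by linarith) (by linarith)
    (by linarith) h.b1
  by_cases hL : 1 / 4 ≤ L
  · have e1 := ZCaseB1_ii h ht hτ (M := X.filter (fun y => φ y ≤ 1 / 2 + p))
      (fun y hy => h.sub (mem_filter.1 hy).1)
      (fun y hy => ⟨(h.b1 y (mem_filter.1 hy).1).1, (mem_filter.1 hy).2⟩)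
    have e2 := h.rot.up (1 - L) (1 / 2 + L) (by linarith)
    have e3 := ZCaseB1_two (Y := X) (fun y hy => by
      by_cases hc : φ y ≤ 1 / 2 + p
      · left
        exact mem_filter.2 ⟨hy, hc⟩
      · right
        exact mem_filter.2 ⟨mem_univ _,
          ZCaseB1_F2 h (h.sub hy) (not_le.1 hc) (h.b1 y hy).2, (h.b1 y hy).2⟩) e1 e2
    nlinarith
  · rw [not_le] at hL
    have hLp : L = p := by
      obtain ⟨e, he, hφe⟩ := h.b3
      by_contra hne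
      have h1 : p < L := lt_of_le_of_ne hpL (Ne.symm hne)
      have h2 := ZCaseB1_F2 h (h.sub he) (by rw [hφe]; linarith) (by rw [hφe])
      rw [hφe] at h2
      linarith
    have hM : ∀ y ∈ X, 1 / 2 - p ≤ φ y ∧ φ y ≤ 1 / 2 + p := by
      intro y hy
      have := h.b1 y hy
      rw [hLp] at this
      exact this
    rw [hLp] at hfold hi
    have hhalf : ∀ t' ∈ A, φ t' ≤ p → p ≤ 2 * φ t' := by
      intro t' ht' hτ'
      by_contra hc
      have e1 := ZCaseB1_iv h hM ht' (not_le.1 hc)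
      nlinarith
    have hlow : ∀ t' ∈ A, φ t' ≤ p → (X.card : ℝ) / (2 * Fintype.card G) - κ ≤ φ t' := by
      intro t' ht' hτ'
      have e1 := ZCaseB1_iii h hM ht' hτ' (hhalf t' ht' hτ')
      rw [sub_le_iff_le_add, div_le_iff₀ (by positivity)]
      linarith
    have hupp : ∀ t' ∈ A, φ t' ≤ p → φ t' ≤ 2 * p + 2 * κ - (X.card : ℝ) / Fintype.card G := by
      intro t' ht' hτ'
      have e1 := ZCaseB1_ii h ht' hτ' (M := X) h.sub hM
      rw [le_sub_iff_add_le, ← le_sub_iff_add_le', div_le_iff₀ hN]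
      linarith
    have hS := h.rot.up _ _ ((hlow t ht hτ).trans (hupp t ht hτ))
    have hS' : ((A.filter (fun y => φ y ≤ p)).card : ℝ) ≤
        (2 * p + 4 * κ) * Fintype.card G - 3 / 2 * X.card := by
      have e1 : A.filter (fun y => φ y ≤ p) ⊆ univ.filter (fun x =>
          (X.card : ℝ) / (2 * Fintype.card G) - κ ≤ φ x ∧
          φ x ≤ 2 * p + 2 * κ - (X.card : ℝ) / Fintype.card G) := by
        intro y hy
        rw [mem_filter] at hy
        exact mem_filter.2 ⟨mem_univ _, hlow y hy.1 hy.2, hupp y hy.1 hy.2⟩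
      have e2 : ((A.filter (fun y => φ y ≤ p)).card : ℝ) ≤ ((univ.filter (fun x =>
          (X.card : ℝ) / (2 * Fintype.card G) - κ ≤ φ x ∧
          φ x ≤ 2 * p + 2 * κ - (X.card : ℝ) / Fintype.card G)).card : ℝ) := by
        exact_mod_cast card_le_card e1
      refine e2.trans (hS.trans (le_of_eq ?_))
      field_simp
      ring
    have hT' : (A.filter (fun y => 1 - p ≤ φ y)).card ≤ (A.filter (fun y => φ y ≤ p)).card := by
      refine card_le_card_of_injOn (fun y => -y) ?_ (fun y _ y' _ he => neg_injective he)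
      intro y hy
      have hy' := mem_filter.1 (mem_coe.1 hy)
      have hne : φ y ≠ 0 := by
        intro h0
        have := hy'.2
        rw [h0] at this
        linarith
      rw [mem_coe, mem_filter, h.rot.neg hne]
      exact ⟨h.ssf.1 y hy'.1, by linarith [hy'.2]⟩
    have hT : ((A.filter (fun y => 1 - p ≤ φ y)).card : ℝ) ≤
        (2 * p + 4 * κ) * Fintype.card G - 3 / 2 * X.card :=
      le_trans (by exact_mod_cast hT') hS'
    have e4 := ZCaseB1_two (Y := A.filter (fun y => y ∉ X)) (fun y hy => by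
      rw [mem_filter] at hy
      rcases h.b2 y hy.1 with h5 | h5 | h5
      · exact absurd (h.b2' y hy.1 h5.1 h5.2) hy.2
      · left
        rw [hLp] at h5
        exact mem_filter.2 ⟨hy.1, h5⟩
      · right
        exact mem_filter.2 ⟨hy.1, h5⟩) hS' hT
    have e5 := ZCaseB1_two (Y := A) (F₁ := X) (fun y hy => by
      by_cases hc : y ∈ X
      · exact Or.inl hc
      · exact Or.inr (mem_filter.2 ⟨hy, hc⟩)) le_rfl e4
    nlinarith

end SFP
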