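import Pool.Agent.SFP.ZDefs2

/-!
# Module ZCaseB2 (3): the side pieces

`x = |X|/n`, `a = |A|/n`, `λ = p + L`, `n = |G|`; hypothesis `hB1`: no `t ∈ A` has `φ t ≤ p` (so none has `φ t ≥ 1 - p` or `φ t = 0`, by `t ↦ -t`).
Suppose `L ≥ 1/4`. As `λ < 1/2`, `p < 1/4 ≤ L`.
`M = {y ∈ A : 1/2 - p ≤ φ y ≤ 1/2 + p}`, `Y = {y ∈ A : 1/2 - L ≤ φ y ≤ L}`, `-Y = {y ∈ A : 1 - L ≤ φ y ≤ 1/2 + L}`. By `b2` for `y` and `-y`:
`A = M ∪ Y ∪ -Y`, `X = M ∪ -Y`, pairwise disjoint (`L < 1/2 - p`, `1 - L > 1/2 + p`). (`y ∈ A`, `φ y ≤ L`: then `φ y > p`, `φ (-y) = 1 - φ y`, must satisfy `1 - φ y ≤ 1/2 + L`. `1/2 + p < φ y ≤ 1/2 + L`: `1 - φ y` must be `≤ L`.)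
So `n_s = |Y|/n = a - x`, `n_m = |M|/n = 2x - a`. `Y ≠ ∅` (`e`: `φ e = 1/2 + L > 1/2 + p`, so `e ∈ -Y`).
`Y + Y` avoids `A`; with `y₀, y₁ ∈ Y` of least and largest `φ`: `Y + y₀` and `Y + y₁` lie in `{φ ≤ φ y₀ + φ y₁}` and `{φ ≥ φ y₀ + φ y₁}` (no wrap around, `2L < 1`), so `|Y+Y| ≥ 2|Y| - κ n`, all in `[1 - 2L, 2L]`.
`M` lies in `[1/2 - p, 1/2 + p]` and is disjoint from `Y + Y`. With `w = max p (2L - 1/2)`: `2 n_s - κ + n_m ≤ 2w + κ`, i.e. `a ≤ 2w + 2κ`.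
Also `2x - a = n_m ≤ 2p + κ`, `a - x = n_s ≤ 2L - 1/2 + κ`, `fold`: `p + L + x + a ≤ 1 + 3κ`. Put `ta = L - 1/4`.
`w = p`: `p ≥ a/2 - κ`, `ta ≥ (a-x)/2 - κ/2`, `p + ta ≤ 3/4 + 3κ - x - a`: `x/2 ≤ 3/4 - 2a + 4.5κ ≤ .0843`, `x < .17`. Contradiction.
`w = 2 ta`: `ta ≥ a/4 - κ/2`, `p ≥ x - a/2 - κ/2`: `2x ≤ 3/4 - 3a/4 + 4κ ≤ .5005`, `x ≤ .2503`. Contradiction.
Second theorem: `L < 1/4`: then `L = p` (`e`: if `p < L` then `φ e = 1/2 + L ∈ (1/2 + p, 1/2 + L]`, `φ (-e) = 1/2 - L` must be `≤ L` by `b2` (it is `< 1/2 - p`, `< 1 - p`), so `L ≥ 1/4`), so all `y ∈ A` satisfy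
`1/2 - p ≤ φ y ≤ 1/2 + p` (`b2`: `φ y ≤ L = p` excluded by `hB1`, `1 - p ≤ φ y` by `hB1` for `-y`), `A = X` (`b2'`), `fold`: `2p + 2a ≤ 1 + 3κ`: `1/2 - p ≥ a - 1.5κ`.
-/

namespace SFP

open Finset

section aux

variable {G : Type*} [AddCommGroup G] [Fintype G] {φ : G → ℝ} {κ : ℝ} {A X : Finset G} {p L : ℝ}

theorem ZCaseB2_neg (h : CB φ κ A X p L) (hB1 : ∀ t ∈ A, p < φ t) {y : G} (hy : y ∈ A) :
    -y ∈ A ∧ φ (-y) = 1 - φ y ∧ φ y < 1 - p := by
  have h1 := hB1 y hy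
  have h2 := h.p0
  have h3 : φ y ≠ 0 := by
    intro h0
    rw [h0] at h1
    linarith
  have h4 := h.rot.neg h3
  have h5 := h.ssf.1 y hy
  refine ⟨h5, h4, ?_⟩
  have h6 := hB1 _ h5
  rw [h4] at h6
  linarith

/-- sum of two translates -/
theorem ZCaseB2_sum (h : Rot φ κ) {Y : Finset G} (hY : Y.Nonempty) {c d : ℝ}
    (hc : ∀ y ∈ Y, c ≤ φ y ∧ φ y ≤ d) (hd : d < 1 / 2) :
    ∃ U : Finset G, (∀ z ∈ U, ∃ y ∈ Y, ∃ y' ∈ Y, z = y + y') ∧
      2 * (Y.card : ℝ) - κ * Fintype.card G ≤ (U.card : ℝ) ∧ ∀ z ∈ U, 2 * c ≤ φ z ∧ φ z ≤ 2 * d := by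
  classical
  obtain ⟨y₀, hy₀, hmin⟩ := exists_min_image Y φ hY
  obtain ⟨y₁, hy₁, hmax⟩ := exists_max_image Y φ hY
  have hadd : ∀ y ∈ Y, ∀ y' ∈ Y, φ (y + y') = φ y + φ y' := by
    intro y hy y' hy'
    exact h.add_of_lt (by linarith [(hc y hy).2, (hc y' hy').2])
  refine ⟨Y.image (fun y => y + y₀) ∪ Y.image (fun y => y + y₁), ?_, ?_, ?_⟩
  · intro z hz
    rw [mem_union, mem_image, mem_image] at hz
    rcases hz with ⟨y, hy, rfl⟩ | ⟨y, hy, rfl⟩
    · exact ⟨y, hy, y₀, hy₀, rfl⟩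
    · exact ⟨y, hy, y₁, hy₁, rfl⟩
  · have h1 := card_union_add_card_inter (Y.image (fun y => y + y₀)) (Y.image (fun y => y + y₁))
    rw [card_image_of_injective _ (add_left_injective y₀),
      card_image_of_injective _ (add_left_injective y₁)] at h1
    have h2 : (Y.image (fun y => y + y₀)) ∩ (Y.image (fun y => y + y₁)) ⊆
        univ.filter (fun x => φ y₀ + φ y₁ ≤ φ x ∧ φ x ≤ φ y₀ + φ y₁) := by
      intro z hz
      rw [mem_inter, mem_image, mem_image] at hz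
      obtain ⟨⟨y, hy, h3⟩, ⟨y', hy', h4⟩⟩ := hz
      rw [mem_filter]
      refine ⟨mem_univ _, ?_, ?_⟩
      · rw [← h4, hadd y' hy' y₁ hy₁]
        linarith [hmin y' hy']
      · rw [← h3, hadd y hy y₀ hy₀]
        linarith [hmax y hy]
    have h3 := h.up (φ y₀ + φ y₁) (φ y₀ + φ y₁) le_rfl
    rw [sub_self, zero_add] at h3
    have h4 : (((Y.image (fun y => y + y₀)) ∩ (Y.image (fun y => y + y₁))).card : ℝ) ≤
        κ * Fintype.card G := (Nat.cast_le.2 (card_le_card h2)).trans h3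
    have h5 : (((Y.image (fun y => y + y₀)) ∪ (Y.image (fun y => y + y₁))).card : ℝ) +
        (((Y.image (fun y => y + y₀)) ∩ (Y.image (fun y => y + y₁))).card : ℝ) =
        (Y.card : ℝ) + Y.card := by exact_mod_cast h1
    linarith
  · intro z hz
    rw [mem_union, mem_image, mem_image] at hz
    rcases hz with ⟨y, hy, rfl⟩ | ⟨y, hy, rfl⟩
    · rw [hadd y hy y₀ hy₀]
      constructor
      · linarith [(hc y hy).1, (hc y₀ hy₀).1]
      · linarith [(hc y hy).2, (hc y₀ hy₀).2]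
    · rw [hadd y hy y₁ hy₁]
      constructor
      · linarith [(hc y hy).1, (hc y₁ hy₁).1]
      · linarith [(hc y hy).2, (hc y₁ hy₁).2]

end aux

theorem z_caseB2 {G : Type*} [AddCommGroup G] [Fintype G] {φ : G → ℝ} {κ : ℝ} {A X : Finset G}
    {p L : ℝ} (h : CB φ κ A X p L) (hB1 : ∀ t ∈ A, p < φ t) : L < 1 / 4 := by
  classical
  by_contra hL
  rw [not_lt] at hL
  have hp0 := h.p0
  have hlam := h.lam
  have hpL := h.pL
  have hp4 : p < 1 / 4 := by linarith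
  have hL2 : L < 1 / 2 := by linarith
  obtain ⟨M, hM⟩ : ∃ M, M = A.filter (fun y => 1 / 2 - p ≤ φ y ∧ φ y ≤ 1 / 2 + p) := ⟨_, rfl⟩
  obtain ⟨Y, hY⟩ : ∃ Y, Y = A.filter (fun y => φ y ≤ L) := ⟨_, rfl⟩
  obtain ⟨Z, hZ⟩ : ∃ Z, Z = A.filter (fun y => 1 - L ≤ φ y) := ⟨_, rfl⟩
  have hb2 : ∀ y ∈ A, (1 / 2 - p ≤ φ y ∧ φ y ≤ 1 / 2 + L) ∨ φ y ≤ L := by
    intro y hy
    rcases h.b2 y hy with h1 | h1 | h1
    · exact Or.inl h1
    · exact Or.inr h1
    · have := (ZCaseB2_neg h hB1 hy).2.2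
      linarith
  have hYlow : ∀ y ∈ A, φ y ≤ L → 1 / 2 - L ≤ φ y := by
    intro y hy h1
    obtain ⟨h2, h3, -⟩ := ZCaseB2_neg h hB1 hy
    rcases hb2 _ h2 with h4 | h4
    · rw [h3] at h4
      linarith [h4.2]
    · rw [h3] at h4
      linarith
  have hZhigh : ∀ y ∈ A, 1 - L ≤ φ y → φ y ≤ 1 / 2 + L := by
    intro y hy h1
    rcases hb2 y hy with h2 | h2
    · exact h2.2
    · linarith
  have hgap : ∀ y ∈ A, 1 / 2 + p < φ y → 1 - L ≤ φ y := by
    intro y hy h1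
    obtain ⟨h2, h3, -⟩ := ZCaseB2_neg h hB1 hy
    rcases hb2 _ h2 with h4 | h4
    · rw [h3] at h4
      linarith [h4.1]
    · rw [h3] at h4
      linarith
  -- cardinalities
  have hZY : Z.card = Y.card := by
    refine card_bij (fun y _ => -y) ?_ ?_ ?_
    · intro y hy
      rw [hZ, mem_filter] at hy
      obtain ⟨h2, h3, -⟩ := ZCaseB2_neg h hB1 hy.1
      rw [hY, mem_filter, h3]
      exact ⟨h2, by linarith [hy.2]⟩
    · intro y _ y' _ he
      exact neg_injective he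
    · intro y hy
      rw [hY, mem_filter] at hy
      obtain ⟨h2, h3, -⟩ := ZCaseB2_neg h hB1 hy.1
      refine ⟨-y, ?_, neg_neg y⟩
      rw [hZ, mem_filter, h3]
      exact ⟨h2, by linarith [hy.2]⟩
  have hXe : X = M ∪ Z := by
    ext y
    rw [mem_union, hM, hZ, mem_filter, mem_filter]
    constructor
    · intro hy
      have h1 := h.sub hy
      have h2 := h.b1 y hy
      rcases le_or_gt (φ y) (1 / 2 + p) with h3 | h3
      · exact Or.inl ⟨h1, h2.1, h3⟩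
      · exact Or.inr ⟨h1, hgap y h1 h3⟩
    · rintro (⟨h1, h2, h3⟩ | ⟨h1, h2⟩)
      · exact h.b2' y h1 h2 (by linarith)
      · exact h.b2' y h1 (by linarith) (hZhigh y h1 h2)
  have hdMZ : Disjoint M Z := by
    rw [disjoint_left]
    intro y h1 h2
    rw [hM, mem_filter] at h1
    rw [hZ, mem_filter] at h2
    linarith [h1.2.2, h2.2]
  have hAe : A = (M ∪ Z) ∪ Y := by
    ext y
    rw [mem_union, ← hXe, hY, mem_filter]
    constructor
    · intro hy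
      rcases hb2 y hy with h1 | h1
      · exact Or.inl (h.b2' y hy h1.1 h1.2)
      · exact Or.inr ⟨hy, h1⟩
    · rintro (h1 | h1)
      · exact h.sub h1
      · exact h1.1
  have hdY : Disjoint (M ∪ Z) Y := by
    rw [← hXe, disjoint_left]
    intro y h1 h2
    rw [hY, mem_filter] at h2
    linarith [(h.b1 y h1).1, h2.2]
  have cX : X.card = M.card + Y.card := by
    rw [hXe, card_union_of_disjoint hdMZ, hZY]
  have cA : A.card = M.card + Y.card + Y.card := by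
    rw [hAe, card_union_of_disjoint hdY, card_union_of_disjoint hdMZ, hZY]
  have hYne : Y.Nonempty := by
    obtain ⟨e, he, hφe⟩ := h.b3
    obtain ⟨h2, h3, -⟩ := ZCaseB2_neg h hB1 (h.sub he)
    refine ⟨-e, ?_⟩
    rw [hY, mem_filter, h3]
    exact ⟨h2, by linarith⟩
  obtain ⟨U, hU1, hU2, hU3⟩ := ZCaseB2_sum h.rot hYne (c := 1 / 2 - L) (d := L)
    (by
      intro y hy
      rw [hY, mem_filter] at hy
      exact ⟨hYlow y hy.1 hy.2, hy.2⟩) hL2
  have hdU : Disjoint U M := by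
    rw [disjoint_left]
    intro z h1 h2
    obtain ⟨y, hy, y', hy', rfl⟩ := hU1 z h1
    rw [hY, mem_filter] at hy hy'
    rw [hM, mem_filter] at h2
    exact h.ssf.2 y hy.1 y' hy'.1 h2.1
  obtain ⟨N, hN⟩ : ∃ N : ℝ, N = Fintype.card G := ⟨_, rfl⟩
  have hN0 : 0 < N := by
    rw [hN]
    exact_mod_cast Fintype.card_pos
  have key : ∀ w : ℝ, p ≤ w → 2 * L - 1 / 2 ≤ w →
      (U.card : ℝ) + M.card ≤ (2 * w + κ) * N := by
    intro w hw1 hw2
    have h1 : U ∪ M ⊆ univ.filter (fun x => 1 / 2 - w ≤ φ x ∧ φ x ≤ 1 / 2 + w) := by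
      intro z hz
      rw [mem_filter]
      refine ⟨mem_univ _, ?_⟩
      rw [mem_union] at hz
      rcases hz with hz | hz
      · have := hU3 z hz
        constructor <;> linarith [this.1, this.2]
      · rw [hM, mem_filter] at hz
        constructor <;> linarith [hz.2.1, hz.2.2]
    have h2 := h.rot.up (1 / 2 - w) (1 / 2 + w) (by linarith)
    have h3 : ((U ∪ M).card : ℝ) ≤ (1 / 2 + w - (1 / 2 - w) + κ) * Fintype.card G :=
      (Nat.cast_le.2 (card_le_card h1)).trans h2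
    rw [card_union_of_disjoint hdU] at h3
    push_cast at h3
    rw [← hN] at h3
    have e : 1 / 2 + w - (1 / 2 - w) + κ = 2 * w + κ := by ring
    rw [e] at h3
    exact h3
  have kM : (M.card : ℝ) ≤ (2 * p + κ) * N := by
    have h1 : M ⊆ univ.filter (fun x => 1 / 2 - p ≤ φ x ∧ φ x ≤ 1 / 2 + p) := by
      intro z hz
      rw [hM, mem_filter] at hz
      rw [mem_filter]
      exact ⟨mem_univ _, hz.2⟩
    have h2 := h.rot.up (1 / 2 - p) (1 / 2 + p) (by linarith)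
    have h3 := (Nat.cast_le (α := ℝ).2 (card_le_card h1)).trans h2
    rw [← hN] at h3
    have e : 1 / 2 + p - (1 / 2 - p) + κ = 2 * p + κ := by ring
    rw [e] at h3
    exact h3
  have kY : (Y.card : ℝ) ≤ (2 * L - 1 / 2 + κ) * N := by
    have h1 : Y ⊆ univ.filter (fun x => 1 / 2 - L ≤ φ x ∧ φ x ≤ L) := by
      intro z hz
      rw [hY, mem_filter] at hz
      rw [mem_filter]
      exact ⟨mem_univ _, hYlow z hz.1 hz.2, hz.2⟩
    have h2 := h.rot.up (1 / 2 - L) L (by linarith)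
    have h3 := (Nat.cast_le (α := ℝ).2 (card_le_card h1)).trans h2
    rw [← hN] at h3
    have e : L - (1 / 2 - L) + κ = 2 * L - 1 / 2 + κ := by ring
    rw [e] at h3
    exact h3
  have hfold := h.fold
  have hbig := h.big
  have hdens := h.dens
  rw [← hN] at hfold hbig hdens hU2
  have cX' : (X.card : ℝ) = M.card + Y.card := by exact_mod_cast cX
  have cA' : (A.card : ℝ) = M.card + Y.card + Y.card := by exact_mod_cast cA
  have hk : κ * N ≤ 1 / 10 ^ 4 * N := mul_le_mul_of_nonneg_right h.kap hN0.le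
  have hk0 : 0 ≤ κ * N := mul_nonneg h.rot.kappa_nonneg hN0.le
  rw [cX'] at hbig
  rw [cA'] at hdens
  rw [cX', cA'] at hfold
  rcases le_total (2 * L - 1 / 2) p with hw | hw
  · have h1 := key p le_rfl hw
    nlinarith
  · have h1 := key (2 * L - 1 / 2) hw le_rfl
    nlinarith

theorem z_caseB3 {G : Type*} [AddCommGroup G] [Fintype G] {φ : G → ℝ} {κ : ℝ} {A X : Finset G}
    {p L : ℝ} (h : CB φ κ A X p L) (hB1 : ∀ t ∈ A, p < φ t) (hL : L < 1 / 4) :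
    ∀ y ∈ A, (A.card : ℝ) / Fintype.card G - 2 * κ ≤ φ y ∧
      φ y ≤ 1 - ((A.card : ℝ) / Fintype.card G - 2 * κ) := by
  have hp0 := h.p0
  have hpL : p = L := by
    refine le_antisymm h.pL ?_
    by_contra hc
    rw [not_le] at hc
    obtain ⟨e, he, hφe⟩ := h.b3
    obtain ⟨h2, h3, -⟩ := ZCaseB2_neg h hB1 (h.sub he)
    rcases h.b2 _ h2 with h4 | h4 | h4
    · rw [h3] at h4
      linarith [h4.1]
    · rw [h3] at h4
      linarith
    · rw [h3] at h4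
      linarith
  have hall : ∀ y ∈ A, 1 / 2 - p ≤ φ y ∧ φ y ≤ 1 / 2 + L := by
    intro y hy
    rcases h.b2 y hy with h1 | h1 | h1
    · exact h1
    · have := hB1 y hy
      linarith
    · have := (ZCaseB2_neg h hB1 hy).2.2
      linarith
  have hAX : A = X := subset_antisymm (fun y hy => h.b2' y hy (hall y hy).1 (hall y hy).2) h.sub
  have hN0 : (0 : ℝ) < Fintype.card G := by exact_mod_cast Fintype.card_pos
  have hfold := h.fold
  rw [← hAX, ← hpL] at hfold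
  have hk0 := h.rot.kappa_nonneg
  have h1 : (A.card : ℝ) / Fintype.card G ≤ 1 / 2 - p + 3 / 2 * κ := by
    rw [div_le_iff₀ hN0]
    linarith
  intro y hy
  have h2 := hall y hy
  constructor
  · linarith [h2.1]
  · linarith [h2.2]

end SFP
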