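import Pool.Agent.SFP.ZDefs

/-!
# Module ZIntB (2): reflection

`A` symmetric, `0 ≤ c ≤ 1/2`, `H_c = {z ∈ A : fract (φ z - c) < 1/2}`. Then `2 |H_c| ≤ |A| + (1/2 - 2 |c - 1/4| + κ) n`, `n = |G|`.
Proof. `-H_c = {z ∈ A : -z ∈ H_c}` has the same cardinality; `|H_c| + |-H_c| ≤ |A| + |H_c ∩ -H_c|`. For `z ∈ H_c ∩ -H_c`, `φ z ≠ 0`:
`φ(-z) = 1 - φ z`; `fract(φ z - c) < 1/2` means `c ≤ φ z < c + 1/2` (as `0 ≤ φ z < 1`, `c ≤ 1/2`; if `φ z < c` then the fract is
`φ z - c + 1 ≥ 1/2`), and the same for `1 - φ z`: so `φ z ∈ [c, c+1/2) ∩ (1/2 - c, 1 - c]`, contained in `[1/2 - c, 1/2 + c]` for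
`c ≤ 1/4` and in `[c, 1 - c]` for `c ≥ 1/4`; length `1/2 - 2|c - 1/4|`. If `φ z = 0` then `c = 0` (else fract = 1 - c ≥ 1/2), and for
`c = 0`: `H_0 ∩ -H_0` consists of `z` with `φ z = 0` only or `φ z ∈ (1/2, ..)` impossible: then use `up 0 0`. Use `Rot.up`.
-/

namespace SFP

open Finset

theorem ZIntB_fr {x c : ℝ} (hx0 : 0 ≤ x) (hx1 : x < 1) (hc0 : 0 ≤ c) (hc1 : c ≤ 1 / 2)
    (h : Int.fract (x - c) < 1 / 2) : c ≤ x ∧ x < c + 1 / 2 := by
  rcases lt_or_ge x c with hlt | hge
  · exfalso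
    have h1 : Int.fract (x - c) = x - c + 1 := by
      rw [Int.fract_eq_iff]
      refine ⟨by linarith, by linarith, -1, ?_⟩
      push_cast
      ring
    rw [h1] at h
    linarith
  · have h1 : Int.fract (x - c) = x - c := by
      rw [Int.fract_eq_self]
      constructor <;> linarith
    rw [h1] at h
    constructor <;> linarith

open Classical in
theorem ZIntB_main {G : Type*} [AddCommGroup G] [Fintype G] {φ : G → ℝ} {κ : ℝ} (h : Rot φ κ)
    (A : Finset G) (hA : ∀ x ∈ A, -x ∈ A) (P : G → Prop) {α β : ℝ} (hαβ : α ≤ β)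
    (hP : ∀ z, P z → P (-z) → α ≤ φ z ∧ φ z ≤ β) :
    2 * ((A.filter P).card : ℝ) ≤ A.card + (β - α + κ) * Fintype.card G := by
  set H := A.filter P with hH
  set N := H.image (fun z => -z) with hN
  have hNc : N.card = H.card := Finset.card_image_of_injective _ neg_injective
  have h1 : (H ∪ N).card ≤ A.card := by
    apply Finset.card_le_card
    intro z hz
    rcases Finset.mem_union.1 hz with hz | hz
    · exact (Finset.mem_filter.1 hz).1
    · obtain ⟨w, hw, rfl⟩ := Finset.mem_image.1 hz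
      exact hA w (Finset.mem_filter.1 hw).1
  have h2 : ((H ∩ N).card : ℝ) ≤ (β - α + κ) * Fintype.card G := by
    refine le_trans ?_ (h.up α β hαβ)
    have : H ∩ N ⊆ univ.filter (fun x => α ≤ φ x ∧ φ x ≤ β) := by
      intro z hz
      obtain ⟨hz1, hz2⟩ := Finset.mem_inter.1 hz
      obtain ⟨w, hw, rfl⟩ := Finset.mem_image.1 hz2
      have hw2 := (Finset.mem_filter.1 hw).2
      have hz3 := (Finset.mem_filter.1 hz1).2
      rw [Finset.mem_filter]
      refine ⟨Finset.mem_univ _, hP _ hz3 ?_⟩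
      rw [neg_neg]
      exact hw2
    exact_mod_cast Finset.card_le_card this
  have h3 := Finset.card_union_add_card_inter H N
  have h3' : ((H ∪ N).card : ℝ) + (H ∩ N).card = H.card + N.card := by exact_mod_cast h3
  have h1' : ((H ∪ N).card : ℝ) ≤ A.card := by exact_mod_cast h1
  have hNc' : (N.card : ℝ) = H.card := by exact_mod_cast hNc
  linarith

open Classical in
theorem z_intB {G : Type*} [AddCommGroup G] [Fintype G] {φ : G → ℝ} {κ : ℝ} (h : Rot φ κ)
    (A : Finset G) (hA : ∀ x ∈ A, -x ∈ A) {c : ℝ} (hc0 : 0 ≤ c) (hc1 : c ≤ 1 / 2) :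
    2 * ((A.filter (fun z => Int.fract (φ z - c) < 1 / 2)).card : ℝ) ≤
      A.card + (1 / 2 - 2 * |c - 1 / 4| + κ) * Fintype.card G := by
  have hfr : ∀ z, Int.fract (φ z - c) < 1 / 2 → c ≤ φ z ∧ φ z < c + 1 / 2 := fun z hz =>
    ZIntB_fr (h.nonneg z) (h.lt_one z) hc0 hc1 hz
  rcases hc0.eq_or_lt with hc | hc
  · have key := ZIntB_main h A hA (fun z => Int.fract (φ z - c) < 1 / 2) (le_refl (0 : ℝ))
      (fun z hz hz' => by
        obtain ⟨h1, h2⟩ := hfr z hz
        obtain ⟨h3, h4⟩ := hfr _ hz'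
        have h0 : φ z = 0 := by
          by_contra hne
          have h5 := h.neg hne
          rw [← hc] at h2 h4
          linarith
        rw [h0]
        exact ⟨le_rfl, le_rfl⟩)
    have habs : |c - 1 / 4| = 1 / 4 := by
      rw [← hc, zero_sub, abs_neg]
      exact abs_of_pos (by norm_num)
    rw [habs]
    have : (1 / 2 - 2 * (1 / 4) + κ : ℝ) = 0 - 0 + κ := by norm_num
    rw [this]
    exact key
  · have hne : ∀ z, Int.fract (φ z - c) < 1 / 2 → φ z ≠ 0 := by
      intro z hz h0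
      have := (hfr z hz).1
      linarith
    rcases le_total c (1 / 4) with h4 | h4
    · have key := ZIntB_main h A hA (fun z => Int.fract (φ z - c) < 1 / 2)
        (α := 1 / 2 - c) (β := 1 / 2 + c) (by linarith)
        (fun z hz hz' => by
          obtain ⟨h1, h2⟩ := hfr z hz
          obtain ⟨h3, h5⟩ := hfr _ hz'
          rw [h.neg (hne z hz)] at h3 h5
          constructor <;> linarith)
      have habs : |c - 1 / 4| = 1 / 4 - c := by
        rw [abs_of_nonpos (by linarith)]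
        ring
      rw [habs]
      have : (1 / 2 - 2 * (1 / 4 - c) + κ : ℝ) = 1 / 2 + c - (1 / 2 - c) + κ := by ring
      rw [this]
      exact key
    · have key := ZIntB_main h A hA (fun z => Int.fract (φ z - c) < 1 / 2)
        (α := c) (β := 1 - c) (by linarith)
        (fun z hz hz' => by
          obtain ⟨h1, h2⟩ := hfr z hz
          obtain ⟨h3, h5⟩ := hfr _ hz'
          rw [h.neg (hne z hz)] at h3 h5
          constructor <;> linarith)
      have habs : |c - 1 / 4| = c - 1 / 4 := abs_of_nonneg (by linarith)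
      rw [habs]
      have : (1 / 2 - 2 * (c - 1 / 4) + κ : ℝ) = 1 - c - c + κ := by ring
      rw [this]
      exact key

end SFP
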