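import Pool.Agent.SFP.ZIntA
import Pool.Agent.SFP.ZIntB

/-!
# Module ZIntC (3): a half circle with more than `0.252 n` elements

`n = |G|`, `a = |A|/n ≥ 1/3 - 1/10^4`, `κ ≤ 1/10^4`, `∑_{z∈A} cos (2π φ z) ≤ -|A|²/(n-|A|)`. There is `b ∈ A` with `|hc φ A b| ≥ (252/1000) n`.

Proof. Let `x n = max_{b ∈ A} |hc φ A b|`. For every real `c ∈ [0,1/2]`: `|H_c| ≤ x n`, `H_c = {z ∈ A : fract(φ z - c) < 1/2}`: if `H_c` is
nonempty, let `b ∈ H_c` be the element with the least `fract (φ b - c)`; for `z ∈ H_c`: `φ(z - b) = fract(φ z - c) - fract(φ b - c) < 1/2`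
(both sides are in `[0,1)` and differ by an integer), so `H_c ⊆ hc φ A b`.
By ZIntA: `∫_0^{1/2} π sin(2πc) |H_c|/n dc = (1/n) ∑ (1 - cos)/2 ≥ a/2 + a²/(2(1-a)) = a/(2(1-a)) =: v`; by ZIntB `|H_c|/n ≤ a/2 + 1/4 - |c-1/4| + κ/2`.
So with `h = x - a/2 - κ/2` (`|H_c|/n ≤ min(x, x - (h - c)) ` for `c ≤ h`, and symmetric near `1/2`), `0 ≤ h ≤ 1/4`:
`v ≤ x ∫_0^{1/2} π sin (2πc) dc - 2 ∫_0^h π sin(2πc) (h - c) dc`, the first integral is 1, `sin (2πc) ≥ 4c` for `0 ≤ c ≤ 1/4`, so the second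
term is `≥ 2 ∫_0^h 4π c (h-c) dc = (4π/3) h³`. So `x ≥ v + (4π/3) h³ ≥ v` and (first) `x ≥ v`, `h ≥ v - a/2 - κ/2 = a²/(2(1-a)) - κ/2 ≥ .0832`
(increasing in `a ≥ .33323`), `v ≥ .24988`: `x ≥ .24988 + 4.18 * .0832^3 ≥ .24988 + .0024 ≥ .252`.
(`h ≤ 1/4`: `x ≤ a` and, `A` being sum-free, `a ≤ 1/2`: hypothesis `hhalf`. If you prefer, use the bound with any `h₀ ≤ h`, e.g. `h₀ = .083`:
`|H_c|/n ≤ x - max(0, h₀ - c)`; then `x ≥ v + (4π/3) h₀³` needs no upper bound on `h`.)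
-/

namespace SFP

open Finset

theorem ZIntC_fract {φz φb c t : ℝ} (ht0 : 0 ≤ t) (ht1 : t < 1) (k : ℤ) (h : t = φz - φb + k)
    (hz : Int.fract (φz - c) < 1 / 2) (hb : Int.fract (φb - c) ≤ Int.fract (φz - c)) : t < 1 / 2 := by
  have h1 := Int.fract_nonneg (φb - c)
  have h2 : φz - φb = Int.fract (φz - c) - Int.fract (φb - c) + ((⌊φz - c⌋ - ⌊φb - c⌋ : ℤ) : ℝ) := by
    have e1 := Int.self_sub_floor (φz - c)
    have e2 := Int.self_sub_floor (φb - c)
    push_cast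
    linarith
  have h3 : t = Int.fract (φz - c) - Int.fract (φb - c) + ((⌊φz - c⌋ - ⌊φb - c⌋ + k : ℤ) : ℝ) := by
    rw [h, h2]
    push_cast
    ring
  obtain ⟨n, hn⟩ : ∃ n : ℤ, n = ⌊φz - c⌋ - ⌊φb - c⌋ + k := ⟨_, rfl⟩
  rw [← hn] at h3
  have h4 : (n : ℝ) < 1 := by linarith
  have h5 : (n : ℝ) > -1 := by linarith
  have h6 : n < 1 := by exact_mod_cast h4
  have h7 : -1 < n := by exact_mod_cast h5
  have h8 : n = 0 := by omega
  rw [h8, Int.cast_zero] at h3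
  linarith

theorem ZIntC_sub {G : Type*} [AddCommGroup G] [Fintype G] {φ : G → ℝ} {κ : ℝ} (h : Rot φ κ)
    (z b : G) : ∃ k : ℤ, φ (z - b) = φ z - φ b + k := by
  rcases le_or_gt (φ b) (φ z) with h1 | h1
  · exact ⟨0, by rw [h.sub_of_le h1]; simp⟩
  · exact ⟨1, by rw [h.sub_of_lt h1]; simp⟩

open Classical in
theorem ZIntC_bd {G : Type*} [AddCommGroup G] [Fintype G] {φ : G → ℝ} {κ : ℝ} (h : Rot φ κ)
    (A : Finset G) (c : ℝ) {x : ℝ} (hx0 : 0 ≤ x) (hx : ∀ b ∈ A, ((hc φ A b).card : ℝ) ≤ x) :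
    ((A.filter (fun z => Int.fract (φ z - c) < 1 / 2)).card : ℝ) ≤ x := by
  rcases (A.filter (fun z => Int.fract (φ z - c) < 1 / 2)).eq_empty_or_nonempty with h0 | h0
  · rw [h0, card_empty, Nat.cast_zero]
    exact hx0
  · obtain ⟨b, hb, hmin⟩ := exists_min_image _ (fun z => Int.fract (φ z - c)) h0
    have hbA : b ∈ A := (mem_filter.1 hb).1
    refine (Nat.cast_le.2 (card_le_card ?_)).trans (hx b hbA)
    intro z hz
    have hz' := mem_filter.1 hz
    unfold hc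
    rw [mem_filter]
    refine ⟨hz'.1, ?_⟩
    obtain ⟨k, hk⟩ := ZIntC_sub h z b
    exact ZIntC_fract (h.nonneg _) (h.lt_one _) k hk hz'.2 (hmin z hz)

theorem ZIntC_int (a b : ℝ) : ∫ c in a..b, Real.pi * Real.sin (2 * Real.pi * c) =
    (Real.cos (2 * Real.pi * a) - Real.cos (2 * Real.pi * b)) / 2 := by
  have hd : ∀ c ∈ Set.uIcc a b, HasDerivAt (fun c : ℝ => -(Real.cos (2 * Real.pi * c) / 2))
      (Real.pi * Real.sin (2 * Real.pi * c)) c := by
    intro c _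
    have h1 : HasDerivAt (fun c : ℝ => 2 * Real.pi * c) (2 * Real.pi) c := by
      simpa using (hasDerivAt_id c).const_mul (2 * Real.pi)
    have h2 := (h1.cos.div_const 2).neg
    refine h2.congr_deriv ?_
    ring
  rw [intervalIntegral.integral_eq_sub_of_hasDerivAt hd]
  · ring
  · apply Continuous.intervalIntegrable
    fun_prop

theorem ZIntC_full : ∫ c in (0 : ℝ)..(1 / 2), Real.pi * Real.sin (2 * Real.pi * c) = 1 := by
  rw [ZIntC_int]
  have e1 : 2 * Real.pi * 0 = 0 := by ring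
  have e2 : 2 * Real.pi * (1 / 2) = Real.pi := by ring
  rw [e1, e2, Real.cos_zero, Real.cos_pi]
  norm_num

theorem ZIntC_q1 (h : ℝ) : ∫ c in (0 : ℝ)..h, 4 * Real.pi * (c * (h - c)) = 2 * Real.pi / 3 * h ^ 3 := by
  have hd : ∀ c ∈ Set.uIcc 0 h, HasDerivAt (fun c : ℝ => 4 * Real.pi * (h * c ^ 2 / 2 - c ^ 3 / 3))
      (4 * Real.pi * (c * (h - c))) c := by
    intro c _
    have h1 := (((hasDerivAt_pow 2 c).const_mul h).div_const 2).sub ((hasDerivAt_pow 3 c).div_const 3)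
    have h2 := h1.const_mul (4 * Real.pi)
    refine h2.congr_deriv ?_
    push_cast
    ring
  rw [intervalIntegral.integral_eq_sub_of_hasDerivAt hd]
  · ring
  · apply Continuous.intervalIntegrable
    fun_prop

theorem ZIntC_q2 (h : ℝ) : ∫ c in (1 / 2 - h)..(1 / 2), 4 * Real.pi * ((1 / 2 - c) * (h - (1 / 2 - c))) =
    2 * Real.pi / 3 * h ^ 3 := by
  have h1 := intervalIntegral.integral_comp_sub_left (a := 1 / 2 - h) (b := 1 / 2)
    (fun c : ℝ => 4 * Real.pi * (c * (h - c))) (1 / 2)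
  rw [h1]
  have e1 : (1 : ℝ) / 2 - 1 / 2 = 0 := by norm_num
  have e2 : (1 : ℝ) / 2 - (1 / 2 - h) = h := by ring
  rw [e1, e2, ZIntC_q1]

theorem ZIntC_sin1 {c : ℝ} (h0 : 0 ≤ c) (h1 : c ≤ 1 / 4) : 4 * c ≤ Real.sin (2 * Real.pi * c) := by
  have hpi := Real.pi_pos
  have h2 := Real.mul_le_sin (x := 2 * Real.pi * c) (by positivity) (by nlinarith)
  have e : 2 / Real.pi * (2 * Real.pi * c) = 4 * c := by
    field_simp
    ring
  rw [e] at h2
  exact h2

theorem ZIntC_sin2 {c : ℝ} (h0 : 1 / 4 ≤ c) (h1 : c ≤ 1 / 2) :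
    4 * (1 / 2 - c) ≤ Real.sin (2 * Real.pi * c) := by
  have h2 := ZIntC_sin1 (c := 1 / 2 - c) (by linarith) (by linarith)
  have e : 2 * Real.pi * (1 / 2 - c) = Real.pi - 2 * Real.pi * c := by ring
  rw [e, Real.sin_pi_sub] at h2
  exact h2

theorem ZIntC_sin0 {c : ℝ} (h0 : 0 ≤ c) (h1 : c ≤ 1 / 2) : 0 ≤ Real.sin (2 * Real.pi * c) := by
  rcases le_total c (1 / 4) with h | h
  · have := ZIntC_sin1 h0 h
    linarith
  · have := ZIntC_sin2 h h1
    linarith

/-- the analytic core -/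
theorem ZIntC_core {f : ℝ → ℝ} {N x h₀ : ℝ} (hN : 0 ≤ N) (hh0 : 0 ≤ h₀) (hh1 : h₀ ≤ 1 / 4)
    (hf : IntervalIntegrable (fun c : ℝ => Real.pi * Real.sin (2 * Real.pi * c) * f c)
      MeasureTheory.volume 0 (1 / 2))
    (h1 : ∀ c, 0 ≤ c → c ≤ 1 / 2 → f c ≤ x * N)
    (h2 : ∀ c, 0 ≤ c → c ≤ h₀ → f c ≤ (x - (h₀ - c)) * N)
    (h3 : ∀ c, 1 / 2 - h₀ ≤ c → c ≤ 1 / 2 → f c ≤ (x - (h₀ - (1 / 2 - c))) * N) :
    ∫ c in (0 : ℝ)..(1 / 2), Real.pi * Real.sin (2 * Real.pi * c) * f c ≤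
      (x - 4 * Real.pi / 3 * h₀ ^ 3) * N := by
  have hpi := Real.pi_pos
  obtain ⟨D, hD⟩ : ∃ D : ℝ → ℝ, D = fun c => x * N * (Real.pi * Real.sin (2 * Real.pi * c)) -
    Real.pi * Real.sin (2 * Real.pi * c) * f c := ⟨_, rfl⟩
  have hG : IntervalIntegrable (fun c : ℝ => x * N * (Real.pi * Real.sin (2 * Real.pi * c)))
      MeasureTheory.volume 0 (1 / 2) := by
    apply Continuous.intervalIntegrable
    fun_prop
  have hDi : IntervalIntegrable D MeasureTheory.volume 0 (1 / 2) := by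
    rw [hD]
    exact hG.sub hf
  have hDint : ∫ c in (0 : ℝ)..(1 / 2), D c =
      x * N - ∫ c in (0 : ℝ)..(1 / 2), Real.pi * Real.sin (2 * Real.pi * c) * f c := by
    rw [hD, intervalIntegral.integral_sub hG hf, intervalIntegral.integral_const_mul, ZIntC_full, mul_one]
  have hmem : ∀ c, 0 ≤ c → c ≤ 1 / 2 → c ∈ Set.uIcc (0 : ℝ) (1 / 2) := by
    intro c hc0 hc1
    rw [Set.uIcc_of_le (by norm_num)]
    exact ⟨hc0, hc1⟩
  have i1 : IntervalIntegrable D MeasureTheory.volume 0 h₀ :=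
    hDi.mono_set (Set.uIcc_subset_uIcc (hmem 0 le_rfl (by norm_num)) (hmem h₀ hh0 (by linarith)))
  have i2 : IntervalIntegrable D MeasureTheory.volume h₀ (1 / 2 - h₀) :=
    hDi.mono_set (Set.uIcc_subset_uIcc (hmem h₀ hh0 (by linarith)) (hmem _ (by linarith) (by linarith)))
  have i3 : IntervalIntegrable D MeasureTheory.volume (1 / 2 - h₀) (1 / 2) :=
    hDi.mono_set (Set.uIcc_subset_uIcc (hmem _ (by linarith) (by linarith)) (hmem _ (by norm_num) le_rfl))
  have hsplit : ∫ c in (0 : ℝ)..(1 / 2), D c =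
      (∫ c in (0 : ℝ)..h₀, D c) + (∫ c in h₀..(1 / 2 - h₀), D c) + ∫ c in (1 / 2 - h₀)..(1 / 2), D c := by
    rw [intervalIntegral.integral_add_adjacent_intervals i1 i2,
      intervalIntegral.integral_add_adjacent_intervals (i1.trans i2) i3]
  have hDe : ∀ c, D c = Real.pi * Real.sin (2 * Real.pi * c) * (x * N - f c) := by
    intro c
    rw [hD]
    ring
  have b2 : 0 ≤ ∫ c in h₀..(1 / 2 - h₀), D c := by
    refine intervalIntegral.integral_nonneg (by linarith) ?_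
    intro c hc
    rw [hDe]
    have e1 := ZIntC_sin0 (c := c) (by linarith [hc.1]) (by linarith [hc.2])
    have e2 := h1 c (by linarith [hc.1]) (by linarith [hc.2])
    have e3 : 0 ≤ x * N - f c := by linarith
    positivity
  have b1 : 2 * Real.pi / 3 * h₀ ^ 3 * N ≤ ∫ c in (0 : ℝ)..h₀, D c := by
    have e0 : ∫ c in (0 : ℝ)..h₀, 4 * Real.pi * (c * (h₀ - c)) * N = 2 * Real.pi / 3 * h₀ ^ 3 * N := by
      rw [intervalIntegral.integral_mul_const, ZIntC_q1]
    rw [← e0]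
    refine intervalIntegral.integral_mono_on hh0 ?_ i1 ?_
    · apply Continuous.intervalIntegrable
      fun_prop
    · intro c hc
      rw [hDe]
      have e1 := ZIntC_sin1 (c := c) hc.1 (by linarith [hc.2])
      have e2 := h2 c hc.1 hc.2
      have e3 : (h₀ - c) * N ≤ x * N - f c := by nlinarith
      have e4 : 0 ≤ (h₀ - c) * N := mul_nonneg (by linarith [hc.2]) hN
      have e5 : 4 * c * ((h₀ - c) * N) ≤ Real.sin (2 * Real.pi * c) * (x * N - f c) :=
        mul_le_mul e1 e3 e4 ((by linarith [hc.1] : (0 : ℝ) ≤ 4 * c).trans e1)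
      have e6 := mul_le_mul_of_nonneg_left e5 hpi.le
      linarith
  have b3 : 2 * Real.pi / 3 * h₀ ^ 3 * N ≤ ∫ c in (1 / 2 - h₀)..(1 / 2), D c := by
    have e0 : ∫ c in (1 / 2 - h₀)..(1 / 2), 4 * Real.pi * ((1 / 2 - c) * (h₀ - (1 / 2 - c))) * N =
        2 * Real.pi / 3 * h₀ ^ 3 * N := by
      rw [intervalIntegral.integral_mul_const, ZIntC_q2]
    rw [← e0]
    refine intervalIntegral.integral_mono_on (by linarith) ?_ i3 ?_
    · apply Continuous.intervalIntegrable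
      fun_prop
    · intro c hc
      rw [hDe]
      have e1 := ZIntC_sin2 (c := c) (by linarith [hc.1]) hc.2
      have e2 := h3 c hc.1 hc.2
      have e3 : (h₀ - (1 / 2 - c)) * N ≤ x * N - f c := by nlinarith
      have e4 : 0 ≤ (h₀ - (1 / 2 - c)) * N := mul_nonneg (by linarith [hc.1]) hN
      have e5 : 4 * (1 / 2 - c) * ((h₀ - (1 / 2 - c)) * N) ≤
          Real.sin (2 * Real.pi * c) * (x * N - f c) :=
        mul_le_mul e1 e3 e4 ((by linarith [hc.2] : (0 : ℝ) ≤ 4 * (1 / 2 - c)).trans e1)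
      have e6 := mul_le_mul_of_nonneg_left e5 hpi.le
      linarith
  have : 4 * Real.pi / 3 * h₀ ^ 3 * N ≤ ∫ c in (0 : ℝ)..(1 / 2), D c := by
    rw [hsplit]
    linarith
  rw [hDint] at this
  linarith

theorem z_half {G : Type*} [AddCommGroup G] [Fintype G] {φ : G → ℝ} {κ : ℝ} (h : Rot φ κ)
    (hκ : κ ≤ 1 / 10 ^ 4) (A : Finset G) (hA : SSF A)
    (ha : (1 / 3 - 1 / 10 ^ 4) * (Fintype.card G : ℝ) ≤ A.card)
    (hhalf : (A.card : ℝ) ≤ 1 / 2 * Fintype.card G)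
    (hcos : ∑ z ∈ A, Real.cos (2 * Real.pi * φ z) ≤
      -((A.card : ℝ) ^ 2 / (Fintype.card G - A.card))) :
    ∃ b ∈ A, 252 / 1000 * (Fintype.card G : ℝ) ≤ ((hc φ A b).card : ℝ) := by
  classical
  have hpi := Real.pi_gt_d2
  by_contra hcon
  push Not at hcon
  obtain ⟨N, hN⟩ : ∃ N : ℝ, N = Fintype.card G := ⟨_, rfl⟩
  obtain ⟨a, ha'⟩ : ∃ a : ℝ, a = A.card := ⟨_, rfl⟩
  have hN0 : 0 < N := by
    rw [hN]
    exact_mod_cast Fintype.card_pos
  rw [← hN, ← ha'] at ha hhalf hcos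
  rw [← hN] at hcon
  obtain ⟨f, hf⟩ : ∃ f : ℝ → ℝ, f = fun c => ((A.filter (fun z => Int.fract (φ z - c) < 1 / 2)).card : ℝ) :=
    ⟨_, rfl⟩
  have hint := z_intA A φ h.nonneg h.lt_one
  have hii := z_intA' A φ h.nonneg h.lt_one
  have hfi : IntervalIntegrable (fun c : ℝ => Real.pi * Real.sin (2 * Real.pi * c) * f c)
      MeasureTheory.volume 0 (1 / 2) := by
    rw [hf]
    exact hii
  have hfint : ∫ c in (0 : ℝ)..(1 / 2), Real.pi * Real.sin (2 * Real.pi * c) * f c =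
      ∑ z ∈ A, (1 - Real.cos (2 * Real.pi * φ z)) / 2 := by
    rw [hf]
    exact hint
  have hsum : ∑ z ∈ A, (1 - Real.cos (2 * Real.pi * φ z)) / 2 =
      (a - ∑ z ∈ A, Real.cos (2 * Real.pi * φ z)) / 2 := by
    rw [← sum_div, sum_sub_distrib, sum_const, nsmul_eq_mul, mul_one, ← ha']
  have hNa : 0 < N - a := by linarith
  have hlow : a * N / (2 * (N - a)) ≤
      ∫ c in (0 : ℝ)..(1 / 2), Real.pi * Real.sin (2 * Real.pi * c) * f c := by
    rw [hfint, hsum]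
    have e : a * N / (2 * (N - a)) = (a - -(a ^ 2 / (N - a))) / 2 := by
      field_simp
      ring
    rw [e]
    linarith
  have h1 : ∀ c, 0 ≤ c → c ≤ 1 / 2 → f c ≤ 252 / 1000 * N := by
    intro c _ _
    rw [hf]
    exact ZIntC_bd h A c (by positivity) (fun b hb => (hcon b hb).le)
  -- first stage
  have hst : a * N / (2 * (N - a)) ≤ 252 / 1000 * N := by
    have h2 := ZIntC_core (f := f) (N := N) (x := 252 / 1000) (h₀ := 0) hN0.le le_rfl (by norm_num) hfi h1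
      (by
        intro c hc0 hc1
        have : c = 0 := le_antisymm hc1 hc0
        rw [this]
        have := h1 0 le_rfl (by norm_num)
        linarith)
      (by
        intro c hc0 hc1
        have : c = 1 / 2 := le_antisymm hc1 (by linarith)
        rw [this]
        have := h1 (1 / 2) (by norm_num) le_rfl
        linarith)
    have e : (252 / 1000 - 4 * Real.pi / 3 * (0 : ℝ) ^ 3) * N = 252 / 1000 * N := by ring
    rw [e] at h2
    exact hlow.trans h2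
  have ha2 : a ≤ 504 / 1000 * (N - a) := by
    rw [div_le_iff₀ (by positivity)] at hst
    have e : 252 / 1000 * N * (2 * (N - a)) = (504 / 1000 * (N - a)) * N := by ring
    rw [e] at hst
    exact le_of_mul_le_mul_right hst hN0
  have hκN : κ * N ≤ 1 / 10 ^ 4 * N := mul_le_mul_of_nonneg_right hκ hN0.le
  -- second stage
  have h2 := ZIntC_core (f := f) (N := N) (x := 252 / 1000) (h₀ := 84 / 1000) hN0.le (by norm_num)
    (by norm_num) hfi h1
    (by
      intro c hc0 hc1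
      have e1 := z_intB h A hA.1 hc0 (by linarith)
      rw [← hN, ← ha', abs_of_nonpos (by linarith)] at e1
      have e2 : 2 * f c ≤ a + (1 / 2 - 2 * -(c - 1 / 4) + κ) * N := by
        rw [hf]
        exact e1
      linarith)
    (by
      intro c hc0 hc1
      have e1 := z_intB h A hA.1 (c := c) (by linarith) hc1
      rw [← hN, ← ha', abs_of_nonneg (by linarith)] at e1
      have e2 : 2 * f c ≤ a + (1 / 2 - 2 * (c - 1 / 4) + κ) * N := by
        rw [hf]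
        exact e1
      linarith)
  have h3 := hlow.trans h2
  have h4 : 24988 / 100000 * N ≤ a * N / (2 * (N - a)) := by
    rw [le_div_iff₀ (by positivity)]
    nlinarith
  have h5 : 24988 / 100000 * N ≤ (252 / 1000 - 4 * Real.pi / 3 * (84 / 1000) ^ 3) * N := h4.trans h3
  have h6 : 24988 / 100000 ≤ 252 / 1000 - 4 * Real.pi / 3 * (84 / 1000) ^ 3 := le_of_mul_le_mul_right h5 hN0
  norm_num at h6
  linarith

end SFP
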