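import Pool.Agent.SFP.ZDefs

/-!
# Module ZFold (3): folding

`P ⊆ G`, `0, g₀ ∈ P`, `φ p ≤ φ g₀ = λ < 1/2` on `P`, `(P - P) ∩ A = ∅`, `(λ + κ) n < 2 (|P| - κ n)`. Then `λ n + |P| + |A| ≤ (1 + 3κ) n`.

Proof. `Ω = {w : φ w < λ}`, `(λ-κ) n ≤ |Ω| ≤ (λ+κ) n` (`lo`, `up`). `P' = P ∩ Ω`, `|P'| ≥ |P| - κ n` (`up λ λ`).
For `z ∈ Ω` define `τ_z : Ω → Ω`, `w ↦ w + z` if `φ w + φ z < λ`, else `w + z - g₀` (`φ = φ w + φ z - λ ∈ [0, λ)`). It is injective
(two elements `w ≠ w'` with the same image: `w + z = w' + z - g₀`, `φ w' = φ w + λ ≥ λ`, impossible). `2|P'| > |Ω|`, so there are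
`p, p' ∈ P'` with `τ_z p = p'`: `z = p' - p ∈ P - P` or `z - g₀ = p' - p ∈ P - P`.
For `z ∈ P'` both hold (`z = z - 0`, `z - g₀`). The elements `z` (`φ < λ`) and `z - g₀` (`φ = φ z - λ + 1 ≥ 1 - λ > λ`) are different.
So `|P - P| ≥ |Ω| + |P'| ≥ λ n - κ n + |P| - κ n`, and `P - P` is disjoint from `A`: `|P - P| + |A| ≤ n`.
(Formally: `D = univ.filter (∃ p ∈ P, ∃ p' ∈ P, x = p - p')`, `D₁ = {x ∈ D : φ x < λ}`, `D₂ = {x ∈ D : λ ≤ φ x}`; `Ω \ D₁` maps by `z ↦ z - g₀` into `D₂`,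
and so does `P'`; so `|D₂| ≥ |(Ω \ D₁) ∪ P'|` and `(Ω \ D₁) ∩ P' = ∅` as `P' ⊆ D₁`.)
-/

namespace SFP

open Finset

open Classical in
theorem z_fold_claim {G : Type*} [AddCommGroup G] [Fintype G] {φ : G → ℝ} {κ : ℝ} (h : Rot φ κ)
    {P' : Finset G} {g₀ : G} (hP' : ∀ p ∈ P', φ p < φ g₀) (hl : φ g₀ < 1 / 2)
    (hbig : (univ.filter (fun w : G => φ w < φ g₀)).card < 2 * P'.card) {z : G} (hz : φ z < φ g₀) :
    ∃ p ∈ P', ∃ p' ∈ P', z = p' - p ∨ z - g₀ = p' - p := by
  set Ω : Finset G := univ.filter (fun w : G => φ w < φ g₀) with hΩ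
  set τ : G → G := fun w => if φ w + φ z < φ g₀ then w + z else w + z - g₀ with hτ
  have hz0 := h.nonneg z
  have hmaps : ∀ w ∈ P', τ w ∈ Ω := by
    intro w hw
    have hw1 := hP' w hw
    have hw0 := h.nonneg w
    have hadd : φ (w + z) = φ w + φ z := h.add_of_lt (by linarith)
    rw [hΩ, mem_filter]
    refine ⟨mem_univ _, ?_⟩
    by_cases hc : φ w + φ z < φ g₀
    · simp only [hτ, if_pos hc]
      rw [hadd]
      exact hc
    · simp only [hτ, if_neg hc]
      push Not at hc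
      rw [h.sub_of_le (by rw [hadd]; exact hc), hadd]
      linarith
  have hinj : ∀ w ∈ P', ∀ w' ∈ P', τ w = τ w' → w = w' := by
    have key : ∀ w ∈ P', ∀ w' ∈ P', w + z = w' + z - g₀ → False := by
      intro w hw w' hw' he
      have h1 : w' = w + g₀ := by
        have : w' = (w' + z - g₀) - z + g₀ := by abel
        rw [this, ← he]
        abel
      have h2 : φ w' = φ w + φ g₀ := by
        rw [h1]
        exact h.add_of_lt (by have := hP' w hw; linarith)
      have h3 := hP' w' hw'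
      have h4 := h.nonneg w
      linarith
    intro w hw w' hw' he
    by_cases hc : φ w + φ z < φ g₀ <;> by_cases hc' : φ w' + φ z < φ g₀
    · simp only [hτ, if_pos hc, if_pos hc'] at he
      exact add_right_cancel he
    · simp only [hτ, if_pos hc, if_neg hc'] at he
      exact (key w hw w' hw' he).elim
    · simp only [hτ, if_neg hc, if_pos hc'] at he
      exact (key w' hw' w hw he.symm).elim
    · simp only [hτ, if_neg hc, if_neg hc'] at he
      exact add_right_cancel (sub_left_injective he)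
  have himg : (P'.image τ).card = P'.card := card_image_of_injOn fun w hw w' hw' he => hinj w hw w' hw' he
  have hsub1 : P'.image τ ⊆ Ω := by
    intro x hx
    rw [mem_image] at hx
    obtain ⟨w, hw, rfl⟩ := hx
    exact hmaps w hw
  have hsub2 : P' ⊆ Ω := by
    intro x hx
    rw [hΩ, mem_filter]
    exact ⟨mem_univ _, hP' x hx⟩
  have hne : ¬ Disjoint (P'.image τ) P' := by
    intro hd
    have h1 : (P'.image τ ∪ P').card ≤ Ω.card := card_le_card (union_subset hsub1 hsub2)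
    rw [card_union_of_disjoint hd, himg] at h1
    omega
  rw [not_disjoint_iff] at hne
  obtain ⟨p', hp1, hp2⟩ := hne
  rw [mem_image] at hp1
  obtain ⟨p, hp, hpe⟩ := hp1
  refine ⟨p, hp, p', hp2, ?_⟩
  by_cases hc : φ p + φ z < φ g₀
  · left
    simp only [hτ, if_pos hc] at hpe
    rw [← hpe]
    abel
  · right
    simp only [hτ, if_neg hc] at hpe
    rw [← hpe]
    abel

open Classical in
theorem z_fold {G : Type*} [AddCommGroup G] [Fintype G] {φ : G → ℝ} {κ : ℝ} (h : Rot φ κ)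
    (A P : Finset G) {g₀ : G} (h0 : (0 : G) ∈ P) (hg : g₀ ∈ P) (hP : ∀ p ∈ P, φ p ≤ φ g₀)
    (hl : φ g₀ < 1 / 2) (hA : ∀ p ∈ P, ∀ p' ∈ P, p - p' ∉ A)
    (hbig : (φ g₀ + κ) * Fintype.card G < 2 * (P.card - κ * Fintype.card G)) :
    φ g₀ * Fintype.card G + P.card + A.card ≤ (1 + 3 * κ) * Fintype.card G := by
  have hg0 := h.nonneg g₀
  have hκ := h.kappa_nonneg
  set n : ℝ := (Fintype.card G : ℝ) with hn
  have hn0 : 0 ≤ n := by positivity
  set Ω : Finset G := univ.filter (fun w : G => φ w < φ g₀) with hΩ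
  have hΩlo : (φ g₀ - κ) * n ≤ (Ω.card : ℝ) := h.lo (φ g₀) hg0 (by linarith)
  have hΩup : (Ω.card : ℝ) ≤ (φ g₀ + κ) * n := by
    have h1 := h.up 0 (φ g₀) hg0
    have h2 : Ω ⊆ univ.filter (fun x => (0 : ℝ) ≤ φ x ∧ φ x ≤ φ g₀) := by
      intro x hx
      rw [hΩ, mem_filter] at hx
      rw [mem_filter]
      exact ⟨mem_univ _, h.nonneg x, hx.2.le⟩
    have h3 : (Ω.card : ℝ) ≤ ((univ.filter (fun x => (0 : ℝ) ≤ φ x ∧ φ x ≤ φ g₀)).card : ℝ) := by
      exact_mod_cast card_le_card h2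
    calc (Ω.card : ℝ) ≤ _ := h3
      _ ≤ _ := h1
      _ = _ := by ring
  set P' : Finset G := P.filter (fun w => φ w < φ g₀) with hP'
  have hP'card : (P.card : ℝ) - κ * n ≤ P'.card := by
    have h1 := h.up (φ g₀) (φ g₀) le_rfl
    have h2 : P.filter (fun w => ¬ φ w < φ g₀) ⊆ univ.filter (fun x => φ g₀ ≤ φ x ∧ φ x ≤ φ g₀) := by
      intro x hx
      rw [mem_filter] at hx
      rw [mem_filter]
      exact ⟨mem_univ _, not_lt.1 hx.2, hP x hx.1⟩
    have h3 : ((P.filter (fun w => ¬ φ w < φ g₀)).card : ℝ) ≤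
        ((univ.filter (fun x => φ g₀ ≤ φ x ∧ φ x ≤ φ g₀)).card : ℝ) := by
      exact_mod_cast card_le_card h2
    have h4 : P'.card + (P.filter (fun w => ¬ φ w < φ g₀)).card = P.card :=
      card_filter_add_card_filter_not _
    have h5 : (P'.card : ℝ) + ((P.filter (fun w => ¬ φ w < φ g₀)).card : ℝ) = P.card := by
      exact_mod_cast h4
    have h6 : (φ g₀ - φ g₀ + κ) * n = κ * n := by ring
    rw [h6] at h1
    linarith
  have hP'lt : ∀ p ∈ P', φ p < φ g₀ := by
    intro p hp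
    rw [hP', mem_filter] at hp
    exact hp.2
  have hP'P : ∀ p ∈ P', p ∈ P := by
    intro p hp
    rw [hP', mem_filter] at hp
    exact hp.1
  have hbig' : Ω.card < 2 * P'.card := by
    have : (Ω.card : ℝ) < 2 * P'.card := by linarith
    exact_mod_cast this
  set D : Finset G := univ.filter (fun x : G => ∃ p ∈ P, ∃ p' ∈ P, x = p - p') with hD
  have hDA : Disjoint D A := by
    rw [disjoint_left]
    intro x hx hxA
    rw [hD, mem_filter] at hx
    obtain ⟨-, p, hp, p', hp', rfl⟩ := hx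
    exact hA p hp p' hp' hxA
  have hDAc : D.card + A.card ≤ Fintype.card G := by
    rw [← card_union_of_disjoint hDA]
    exact card_le_univ _
  set D1 : Finset G := D.filter (fun x => φ x < φ g₀) with hD1
  set D2 : Finset G := D.filter (fun x => ¬ φ x < φ g₀) with hD2
  have hD12 : D1.card + D2.card = D.card := card_filter_add_card_filter_not _
  have hclaim : ∀ z ∈ Ω, z ∈ D ∨ z - g₀ ∈ D := by
    intro z hz
    rw [hΩ, mem_filter] at hz
    obtain ⟨p, hp, p', hp', hc⟩ := z_fold_claim h hP'lt hl hbig' hz.2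
    rcases hc with hc | hc
    · left
      rw [hD, mem_filter]
      exact ⟨mem_univ _, p', hP'P p' hp', p, hP'P p hp, hc⟩
    · right
      rw [hD, mem_filter]
      exact ⟨mem_univ _, p', hP'P p' hp', p, hP'P p hp, hc⟩
  have hD1Ω : D1 ⊆ Ω := by
    intro x hx
    rw [hD1, mem_filter] at hx
    rw [hΩ, mem_filter]
    exact ⟨mem_univ _, hx.2⟩
  have hP'D1 : P' ⊆ D1 := by
    intro x hx
    rw [hD1, mem_filter]
    refine ⟨?_, hP'lt x hx⟩
    rw [hD, mem_filter]
    exact ⟨mem_univ _, x, hP'P x hx, 0, h0, by rw [sub_zero]⟩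
  have hdisj : Disjoint (Ω \ D1) P' := by
    rw [disjoint_left]
    intro x hx hx'
    rw [mem_sdiff] at hx
    exact hx.2 (hP'D1 hx')
  have hshift : ∀ z : G, φ z < φ g₀ → ¬ φ (z - g₀) < φ g₀ := by
    intro z hz
    rw [h.sub_of_lt hz]
    have := h.nonneg z
    linarith
  have himg : ((Ω \ D1) ∪ P').image (fun z => z - g₀) ⊆ D2 := by
    intro x hx
    rw [mem_image] at hx
    obtain ⟨z, hz, rfl⟩ := hx
    rw [hD2, mem_filter]
    rw [mem_union] at hz
    rcases hz with hz | hz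
    · rw [mem_sdiff] at hz
      have hzΩ : φ z < φ g₀ := by
        have := hz.1
        rw [hΩ, mem_filter] at this
        exact this.2
      refine ⟨?_, hshift z hzΩ⟩
      rcases hclaim z hz.1 with hc | hc
      · exact (hz.2 (by rw [hD1, mem_filter]; exact ⟨hc, hzΩ⟩)).elim
      · exact hc
    · refine ⟨?_, hshift z (hP'lt z hz)⟩
      rw [hD, mem_filter]
      exact ⟨mem_univ _, z, hP'P z hz, g₀, hg, rfl⟩
  have hcard2 : (Ω \ D1).card + P'.card ≤ D2.card := by
    rw [← card_union_of_disjoint hdisj,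
      ← card_image_of_injective ((Ω \ D1) ∪ P') (sub_left_injective (b := g₀))]
    exact card_le_card himg
  have hΩD1 : (Ω \ D1).card + D1.card = Ω.card := card_sdiff_add_card_eq_card hD1Ω
  have hfin : Ω.card + P'.card + A.card ≤ Fintype.card G := by omega
  have hfin' : (Ω.card : ℝ) + P'.card + A.card ≤ n := by
    rw [hn]
    exact_mod_cast hfin
  have hκn : 0 ≤ κ * n := mul_nonneg hκ hn0
  have e1 : (φ g₀ - κ) * n = φ g₀ * n - κ * n := by ring
  have e2 : (1 + 3 * κ) * n = n + 3 * (κ * n) := by ring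
  rw [e1] at hΩlo
  rw [e2]
  linarith

end SFP
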