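import Pool.Agent.SFP.ZDefs2
import Pool.Agent.SFP.ZFold

/-!
# Module ZOpt (3): facts on an optimal half circle

Notation: `λ = φ (e - b) < 1/2`, `n = |G|`.

* `z_opt_ex`: among all `b' : G` take one with `(hc φ A b').card` maximal (`≥ 0.252 n > 0`), let `b` be the element `z` of `hc φ A b'` with the least
  `φ (z - b')`; for `z ∈ hc φ A b'`: `φ (z - b) = φ (z - b') - φ (b - b')` (`Rot.sub_of_le`, `z - b = (z - b') - (b - b')`) `< 1/2`, so
  `hc φ A b' ⊆ hc φ A b`; put `X = hc φ A b`, `e` the element with the largest `φ (z - b)`.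
* `z_opt_fold`: `z_fold` with `P = X.image (· - b)`, `g₀ = e - b`: `P - P ∋ z - z'`, `z, z' ∈ X ⊆ A`; `z - z' = w ∈ A` would give `z' + w = z ∈ A`.
  `hbig`: `2 (0.252 - κ) ≥ 0.5038 > 1/2 + κ > λ + κ`.
* `z_opt_sub`: `y ∈ A`, `ρ = φ (y - b)`. If `λ < ρ < 1/2` then `y ∈ X`, contradiction to `last`. If `ρ > 1/2 + λ`: let `Y = {z ∈ A : φ (e - z) < 1/2}`. `Y ⊇ X`
  (`z ∈ X`: `e - z = (e-b) - (z-b)`, `φ = λ - φ(z-b) ∈ [0, λ]`) and `y ∈ Y \ X` (`e - y = (e - b) - (y - b)`, `λ < ρ`: `φ = λ - ρ + 1 < 1/2`). But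
  `z ↦ -z` maps `Y` into `hc φ A (-e)` (`φ (-z + e)`), injectively, so `|Y| ≤ |X|`, contradiction.
* `z_opt_refl`: the reflected configuration: `z ∈ A`, `φ (z + e) < 1/2` iff `-z ∈ X`: for `w = -z ∈ A`: `φ (e - w) < 1/2`. If `w ∈ X` it is `≤ λ`. If `w ∉ X`, by `z_opt_sub`
  `φ (w - b) ∈ [1/2, 1/2 + λ]`: `φ (e - w) = λ - φ (w-b) + 1 ∈ [1/2, ..)`. ok. `φ(-b - -e) = λ` is the largest: `φ(z - -e) = φ(e - w) = λ - φ(w - b) ≤ λ`.
* `z_opt_centre`: `|X| + |-X| ≥ .504 n > |A|`? NO: use `|A| ≤ 1/2 n` (hypothesis) so `X ∩ -X ≠ ∅`: `z, -z ∈ X`. `s = φ (z-b) + φ (-z-b) ∈ [0, 2λ]`, `φ (z - b + (-z - b)) = φ (-(b + b))`; so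
  `2 φ b + s` is an integer in `[0, 3)`.
-/

namespace SFP

open Finset

variable {G : Type*} [AddCommGroup G] [Fintype G] {φ : G → ℝ} {κ : ℝ}

theorem ZOpt_b_mem {A X : Finset G} {b e : G} (h : Opt φ κ A X b e) : b ∈ X := by
  rw [h.eqX]
  refine ⟨h.bmem, ?_⟩
  rw [sub_self, h.rot.zero]
  norm_num

theorem ZOpt_card_pos : (0 : ℝ) < Fintype.card G := by
  exact_mod_cast (Fintype.card_pos (α := G))

theorem z_opt_ex (h : Rot φ κ) (hκ : κ ≤ 1 / 10 ^ 4) (A : Finset G) (hA : SSF A)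
    (ha : (1 / 3 - 1 / 10 ^ 4) * (Fintype.card G : ℝ) ≤ A.card)
    (hb : ∃ b ∈ A, 252 / 1000 * (Fintype.card G : ℝ) ≤ ((hc φ A b).card : ℝ)) :
    ∃ X : Finset G, ∃ b e : G, Opt φ κ A X b e := by
  classical
  have hn : (0 : ℝ) < Fintype.card G := ZOpt_card_pos
  obtain ⟨b₀, -, hb₀⟩ := hb
  obtain ⟨b', -, hb'⟩ := exists_max_image (univ : Finset G) (fun b => (hc φ A b).card) ⟨0, mem_univ _⟩
  have hb'' : 252 / 1000 * (Fintype.card G : ℝ) ≤ ((hc φ A b').card : ℝ) :=
    hb₀.trans (by exact_mod_cast hb' b₀ (mem_univ _))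
  have hne : (hc φ A b').Nonempty := by
    rw [← card_pos]
    have : (0 : ℝ) < ((hc φ A b').card : ℝ) := by nlinarith
    exact_mod_cast this
  obtain ⟨b, hbm, hbmin⟩ := exists_min_image (hc φ A b') (fun z => φ (z - b')) hne
  have hbm' := mem_filter.1 hbm
  have hsub : hc φ A b' ⊆ hc φ A b := by
    intro z hz
    have hz' := mem_filter.1 hz
    refine mem_filter.2 ⟨hz'.1, ?_⟩
    have e : z - b = (z - b') - (b - b') := by abel
    rw [e, h.sub_of_le (hbmin z hz)]
    have := h.nonneg (b - b')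
    linarith [hz'.2]
  have hbX : b ∈ hc φ A b := by
    refine mem_filter.2 ⟨hbm'.1, ?_⟩
    rw [sub_self, h.zero]
    norm_num
  obtain ⟨e, he, hemax⟩ := exists_max_image (hc φ A b) (fun z => φ (z - b)) ⟨b, hbX⟩
  have hcard : (hc φ A b').card ≤ (hc φ A b).card := card_le_card hsub
  refine ⟨hc φ A b, b, e, h, hA, hbm'.1, fun z => mem_filter, he, hemax, fun c => ?_, ?_, ha, hκ⟩
  · exact (hb' c (mem_univ _)).trans hcard
  · refine hb''.trans ?_
    exact_mod_cast hcard

theorem z_opt_lt {A X : Finset G} {b e : G} (h : Opt φ κ A X b e) : φ (e - b) < 1 / 2 :=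
  ((h.eqX e).1 h.emem).2

theorem z_opt_fold {A X : Finset G} {b e : G} (h : Opt φ κ A X b e) :
    φ (e - b) * Fintype.card G + X.card + A.card ≤ (1 + 3 * κ) * Fintype.card G := by
  classical
  have hn : (0 : ℝ) < Fintype.card G := ZOpt_card_pos
  have hcard : (X.image (fun z => z - b)).card = X.card :=
    card_image_of_injective _ (fun x y hxy => by simpa using hxy)
  have key := z_fold h.rot A (X.image (fun z => z - b)) (g₀ := e - b)
    (mem_image.2 ⟨b, ZOpt_b_mem h, sub_self b⟩) (mem_image.2 ⟨e, h.emem, rfl⟩)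
    (fun p hp => by
      obtain ⟨z, hz, rfl⟩ := mem_image.1 hp
      exact h.last z hz) (z_opt_lt h)
    (fun p hp p' hp' => by
      obtain ⟨z, hz, rfl⟩ := mem_image.1 hp
      obtain ⟨z', hz', rfl⟩ := mem_image.1 hp'
      intro hw
      have e1 : z - b - (z' - b) = z - z' := by abel
      rw [e1] at hw
      have e2 := h.ssf.2 z' ((h.eqX z').1 hz').1 (z - z') hw
      rw [add_sub_cancel] at e2
      exact e2 ((h.eqX z).1 hz).1)
    (by
      rw [hcard]
      have h1 := z_opt_lt h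
      have h2 := h.big
      have h3 := h.kap
      nlinarith)
  rw [hcard] at key
  exact key

theorem z_opt_sub {A X : Finset G} {b e : G} (h : Opt φ κ A X b e) :
    ∀ y ∈ A, φ (y - b) ≤ φ (e - b) ∨ (1 / 2 ≤ φ (y - b) ∧ φ (y - b) ≤ 1 / 2 + φ (e - b)) := by
  classical
  intro y hy
  by_contra hcon
  push Not at hcon
  obtain ⟨h1, h2⟩ := hcon
  have hl := z_opt_lt h
  by_cases h3 : φ (y - b) < 1 / 2
  · have h4 := h.last y ((h.eqX y).2 ⟨hy, h3⟩)
    linarith
  · have h4 := h2 (not_lt.1 h3)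
    have h5 : (insert y X) ⊆ A.filter (fun z => φ (e - z) < 1 / 2) := by
      intro z hz
      rcases mem_insert.1 hz with rfl | hz
      · refine mem_filter.2 ⟨hy, ?_⟩
        have e1 : e - z = (e - b) - (z - b) := by abel
        rw [e1, h.rot.sub_of_lt h1]
        linarith
      · refine mem_filter.2 ⟨((h.eqX z).1 hz).1, ?_⟩
        have e1 : e - z = (e - b) - (z - b) := by abel
        rw [e1, h.rot.sub_of_le (h.last z hz)]
        have := h.rot.nonneg (z - b)
        linarith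
    have h6 : y ∉ X := fun h7 => h3 ((h.eqX y).1 h7).2
    have h7 := card_le_card h5
    rw [card_insert_of_notMem h6] at h7
    have h8 : (A.filter (fun z => φ (e - z) < 1 / 2)).card ≤ (hc φ A (-e)).card := by
      refine card_le_card_of_injOn (fun z => -z) ?_ (fun x _ y _ hxy => neg_injective hxy)
      intro z hz
      have hz' := mem_filter.1 (Finset.mem_coe.1 hz)
      refine Finset.mem_coe.2 (mem_filter.2 ⟨h.ssf.1 z hz'.1, ?_⟩)
      have e1 : -z - -e = e - z := by abel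
      rw [e1]
      exact hz'.2
    have h9 := h.max (-e)
    omega

theorem ZOpt_neg {A X : Finset G} {b e : G} (h : Opt φ κ A X b e) {x : G} (hx : x ∈ X) :
    φ (-x - -e) = φ (e - b) - φ (x - b) := by
  have e1 : -x - -e = (e - b) - (x - b) := by abel
  rw [e1, h.rot.sub_of_le (h.last x hx)]

open Classical in
theorem z_opt_refl {A X : Finset G} {b e : G} (h : Opt φ κ A X b e) :
    Opt φ κ A (X.image (fun z => -z)) (-e) (-b) ∧ φ (-b - -e) = φ (e - b) := by
  have hcard : (X.image (fun z => -z)).card = X.card := card_image_of_injective _ neg_injective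
  have hbe : φ (-b - -e) = φ (e - b) := by
    have e1 : -b - -e = e - b := by abel
    rw [e1]
  have hl := z_opt_lt h
  refine ⟨⟨h.rot, h.ssf, h.ssf.1 e ((h.eqX e).1 h.emem).1, fun z => ⟨fun hz => ?_, fun hz => ?_⟩,
    mem_image.2 ⟨b, ZOpt_b_mem h, rfl⟩, fun z hz => ?_, fun b' => ?_, ?_, h.dens, h.kap⟩, hbe⟩
  · obtain ⟨x, hx, rfl⟩ := mem_image.1 hz
    refine ⟨h.ssf.1 x ((h.eqX x).1 hx).1, ?_⟩
    rw [ZOpt_neg h hx]
    have := h.rot.nonneg (x - b)
    linarith
  · obtain ⟨hzA, hz2⟩ := hz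
    refine mem_image.2 ⟨-z, ?_, neg_neg z⟩
    have hw : -z ∈ A := h.ssf.1 z hzA
    rw [h.eqX]
    refine ⟨hw, ?_⟩
    rcases z_opt_sub h (-z) hw with h1 | ⟨h1, h2⟩
    · exact h1.trans_lt hl
    · exfalso
      have e1 : z - -e = (e - b) - (-z - b) := by abel
      rw [e1, h.rot.sub_of_lt (hl.trans_le h1)] at hz2
      linarith
  · obtain ⟨x, hx, rfl⟩ := mem_image.1 hz
    rw [hbe, ZOpt_neg h hx]
    have := h.rot.nonneg (x - b)
    linarith
  · rw [hcard]
    exact h.max b'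
  · rw [hcard]
    exact h.big

theorem z_opt_centre {A X : Finset G} {b e : G} (h : Opt φ κ A X b e)
    (hhalf : (A.card : ℝ) ≤ 1 / 2 * Fintype.card G) :
    ∃ s : ℝ, 0 ≤ s ∧ s ≤ 2 * φ (e - b) ∧
      (2 * φ b + s = 0 ∨ 2 * φ b + s = 1 ∨ 2 * φ b + s = 2) := by
  classical
  have hn : (0 : ℝ) < Fintype.card G := ZOpt_card_pos
  have hcard : (X.image (fun z => -z)).card = X.card := card_image_of_injective _ neg_injective
  have hl := z_opt_lt h
  have hint : ¬ Disjoint X (X.image (fun z => -z)) := by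
    intro hd
    have h1 : X ∪ X.image (fun z => -z) ⊆ A := by
      intro z hz
      rcases mem_union.1 hz with hz | hz
      · exact ((h.eqX z).1 hz).1
      · obtain ⟨x, hx, rfl⟩ := mem_image.1 hz
        exact h.ssf.1 x ((h.eqX x).1 hx).1
    have h2 := card_le_card h1
    rw [card_union_of_disjoint hd, hcard] at h2
    have h3 : (X.card : ℝ) + X.card ≤ A.card := by exact_mod_cast h2
    have h4 := h.big
    nlinarith
  rw [not_disjoint_iff] at hint
  obtain ⟨z, hz, hz'⟩ := hint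
  obtain ⟨w, hw, hwz⟩ := mem_image.1 hz'
  have hw' : w = -z := by rw [← hwz, neg_neg]
  subst hw'
  refine ⟨φ (z - b) + φ (-z - b), add_nonneg (h.rot.nonneg _) (h.rot.nonneg _), ?_, ?_⟩
  · have h1 := h.last z hz
    have h2 := h.last (-z) hw
    linarith
  · have h1 := h.last z hz
    have h2 := h.last (-z) hw
    have a1 := h.rot.add (z - b) b
    have a2 := h.rot.add (-z - b) b
    have a3 := h.rot.add z (-z)
    rw [sub_add_cancel] at a1 a2
    rw [add_neg_cancel, h.rot.zero] at a3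
    have hb1 := h.rot.lt_one b
    have hz0 := h.rot.nonneg z
    have hz1 := h.rot.nonneg (-z)
    rcases a1 with a1 | a1 <;> rcases a2 with a2 | a2 <;> rcases a3 with a3 | a3
    · left; linarith
    · right; left; linarith
    · right; left; linarith
    · right; right; linarith
    · right; left; linarith
    · right; right; linarith
    · right; right; linarith
    · exfalso; linarith

end SFP
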