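import Pool.Agent.SFP.ZDefs

/-!
# Module ZOrd (2): the frequency has large order

Let `g = gcd u m`, `q = m / g`. Suppose `q ≤ K₁`. `q ∣ m`, `q ≥ 2` (as `g ∣ u`, `0 < u < m`). `u = g u'`, so
`cos (2 π u x / m) = cos (2 π u' x / q)` depends only on `c = x.val mod q`. With `N_c = #{x ∈ A : x.val % q = c}`, `c < q`,
`|N_c - m/(3q)| ≤ m/(100 q)`: `∑_{x∈A} cos = ∑_c N_c cos (2π u' c/q) = ∑_c (N_c - m/(3q)) cos(..)` because
`∑_{c<q} cos (2π u' c / q) = 0` (`u'` is coprime to `q ≥ 2`). So `|∑_{x∈A} cos| ≤ m/100`. But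
`|A|²/(m-|A|) ≥ (0.3332)² m / 0.667 > m/7`. Contradiction.
-/

namespace SFP

open Finset

theorem ZOrd_geo {q u' : ℕ} (hq : 2 ≤ q) (hc : Nat.Coprime u' q) :
    ∑ c ∈ range q, Real.cos (2 * Real.pi * (u' * (c : ℝ) / q)) = 0 := by
  have h0 : q ≠ 0 := by omega
  have h1 := Complex.isPrimitiveRoot_exp_of_coprime u' q h0 hc
  have h2 := h1.geom_sum_eq_zero (by omega)
  have h3 := congrArg Complex.re h2
  rw [Complex.re_sum, Complex.zero_re] at h3
  rw [← h3]
  refine sum_congr rfl fun c _ => ?_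
  rw [← Complex.exp_nat_mul]
  have e : (c : ℂ) * (2 * Real.pi * Complex.I * ((u' : ℂ) / q)) =
      ((2 * Real.pi * (u' * (c : ℝ) / q) : ℝ) : ℂ) * Complex.I := by
    push_cast
    ring
  rw [e, Complex.exp_ofReal_mul_I_re]

theorem ZOrd_cos {q u' : ℕ} (hq : 0 < q) (n : ℕ) :
    Real.cos (2 * Real.pi * (u' * (n : ℝ) / q)) = Real.cos (2 * Real.pi * (u' * ((n % q : ℕ) : ℝ) / q)) := by
  have hq' : (q : ℝ) ≠ 0 := by positivity
  have e : (n : ℝ) = q * ((n / q : ℕ) : ℝ) + ((n % q : ℕ) : ℝ) := by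
    exact_mod_cast (Nat.div_add_mod n q).symm
  have e2 : 2 * Real.pi * (u' * (n : ℝ) / q) =
      2 * Real.pi * (u' * ((n % q : ℕ) : ℝ) / q) + ((u' * (n / q) : ℕ) : ℝ) * (2 * Real.pi) := by
    rw [e]
    push_cast
    field_simp
    ring
  rw [e2, Real.cos_add_nat_mul_two_pi]

theorem z_order {m K₁ : ℕ} [NeZero m] (A : Finset (ZMod m)) (hlt : A.card < m)
    (ha : (1 / 3 - 1 / 10 ^ 4) * (m : ℝ) ≤ A.card)
    (hb : ∀ q : ℕ, q ∣ m → q ≤ K₁ → ∀ c < q,
      |((A.filter (fun x => x.val % q = c)).card : ℝ) - m / (3 * q)| ≤ m / (100 * q))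
    {u : ℕ} (hu0 : 0 < u) (hum : u < m)
    (hu : ∑ x ∈ A, Real.cos (2 * Real.pi * (u * (x.val : ℝ) / m)) ≤
      -((A.card : ℝ) ^ 2 / (m - A.card))) :
    K₁ * Nat.gcd u m < m := by
  by_contra hK
  push Not at hK
  have hm0 : 0 < m := by omega
  have hg0 : 0 < Nat.gcd u m := Nat.gcd_pos_of_pos_left _ hu0
  have hgu : Nat.gcd u m ∣ u := Nat.gcd_dvd_left u m
  have hgm : Nat.gcd u m ∣ m := Nat.gcd_dvd_right u m
  have hcop : Nat.Coprime (u / Nat.gcd u m) (m / Nat.gcd u m) := Nat.coprime_div_gcd_div_gcd hg0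
  have hgle : Nat.gcd u m ≤ u := Nat.le_of_dvd hu0 hgu
  generalize hg : Nat.gcd u m = g at *
  obtain ⟨u', hu'⟩ := hgu
  obtain ⟨q, hq⟩ := hgm
  have e1 : u / g = u' := by rw [hu', Nat.mul_div_cancel_left _ hg0]
  have e2 : m / g = q := by rw [hq, Nat.mul_div_cancel_left _ hg0]
  rw [e1, e2] at hcop
  have hq2 : 2 ≤ q := by
    by_contra h
    have : q = 0 ∨ q = 1 := by omega
    rcases this with h | h
    · rw [h] at hq; omega
    · rw [h] at hq; omega
  have hqK : q ≤ K₁ := by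
    rw [hq, mul_comm K₁ g] at hK
    exact Nat.le_of_mul_le_mul_left hK hg0
  have hqm : q ∣ m := ⟨g, by rw [hq, mul_comm]⟩
  have hB := hb q hqm hqK
  have hq0 : (0 : ℝ) < q := by exact_mod_cast (by omega : 0 < q)
  have hg0' : (0 : ℝ) < g := by exact_mod_cast hg0
  have hm0' : (0 : ℝ) < m := by exact_mod_cast hm0
  have hterm : ∀ x : ZMod m, Real.cos (2 * Real.pi * (u * (x.val : ℝ) / m)) =
      Real.cos (2 * Real.pi * (u' * ((x.val % q : ℕ) : ℝ) / q)) := by
    intro x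
    rw [← ZOrd_cos (by omega)]
    congr 1
    have hqc : (m : ℝ) = g * q := by exact_mod_cast hq
    rw [hu', hqc]
    push_cast
    field_simp
  have hsum : ∑ x ∈ A, Real.cos (2 * Real.pi * (u * (x.val : ℝ) / m)) =
      ∑ c ∈ range q, ((A.filter (fun x => x.val % q = c)).card : ℝ) *
        Real.cos (2 * Real.pi * (u' * (c : ℝ) / q)) := by
    rw [sum_congr rfl (fun x _ => hterm x)]
    rw [← sum_fiberwise_of_maps_to (s := A) (t := range q) (g := fun x : ZMod m => x.val % q)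
      (fun x _ => mem_range.2 (Nat.mod_lt _ (by omega)))]
    refine sum_congr rfl fun c _ => ?_
    rw [← nsmul_eq_mul, ← sum_const]
    refine sum_congr rfl fun x hx => ?_
    rw [(mem_filter.1 hx).2]
  have hzero := ZOrd_geo hq2 hcop
  have hsum2 : ∑ c ∈ range q, ((A.filter (fun x => x.val % q = c)).card : ℝ) *
        Real.cos (2 * Real.pi * (u' * (c : ℝ) / q)) =
      ∑ c ∈ range q, (((A.filter (fun x => x.val % q = c)).card : ℝ) - m / (3 * q)) *
        Real.cos (2 * Real.pi * (u' * (c : ℝ) / q)) := by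
    simp only [sub_mul]
    rw [sum_sub_distrib, ← mul_sum, hzero, mul_zero, sub_zero]
  have hbound : |∑ c ∈ range q, (((A.filter (fun x => x.val % q = c)).card : ℝ) - m / (3 * q)) *
        Real.cos (2 * Real.pi * (u' * (c : ℝ) / q))| ≤ m / 100 := by
    refine (abs_sum_le_sum_abs _ _).trans ?_
    have : ∀ c ∈ range q, |(((A.filter (fun x => x.val % q = c)).card : ℝ) - m / (3 * q)) *
        Real.cos (2 * Real.pi * (u' * (c : ℝ) / q))| ≤ m / (100 * q) := by
      intro c hc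
      rw [abs_mul]
      have h1 := hB c (mem_range.1 hc)
      have h2 := Real.abs_cos_le_one (2 * Real.pi * (u' * (c : ℝ) / q))
      calc _ ≤ |((A.filter (fun x => x.val % q = c)).card : ℝ) - m / (3 * q)| * 1 :=
            mul_le_mul_of_nonneg_left h2 (abs_nonneg _)
        _ ≤ _ := by rw [mul_one]; exact h1
    refine (sum_le_sum this).trans ?_
    rw [sum_const, card_range, nsmul_eq_mul]
    apply le_of_eq
    field_simp
  rw [hsum, hsum2] at hu
  have h1 := (abs_le.1 hbound).1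
  have hlt' : (A.card : ℝ) < m := by exact_mod_cast hlt
  have hd : (0 : ℝ) < m - A.card := by linarith
  have h2 : (A.card : ℝ) ^ 2 / (m - A.card) ≤ m / 100 := by linarith
  rw [div_le_iff₀ hd] at h2
  nlinarith [mul_pos hm0' hm0', mul_nonneg hm0'.le (sub_nonneg.2 ha),
    mul_nonneg (sub_nonneg.2 ha) (sub_nonneg.2 ha)]

end SFP
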