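import Pool.Agent.SFP.ZFou
import Pool.Agent.SFP.ZOrd
import Pool.Agent.SFP.ZRot
import Pool.Agent.SFP.ZIntC
import Pool.Agent.SFP.ZOpt
import Pool.Agent.SFP.ZCaseA
import Pool.Agent.SFP.ZCaseB1
import Pool.Agent.SFP.ZCaseB2

/-!
# Module ZFin (2): STZ

Assembly. `|A| ≤ m/2`: take `t ∈ A`; `y ↦ y + t` maps `A` injectively into its complement. So `|A| < m`. `z_fourier` gives `u`, `z_order`: `K₁ g < m`, `g = gcd u m`, `κ = g/m < 1/K₁ ≤ 1/10^4`;
`z_rot`: `φ x = fract (u x.val/m)` is a `Rot φ κ`; `cos (2π u x/m) = cos (2π φ x)`. `z_half`, `z_opt_ex`: `Opt φ κ A X b e`; `λ = φ (e - b)`; `z_opt_centre`: `s`, `2 φ b + s ∈ {0, 1, 2}`, `σ := s/2 ∈ [0, λ]`.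
If `σ > λ - σ` replace the configuration by the reflected one (`z_opt_refl`, then `b' = -e`): with `λ' = λ`; the new `s' := 2λ - s`: `2 φ(-e) + s' ≡ -2 φ e + 2λ - s ≡ -2 φ b - s ≡ 0 mod 1`, and it is in `[0, 3)` so it is again `0, 1` or `2`, and it is
`1` iff the old one is: (`φ b + s/2 ≡ 1/2` iff `φ(-e) + s'/2 ≡ 1/2`). Simplest: prove the final lemma for configurations with `σ ≤ λ - σ` and apply it to `(b, s)` or `(-e, 2λ - s)`.
Let `p = σ`, `L = λ - σ ≥ p`.
`2 φ b + s = 2` (`φ b = 1 - p`, `p > 0`) or `= 0` (`φ b = 0 = p`): `CA φ κ A X p L`: for `y ∈ A`: `φ y ≡ φ b + φ (y - b)`, use `z_opt_sub`, `z_opt_fold`; contradiction by `z_caseA`.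
`2 φ b + s = 1`: `φ b = 1/2 - p`: `CB φ κ A X p L` (`b2'`: `φ (y - b) = φ y - φ b ∈ [0, λ]`, `< 1/2`). `z_caseB1`, `z_caseB2`, `z_caseB3` give `φ y ∈ [a - 2κ, 1 - (a - 2κ)]`, so `nd (u y.val/m) = min (φ y) (1 - φ y) ≥ a - 2κ`.
-/

namespace SFP

open Finset

section ZFin

variable {G : Type*} [AddCommGroup G] [Fintype G] {φ : G → ℝ} {κ : ℝ}

theorem ZFin_sub {A X : Finset G} {b e : G} (h : Opt φ κ A X b e) : X ⊆ A :=
  fun z hz => ((h.eqX z).1 hz).1

theorem ZFin_add (h : Rot φ κ) (y b : G) :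
    φ y = φ b + φ (y - b) ∨ φ y = φ b + φ (y - b) - 1 := by
  have := h.add b (y - b)
  rwa [add_sub_cancel] at this

/-- Case `2 φ b + s ∈ {0, 2}`. -/
theorem ZFin_A {A X : Finset G} {b e : G} (h : Opt φ κ A X b e) {s : ℝ} (hs0 : 0 ≤ s)
    (hs : s ≤ φ (e - b)) (hc : 2 * φ b + s = 0 ∨ 2 * φ b + s = 2) : False := by
  have hlt : φ (e - b) < 1 / 2 := z_opt_lt h
  have hb0 := h.rot.nonneg b
  have hb1 := h.rot.lt_one b
  have hfold := z_opt_fold h
  have hX : ∀ y, φ (y - b) ≤ φ (e - b) → φ y ≤ φ (e - b) - s / 2 ∨ 1 - s / 2 ≤ φ y := by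
    intro y hy
    have h0 := h.rot.nonneg (y - b)
    have h1 := h.rot.nonneg y
    rcases ZFin_add h.rot y b with h2 | h2 <;> rcases hc with hc | hc
    · left; linarith
    · right; linarith
    · left; linarith
    · left; linarith
  have hCA : CA φ κ A X (s / 2) (φ (e - b) - s / 2) := by
    refine ⟨h.rot, h.ssf, ZFin_sub h, by linarith, by linarith, by linarith, ?_, ?_, ?_, ?_, h.big, h.dens,
      h.kap⟩
    · intro y hy
      exact hX y (h.last y hy)
    · intro y hy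
      rcases z_opt_sub h y hy with h1 | ⟨h1, h2⟩
      · rcases hX y h1 with h3 | h3
        · exact Or.inl h3
        · exact Or.inr (Or.inl h3)
      · have h0 := h.rot.nonneg y
        have h01 := h.rot.lt_one (y - b)
        rcases ZFin_add h.rot y b with h3 | h3 <;> rcases hc with hc | hc
        · right; right; constructor <;> linarith
        · right; left; linarith
        · left; linarith
        · right; right; constructor <;> linarith
    · refine ⟨e, h.emem, ?_⟩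
      have h0 := h.rot.nonneg e
      have h01 := h.rot.lt_one e
      rcases ZFin_add h.rot e b with h3 | h3 <;> rcases hc with hc | hc
      · linarith
      · linarith
      · linarith
      · linarith
    · have : s / 2 + (φ (e - b) - s / 2) = φ (e - b) := by ring
      rw [this]
      exact hfold
  exact z_caseA hCA

/-- Case `2 φ b + s = 1`. -/
theorem ZFin_B {A X : Finset G} {b e : G} (h : Opt φ κ A X b e) {s : ℝ} (hs0 : 0 ≤ s)
    (hs : s ≤ φ (e - b)) (hc : 2 * φ b + s = 1) :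
    ∀ y ∈ A, (A.card : ℝ) / Fintype.card G - 2 * κ ≤ φ y ∧
      φ y ≤ 1 - ((A.card : ℝ) / Fintype.card G - 2 * κ) := by
  have hlt : φ (e - b) < 1 / 2 := z_opt_lt h
  have hb0 := h.rot.nonneg b
  have hb1 := h.rot.lt_one b
  have hfold := z_opt_fold h
  have hX : ∀ y, φ (y - b) ≤ φ (e - b) → 1 / 2 - s / 2 ≤ φ y ∧ φ y ≤ 1 / 2 + (φ (e - b) - s / 2) := by
    intro y hy
    have h0 := h.rot.nonneg (y - b)
    have h1 := h.rot.nonneg y
    rcases ZFin_add h.rot y b with h2 | h2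
    · constructor <;> linarith
    · exfalso; linarith
  have hCB : CB φ κ A X (s / 2) (φ (e - b) - s / 2) := by
    refine ⟨h.rot, h.ssf, ZFin_sub h, by linarith, by linarith, by linarith, ?_, ?_, ?_, ?_, ?_, h.big, h.dens,
      h.kap⟩
    · intro y hy
      exact hX y (h.last y hy)
    · intro y hy
      rcases z_opt_sub h y hy with h1 | ⟨h1, h2⟩
      · exact Or.inl (hX y h1)
      · rcases ZFin_add h.rot y b with h3 | h3
        · right; right; linarith
        · right; left; linarith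
    · intro y hy h1 h2
      rw [h.eqX]
      refine ⟨hy, ?_⟩
      have hle : φ b ≤ φ y := by linarith
      rw [h.rot.sub_of_le hle]
      linarith
    · refine ⟨e, h.emem, ?_⟩
      have h0 := h.rot.nonneg e
      rcases ZFin_add h.rot e b with h3 | h3
      · linarith
      · linarith
    · have : s / 2 + (φ (e - b) - s / 2) = φ (e - b) := by ring
      rw [this]
      exact hfold
  have hB1 := z_caseB1 hCB
  exact z_caseB3 hCB hB1 (z_caseB2 hCB hB1)

theorem ZFin_C {A X : Finset G} {b e : G} (h : Opt φ κ A X b e) {s : ℝ} (hs0 : 0 ≤ s)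
    (hs : s ≤ φ (e - b)) (hc : 2 * φ b + s = 0 ∨ 2 * φ b + s = 1 ∨ 2 * φ b + s = 2) :
    ∀ y ∈ A, (A.card : ℝ) / Fintype.card G - 2 * κ ≤ φ y ∧
      φ y ≤ 1 - ((A.card : ℝ) / Fintype.card G - 2 * κ) := by
  rcases hc with hc | hc | hc
  · exact absurd (ZFin_A h hs0 hs (Or.inl hc)) id
  · exact ZFin_B h hs0 hs hc
  · exact absurd (ZFin_A h hs0 hs (Or.inr hc)) id

theorem ZFin_D {A X : Finset G} {b e : G} (h : Opt φ κ A X b e)
    (hhalf : (A.card : ℝ) ≤ 1 / 2 * Fintype.card G) :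
    ∀ y ∈ A, (A.card : ℝ) / Fintype.card G - 2 * κ ≤ φ y ∧
      φ y ≤ 1 - ((A.card : ℝ) / Fintype.card G - 2 * κ) := by
  classical
  obtain ⟨s, hs0, hs2, hc⟩ := z_opt_centre h hhalf
  rcases le_or_gt s (φ (e - b)) with hs | hs
  · exact ZFin_C h hs0 hs hc
  · obtain ⟨h', hl⟩ := z_opt_refl h
    have hlt : φ (e - b) < 1 / 2 := z_opt_lt h
    refine ZFin_C h' (s := 2 * φ (e - b) - s) (by linarith) (by rw [hl]; linarith) ?_
    -- the integer
    have hk : ∃ k : ℤ, 2 * φ (-e) + (2 * φ (e - b) - s) = k := by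
      have h1 := h.rot.add (-e) (e - b)
      have e1 : -e + (e - b) = -b := by abel
      rw [e1] at h1
      have h2 := h.rot.add b (-b)
      rw [add_neg_cancel, h.rot.zero] at h2
      have h3 : ∃ i : ℤ, φ (-e) + φ (e - b) = φ (-b) + i := by
        rcases h1 with h1 | h1
        · exact ⟨0, by push_cast; linarith⟩
        · exact ⟨1, by push_cast; linarith⟩
      have h4 : ∃ i : ℤ, φ (-b) = -φ b + i := by
        rcases h2 with h2 | h2
        · exact ⟨0, by push_cast; linarith⟩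
        · exact ⟨1, by push_cast; linarith⟩
      have h5 : ∃ i : ℤ, 2 * φ b + s = i := by
        rcases hc with hc | hc | hc
        · exact ⟨0, by push_cast; linarith⟩
        · exact ⟨1, by push_cast; linarith⟩
        · exact ⟨2, by push_cast; linarith⟩
      obtain ⟨i, hi⟩ := h3
      obtain ⟨j, hj⟩ := h4
      obtain ⟨k, hk⟩ := h5
      exact ⟨2 * i + 2 * j - k, by push_cast; linarith⟩
    obtain ⟨k, hk⟩ := hk
    have h0 := h.rot.nonneg (-e)
    have h1 := h.rot.lt_one (-e)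
    have hk0 : (0 : ℝ) ≤ k := by rw [← hk]; linarith
    have hk3 : (k : ℝ) < 3 := by rw [← hk]; linarith
    have hk0' : 0 ≤ k := by exact_mod_cast hk0
    have hk3' : k < 3 := by exact_mod_cast hk3
    rw [hk]
    have : k = 0 ∨ k = 1 ∨ k = 2 := by omega
    rcases this with rfl | rfl | rfl
    · left; norm_num
    · right; left; norm_num
    · right; right; norm_num

theorem ZFin_half (A : Finset G) (hA : SSF A) (hne : A.Nonempty) :
    (A.card : ℝ) ≤ 1 / 2 * Fintype.card G := by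
  classical
  obtain ⟨t, ht⟩ := hne
  have h1 : Disjoint A (A.image (fun y => y + t)) := by
    rw [Finset.disjoint_left]
    intro x hx hx'
    obtain ⟨y, hy, hyx⟩ := Finset.mem_image.1 hx'
    exact hA.2 y hy t ht (hyx ▸ hx)
  have h2 : (A.image (fun y => y + t)).card = A.card :=
    Finset.card_image_of_injective _ (add_left_injective t)
  have h3 : (A ∪ A.image (fun y => y + t)).card ≤ Fintype.card G := Finset.card_le_univ _
  rw [Finset.card_union_of_disjoint h1, h2] at h3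
  have h4 : (A.card : ℝ) + A.card ≤ Fintype.card G := by exact_mod_cast h3
  linarith

end ZFin

/-- **STZ.** A symmetric sum-free set of density about `1/3` in `ℤ/m` without small periods is contained in `{x : ‖u x / m‖ ≥ |A|/m - 2 κ}`. -/
theorem stz {m K₁ : ℕ} [NeZero m] (hK : 10 ^ 4 ≤ K₁) (A : Finset (ZMod m)) (hA : SSF A)
    (ha : (1 / 3 - 1 / 10 ^ 4) * (m : ℝ) ≤ A.card)
    (hb : ∀ q : ℕ, q ∣ m → q ≤ K₁ → ∀ c < q,
      |((A.filter (fun x => x.val % q = c)).card : ℝ) - m / (3 * q)| ≤ m / (100 * q)) :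
    ∃ u : ℕ, 0 < u ∧ K₁ * Nat.gcd u m < m ∧
      ∀ x ∈ A, (A.card : ℝ) / m - 2 * (Nat.gcd u m : ℝ) / m ≤ nd (u * (x.val : ℝ) / m) := by
  have hm0 : 0 < m := Nat.pos_of_ne_zero (NeZero.ne m)
  have hmR : (0 : ℝ) < m := by exact_mod_cast hm0
  have hne : A.Nonempty := by
    rw [← Finset.card_pos]
    have : (0 : ℝ) < A.card := by
      have : (0 : ℝ) < (1 / 3 - 1 / 10 ^ 4) * (m : ℝ) := by
        apply mul_pos _ hmR
        norm_num
      linarith
    exact_mod_cast this
  have hcard : Fintype.card (ZMod m) = m := ZMod.card m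
  have hhalf := ZFin_half A hA hne
  have hhalf' : (A.card : ℝ) ≤ 1 / 2 * m := by rwa [hcard] at hhalf
  have hlt : A.card < m := by
    have : (A.card : ℝ) < m := by linarith
    exact_mod_cast this
  obtain ⟨u, hu0, hum, hcos⟩ := z_fourier A hA hne
  have hord := z_order A hlt ha hb hu0 hum hcos
  refine ⟨u, hu0, hord, ?_⟩
  have hrot := z_rot (m := m) u
  set φ : ZMod m → ℝ := fun x : ZMod m => Int.fract (u * (x.val : ℝ) / m) with hφ
  set κ : ℝ := (Nat.gcd u m : ℝ) / m with hκ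
  have hκ4 : κ ≤ 1 / 10 ^ 4 := by
    rw [hκ, div_le_div_iff₀ hmR (by norm_num), one_mul]
    have h1 : 10 ^ 4 * Nat.gcd u m ≤ m := (Nat.mul_le_mul_right _ hK).trans hord.le
    have h2 : ((10 ^ 4 * Nat.gcd u m : ℕ) : ℝ) ≤ m := by exact_mod_cast h1
    push_cast at h2
    linarith
  have hcos' : ∑ z ∈ A, Real.cos (2 * Real.pi * φ z) ≤
      -((A.card : ℝ) ^ 2 / (Fintype.card (ZMod m) - A.card)) := by
    rw [hcard]
    refine le_trans (le_of_eq ?_) hcos
    refine Finset.sum_congr rfl fun z _ => ?_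
    have h1 : 2 * Real.pi * φ z = 2 * Real.pi * (u * (z.val : ℝ) / m) -
        (⌊(u * (z.val : ℝ) / m : ℝ)⌋ : ℝ) * (2 * Real.pi) := by
      rw [hφ]
      simp only [Int.fract]
      ring
    rw [h1, Real.cos_sub_int_mul_two_pi]
  have ha' : (1 / 3 - 1 / 10 ^ 4) * (Fintype.card (ZMod m) : ℝ) ≤ A.card := by rw [hcard]; exact ha
  have hex := z_half hrot hκ4 A hA ha' hhalf hcos'
  obtain ⟨X, b, e, hopt⟩ := z_opt_ex hrot hκ4 A hA ha' hex
  intro x hx
  obtain ⟨h1, h2⟩ := ZFin_D hopt hhalf x hx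
  rw [hcard] at h1 h2
  have e1 : (A.card : ℝ) / m - 2 * (Nat.gcd u m : ℝ) / m = (A.card : ℝ) / m - 2 * κ := by
    rw [hκ]; ring
  rw [e1, nd, abs_sub_round_eq_min]
  refine le_min h1 ?_
  have h3 : φ x = Int.fract ((u : ℝ) * (x.val : ℝ) / m) := rfl
  rw [← h3]
  linarith

end SFP
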