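import Pool.Agent.SFP.C6b
import Pool.Agent.SFP.ZFin
import Pool.Agent.SFP.A6a

/-!
# Module C6c: the frequency   (difficulty 2-3)

* `|A| ≥ |E| - m / 10^9 ≥ |S₀| - m / 10^9 ≥ (1/3 - 2 / 10^9) m` (`S₀ = blk m S 0`, `BAL.card`).
* balance for `stz` with `K₁ = 10^6`: `q ∣ m`, `q ≤ 10^6`, `c < q` (so `q ≥ 1`, `c % q = c`): `#{x ∈ A : x.val % q = c} ≤ #{x ∈ S₀ : ..} + |E \ S₀| ≤ (1/3 + ε) m / q + m / 10^9` and
  `≥ #{x ∈ S₀ : ..} - |E \ A| ≥ (1/3 - ε) m / q - m / 10^9` (`S₀ ⊆ E`), `m / 10^9 ≤ (1/1000) m / q`, `ε ≤ 1 / 10^9`: within `m / (100 q)` of `m / (3 q)`.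
* `stz`: `u > 0`, `10^6 gcd u m < m`, `‖u x / m‖ ≥ |A| / m - 2 gcd / m ≥ 1/3 - 3 / 10^6` for `x ∈ A`.  `κ = 1 / 10^6 ≥ gcd / m`.  `α = u / m`.
* `FR.up`, `FR.lo`: `c_equi_up`, `c_equi_lo` (`2 κ ≤ 1 / 10^4`).
* `FR.ex`: `P = {x : ZMod m | 1/3 - 3/10^6 ≤ ‖u x / m‖} = {x : ‖u x / m - 1/2‖ ≤ 1/6 + 3/10^6}` (`nd_sub_half`) has at most `(1/3 + 6/10^6 + 2/10^6) m` elements (`c_equi_z`), `A ⊆ P`, so `|P \ A| ≤ (8/10^6 + 2/10^9) m`,
  and for `j ≤ 2`: `|A \ blk m S j| ≤ |E \ blk m S j| ≤ m / 10^9`, so `|P \ blk m S j| ≤ m / 10^5`.  Let `y < 3 m`, `1/3 ≤ ‖α y‖`, `y ∉ S`: with `j = y / m ≤ 2`, `x = (y : ZMod m)`, `y = j m + x.val`, `‖α y‖ = ‖u x.val / m‖`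
  (`α y = u j + u x.val / m`, `nd_add_int`; or `z_rot_nat` and `nd_fract`), so `x ∈ P \ blk m S j` (`mem_blk`).  Total `≤ 3 m / 10^5 ≤ m / 10^4`.
-/

namespace SFP

open Finset

theorem c_freq {S : Finset ℕ} {m K : ℕ} [NeZero m] {ε : ℝ} {E A : Finset (ZMod m)}
    (hK : 10 ^ 6 ≤ K) (hε : ε ≤ 1 / 10 ^ 9) (hB : ∀ j ≤ 2, BAL K ε (blk m S j))
    (hE : ∀ j ≤ 2, blk m S j ⊆ E) (hE2 : ∀ j ≤ 2, ((E \ blk m S j).card : ℝ) ≤ 1 / 10 ^ 9 * m)
    (hA : A ⊆ E) (hS : SSF A) (hEA : ((E \ A).card : ℝ) ≤ 1 / 10 ^ 9 * m) :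
    ∃ α : ℝ, FR S m α := by
  classical
  have hm0 : 0 < m := Nat.pos_of_ne_zero (NeZero.ne m)
  have hM : (0 : ℝ) < m := by exact_mod_cast hm0
  obtain ⟨hc1, hc2⟩ := (hB 0 (by norm_num)).card (le_trans (by norm_num) hK)
  have hSE : ((blk m S 0).card : ℝ) ≤ E.card := by exact_mod_cast card_le_card (hE 0 (by norm_num))
  have hEcard : (E.card : ℝ) ≤ A.card + 1 / 10 ^ 9 * m := by
    have h1 : E.card = (E \ A).card + A.card := (card_sdiff_add_card_eq_card hA).symm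
    have h2 : (E.card : ℝ) = ((E \ A).card : ℝ) + A.card := by exact_mod_cast h1
    linarith
  have hεm : ε * m ≤ 1 / 10 ^ 9 * m := mul_le_mul_of_nonneg_right hε hM.le
  have hAcard : (1 / 3 - 2 / 10 ^ 9) * (m : ℝ) ≤ A.card := by nlinarith
  have hbal : ∀ q : ℕ, q ∣ m → q ≤ 10 ^ 6 → ∀ c < q,
      |((A.filter (fun x => x.val % q = c)).card : ℝ) - m / (3 * q)| ≤ m / (100 * q) := by
    intro q hq hqK c hc
    have hq1 : 1 ≤ q := by omega
    obtain ⟨h1, h2⟩ := hB 0 (by norm_num) q c hq1 (hqK.trans hK) hq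
    rw [Nat.mod_eq_of_lt hc] at h1 h2
    have hq0 : (0 : ℝ) < q := by exact_mod_cast hq1
    have hq6 : (q : ℝ) ≤ 10 ^ 6 := by exact_mod_cast hqK
    have hup : ((A.filter (fun x => x.val % q = c)).card : ℝ) ≤
        (((blk m S 0).filter (fun x => x.val % q = c)).card : ℝ) + ((E \ blk m S 0).card : ℝ) := by
      have : A.filter (fun x => x.val % q = c) ⊆
          (blk m S 0).filter (fun x => x.val % q = c) ∪ (E \ blk m S 0) := by
        intro x hx
        rw [mem_filter] at hx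
        rw [mem_union, mem_filter, mem_sdiff]
        by_cases hxb : x ∈ blk m S 0
        · exact Or.inl ⟨hxb, hx.2⟩
        · exact Or.inr ⟨hA hx.1, hxb⟩
      exact_mod_cast (card_le_card this).trans (card_union_le _ _)
    have hlo : (((blk m S 0).filter (fun x => x.val % q = c)).card : ℝ) ≤
        ((A.filter (fun x => x.val % q = c)).card : ℝ) + ((E \ A).card : ℝ) := by
      have : (blk m S 0).filter (fun x => x.val % q = c) ⊆
          A.filter (fun x => x.val % q = c) ∪ (E \ A) := by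
        intro x hx
        rw [mem_filter] at hx
        rw [mem_union, mem_filter, mem_sdiff]
        by_cases hxb : x ∈ A
        · exact Or.inl ⟨hxb, hx.2⟩
        · exact Or.inr ⟨hE 0 (by norm_num) hx.1, hxb⟩
      exact_mod_cast (card_le_card this).trans (card_union_le _ _)
    have hE20 := hE2 0 (by norm_num)
    set t : ℝ := (m : ℝ) / q with ht
    have ht0 : 0 < t := div_pos hM hq0
    have hmt : (m : ℝ) = t * q := by rw [ht]; field_simp
    have hm9 : 1 / 10 ^ 9 * (m : ℝ) ≤ 1 / 1000 * t := by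
      rw [hmt]
      nlinarith
    have e1 : (m : ℝ) / (3 * q) = t / 3 := by rw [ht]; field_simp
    have e2 : (m : ℝ) / (100 * q) = t / 100 := by rw [ht]; field_simp
    have e3 : (1 / 3 - ε) * (m : ℝ) / q = (1 / 3 - ε) * t := by rw [ht]; ring
    have e4 : (1 / 3 + ε) * (m : ℝ) / q = (1 / 3 + ε) * t := by rw [ht]; ring
    rw [e3] at h1
    rw [e4] at h2
    have hεt : ε * t ≤ 1 / 10 ^ 9 * t := mul_le_mul_of_nonneg_right hε ht0.le
    rw [e1, e2, abs_le]
    constructor <;> nlinarith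
  obtain ⟨u, hu0, hug, huA⟩ := stz (K₁ := 10 ^ 6) (by norm_num) A hS
    (le_trans (by nlinarith) hAcard) hbal
  have hκ : (Nat.gcd u m : ℝ) / m ≤ 1 / 10 ^ 6 := by
    rw [div_le_div_iff₀ hM (by norm_num)]
    have : ((10 ^ 6 * Nat.gcd u m : ℕ) : ℝ) ≤ m := by exact_mod_cast hug.le
    push_cast at this
    linarith
  refine ⟨(u : ℝ) / m, ?_, ?_, ?_⟩
  · intro v c r hr
    refine (c_equi_up hκ v c hr).trans ?_
    apply mul_le_mul_of_nonneg_right _ hM.le
    norm_num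
  · intro v c r hr hr1
    refine le_trans ?_ (c_equi_lo hκ v c hr hr1)
    apply mul_le_mul_of_nonneg_right _ hM.le
    norm_num
    linarith
  · set P : Finset (ZMod m) :=
      univ.filter (fun x : ZMod m => nd (u * (x.val : ℝ) / m - 1 / 2) ≤ 1 / 6 + 3 / 10 ^ 6) with hP
    have hPcard : (P.card : ℝ) ≤ (2 * (1 / 6 + 3 / 10 ^ 6) + 2 * (1 / 10 ^ 6)) * m :=
      c_equi_z hκ (1 / 2) (by norm_num)
    have hmemP : ∀ x : ZMod m, 1 / 3 - 3 / 10 ^ 6 ≤ nd (u * (x.val : ℝ) / m) → x ∈ P := by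
      intro x hx
      rw [hP, mem_filter, nd_sub_half]
      refine ⟨mem_univ _, ?_⟩
      linarith
    have hAP : A ⊆ P := by
      intro x hx
      apply hmemP
      refine le_trans ?_ (huA x hx)
      have h1 : (1 / 3 - 2 / 10 ^ 9 : ℝ) ≤ (A.card : ℝ) / m := by
        rw [le_div_iff₀ hM]; exact hAcard
      have h2 : 2 * (Nat.gcd u m : ℝ) / m ≤ 2 / 10 ^ 6 := by
        rw [mul_div_assoc]; linarith
      linarith
    have hPA : ((P \ A).card : ℝ) ≤ (8 / 10 ^ 6 + 2 / 10 ^ 9) * m := by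
      have h1 : P.card = (P \ A).card + A.card := (card_sdiff_add_card_eq_card hAP).symm
      have h2 : (P.card : ℝ) = ((P \ A).card : ℝ) + A.card := by exact_mod_cast h1
      nlinarith
    have hPb : ∀ j ≤ 2, ((P \ blk m S j).card : ℝ) ≤ m / 10 ^ 5 := by
      intro j hj
      have h1 : P \ blk m S j ⊆ (P \ A) ∪ (E \ blk m S j) := by
        intro x hx
        rw [mem_sdiff] at hx
        rw [mem_union, mem_sdiff, mem_sdiff]
        by_cases hxA : x ∈ A
        · exact Or.inr ⟨hA hxA, hx.2⟩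
        · exact Or.inl ⟨hx.1, hxA⟩
      have h2 : ((P \ blk m S j).card : ℝ) ≤ ((P \ A).card : ℝ) + ((E \ blk m S j).card : ℝ) := by
        exact_mod_cast (card_le_card h1).trans (card_union_le _ _)
      have h3 := hE2 j hj
      have h4 : (8 / 10 ^ 6 + 2 / 10 ^ 9) * (m : ℝ) + 1 / 10 ^ 9 * m ≤ m / 10 ^ 5 := by
        nlinarith
      linarith
    have hsub : (range (3 * m)).filter (fun y : ℕ => 1 / 3 ≤ nd ((u : ℝ) / m * y) ∧ y ∉ S) ⊆
        (range 3).biUnion (fun j => (P \ blk m S j).image (fun x => j * m + x.val)) := by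
      intro y hy
      rw [mem_filter, mem_range] at hy
      obtain ⟨hy1, hy2, hy3⟩ := hy
      have hj : y / m < 3 := by
        rw [Nat.div_lt_iff_lt_mul hm0]; exact hy1
      have hval : ((y : ZMod m)).val = y % m := ZMod.val_natCast _ _
      have hy4 : y / m * m + ((y : ZMod m)).val = y := by
        rw [hval]; exact Nat.div_add_mod' y m
      rw [mem_biUnion]
      refine ⟨y / m, mem_range.2 hj, ?_⟩
      rw [mem_image]
      refine ⟨(y : ZMod m), ?_, hy4⟩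
      rw [mem_sdiff, mem_blk, hy4]
      refine ⟨hmemP _ ?_, hy3⟩
      have key : ∀ j w : ℕ, j * m + w = y →
          (u : ℝ) / m * y = u * (w : ℝ) / m + (((u * j : ℕ) : ℤ) : ℝ) := by
        intro j w hjw
        have h6 : (y : ℝ) = (j : ℝ) * m + (w : ℝ) := by
          rw [← hjw]; push_cast; ring
        rw [h6]
        push_cast
        field_simp
        ring
      rw [key _ _ hy4, nd_add_int] at hy2
      linarith
    have hcard : (((range (3 * m)).filter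
        (fun y : ℕ => 1 / 3 ≤ nd ((u : ℝ) / m * y) ∧ y ∉ S)).card : ℝ) ≤
        ∑ j ∈ range 3, ((P \ blk m S j).card : ℝ) := by
      have h1 := (card_le_card hsub).trans card_biUnion_le
      have h2 : ∑ j ∈ range 3, ((P \ blk m S j).image (fun x => j * m + x.val)).card ≤
          ∑ j ∈ range 3, (P \ blk m S j).card := sum_le_sum fun j _ => card_image_le
      exact_mod_cast h1.trans h2
    have h7 : ∑ j ∈ range 3, ((P \ blk m S j).card : ℝ) ≤ ∑ _j ∈ range 3, (m : ℝ) / 10 ^ 5 := by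
      apply sum_le_sum
      intro j hj
      exact hPb j (by rw [mem_range] at hj; omega)
    rw [sum_const, card_range] at h7
    refine hcard.trans (h7.trans ?_)
    rw [nsmul_eq_mul]
    push_cast
    nlinarith

end SFP
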