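import Pool.Agent.SFP.CD

/-!
# Module C7: (t1) small elements of `S`   (difficulty 2)

Let `b = nd (α x)` and suppose `b < 1/3 - 1/100`.  `s = α x - round (α x)`, `|s| = b`.  Let `c = 1/2 - s/2`, `r = 1/6 - b/2 ≥ 0` (`≤ 1/2`).  `FR.lo` for `v = 0`: the set `Y` of the `y ∈ (0, m]` with `nd (α y - c) ≤ r` has at least
`(2 r - 1/10^4) m ≥ (1/100 - 1/10^4) m` elements.  For `y ∈ Y`: `nd (α y - 1/2) ≤ r + |s|/2 = 1/6` and `nd (α (y + x) - 1/2) = nd (α y + s - 1/2) ≤ nd (α y - c) + |s - s/2| ≤ 1/6` (`nd_lip`, `nd_add_int`), i.e.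
`nd (α y) ≥ 1/3`, `nd (α (y + x)) ≥ 1/3` (`nd_sub_half`).  `y, y + x < 3 m` (`x < 2 m`, `y ≤ m`).  By `FR.ex` at most `m / 10^4` of the `y ∈ Y` are not in `S`, and at most `m / 10^4` have `y + x ∉ S`; the others are counted in
`rp S x ≤ e₀ ≤ m / 10^4`.  So `(1/100 - 1/10^4) m ≤ 3 m / 10^4`, contradiction (`m > 0`).
-/

namespace SFP

open Finset

theorem c_t1 {S : Finset ℕ} {Z m : ℕ} {α e₀ : ℝ} (h : HT S Z m α e₀) {x : ℕ} (hx : x ∈ S)
    (hxm : x < 2 * m) : 1 / 3 - 1 / 100 ≤ nd (α * x) := by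
  by_contra hcon
  rw [not_le] at hcon
  have hmN := h.m1
  have hmR : (10 : ℝ) ^ 6 ≤ m := by exact_mod_cast hmN
  set b : ℝ := nd (α * x) with hb
  set s : ℝ := α * x - round (α * x) with hs
  have hsb : |s| = b := rfl
  have hb0 : 0 ≤ b := nd_nonneg _
  set c : ℝ := 1 / 2 - s / 2 with hc
  set r : ℝ := 1 / 6 - b / 2 with hr
  have hr0 : 0 ≤ r := by linarith
  have hr1 : r ≤ 1 / 2 := by linarith
  have hlo := h.fr.lo 0 c r hr0 hr1
  set Y := (Ioc 0 (0 + m)).filter (fun y : ℕ => nd (α * y - c) ≤ r) with hY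
  set A := (range (3 * m)).filter (fun y : ℕ => 1 / 3 ≤ nd (α * y) ∧ y ∉ S) with hA
  have hex : (A.card : ℝ) ≤ m / 10 ^ 4 := h.fr.ex
  have hy1 : ∀ y ∈ Y, 1 / 3 ≤ nd (α * y) ∧ 1 / 3 ≤ nd (α * ((y + x : ℕ) : ℝ)) := by
    intro y hy
    have hyr : nd (α * y - c) ≤ r := (mem_filter.1 hy).2
    have hs2 : |s / 2| = b / 2 := by rw [abs_div, hsb, abs_two]
    constructor
    · have h1 := nd_lip (α * y - 1 / 2) (α * y - c)
      rw [show α * (y : ℝ) - 1 / 2 - (α * y - c) = -(s / 2) by rw [hc]; ring, abs_neg, hs2, nd_sub_half] at h1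
      linarith
    · have h1 := nd_lip (α * y + s - 1 / 2) (α * y - c)
      rw [show α * (y : ℝ) + s - 1 / 2 - (α * y - c) = s / 2 by rw [hc]; ring, hs2] at h1
      have h2 := nd_add_int (α * y + s - 1 / 2) (round (α * x))
      rw [show α * (y : ℝ) + s - 1 / 2 + (round (α * x) : ℤ) = α * ((y + x : ℕ) : ℝ) - 1 / 2 by
        rw [hs]; push_cast; ring, nd_sub_half] at h2
      linarith
  have hcov : Y ⊆ (A ∪ Y.filter (fun y => y + x ∈ A)) ∪ S.filter (fun y => y + x ∈ S) := by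
    intro y hy
    have hym := mem_Ioc.1 (mem_filter.1 hy).1
    obtain ⟨h1, h2⟩ := hy1 y hy
    by_cases hyS : y ∈ S
    · by_cases hyx : y + x ∈ S
      · exact mem_union_right _ (mem_filter.2 ⟨hyS, hyx⟩)
      · refine mem_union_left _ (mem_union_right _ (mem_filter.2 ⟨hy, ?_⟩))
        exact mem_filter.2 ⟨mem_range.2 (by omega), h2, hyx⟩
    · refine mem_union_left _ (mem_union_left _ ?_)
      exact mem_filter.2 ⟨mem_range.2 (by omega), h1, hyS⟩
  have hB : (Y.filter (fun y => y + x ∈ A)).card ≤ A.card := by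
    apply card_le_card_of_injOn (fun y => y + x)
    · intro y hy
      exact (mem_filter.1 hy).2
    · intro y _ y' _ he
      exact Nat.add_right_cancel he
  have hD : ((S.filter (fun y => y + x ∈ S)).card : ℝ) ≤ e₀ := (h.rsf x hx).1
  have h3 : Y.card ≤ A.card + A.card + (S.filter (fun y => y + x ∈ S)).card := by
    refine (card_le_card hcov).trans ((card_union_le _ _).trans ?_)
    have := card_union_le A (Y.filter (fun y => y + x ∈ A))
    omega
  have h4 : (Y.card : ℝ) ≤ A.card + A.card + (S.filter (fun y => y + x ∈ S)).card := by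
    exact_mod_cast h3
  have h5 := h.e1
  have h6 : (1 / 100 - 1 / 10 ^ 4) * (m : ℝ) ≤ (2 * r - 1 / 10 ^ 4) * m := by
    apply mul_le_mul_of_nonneg_right _ (by linarith)
    linarith
  have h7 : (1 / 100 - 1 / 10 ^ 4) * (m : ℝ) ≤ 3 * (m / 10 ^ 4) := by linarith
  nlinarith

end SFP
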