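import Pool.Agent.SFP.C8a

/-!
# Module C8: (t2) every window is concentrated on an arc of length `1/3`   (difficulty 2-3)

`P = S.filter (v < y ≤ v + m)`, `|P| ≥ (1/3 - 1/10^4) m ≥ m / 4` (`HT.win`).  Pairs `(y₁, y₂) ∈ P × P` with `1/3 ≤ nd (α y₁ - α y₂)`: `y₁ ≠ y₂` (`nd 0 = 0`); by symmetry (`nd_neg`) there are at most twice as many as there are with
`y₁ < y₂`.  For `y₁ < y₂` let `x = y₂ - y₁`, `1 ≤ x < m`, `nd (α x) ≥ 1/3`, and `(y₁, y₂)` is determined by `(x, y₁)`.  If `x ∈ S`: `y₁ ∈ S`, `y₁ + x ∈ S`: at most `rp S x ≤ e₀` pairs for each `x`, total `≤ m e₀ ≤ m²/10^4`.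
If `x ∉ S`: `x` is one of at most `m / 10^4` numbers (`FR.ex`), and there are at most `m` possible `y₁` (`y₁ ∈ Ioc v (v + m)`): total `≤ m²/10^4`.  So `F := 4 m² / 10^4`.
`a = m / 50 + 1` (natural division): `a > m / 50` (real), `a² > m²/2500 = F`.  `c_circle` for `f y = α y`: at most `2 a + F / |P| ≤ m / 25 + 2 + 16 m / 10^4 ≤ 45 m / 1000` exceptions (`m ≥ 10^6`).
-/

namespace SFP

open Finset

theorem C8_count {S : Finset ℕ} {Z m : ℕ} {α e₀ : ℝ} (h : HT S Z m α e₀) {v : ℕ} :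
    ((((S.filter (fun y => v < y ∧ y ≤ v + m)) ×ˢ (S.filter (fun y => v < y ∧ y ≤ v + m))).filter
      (fun p => p.1 < p.2 ∧ 1 / 3 ≤ nd (α * p.1 - α * p.2))).card : ℝ) ≤
      m * e₀ + m / 10 ^ 4 * m := by
  obtain ⟨P, hP⟩ : ∃ P, P = S.filter (fun y => v < y ∧ y ≤ v + m) := ⟨_, rfl⟩
  rw [← hP]
  have hmem : ∀ y, y ∈ P ↔ y ∈ S ∧ v < y ∧ y ≤ v + m := by
    intro y
    rw [hP, mem_filter]
  obtain ⟨G, hG⟩ : ∃ G, G = (P ×ˢ P).filter (fun p => p.1 < p.2 ∧ 1 / 3 ≤ nd (α * p.1 - α * p.2)) :=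
    ⟨_, rfl⟩
  rw [← hG]
  have hGm : ∀ p : ℕ × ℕ, p ∈ G ↔ (p.1 ∈ P ∧ p.2 ∈ P) ∧ p.1 < p.2 ∧ 1 / 3 ≤ nd (α * p.1 - α * p.2) := by
    intro p
    rw [hG, mem_filter, mem_product]
  have hsplit : G.card = (G.filter (fun p => p.2 - p.1 ∈ S)).card +
      (G.filter (fun p => ¬ (p.2 - p.1 ∈ S))).card :=
    (card_filter_add_card_filter_not (fun p : ℕ × ℕ => p.2 - p.1 ∈ S)).symm
  -- first part
  have hA : ((G.filter (fun p => p.2 - p.1 ∈ S)).card : ℝ) ≤ m * e₀ := by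
    have h1 : ∀ p ∈ G.filter (fun p => p.2 - p.1 ∈ S), p.2 - p.1 ∈ range m := by
      intro p hp
      obtain ⟨⟨⟨h1, h2⟩, h3, -⟩, -⟩ := (mem_filter.1 hp).imp_left (hGm p).1
      have h1 := (hmem _).1 h1
      have h2 := (hmem _).1 h2
      rw [mem_range]
      omega
    rw [card_eq_sum_card_fiberwise h1, Nat.cast_sum]
    have h2 : ∀ x ∈ range m,
        (((G.filter (fun p => p.2 - p.1 ∈ S)).filter (fun p => p.2 - p.1 = x)).card : ℝ) ≤ e₀ := by
      intro x _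
      by_cases hx : x ∈ S
      · have h3 : ((G.filter (fun p => p.2 - p.1 ∈ S)).filter (fun p => p.2 - p.1 = x)).card ≤
            rp S x := by
          unfold rp
          apply card_le_card_of_injOn (fun p => p.1)
          · intro p hp
            have hp := mem_coe.1 hp
            rw [mem_filter, mem_filter, hGm] at hp
            obtain ⟨⟨⟨⟨h1, h2⟩, h3, -⟩, -⟩, h5⟩ := hp
            have h1 := (hmem _).1 h1
            have h2 := (hmem _).1 h2
            refine mem_coe.2 (mem_filter.2 ⟨h1.1, ?_⟩)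
            have h6 : p.1 + x = p.2 := by omega
            change p.1 + x ∈ S
            rw [h6]
            exact h2.1
          · intro p hp q hq hpq
            have hp := mem_coe.1 hp
            have hq := mem_coe.1 hq
            rw [mem_filter, mem_filter, hGm] at hp hq
            obtain ⟨⟨⟨-, h3, -⟩, -⟩, h5⟩ := hp
            obtain ⟨⟨⟨-, h3', -⟩, -⟩, h5'⟩ := hq
            have hpq : p.1 = q.1 := hpq
            ext
            · exact hpq
            · omega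
        exact le_trans (by exact_mod_cast h3) (h.rsf x hx).1
      · have h3 : (G.filter (fun p => p.2 - p.1 ∈ S)).filter (fun p => p.2 - p.1 = x) = ∅ := by
          rw [filter_eq_empty_iff]
          intro p hp hpx
          rw [mem_filter, hpx] at hp
          exact hx hp.2
        rw [h3]
        simpa using h.e0
    refine (sum_le_sum h2).trans ?_
    rw [sum_const, card_range, nsmul_eq_mul]
  -- second part
  have hB : ((G.filter (fun p => ¬ (p.2 - p.1 ∈ S))).card : ℝ) ≤ m / 10 ^ 4 * m := by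
    obtain ⟨E, hE⟩ : ∃ E, E = (range (3 * m)).filter (fun y : ℕ => 1 / 3 ≤ nd (α * y) ∧ y ∉ S) :=
      ⟨_, rfl⟩
    have hEc : (E.card : ℝ) ≤ m / 10 ^ 4 := by
      rw [hE]
      exact h.fr.ex
    have h1 : ∀ p ∈ G.filter (fun p => ¬ (p.2 - p.1 ∈ S)), p.2 - p.1 ∈ E := by
      intro p hp
      rw [mem_filter, hGm] at hp
      obtain ⟨⟨⟨h1, h2⟩, h3, h4⟩, h5⟩ := hp
      have h1 := (hmem _).1 h1
      have h2 := (hmem _).1 h2
      rw [hE, mem_filter, mem_range]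
      refine ⟨by omega, ?_, h5⟩
      rw [Nat.cast_sub h3.le, ← nd_neg]
      convert! h4 using 2
      ring
    have h0 : (G.filter (fun p => ¬ (p.2 - p.1 ∈ S))).card ≤ E.card * m := by
      rw [card_eq_sum_card_fiberwise h1]
      have h2 : ∀ x ∈ E,
          ((G.filter (fun p => ¬ (p.2 - p.1 ∈ S))).filter (fun p => p.2 - p.1 = x)).card ≤ m := by
        intro x _
        have h3 : m = (Ioc v (v + m)).card := by simp
        calc _ ≤ (Ioc v (v + m)).card := ?_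
          _ = m := h3.symm
        apply card_le_card_of_injOn (fun p => p.1)
        · intro p hp
          have hp := mem_coe.1 hp
          rw [mem_filter, mem_filter, hGm] at hp
          have h1 := (hmem _).1 hp.1.1.1.1
          refine mem_coe.2 (mem_Ioc.2 ⟨h1.2.1, h1.2.2⟩)
        · intro p hp q hq hpq
          have hp := mem_coe.1 hp
          have hq := mem_coe.1 hq
          rw [mem_filter, mem_filter, hGm] at hp hq
          obtain ⟨⟨⟨-, h3, -⟩, -⟩, h5⟩ := hp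
          obtain ⟨⟨⟨-, h3', -⟩, -⟩, h5'⟩ := hq
          have hpq : p.1 = q.1 := hpq
          ext
          · exact hpq
          · omega
      refine (sum_le_sum h2).trans ?_
      rw [sum_const, smul_eq_mul]
    calc ((G.filter (fun p => ¬ (p.2 - p.1 ∈ S))).card : ℝ) ≤ ((E.card * m : ℕ) : ℝ) := by
          exact_mod_cast h0
      _ = (E.card : ℝ) * m := by push_cast; ring
      _ ≤ m / 10 ^ 4 * m := by gcongr
  rw [hsplit]
  push_cast
  linarith

theorem c_arc {S : Finset ℕ} {Z m : ℕ} {α e₀ : ℝ} (h : HT S Z m α e₀) {v : ℕ} (hv : v + m ≤ Z) :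
    ∃ c : ℝ, ((S.filter (fun y => v < y ∧ y ≤ v + m ∧ 1 / 6 < nd (α * y - c))).card : ℝ) ≤
      45 / 1000 * m := by
  have hcount := C8_count h (v := v)
  obtain ⟨P, hP⟩ : ∃ P, P = S.filter (fun y => v < y ∧ y ≤ v + m) := ⟨_, rfl⟩
  rw [← hP] at hcount
  have hm : (10 : ℝ) ^ 6 ≤ m := by exact_mod_cast h.m1
  have hPc : (1 / 3 - 1 / 10 ^ 4) * (m : ℝ) ≤ (P.card : ℝ) := by
    rw [hP]
    exact h.win v hv
  have hPc' : (m : ℝ) / 4 ≤ P.card := by
    refine le_trans ?_ hPc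
    linarith
  have hP0 : (0 : ℝ) < P.card := by linarith
  have hPne : P.Nonempty := by
    rw [← card_pos]
    exact_mod_cast hP0
  have he := h.e1
  have hF : (((P ×ˢ P).filter (fun p : ℕ × ℕ => 1 / 3 ≤ nd (α * (p.1 : ℝ) - α * (p.2 : ℝ)))).card : ℝ) ≤
      4 * (m : ℝ) ^ 2 / 10 ^ 4 := by
    have h1 : (P ×ˢ P).filter (fun p : ℕ × ℕ => 1 / 3 ≤ nd (α * (p.1 : ℝ) - α * (p.2 : ℝ))) ⊆
        (P ×ˢ P).filter (fun p : ℕ × ℕ => p.1 < p.2 ∧ 1 / 3 ≤ nd (α * (p.1 : ℝ) - α * (p.2 : ℝ))) ∪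
          (P ×ˢ P).filter (fun p : ℕ × ℕ => p.2 < p.1 ∧ 1 / 3 ≤ nd (α * (p.1 : ℝ) - α * (p.2 : ℝ))) := by
      intro p hp
      rw [mem_filter] at hp
      rw [mem_union, mem_filter, mem_filter]
      rcases lt_trichotomy p.1 p.2 with h1 | h1 | h1
      · exact Or.inl ⟨hp.1, h1, hp.2⟩
      · exfalso
        have h2 := hp.2
        rw [h1, sub_self] at h2
        have h3 : nd (0 : ℝ) = 0 := by simp [nd]
        rw [h3] at h2
        norm_num at h2
      · exact Or.inr ⟨hp.1, h1, hp.2⟩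
    have h2 : ((P ×ˢ P).filter (fun p : ℕ × ℕ => p.2 < p.1 ∧ 1 / 3 ≤ nd (α * (p.1 : ℝ) - α * (p.2 : ℝ)))).card ≤
        ((P ×ˢ P).filter (fun p : ℕ × ℕ => p.1 < p.2 ∧ 1 / 3 ≤ nd (α * (p.1 : ℝ) - α * (p.2 : ℝ)))).card := by
      apply card_le_card_of_injOn Prod.swap
      · intro p hp
        have hp := mem_coe.1 hp
        rw [mem_filter, mem_product] at hp
        refine mem_coe.2 (mem_filter.2 ⟨mem_product.2 ⟨hp.1.2, hp.1.1⟩, hp.2.1, ?_⟩)
        rw [← nd_neg]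
        convert! hp.2.2 using 2
        simp
      · exact Prod.swap_injective.injOn
    have h3 := (card_le_card h1).trans (card_union_le _ _)
    have h4 : (((P ×ˢ P).filter (fun p : ℕ × ℕ => 1 / 3 ≤ nd (α * (p.1 : ℝ) - α * (p.2 : ℝ)))).card : ℝ) ≤
        2 * (((P ×ˢ P).filter (fun p : ℕ × ℕ => p.1 < p.2 ∧ 1 / 3 ≤ nd (α * (p.1 : ℝ) - α * (p.2 : ℝ)))).card : ℝ) := by
      have h5 := h3.trans (Nat.add_le_add_left h2 _)
      have h6 := (Nat.cast_le (α := ℝ)).2 h5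
      push_cast at h6
      linarith
    have h7 : (m : ℝ) * e₀ ≤ m * (m / 10 ^ 4) := by gcongr
    nlinarith
  have ha1 : (m : ℝ) / 50 < ((m / 50 + 1 : ℕ) : ℝ) := by
    have h1 : m < 50 * (m / 50 + 1) := by omega
    have h2 : (m : ℝ) < ((50 * (m / 50 + 1) : ℕ) : ℝ) := by exact_mod_cast h1
    rw [Nat.cast_mul] at h2
    have h3 : ((50 : ℕ) : ℝ) = 50 := by norm_num
    rw [h3] at h2
    linarith
  have ha2 : ((m / 50 + 1 : ℕ) : ℝ) ≤ (m : ℝ) / 50 + 1 := by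
    have h1 : 50 * (m / 50) ≤ m := by omega
    have h2 : ((50 * (m / 50) : ℕ) : ℝ) ≤ (m : ℝ) := by exact_mod_cast h1
    rw [Nat.cast_mul] at h2
    have h3 : ((50 : ℕ) : ℝ) = 50 := by norm_num
    rw [h3] at h2
    rw [Nat.cast_add, Nat.cast_one]
    linarith
  have hFa : 4 * (m : ℝ) ^ 2 / 10 ^ 4 < (((m / 50 + 1 : ℕ) : ℝ)) ^ 2 := by
    have h1 : 4 * (m : ℝ) ^ 2 / 10 ^ 4 = ((m : ℝ) / 50) ^ 2 := by ring
    rw [h1]
    have h2 : (0 : ℝ) ≤ (m : ℝ) / 50 := by positivity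
    exact pow_lt_pow_left₀ ha1 h2 two_ne_zero
  obtain ⟨c, hc⟩ := c_circle hPne (fun y : ℕ => α * (y : ℝ)) hF hFa
  refine ⟨c, ?_⟩
  have he2 : S.filter (fun y => v < y ∧ y ≤ v + m ∧ 1 / 6 < nd (α * y - c)) =
      P.filter (fun y : ℕ => 1 / 6 < nd (α * (y : ℝ) - c)) := by
    rw [hP, filter_filter]
    apply filter_congr
    intro y _
    tauto
  rw [he2]
  refine hc.trans ?_
  have h8 : 4 * (m : ℝ) ^ 2 / 10 ^ 4 / P.card ≤ 16 * m / 10 ^ 4 := by
    rw [div_le_iff₀ hP0]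
    have h9 : 16 * (m : ℝ) / 10 ^ 4 * (m / 4) ≤ 16 * m / 10 ^ 4 * P.card := by gcongr
    refine le_trans (le_of_eq ?_) h9
    ring
  linarith

end SFP
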