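import Pool.Agent.SFP.CD

/-!
# Module C8a: the circle lemma   (difficulty 2-3)

`F ≥ 0`, so `a ≥ 1`.  By averaging there is `y₀ ∈ P` with `#{y ∈ P : 1/3 ≤ nd (f y₀ - f y)} ≤ F / |P|`.  Let `P' = {y ∈ P : nd (f y - f y₀) < 1/3}` (`nd_neg`): `|P \ P'| ≤ F / |P|`.
If `|P'| ≤ 2 a` any `c` will do.  Otherwise let `s y = (f y - f y₀) - round (f y - f y₀)`, `|s y| < 1/3` for `y ∈ P'`.
Take `Lo ⊆ P'` with `|Lo| = a` and `s x ≤ s z` for `x ∈ Lo`, `z ∈ P' \ Lo` (helper lemma by induction on `a`: remove an element with the least value of `s`, `exists_min_image`), and then `Hi ⊆ P' \ Lo` with `|Hi| = a` and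
`s z ≤ s y` for `y ∈ Hi`, `z ∈ (P' \ Lo) \ Hi`.
If `s y - s x ≥ 1/3` for all `x ∈ Lo`, `y ∈ Hi`: `1/3 ≤ s y - s x < 2/3`, so `nd (f x - f y) = nd (s y - s x) ≥ 1/3` (`nd t ≥ 1/3` for `t ∈ [1/3, 2/3]`): all `a^2` pairs of `Lo × Hi` are counted, so `a^2 ≤ F`, contradiction.
So there are `x ∈ Lo`, `y ∈ Hi` with `s y - s x < 1/3`.  Let `c = f y₀ + (s x + s y) / 2`.  For `z ∈ P' \ (Lo ∪ Hi)`: `s x ≤ s z ≤ s y`, so `|s z - (s x + s y)/2| ≤ (s y - s x)/2 ≤ 1/6` and `nd (f z - c) ≤ 1/6`.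
The exceptions are in `(P \ P') ∪ Lo ∪ Hi`.
-/

namespace SFP

open Finset

/-- the `a` smallest elements -/
theorem C8a_low (Q : Finset ℕ) (s : ℕ → ℝ) (a : ℕ) (ha : a ≤ Q.card) :
    ∃ Lo : Finset ℕ, Lo ⊆ Q ∧ Lo.card = a ∧ ∀ x ∈ Lo, ∀ z ∈ Q, z ∉ Lo → s x ≤ s z := by
  induction a with
  | zero => exact ⟨∅, Finset.empty_subset _, rfl, fun x hx => absurd hx (Finset.notMem_empty x)⟩
  | succ a ih =>
    obtain ⟨Lo, hLo, hc, hmin⟩ := ih (by omega)
    have hne : (Q \ Lo).Nonempty := by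
      rw [← Finset.card_pos, Finset.card_sdiff_of_subset hLo]
      omega
    obtain ⟨w, hw, hwmin⟩ := Finset.exists_min_image (Q \ Lo) s hne
    rw [Finset.mem_sdiff] at hw
    refine ⟨insert w Lo, ?_, ?_, ?_⟩
    · intro x hx
      rcases Finset.mem_insert.1 hx with rfl | hx
      · exact hw.1
      · exact hLo hx
    · rw [Finset.card_insert_of_notMem hw.2, hc]
    · intro x hx z hz hz'
      rw [Finset.mem_insert, not_or] at hz'
      rcases Finset.mem_insert.1 hx with rfl | hx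
      · exact hwmin z (Finset.mem_sdiff.2 ⟨hz, hz'.2⟩)
      · exact hmin x hx z hz hz'.2

theorem C8a_third {t : ℝ} (h1 : 1 / 3 ≤ t) (h2 : t ≤ 2 / 3) : 1 / 3 ≤ nd t := by
  unfold nd
  rcases le_or_gt (round t) 0 with h | h
  · have h3 : ((round t : ℤ) : ℝ) ≤ 0 := by exact_mod_cast h
    exact le_trans (by linarith) (le_abs_self _)
  · have h3 : (1 : ℝ) ≤ ((round t : ℤ) : ℝ) := by exact_mod_cast h
    exact le_trans (by linarith) (neg_le_abs _)

theorem c_circle {P : Finset ℕ} (hP : P.Nonempty) (f : ℕ → ℝ) {a : ℕ} {F : ℝ}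
    (hF : (((P ×ˢ P).filter (fun p => 1 / 3 ≤ nd (f p.1 - f p.2))).card : ℝ) ≤ F)
    (hFa : F < (a : ℝ) ^ 2) :
    ∃ c : ℝ, ((P.filter (fun y => 1 / 6 < nd (f y - c))).card : ℝ) ≤ 2 * a + F / P.card := by
  classical
  have hPc : (0 : ℝ) < P.card := by exact_mod_cast hP.card_pos
  -- averaging
  obtain ⟨y₀, hy₀, hN⟩ : ∃ y₀ ∈ P, ((P.filter (fun y => 1 / 3 ≤ nd (f y₀ - f y))).card : ℝ)
      ≤ F / P.card := by
    apply Finset.exists_le_of_sum_le hP
    rw [Finset.sum_const, nsmul_eq_mul, mul_div_cancel₀ _ hPc.ne']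
    refine le_trans (le_of_eq ?_) hF
    have h1 : ((P ×ˢ P).filter (fun p => 1 / 3 ≤ nd (f p.1 - f p.2))).card
        = ∑ x ∈ P, (P.filter (fun y => 1 / 3 ≤ nd (f x - f y))).card := by
      rw [Finset.card_filter, Finset.sum_product]
      exact Finset.sum_congr rfl (fun x _ => (Finset.card_filter _ _).symm)
    rw [h1]
    push_cast
    rfl
  obtain ⟨P', hP'⟩ : ∃ P', P' = P.filter (fun y => nd (f y - f y₀) < 1 / 3) := ⟨_, rfl⟩
  have hsub : P' ⊆ P := by rw [hP']; exact Finset.filter_subset _ _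
  have hcomp : ((P \ P').card : ℝ) ≤ F / P.card := by
    refine le_trans ?_ hN
    have : P \ P' ⊆ P.filter (fun y => 1 / 3 ≤ nd (f y₀ - f y)) := by
      intro y hy
      rw [Finset.mem_sdiff, hP', Finset.mem_filter, not_and] at hy
      rw [Finset.mem_filter]
      refine ⟨hy.1, ?_⟩
      have := not_lt.1 (hy.2 hy.1)
      rw [← nd_neg, neg_sub] at this
      exact this
    exact_mod_cast Finset.card_le_card this
  rcases le_or_gt P'.card (2 * a) with hle | hgt
  · refine ⟨0, ?_⟩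
    have h1 : (P.filter (fun y => 1 / 6 < nd (f y - 0))).card ≤ P.card :=
      Finset.card_filter_le _ _
    have h2 : P.card = (P \ P').card + P'.card := (Finset.card_sdiff_add_card_eq_card hsub).symm
    have h3 : ((P.filter (fun y => 1 / 6 < nd (f y - 0))).card : ℝ) ≤ P.card := by exact_mod_cast h1
    have h4 : (P.card : ℝ) = ((P \ P').card : ℝ) + P'.card := by exact_mod_cast h2
    have h5 : (P'.card : ℝ) ≤ 2 * a := by exact_mod_cast hle
    linarith
  obtain ⟨s, hs⟩ : ∃ s : ℕ → ℝ, s = fun y => (f y - f y₀) - round (f y - f y₀) := ⟨_, rfl⟩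
  have hsf : ∀ y, f y = s y + f y₀ + (round (f y - f y₀) : ℤ) := by
    intro y
    rw [hs]
    ring
  have hs3 : ∀ y ∈ P', |s y| < 1 / 3 := by
    intro y hy
    rw [hP', Finset.mem_filter] at hy
    have := hy.2
    rw [hs]
    exact this
  obtain ⟨Lo, hLo, hLoc, hLom⟩ := C8a_low P' s a (by omega)
  obtain ⟨Hi, hHi, hHic, hHim⟩ := C8a_low (P' \ Lo) (fun y => -s y) a (by
    rw [Finset.card_sdiff_of_subset hLo, hLoc]
    omega)
  by_cases hall : ∀ x ∈ Lo, ∀ y ∈ Hi, 1 / 3 ≤ s y - s x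
  · exfalso
    have h1 : Lo ×ˢ Hi ⊆ (P ×ˢ P).filter (fun p => 1 / 3 ≤ nd (f p.1 - f p.2)) := by
      rintro ⟨x, y⟩ hxy
      rw [Finset.mem_product] at hxy
      obtain ⟨hx, hy⟩ := hxy
      have hxP' := hLo hx
      have hyP' := (Finset.mem_sdiff.1 (hHi hy)).1
      rw [Finset.mem_filter, Finset.mem_product]
      refine ⟨⟨hsub hxP', hsub hyP'⟩, ?_⟩
      show 1 / 3 ≤ nd (f x - f y)
      have h2 := abs_lt.1 (hs3 x hxP')
      have h3 := abs_lt.1 (hs3 y hyP')
      have h4 := C8a_third (hall x hx y hy) (by linarith)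
      have h5 : f x - f y = -(s y - s x) + ((round (f x - f y₀) - round (f y - f y₀) : ℤ) : ℝ) := by
        rw [hsf x, hsf y]
        push_cast
        have e1 : s x + f y₀ + (round (f x - f y₀) : ℝ) - f y₀ = f x - f y₀ := by
          rw [← hsf x]
        have e2 : s y + f y₀ + (round (f y - f y₀) : ℝ) - f y₀ = f y - f y₀ := by
          rw [← hsf y]
        rw [e1, e2]
        ring
      rw [h5, nd_add_int, nd_neg]
      exact h4
    have h2 := Finset.card_le_card h1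
    rw [Finset.card_product, hLoc, hHic] at h2
    have h3 : (a : ℝ) ^ 2 ≤ (((P ×ˢ P).filter (fun p => 1 / 3 ≤ nd (f p.1 - f p.2))).card : ℝ) := by
      rw [pow_two]
      exact_mod_cast h2
    linarith
  · push Not at hall
    obtain ⟨x, hx, y, hy, hxy⟩ := hall
    refine ⟨f y₀ + (s x + s y) / 2, ?_⟩
    have h1 : P.filter (fun z => 1 / 6 < nd (f z - (f y₀ + (s x + s y) / 2)))
        ⊆ (P \ P') ∪ (Lo ∪ Hi) := by
      intro z hz
      rw [Finset.mem_filter] at hz
      by_contra hcon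
      rw [Finset.mem_union, Finset.mem_union, Finset.mem_sdiff, not_or, not_or] at hcon
      obtain ⟨h2, h3, h4⟩ := hcon
      have hzP' : z ∈ P' := by
        by_contra h
        exact h2 ⟨hz.1, h⟩
      have h5 := hLom x hx z hzP' h3
      have h6 := hHim y hy z (Finset.mem_sdiff.2 ⟨hzP', h3⟩) h4
      simp only [neg_le_neg_iff] at h6
      have h7 := nd_le (f z - (f y₀ + (s x + s y) / 2)) (round (f z - f y₀))
      have h8 : f z - (f y₀ + (s x + s y) / 2) - ((round (f z - f y₀) : ℤ) : ℝ)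
          = s z - (s x + s y) / 2 := by
        rw [hs]
        ring
      rw [h8] at h7
      have h9 : |s z - (s x + s y) / 2| ≤ 1 / 6 := by
        rw [abs_le]
        constructor <;> linarith
      linarith [hz.2]
    have h2 := (Finset.card_le_card h1).trans ((Finset.card_union_le _ _).trans
      (Nat.add_le_add_left (Finset.card_union_le _ _) _))
    rw [hLoc, hHic] at h2
    have h3 : ((P.filter (fun z => 1 / 6 < nd (f z - (f y₀ + (s x + s y) / 2)))).card : ℝ)
        ≤ ((P \ P').card : ℝ) + (a + a) := by exact_mod_cast h2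
    linarith

end SFP
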