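import Pool.Agent.SFP.Defs

/-!
# Parts L and T: small definitions and API
-/

namespace SFP

open Finset

/-- `1 - 3 * 1_{[1/3, 2/3]}` mod 1. -/
noncomputable def eR (x : ℝ) : ℝ := if 1 / 3 ≤ Int.fract x ∧ Int.fract x ≤ 2 / 3 then -2 else 1

/-- The number of residues `v` mod `t` with `‖(v + x)/t‖ ≥ 1/3 - Y`. -/
noncomputable def Nv (t : ℕ) (x Y : ℝ) : ℕ :=
  ((range t).filter (fun v : ℕ => 1 / 3 - Y ≤ nd (((v : ℝ) + x) / t))).card

/-- All sections up to the largest cell are robustly sum-free. -/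
def RS (S : Finset ℕ) (T B E F M J : ℕ) : Prop :=
  ∀ D, 1 ≤ D → D ≤ (F * B) ^ J * M → RSF (sct S D (cl T B E (2 * J))) T

/-- The properties of the weights `a` (Part N). -/
structure Wts (lam CN : ℕ) (a : ℕ → ℝ) : Prop where
  nonneg : ∀ d, 0 ≤ a d
  sum : ∑ d ∈ Icc 1 (2 ^ (8 * lam * CN)), a d = 1
  n1 : ∀ q : ℕ, 1 ≤ q → q ≤ 2 ^ (8 * lam) → ∀ β : ℝ, 0 ≤ β →
    -(1 / 2 ^ (8 * lam)) ≤ ∑ d ∈ Icc 1 (2 ^ (8 * lam * CN)),
      a d * (chi (q / Nat.gcd q d) / ((q / Nat.gcd q d : ℕ) : ℝ)) * RR (β * (Nat.lcm q d : ℝ))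
  n3 : ∀ q : ℕ, 2 ^ (8 * lam) < q →
    ∑ d ∈ Icc 1 (2 ^ (8 * lam * CN)), a d * ((Nat.gcd q d : ℝ) / q) ≤ 60 / 2 ^ lam

theorem nd_nonneg (t : ℝ) : 0 ≤ nd t := abs_nonneg _

theorem nd_le_half (t : ℝ) : nd t ≤ 1 / 2 := abs_sub_round t

theorem nd_add_int (t : ℝ) (k : ℤ) : nd (t + k) = nd t := by
  unfold nd
  rw [round_add_intCast]
  push_cast
  ring_nf

theorem nd_le (t : ℝ) (k : ℤ) : nd t ≤ |t - k| := round_le t k

theorem nd_neg (t : ℝ) : nd (-t) = nd t := by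
  apply le_antisymm
  · have := nd_le (-t) (-round t)
    unfold nd at *
    push_cast at this
    rw [show -t - -(round t : ℝ) = -(t - round t) by ring, abs_neg] at this
    exact this
  · have := nd_le t (-round (-t))
    unfold nd at *
    push_cast at this
    rw [show t - -(round (-t) : ℝ) = -(-t - round (-t)) by ring, abs_neg] at this
    exact this

/-- `nd` is 1-Lipschitz. -/
theorem nd_lip (s t : ℝ) : nd s ≤ nd t + |s - t| := by
  have h1 := nd_le s (round t)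
  have h2 : |s - round t| ≤ |s - t| + |t - round t| := abs_sub_le s t _
  unfold nd at *
  linarith

theorem nd_fract (t : ℝ) : nd (Int.fract t) = nd t := by
  have := nd_add_int (Int.fract t) ⌊t⌋
  rw [Int.fract_add_floor] at this
  exact this.symm

theorem rsf_mono {S S' : Finset ℕ} {e e' : ℝ} (h : RSF S e) (hS : S' ⊆ S) (he : e ≤ e') :
    RSF S' e' := by
  intro x hx
  obtain ⟨h1, h2⟩ := h x (hS hx)
  constructor
  · refine le_trans ?_ (h1.trans he)
    have : rp S' x ≤ rp S x := by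
      apply card_le_card
      intro y hy
      rw [mem_filter] at hy ⊢
      exact ⟨hS hy.1, hS hy.2⟩
    exact_mod_cast this
  · refine le_trans ?_ (h2.trans he)
    have : rm S' x ≤ rm S x := by
      apply card_le_card
      intro y hy
      rw [mem_filter] at hy ⊢
      exact ⟨hS hy.1, hy.2.1, hS hy.2.2⟩
    exact_mod_cast this

theorem mem_sct {S : Finset ℕ} {D X y : ℕ} : y ∈ sct S D X ↔ (1 ≤ y ∧ y ≤ X) ∧ D * y ∈ S := by
  unfold sct
  rw [mem_filter, mem_Icc]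

theorem sct_mono {S : Finset ℕ} {D X X' : ℕ} (h : X ≤ X') : sct S D X ⊆ sct S D X' := by
  intro y hy
  rw [mem_sct] at hy ⊢
  exact ⟨⟨hy.1.1, hy.1.2.trans h⟩, hy.2⟩

theorem cl_pos {T B E k : ℕ} (hT : 1 ≤ T) (hB : 1 ≤ B) : 1 ≤ cl T B E k := by
  unfold cl
  exact Nat.mul_pos hT (Nat.pow_pos hB)

theorem cl_mono {T B E : ℕ} (hB : 1 ≤ B) {k l : ℕ} (h : k ≤ l) : cl T B E k ≤ cl T B E l := by
  unfold cl
  exact Nat.mul_le_mul_left _ (Nat.pow_le_pow_right hB (Nat.mul_le_mul_left _ (by omega)))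

theorem cl_succ {T B E k : ℕ} : cl T B E (k + 1) = cl T B E k * B ^ E := by
  unfold cl
  rw [mul_assoc, ← pow_add]
  congr 2

end SFP
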