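import Pool.Agent.SFP.Defs

/-!
# Part Z: definitions (sum-free sets in `ℤ/m`)
-/

namespace SFP

open Finset

/-- `φ : G → [0, 1)` is additive mod 1 and its values are distributed up to `κ` like the uniform measure. -/
structure Rot {G : Type*} [AddCommGroup G] [Fintype G] (φ : G → ℝ) (κ : ℝ) : Prop where
  nonneg : ∀ x, 0 ≤ φ x
  lt_one : ∀ x, φ x < 1
  add : ∀ x y, φ (x + y) = φ x + φ y ∨ φ (x + y) = φ x + φ y - 1
  up : ∀ α β : ℝ, α ≤ β →
    ((univ.filter (fun x => α ≤ φ x ∧ φ x ≤ β)).card : ℝ) ≤ (β - α + κ) * Fintype.card G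
  lo : ∀ β : ℝ, 0 ≤ β → β ≤ 1 →
    (β - κ) * Fintype.card G ≤ ((univ.filter (fun x => φ x < β)).card : ℝ)

/-- The half circle of length `1 / 2` that starts at `b`. -/
noncomputable def hc {G : Type*} [AddCommGroup G] (φ : G → ℝ) (A : Finset G) (b : G) : Finset G :=
  A.filter (fun z => φ (z - b) < 1 / 2)

/-- Symmetric sum-free sets. -/
def SSF {G : Type*} [AddCommGroup G] (A : Finset G) : Prop :=
  (∀ x ∈ A, -x ∈ A) ∧ ∀ x ∈ A, ∀ y ∈ A, x + y ∉ A

section api

variable {G : Type*} [AddCommGroup G] [Fintype G] {φ : G → ℝ} {κ : ℝ}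

theorem Rot.zero (h : Rot φ κ) : φ 0 = 0 := by
  have h1 := h.add 0 0
  have h2 := h.lt_one 0
  have h3 := h.nonneg 0
  rw [add_zero] at h1
  rcases h1 with h1 | h1 <;> linarith

/-- If `φ x + φ y < 1` there is no wrap around. -/
theorem Rot.add_of_lt (h : Rot φ κ) {x y : G} (hxy : φ x + φ y < 1) : φ (x + y) = φ x + φ y := by
  rcases h.add x y with h1 | h1
  · exact h1
  · have := h.nonneg (x + y)
    linarith

theorem Rot.add_of_le (h : Rot φ κ) {x y : G} (hxy : 1 ≤ φ x + φ y) :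
    φ (x + y) = φ x + φ y - 1 := by
  rcases h.add x y with h1 | h1
  · have := h.lt_one (x + y)
    linarith
  · exact h1

theorem Rot.neg (h : Rot φ κ) {x : G} (hx : φ x ≠ 0) : φ (-x) = 1 - φ x := by
  have h1 := h.add x (-x)
  rw [add_neg_cancel, h.zero] at h1
  have h2 := h.nonneg x
  have h3 := h.nonneg (-x)
  rcases h1 with h1 | h1
  · exact absurd (by linarith) hx
  · linarith

theorem Rot.neg_zero' (h : Rot φ κ) {x : G} (hx : φ x = 0) : φ (-x) = 0 := by
  have h1 := h.add x (-x)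
  rw [add_neg_cancel, h.zero, hx] at h1
  have h3 := h.lt_one (-x)
  rcases h1 with h1 | h1 <;> linarith

theorem Rot.sub_of_le (h : Rot φ κ) {x y : G} (hxy : φ y ≤ φ x) : φ (x - y) = φ x - φ y := by
  have h1 := h.add (x - y) y
  rw [sub_add_cancel] at h1
  have h2 := h.lt_one (x - y)
  rcases h1 with h1 | h1 <;> linarith

theorem Rot.sub_of_lt (h : Rot φ κ) {x y : G} (hxy : φ x < φ y) : φ (x - y) = φ x - φ y + 1 := by
  have h1 := h.add (x - y) y
  rw [sub_add_cancel] at h1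
  have h2 := h.nonneg (x - y)
  rcases h1 with h1 | h1 <;> linarith

theorem Rot.kappa_nonneg (h : Rot φ κ) : 0 ≤ κ := by
  have h1 := h.up 0 0 le_rfl
  have h2 : (0 : G) ∈ univ.filter (fun x => (0 : ℝ) ≤ φ x ∧ φ x ≤ 0) := by
    rw [mem_filter]
    exact ⟨mem_univ _, by rw [h.zero], by rw [h.zero]⟩
  have h3 : (0 : ℝ) < ((univ.filter (fun x => (0 : ℝ) ≤ φ x ∧ φ x ≤ 0)).card : ℝ) := by
    exact_mod_cast card_pos.2 ⟨_, h2⟩
  have h4 : (0 : ℝ) < Fintype.card G := by exact_mod_cast Fintype.card_pos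
  by_contra hk
  push Not at hk
  have : (0 - 0 + κ) * (Fintype.card G : ℝ) < 0 := by
    rw [sub_zero, zero_add]
    exact mul_neg_of_neg_of_pos hk h4
  linarith

end api

end SFP
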