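import Pool.Agent.SFP.AD
import Pool.Agent.SFP.LDefs
import Pool.Agent.SFP.ZDefs

/-!
# Part C: definitions and small API
-/

namespace SFP

open Finset

/-- All windows of length at least `τ Z` and all classes modulo `d ≤ K` contain about one third of the possible elements. -/
def WB (S : Finset ℕ) (Z K : ℕ) (ε τ : ℝ) : Prop :=
  ∀ d : ℕ, 1 ≤ d → d ≤ K → ∀ c v w : ℕ, τ * Z ≤ w → v + w ≤ Z →
    (1 / 3 - ε) * w / d ≤
      ((S.filter (fun x => v < x ∧ x ≤ v + w ∧ x % d = c % d)).card : ℝ) ∧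
    ((S.filter (fun x => v < x ∧ x ≤ v + w ∧ x % d = c % d)).card : ℝ) ≤ (1 / 3 + ε) * w / d

/-- `U` has about `m / (3 q)` elements in each class modulo `q`, for the divisors `q ≤ K` of `m`. -/
def BAL {m : ℕ} (K : ℕ) (ε : ℝ) (U : Finset (ZMod m)) : Prop :=
  ∀ q c : ℕ, 1 ≤ q → q ≤ K → q ∣ m →
    (1 / 3 - ε) * m / q ≤ ((U.filter (fun x => x.val % q = c % q)).card : ℝ) ∧
    ((U.filter (fun x => x.val % q = c % q)).card : ℝ) ≤ (1 / 3 + ε) * m / q

/-- `U` has at least `m / (4 q)` elements in each class modulo `q`, for the divisors `q ≤ K` of `m`. -/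
def LO {m : ℕ} (K : ℕ) (U : Finset (ZMod m)) : Prop :=
  ∀ q c : ℕ, 1 ≤ q → q ≤ K → q ∣ m →
    (m : ℝ) / (4 * q) ≤ ((U.filter (fun x => x.val % q = c % q)).card : ℝ)

/-- The number of pairs of the blocks `s`, `j` whose sum is (mod `m`) in one of the blocks `j + s`, `j + s + 1`. -/
def NN (m : ℕ) (S : Finset ℕ) (s j : ℕ) : ℕ :=
  ((blk m S s ×ˢ blk m S j).filter (fun p => p.1 + p.2 ∈ blk m S (j + s) ∪ blk m S (j + s + 1))).card

/-- The residues `r` for which `M` and `M - r` meet in at most `t` elements. -/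
noncomputable def EE {m : ℕ} [NeZero m] (M : Finset (ZMod m)) (t : ℝ) : Finset (ZMod m) :=
  univ.filter (fun r => ((M.filter (fun i => i + r ∈ M)).card : ℝ) ≤ t)

/-- The output of the first half of Part C: the frequency `α` has (almost) the period `m`, the multiples of `α` are
equidistributed in windows of length `m` and `S` contains almost all `y < 3 m` with `‖α y‖ ≥ 1 / 3`. -/
structure FR (S : Finset ℕ) (m : ℕ) (α : ℝ) : Prop where
  up : ∀ (v : ℕ) (c r : ℝ), 0 ≤ r →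
    (((Ioc v (v + m)).filter (fun y : ℕ => nd (α * y - c) ≤ r)).card : ℝ) ≤ (2 * r + 1 / 10 ^ 4) * m
  lo : ∀ (v : ℕ) (c r : ℝ), 0 ≤ r → r ≤ 1 / 2 →
    (2 * r - 1 / 10 ^ 4) * m ≤ (((Ioc v (v + m)).filter (fun y : ℕ => nd (α * y - c) ≤ r)).card : ℝ)
  ex : (((range (3 * m)).filter (fun y : ℕ => 1 / 3 ≤ nd (α * y) ∧ y ∉ S)).card : ℝ) ≤ m / 10 ^ 4

/-- The hypotheses of the second half of Part C. -/
structure HT (S : Finset ℕ) (Z m : ℕ) (α e₀ : ℝ) : Prop where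
  sub : S ⊆ Icc 1 Z
  rsf : RSF S e₀
  e0 : 0 ≤ e₀
  e1 : e₀ ≤ m / 10 ^ 4
  m1 : 10 ^ 6 ≤ m
  fr : FR S m α
  win : ∀ v : ℕ, v + m ≤ Z →
    (1 / 3 - 1 / 10 ^ 4) * (m : ℝ) ≤ ((S.filter (fun x => v < x ∧ x ≤ v + m)).card : ℝ)

theorem WB.mono {S : Finset ℕ} {Z K K' : ℕ} {ε ε' τ : ℝ} (h : WB S Z K ε τ) (hK : K' ≤ K)
    (hε : ε ≤ ε') : WB S Z K' ε' τ := by
  intro d hd hdK c v w hw hv
  obtain ⟨h1, h2⟩ := h d hd (hdK.trans hK) c v w hw hv
  have hd0 : (0 : ℝ) < d := by exact_mod_cast hd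
  have hw0 : (0 : ℝ) ≤ w := Nat.cast_nonneg w
  constructor
  · refine le_trans ?_ h1
    gcongr
  · refine le_trans h2 ?_
    gcongr

theorem BAL.mono {m : ℕ} {K K' : ℕ} {ε ε' : ℝ} {U : Finset (ZMod m)} (h : BAL K ε U) (hK : K' ≤ K)
    (hε : ε ≤ ε') : BAL K' ε' U := by
  intro q c hq hqK hqm
  obtain ⟨h1, h2⟩ := h q c hq (hqK.trans hK) hqm
  have hd0 : (0 : ℝ) < q := by exact_mod_cast hq
  have hw0 : (0 : ℝ) ≤ m := Nat.cast_nonneg m
  constructor
  · refine le_trans ?_ h1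
    gcongr
  · refine le_trans h2 ?_
    gcongr

theorem BAL.lo {m : ℕ} {K : ℕ} {ε : ℝ} {U : Finset (ZMod m)} (h : BAL K ε U) (hε : ε ≤ 1 / 12) :
    LO K U := by
  intro q c hq hqK hqm
  obtain ⟨h1, -⟩ := h q c hq hqK hqm
  have hd0 : (0 : ℝ) < q := by exact_mod_cast hq
  have hw0 : (0 : ℝ) ≤ m := Nat.cast_nonneg m
  refine le_trans ?_ h1
  rw [show (m : ℝ) / (4 * q) = (1 / 4 : ℝ) * m / q by field_simp]
  gcongr
  linarith

theorem LO.mono {m : ℕ} {K : ℕ} {U V : Finset (ZMod m)} (h : LO K U) (hUV : U ⊆ V) : LO K V := by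
  intro q c hq hqK hqm
  refine le_trans (h q c hq hqK hqm) ?_
  exact_mod_cast card_le_card (filter_subset_filter _ hUV)

theorem BAL.card {m : ℕ} {K : ℕ} {ε : ℝ} {U : Finset (ZMod m)} (h : BAL K ε U) (hK : 1 ≤ K) :
    (1 / 3 - ε) * m ≤ (U.card : ℝ) ∧ (U.card : ℝ) ≤ (1 / 3 + ε) * m := by
  have := h 1 0 le_rfl hK (one_dvd m)
  simpa [Nat.mod_one] using this

theorem nd_sub_int (t : ℝ) (k : ℤ) : nd (t - k) = nd t := by
  have := nd_add_int t (-k)
  push_cast at this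
  rw [sub_eq_add_neg]
  exact this

/-- `‖t - 1/2‖ = 1/2 - ‖t‖`. -/
theorem nd_sub_half (t : ℝ) : nd (t - 1 / 2) = 1 / 2 - nd t := by
  have hr := nd_sub_int t (round t)
  have hab : |t - round t| ≤ 1 / 2 := abs_sub_round t
  set s : ℝ := t - round t with hs
  have h0 : nd t = |s| := rfl
  have h1 : nd (t - 1 / 2) = nd (s - 1 / 2) := by
    have := nd_sub_int (t - 1 / 2) (round t)
    rw [← this]
    congr 1
    rw [hs]
    ring
  rw [h1, h0]
  rw [abs_le] at hab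
  apply le_antisymm
  · rcases le_total 0 s with h | h
    · have := nd_le (s - 1 / 2) 0
      rw [abs_of_nonneg h]
      refine this.trans ?_
      rw [abs_le]
      push_cast
      constructor <;> linarith [hab.1, hab.2]
    · have := nd_le (s - 1 / 2) (-1)
      rw [abs_of_nonpos h]
      refine this.trans ?_
      push_cast
      rw [abs_le]
      constructor <;> linarith [hab.1, hab.2]
  · -- `1/2 ≤ nd (s - 1/2) + |s|`
    have h2 : nd (-(1 / 2 : ℝ)) ≤ nd (s - 1 / 2) + |(-(1 / 2 : ℝ)) - (s - 1 / 2)| := nd_lip _ _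
    have h3 : nd (-(1 / 2 : ℝ)) = 1 / 2 := by
      rw [nd_neg]
      unfold nd
      have : round (1 / 2 : ℝ) = 1 := by
        rw [round_eq]
        norm_num
      rw [this]
      norm_num
    rw [h3, show (-(1 / 2 : ℝ)) - (s - 1 / 2) = -s by ring, abs_neg] at h2
    linarith

end SFP
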