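import Pool.Agent.SFP.C1
import Pool.Agent.SFP.C4b
import Pool.Agent.SFP.C5b
import Pool.Agent.SFP.C6
import Pool.Agent.SFP.C6c
import Pool.Agent.SFP.C10

/-!
# Module CMain: the structure theorem
-/

namespace SFP

open Finset

theorem st_main : ∃ (δ ρ ζ η : ℝ) (K₁ Z₀ : ℕ), 0 < δ ∧ δ ≤ 1 / 10 ∧ 0 < ρ ∧ ρ ≤ 1 ∧ 0 < ζ ∧ ζ ≤ 1 ∧
    0 < η ∧ 1 ≤ K₁ ∧ ∀ (Z : ℕ) (S : Finset ℕ) (e₀ : ℝ), Z₀ ≤ Z → S ⊆ Icc 1 Z → 0 ≤ e₀ →
      e₀ ≤ η * Z → RSF S e₀ →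
      (∀ d : ℕ, 1 ≤ d → d ≤ K₁ → ∀ c v w : ℕ, ρ * Z ≤ w → v + w ≤ Z →
        ((S.filter (fun x => v < x ∧ x ≤ v + w ∧ x % d = c % d)).card : ℝ) ≤ (1 / 3 + δ) * w / d) →
      (1 / 3 - δ) * Z ≤ (S.card : ℝ) → Str S Z ζ := by
  obtain ⟨β₃, hβ₃, H3⟩ := c_three (b := 1 / 10 ^ 9) (by norm_num)
  obtain ⟨K₂, ε₂, β₂, hK₂, hε₂, hβ₂, H2⟩ := c_two (b := min β₃ (1 / 10 ^ 9)) (by positivity)
  obtain ⟨K₁, Z₁, ε₁, τ, η₁, hK₁, hε₁, hτ, hτ8, hη₁, H1⟩ := c_one (b := β₂) hβ₂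
  obtain ⟨K, hKK1, hKK2, hK6⟩ : ∃ K : ℕ, K₁ ≤ K ∧ K₂ ≤ K ∧ 10 ^ 6 ≤ K :=
    ⟨max (max K₁ K₂) (10 ^ 6), le_trans (le_max_left _ _) (le_max_left _ _),
      le_trans (le_max_right _ _) (le_max_left _ _), le_max_right _ _⟩
  obtain ⟨ε, hε, hεa, hεb, hεc⟩ : ∃ ε : ℝ, 0 < ε ∧ ε ≤ ε₁ ∧ 2 * ε ≤ ε₂ ∧ ε ≤ 1 / 10 ^ 10 :=
    ⟨min (min ε₁ (ε₂ / 2)) (1 / 10 ^ 10), by positivity,
      le_trans (min_le_left _ _) (min_le_left _ _),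
      by
        have : min (min ε₁ (ε₂ / 2)) (1 / 10 ^ 10) ≤ ε₂ / 2 :=
          le_trans (min_le_left _ _) (min_le_right _ _)
        linarith, min_le_right _ _⟩
  have hK0 : (10 : ℝ) ^ 6 ≤ K := by exact_mod_cast hK6
  have hKpos : (0 : ℝ) < K := by linarith [show (0 : ℝ) < 10 ^ 6 by norm_num]
  obtain ⟨σ, hσ, hσe⟩ : ∃ σ : ℝ, 0 < σ ∧ 4 * σ * K = ε * τ :=
    ⟨ε * τ / (4 * K), by positivity, by field_simp⟩
  have hσε : σ ≤ ε * τ := by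
    rw [← hσe]
    nlinarith
  have hσε1 : σ ≤ ε := hσε.trans (by nlinarith)
  have hστ : σ ≤ τ := hσε.trans (by nlinarith)
  obtain ⟨η, hη, ha, hb, hc, hd⟩ : ∃ η : ℝ, 0 < η ∧ η ≤ η₁ ∧ η ≤ β₂ * τ ∧ η ≤ β₃ * τ ∧
      η ≤ 1 / 10 ^ 4 * τ :=
    ⟨min (min η₁ (β₂ * τ)) (min (β₃ * τ) (1 / 10 ^ 4 * τ)), by positivity,
      le_trans (min_le_left _ _) (min_le_left _ _), le_trans (min_le_left _ _) (min_le_right _ _),
      le_trans (min_le_right _ _) (min_le_left _ _), le_trans (min_le_right _ _) (min_le_right _ _)⟩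
  refine ⟨σ, σ, τ / 2, η, K, max Z₁ ⌈(10 ^ 6 + K / ε) / τ⌉₊, hσ, by linarith, hσ, by linarith,
    by positivity, by linarith, hη, by omega, ?_⟩
  intro Z S e₀ hZ hS he0 heη hr h1 hcard
  have hZ1 : Z₁ ≤ Z := le_trans (le_max_left _ _) hZ
  have hZ2 : (10 ^ 6 + K / ε) / τ ≤ Z :=
    le_trans (Nat.le_ceil _) (by exact_mod_cast le_trans (le_max_right _ _) hZ)
  rw [div_le_iff₀ hτ] at hZ2
  have hZ0 : (0 : ℝ) ≤ Z := Nat.cast_nonneg Z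
  have hWB : WB S Z K ε τ := by
    refine c_window hS hσ.le hσ.le hστ hσε1 ?_ h1 hcard
    linarith
  obtain ⟨m, k, hm0, hmτ, hmZ, hkZ, hblk⟩ := H1 Z S e₀ hZ1 hS hr he0
    (heη.trans (by gcongr)) (hWB.mono hKK1 hεa)
  have : NeZero m := ⟨hm0.ne'⟩
  have hmpos : (0 : ℝ) < m := by exact_mod_cast hm0
  have hm6 : (10 ^ 6 + K / ε : ℝ) ≤ m := by linarith
  have hKε : (0 : ℝ) < K / ε := by positivity
  have hKm : (K : ℝ) ≤ ε * m := by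
    have : (K : ℝ) / ε ≤ m := by linarith [show (0 : ℝ) < 10 ^ 6 by norm_num]
    rw [div_le_iff₀ hε] at this
    linarith
  have hbal : ∀ j, (j + 1) * m ≤ Z → BAL K (2 * ε) (blk m S j) := fun j hj =>
    bal_blk hWB hmτ hKm hj
  have hbal3 : ∀ j ≤ 2, BAL K (2 * ε) (blk m S j) := fun j hj => hbal j (by nlinarith)
  have he : ∀ β : ℝ, 0 < β → η ≤ β * τ → e₀ ≤ β * m := fun β hβ h => by
    calc e₀ ≤ η * Z := heη
      _ ≤ β * τ * Z := by gcongr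
      _ = β * (τ * Z) := by ring
      _ ≤ β * m := by gcongr
  obtain ⟨E, hEneg, hES, hE2⟩ := H2 m k S e₀ hr he0 (he β₂ hβ₂ hb)
    (fun j hj => (hbal3 j hj).mono hKK2 hεb) ((hbal k (by nlinarith)).mono hKK2 hεb) hblk
  obtain ⟨A, hAE, hA, hEA⟩ := H3 m S e₀ E hr he0 (he β₃ hβ₃ hc) hEneg
    ((hE2 0 (by norm_num)).trans (by gcongr; exact min_le_left _ _))
    ((hE2 1 (by norm_num)).trans (by gcongr; exact min_le_left _ _))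
  obtain ⟨α, hα⟩ := c_freq (ε := 2 * ε) hK6 (by norm_num at hεc ⊢; linarith) hbal3 hES
    (fun j hj => (hE2 j hj).trans (by gcongr; exact min_le_right _ _)) hAE hA hEA
  have hHT : HT S Z m α e₀ := by
    refine ⟨hS, hr, he0, ?_, ?_, hα, ?_⟩
    · have := he (1 / 10 ^ 4) (by norm_num) hd
      linarith
    · have : (10 : ℝ) ^ 6 ≤ m := by linarith
      exact_mod_cast this
    · intro v hv
      obtain ⟨h2, -⟩ := hWB 1 le_rfl (by omega) 0 v m hmτ hv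
      have h3 : (S.filter (fun x => v < x ∧ x ≤ v + m ∧ x % 1 = 0 % 1)) =
          S.filter (fun x => v < x ∧ x ≤ v + m) := by
        apply filter_congr
        intro x _
        simp [Nat.mod_one]
      rw [h3] at h2
      refine le_trans ?_ h2
      rw [Nat.cast_one, div_one]
      gcongr
      linarith [show (1 : ℝ) / 10 ^ 10 ≤ 1 / 10 ^ 4 by norm_num]
  exact c_str hHT (by linarith)

end SFP
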