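import Mathlib

/-!
# Power saving for the largest sum-free subset: common definitions

Paper: /team-store/sfp_notes.md.
-/

namespace SFP

open Finset

noncomputable section

/-- The distance of a real number to the nearest integer. -/
def nd (t : ℝ) : ℝ := |t - round t|

/-- The number of `y ∈ B` with `y + h ∈ B`. -/
def rp (B : Finset ℕ) (h : ℕ) : ℕ := (B.filter (fun y => y + h ∈ B)).card

/-- The number of `y ∈ B`, `y < x`, with `x - y ∈ B`. -/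
def rm (B : Finset ℕ) (x : ℕ) : ℕ := (B.filter (fun y => y < x ∧ x - y ∈ B)).card

/-- Robust sum-freeness: every element of `S` is in at most `e` Schur triples, as a summand and as a sum. -/
def RSF (S : Finset ℕ) (e : ℝ) : Prop := ∀ x ∈ S, (rp S x : ℝ) ≤ e ∧ (rm S x : ℝ) ≤ e

/-- The section `{y ∈ [1, X] : D * y ∈ S}`. -/
def sct (S : Finset ℕ) (D X : ℕ) : Finset ℕ := (Icc 1 X).filter (fun y => D * y ∈ S)

/-- The number of pairs `(a, b) ∈ A × B` with `a + b = x`. -/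
def conv (A B : Finset ℕ) (x : ℕ) : ℕ := ((A ×ˢ B).filter (fun p => p.1 + p.2 = x)).card

/-- The excess density of the section at `D` up to `X`. -/
def ex (S : Finset ℕ) (D X : ℕ) : ℝ := 3 * ((sct S D X).card : ℝ) / X - 1

/-- The excess of the section at `D` up to `L` for the triangular weight. -/
def exl (S : Finset ℕ) (D L : ℕ) : ℝ :=
  3 * (∑ y ∈ sct S D L, 2 * ((L : ℝ) - y) / (L : ℝ) ^ 2) - 1

/-- The cell sizes. -/
def cl (T B E k : ℕ) : ℕ := T * B ^ (E * (k + 1))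

/-- The value of block `j ≥ 1` at the dilate `D`. -/
def GG (S : Finset ℕ) (T B E D j : ℕ) : ℝ :=
  2 * ex S D (cl T B E (2 * j)) + ex S D (cl T B E (2 * j - 1))

/-- The expected value of all blocks `j, j - 1, ..., 1` and of the last level, starting at the dilate `D`. -/
def Val (S : Finset ℕ) (T B E F M : ℕ) (a : ℕ → ℝ) : ℕ → ℕ → ℝ
  | 0, D => 3 * ∑ d ∈ Icc 1 M, a d * exl S (D * d) (cl T B E 0)
  | j + 1, D => GG S T B E D (j + 1) + (∑ r ∈ Icc 1 B, Val S T B E F M a j (D * (F * r))) / B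

/-- The defect of `S'` for the frequency `β`: the maximum of `0` and all `1 / 3 - ‖β y‖`, `y ∈ S'`. -/
def Yf (S' : Finset ℕ) (β : ℝ) : ℝ :=
  (insert 0 (S'.image (fun y : ℕ => 1 / 3 - nd (β * y)))).max' (insert_nonempty _ _)

/-- The expected defect at the last level. -/
def Yv (S : Finset ℕ) (T B E F M : ℕ) (a : ℕ → ℝ) : ℕ → ℕ → ℝ → ℝ
  | 0, D, α => ∑ d ∈ Icc 1 M, a d * Yf (sct S (D * d) (cl T B E 0)) (α * d)
  | j + 1, D, α => (∑ r ∈ Icc 1 B, Yv S T B E F M a j (D * (F * r)) (α * ((F * r : ℕ) : ℝ))) / B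

/-- The frequency `α` is compatible with the section at `D` for all cells of level at most `j`. -/
def HH (S : Finset ℕ) (T B E M j D : ℕ) (α : ℝ) : Prop :=
  ∀ y ∈ sct S D (cl T B E (2 * j) * M), 26 / 100 ≤ nd (α * y)

/-- The hypothesis on block `j` at `D`, frequency `α`. -/
def BH (S : Finset ℕ) (T B E : ℕ) (ζ : ℝ) (j D : ℕ) (α : ℝ) : Prop :=
  (∀ v : ℕ, ∃ c : ℝ, ∀ x ∈ sct S D (cl T B E (2 * j)), v ≤ x →
    (x : ℝ) ≤ v + ζ * (cl T B E (2 * j) : ℕ) → nd (α * x - c) ≤ 24 / 100) ∧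
  ∀ x ∈ sct S D (cl T B E (2 * j - 1) * B), 26 / 100 ≤ nd (α * x)

/-- Structured sets. -/
def Str (S' : Finset ℕ) (Z : ℕ) (ζ : ℝ) : Prop :=
  ∃ α : ℝ, (∀ x ∈ S', (x : ℝ) ≤ ζ * Z → 26 / 100 ≤ nd (α * x)) ∧
    ∀ v : ℕ, ∃ c : ℝ, ∀ x ∈ S', v ≤ x → (x : ℝ) ≤ v + ζ * Z → nd (α * x - c) ≤ 24 / 100

/-- Block `j` at `D` is not empty: one of its two cells has density at least `(1 - δ) / 3`. -/
def NE (S : Finset ℕ) (T B E : ℕ) (δ : ℝ) (D j : ℕ) : Prop :=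
  -δ ≤ ex S D (cl T B E (2 * j)) ∨ -δ ≤ ex S D (cl T B E (2 * j - 1))

/-- No block of the subtree of `(j, D)` is `NE`. -/
def P0 (S : Finset ℕ) (T B E F : ℕ) (δ : ℝ) : ℕ → ℕ → Prop
  | 0, _ => True
  | j + 1, D => ¬ NE S T B E δ D (j + 1) ∧ ∀ r ∈ Icc 1 B, P0 S T B E F δ j (D * (F * r))

/-- Every path in the subtree of `(j, D)` has at most one `NE` block. -/
def P1 (S : Finset ℕ) (T B E F : ℕ) (δ : ℝ) : ℕ → ℕ → Prop
  | 0, _ => True
  | j + 1, D => (∀ r ∈ Icc 1 B, P0 S T B E F δ j (D * (F * r))) ∨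
      (¬ NE S T B E δ D (j + 1) ∧ ∀ r ∈ Icc 1 B, P1 S T B E F δ j (D * (F * r)))

/-- The nonprincipal character mod 3. -/
def chi (t : ℕ) : ℝ := if t % 3 = 1 then 1 else if t % 3 = 2 then -1 else 0

/-- The second primitive of `1 - 3 * 1_{[1/3, 2/3]}` on `[0, 1]`. -/
def gR (s : ℝ) : ℝ :=
  if s ≤ 1 / 3 then s ^ 2 / 2
  else if s ≤ 2 / 3 then s ^ 2 / 2 - 3 / 2 * (s - 1 / 3) ^ 2
  else (1 - s) ^ 2 / 2

/-- `R ξ = 2 ∫₀¹ (1 - s) e(ξ s) ds`, `e = 1 - 3 * 1_{[1/3, 2/3]}` mod 1. -/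
def RR (ξ : ℝ) : ℝ := if ξ = 0 then 1 else 2 * gR (Int.fract ξ) / ξ ^ 2

end

end SFP
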