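import Pool.Agent.SFP.FD

/-!
# Module F1: the weights

Proofs. All by induction on `j` (with `D` generalised).
`Wt_nonneg`: all terms are nonnegative (`y ≤ cl T B E 0` in the sum, `a d ≥ 0`).
`Wt_le`: for `D ≥ 1` at most one `y` has `D * y = n` (`sum_ite_eq`-like; or `card_le_one`), so the first two sums are at most
`2 / cl (2j+2)`, `1 / cl (2j+1)`, which are `≤ 2 / cl 0`, `≤ 1 / cl 0` (`cl T B E 0 ≤ cl T B E k`, as `B ≥ 1`), the average over `r` of terms
`≤ (3 j + 6) / cl 0`; for `j = 0`: `∑ a d * (6 / cl 0)` at most, as `2 * (L - y) / L ^ 2 * 3 ≤ 6 / L`.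
`Val_eq`: `∑ n ∈ S, ∑ y ∈ Icc 1 X, if D * y = n then c y else 0 = ∑ y ∈ sct S D X, c y` (`sum_comm`, `sum_ite_eq`, `sum_filter`), with `c = 2 / X`
resp. `1 / X`: `card * (2 / X)`. `GG = 2 * (3 card_a / X_a - 1) + (3 card_b / X_b - 1) = 3 * (2 card_a / X_a + card_b / X_b) - 3`, and the average of
`3 * ∑ Wt j - (3 j + 3)` over `r ∈ Icc 1 B` (`B ≥ 1`). `j = 0`: `3 * ∑ a d * exl = 3 * ∑ a d * (∑ n, ... ) - 3 * ∑ a d` and `∑ a d = 1`.
`Val_full`: all sections are full: `sct V D X = Icc 1 X` for `D * ... ` in range, `ex = 3 * X / X - 1 = 2`, `GG = 6`;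
`exl = 3 * ∑_{y=1}^{L} 2 (L - y) / L ^ 2 - 1 = 3 (L - 1) / L - 1` (`∑ (L - y) = L (L - 1) / 2`, induction on `L` or `sum_range_id`).
The levels below only use dilates `D * (F * r)` with `D * (F * r) * (F * B) ^ j * M ≤ D * (F * B) ^ (j + 1) * M`.
-/

namespace SFP

open Finset

theorem F1_sum1 {D n : ℕ} (hD : 1 ≤ D) (X : ℕ) {c : ℕ → ℝ} {C : ℝ} (hC : 0 ≤ C)
    (hc : ∀ y ∈ Icc 1 X, c y ≤ C) : (∑ y ∈ Icc 1 X, if D * y = n then c y else 0) ≤ C := by
  by_cases h : ∃ y ∈ Icc 1 X, D * y = n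
  · obtain ⟨y, hy, hyn⟩ := h
    rw [Finset.sum_eq_single_of_mem y hy]
    · rw [if_pos hyn]
      exact hc y hy
    · intro z hz hne
      rw [if_neg]
      intro h1
      exact hne (Nat.eq_of_mul_eq_mul_left hD (h1.trans hyn.symm))
  · rw [Finset.sum_eq_zero]
    · exact hC
    · intro y hy
      rw [if_neg]
      intro h1
      exact h ⟨y, hy, h1⟩

theorem F1_sec (S : Finset ℕ) (D X : ℕ) (c : ℕ → ℝ) :
    ∑ n ∈ S, (∑ y ∈ Icc 1 X, if D * y = n then c y else 0) = ∑ y ∈ sct S D X, c y := by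
  rw [Finset.sum_comm]
  unfold sct
  rw [Finset.sum_filter]
  apply Finset.sum_congr rfl
  intro y _
  rw [Finset.sum_ite_eq]

theorem F1_tri (L : ℕ) : ∑ y ∈ Icc 1 L, ((L : ℝ) - y) = (L : ℝ) * (L - 1) / 2 := by
  have h : ∀ n : ℕ, ∑ y ∈ Icc 1 n, (y : ℝ) = (n : ℝ) * (n + 1) / 2 := by
    intro n
    induction n with
    | zero => simp
    | succ n ih =>
      rw [Finset.sum_Icc_succ_top (by omega), ih]
      push_cast
      ring
  rw [Finset.sum_sub_distrib, h, Finset.sum_const, Nat.card_Icc]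
  simp only [Nat.add_sub_cancel, nsmul_eq_mul]
  ring

theorem F1_M {M : ℕ} {a : ℕ → ℝ} (ha1 : ∑ d ∈ Icc 1 M, a d = 1) : 1 ≤ M := by
  by_contra h
  have : M = 0 := by omega
  rw [this] at ha1
  simp at ha1

theorem F1_cl_pos {T B E : ℕ} (hT : 1 ≤ T) (hB : 1 ≤ B) (k : ℕ) : 0 < cl T B E k := by
  unfold cl
  positivity

theorem F1_cl_mono {T B E : ℕ} (hB : 1 ≤ B) {k l : ℕ} (h : k ≤ l) : cl T B E k ≤ cl T B E l := by
  unfold cl
  apply Nat.mul_le_mul_left
  exact Nat.pow_le_pow_right hB (Nat.mul_le_mul_left E (by omega))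

theorem Wt_nonneg {T B E F M : ℕ} {a : ℕ → ℝ} (ha : ∀ d, 0 ≤ a d) (j D n : ℕ) :
    0 ≤ Wt T B E F M a j D n := by
  induction j generalizing D with
  | zero =>
    unfold Wt
    apply Finset.sum_nonneg
    intro d _
    apply mul_nonneg (ha d)
    apply Finset.sum_nonneg
    intro y hy
    split_ifs
    · have h1 : (y : ℝ) ≤ (cl T B E 0 : ℝ) := by exact_mod_cast (mem_Icc.1 hy).2
      have h2 : 0 ≤ 2 * ((cl T B E 0 : ℝ) - y) := by linarith
      positivity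
    · exact le_rfl
  | succ j ih =>
    unfold Wt
    apply add_nonneg
    · apply add_nonneg
      · apply Finset.sum_nonneg
        intro y _
        split_ifs <;> positivity
      · apply Finset.sum_nonneg
        intro y _
        split_ifs <;> positivity
    · exact div_nonneg (Finset.sum_nonneg fun r _ => ih _) (Nat.cast_nonneg _)

theorem Wt_le {T B E F M : ℕ} {a : ℕ → ℝ} (hT : 1 ≤ T) (hB : 1 ≤ B) (hF : 1 ≤ F) (ha : ∀ d, 0 ≤ a d)
    (ha1 : ∑ d ∈ Icc 1 M, a d = 1) (j D n : ℕ) (hD : 1 ≤ D) :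
    Wt T B E F M a j D n ≤ (3 * j + 6) / (cl T B E 0 : ℝ) := by
  have hc0 : (0 : ℝ) < (cl T B E 0 : ℝ) := by exact_mod_cast F1_cl_pos hT hB 0
  induction j generalizing D with
  | zero =>
    unfold Wt
    have h1 : ∀ d ∈ Icc 1 M, a d * (∑ y ∈ Icc 1 (cl T B E 0),
        if D * d * y = n then 2 * ((cl T B E 0 : ℝ) - y) / (cl T B E 0 : ℝ) ^ 2 * 3 else 0) ≤
        a d * (6 / (cl T B E 0 : ℝ)) := by
      intro d hd
      apply mul_le_mul_of_nonneg_left _ (ha d)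
      have hDd : 1 ≤ D * d := Nat.mul_pos hD (mem_Icc.1 hd).1
      refine F1_sum1 (c := fun y : ℕ => 2 * ((cl T B E 0 : ℝ) - y) / (cl T B E 0 : ℝ) ^ 2 * 3) hDd _
        (by positivity) ?_
      intro y _
      show 2 * ((cl T B E 0 : ℝ) - y) / (cl T B E 0 : ℝ) ^ 2 * 3 ≤ 6 / (cl T B E 0 : ℝ)
      have e : (6 : ℝ) / (cl T B E 0 : ℝ) = 2 * ((cl T B E 0 : ℝ) - 0) / (cl T B E 0 : ℝ) ^ 2 * 3 := by
        field_simp
        ring
      rw [e]
      have : (0 : ℝ) ≤ y := Nat.cast_nonneg y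
      gcongr
    calc _ ≤ ∑ d ∈ Icc 1 M, a d * (6 / (cl T B E 0 : ℝ)) := Finset.sum_le_sum h1
      _ = 6 / (cl T B E 0 : ℝ) := by rw [← Finset.sum_mul, ha1, one_mul]
      _ = _ := by norm_num
  | succ j ih =>
    unfold Wt
    have hcl : ∀ k, (cl T B E 0 : ℝ) ≤ (cl T B E k : ℝ) := fun k => by
      exact_mod_cast F1_cl_mono hB (Nat.zero_le k)
    have k1 : (∑ y ∈ Icc 1 (cl T B E (2 * (j + 1))), if D * y = n then
        2 / (cl T B E (2 * (j + 1)) : ℝ) else 0) ≤ 2 / (cl T B E 0 : ℝ) := by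
      refine F1_sum1 (c := fun _ => 2 / (cl T B E (2 * (j + 1)) : ℝ)) hD _ (by positivity) ?_
      intro y _
      exact div_le_div_of_nonneg_left (by norm_num) hc0 (hcl _)
    have k2 : (∑ y ∈ Icc 1 (cl T B E (2 * (j + 1) - 1)), if D * y = n then
        1 / (cl T B E (2 * (j + 1) - 1) : ℝ) else 0) ≤ 1 / (cl T B E 0 : ℝ) := by
      refine F1_sum1 (c := fun _ => 1 / (cl T B E (2 * (j + 1) - 1) : ℝ)) hD _ (by positivity) ?_
      intro y _
      exact div_le_div_of_nonneg_left (by norm_num) hc0 (hcl _)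
    have hB0 : (0 : ℝ) < B := by exact_mod_cast hB
    have k3 : (∑ r ∈ Icc 1 B, Wt T B E F M a j (D * (F * r)) n) / B ≤ (3 * j + 6) / (cl T B E 0 : ℝ) := by
      rw [div_le_iff₀ hB0]
      calc _ ≤ ∑ r ∈ Icc 1 B, (3 * j + 6) / (cl T B E 0 : ℝ) := by
            apply Finset.sum_le_sum
            intro r hr
            exact ih _ (Nat.mul_pos hD (Nat.mul_pos hF (mem_Icc.1 hr).1))
        _ = _ := by
            rw [Finset.sum_const, Nat.card_Icc, nsmul_eq_mul]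
            simp only [Nat.add_sub_cancel]
            ring
    have e : (3 * ((j + 1 : ℕ) : ℝ) + 6) / (cl T B E 0 : ℝ) = 2 / (cl T B E 0 : ℝ) + 1 / (cl T B E 0 : ℝ) +
        (3 * j + 6) / (cl T B E 0 : ℝ) := by
      push_cast
      field_simp
      ring
    rw [e]
    linarith

theorem Val_eq {T B E F M : ℕ} {a : ℕ → ℝ} (hB : 1 ≤ B) (ha1 : ∑ d ∈ Icc 1 M, a d = 1)
    (S : Finset ℕ) (j D : ℕ) :
    Val S T B E F M a j D = 3 * ∑ n ∈ S, Wt T B E F M a j D n - (3 * j + 3) := by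
  induction j generalizing D with
  | zero =>
    unfold Val Wt exl
    rw [Finset.sum_comm]
    have h1 : ∀ d ∈ Icc 1 M, ∑ n ∈ S, a d * (∑ y ∈ Icc 1 (cl T B E 0),
        if D * d * y = n then 2 * ((cl T B E 0 : ℝ) - y) / (cl T B E 0 : ℝ) ^ 2 * 3 else 0) =
        a d * (3 * ∑ y ∈ sct S (D * d) (cl T B E 0), 2 * ((cl T B E 0 : ℝ) - y) / (cl T B E 0 : ℝ) ^ 2) := by
      intro d _
      rw [← Finset.mul_sum, F1_sec S (D * d) (cl T B E 0)
        (fun y : ℕ => 2 * ((cl T B E 0 : ℝ) - y) / (cl T B E 0 : ℝ) ^ 2 * 3)]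
      congr 1
      rw [Finset.mul_sum]
      apply Finset.sum_congr rfl
      intro y _
      ring
    rw [Finset.sum_congr rfl h1]
    have h2 : ∀ d ∈ Icc 1 M, a d * (3 * ∑ y ∈ sct S (D * d) (cl T B E 0),
        2 * ((cl T B E 0 : ℝ) - y) / (cl T B E 0 : ℝ) ^ 2 - 1) =
        a d * (3 * ∑ y ∈ sct S (D * d) (cl T B E 0),
        2 * ((cl T B E 0 : ℝ) - y) / (cl T B E 0 : ℝ) ^ 2) - a d := by
      intro d _
      ring
    rw [Finset.sum_congr rfl h2, Finset.sum_sub_distrib, ha1]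
    push_cast
    ring
  | succ j ih =>
    unfold Val Wt GG ex
    have hB0 : (B : ℝ) ≠ 0 := by
      have : (0 : ℝ) < B := by exact_mod_cast hB
      exact this.ne'
    rw [Finset.sum_add_distrib, Finset.sum_add_distrib]
    rw [F1_sec S D _ (fun _ => 2 / (cl T B E (2 * (j + 1)) : ℝ)),
      F1_sec S D _ (fun _ => 1 / (cl T B E (2 * (j + 1) - 1) : ℝ))]
    have h0 : ∑ x ∈ S, (∑ r ∈ Icc 1 B, Wt T B E F M a j (D * (F * r)) x) / (B : ℝ) =
        (∑ r ∈ Icc 1 B, ∑ x ∈ S, Wt T B E F M a j (D * (F * r)) x) / (B : ℝ) := by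
      rw [← Finset.sum_div, Finset.sum_comm]
    rw [h0]
    have h1 : ∀ r ∈ Icc 1 B, Val S T B E F M a j (D * (F * r)) =
        3 * ∑ n ∈ S, Wt T B E F M a j (D * (F * r)) n - (3 * j + 3) := fun r _ => ih _
    rw [Finset.sum_congr rfl h1, Finset.sum_sub_distrib, ← Finset.mul_sum, Finset.sum_const,
      Finset.sum_const, Finset.sum_const, Nat.card_Icc]
    simp only [Nat.add_sub_cancel, nsmul_eq_mul]
    push_cast
    field_simp
    ring

theorem Val_full {T B E F M N Dx : ℕ} {a : ℕ → ℝ} (hT : 1 ≤ T) (hB : 1 ≤ B) (hF : 1 ≤ F)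
    (ha1 : ∑ d ∈ Icc 1 M, a d = 1) (V : Finset ℕ)
    (hV : ∀ D, 1 ≤ D → D ≤ Dx → ∀ y, 1 ≤ y → y ≤ N → D * y ∈ V) (j D : ℕ) (hD : 1 ≤ D)
    (hDx : D * ((F * B) ^ j * M) ≤ Dx) (hN : cl T B E (2 * j) ≤ N) :
    Val V T B E F M a j D = 6 * j + 6 - 9 / (cl T B E 0 : ℝ) := by
  have hM := F1_M ha1
  have hsec : ∀ D, 1 ≤ D → D ≤ Dx → ∀ X, X ≤ N → sct V D X = Icc 1 X := by
    intro D h1 h2 X hX
    unfold sct
    apply Finset.filter_true_of_mem
    intro y hy
    have h3 := mem_Icc.1 hy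
    exact hV D h1 h2 y h3.1 (h3.2.trans hX)
  have hex : ∀ D, 1 ≤ D → D ≤ Dx → ∀ k, cl T B E k ≤ N → ex V D (cl T B E k) = 2 := by
    intro D h1 h2 k hk
    have hc : (0 : ℝ) < (cl T B E k : ℝ) := by exact_mod_cast F1_cl_pos hT hB k
    unfold ex
    rw [hsec D h1 h2 _ hk, Nat.card_Icc, Nat.add_sub_cancel, mul_div_assoc, div_self hc.ne']
    norm_num
  induction j generalizing D with
  | zero =>
    have hc : (0 : ℝ) < (cl T B E 0 : ℝ) := by exact_mod_cast F1_cl_pos hT hB 0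
    unfold Val
    have h1 : ∀ d ∈ Icc 1 M, a d * exl V (D * d) (cl T B E 0) = a d * (2 - 3 / (cl T B E 0 : ℝ)) := by
      intro d hd
      have h2 := mem_Icc.1 hd
      congr 1
      unfold exl
      rw [hsec (D * d) (Nat.mul_pos hD h2.1) ?_ _ (by simpa using hN)]
      · have e : ∀ y ∈ Icc 1 (cl T B E 0), 2 * ((cl T B E 0 : ℝ) - (y : ℝ)) / (cl T B E 0 : ℝ) ^ 2 =
            (2 / (cl T B E 0 : ℝ) ^ 2) * ((cl T B E 0 : ℝ) - (y : ℝ)) := by
          intro y _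
          ring
        rw [Finset.sum_congr rfl e, ← Finset.mul_sum, F1_tri]
        field_simp
        ring
      · calc D * d ≤ D * M := Nat.mul_le_mul_left D h2.2
          _ = D * ((F * B) ^ 0 * M) := by rw [pow_zero, one_mul]
          _ ≤ Dx := hDx
    rw [Finset.sum_congr rfl h1, ← Finset.sum_mul, ha1]
    push_cast
    ring
  | succ j ih =>
    unfold Val GG
    have hB0 : (B : ℝ) ≠ 0 := by
      have : (0 : ℝ) < B := by exact_mod_cast hB
      exact this.ne'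
    have hFB : 1 ≤ F * B := Nat.mul_pos hF hB
    have hDle : D ≤ Dx := by
      refine le_trans ?_ hDx
      have : 1 ≤ (F * B) ^ (j + 1) * M := Nat.mul_pos (Nat.pow_pos hFB) hM
      nlinarith
    rw [hex D hD hDle _ hN, hex D hD hDle _ ((F1_cl_mono hB (by omega)).trans hN)]
    have h1 : ∀ r ∈ Icc 1 B, Val V T B E F M a j (D * (F * r)) = 6 * j + 6 - 9 / (cl T B E 0 : ℝ) := by
      intro r hr
      have h2 := mem_Icc.1 hr
      apply ih
      · exact Nat.mul_pos hD (Nat.mul_pos hF h2.1)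
      · calc D * (F * r) * ((F * B) ^ j * M) ≤ D * (F * B) * ((F * B) ^ j * M) := by
              apply Nat.mul_le_mul_right
              apply Nat.mul_le_mul_left
              exact Nat.mul_le_mul_left F h2.2
          _ = D * ((F * B) ^ (j + 1) * M) := by ring
          _ ≤ Dx := hDx
      · exact (F1_cl_mono hB (by omega)).trans hN
    rw [Finset.sum_congr rfl h1, Finset.sum_const, Nat.card_Icc]
    simp only [Nat.add_sub_cancel, nsmul_eq_mul]
    push_cast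
    field_simp
    ring

end SFP
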