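import Pool.Agent.SFP.FD

/-!
# Module F2: cleaning a container

Proof. For `D ∈ [1, Dx]` let `G D = sct C D N` and call `y ∈ G D` bad if `T < rp (G D) y` or `T < rm (G D) y`. Double counting:
`∑ y ∈ G, rp G y = pr G` and `∑ y ∈ G, rm G y = pr G` (`(x, y)`, `y < x`, `x - y ∈ G` corresponds to the pair `(y, x - y)`), so at most
`2 * pr G / T ≤ 2 * e / T` elements are bad. `S := C \ ⋃_{D ∈ Icc 1 Dx} image (D * ·) (bad D)`. If `y ∈ sct S D N` then `y ∈ sct C D N`
and `y` is not bad at `D`, and `rp`, `rm` are monotone in the set (`sct S D N ⊆ sct C D N`): `rp (sct S D N) y ≤ rp (G D) y ≤ T`.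
`|C \ S| ≤ ∑_{D} |bad D| ≤ Dx * (2 * e / T)`.
-/

namespace SFP

open Finset

theorem F2_rp_mono {A B : Finset ℕ} (h : A ⊆ B) (x : ℕ) : rp A x ≤ rp B x := by
  unfold rp
  apply card_le_card
  intro y hy
  rw [mem_filter] at hy ⊢
  exact ⟨h hy.1, h hy.2⟩

theorem F2_rm_mono {A B : Finset ℕ} (h : A ⊆ B) (x : ℕ) : rm A x ≤ rm B x := by
  unfold rm
  apply card_le_card
  intro y hy
  rw [mem_filter] at hy ⊢
  exact ⟨h hy.1, hy.2.1, h hy.2.2⟩

theorem F2_sum_rp (G : Finset ℕ) : ∑ x ∈ G, rp G x = pr G := by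
  unfold rp pr
  rw [card_filter, sum_product_right]
  apply sum_congr rfl
  intro x _
  rw [card_filter]

theorem F2_sum_rm (G : Finset ℕ) : ∑ x ∈ G, rm G x ≤ pr G := by
  have h1 : ∑ x ∈ G, rm G x = ((G ×ˢ G).filter (fun p => p.2 < p.1 ∧ p.1 - p.2 ∈ G)).card := by
    unfold rm
    rw [card_filter, sum_product]
    apply sum_congr rfl
    intro x _
    rw [card_filter]
  rw [h1]
  unfold pr
  refine card_le_card_of_injOn (fun p => (p.2, p.1 - p.2)) ?_ ?_
  · rintro ⟨x, y⟩ hp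
    simp only [coe_filter, mem_product, Set.mem_ofPred_eq] at hp ⊢
    refine ⟨⟨hp.1.2, hp.2.2⟩, ?_⟩
    rw [Nat.add_sub_cancel' hp.2.1.le]
    exact hp.1.1
  · rintro ⟨x, y⟩ hp ⟨x', y'⟩ hp' heq
    simp only [coe_filter, mem_product, Set.mem_ofPred_eq] at hp hp'
    simp only [Prod.mk.injEq] at heq ⊢
    omega

/-- bad elements -/
def F2_bad (G : Finset ℕ) (T : ℕ) : Finset ℕ := G.filter (fun y => T < rp G y ∨ T < rm G y)

theorem F2_bad_card (G : Finset ℕ) (T : ℕ) : (F2_bad G T).card * T ≤ 2 * pr G := by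
  have h1 : (F2_bad G T).card * T ≤ ∑ y ∈ F2_bad G T, (rp G y + rm G y) := by
    rw [← smul_eq_mul]
    apply card_nsmul_le_sum
    intro y hy
    unfold F2_bad at hy
    rw [mem_filter] at hy
    rcases hy.2 with h | h <;> omega
  have h2 : ∑ y ∈ F2_bad G T, (rp G y + rm G y) ≤ ∑ y ∈ G, (rp G y + rm G y) :=
    sum_le_sum_of_subset (filter_subset _ _)
  have h3 : ∑ y ∈ G, (rp G y + rm G y) ≤ 2 * pr G := by
    rw [sum_add_distrib, F2_sum_rp]
    have := F2_sum_rm G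
    omega
  exact h1.trans (h2.trans h3)

theorem clean (Dx N T : ℕ) (hT : 1 ≤ T) (e : ℝ) (C : Finset ℕ)
    (hpoor : ∀ D, 1 ≤ D → D ≤ Dx → (pr (sct C D N) : ℝ) ≤ e) :
    ∃ S ⊆ C, (∀ D, 1 ≤ D → D ≤ Dx → RSF (sct S D N) T) ∧
      ((C \ S).card : ℝ) ≤ Dx * (2 * e / T) := by
  have hT0 : (0 : ℝ) < T := by exact_mod_cast hT
  refine ⟨C \ (Icc 1 Dx).biUnion (fun D => (F2_bad (sct C D N) T).image (fun y => D * y)), sdiff_subset, ?_, ?_⟩
  · intro D hD1 hD2 x hx
    set S := C \ (Icc 1 Dx).biUnion (fun D => (F2_bad (sct C D N) T).image (fun y => D * y)) with hS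
    have hsub : sct S D N ⊆ sct C D N := by
      intro y hy
      unfold sct at hy ⊢
      rw [mem_filter] at hy ⊢
      exact ⟨hy.1, (mem_sdiff.1 hy.2).1⟩
    have hxC : x ∈ sct C D N := hsub hx
    have hxb : x ∉ F2_bad (sct C D N) T := by
      intro hb
      unfold sct at hx
      rw [mem_filter, hS, mem_sdiff] at hx
      apply hx.2.2
      rw [mem_biUnion]
      exact ⟨D, mem_Icc.2 ⟨hD1, hD2⟩, mem_image.2 ⟨x, hb, rfl⟩⟩
    have h3 : ¬ (T < rp (sct C D N) x ∨ T < rm (sct C D N) x) := by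
      intro h
      exact hxb (mem_filter.2 ⟨hxC, h⟩)
    push Not at h3
    constructor
    · exact_mod_cast (F2_rp_mono hsub x).trans h3.1
    · exact_mod_cast (F2_rm_mono hsub x).trans h3.2
  · have h1 : (C \ (C \ (Icc 1 Dx).biUnion (fun D => (F2_bad (sct C D N) T).image (fun y => D * y)))).card ≤
        ∑ D ∈ Icc 1 Dx, (F2_bad (sct C D N) T).card := by
      refine (card_le_card (t := (Icc 1 Dx).biUnion (fun D => (F2_bad (sct C D N) T).image (fun y => D * y))) ?_).trans ?_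
      · intro y hy
        rw [mem_sdiff, mem_sdiff] at hy
        by_contra hcon
        exact hy.2 ⟨hy.1, hcon⟩
      · refine card_biUnion_le.trans ?_
        exact sum_le_sum fun D _ => card_image_le
    have h2 : ∀ D ∈ Icc 1 Dx, ((F2_bad (sct C D N) T).card : ℝ) ≤ 2 * e / T := by
      intro D hD
      rw [mem_Icc] at hD
      rw [le_div_iff₀ hT0]
      have h3 : ((F2_bad (sct C D N) T).card : ℝ) * T ≤ 2 * pr (sct C D N) := by
        exact_mod_cast F2_bad_card (sct C D N) T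
      linarith [hpoor D hD.1 hD.2]
    calc ((C \ (C \ (Icc 1 Dx).biUnion (fun D => (F2_bad (sct C D N) T).image (fun y => D * y)))).card : ℝ)
        ≤ ((∑ D ∈ Icc 1 Dx, (F2_bad (sct C D N) T).card : ℕ) : ℝ) := by exact_mod_cast h1
      _ = ∑ D ∈ Icc 1 Dx, ((F2_bad (sct C D N) T).card : ℝ) := by push_cast; rfl
      _ ≤ ∑ D ∈ Icc 1 Dx, 2 * e / T := sum_le_sum h2
      _ = Dx * (2 * e / T) := by
          rw [sum_const, Nat.card_Icc, nsmul_eq_mul, Nat.add_sub_cancel]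

end SFP
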