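import Pool.Agent.SFP.F1
import Pool.Agent.SFP.F2
import Pool.Agent.SF4.Cont
import Pool.Agent.SF4.Weight
import Pool.Agent.SF2.Rand
import Pool.Agent.SFree.Asym

/-!
# Module F3: containers, cleaning and a random set

Model: `SF4.assemble4` (Pool/Agent/SF4/Assemble.lean). `N := cl T B E (2 * J)`, `Dx := Dm B F M J`, `Q := Icc 1 Dx`,
`U := SF4.UU4 N Q` (subset of the positive integers, `SF4.UU4_pos`), `|U| ≤ Dx * N` (`SF4.card_UU4`), `𝒞` from `SF4.containers4 N Q .. U`.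
`L := cl T B E 0 = T * B ^ E`.
Weights: `p z = Wt T B E F M a J 1 z.toNat * (L / (3 * J + 6))` for `z : ℤ`; `0 ≤ p ≤ 1` by `Wt_nonneg`, `Wt_le`.
Transfer to `ℕ`: for `C ⊆ U` let `C₁ := C.image Int.toNat`; `Int.toNat` is injective on `C` (positive integers), so
`∑ z ∈ C, p z = ∑ n ∈ C₁, Wt .. n * (L / (3J+6))`, and `n ∈ C₁ ↔ (n : ℤ) ∈ C` for all `n`
(so `0 ∉ C₁`), `sct C₁ D N` corresponds to `SF4.secd N C D` via `Int.toNat`/`Nat.cast`, hence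
`pr (sct C₁ D N) ≤ SF2.prs (SF4.secd N C D) N N ≤ ε * N * N` (`Poor4`; a pair with sum in the section has sum `≤ N` and `p.1 ≤ N`).
(1) Total: `Val_full` with `V = U₁`: `∑ n ∈ U₁, Wt = (6 J + 6 - 9 / L + 3 J + 3) / 3 = 3 J + 3 - 3 / L` by `Val_eq` (`hDx : 1 * ((F * B) ^ J * M) ≤ Dx`).
(2) Container `C'`: `clean` with `e = ε * N * N`: `S ⊆ C'₁`, `|C'₁ \ S| ≤ Dx * (2 * (ε N²) / T) ≤ T` (`hε2`). `hVal S`: `3 * ∑_S Wt - (3 J + 3) ≤ Cb`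
(`Val_eq`), so `∑_{C'₁} Wt ≤ J + 1 + Cb / 3 + T * (3 J + 6) / L` (`Wt_le`), `T / L = 1 / B ^ E ≤ δ`, `1 / L ≤ δ`.
With `α = 1 / 3 + Cb + 4 * δ`: `α * (3 J + 3 - 3 / L) ≥ J + 1 - 1 / L + (Cb + 4 δ) * (3 J + 2)` if `L ≥ 3`
`≥ J + 1 + Cb / 3 + (3 J + 6) δ` since `4 (3 J + 2) - 1 ≥ 3 J + 6` and `3 J + 2 ≥ 1 / 3` (as `1 / L ≤ δ`).
(3) `SF2.exists_random U p .. 𝒞 .. (1 / 3 + Cb + 4 δ) δ`: `|𝒞| ≤ exp (τ * |U|) ≤ exp (τ * (Dx * N))` as in `assemble4`, and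
`δ ^ 2 / 4 * ∑_U p = δ ^ 2 / 4 * (3 J + 3 - 3 / L) * L / (3 J + 6) ≥ δ ^ 2 * L / 12` as `3 J + 3 - 3 / L ≥ 3 J + 2 ≥ (3 J + 6) / 3`; `hsmall`.
(4) the random set `A ⊆ U`: every sum-free `B' ⊆ A` is inside some container `C'`, so `|B'| ≤ |A ∩ C'| ≤ (1 / 3 + Cb + 5 δ) |A|`.
-/

namespace SFP

open Finset

theorem F3_mem {C : Finset ℤ} (hC : ∀ z ∈ C, 0 < z) (n : ℕ) :
    n ∈ C.image Int.toNat ↔ (n : ℤ) ∈ C := by
  rw [mem_image]
  constructor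
  · rintro ⟨z, hz, rfl⟩
    rw [Int.toNat_of_nonneg (hC z hz).le]
    exact hz
  · intro h
    exact ⟨n, h, Int.toNat_natCast n⟩

theorem F3_inj {C : Finset ℤ} (hC : ∀ z ∈ C, 0 < z) : Set.InjOn Int.toNat (C : Set ℤ) := by
  intro x hx y hy h
  have h1 := hC x hx
  have h2 := hC y hy
  have h3 : (x.toNat : ℤ) = (y.toNat : ℤ) := by rw [h]
  rw [Int.toNat_of_nonneg h1.le, Int.toNat_of_nonneg h2.le] at h3
  exact h3

theorem F3_sum {C : Finset ℤ} (hC : ∀ z ∈ C, 0 < z) (f : ℕ → ℝ) :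
    ∑ n ∈ C.image Int.toNat, f n = ∑ z ∈ C, f z.toNat :=
  sum_image (F3_inj hC)

theorem F3_pr {C : Finset ℤ} (hC : ∀ z ∈ C, 0 < z) (D N : ℕ) :
    pr (sct (C.image Int.toNat) D N) ≤ SF2.prs (SF4.secd N C D) N N := by
  unfold pr SF2.prs
  have hmem : ∀ y : ℕ, y ∈ sct (C.image Int.toNat) D N ↔ (y : ℤ) ∈ SF4.secd N C D := by
    intro y
    unfold sct SF4.secd
    rw [mem_filter, mem_filter, F3_mem hC, mem_Icc, mem_Icc]
    push_cast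
    constructor
    · rintro ⟨⟨h1, h2⟩, h3⟩
      exact ⟨⟨by exact_mod_cast h1, by exact_mod_cast h2⟩, h3⟩
    · rintro ⟨⟨h1, h2⟩, h3⟩
      exact ⟨⟨by exact_mod_cast h1, by exact_mod_cast h2⟩, h3⟩
  apply card_le_card_of_injOn (fun p : ℕ × ℕ => ((p.1 : ℤ), (p.2 : ℤ)))
  · intro p hp
    have hp' := mem_filter.1 (Finset.mem_coe.1 hp)
    rw [mem_product] at hp'
    obtain ⟨⟨h1, h2⟩, h3⟩ := hp'
    apply Finset.mem_coe.2
    rw [mem_filter, mem_product]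
    have h4 := (hmem _).1 h3
    have h5 := (hmem _).1 h1
    refine ⟨⟨h5, (hmem _).1 h2⟩, ?_, ?_, ?_⟩
    · unfold SF4.secd at h5
      rw [mem_filter, mem_Icc] at h5
      exact h5.1.2
    · unfold SF4.secd at h4
      rw [mem_filter, mem_Icc] at h4
      have := h4.1.2
      push_cast at this
      show (p.2 : ℤ) + p.1 ≤ N
      linarith
    · push_cast at h4
      show (p.2 : ℤ) + p.1 ∈ _
      rw [add_comm]
      exact h4
  · intro p _ q _ h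
    simp only [Prod.mk.injEq, Nat.cast_inj] at h
    exact Prod.ext h.1 h.2

theorem assemble {T B E F M J : ℕ} {a : ℕ → ℝ} (hT : 1 ≤ T) (hB : 3 ≤ B) (hE : 1 ≤ E) (hF : 1 ≤ F)
    (hM : 1 ≤ M) (ha : ∀ d, 0 ≤ a d) (ha1 : ∑ d ∈ Icc 1 M, a d = 1) {Cb δ ε τ : ℝ} (hCb : 0 ≤ Cb)
    (hδ : 0 < δ) (hδB : 1 / (B : ℝ) ≤ δ) (hsum : 1 / 3 + Cb + 5 * δ ≤ 1)
    (hVal : ∀ S : Finset ℕ, (∀ D, 1 ≤ D → D ≤ Dm B F M J → RSF (sct S D (cl T B E (2 * J))) T) →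
      Val S T B E F M a J 1 ≤ Cb)
    (hε : 0 < ε)
    (hε2 : 2 * (Dm B F M J : ℝ) * ε * (cl T B E (2 * J) : ℝ) ^ 2 ≤ (T : ℝ) ^ 2)
    (h₀ β : ℕ) (hh₀ : 0 < h₀) (hh₀N : h₀ + 1 ≤ cl T B E (2 * J)) (hτ : 0 < τ)
    (hβ : (β : ℝ) ≤ h₀ * ε / 4)
    (hKW : Real.exp (-(τ / 2)) + Real.exp (-(τ / 2) * β) ≤ 1)
    (hbig : (cl T B E (2 * J) : ℝ) ^ (h₀ + 1) *
      Real.exp (-τ * (ε * (cl T B E (2 * J) : ℕ) / 16 - h₀)) ≤ 1 / 2)
    (hsmall : τ * ((Dm B F M J : ℝ) * (cl T B E (2 * J) : ℕ)) < δ ^ 2 * (cl T B E 0 : ℕ) / 12) :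
    ∃ A : Finset ℤ, (∀ z ∈ A, 0 < z) ∧ 0 < A.card ∧ A.card ≤ Dm B F M J * cl T B E (2 * J) ∧
      ∀ B' ⊆ A, SFree.SumFree (B' : Set ℤ) → (B'.card : ℝ) ≤ (1 / 3 + Cb + 5 * δ) * A.card := by
  classical
  have hB1 : 1 ≤ B := by omega
  obtain ⟨N, hN⟩ : ∃ N, N = cl T B E (2 * J) := ⟨_, rfl⟩
  obtain ⟨L, hL⟩ : ∃ L, L = cl T B E 0 := ⟨_, rfl⟩
  obtain ⟨Dx, hDx⟩ : ∃ Dx, Dx = Dm B F M J := ⟨_, rfl⟩
  rw [← hN, ← hDx] at hVal hε2 hsmall ⊢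
  rw [← hN] at hh₀N hbig
  rw [← hL] at hsmall
  have hTr : (1 : ℝ) ≤ T := by exact_mod_cast hT
  have hBr : (3 : ℝ) ≤ B := by exact_mod_cast hB
  -- facts on `L`
  have hLeq : (L : ℝ) = T * (B : ℝ) ^ E := by
    rw [hL]
    unfold cl
    push_cast
    norm_num
  have hBE : (B : ℝ) ≤ (B : ℝ) ^ E := by
    calc (B : ℝ) = (B : ℝ) ^ 1 := (pow_one _).symm
      _ ≤ (B : ℝ) ^ E := pow_le_pow_right₀ (by linarith) hE
  have hLB : (T : ℝ) * B ≤ L := by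
    rw [hLeq]
    exact mul_le_mul_of_nonneg_left hBE (by linarith)
  have hLB1 : (B : ℝ) ≤ L := by
    refine le_trans ?_ hLB
    exact le_mul_of_one_le_left (by linarith) hTr
  have hL3 : (3 : ℝ) ≤ L := hBr.trans hLB1
  have hL0 : (0 : ℝ) < L := by linarith
  have hLinv : 1 / (L : ℝ) ≤ δ := by
    refine le_trans ?_ hδB
    exact one_div_le_one_div_of_le (by linarith) hLB1
  have hTL : (T : ℝ) / L ≤ δ := by
    refine le_trans ?_ hδB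
    rw [div_le_div_iff₀ hL0 (by linarith)]
    linarith
  have h3L : 3 / (L : ℝ) ≤ 1 := by
    rw [div_le_one hL0]
    exact hL3
  have hJ0 : (0 : ℝ) ≤ J := Nat.cast_nonneg _
  have hJ6 : (0 : ℝ) < 3 * J + 6 := by linarith
  -- the ground set
  have hQpos : ∀ d ∈ Icc 1 Dx, 0 < d := by
    intro d hd
    rw [mem_Icc] at hd
    omega
  obtain ⟨U, hU⟩ : ∃ U, U = SF4.UU4 N (Icc 1 Dx) := ⟨_, rfl⟩
  have hUcard : U.card ≤ Dx * N := by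
    rw [hU]
    refine (SF4.card_UU4 N _).trans ?_
    rw [Nat.card_Icc]
    exact Nat.mul_le_mul_right _ (by omega)
  have hUpos : ∀ z ∈ U, 0 < z := by
    intro z hz
    rw [hU] at hz
    exact SF4.UU4_pos hQpos hz
  obtain ⟨𝒞, h𝒞1, h𝒞2, h𝒞3⟩ := SF4.containers4 N (Icc 1 Dx) hQpos h₀ β ε τ hh₀ hh₀N hε hτ hβ
    hKW hbig U
  have h𝒞ne : 𝒞.Nonempty := by
    obtain ⟨C', hC', _⟩ := h𝒞1 ∅ (empty_subset _) (by
      intro a ha
      simp at ha)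
    exact ⟨C', hC'⟩
  -- the weights
  obtain ⟨W, hW⟩ : ∃ W : ℕ → ℝ, W = fun n => Wt T B E F M a J 1 n := ⟨_, rfl⟩
  have hW0 : ∀ n, 0 ≤ W n := fun n => by rw [hW]; exact Wt_nonneg ha J 1 n
  have hW1 : ∀ n, W n ≤ (3 * J + 6) / (L : ℝ) := fun n => by
    rw [hW, hL]
    exact Wt_le hT hB1 hF ha ha1 J 1 n le_rfl
  obtain ⟨p, hp⟩ : ∃ p : ℤ → ℝ, p = fun z => W z.toNat * (L / (3 * J + 6)) := ⟨_, rfl⟩
  have hp0 : ∀ z ∈ U, 0 ≤ p z := by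
    intro z _
    rw [hp]
    exact mul_nonneg (hW0 _) (by positivity)
  have hp1 : ∀ z ∈ U, p z ≤ 1 := by
    intro z _
    rw [hp]
    calc W z.toNat * (L / (3 * J + 6)) ≤ (3 * J + 6) / (L : ℝ) * (L / (3 * J + 6)) :=
          mul_le_mul_of_nonneg_right (hW1 _) (by positivity)
      _ = 1 := by field_simp
  -- the total weight
  have hWU : ∑ z ∈ U, W z.toNat = 3 * J + 3 - 3 / L := by
    rw [← F3_sum hUpos W]
    have h1 := Val_full (T := T) (B := B) (E := E) (F := F) (M := M) (N := N) (Dx := Dx) (a := a)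
      hT hB1 hF ha1 (U.image Int.toNat) (by
        intro D hD1 hD2 y hy1 hy2
        rw [F3_mem hUpos, hU]
        refine SF4.Weight_mem_UU4.2 ⟨D, mem_Icc.2 ⟨hD1, hD2⟩, y, by exact_mod_cast hy1,
          by exact_mod_cast hy2, by push_cast; ring⟩) J 1 le_rfl (by
        rw [hDx]
        unfold Dm
        rw [one_mul]) (by rw [hN])
    rw [Val_eq hB1 ha1, ← hL] at h1
    rw [hW]
    have h2 : (3 : ℝ) * ∑ n ∈ U.image Int.toNat, Wt T B E F M a J 1 n = 9 * J + 9 - 9 / L := by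
      linarith
    have h3 : (9 : ℝ) / L = 3 * (3 / L) := by ring
    rw [h3] at h2
    linarith
  have hsumU : ∑ z ∈ U, p z = (3 * J + 3 - 3 / L) * (L / (3 * J + 6)) := by
    rw [hp, ← sum_mul, hWU]
  -- every container is light
  have hCC : ∀ C ∈ 𝒞, ∑ z ∈ U ∩ C, p z ≤ (1 / 3 + Cb + 4 * δ) * ∑ z ∈ U, p z := by
    intro C hC'
    obtain ⟨hCU, hpoor⟩ := h𝒞2 C hC'
    have hCpos : ∀ z ∈ C, 0 < z := fun z hz => hUpos z (hCU hz)
    have hinter : U ∩ C = C := inter_eq_right.2 hCU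
    rw [hinter, hsumU]
    have h0 : ∑ z ∈ C, p z = (∑ n ∈ C.image Int.toNat, W n) * (L / (3 * J + 6)) := by
      rw [hp, ← sum_mul, F3_sum hCpos W]
    rw [h0, ← mul_assoc]
    apply mul_le_mul_of_nonneg_right _ (by positivity)
    obtain ⟨S, hSC, hS1, hS2⟩ := clean Dx N T hT (ε * N * N) (C.image Int.toNat) (by
      intro D hD1 hD2
      refine le_trans ?_ (hpoor D (mem_Icc.2 ⟨hD1, hD2⟩))
      exact_mod_cast F3_pr hCpos D N)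
    have hV := hVal S hS1
    rw [Val_eq hB1 ha1] at hV
    have hS3 : (((C.image Int.toNat) \ S).card : ℝ) ≤ T := by
      refine hS2.trans ?_
      have h4 : (Dx : ℝ) * (2 * (ε * N * N) / T) = 2 * Dx * ε * (N : ℝ) ^ 2 / T := by ring
      rw [h4, div_le_iff₀ (by linarith)]
      calc 2 * (Dx : ℝ) * ε * (N : ℝ) ^ 2 ≤ (T : ℝ) ^ 2 := hε2
        _ = T * T := by ring
    have hsplit : ∑ n ∈ C.image Int.toNat, W n =
        ∑ n ∈ (C.image Int.toNat) \ S, W n + ∑ n ∈ S, W n := (sum_sdiff hSC).symm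
    have h5 : ∑ n ∈ (C.image Int.toNat) \ S, W n ≤ T * ((3 * J + 6) / L) := by
      calc ∑ n ∈ (C.image Int.toNat) \ S, W n
          ≤ ∑ n ∈ (C.image Int.toNat) \ S, (3 * J + 6) / (L : ℝ) := sum_le_sum fun n _ => hW1 n
        _ = (((C.image Int.toNat) \ S).card : ℝ) * ((3 * J + 6) / L) := by
            rw [sum_const, nsmul_eq_mul]
        _ ≤ T * ((3 * J + 6) / L) := mul_le_mul_of_nonneg_right hS3 (by positivity)
    have h6 : (T : ℝ) * ((3 * J + 6) / L) ≤ (3 * J + 6) * δ := by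
      calc (T : ℝ) * ((3 * J + 6) / L) = (3 * J + 6) * (T / L) := by ring
        _ ≤ (3 * J + 6) * δ := mul_le_mul_of_nonneg_left hTL hJ6.le
    have h7 : ∑ n ∈ S, W n ≤ J + 1 + Cb / 3 := by
      rw [hW]
      linarith
    rw [hsplit]
    have h8 : (1 / 3 + Cb + 4 * δ) * (3 * J + 3 - 3 / (L : ℝ)) =
        J + 1 - 1 / L + (Cb + 4 * δ) * (3 * J + 3 - 3 / L) := by ring
    rw [h8]
    have h9 : (Cb + 4 * δ) * (3 * J + 2) ≤ (Cb + 4 * δ) * (3 * J + 3 - 3 / L) :=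
      mul_le_mul_of_nonneg_left (by linarith) (by linarith)
    have h10 : 0 ≤ Cb * J := mul_nonneg hCb hJ0
    have h11 : 0 ≤ δ * J := mul_nonneg hδ.le hJ0
    nlinarith
  -- the number of containers
  have hcard𝒞 : (𝒞.card : ℝ) ≤ Real.exp (τ * (Dx * N)) := by
    have h1 : ∀ C' ∈ 𝒞, Real.exp (-(τ * (Dx * N))) ≤ Real.exp (-τ * ((U \ C').card : ℝ)) := by
      intro C' _
      rw [Real.exp_le_exp]
      have h2 : (U \ C').card ≤ Dx * N := (card_le_card sdiff_subset).trans hUcard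
      have h3 : ((U \ C').card : ℝ) ≤ Dx * N := by exact_mod_cast h2
      nlinarith
    have h2 : (𝒞.card : ℝ) * Real.exp (-(τ * (Dx * N))) ≤ 1 := by
      calc (𝒞.card : ℝ) * Real.exp (-(τ * (Dx * N)))
          = ∑ C' ∈ 𝒞, Real.exp (-(τ * (Dx * N))) := by rw [sum_const, nsmul_eq_mul]
        _ ≤ ∑ C' ∈ 𝒞, Real.exp (-τ * ((U \ C').card : ℝ)) := sum_le_sum h1
        _ ≤ 1 := h𝒞3
    rw [Real.exp_neg] at h2
    have h3 := Real.exp_pos (τ * (Dx * N))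
    rw [← div_eq_mul_inv, div_le_one h3] at h2
    exact h2
  have hcard : (𝒞.card : ℝ) < Real.exp (δ ^ 2 / 4 * ∑ z ∈ U, p z) := by
    refine hcard𝒞.trans_lt ?_
    rw [Real.exp_lt_exp, hsumU]
    refine hsmall.trans_le ?_
    have h1 : (L : ℝ) / 3 ≤ (3 * J + 3 - 3 / L) * (L / (3 * J + 6)) := by
      have h2 : (1 : ℝ) / 3 ≤ (3 * J + 3 - 3 / L) / (3 * J + 6) := by
        rw [div_le_div_iff₀ (by norm_num) hJ6]
        linarith
      calc (L : ℝ) / 3 = 1 / 3 * L := by ring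
        _ ≤ (3 * J + 3 - 3 / L) / (3 * J + 6) * L := mul_le_mul_of_nonneg_right h2 hL0.le
        _ = (3 * J + 3 - 3 / L) * (L / (3 * J + 6)) := by ring
    calc δ ^ 2 * (L : ℝ) / 12 = δ ^ 2 / 4 * (L / 3) := by ring
      _ ≤ δ ^ 2 / 4 * ((3 * J + 3 - 3 / L) * (L / (3 * J + 6))) :=
          mul_le_mul_of_nonneg_left h1 (by positivity)
  obtain ⟨A, hAU, hAne, hA⟩ := SF2.exists_random U p hp0 hp1 𝒞 h𝒞ne (1 / 3 + Cb + 4 * δ) δ
    (by linarith) hδ (by linarith) hCC hcard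
  refine ⟨A, fun z hz => hUpos z (hAU hz), card_pos.2 hAne, (card_le_card hAU).trans hUcard, ?_⟩
  intro B' hB' hBs
  obtain ⟨C', hC', hBC⟩ := h𝒞1 B' (hB'.trans hAU) hBs
  have h1 : B' ⊆ A ∩ C' := subset_inter hB' hBC
  have h2 : (B'.card : ℝ) ≤ (A ∩ C').card := by exact_mod_cast card_le_card h1
  have h3 := hA C' hC'
  have h4 : 1 / 3 + Cb + 4 * δ + δ = 1 / 3 + Cb + 5 * δ := by ring
  rw [h4] at h3
  exact h2.trans h3

end SFP
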