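import Pool.Agent.SFP.FD

/-!
# Module F4: the parameters

Proof. Let `B = 2 ^ (8 * lam)`, `s = 2 * J + CN`, `u = E * (2 * J + 1)`, `e = 2 * u + s + 1`, `t = s + u + 1`, `k = 2 * (t + e) + 3`. For `lam` large: `F ≤ B`,
`80 * (k + u + 1) ≤ B`, `4 * B ^ t ≤ exp (B / 2)` (`Real.tendsto_pow_mul_exp_neg_atTop_nhds_zero` or a factorial bound), `1 ≤ lam`.
Then `M = 2 ^ (8 * lam * CN) = B ^ CN`, `Dm B F M J = (F * B) ^ J * M ≤ (B ^ 2) ^ J * B ^ CN = B ^ s`. Take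
`T = B ^ k`, `ε = 1 / B ^ e`, `τ = 1 / B ^ t`, `β = B ^ (t + 1)`, `h₀ = 4 * B ^ (t + 1 + e)`; `N = cl T B E (2 * J) = B ^ k * B ^ (E * (2 * J + 1)) = B ^ (k + u)`,
`cl T B E 0 = B ^ (k + E)`.
* `hε2`: `2 * B ^ s * B ^ (-e) * B ^ (2 * (k + u)) = 2 * B ^ (2 * k - 1) ≤ B ^ (2 * k)`.
* `hβ`: equality.
* `hKW`: `exp (- (τ / 2)) ≤ 1 - τ / 4` (`0 < τ ≤ 1`; `Real.one_sub_..` or `exp (-x) ≤ 1 - x + x ^ 2 / 2`; or `exp (-x) ≤ 1 / (1 + x)`), and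
  `exp (-(τ / 2) * β) = exp (- B / 2) ≤ 1 / (4 * B ^ t) = τ / 4`.
* `hbig`: take logarithms: `(h₀ + 1) * log N + τ * h₀ + log 2 ≤ 5 * B ^ (t + 1 + e) * ((k + u) * B) + 4 * B ^ (t + 1 + e) + 1 ≤ 5 (k + u + 1) B ^ (t + e + 2)`
  (`log B ≤ B`), `τ * ε * N / 16 = B ^ (k + u - t - e) / 16 ≥ B ^ (t + e + 3) / 16`.
* `hsmall`: `τ * (Dm * N) ≤ B ^ (k - 1)`, and `(1 / 2 ^ lam) ^ 2 * B ^ (k + E) / 12 ≥ 2 ^ (- 2 lam) * B ^ k / 12 > B ^ (k - 1)` as `2 ^ (8 lam) > 12 * 2 ^ (2 lam)`.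
* `hcard`: `Dm * N ≤ B ^ (s + k + u) = 2 ^ (8 * (s + k + u) * lam)`, `K = 8 * (s + k + u)`.
-/

namespace SFP

open Finset

theorem F4_exp_neg {x : ℝ} (h0 : 0 ≤ x) (h1 : x ≤ 1) : Real.exp (-x) ≤ 1 - x / 2 := by
  have h2 : 0 < 1 + x := by linarith
  have h3 : Real.exp (-x) ≤ 1 / (1 + x) := by
    rw [Real.exp_neg, inv_eq_one_div]
    apply one_div_le_one_div_of_le h2
    linarith [Real.add_one_le_exp x]
  refine h3.trans ?_
  rw [div_le_iff₀ h2]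
  nlinarith

theorem F4_pow_exp {t : ℕ} {x : ℝ} (hx : (4 * 2 ^ (t + 1) * (t + 1).factorial : ℕ) ≤ x) :
    4 * x ^ t ≤ Real.exp (x / 2) := by
  have h0 : (0 : ℝ) ≤ x := le_trans (Nat.cast_nonneg _) hx
  have h1 := Real.pow_div_factorial_le_exp (x / 2) (by linarith) (t + 1)
  refine le_trans ?_ h1
  have hf : (0 : ℝ) < ((t + 1).factorial : ℕ) := by exact_mod_cast Nat.factorial_pos _
  rw [le_div_iff₀ hf, div_pow, le_div_iff₀ (by positivity)]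
  push_cast at hx
  have e1 : 4 * x ^ t * ((t + 1).factorial : ℝ) * 2 ^ (t + 1) = x ^ t * (4 * 2 ^ (t + 1) * ((t + 1).factorial : ℝ)) := by ring
  rw [e1, pow_succ]
  exact mul_le_mul_of_nonneg_left hx (pow_nonneg h0 t)

/-- the conditions on the parameters, in terms of `x = B` -/
theorem F4_core {x Dmx N h₀ : ℝ} {s u e t k n : ℕ} (he : e = 2 * u + s + 1) (ht : t = s + u + 1)
    (hk : k = 2 * (t + e) + 3) (hx1 : 80 * ((k : ℝ) + u + 1) ≤ x)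
    (hx2 : 4 * x ^ t ≤ Real.exp (x / 2)) (hD0 : 0 ≤ Dmx) (hD : Dmx ≤ x ^ s) (hN : N = x ^ (k + u))
    (hh : h₀ = 4 * x ^ (t + 1 + e)) (hn : (n : ℝ) = h₀) :
    2 * Dmx * (1 / x ^ e) * N ^ 2 ≤ (x ^ k) ^ 2 ∧ h₀ + 1 ≤ N ∧ x ^ (t + 1) ≤ h₀ * (1 / x ^ e) / 4 ∧
    Real.exp (-((1 / x ^ t) / 2)) + Real.exp (-((1 / x ^ t) / 2) * x ^ (t + 1)) ≤ 1 ∧
    N ^ (n + 1) * Real.exp (-(1 / x ^ t) * ((1 / x ^ e) * N / 16 - h₀)) ≤ 1 / 2 ∧
    (1 / x ^ t) * (Dmx * N) ≤ x ^ (k - 1) := by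
  have hx80 : 80 ≤ x := by
    have h1 : (0 : ℝ) ≤ (k : ℝ) + u := by positivity
    linarith
  have hx0 : 0 < x := by linarith
  have hxne : x ≠ 0 := hx0.ne'
  have hxge1 : 1 ≤ x := by linarith
  have hτ0 : 0 < 1 / x ^ t := by positivity
  have hτ1 : 1 / x ^ t ≤ 1 := by
    rw [div_le_one (by positivity)]
    exact one_le_pow₀ hxge1
  have hh0 : 0 < h₀ := by rw [hh]; positivity
  have hN0 : 0 < N := by rw [hN]; positivity
  have hh5 : h₀ + 1 ≤ 5 * x ^ (t + 1 + e) := by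
    have : (1 : ℝ) ≤ x ^ (t + 1 + e) := one_le_pow₀ hxge1
    rw [hh]; linarith
  refine ⟨?_, ?_, ?_, ?_, ?_, ?_⟩
  · have h1 : 2 * Dmx * (1 / x ^ e) * N ^ 2 ≤ 2 * x ^ s * (1 / x ^ e) * N ^ 2 := by
      gcongr
    refine h1.trans ?_
    rw [hN]
    have e1 : 2 * x ^ s * (1 / x ^ e) * (x ^ (k + u)) ^ 2 = 2 * (x ^ (s + 2 * (k + u)) / x ^ e) := by
      rw [pow_add x s]
      rw [← pow_mul, mul_comm (k + u) 2]
      ring
    have e2 : x ^ (s + 2 * (k + u)) / x ^ e = x ^ (2 * k - 1) := by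
      rw [div_eq_iff (by positivity), ← pow_add]
      congr 1
      omega
    rw [e1, e2]
    have e3 : (x ^ k) ^ 2 = x ^ (2 * k - 1) * x := by
      rw [← pow_mul, ← pow_succ]
      congr 1
      omega
    rw [e3]
    have : 0 < x ^ (2 * k - 1) := by positivity
    nlinarith
  · refine hh5.trans ?_
    rw [hN]
    calc 5 * x ^ (t + 1 + e) ≤ x * x ^ (t + 1 + e) := by
          apply mul_le_mul_of_nonneg_right (by linarith) (by positivity)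
      _ = x ^ (t + 1 + e + 1) := by ring
      _ ≤ x ^ (k + u) := pow_le_pow_right₀ hxge1 (by omega)
  · rw [hh]
    have : 4 * x ^ (t + 1 + e) * (1 / x ^ e) / 4 = x ^ (t + 1) := by
      rw [pow_add x (t + 1) e]
      field_simp
    rw [this]
  · have h1 : -((1 / x ^ t) / 2) * x ^ (t + 1) = -(x / 2) := by
      rw [pow_succ]
      field_simp
    rw [h1]
    have h2 := F4_exp_neg (x := (1 / x ^ t) / 2) (by positivity) (by linarith)
    have h3 : Real.exp (-(x / 2)) ≤ (1 / x ^ t) / 4 := by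
      rw [Real.exp_neg, inv_eq_one_div]
      have : (1 / x ^ t) / 4 = 1 / (4 * x ^ t) := by
        rw [div_div, mul_comm]
      rw [this]
      exact one_div_le_one_div_of_le (by positivity) hx2
    linarith
  · have h1 : N ≤ Real.exp (((k : ℝ) + u) * x) := by
      have h2 : x ≤ Real.exp x := by linarith [Real.add_one_le_exp x]
      calc N = x ^ (k + u) := hN
        _ ≤ (Real.exp x) ^ (k + u) := pow_le_pow_left₀ hx0.le h2 _
        _ = Real.exp (((k + u : ℕ) : ℝ) * x) := by rw [← Real.exp_nat_mul]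
        _ = Real.exp (((k : ℝ) + u) * x) := by push_cast; rfl
    have h2 : N ^ (n + 1) ≤ Real.exp (((k : ℝ) + u) * x * (h₀ + 1)) := by
      calc N ^ (n + 1) ≤ (Real.exp (((k : ℝ) + u) * x)) ^ (n + 1) := pow_le_pow_left₀ hN0.le h1 _
        _ = Real.exp (((n + 1 : ℕ) : ℝ) * (((k : ℝ) + u) * x)) := by rw [← Real.exp_nat_mul]
        _ = Real.exp (((k : ℝ) + u) * x * (h₀ + 1)) := by
            push_cast
            rw [hn]
            congr 1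
            ring
    have h3 : (1 / x ^ t) * ((1 / x ^ e) * N) = x ^ (t + e + 3 + u) := by
      rw [hN]
      have : k + u = t + (e + (t + e + 3 + u)) := by omega
      rw [this, pow_add x t, pow_add x e]
      field_simp
    have h4 : x ^ (t + e + 3) ≤ x ^ (t + e + 3 + u) := pow_le_pow_right₀ hxge1 (by omega)
    have h5 : 80 * ((k : ℝ) + u + 1) * x ^ (t + e + 2) ≤ x ^ (t + e + 3) := by
      calc 80 * ((k : ℝ) + u + 1) * x ^ (t + e + 2) ≤ x * x ^ (t + e + 2) :=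
            mul_le_mul_of_nonneg_right hx1 (by positivity)
        _ = x ^ (t + e + 3) := by ring
    have h6 : ((k : ℝ) + u) * x * (h₀ + 1) + (h₀ + 1) ≤ 5 * ((k : ℝ) + u + 1) * x ^ (t + e + 2) := by
      have h7 : ((k : ℝ) + u) * x * (h₀ + 1) + (h₀ + 1) ≤ (((k : ℝ) + u) * x + x) * (h₀ + 1) := by
        nlinarith
      refine h7.trans ?_
      calc (((k : ℝ) + u) * x + x) * (h₀ + 1) ≤ (((k : ℝ) + u) * x + x) * (5 * x ^ (t + 1 + e)) := by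
            gcongr
        _ = 5 * ((k : ℝ) + u + 1) * x ^ (t + e + 2) := by
            have : t + e + 2 = (t + 1 + e) + 1 := by omega
            rw [this, pow_succ]
            ring
    have h7 : (1 / x ^ t) * h₀ ≤ h₀ := mul_le_of_le_one_left hh0.le hτ1
    have h8 : -(1 / x ^ t) * ((1 / x ^ e) * N / 16 - h₀) =
        -((1 / x ^ t) * ((1 / x ^ e) * N)) / 16 + (1 / x ^ t) * h₀ := by ring
    calc N ^ (n + 1) * Real.exp (-(1 / x ^ t) * ((1 / x ^ e) * N / 16 - h₀))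
        ≤ Real.exp (((k : ℝ) + u) * x * (h₀ + 1)) *
          Real.exp (-(1 / x ^ t) * ((1 / x ^ e) * N / 16 - h₀)) := by
          apply mul_le_mul_of_nonneg_right h2 (Real.exp_pos _).le
      _ = Real.exp (((k : ℝ) + u) * x * (h₀ + 1) + (-(1 / x ^ t) * ((1 / x ^ e) * N / 16 - h₀))) := by
          rw [← Real.exp_add]
      _ ≤ Real.exp (-1) := by
          rw [Real.exp_le_exp, h8, h3]
          linarith
      _ ≤ 1 / 2 := by
          have := F4_exp_neg (x := 1) (by norm_num) le_rfl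
          linarith
  · have h1 : (1 / x ^ t) * (Dmx * N) ≤ (1 / x ^ t) * (x ^ s * N) := by
      apply mul_le_mul_of_nonneg_left _ hτ0.le
      exact mul_le_mul_of_nonneg_right hD hN0.le
    refine h1.trans (le_of_eq ?_)
    rw [hN, ← pow_add]
    have : s + (k + u) = t + (k - 1) := by omega
    rw [this, pow_add x t]
    field_simp

theorem params (F J E CN : ℕ) (hF : 1 ≤ F) : ∃ K lam₀ : ℕ, ∀ lam : ℕ, lam₀ ≤ lam →
    ∃ T h₀ β : ℕ, ∃ ε τ : ℝ, 1 ≤ T ∧ 0 < ε ∧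
      2 * (Dm (2 ^ (8 * lam)) F (2 ^ (8 * lam * CN)) J : ℝ) * ε *
        (cl T (2 ^ (8 * lam)) E (2 * J) : ℝ) ^ 2 ≤ (T : ℝ) ^ 2 ∧
      0 < h₀ ∧ h₀ + 1 ≤ cl T (2 ^ (8 * lam)) E (2 * J) ∧ 0 < τ ∧ (β : ℝ) ≤ h₀ * ε / 4 ∧
      Real.exp (-(τ / 2)) + Real.exp (-(τ / 2) * β) ≤ 1 ∧
      (cl T (2 ^ (8 * lam)) E (2 * J) : ℝ) ^ (h₀ + 1) *
        Real.exp (-τ * (ε * (cl T (2 ^ (8 * lam)) E (2 * J) : ℕ) / 16 - h₀)) ≤ 1 / 2 ∧
      τ * ((Dm (2 ^ (8 * lam)) F (2 ^ (8 * lam * CN)) J : ℝ) *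
        (cl T (2 ^ (8 * lam)) E (2 * J) : ℕ)) <
        (1 / 2 ^ lam) ^ 2 * (cl T (2 ^ (8 * lam)) E 0 : ℕ) / 12 ∧
      Dm (2 ^ (8 * lam)) F (2 ^ (8 * lam * CN)) J * cl T (2 ^ (8 * lam)) E (2 * J) ≤
        2 ^ (K * lam) := by
  obtain ⟨s, hs⟩ : ∃ s, s = 2 * J + CN := ⟨_, rfl⟩
  obtain ⟨u, hu⟩ : ∃ u, u = E * (2 * J + 1) := ⟨_, rfl⟩
  obtain ⟨e, he⟩ : ∃ e, e = 2 * u + s + 1 := ⟨_, rfl⟩
  obtain ⟨t, ht⟩ : ∃ t, t = s + u + 1 := ⟨_, rfl⟩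
  obtain ⟨k, hk⟩ : ∃ k, k = 2 * (t + e) + 3 := ⟨_, rfl⟩
  refine ⟨8 * (s + (k + u)), 1 + F + 80 * (k + u + 1) + 4 * 2 ^ (t + 1) * (t + 1).factorial, ?_⟩
  intro lam hlam
  obtain ⟨B, hB⟩ : ∃ B, B = 2 ^ (8 * lam) := ⟨_, rfl⟩
  have hlB : lam ≤ B := by
    have h1 : lam < 2 ^ lam := Nat.lt_two_pow_self
    have h2 : 2 ^ lam ≤ 2 ^ (8 * lam) := Nat.pow_le_pow_right (by norm_num) (by omega)
    omega
  have hFB : F ≤ B := by omega
  have hB1 : 80 * (k + u + 1) ≤ B := by omega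
  have hB2 : 4 * 2 ^ (t + 1) * (t + 1).factorial ≤ B := by omega
  have hl1 : 1 ≤ lam := by omega
  have hM : 2 ^ (8 * lam * CN) = B ^ CN := by rw [hB, ← pow_mul]
  rw [hM, ← hB]
  have hN : cl (B ^ k) B E (2 * J) = B ^ (k + u) := by
    unfold cl
    rw [← hu, ← pow_add]
  have hN0 : cl (B ^ k) B E 0 = B ^ (k + E) := by
    unfold cl
    rw [zero_add, mul_one, ← pow_add]
  have hDm : Dm B F (B ^ CN) J ≤ B ^ s := by
    unfold Dm
    calc (F * B) ^ J * B ^ CN ≤ (B * B) ^ J * B ^ CN := by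
          apply Nat.mul_le_mul_right
          exact Nat.pow_le_pow_left (Nat.mul_le_mul_right _ hFB) _
      _ = B ^ s := by
          rw [hs, pow_add, pow_mul, pow_two]
  have hBpos : 0 < B := by rw [hB]; positivity
  have hcore := F4_core (x := (B : ℝ)) (Dmx := (Dm B F (B ^ CN) J : ℕ)) (N := ((B ^ (k + u) : ℕ) : ℝ))
    (h₀ := ((4 * B ^ (t + 1 + e) : ℕ) : ℝ)) (n := 4 * B ^ (t + 1 + e)) he ht hk
    (by exact_mod_cast hB1) (F4_pow_exp (by exact_mod_cast hB2)) (Nat.cast_nonneg _) (by exact_mod_cast hDm)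
    (by push_cast; rfl) (by push_cast; rfl) rfl
  obtain ⟨c1, c2, c3, c4, c5, c6⟩ := hcore
  refine ⟨B ^ k, 4 * B ^ (t + 1 + e), B ^ (t + 1), 1 / (B : ℝ) ^ e, 1 / (B : ℝ) ^ t,
    Nat.one_le_pow _ _ hBpos, by positivity, ?_, by positivity, ?_, by positivity, ?_, ?_, ?_, ?_, ?_⟩
  · rw [hN]
    push_cast at c1 ⊢
    exact c1
  · rw [hN]
    exact_mod_cast c2
  · push_cast at c3 ⊢
    exact c3
  · push_cast at c4 ⊢
    exact c4
  · rw [hN]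
    exact c5
  · rw [hN, hN0]
    refine lt_of_le_of_lt c6 ?_
    have hBr : (B : ℝ) = (2 ^ lam) ^ 8 := by
      rw [hB]
      push_cast
      rw [← pow_mul, mul_comm]
    have h1 : (1 : ℝ) ≤ B := by exact_mod_cast hBpos
    have h2 : (B : ℝ) ^ k ≤ ((B ^ (k + E) : ℕ) : ℝ) := by
      push_cast
      exact pow_le_pow_right₀ h1 (by omega)
    have h3 : (B : ℝ) ^ k = (B : ℝ) ^ (k - 1) * B := by
      rw [← pow_succ]
      congr 1
      omega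
    have h4 : (2 : ℝ) ≤ 2 ^ lam := by
      calc (2 : ℝ) = 2 ^ 1 := by norm_num
        _ ≤ 2 ^ lam := pow_le_pow_right₀ (by norm_num) hl1
    have h5 : (12 : ℝ) < (1 / 2 ^ lam) ^ 2 * B := by
      rw [hBr]
      have e1 : (1 / (2 : ℝ) ^ lam) ^ 2 * ((2 : ℝ) ^ lam) ^ 8 = ((2 : ℝ) ^ lam) ^ 6 := by
        field_simp
      rw [e1]
      calc (12 : ℝ) < 2 ^ 6 := by norm_num
        _ ≤ ((2 : ℝ) ^ lam) ^ 6 := pow_le_pow_left₀ (by norm_num) h4 6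
    have h6 : 0 < (B : ℝ) ^ (k - 1) := by positivity
    calc (B : ℝ) ^ (k - 1) = 12 * (B : ℝ) ^ (k - 1) / 12 := by ring
      _ < ((1 / 2 ^ lam) ^ 2 * B) * (B : ℝ) ^ (k - 1) / 12 := by gcongr
      _ = (1 / 2 ^ lam) ^ 2 * (B : ℝ) ^ k / 12 := by rw [h3]; ring
      _ ≤ (1 / 2 ^ lam) ^ 2 * ((B ^ (k + E) : ℕ) : ℝ) / 12 := by gcongr
  · rw [hN]
    calc Dm B F (B ^ CN) J * B ^ (k + u) ≤ B ^ s * B ^ (k + u) := Nat.mul_le_mul_right _ hDm
      _ = 2 ^ (8 * (s + (k + u)) * lam) := by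
          rw [← pow_add, hB, ← pow_mul]
          congr 1
          ring

end SFP
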