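import Pool.Agent.SFree.Asym

/-!
# Module F5: from the sets to all `n`

Proof. We may assume `1 ≤ K` and `1 ≤ C` (monotone). For large `n` let `lam = Nat.log 2 n / (2 * K)` (so `lam₀ ≤ lam` for large `n`). Then
`2 ^ (2 * K * lam) ≤ 2 ^ Nat.log 2 n ≤ n`, so `|A| ≤ 2 ^ (K * lam) ≤ √n`, and `n < 2 ^ (Nat.log 2 n + 1) ≤ 2 ^ (2 * K * (lam + 1))`, so
`2 ^ (lam + 1) ≥ n ^ (1 / (2 K))`, `1 / 2 ^ lam ≤ 2 * n ^ (-1 / (2 K))`. `SFree.Asy.f_le` (with `α = 1 / 3 + C / 2 ^ lam`):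
`f n ≤ n / 3 + 2 C n ^ (1 - 1 / (2 K)) + √n ≤ n / 3 + n ^ (1 - c)`, `c = 1 / (4 K)`, for large `n`: `n ^ (1 / (4 K)) ≥ 4 C` gives
`2 C n ^ (1 - 1 / (2 K)) ≤ (1 / 2) n ^ (1 - c)` and `n ^ (1 / 4) ≥ 2` gives `√n ≤ (1 / 2) n ^ (1 - c)` (`1 - c ≥ 3 / 4`).
-/

namespace SFP

open Finset SFree

theorem asymP (h : ∃ C : ℝ, ∃ K lam₀ : ℕ, ∀ lam : ℕ, lam₀ ≤ lam →
      ∃ A : Finset ℤ, (∀ z ∈ A, 0 < z) ∧ 0 < A.card ∧ A.card ≤ 2 ^ (K * lam) ∧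
        ∀ B ⊆ A, SumFree (B : Set ℤ) → (B.card : ℝ) ≤ (1 / 3 + C / 2 ^ lam) * A.card) :
    ∃ c : ℝ, 0 < c ∧ ∃ n₀ : ℕ, ∀ n : ℕ, n₀ ≤ n → (f n : ℝ) ≤ n / 3 + (n : ℝ) ^ (1 - c) := by
  obtain ⟨C, K, lam₀, h⟩ := h
  obtain ⟨K1, hKK1, hK1⟩ : ∃ K1, K ≤ K1 ∧ 1 ≤ K1 := ⟨max K 1, le_max_left _ _, le_max_right _ _⟩
  obtain ⟨C1, hCC1, hC1⟩ : ∃ C1 : ℝ, C ≤ C1 ∧ 1 ≤ C1 := ⟨max C 1, le_max_left _ _, le_max_right _ _⟩
  have hK1r : (1 : ℝ) ≤ K1 := by exact_mod_cast hK1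
  set c : ℝ := 1 / (4 * K1) with hc
  have hc0 : 0 < c := by positivity
  have hc4 : c ≤ 1 / 4 := by
    rw [hc]
    apply one_div_le_one_div_of_le (by norm_num)
    linarith
  refine ⟨c, hc0, ?_⟩
  have hev : ∀ᶠ n : ℕ in Filter.atTop, 4 * C1 ≤ (n : ℝ) ^ c ∧ 2 ≤ (n : ℝ) ^ (1 / 4 : ℝ) ∧
      2 ^ (2 * K1 * lam₀) ≤ n ∧ 1 ≤ n := by
    filter_upwards [((tendsto_rpow_atTop hc0).comp
      tendsto_natCast_atTop_atTop).eventually_ge_atTop (4 * C1),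
      ((tendsto_rpow_atTop (show (0 : ℝ) < 1 / 4 by norm_num)).comp
      tendsto_natCast_atTop_atTop).eventually_ge_atTop 2,
      Filter.eventually_ge_atTop (2 ^ (2 * K1 * lam₀)), Filter.eventually_ge_atTop 1]
      with n h1 h2 h3 h4
    exact ⟨h1, h2, h3, h4⟩
  obtain ⟨n₀, hn₀⟩ := Filter.eventually_atTop.1 hev
  refine ⟨n₀, fun n hn => ?_⟩
  obtain ⟨hx, hq, hl0, hn1⟩ := hn₀ n hn
  have hnr : (1 : ℝ) ≤ n := by exact_mod_cast hn1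
  have hn0 : (0 : ℝ) < n := by linarith
  set lam : ℕ := Nat.log 2 n / (2 * K1) with hlam
  have hK0 : 0 < 2 * K1 := by omega
  have hlam0 : lam₀ ≤ lam := by
    rw [hlam, Nat.le_div_iff_mul_le hK0]
    apply Nat.le_log_of_pow_le (by norm_num)
    rw [mul_comm lam₀]
    exact hl0
  obtain ⟨A, hpos, hA0, hAc, hA⟩ := h lam hlam0
  have h2 : (2 ^ (K1 * lam)) ^ 2 ≤ n := by
    calc (2 ^ (K1 * lam)) ^ 2 = 2 ^ (2 * K1 * lam) := by rw [← pow_mul]; ring_nf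
      _ ≤ 2 ^ Nat.log 2 n := by
        apply Nat.pow_le_pow_right (by norm_num)
        rw [hlam]
        exact Nat.mul_div_le _ _
      _ ≤ n := Nat.pow_log_le_self 2 (by omega)
  have hAn : (A.card : ℝ) ≤ √n := by
    apply Real.le_sqrt_of_sq_le
    have h3 : A.card ^ 2 ≤ n := by
      refine le_trans (Nat.pow_le_pow_left (hAc.trans ?_) 2) h2
      exact Nat.pow_le_pow_right (by norm_num) (Nat.mul_le_mul_right _ hKK1)
    exact_mod_cast h3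
  have h4 : n < (2 ^ (lam + 1)) ^ (2 * K1) := by
    calc n < 2 ^ (Nat.log 2 n + 1) := Nat.lt_pow_succ_log_self (by norm_num) n
      _ ≤ 2 ^ ((lam + 1) * (2 * K1)) := by
        apply Nat.pow_le_pow_right (by norm_num)
        have h5 := Nat.div_add_mod (Nat.log 2 n) (2 * K1)
        have h6 := Nat.mod_lt (Nat.log 2 n) hK0
        rw [← hlam] at h5
        nlinarith
      _ = (2 ^ (lam + 1)) ^ (2 * K1) := by rw [pow_mul]
  set x : ℝ := (n : ℝ) ^ c with hxd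
  have hx0 : 0 < x := by positivity
  have hx2 : x ^ 2 ≤ 2 ^ (lam + 1) := by
    have h5 : (n : ℝ) ≤ ((2 : ℝ) ^ (lam + 1)) ^ (2 * K1) := by exact_mod_cast h4.le
    have h6 : x ^ 2 = (n : ℝ) ^ (1 / (2 * K1 : ℝ)) := by
      rw [hxd, ← Real.rpow_natCast, ← Real.rpow_mul hn0.le, hc]
      congr 1
      push_cast
      field_simp
      norm_num
    rw [h6]
    calc (n : ℝ) ^ (1 / (2 * K1 : ℝ)) ≤ (((2 : ℝ) ^ (lam + 1)) ^ (2 * K1)) ^ (1 / (2 * K1 : ℝ)) := by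
          gcongr
      _ = 2 ^ (lam + 1) := by
        rw [← Real.rpow_natCast ((2 : ℝ) ^ (lam + 1)) (2 * K1), ← Real.rpow_mul (by positivity)]
        have : (((2 * K1 : ℕ) : ℝ) * (1 / (2 * K1 : ℝ))) = 1 := by
          push_cast
          field_simp
        rw [this, Real.rpow_one]
  have h7 : C1 / 2 ^ lam ≤ 1 / (2 * x) := by
    rw [div_le_div_iff₀ (by positivity) (by positivity)]
    have h8 : x ^ 2 ≤ 2 * 2 ^ lam := by
      calc x ^ 2 ≤ 2 ^ (lam + 1) := hx2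
        _ = 2 * 2 ^ lam := by ring
    nlinarith
  have hf := Asy.f_le (α := 1 / 3 + C1 / 2 ^ lam) (by positivity) hpos hA0
    (fun B hB hBs => (hA B hB hBs).trans (by gcongr)) n
  have h9 : (n : ℝ) ^ (1 - c) = n / x := by
    rw [Real.rpow_sub hn0, Real.rpow_one]
  have h10 : √(n : ℝ) ≤ n / (2 * x) := by
    have h11 : √(n : ℝ) = (n : ℝ) ^ (1 / 4 : ℝ) * (n : ℝ) ^ (1 / 4 : ℝ) := by
      rw [Real.sqrt_eq_rpow, ← Real.rpow_add hn0]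
      norm_num
    have h12 : (n : ℝ) = √(n : ℝ) * √(n : ℝ) := (Real.mul_self_sqrt hn0.le).symm
    have h13 : x ≤ (n : ℝ) ^ (1 / 4 : ℝ) := Real.rpow_le_rpow_of_exponent_le hnr hc4
    rw [le_div_iff₀ (by positivity)]
    conv_rhs => rw [h12]
    have h14 : 2 * x ≤ √(n : ℝ) := by
      rw [h11]
      nlinarith
    exact mul_le_mul_of_nonneg_left h14 (Real.sqrt_nonneg _)
  calc (f n : ℝ) ≤ (1 / 3 + C1 / 2 ^ lam) * n + A.card := hf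
    _ ≤ (1 / 3 + 1 / (2 * x)) * n + n / (2 * x) := by
      gcongr
      exact hAn.trans h10
    _ = n / 3 + (n : ℝ) ^ (1 - c) := by
      rw [h9]
      field_simp
      ring

end SFP
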