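import Pool.Agent.SFP.F3
import Pool.Agent.SFP.F4
import Pool.Agent.SFP.F5

/-!
# Module F6: the main inequality implies the theorem
-/

namespace SFP

open Finset SFree

theorem final (h : MI) :
    ∃ c : ℝ, 0 < c ∧ ∃ n₀ : ℕ, ∀ n : ℕ, n₀ ≤ n → (f n : ℝ) ≤ n / 3 + (n : ℝ) ^ (1 - c) := by
  obtain ⟨F, J, E, CN, lam₀, C, hF, hE, hC, hMI⟩ := h
  obtain ⟨K, lam₁, hpar⟩ := params F J E CN hF
  apply asymP
  -- `lam` large enough that `(C + 5) / 2 ^ lam ≤ 2 / 3`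
  obtain ⟨m, hm⟩ := exists_nat_gt (3 / 2 * (C + 5))
  refine ⟨C + 5, K, max (max lam₀ lam₁) (m + 1), fun lam hlam => ?_⟩
  have h1 : lam₀ ≤ lam := ((le_max_left _ _).trans (le_max_left _ _)).trans hlam
  have h2 : lam₁ ≤ lam := ((le_max_right _ _).trans (le_max_left _ _)).trans hlam
  have h3 : m + 1 ≤ lam := (le_max_right _ _).trans hlam
  have hlam1 : 1 ≤ lam := by omega
  obtain ⟨a, ha, ha1, hVal⟩ := hMI lam h1
  obtain ⟨T, h₀, β, ε, τ, hT, hε, hε2, hh₀, hh₀N, hτ, hβ, hKW, hbig, hsmall, hcard⟩ := hpar lam h2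
  have h2l : (m : ℝ) ≤ 2 ^ lam := by
    have : m ≤ 2 ^ lam := by
      have := Nat.lt_two_pow_self (n := lam)
      omega
    exact_mod_cast this
  have hpos : (0 : ℝ) < 2 ^ lam := by positivity
  have hB : 3 ≤ 2 ^ (8 * lam) := by
    calc 3 ≤ 2 ^ (8 * 1) := by norm_num
      _ ≤ 2 ^ (8 * lam) := Nat.pow_le_pow_right (by norm_num) (by omega)
  have hδB : 1 / (((2 ^ (8 * lam) : ℕ)) : ℝ) ≤ 1 / 2 ^ lam := by
    push_cast
    apply one_div_le_one_div_of_le hpos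
    exact pow_le_pow_right₀ (by norm_num) (by omega)
  obtain ⟨A, hA1, hA2, hA3, hA4⟩ := assemble (T := T) (B := 2 ^ (8 * lam)) (E := E) (F := F)
    (M := 2 ^ (8 * lam * CN)) (J := J) (a := a) hT hB hE hF Nat.one_le_two_pow ha ha1
    (Cb := C / 2 ^ lam) (δ := 1 / 2 ^ lam) (by positivity) (by positivity) hδB
    (by
      have h4 : C / 2 ^ lam + 5 * (1 / 2 ^ lam) = (C + 5) / 2 ^ lam := by ring
      have h5 : (C + 5) / 2 ^ lam ≤ 2 / 3 := by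
        rw [div_le_iff₀ hpos]
        linarith
      linarith) (hVal T hT) hε hε2 h₀ β hh₀ hh₀N hτ hβ hKW hbig hsmall
  refine ⟨A, hA1, hA2, hA3.trans hcard, fun B' hB' hs => ?_⟩
  have h6 := hA4 B' hB' hs
  have h7 : 1 / 3 + C / 2 ^ lam + 5 * (1 / 2 ^ lam) = 1 / 3 + (C + 5) / (2 : ℝ) ^ lam := by ring
  rw [h7] at h6
  exact h6

end SFP
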