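import Pool.Agent.SFP.Defs
import Pool.Agent.SFree.Defs

/-!
# Part F: definitions (weights, the main inequality)
-/

namespace SFP

open Finset

noncomputable section

/-- The weight of `n` in the subtree of level `j` at the dilate `D`: one third of the contribution of `n ∈ S` to `Val`. -/
def Wt (T B E F M : ℕ) (a : ℕ → ℝ) : ℕ → ℕ → ℕ → ℝ
  | 0, D, n => ∑ d ∈ Icc 1 M, a d * ∑ y ∈ Icc 1 (cl T B E 0),
      if D * d * y = n then 2 * ((cl T B E 0 : ℝ) - y) / (cl T B E 0 : ℝ) ^ 2 * 3 else 0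
  | j + 1, D, n =>
      (∑ y ∈ Icc 1 (cl T B E (2 * (j + 1))), if D * y = n then 2 / (cl T B E (2 * (j + 1)) : ℝ) else 0) +
      (∑ y ∈ Icc 1 (cl T B E (2 * (j + 1) - 1)),
        if D * y = n then 1 / (cl T B E (2 * (j + 1) - 1) : ℝ) else 0) +
      (∑ r ∈ Icc 1 B, Wt T B E F M a j (D * (F * r)) n) / B

/-- Schur triples in a set of natural numbers. -/
def pr (S : Finset ℕ) : ℕ := ((S ×ˢ S).filter (fun p => p.1 + p.2 ∈ S)).card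

/-- The largest dilate. -/
def Dm (B F M J : ℕ) : ℕ := (F * B) ^ J * M

/-- The main inequality. -/
def MI : Prop := ∃ F J E CN lam₀ : ℕ, ∃ C : ℝ, 1 ≤ F ∧ 1 ≤ E ∧ 0 ≤ C ∧ ∀ lam : ℕ, lam₀ ≤ lam →
  ∃ a : ℕ → ℝ, (∀ d, 0 ≤ a d) ∧ ∑ d ∈ Icc 1 (2 ^ (8 * lam * CN)), a d = 1 ∧
    ∀ T : ℕ, 1 ≤ T → ∀ S : Finset ℕ,
      (∀ D, 1 ≤ D → D ≤ Dm (2 ^ (8 * lam)) F (2 ^ (8 * lam * CN)) J →
        RSF (sct S D (cl T (2 ^ (8 * lam)) E (2 * J))) T) →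
      Val S T (2 ^ (8 * lam)) E F (2 ^ (8 * lam * CN)) a J 1 ≤ C / 2 ^ lam

end

end SFP
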