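import Pool.Agent.SFP.TMain
import Pool.Agent.SFP.F6

/-!
# `f n ≤ n / 3 + n ^ (1 - c)`
-/

namespace SFP

open SFree

theorem power_saving : ∃ c : ℝ, 0 < c ∧ ∃ n₀ : ℕ, ∀ n : ℕ, n₀ ≤ n →
    (f n : ℝ) ≤ n / 3 + (n : ℝ) ^ (1 - c) :=
  final main_MI

end SFP
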