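import Pool.Agent.SFP.LDefs

/-!
# Module LBlk (2): triangular weight by blocks

`S' ⊆ [0, L)`, `1 ≤ t`, `K = ⌈L/t⌉` (natural number with `L ≤ t K`, `t (K - 1) < L`), `#(S' ∩ [kt, (k+1)t)) ≤ N k`, `N k ≥ 0`. Then
`∑_{y∈S'} 2 (L-y)/L² ≤ (1 + t/L) * (1/t) * ∑_{k<K} (2(K-k)/K²) N k`.
Proof. `y ∈ [kt, (k+1)t)`: `2(L-y)/L² ≤ 2(L - kt)/L²`; `(L - kt)/L = 1 - k t/L ≤ 1 - k/K` as `L ≤ tK`; and `1/L ≤ (1 + t/L)/(tK)` as `tK ≤ L + t`. Sum over `k` (every `y < L` has `y/t < K`).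
Also `∑_{k<K} 2(K-k)/K² = (K+1)/K` (second lemma).
-/

namespace SFP

open Finset

theorem LBlk_pt {L t K k y : ℕ} (hL : 1 ≤ L) (ht : 1 ≤ t) (hK1 : L ≤ t * K) (hK2 : t * K < L + t)
    (hK0 : 1 ≤ K) (hkK : k < K) (hyL : y < L) (hy : k * t ≤ y) :
    2 * ((L : ℝ) - y) / (L : ℝ) ^ 2 ≤
      (1 + (t : ℝ) / L) * (1 / (t : ℝ) * (2 * ((K : ℝ) - k) / (K : ℝ) ^ 2)) := by
  have hL' : (0 : ℝ) < L := by exact_mod_cast hL
  have ht' : (0 : ℝ) < t := by exact_mod_cast ht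
  have hK' : (0 : ℝ) < K := by exact_mod_cast hK0
  have h1 : (L : ℝ) ≤ t * K := by exact_mod_cast hK1
  have h2 : (t : ℝ) * K ≤ L + t := by exact_mod_cast hK2.le
  have h3 : (k : ℝ) * t ≤ y := by exact_mod_cast hy
  have h4 : (k : ℝ) ≤ K := by exact_mod_cast hkK.le
  have h5 : (y : ℝ) ≤ L := by exact_mod_cast hyL.le
  have hk0 : (0 : ℝ) ≤ k := by positivity
  have e1 : 2 * ((L : ℝ) - y) / (L : ℝ) ^ 2 = 2 * (((L : ℝ) - y) / L) * (1 / L) := by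
    field_simp
  have e2 : (1 + (t : ℝ) / L) * (1 / (t : ℝ) * (2 * ((K : ℝ) - k) / (K : ℝ) ^ 2)) =
      2 * (((K : ℝ) - k) / K) * ((1 + (t : ℝ) / L) / (t * K)) := by
    field_simp
  rw [e1, e2]
  have a1 : ((L : ℝ) - y) / L ≤ ((K : ℝ) - k) / K := by
    rw [div_le_div_iff₀ hL' hK']
    nlinarith [mul_le_mul_of_nonneg_left h1 hk0, mul_le_mul_of_nonneg_left h3 hK'.le]
  have a2 : 1 / (L : ℝ) ≤ (1 + (t : ℝ) / L) / (t * K) := by
    rw [div_le_div_iff₀ hL' (by positivity)]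
    have : (1 + (t : ℝ) / L) * L = L + t := by field_simp
    rw [this]
    linarith
  have a0 : 0 ≤ ((K : ℝ) - k) / K := div_nonneg (by linarith) hK'.le
  have b0 : 0 ≤ 1 / (L : ℝ) := by positivity
  exact mul_le_mul (by linarith) a2 b0 (by linarith)

theorem l_blk {L t K : ℕ} (hL : 1 ≤ L) (ht : 1 ≤ t) (hK1 : L ≤ t * K) (hK2 : t * K < L + t)
    (S' : Finset ℕ) (hS : ∀ y ∈ S', y < L) (N : ℕ → ℝ)
    (hN : ∀ k < K, ((S'.filter (fun y => y / t = k)).card : ℝ) ≤ N k) :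
    ∑ y ∈ S', 2 * ((L : ℝ) - y) / (L : ℝ) ^ 2 ≤
      (1 + (t : ℝ) / L) * (1 / (t : ℝ) * ∑ k ∈ range K, 2 * ((K : ℝ) - k) / (K : ℝ) ^ 2 * N k) := by
  have hK0 : 1 ≤ K := by
    rcases Nat.eq_zero_or_pos K with h | h
    · subst h
      omega
    · exact h
  have hmap : ∀ y ∈ S', y / t ∈ range K := by
    intro y hy
    rw [mem_range]
    apply (Nat.div_lt_iff_lt_mul ht).2
    have := hS y hy
    nlinarith
  rw [← sum_fiberwise_of_maps_to hmap]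
  rw [mul_sum, mul_sum]
  apply sum_le_sum
  intro k hk
  have hkK : k < K := mem_range.1 hk
  have hc : ∀ y ∈ S'.filter (fun y => y / t = k), 2 * ((L : ℝ) - y) / (L : ℝ) ^ 2 ≤
      (1 + (t : ℝ) / L) * (1 / (t : ℝ) * (2 * ((K : ℝ) - k) / (K : ℝ) ^ 2)) := by
    intro y hy
    rw [mem_filter] at hy
    refine LBlk_pt hL ht hK1 hK2 hK0 hkK (hS y hy.1) ?_
    rw [← hy.2]
    exact Nat.div_mul_le_self y t
  have h4 : (k : ℝ) ≤ K := by exact_mod_cast hkK.le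
  have hpos : 0 ≤ (1 + (t : ℝ) / L) * (1 / (t : ℝ) * (2 * ((K : ℝ) - k) / (K : ℝ) ^ 2)) := by
    have : 0 ≤ (K : ℝ) - k := by linarith
    positivity
  calc ∑ y ∈ S'.filter (fun y => y / t = k), 2 * ((L : ℝ) - y) / (L : ℝ) ^ 2
      ≤ ∑ y ∈ S'.filter (fun y => y / t = k),
          (1 + (t : ℝ) / L) * (1 / (t : ℝ) * (2 * ((K : ℝ) - k) / (K : ℝ) ^ 2)) := sum_le_sum hc
    _ = ((S'.filter (fun y => y / t = k)).card : ℝ) *
          ((1 + (t : ℝ) / L) * (1 / (t : ℝ) * (2 * ((K : ℝ) - k) / (K : ℝ) ^ 2))) := by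
        rw [sum_const, nsmul_eq_mul]
    _ ≤ N k * ((1 + (t : ℝ) / L) * (1 / (t : ℝ) * (2 * ((K : ℝ) - k) / (K : ℝ) ^ 2))) :=
        mul_le_mul_of_nonneg_right (hN k hkK) hpos
    _ = (1 + (t : ℝ) / L) * (1 / (t : ℝ) * (2 * ((K : ℝ) - k) / (K : ℝ) ^ 2 * N k)) := by ring

theorem l_blk_sum {K : ℕ} (hK : 1 ≤ K) :
    ∑ k ∈ range K, 2 * ((K : ℝ) - k) / (K : ℝ) ^ 2 = 1 + 1 / (K : ℝ) := by
  have hK' : (0 : ℝ) < K := by exact_mod_cast hK
  have h : ∀ n : ℕ, ∑ k ∈ range n, 2 * ((K : ℝ) - k) = 2 * K * n - n * (n - 1) := by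
    intro n
    induction n with
    | zero => simp
    | succ n ih =>
      rw [sum_range_succ, ih]
      push_cast
      ring
  rw [← sum_div, h K]
  field_simp
  ring

/-- The elements of a block in terms of residues: `w y` is the residue of `u y`; injective on a block. -/
theorem l_blk_res {t u : ℕ} (ht : 1 ≤ t) (hu : Nat.Coprime u t) (S' : Finset ℕ) (k : ℕ)
    (P : ℕ → Prop) [DecidablePred P] (hP : ∀ y ∈ S', y / t = k → P (u * y % t)) :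
    ((S'.filter (fun y => y / t = k)).card : ℝ) ≤ (((range t).filter P).card : ℝ) := by
  have : (S'.filter (fun y => y / t = k)).card ≤ ((range t).filter P).card := by
    apply card_le_card_of_injOn (fun y => u * y % t)
    · intro y hy
      have hy' := mem_filter.1 (mem_coe.1 hy)
      apply mem_coe.2
      rw [mem_filter, mem_range]
      exact ⟨Nat.mod_lt _ ht, hP y hy'.1 hy'.2⟩
    · intro y hy z hz hyz
      have hy' := mem_filter.1 (mem_coe.1 hy)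
      have hz' := mem_filter.1 (mem_coe.1 hz)
      have h1 : u * y ≡ u * z [MOD t] := hyz
      have h2 : y ≡ z [MOD t] := Nat.ModEq.cancel_left_of_coprime (by rwa [Nat.coprime_iff_gcd_eq_one.symm, Nat.coprime_comm] ) h1
      have h3 : y % t = z % t := h2
      rw [← Nat.div_add_mod y t, ← Nat.div_add_mod z t, hy'.2, hz'.2, h3]
  exact_mod_cast this

end SFP
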