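import Pool.Agent.SFP.LCnt
import Pool.Agent.SFP.LBlk

/-!
# Module LBig (2): the last level, large denominators

`K = ⌈L/t⌉`, `k = y/t`, `v = u y mod t` (take `u` mod `t`; `u` integer coprime to `t`): `(u/t + θ) y = v/t + θ k t + θ (y - kt) + integer`, `|θ (y - kt)| ≤ t|θ| ≤ ε`. So for `y ∈ S'` in block `k`: `‖(v + t θ k t)/t‖ ≥ 1/3 - (Y + ε)` (`nd_lip`),
`#(S' ∩ block) ≤ Nv t (tθkt) (Y+ε) ≤ t/3 + 2t(Y+ε) + 1` (`l_blk_res`, `l_c1`, `Y + ε ≤ 1/6`). `l_blk`: `3 ∑ w - 1 ≤ 3 (1+ε)(1 + 1/K)(1/3 + 2(Y+ε) + 1/t) - 1 ≤ 7Y + 4/t + 10ε` or so (`1/K ≤ t/L ≤ ε`).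
-/

namespace SFP

open Finset

theorem l_big {L t : ℕ} {u : ℤ} {ε Y θ : ℝ} (S' : Finset ℕ) (hS : ∀ y ∈ S', 1 ≤ y ∧ y < L)
    (hL : 1 ≤ L) (ht : 1 ≤ t) (hu : Int.gcd u t = 1) (hε : 0 < ε) (hε1 : ε ≤ 1 / 1000)
    (h1 : (t : ℝ) ≤ ε * L) (h2 : (t : ℝ) * |θ| ≤ ε)
    (hY0 : 0 ≤ Y) (hY1 : Y ≤ 1 / 12) (hnd : ∀ y ∈ S', 1 / 3 - Y ≤ nd (((u : ℝ) / t + θ) * y)) :
    3 * (∑ y ∈ S', 2 * ((L : ℝ) - y) / (L : ℝ) ^ 2) - 1 ≤ 7 * Y + 4 / t + 20 * ε := by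
  classical
  have htR : (0 : ℝ) < t := by exact_mod_cast ht
  have hLR : (0 : ℝ) < L := by exact_mod_cast hL
  -- the number of blocks
  obtain ⟨K, hK1, hK2⟩ : ∃ K : ℕ, L ≤ t * K ∧ t * K < L + t := by
    refine ⟨(L + t - 1) / t, ?_, ?_⟩
    · have h := Nat.lt_mul_div_succ (L + t - 1) (show 0 < t by omega)
      rw [Nat.mul_add, Nat.mul_one] at h
      omega
    · have h := Nat.mul_div_le (L + t - 1) t
      omega
  have hK : 1 ≤ K := by
    rcases Nat.eq_zero_or_pos K with h | h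
    · subst h; omega
    · exact h
  have hKR : (0 : ℝ) < K := by exact_mod_cast hK
  -- reduction of u
  have hu0 : 0 ≤ u % (t : ℤ) := Int.emod_nonneg u (by exact_mod_cast (show t ≠ 0 by omega))
  obtain ⟨u', hu'⟩ : ∃ u' : ℕ, (u' : ℤ) = u % (t : ℤ) := ⟨(u % (t : ℤ)).toNat, Int.toNat_of_nonneg hu0⟩
  obtain ⟨m, hm⟩ : ∃ m : ℤ, u = u' + t * m := ⟨u / t, by rw [hu', Int.emod_add_mul_ediv]⟩
  have hcop : Nat.Coprime u' t := by
    rw [hm, Int.gcd_add_mul_left_left, Int.gcd_natCast_natCast] at hu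
    exact hu
  set N : ℝ := t / 3 + 2 * t * (Y + ε) + 1 with hN
  have key : ∀ k < K, ((S'.filter (fun y => y / t = k)).card : ℝ) ≤ N := by
    intro k _
    have hP : ∀ y ∈ S', y / t = k →
        1 / 3 - (Y + ε) ≤ nd ((((u' * y % t : ℕ) : ℝ) + (t : ℝ) * (θ * (k * t))) / t) := by
      intro y hy hyk
      have h3 := hnd y hy
      have hdm : (u' * y : ℕ) = u' * y % t + t * (u' * y / t) := (Nat.mod_add_div _ _).symm
      have hdmR : (u' : ℝ) * y = ((u' * y % t : ℕ) : ℝ) + t * ((u' * y / t : ℕ) : ℝ) := by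
        exact_mod_cast hdm
      have e0 : ∀ (v n : ℕ), (u' : ℝ) * y = (v : ℝ) + t * (n : ℝ) →
          ((u : ℝ) / t + θ) * y = ((v : ℝ) / t + θ * y) + ((n : ℤ) + m * (y : ℤ) : ℤ) := by
        intro v n hvn
        rw [hm]
        push_cast
        field_simp
        linear_combination hvn
      have e1 := e0 _ _ hdmR
      rw [e1, nd_add_int] at h3
      have h6 := nd_lip (((u' * y % t : ℕ) : ℝ) / t + θ * y)
        ((((u' * y % t : ℕ) : ℝ) + (t : ℝ) * (θ * (k * t))) / t)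
      have e2 : ((u' * y % t : ℕ) : ℝ) / t + θ * y -
          (((u' * y % t : ℕ) : ℝ) + (t : ℝ) * (θ * (k * t))) / t = θ * (y - k * t) := by
        field_simp
        ring
      rw [e2, abs_mul] at h6
      have h7 : |(y : ℝ) - k * t| ≤ t := by
        have hy1 := Nat.div_add_mod y t
        have hy2 := Nat.mod_lt y (show 0 < t by omega)
        rw [hyk] at hy1
        have hy3 : (y : ℝ) = t * k + ((y % t : ℕ) : ℝ) := by exact_mod_cast hy1.symm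
        have hy4 : ((y % t : ℕ) : ℝ) ≤ t := by exact_mod_cast hy2.le
        have hy5 : (0 : ℝ) ≤ ((y % t : ℕ) : ℝ) := Nat.cast_nonneg _
        rw [abs_le]
        constructor <;> linarith
      have h8 : |θ| * |(y : ℝ) - k * t| ≤ ε := by
        calc |θ| * |(y : ℝ) - k * t| ≤ |θ| * t := mul_le_mul_of_nonneg_left h7 (abs_nonneg _)
          _ = t * |θ| := mul_comm _ _
          _ ≤ ε := h2
      linarith
    refine (l_blk_res ht hcop S' k
      (fun v : ℕ => 1 / 3 - (Y + ε) ≤ nd (((v : ℝ) + (t : ℝ) * (θ * (k * t))) / t)) hP).trans ?_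
    have h9 := l_c1 ht ((t : ℝ) * (θ * (k * t))) (Y := Y + ε) (by linarith) (by linarith)
    rw [hN]
    unfold Nv at h9
    exact h9
  have hblk := l_blk hL ht hK1 hK2 S' (fun y hy => (hS y hy).2) (fun _ => N) key
  rw [← Finset.sum_mul, l_blk_sum hK] at hblk
  have hr1 : (t : ℝ) / L ≤ ε := by rw [div_le_iff₀ hLR]; exact h1
  have hr0 : (0 : ℝ) ≤ (t : ℝ) / L := by positivity
  have hr2 : 1 / (K : ℝ) ≤ t / L := by
    rw [div_le_div_iff₀ hKR hLR]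
    have : (L : ℝ) ≤ t * K := by exact_mod_cast hK1
    linarith
  have hN2 : 1 / (t : ℝ) * ((1 + 1 / (K : ℝ)) * N) = (1 + 1 / (K : ℝ)) * (1 / 3 + 2 * (Y + ε) + 1 / t) := by
    rw [hN]
    field_simp
  rw [hN2] at hblk
  have ht1 : 1 / (t : ℝ) ≤ 1 := by
    rw [div_le_one htR]
    exact_mod_cast ht
  have ht0 : 0 < 1 / (t : ℝ) := by positivity
  set T : ℝ := 1 / (t : ℝ) with hT
  set Q : ℝ := 1 / 3 + 2 * (Y + ε) + T with hQ
  have hQ0 : 0 ≤ Q := by rw [hQ]; linarith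
  have hQ1 : Q ≤ 3 / 2 + 1 / 100 := by rw [hQ]; linarith
  have hK0 : 0 < 1 / (K : ℝ) := by positivity
  have hb2 : (1 + (t : ℝ) / L) * ((1 + 1 / (K : ℝ)) * Q) ≤ (1 + ε) * ((1 + ε) * Q) := by
    apply mul_le_mul (by linarith) _ (by positivity) (by linarith)
    exact mul_le_mul_of_nonneg_right (by linarith) hQ0
  have h4t : 4 / (t : ℝ) = 4 * T := by rw [hT]; ring
  rw [h4t]
  have hb3 : (1 + ε) * ((1 + ε) * Q) = Q + (2 * ε + ε * ε) * Q := by ring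
  have hb4 : (2 * ε + ε * ε) * Q ≤ (2 * ε + ε * ε) * (3 / 2 + 1 / 100) :=
    mul_le_mul_of_nonneg_left hQ1 (by positivity)
  have hb5 : ε * ε ≤ 1 / 1000 * ε := mul_le_mul_of_nonneg_right hε1 hε.le
  rw [hQ] at hb3
  nlinarith [hblk, hb2, hb3, hb4, hb5]

end SFP
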