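import Pool.Agent.SFP.LDefs

/-!
# Module LCnt (3): the number of residues in the middle third

`t ≥ 1`, `x` real, `0 ≤ Y`, `Y ≤ 1/6`. Residues `v ∈ [0, t)` with `‖(v+x)/t‖ ≥ 1/3 - Y` correspond bijectively (mod `t`) to the integers `v` with
`t/3 - tY ≤ v + x ≤ 2t/3 + tY` (an interval of length `t/3 + 2tY < t`... at most `2t/3`): `‖z/t‖ ≥ 1/3 - Y` iff `fract (z/t) ∈ [1/3 - Y, 2/3 + Y]`.
(c1) an interval of length `l` contains at most `l + 1` integers.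
(c2) `3 ∤ t`, `0 ≤ x`, `x + t Y < 1/3`: `t = 3k+1`: `v ≥ k + 1/3 - tY - x > k`, `v ≤ 2k + 2/3 + tY - x < 2k + 1`: `k` values, `(t - chi t)/3 = k`. `t = 3k + 2`: `v ≥ k + 2/3 - .. > k`, `v ≤ 2k + 4/3 + tY - x < 2k + 2`:
  `k + 1 = (t+1)/3` values.
(c2') `t = 3k`, `0 ≤ x`, `x + t Y < 1/3`: `v ≥ k - tY - x > k - 1` and `v ≤ 2k + tY - x < 2k + 1`, so `v ∈ [k, 2k]`.
(c3) any `x`, `t Y < 1/3`. `N_Y(x) = N_0(x) + #{v : t/3 - tY ≤ v + x < t/3} + #{v : 2t/3 < v + x ≤ 2t/3 + tY}`, the last two are at most 1 and are counted by `i1`, `i2` (closed versions).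
  `N_0(x)`: number of integers in `[t/3 - x, 2t/3 - x]`, `s = fract x` (shift `v`): `t = 3k+1`: `k` if `s < 1/3` or `s > 2/3`, `k + 1` if `1/3 ≤ s ≤ 2/3`: `= (t - eR x)/3`. `t = 3k+2`: `k+1` if `s ≤ 1/3` or `s ≥ 2/3`, `k` if `1/3 < s < 2/3`:
  `≤ (t + eR x)/3` except at `s = 1/3` (`≡ 2t/3`, so `i2 = 1`) and `s = 2/3` (`≡ t/3`, `i1 = 1`), where it is one more — but there `#{..}` of the half open set is still 0 or 1 from another `v`: at such a point at most... if `i1 = 1` because of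
  the endpoint `v + x = t/3`, then no `v` has `t/3 - tY ≤ v + x < t/3` (`tY < 1`), so the total is still `≤ (t - chi eR)/3 + i1 + i2`. `t = 3k`: `k` if `s ≠ 0`, `k+1` if `s = 0` (then `i1 = i2 = 1`).
-/

namespace SFP

open Finset

theorem LCnt_card (α l : ℝ) (hl : 0 ≤ l) : ((Icc ⌈α⌉ ⌊α + l⌋).card : ℝ) ≤ l + 1 := by
  rw [Int.card_Icc]
  rcases le_or_gt 0 (⌊α + l⌋ + 1 - ⌈α⌉) with h | h
  · have h1 : ((⌊α + l⌋ + 1 - ⌈α⌉).toNat : ℝ) = ((⌊α + l⌋ + 1 - ⌈α⌉ : ℤ) : ℝ) := by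
      exact_mod_cast congrArg (Int.cast : ℤ → ℝ) (Int.toNat_of_nonneg h)
    rw [h1]
    push_cast
    have h2 := Int.floor_le (α + l)
    have h3 := Int.le_ceil α
    linarith
  · rw [Int.toNat_of_nonpos h.le]
    push_cast
    linarith

theorem LCnt_int (s : Finset ℤ) (α l : ℝ) (hl : 0 ≤ l) (h : ∀ v ∈ s, α ≤ v ∧ (v : ℝ) ≤ α + l) :
    (s.card : ℝ) ≤ l + 1 := by
  have h1 : s ⊆ Icc ⌈α⌉ ⌊α + l⌋ := by
    intro v hv
    rw [mem_Icc]
    exact ⟨Int.ceil_le.2 (h v hv).1, Int.le_floor.2 (h v hv).2⟩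
  have h2 : (s.card : ℝ) ≤ ((Icc ⌈α⌉ ⌊α + l⌋).card : ℝ) := by exact_mod_cast card_le_card h1
  exact h2.trans (LCnt_card α l hl)

/-- The condition in terms of the fractional part. -/
theorem LCnt_nd {z Y : ℝ} (h : 1 / 3 - Y ≤ nd z) : 1 / 3 - Y ≤ Int.fract z ∧ Int.fract z ≤ 2 / 3 + Y := by
  unfold nd at h
  rw [abs_sub_round_eq_min] at h
  have h1 := h.trans (min_le_left _ _)
  have h2 := h.trans (min_le_right _ _)
  constructor <;> linarith

theorem LCnt_main {t : ℕ} (ht : 1 ≤ t) (x : ℝ) {Y : ℝ} (hY0 : 0 ≤ Y) :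
    (Nv t x Y : ℝ) ≤ (⌊2 * (t : ℝ) / 3 + t * Y - x⌋ : ℝ) + 1 - (⌈(t : ℝ) / 3 - t * Y - x⌉ : ℝ) := by
  have ht0 : (0 : ℝ) < t := by exact_mod_cast ht
  have ht1 : (1 : ℝ) ≤ t := by exact_mod_cast ht
  have h1 : Nv t x Y ≤ (Icc ⌈(t : ℝ) / 3 - t * Y - x⌉ ⌊2 * (t : ℝ) / 3 + t * Y - x⌋).card := by
    unfold Nv
    refine card_le_card_of_injOn (fun v : ℕ => (v : ℤ) - t * ⌊((v : ℝ) + x) / t⌋) ?_ ?_
    · intro v hv
      rw [mem_coe, mem_filter] at hv
      obtain ⟨h3, h4⟩ := LCnt_nd hv.2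
      have h5 : ((v : ℝ) + x) / t = Int.fract (((v : ℝ) + x) / t) + ⌊((v : ℝ) + x) / t⌋ :=
        (Int.fract_add_floor _).symm
      have h6 : (v : ℝ) + x = t * Int.fract (((v : ℝ) + x) / t) + t * ⌊((v : ℝ) + x) / t⌋ := by
        rw [← mul_add, ← h5]
        field_simp
      have h7 : (t : ℝ) * (1 / 3 - Y) ≤ t * Int.fract (((v : ℝ) + x) / t) :=
        mul_le_mul_of_nonneg_left h3 ht0.le
      have h8 : (t : ℝ) * Int.fract (((v : ℝ) + x) / t) ≤ t * (2 / 3 + Y) :=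
        mul_le_mul_of_nonneg_left h4 ht0.le
      rw [mem_coe, mem_Icc]
      constructor
      · refine Int.ceil_le.2 ?_
        push_cast
        linarith
      · refine Int.le_floor.2 ?_
        push_cast
        linarith
    · intro v hv v' hv' h
      rw [mem_coe, mem_filter, mem_range] at hv hv'
      simp only at h
      have h9 : (v : ℤ) % t = (v' : ℤ) % t := by
        have := congrArg (fun z : ℤ => z % t) h
        simpa [Int.sub_mul_emod_self_left] using this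
      have h10 : v % t = v' % t := by exact_mod_cast h9
      rwa [Nat.mod_eq_of_lt hv.1, Nat.mod_eq_of_lt hv'.1] at h10
  have h11 : (Nv t x Y : ℝ) ≤ ((Icc ⌈(t : ℝ) / 3 - t * Y - x⌉ ⌊2 * (t : ℝ) / 3 + t * Y - x⌋).card : ℝ) := by
    exact_mod_cast h1
  refine h11.trans ?_
  rw [Int.card_Icc]
  have h12 := Int.lt_floor_add_one (2 * (t : ℝ) / 3 + t * Y - x)
  have h13 := Int.ceil_lt_add_one ((t : ℝ) / 3 - t * Y - x)
  have h14 : 0 ≤ (t : ℝ) * Y := mul_nonneg ht0.le hY0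
  generalize ⌊2 * (t : ℝ) / 3 + t * Y - x⌋ = B at h12
  generalize ⌈(t : ℝ) / 3 - t * Y - x⌉ = A at h13
  have h15 : (-1 : ℝ) < ((B + 1 - A : ℤ) : ℝ) := by
    push_cast
    linarith
  have h16 : (-1 : ℤ) < B + 1 - A := by exact_mod_cast h15
  have h17 : ((B + 1 - A).toNat : ℝ) = ((B + 1 - A : ℤ) : ℝ) := by
    exact_mod_cast congrArg (Int.cast : ℤ → ℝ) (Int.toNat_of_nonneg (by omega : 0 ≤ B + 1 - A))
  rw [h17]
  push_cast
  exact le_refl _

theorem LCnt_fin {A B : ℤ} {r : ℝ} (L U : ℤ) (hA : ((L : ℤ) : ℝ) - 1 < A) (hB : (B : ℝ) < ((U : ℤ) : ℝ) + 1)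
    (h : ((U : ℤ) : ℝ) + 1 - ((L : ℤ) : ℝ) ≤ r) : (B : ℝ) + 1 - A ≤ r := by
  have h1 : L - 1 < A := by exact_mod_cast hA
  have h2 : B < U + 1 := by exact_mod_cast hB
  have h3 : (L : ℝ) ≤ A := by exact_mod_cast (by omega : L ≤ A)
  have h4 : (B : ℝ) ≤ U := by exact_mod_cast (by omega : B ≤ U)
  linarith

theorem l_c1 {t : ℕ} (ht : 1 ≤ t) (x : ℝ) {Y : ℝ} (hY0 : 0 ≤ Y) (hY1 : Y ≤ 1 / 6) :
    (Nv t x Y : ℝ) ≤ t / 3 + 2 * t * Y + 1 := by
  have h1 := LCnt_main ht x hY0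
  have h2 := Int.floor_le (2 * (t : ℝ) / 3 + t * Y - x)
  have h3 := Int.le_ceil ((t : ℝ) / 3 - t * Y - x)
  linarith

theorem l_c2 {t : ℕ} (ht : 1 ≤ t) (h3 : ¬ 3 ∣ t) {x Y : ℝ} (hx : 0 ≤ x) (hY0 : 0 ≤ Y) (hY1 : Y ≤ 1 / 6)
    (hxY : x + t * Y < 1 / 3) : (Nv t x Y : ℝ) ≤ (t - chi t) / 3 := by
  have h1 := LCnt_main ht x hY0
  have h2 := Int.floor_le (2 * (t : ℝ) / 3 + t * Y - x)
  have h4 := Int.le_ceil ((t : ℝ) / 3 - t * Y - x)
  have h5 : 0 ≤ (t : ℝ) * Y := mul_nonneg (Nat.cast_nonneg t) hY0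
  refine h1.trans ?_
  generalize ⌊2 * (t : ℝ) / 3 + t * Y - x⌋ = B at h2
  generalize ⌈(t : ℝ) / 3 - t * Y - x⌉ = A at h4
  have h6 : t % 3 = 1 ∨ t % 3 = 2 := by omega
  obtain ⟨k, hk⟩ : ∃ k : ℤ, k = ((t / 3 : ℕ) : ℤ) := ⟨_, rfl⟩
  rcases h6 with h6 | h6
  · have h7 : (t : ℤ) = 3 * k + 1 := by omega
    have h8 : (t : ℝ) = 3 * k + 1 := by exact_mod_cast h7
    have h9 : chi t = 1 := by simp [chi, h6]
    rw [h9]
    exact LCnt_fin (k + 1) (2 * k) (by push_cast; linarith) (by push_cast; linarith) (by push_cast; linarith)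
  · have h7 : (t : ℤ) = 3 * k + 2 := by omega
    have h8 : (t : ℝ) = 3 * k + 2 := by exact_mod_cast h7
    have h9 : chi t = -1 := by simp [chi, h6]
    rw [h9]
    exact LCnt_fin (k + 1) (2 * k + 1) (by push_cast; linarith) (by push_cast; linarith) (by push_cast; linarith)

theorem l_c2' {k : ℕ} (hk : 1 ≤ k) {x Y : ℝ} (hx : 0 ≤ x) (hY0 : 0 ≤ Y) (hY1 : Y ≤ 1 / 6)
    (hxY : x + (3 * k : ℕ) * Y < 1 / 3) {v : ℕ} (hv : v < 3 * k)
    (h : 1 / 3 - Y ≤ nd (((v : ℝ) + x) / (3 * k : ℕ))) : k ≤ v ∧ v ≤ 2 * k := by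
  have hk0 : (0 : ℝ) < ((3 * k : ℕ) : ℝ) := by
    have : 0 < 3 * k := by omega
    exact_mod_cast this
  have h0 : 0 ≤ ((3 * k : ℕ) : ℝ) * Y := mul_nonneg hk0.le hY0
  have h1 : (v : ℝ) + 1 ≤ ((3 * k : ℕ) : ℝ) := by exact_mod_cast hv
  have h2 : Int.fract (((v : ℝ) + x) / (3 * k : ℕ)) = ((v : ℝ) + x) / (3 * k : ℕ) := by
    rw [Int.fract_eq_self]
    constructor
    · positivity
    · rw [div_lt_one hk0]
      linarith
  obtain ⟨h3, h4⟩ := LCnt_nd h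
  rw [h2] at h3 h4
  rw [le_div_iff₀ hk0] at h3
  rw [div_le_iff₀ hk0] at h4
  have h5 : ((3 * k : ℕ) : ℝ) = 3 * k := by push_cast; ring
  constructor
  · have h6 : (k : ℝ) < v + 1 := by linarith
    have h7 : k < v + 1 := by exact_mod_cast h6
    omega
  · have h6 : (v : ℝ) < 2 * k + 1 := by linarith
    have h7 : v < 2 * k + 1 := by exact_mod_cast h6
    omega

open Classical in
theorem l_c3 {t : ℕ} (ht : 1 ≤ t) (x : ℝ) {Y : ℝ} (hY0 : 0 ≤ Y) (hY1 : Y ≤ 1 / 6)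
    (hY : t * Y < 1 / 3) :
    (Nv t x Y : ℝ) ≤ (t - chi t * eR x) / 3 +
      (if ∃ v : ℤ, (t : ℝ) / 3 - t * Y ≤ v + x ∧ v + x ≤ t / 3 then 1 else 0) +
      (if ∃ v : ℤ, 2 * (t : ℝ) / 3 ≤ v + x ∧ v + x ≤ 2 * t / 3 + t * Y then 1 else 0) := by
  have h1 := LCnt_main ht x hY0
  have h5 : 0 ≤ (t : ℝ) * Y := mul_nonneg (Nat.cast_nonneg t) hY0
  refine h1.trans ?_
  have hB1 := Int.floor_le (2 * (t : ℝ) / 3 + t * Y - x)
  have hA1 := Int.le_ceil ((t : ℝ) / 3 - t * Y - x)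
  have hA2 : ¬ (∃ v : ℤ, (t : ℝ) / 3 - t * Y ≤ v + x ∧ v + x ≤ t / 3) →
      (t : ℝ) / 3 - x < ⌈(t : ℝ) / 3 - t * Y - x⌉ := by
    intro h
    by_contra hcon
    push Not at hcon
    exact h ⟨⌈(t : ℝ) / 3 - t * Y - x⌉, by linarith, by linarith⟩
  have hB2 : ¬ (∃ v : ℤ, 2 * (t : ℝ) / 3 ≤ v + x ∧ v + x ≤ 2 * t / 3 + t * Y) →
      (⌊2 * (t : ℝ) / 3 + t * Y - x⌋ : ℝ) < 2 * (t : ℝ) / 3 - x := by
    intro h
    by_contra hcon
    push Not at hcon
    exact h ⟨⌊2 * (t : ℝ) / 3 + t * Y - x⌋, by linarith, by linarith⟩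
  generalize ⌊2 * (t : ℝ) / 3 + t * Y - x⌋ = B at hB1 hB2
  generalize ⌈(t : ℝ) / 3 - t * Y - x⌉ = A at hA1 hA2
  -- shift by the integer part of x
  have hs1 := Int.fract_add_floor x
  have hs2 := Int.fract_nonneg x
  have hs3 := Int.fract_lt_one x
  have hgoal : ∀ r : ℝ, (((B + ⌊x⌋ : ℤ) : ℝ) + 1 - ((A + ⌊x⌋ : ℤ) : ℝ) ≤ r) → (B : ℝ) + 1 - A ≤ r := by
    intro r hr
    push_cast at hr
    linarith
  apply hgoal
  have hA3 : (t : ℝ) / 3 - t * Y - Int.fract x ≤ ((A + ⌊x⌋ : ℤ) : ℝ) := by push_cast; linarith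
  have hB3 : ((B + ⌊x⌋ : ℤ) : ℝ) ≤ 2 * (t : ℝ) / 3 + t * Y - Int.fract x := by push_cast; linarith
  have hA4 : ¬ (∃ v : ℤ, (t : ℝ) / 3 - t * Y ≤ v + x ∧ v + x ≤ t / 3) →
      (t : ℝ) / 3 - Int.fract x < ((A + ⌊x⌋ : ℤ) : ℝ) := by
    intro h
    have := hA2 h
    push_cast
    linarith
  have hB4 : ¬ (∃ v : ℤ, 2 * (t : ℝ) / 3 ≤ v + x ∧ v + x ≤ 2 * t / 3 + t * Y) →
      ((B + ⌊x⌋ : ℤ) : ℝ) < 2 * (t : ℝ) / 3 - Int.fract x := by
    intro h
    have := hB2 h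
    push_cast
    linarith
  generalize B + ⌊x⌋ = B' at hB3 hB4
  generalize A + ⌊x⌋ = A' at hA3 hA4
  have he : (eR x = 1 ∧ Int.fract x < 1 / 3) ∨ (eR x = -2 ∧ 1 / 3 ≤ Int.fract x ∧ Int.fract x ≤ 2 / 3) ∨
      (eR x = 1 ∧ 2 / 3 < Int.fract x) := by
    unfold eR
    by_cases hc : 1 / 3 ≤ Int.fract x ∧ Int.fract x ≤ 2 / 3
    · rw [if_pos hc]
      exact Or.inr (Or.inl ⟨rfl, hc⟩)
    · rw [if_neg hc]
      rcases lt_or_ge (Int.fract x) (1 / 3) with h | h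
      · exact Or.inl ⟨rfl, h⟩
      · refine Or.inr (Or.inr ⟨rfl, ?_⟩)
        by_contra h'
        exact hc ⟨h, not_lt.1 h'⟩
  obtain ⟨k, hk⟩ : ∃ k : ℤ, k = ((t / 3 : ℕ) : ℤ) := ⟨_, rfl⟩
  have ht3 : ((t : ℝ) = 3 * k ∧ chi t = 0) ∨ ((t : ℝ) = 3 * k + 1 ∧ chi t = 1) ∨
      ((t : ℝ) = 3 * k + 2 ∧ chi t = -1) := by
    have h6 : t % 3 = 0 ∨ t % 3 = 1 ∨ t % 3 = 2 := by omega
    rcases h6 with h6 | h6 | h6
    · refine Or.inl ⟨?_, by simp [chi, h6]⟩
      exact_mod_cast (by omega : (t : ℤ) = 3 * k)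
    · refine Or.inr (Or.inl ⟨?_, by simp [chi, h6]⟩)
      exact_mod_cast (by omega : (t : ℤ) = 3 * k + 1)
    · refine Or.inr (Or.inr ⟨?_, by simp [chi, h6]⟩)
      exact_mod_cast (by omega : (t : ℤ) = 3 * k + 2)
  generalize Int.fract x = s at hs1 hs2 hs3 hA3 hB3 hA4 hB4 he
  generalize (t : ℝ) * Y = δ at hY h5 hA3 hB3 hA4 hB4 ⊢
  generalize eR x = e at he
  generalize chi t = c at ht3
  generalize (t : ℝ) = τ at ht3 hA3 hB3 hA4 hB4 ⊢
  by_cases hi1 : ∃ v : ℤ, τ / 3 - δ ≤ v + x ∧ v + x ≤ τ / 3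
  · rw [if_pos hi1]
    clear hA4
    by_cases hi2 : ∃ v : ℤ, 2 * τ / 3 ≤ v + x ∧ v + x ≤ 2 * τ / 3 + δ
    · rw [if_pos hi2]
      clear hB4
      rcases he with ⟨he, hs⟩ | ⟨he, hs, hs'⟩ | ⟨he, hs⟩ <;> rcases ht3 with ⟨hτ, hc⟩ | ⟨hτ, hc⟩ | ⟨hτ, hc⟩ <;>
        rw [he, hc] <;> first | exact LCnt_fin (k - 1) (2 * k - 1) (by push_cast; linarith) (by push_cast; linarith) (by push_cast; linarith) | exact LCnt_fin (k - 1) (2 * k) (by push_cast; linarith) (by push_cast; linarith) (by push_cast; linarith) | exact LCnt_fin (k - 1) (2 * k + 1) (by push_cast; linarith) (by push_cast; linarith) (by push_cast; linarith) | exact LCnt_fin (k) (2 * k - 1) (by push_cast; linarith) (by push_cast; linarith) (by push_cast; linarith) | exact LCnt_fin (k) (2 * k) (by push_cast; linarith) (by push_cast; linarith) (by push_cast; linarith) | exact LCnt_fin (k) (2 * k + 1) (by push_cast; linarith) (by push_cast; linarith)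 (by push_cast; linarith) | exact LCnt_fin (k + 1) (2 * k - 1) (by push_cast; linarith) (by push_cast; linarith) (by push_cast; linarith) | exact LCnt_fin (k + 1) (2 * k) (by push_cast; linarith) (by push_cast; linarith) (by push_cast; linarith) | exact LCnt_fin (k + 1) (2 * k + 1) (by push_cast; linarith) (by push_cast; linarith) (by push_cast; linarith)
    · rw [if_neg hi2]
      have hB5 := hB4 hi2
      clear hB4
      rcases he with ⟨he, hs⟩ | ⟨he, hs, hs'⟩ | ⟨he, hs⟩ <;> rcases ht3 with ⟨hτ, hc⟩ | ⟨hτ, hc⟩ | ⟨hτ, hc⟩ <;>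
        rw [he, hc] <;> first | exact LCnt_fin (k - 1) (2 * k - 1) (by push_cast; linarith) (by push_cast; linarith) (by push_cast; linarith) | exact LCnt_fin (k - 1) (2 * k) (by push_cast; linarith) (by push_cast; linarith) (by push_cast; linarith) | exact LCnt_fin (k - 1) (2 * k + 1) (by push_cast; linarith) (by push_cast; linarith) (by push_cast; linarith) | exact LCnt_fin (k) (2 * k - 1) (by push_cast; linarith) (by push_cast; linarith) (by push_cast; linarith) | exact LCnt_fin (k) (2 * k) (by push_cast; linarith) (by push_cast; linarith) (by push_cast; linarith) | exact LCnt_fin (k) (2 * k + 1) (by push_cast; linarith) (by push_cast; linarith) (by push_cast; linarith) | exact LCnt_fin (k + 1) (2 * k - 1) (by push_cast; linarith) (by push_cast; linarith) (by push_cast; linarith) | exact LCnt_fin (k + 1) (2 * k) (by push_cast; linarith) (by push_cast; linarith) (by push_cast; linarith) | exact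 LCnt_fin (k + 1) (2 * k + 1) (by push_cast; linarith) (by push_cast; linarith) (by push_cast; linarith)
  · rw [if_neg hi1]
    have hA5 := hA4 hi1
    clear hA4
    by_cases hi2 : ∃ v : ℤ, 2 * τ / 3 ≤ v + x ∧ v + x ≤ 2 * τ / 3 + δ
    · rw [if_pos hi2]
      clear hB4
      rcases he with ⟨he, hs⟩ | ⟨he, hs, hs'⟩ | ⟨he, hs⟩ <;> rcases ht3 with ⟨hτ, hc⟩ | ⟨hτ, hc⟩ | ⟨hτ, hc⟩ <;>
        rw [he, hc] <;> first | exact LCnt_fin (k - 1) (2 * k - 1) (by push_cast; linarith) (by push_cast; linarith) (by push_cast; linarith) | exact LCnt_fin (k - 1) (2 * k) (by push_cast; linarith) (by push_cast; linarith) (by push_cast; linarith) | exact LCnt_fin (k - 1) (2 * k + 1) (by push_cast; linarith) (by push_cast; linarith) (by push_cast; linarith) | exact LCnt_fin (k) (2 * k - 1) (by push_cast; linarith) (by push_cast; linarith) (by push_cast; linarith) | exact LCnt_fin (k) (2 * k) (by push_cast; linarith) (by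 push_cast; linarith) (by push_cast; linarith) | exact LCnt_fin (k) (2 * k + 1) (by push_cast; linarith) (by push_cast; linarith) (by push_cast; linarith) | exact LCnt_fin (k + 1) (2 * k - 1) (by push_cast; linarith) (by push_cast; linarith) (by push_cast; linarith) | exact LCnt_fin (k + 1) (2 * k) (by push_cast; linarith) (by push_cast; linarith) (by push_cast; linarith) | exact LCnt_fin (k + 1) (2 * k + 1) (by push_cast; linarith) (by push_cast; linarith) (by push_cast; linarith)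
    · rw [if_neg hi2]
      have hB5 := hB4 hi2
      clear hB4
      rcases he with ⟨he, hs⟩ | ⟨he, hs, hs'⟩ | ⟨he, hs⟩ <;> rcases ht3 with ⟨hτ, hc⟩ | ⟨hτ, hc⟩ | ⟨hτ, hc⟩ <;>
        rw [he, hc] <;> first | exact LCnt_fin (k - 1) (2 * k - 1) (by push_cast; linarith) (by push_cast; linarith) (by push_cast; linarith) | exact LCnt_fin (k - 1) (2 * k) (by push_cast; linarith) (by push_cast; linarith) (by push_cast; linarith) | exact LCnt_fin (k - 1) (2 * k + 1) (by push_cast; linarith) (by push_cast; linarith) (by push_cast; linarith) | exact LCnt_fin (k) (2 * k - 1) (by push_cast; linarith) (by push_cast; linarith) (by push_cast; linarith) | exact LCnt_fin (k) (2 * k) (by push_cast; linarith) (by push_cast; linarith) (by push_cast; linarith) | exact LCnt_fin (k) (2 * k + 1) (by push_cast; linarith) (by push_cast; linarith) (by push_cast; linarith) | exact LCnt_fin (k + 1) (2 * k - 1) (by push_cast;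 linarith) (by push_cast; linarith) (by push_cast; linarith) | exact LCnt_fin (k + 1) (2 * k) (by push_cast; linarith) (by push_cast; linarith) (by push_cast; linarith) | exact LCnt_fin (k + 1) (2 * k + 1) (by push_cast; linarith) (by push_cast; linarith) (by push_cast; linarith)

/-- The number of `k < K` with `κ k` in `[c, c + w]` mod 1. -/
theorem l_cnt_int {κ w c : ℝ} (hκ : 0 < κ) (hw : 0 ≤ w) {K : ℕ} (P : ℕ → Prop) [DecidablePred P]
    (hP : ∀ k, P k → ∃ v : ℤ, c ≤ v + κ * k ∧ v + κ * k ≤ c + w) :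
    (((range K).filter P).card : ℝ) ≤ (κ * K + w + 2) * (w / κ + 1) := by
  classical
  have hK : 0 ≤ κ * K := mul_nonneg hκ.le (Nat.cast_nonneg K)
  have hwκ : 0 ≤ w / κ := div_nonneg hw hκ.le
  have h1 : (range K).filter P ⊆ (Icc ⌈c - κ * K⌉ ⌊c - κ * K + (κ * K + w)⌋).biUnion
      fun v : ℤ => (range K).filter fun k : ℕ => c ≤ v + κ * k ∧ v + κ * k ≤ c + w := by
    intro k hk
    rw [mem_filter] at hk
    obtain ⟨v, hv1, hv2⟩ := hP k hk.2
    rw [mem_biUnion]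
    have hkK : (k : ℝ) ≤ K := by
      have := mem_range.1 hk.1
      exact_mod_cast this.le
    have hk2 : κ * k ≤ κ * K := mul_le_mul_of_nonneg_left hkK hκ.le
    have hk3 : 0 ≤ κ * k := mul_nonneg hκ.le (Nat.cast_nonneg k)
    refine ⟨v, ?_, mem_filter.2 ⟨hk.1, hv1, hv2⟩⟩
    rw [mem_Icc]
    exact ⟨Int.ceil_le.2 (by linarith), Int.le_floor.2 (by linarith)⟩
  have h2 : ∀ v : ℤ, (((range K).filter fun k : ℕ => c ≤ v + κ * k ∧ v + κ * k ≤ c + w).card : ℝ) ≤ w / κ + 1 := by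
    intro v
    have h3 : ((range K).filter fun k : ℕ => c ≤ v + κ * k ∧ v + κ * k ≤ c + w).card =
        (((range K).filter fun k : ℕ => c ≤ v + κ * k ∧ v + κ * k ≤ c + w).image (Nat.cast : ℕ → ℤ)).card := by
      rw [card_image_of_injective _ Nat.cast_injective]
    rw [h3]
    refine LCnt_int _ ((c - v) / κ) (w / κ) hwκ ?_
    intro z hz
    rw [mem_image] at hz
    obtain ⟨k, hk, rfl⟩ := hz
    rw [mem_filter] at hk
    push_cast
    constructor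
    · rw [div_le_iff₀ hκ]
      linarith [hk.2.1]
    · rw [← add_div, le_div_iff₀ hκ]
      linarith [hk.2.2]
  have h4 : ((range K).filter P).card ≤ ∑ v ∈ Icc ⌈c - κ * K⌉ ⌊c - κ * K + (κ * K + w)⌋,
      ((range K).filter fun k : ℕ => c ≤ v + κ * k ∧ v + κ * k ≤ c + w).card :=
    (card_le_card h1).trans card_biUnion_le
  have h5 : (((range K).filter P).card : ℝ) ≤ ∑ v ∈ Icc ⌈c - κ * K⌉ ⌊c - κ * K + (κ * K + w)⌋,
      (((range K).filter fun k : ℕ => c ≤ v + κ * k ∧ v + κ * k ≤ c + w).card : ℝ) := by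
    exact_mod_cast h4
  have h6 : ∑ v ∈ Icc ⌈c - κ * K⌉ ⌊c - κ * K + (κ * K + w)⌋,
      (((range K).filter fun k : ℕ => c ≤ v + κ * k ∧ v + κ * k ≤ c + w).card : ℝ) ≤
      ∑ v ∈ Icc ⌈c - κ * K⌉ ⌊c - κ * K + (κ * K + w)⌋, (w / κ + 1) :=
    sum_le_sum fun v _ => h2 v
  rw [sum_const, nsmul_eq_mul] at h6
  have h7 := LCnt_card (c - κ * K) (κ * K + w) (by linarith)
  have h8 := mul_le_mul_of_nonneg_right h7 (show 0 ≤ w / κ + 1 by linarith)
  have h9 : (κ * K + w + 1) * (w / κ + 1) ≤ (κ * K + w + 2) * (w / κ + 1) :=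
    mul_le_mul_of_nonneg_right (by linarith) (by linarith)
  linarith

end SFP
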