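import Pool.Agent.SFP.LSmall
import Pool.Agent.SFP.LBig

/-!
# Module LLast (3): the last level on average
-/

namespace SFP

open Finset

/-- The elementary properties of `Yf`. -/
theorem ll_Yf {S' : Finset ℕ} {β : ℝ} (h : ∀ y ∈ S', 26 / 100 ≤ nd (β * y)) :
    0 ≤ Yf S' β ∧ Yf S' β ≤ 1 / 12 ∧ ∀ y ∈ S', 1 / 3 - Yf S' β ≤ nd (β * y) := by
  refine ⟨?_, ?_, ?_⟩
  · unfold Yf
    exact le_max' _ _ (mem_insert_self _ _)
  · unfold Yf
    apply max'_le
    intro x hx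
    rw [mem_insert, mem_image] at hx
    rcases hx with rfl | ⟨y, hy, rfl⟩
    · norm_num
    · have := h y hy
      linarith
  · intro y hy
    have : 1 / 3 - nd (β * y) ≤ Yf S' β := by
      unfold Yf
      apply le_max'
      rw [mem_insert, mem_image]
      exact Or.inr ⟨y, hy, rfl⟩
    linarith

/-- Dropping the last point does not change the triangular weight. -/
theorem ll_exl (S : Finset ℕ) (D L : ℕ) :
    exl S D L = 3 * (∑ y ∈ (sct S D L).filter (fun y => y < L), 2 * ((L : ℝ) - y) / (L : ℝ) ^ 2) - 1 := by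
  unfold exl
  congr 2
  rw [sum_filter]
  apply sum_congr rfl
  intro y hy
  split_ifs with h
  · rfl
  · have h1 := (mem_sct.1 hy).1.2
    have : y = L := by omega
    subst this
    simp

/-- Fractions: `α d = (u d') / t + θ d`. -/
theorem ll_frac (r : ℚ) (d : ℕ) (hd : 1 ≤ d) :
    1 ≤ r.den / Nat.gcd r.den d ∧
    Int.gcd (r.num * ((d / Nat.gcd r.den d : ℕ) : ℤ)) ((r.den / Nat.gcd r.den d : ℕ) : ℤ) = 1 ∧
    (r : ℝ) * d = ((r.num * ((d / Nat.gcd r.den d : ℕ) : ℤ) : ℤ) : ℝ) / ((r.den / Nat.gcd r.den d : ℕ) : ℝ) ∧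
    (r.den / Nat.gcd r.den d) * d = Nat.lcm r.den d ∧
    (1 : ℝ) / ((r.den / Nat.gcd r.den d : ℕ) : ℝ) = (Nat.gcd r.den d : ℝ) / r.den ∧
    ((Nat.lcm r.den d : ℕ) : ℝ) ≤ (r.den : ℝ) * d := by
  set q := r.den with hq
  have hq0 : 0 < q := r.den_pos
  set g := Nat.gcd q d with hg
  have hg0 : 0 < g := Nat.gcd_pos_of_pos_left _ hq0
  have hgq : g ∣ q := Nat.gcd_dvd_left _ _
  have hgd : g ∣ d := Nat.gcd_dvd_right _ _
  obtain ⟨t, ht⟩ := hgq
  obtain ⟨d', hd'⟩ := hgd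
  have e1 : q / g = t := by
    rw [ht]; exact Nat.mul_div_cancel_left _ hg0
  have e2 : d / g = d' := by
    rw [hd']; exact Nat.mul_div_cancel_left _ hg0
  rw [e1, e2]
  have ht0 : 0 < t := by
    rcases Nat.eq_zero_or_pos t with h | h
    · rw [h] at ht; omega
    · exact h
  have hgR : (0 : ℝ) < g := by exact_mod_cast hg0
  have htR : (0 : ℝ) < t := by exact_mod_cast ht0
  have hqR : (q : ℝ) = g * t := by exact_mod_cast ht
  have hdR : (d : ℝ) = g * d' := by exact_mod_cast hd'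
  have hcop : Nat.Coprime t d' := by
    have := Nat.coprime_div_gcd_div_gcd (m := q) (n := d) (by rw [← hg]; exact hg0)
    rw [← hg, e1, e2] at this
    exact this
  have hcop2 : Nat.Coprime r.num.natAbs t := by
    have h1 := r.reduced
    exact Nat.Coprime.coprime_dvd_right (Dvd.intro_left g (by rw [← ht, hq])) h1
  refine ⟨ht0, ?_, ?_, ?_, ?_, ?_⟩
  · rw [Int.gcd_eq_natAbs, Int.natAbs_mul]
    simp only [Int.natAbs_natCast]
    exact Nat.Coprime.mul_left hcop2 hcop.symm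
  · have h3 : (r : ℝ) = (r.num : ℝ) / (q : ℝ) := by
      rw [hq]
      exact_mod_cast (Rat.num_div_den r).symm
    rw [h3, hqR, hdR]
    push_cast
    field_simp
  · rw [Nat.lcm, ← hg]
    conv_rhs => rw [ht]
    rw [mul_assoc, Nat.mul_div_cancel_left _ hg0]
  · rw [hqR]
    field_simp
  · have h5 : Nat.lcm q d ≤ q * d := Nat.le_of_dvd (Nat.mul_pos hq0 (by omega)) (Nat.lcm_dvd_mul q d)
    exact_mod_cast h5

theorem l_last (CN : ℕ) : ∃ lam₀ : ℕ, ∀ lam : ℕ, lam₀ ≤ lam → ∀ (E F T D : ℕ) (a : ℕ → ℝ) (S : Finset ℕ)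
    (α : ℝ), CN + 20 ≤ E → 1 ≤ T → 1 ≤ D → Wts lam CN a →
    (∀ d ∈ Icc 1 (2 ^ (8 * lam * CN)), RSF (sct S (D * d) (cl T (2 ^ (8 * lam)) E 0)) T) →
    HH S T (2 ^ (8 * lam)) E (2 ^ (8 * lam * CN)) 0 D α →
    Val S T (2 ^ (8 * lam)) E F (2 ^ (8 * lam * CN)) a 0 D ≤
      600 * Yv S T (2 ^ (8 * lam)) E F (2 ^ (8 * lam * CN)) a 0 D α + 4000 / 2 ^ lam := by
  refine ⟨2, ?_⟩
  intro lam hlam E F T D a S α hE hT hD hW hRS hHH
  -- the constants
  obtain ⟨B, hB⟩ : ∃ B : ℕ, B = 2 ^ (8 * lam) := ⟨_, rfl⟩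
  obtain ⟨M, hM⟩ : ∃ M : ℕ, M = 2 ^ (8 * lam * CN) := ⟨_, rfl⟩
  have hMB : M = B ^ CN := by rw [hM, hB, ← pow_mul]
  have hW1 := hW.nonneg
  have hW2 := hW.sum
  have hW3 := hW.n1
  have hW4 := hW.n3
  rw [← hB, ← hM] at hRS hHH ⊢
  rw [← hM] at hW2
  have hB16 : 2 ^ 16 ≤ B := by
    rw [hB]
    exact Nat.pow_le_pow_right (by norm_num) (by omega)
  have hB1 : 1 ≤ B := by omega
  have hBlam : (2 : ℝ) ^ lam ≤ B := by
    rw [hB]
    push_cast
    exact pow_le_pow_right₀ (by norm_num) (by omega)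
  have hlamR : (0 : ℝ) < 2 ^ lam := by positivity
  have hBR : (0 : ℝ) < B := by exact_mod_cast hB1
  have hBinv : (1 : ℝ) / B ≤ 1 / 2 ^ lam := one_div_le_one_div_of_le hlamR hBlam
  have hcB : ((2 ^ (8 * lam) : ℕ) : ℝ) = (2 : ℝ) ^ (8 * lam) := by push_cast; rfl
  have hBR' : (B : ℝ) = (2 : ℝ) ^ (8 * lam) := by rw [hB]; push_cast; rfl
  obtain ⟨L, hL⟩ : ∃ L : ℕ, L = cl T B E 0 := ⟨_, rfl⟩
  have hLe : L = T * B ^ E := by
    rw [hL]; unfold cl; simp
  have hLpos : 1 ≤ L := by rw [hL]; exact cl_pos hT hB1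
  obtain ⟨Q, hQ⟩ : ∃ Q : ℕ, Q = T * B ^ (E - 2) := ⟨_, rfl⟩
  have hQL : Q * B ^ 2 = L := by
    rw [hQ, hLe, mul_assoc, ← pow_add]
    congr 2
    omega
  have hQ0 : 0 < Q := by
    rcases Nat.eq_zero_or_pos Q with h | h
    · rw [h] at hQL; omega
    · exact h
  have hQLR : (Q : ℝ) * (B : ℝ) ^ 2 = L := by exact_mod_cast hQL
  have hB2L : (B : ℝ) ^ 2 ≤ L := by
    rw [← hQLR]
    have : (1 : ℝ) ≤ Q := by exact_mod_cast hQ0
    nlinarith [pow_pos hBR 2]
  have hMR : (M : ℝ) * B ^ 18 ≤ Q := by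
    have : M * B ^ 18 ≤ Q := by
      rw [hMB, hQ, ← pow_add]
      calc B ^ (CN + 18) ≤ B ^ (E - 2) := Nat.pow_le_pow_right hB1 (by omega)
        _ ≤ T * B ^ (E - 2) := Nat.le_mul_of_pos_left _ hT
    exact_mod_cast this
  have hTL : (T : ℝ) ≤ 1 / B * L := by
    have h1 : (T * B : ℕ) ≤ L := by
      rw [hLe]
      apply Nat.mul_le_mul_left
      calc B = B ^ 1 := (pow_one B).symm
        _ ≤ B ^ E := Nat.pow_le_pow_right hB1 (by omega)
    have h2 : (T : ℝ) * B ≤ L := by exact_mod_cast h1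
    rw [one_div, ← div_eq_inv_mul, le_div_iff₀ hBR]
    exact h2
  -- Dirichlet
  obtain ⟨r, hr1, hr2⟩ := Real.exists_rat_abs_sub_le_and_den_le α hQ0
  obtain ⟨θ, hθ⟩ : ∃ θ : ℝ, θ = α - r := ⟨_, rfl⟩
  have hαr : α = r + θ := by rw [hθ]; ring
  rw [← hθ] at hr1
  have hden : 1 ≤ r.den := r.den_pos
  have hdenR : (1 : ℝ) ≤ r.den := by exact_mod_cast hden
  have hQR : (0 : ℝ) < Q := by exact_mod_cast hQ0
  -- bound for each d
  have hY : ∀ d ∈ Icc 1 M, 0 ≤ Yf (sct S (D * d) L) (α * d) ∧ Yf (sct S (D * d) L) (α * d) ≤ 1 / 12 ∧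
      ∀ y ∈ sct S (D * d) L, 1 / 3 - Yf (sct S (D * d) L) (α * d) ≤ nd (α * d * y) := by
    intro d hd
    rw [mem_Icc] at hd
    apply ll_Yf
    intro y hy
    rw [mem_sct] at hy
    have h1 : d * y ∈ sct S D (cl T B E (2 * 0) * M) := by
      rw [mem_sct]
      refine ⟨⟨Nat.mul_pos (by omega) (by omega), ?_⟩, ?_⟩
      · rw [Nat.mul_zero, ← hL, mul_comm L M]
        exact Nat.mul_le_mul hd.2 hy.1.2
      · rw [← mul_assoc]; exact hy.2
    have h2 := hHH (d * y) h1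
    push_cast at h2
    rw [mul_assoc]
    exact h2
  have hsmall : ∀ d ∈ Icc 1 M, ((r.den / Nat.gcd r.den d : ℕ) : ℝ) * |θ * d| ≤ 1 / (B : ℝ) ^ 18 := by
    intro d hd
    rw [mem_Icc] at hd
    obtain ⟨f1, f2, f3, f4, f5, f6⟩ := ll_frac r d hd.1
    rw [abs_mul, Nat.abs_cast]
    have h1 : ((r.den / Nat.gcd r.den d : ℕ) : ℝ) * (|θ| * d) = |θ| * (Nat.lcm r.den d : ℕ) := by
      rw [← f4]; push_cast; ring
    rw [h1]
    have hdM : (d : ℝ) ≤ M := by exact_mod_cast hd.2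
    have hd0 : (0 : ℝ) ≤ d := by positivity
    calc |θ| * (Nat.lcm r.den d : ℕ) ≤ 1 / (((Q : ℝ) + 1) * r.den) * ((r.den : ℝ) * d) :=
          mul_le_mul hr1 f6 (by positivity) (by positivity)
      _ = d / ((Q : ℝ) + 1) := by
          have : (r.den : ℝ) ≠ 0 := by positivity
          field_simp
      _ ≤ 1 / (B : ℝ) ^ 18 := by
          rw [div_le_div_iff₀ (by positivity) (by positivity)]
          have : (d : ℝ) * B ^ 18 ≤ M * B ^ 18 := mul_le_mul_of_nonneg_right hdM (by positivity)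
          linarith
  have hRS' : ∀ d ∈ Icc 1 M, RSF ((sct S (D * d) L).filter (fun y => y < L)) T := by
    intro d hd
    have := hRS d hd
    rw [← hL] at this
    exact rsf_mono this (filter_subset _ _) le_rfl
  have hpt : ∀ d ∈ Icc 1 M, ∀ y ∈ (sct S (D * d) L).filter (fun y => y < L), 1 ≤ y ∧ y < L := by
    intro d _ y hy
    rw [mem_filter, mem_sct] at hy
    exact ⟨hy.1.1.1, hy.2⟩
  have hnd : ∀ d ∈ Icc 1 M, ∀ y ∈ (sct S (D * d) L).filter (fun y => y < L),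
      1 / 3 - Yf (sct S (D * d) L) (α * d) ≤
        nd ((((r.num * ((d / Nat.gcd r.den d : ℕ) : ℤ) : ℤ) : ℝ) / ((r.den / Nat.gcd r.den d : ℕ) : ℝ)
          + θ * d) * y) := by
    intro d hd y hy
    have h1 := (hY d hd).2.2 y (mem_of_mem_filter y hy)
    rw [mem_Icc] at hd
    obtain ⟨f1, f2, f3, f4, f5, f6⟩ := ll_frac r d hd.1
    rw [← f3, ← add_mul, ← hαr]
    exact h1
  have htle : ∀ d, r.den / Nat.gcd r.den d ≤ r.den := fun d => Nat.div_le_self _ _
  have hB1000 : (1 : ℝ) / B ≤ 1 / 1000 := by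
    apply one_div_le_one_div_of_le (by norm_num)
    have : 1000 ≤ B := by omega
    exact_mod_cast this
  have hB18 : (1 : ℝ) / (B : ℝ) ^ 18 ≤ 1 / (B : ℝ) ^ 2 := by
    apply one_div_le_one_div_of_le (by positivity)
    exact pow_le_pow_right₀ (by exact_mod_cast hB1) (by norm_num)
  have hBB : (B : ℝ) * (1 / (B : ℝ) ^ 2) = 1 / B := by
    field_simp
  have hB1R : (1 : ℝ) ≤ B := by exact_mod_cast hB1
  have hYv : Yv S T B E F M a 0 D α = ∑ d ∈ Icc 1 M, a d * Yf (sct S (D * d) L) (α * d) := by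
    rw [hL]; rfl
  have hYv0 : 0 ≤ Yv S T B E F M a 0 D α := by
    rw [hYv]
    exact sum_nonneg fun d hd => mul_nonneg (hW1 d) (hY d hd).1
  have hVal : Val S T B E F M a 0 D = 3 * ∑ d ∈ Icc 1 M, a d * exl S (D * d) L := by
    rw [hL]; rfl
  rw [hVal]
  rcases le_or_gt r.den B with hq | hq
  · -- small denominators
    have key : ∀ d ∈ Icc 1 M, exl S (D * d) L ≤
        -(chi (r.den / Nat.gcd r.den d) / ((r.den / Nat.gcd r.den d : ℕ) : ℝ) *
          RR (|θ| * L * (Nat.lcm r.den d : ℝ))) + 200 * Yf (sct S (D * d) L) (α * d) + 1000 * (1 / B) := by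
      intro d hd
      have hd' := mem_Icc.1 hd
      obtain ⟨f1, f2, f3, f4, f5, f6⟩ := ll_frac r d hd'.1
      have htB : ((r.den / Nat.gcd r.den d : ℕ) : ℝ) ≤ B := by exact_mod_cast (htle d).trans hq
      have ht0 : (0 : ℝ) ≤ ((r.den / Nat.gcd r.den d : ℕ) : ℝ) := by positivity
      have hs := hsmall d hd
      have h1 : ((r.den / Nat.gcd r.den d : ℕ) : ℝ) ≤ 1 / B * L := by
        rw [one_div, ← div_eq_inv_mul, le_div_iff₀ hBR]
        calc ((r.den / Nat.gcd r.den d : ℕ) : ℝ) * B ≤ B * B := mul_le_mul_of_nonneg_right htB hBR.le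
          _ = (B : ℝ) ^ 2 := by ring
          _ ≤ L := hB2L
      have h2 : ((r.den / Nat.gcd r.den d : ℕ) : ℝ) ^ 2 * |θ * d| ≤ 1 / B := by
        calc ((r.den / Nat.gcd r.den d : ℕ) : ℝ) ^ 2 * |θ * d|
            = ((r.den / Nat.gcd r.den d : ℕ) : ℝ) * (((r.den / Nat.gcd r.den d : ℕ) : ℝ) * |θ * d|) := by ring
          _ ≤ B * (1 / (B : ℝ) ^ 2) := mul_le_mul htB (hs.trans hB18) (by positivity) hBR.le
          _ = 1 / B := hBB
      have := l_small (L := L) (t := r.den / Nat.gcd r.den d)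
        (u := r.num * ((d / Nat.gcd r.den d : ℕ) : ℤ)) (T := T) (ε := 1 / B)
        (Y := Yf (sct S (D * d) L) (α * d)) (θ := θ * d)
        ((sct S (D * d) L).filter (fun y => y < L)) (hpt d hd) (hRS' d hd) hLpos f1 f2 (by positivity)
        hB1000 (by positivity) h1 h2 hTL (hY d hd).1 (hY d hd).2.1 (hnd d hd)
      rw [ll_exl]
      have e : ((r.den / Nat.gcd r.den d : ℕ) : ℝ) * |θ * d| * L = |θ| * L * (Nat.lcm r.den d : ℝ) := by
        rw [← f4, abs_mul, Nat.abs_cast]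
        push_cast
        ring
      rw [e] at this
      exact this
    have hn1 := hW3 r.den hden (hB ▸ hq) (|θ| * L) (by positivity)
    rw [← hM, ← hBR'] at hn1
    have hsum : ∑ d ∈ Icc 1 M, a d * exl S (D * d) L ≤
        -(∑ d ∈ Icc 1 M, a d * (chi (r.den / Nat.gcd r.den d) / ((r.den / Nat.gcd r.den d : ℕ) : ℝ)) *
          RR (|θ| * L * (Nat.lcm r.den d : ℝ))) + 200 * (∑ d ∈ Icc 1 M, a d * Yf (sct S (D * d) L) (α * d))
          + 1000 * (1 / B) * ∑ d ∈ Icc 1 M, a d := by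
      rw [← sum_neg_distrib, mul_sum, mul_sum, ← sum_add_distrib, ← sum_add_distrib]
      apply sum_le_sum
      intro d hd
      have := mul_le_mul_of_nonneg_left (key d hd) (hW1 d)
      refine this.trans (le_of_eq ?_)
      ring
    rw [hW2] at hsum
    rw [← hYv] at hsum
    have e2 : (4000 : ℝ) / 2 ^ lam = 4000 * (1 / 2 ^ lam) := by ring
    rw [e2]
    have hpos : (0 : ℝ) < 1 / 2 ^ lam := by positivity
    linarith
  · -- large denominators
    have key : ∀ d ∈ Icc 1 M, exl S (D * d) L ≤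
        7 * Yf (sct S (D * d) L) (α * d) + 4 * ((Nat.gcd r.den d : ℝ) / r.den) + 20 * (1 / B) := by
      intro d hd
      have hd' := mem_Icc.1 hd
      obtain ⟨f1, f2, f3, f4, f5, f6⟩ := ll_frac r d hd'.1
      have htQ : ((r.den / Nat.gcd r.den d : ℕ) : ℝ) ≤ Q := by exact_mod_cast (htle d).trans hr2
      have hs := hsmall d hd
      have h1 : ((r.den / Nat.gcd r.den d : ℕ) : ℝ) ≤ 1 / B * L := by
        rw [one_div, ← div_eq_inv_mul, le_div_iff₀ hBR]
        calc ((r.den / Nat.gcd r.den d : ℕ) : ℝ) * B ≤ Q * B := mul_le_mul_of_nonneg_right htQ hBR.le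
          _ ≤ Q * (B : ℝ) ^ 2 := by
              apply mul_le_mul_of_nonneg_left _ hQR.le
              nlinarith
          _ = L := hQLR
      have h2 : ((r.den / Nat.gcd r.den d : ℕ) : ℝ) * |θ * d| ≤ 1 / B := by
        refine (hs.trans hB18).trans ?_
        apply one_div_le_one_div_of_le hBR
        nlinarith
      have := l_big (L := L) (t := r.den / Nat.gcd r.den d)
        (u := r.num * ((d / Nat.gcd r.den d : ℕ) : ℤ)) (ε := 1 / B)
        (Y := Yf (sct S (D * d) L) (α * d)) (θ := θ * d)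
        ((sct S (D * d) L).filter (fun y => y < L)) (hpt d hd) hLpos f1 f2 (by positivity)
        hB1000 h1 h2 (hY d hd).1 (hY d hd).2.1 (hnd d hd)
      rw [ll_exl]
      refine this.trans (le_of_eq ?_)
      rw [← f5]
      ring
    have hn3 := hW4 r.den (hB ▸ hq)
    rw [← hM] at hn3
    have hsum : ∑ d ∈ Icc 1 M, a d * exl S (D * d) L ≤
        7 * (∑ d ∈ Icc 1 M, a d * Yf (sct S (D * d) L) (α * d)) +
          4 * (∑ d ∈ Icc 1 M, a d * ((Nat.gcd r.den d : ℝ) / r.den)) +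
          20 * (1 / B) * ∑ d ∈ Icc 1 M, a d := by
      rw [mul_sum, mul_sum, mul_sum, ← sum_add_distrib, ← sum_add_distrib]
      apply sum_le_sum
      intro d hd
      have := mul_le_mul_of_nonneg_left (key d hd) (hW1 d)
      refine this.trans (le_of_eq ?_)
      ring
    rw [hW2] at hsum
    rw [← hYv] at hsum
    have e2 : (4000 : ℝ) / 2 ^ lam = 4000 * (1 / 2 ^ lam) := by ring
    have e3 : (60 : ℝ) / 2 ^ lam = 60 * (1 / 2 ^ lam) := by ring
    rw [e2]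
    rw [e3] at hn3
    have hpos : (0 : ℝ) < 1 / 2 ^ lam := by positivity
    linarith

end SFP
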