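import Pool.Agent.SFP.LDefs

/-!
# Module LPair (3): pairing of the classes `t/3` and `2t/3`

`t = 3k`, `u` coprime to `t`, `S' ⊆ [1, L)`, `RSF S' T`, `w(y) = 2 (L - y)/L²`. `C₁ = {y : u y % t = k}`, `C₂ = {y : u y % t = 2k}`. Then
`∑_{y ∈ S' ∩ (C₁ ∪ C₂)} w(y) ≤ 1/t + 2/L + 2T/L`.

Proof. If `S' ∩ (C₁ ∪ C₂)` is empty: clear. Let `x₀` be its least element, say `x₀ ∈ C_i`, `{i, i'} = {1, 2}`. `y ∈ C_i ⟹ y + x₀ ∈ C_{i'}` (`2k ≡ 2k`, `4k ≡ k mod 3k`) and `z ∈ C_{i'}`, `z ≥ x₀` ⟹ `z - x₀ ∈ C_i`.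
Let `Z = S' ∩ C_{i'}`; all `z ∈ Z` satisfy `z > x₀` (`z ≥ x₀`, different classes as `k ≢ 2k mod 3k`). `z ↦ z - x₀` is injective from `Z` to `C_i ∩ [1, L)` and `w(z) ≤ w(z - x₀)`. The `z ∈ Z` with `z - x₀ ∈ S'` are at most `T` many: `rp S' x₀ ≤ T`
(`y = z - x₀`, `y + x₀ ∈ S'`), each has weight `≤ 2/L`. So `∑_Z w + ∑_{S' ∩ C_i} w ≤ 2T/L + ∑_{y ∈ C_i, 1 ≤ y < L} w(y)`. The class `C_i` is a residue class mod `t` (`u` invertible): its elements in `[1, L)` are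
`y₀, y₀ + t, ...`, `1 ≤ y₀`; `w` is decreasing and `t w(y₀ + j t) ≤ ∫_{y₀ + (j-1)t}^{y₀ + jt} w` for `j ≥ 1`, so `∑ w ≤ w(y₀) + (1/t) ∫_0^L w ≤ 2/L + 1/t`. (Or with an explicit sum.)
-/

namespace SFP

open Finset

theorem LPair_prog (A t : ℝ) (ht : 0 < t) (n : ℕ) :
    ∑ j ∈ range (n + 1), (A - j * t) ≤ A + A ^ 2 / (2 * t) := by
  have h : ∑ j ∈ range (n + 1), (A - j * t) = (n + 1) * A - t * (n * (n + 1)) / 2 := by
    induction n with
    | zero => simp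
    | succ n ih =>
      rw [sum_range_succ, ih]
      push_cast
      ring
  rw [h]
  have h1 : 0 ≤ (A - t * n) ^ 2 / (2 * t) := by positivity
  have e : (A - t * n) ^ 2 / (2 * t) = A ^ 2 / (2 * t) - A * n + t * n ^ 2 / 2 := by
    field_simp
    ring
  have h0 : 0 ≤ t * n := by positivity
  nlinarith

theorem LPair_cls {t L : ℕ} (ht : 1 ≤ t) (hL : 1 ≤ L) (Z : Finset ℕ) (hZ : ∀ y ∈ Z, 1 ≤ y ∧ y < L)
    (hc : ∀ y ∈ Z, ∀ y' ∈ Z, y ≡ y' [MOD t]) :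
    ∑ y ∈ Z, 2 * ((L : ℝ) - y) / (L : ℝ) ^ 2 ≤ (1 : ℝ) / (t : ℝ) + 2 / (L : ℝ) := by
  rcases Z.eq_empty_or_nonempty with rfl | hne
  · rw [sum_empty]
    positivity
  obtain ⟨y₀, hy₀, hmin⟩ : ∃ y₀ ∈ Z, ∀ y ∈ Z, y₀ ≤ y :=
    ⟨Z.min' hne, Z.min'_mem hne, fun y hy => Z.min'_le y hy⟩
  have hj : ∀ y ∈ Z, y = y₀ + (y - y₀) / t * t := by
    intro y hy
    have h1 : t ∣ y - y₀ := (Nat.modEq_iff_dvd' (hmin y hy)).1 (hc y₀ hy₀ y hy)
    have h2 := Nat.div_mul_cancel h1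
    have h3 := hmin y hy
    omega
  have hy0L := (hZ y₀ hy₀).2
  have htr : (0 : ℝ) < t := by exact_mod_cast ht
  have hLr : (0 : ℝ) < L := by exact_mod_cast hL
  have h1 : ∑ y ∈ Z, ((L : ℝ) - y) ≤ ∑ j ∈ range ((L - y₀) / t + 1), (((L : ℝ) - y₀) - j * t) := by
    have e1 : ∑ y ∈ Z, ((L : ℝ) - y) = ∑ j ∈ Z.image (fun y => (y - y₀) / t), (((L : ℝ) - y₀) - j * t) := by
      rw [sum_image]
      · refine sum_congr rfl fun y hy => ?_
        have h2 : (y : ℝ) = y₀ + (((y - y₀) / t : ℕ) : ℝ) * t := by exact_mod_cast hj y hy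
        rw [h2]
        ring
      · intro y hy y' hy' h
        have h2 := hj y hy
        have h3 := hj y' hy'
        simp only at h
        rw [h] at h2
        rw [h2, ← h3]
    rw [e1]
    refine sum_le_sum_of_subset_of_nonneg ?_ ?_
    · intro j hj'
      obtain ⟨y, hy, rfl⟩ := mem_image.1 hj'
      rw [mem_range]
      have h2 : (y - y₀) / t ≤ (L - y₀) / t := Nat.div_le_div_right (by have := (hZ y hy).2; omega)
      omega
    · intro j hj' _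
      have h2 : j ≤ (L - y₀) / t := by have := mem_range.1 hj'; omega
      have h3 : j * t ≤ L - y₀ := (Nat.mul_le_mul_right t h2).trans (Nat.div_mul_le_self _ _)
      have h4 : j * t + y₀ ≤ L := by omega
      have h5 : (j : ℝ) * t + y₀ ≤ L := by exact_mod_cast h4
      linarith
  have h2 := LPair_prog ((L : ℝ) - y₀) t htr ((L - y₀) / t)
  have h3 : ∑ y ∈ Z, 2 * ((L : ℝ) - y) / (L : ℝ) ^ 2 = 2 / (L : ℝ) ^ 2 * ∑ y ∈ Z, ((L : ℝ) - y) := by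
    rw [mul_sum]
    exact sum_congr rfl fun y _ => by ring
  rw [h3]
  have hA0 : 0 ≤ (L : ℝ) - y₀ := by
    have : (y₀ : ℝ) < L := by exact_mod_cast hy0L
    linarith
  have hA1 : (L : ℝ) - y₀ ≤ L := by
    have : (0 : ℝ) ≤ y₀ := by positivity
    linarith
  have h4 : 2 / (L : ℝ) ^ 2 * ∑ y ∈ Z, ((L : ℝ) - y) ≤
      2 / (L : ℝ) ^ 2 * (((L : ℝ) - y₀) + ((L : ℝ) - y₀) ^ 2 / (2 * t)) :=
    mul_le_mul_of_nonneg_left (h1.trans h2) (by positivity)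
  refine h4.trans ?_
  have h5 : ((L : ℝ) - y₀) ^ 2 ≤ (L : ℝ) ^ 2 := pow_le_pow_left₀ hA0 hA1 2
  have e : 1 / (t : ℝ) + 2 / L = 2 / (L : ℝ) ^ 2 * (L + (L : ℝ) ^ 2 / (2 * t)) := by
    field_simp
    ring
  rw [e]
  refine mul_le_mul_of_nonneg_left ?_ (by positivity)
  have h6 : ((L : ℝ) - y₀) ^ 2 / (2 * t) ≤ (L : ℝ) ^ 2 / (2 * t) :=
    div_le_div_of_nonneg_right h5 (by positivity)
  linarith

theorem LPair_half {k u L : ℕ} {T : ℝ} (hk : 1 ≤ k) (hu : Nat.Coprime u (3 * k)) (hL : 1 ≤ L)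
    (S' : Finset ℕ) (hS : ∀ y ∈ S', 1 ≤ y ∧ y < L) (hR : RSF S' T) {a b : ℕ}
    (hab : (a = k ∧ b = 2 * k) ∨ (a = 2 * k ∧ b = k)) {x₀ : ℕ} (hx₀ : x₀ ∈ S')
    (hxa : u * x₀ % (3 * k) = a) (hmin : ∀ y ∈ S', u * y % (3 * k) = b → x₀ ≤ y) :
    ∑ y ∈ S'.filter (fun y => u * y % (3 * k) = a), 2 * ((L : ℝ) - y) / (L : ℝ) ^ 2 +
      ∑ y ∈ S'.filter (fun y => u * y % (3 * k) = b), 2 * ((L : ℝ) - y) / (L : ℝ) ^ 2 ≤
      1 / (3 * k : ℕ) + 2 / L + 2 * T / L := by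
  have hLr : (0 : ℝ) < L := by exact_mod_cast hL
  have hne : a ≠ b := by rcases hab with ⟨h1, h2⟩ | ⟨h1, h2⟩ <;> omega
  have hat : a < 3 * k := by rcases hab with ⟨h1, h2⟩ | ⟨h1, h2⟩ <;> omega
  have haa : a + a ≡ b [MOD 3 * k] := by
    rcases hab with ⟨h1, h2⟩ | ⟨h1, h2⟩
    · rw [h1, h2, ← two_mul]
    · rw [h1, h2]
      have : 2 * k + 2 * k = k + 3 * k := by ring
      rw [this]
      exact Nat.add_modEq_right
  -- differences
  have hdiff : ∀ z, x₀ ≤ z → u * z % (3 * k) = b → u * (z - x₀) % (3 * k) = a := by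
    intro z hz hzb
    have h1 : u * (z - x₀) + u * x₀ = u * z := by rw [← mul_add, Nat.sub_add_cancel hz]
    have h2 : u * (z - x₀) + u * x₀ ≡ a + a [MOD 3 * k] := by
      rw [h1]
      refine Nat.ModEq.trans ?_ haa.symm
      rw [← hzb]
      exact (Nat.mod_modEq _ _).symm
    have h3 : u * x₀ ≡ a [MOD 3 * k] := by
      rw [← hxa]
      exact (Nat.mod_modEq _ _).symm
    have h4 : u * (z - x₀) ≡ a [MOD 3 * k] := Nat.ModEq.add_right_cancel h3 h2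
    have h5 : u * (z - x₀) % (3 * k) = a % (3 * k) := h4
    rw [Nat.mod_eq_of_lt hat] at h5
    exact h5
  have hlt : ∀ z ∈ S', u * z % (3 * k) = b → x₀ < z := by
    intro z hz hzb
    have h1 := hmin z hz hzb
    rcases Nat.lt_or_ge x₀ z with h | h
    · exact h
    · exfalso
      have : z = x₀ := le_antisymm h h1
      rw [this] at hzb
      exact hne (hxa.symm.trans hzb)
  obtain ⟨A, hA⟩ : ∃ A, A = S'.filter (fun y => u * y % (3 * k) = a) := ⟨_, rfl⟩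
  obtain ⟨Z, hZ⟩ : ∃ Z, Z = S'.filter (fun y => u * y % (3 * k) = b) := ⟨_, rfl⟩
  rw [← hA, ← hZ]
  obtain ⟨Z₁, hZ₁⟩ : ∃ Z₁, Z₁ = Z.filter (fun z => z - x₀ ∈ S') := ⟨_, rfl⟩
  obtain ⟨Z₂, hZ₂⟩ : ∃ Z₂, Z₂ = Z.filter (fun z => ¬ z - x₀ ∈ S') := ⟨_, rfl⟩
  have hsplit : ∑ y ∈ Z, 2 * ((L : ℝ) - y) / (L : ℝ) ^ 2 =
      ∑ y ∈ Z₁, 2 * ((L : ℝ) - y) / (L : ℝ) ^ 2 + ∑ y ∈ Z₂, 2 * ((L : ℝ) - y) / (L : ℝ) ^ 2 := by
    rw [hZ₁, hZ₂]
    exact (sum_filter_add_sum_filter_not _ _ _).symm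
  have hmemZ : ∀ z ∈ Z, z ∈ S' ∧ u * z % (3 * k) = b := by
    intro z hz
    rw [hZ] at hz
    exact mem_filter.1 hz
  -- first part
  have hZ1card : (Z₁.card : ℝ) ≤ T := by
    refine le_trans ?_ (hR x₀ hx₀).1
    have : Z₁.card ≤ rp S' x₀ := by
      unfold rp
      refine card_le_card_of_injOn (fun z => z - x₀) ?_ ?_
      · intro z hz
        have hz' := mem_filter.1 (hZ₁ ▸ (mem_coe.1 hz))
        have h1 := hmemZ z hz'.1
        have h2 := hlt z h1.1 h1.2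
        refine mem_coe.2 (mem_filter.2 ⟨hz'.2, ?_⟩)
        rw [Nat.sub_add_cancel h2.le]
        exact h1.1
      · intro z hz z' hz' h
        have h1 := hmemZ z (mem_filter.1 (hZ₁ ▸ (mem_coe.1 hz))).1
        have h2 := hmemZ z' (mem_filter.1 (hZ₁ ▸ (mem_coe.1 hz'))).1
        have h3 := hlt z h1.1 h1.2
        have h4 := hlt z' h2.1 h2.2
        simp only at h
        omega
    exact_mod_cast this
  have hpart1 : ∑ y ∈ Z₁, 2 * ((L : ℝ) - y) / (L : ℝ) ^ 2 ≤ 2 * T / L := by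
    have h1 : ∀ y ∈ Z₁, 2 * ((L : ℝ) - y) / (L : ℝ) ^ 2 ≤ 2 / L := by
      intro y _
      rw [div_le_div_iff₀ (by positivity) hLr]
      have : (0 : ℝ) ≤ y := by positivity
      nlinarith [mul_nonneg hLr.le this]
    refine (sum_le_sum h1).trans ?_
    rw [sum_const, nsmul_eq_mul]
    calc (Z₁.card : ℝ) * (2 / L) ≤ T * (2 / L) := mul_le_mul_of_nonneg_right hZ1card (by positivity)
      _ = 2 * T / L := by ring
  -- second part
  obtain ⟨W, hW⟩ : ∃ W, W = Z₂.image (fun z => z - x₀) := ⟨_, rfl⟩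
  have hmemW : ∀ y ∈ W, (1 ≤ y ∧ y < L) ∧ u * y % (3 * k) = a ∧ y ∉ S' := by
    intro y hy
    rw [hW] at hy
    obtain ⟨z, hz, rfl⟩ := mem_image.1 hy
    rw [hZ₂] at hz
    have hz' := mem_filter.1 hz
    have h1 := hmemZ z hz'.1
    have h2 := hlt z h1.1 h1.2
    have h3 := hS z h1.1
    exact ⟨⟨by omega, by omega⟩, hdiff z h2.le h1.2, hz'.2⟩
  have hpart2 : ∑ y ∈ Z₂, 2 * ((L : ℝ) - y) / (L : ℝ) ^ 2 ≤ ∑ y ∈ W, 2 * ((L : ℝ) - y) / (L : ℝ) ^ 2 := by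
    rw [hW, sum_image]
    · refine sum_le_sum fun z hz => ?_
      refine div_le_div_of_nonneg_right ?_ (by positivity)
      have : ((z - x₀ : ℕ) : ℝ) ≤ z := by exact_mod_cast Nat.sub_le z x₀
      linarith
    · intro z hz z' hz' h
      have h1 := hmemZ z (mem_filter.1 (hZ₂ ▸ (mem_coe.1 hz))).1
      have h2 := hmemZ z' (mem_filter.1 (hZ₂ ▸ (mem_coe.1 hz'))).1
      have h3 := hlt z h1.1 h1.2
      have h4 := hlt z' h2.1 h2.2
      simp only at h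
      omega
  have hdisj : Disjoint A W := by
    rw [disjoint_left]
    intro y hy hy'
    rw [hA] at hy
    exact (hmemW y hy').2.2 (mem_filter.1 hy).1
  have hcls := LPair_cls (t := 3 * k) (L := L) (by omega) hL (A ∪ W) ?_ ?_
  · rw [sum_union hdisj] at hcls
    rw [hsplit]
    linarith
  · intro y hy
    rcases mem_union.1 hy with h | h
    · rw [hA] at h
      exact hS y (mem_filter.1 h).1
    · exact (hmemW y h).1
  · have hall : ∀ y ∈ A ∪ W, u * y % (3 * k) = a := by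
      intro y hy
      rcases mem_union.1 hy with h | h
      · rw [hA] at h
        exact (mem_filter.1 h).2
      · exact (hmemW y h).2.1
    intro y hy y' hy'
    have h1 : u * y ≡ u * y' [MOD 3 * k] := (hall y hy).trans (hall y' hy').symm
    exact Nat.ModEq.cancel_left_of_coprime (by rw [Nat.gcd_comm]; exact hu) h1

theorem l_pair {k u L : ℕ} {T : ℝ} (hk : 1 ≤ k) (hu : Nat.Coprime u (3 * k)) (hT : 0 ≤ T) (hL : 1 ≤ L)
    (S' : Finset ℕ) (hS : ∀ y ∈ S', 1 ≤ y ∧ y < L) (hR : RSF S' T) :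
    ∑ y ∈ S'.filter (fun y => u * y % (3 * k) = k ∨ u * y % (3 * k) = 2 * k),
      2 * ((L : ℝ) - y) / (L : ℝ) ^ 2 ≤ 1 / (3 * k : ℕ) + 2 / L + 2 * T / L := by
  have hdisj : Disjoint (S'.filter (fun y => u * y % (3 * k) = k))
      (S'.filter (fun y => u * y % (3 * k) = 2 * k)) := by
    rw [disjoint_left]
    intro y hy hy'
    have h1 := (mem_filter.1 hy).2
    have h2 := (mem_filter.1 hy').2
    omega
  rw [filter_or, sum_union hdisj]
  rcases (S'.filter (fun y => u * y % (3 * k) = k ∨ u * y % (3 * k) = 2 * k)).eq_empty_or_nonempty with he | hne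
  · have h1 : S'.filter (fun y => u * y % (3 * k) = k) = ∅ := by
      refine subset_empty.1 fun y hy => ?_
      rw [← he]
      exact mem_filter.2 ⟨(mem_filter.1 hy).1, Or.inl (mem_filter.1 hy).2⟩
    have h2 : S'.filter (fun y => u * y % (3 * k) = 2 * k) = ∅ := by
      refine subset_empty.1 fun y hy => ?_
      rw [← he]
      exact mem_filter.2 ⟨(mem_filter.1 hy).1, Or.inr (mem_filter.1 hy).2⟩
    rw [h1, h2, sum_empty, add_zero]
    positivity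
  · obtain ⟨x₀, hx₀, hmin⟩ : ∃ x₀ ∈ S'.filter (fun y => u * y % (3 * k) = k ∨ u * y % (3 * k) = 2 * k),
        ∀ y ∈ S'.filter (fun y => u * y % (3 * k) = k ∨ u * y % (3 * k) = 2 * k), x₀ ≤ y :=
      ⟨_, min'_mem _ hne, fun y hy => min'_le _ y hy⟩
    have hx := mem_filter.1 hx₀
    rcases hx.2 with h | h
    · exact LPair_half hk hu hL S' hS hR (Or.inl ⟨rfl, rfl⟩) hx.1 h
        (fun y hy hyb => hmin y (mem_filter.2 ⟨hy, Or.inr hyb⟩))
    · have h3 := LPair_half hk hu hL S' hS hR (Or.inr ⟨rfl, rfl⟩) hx.1 h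
        (fun y hy hyb => hmin y (mem_filter.2 ⟨hy, Or.inl hyb⟩))
      linarith

end SFP
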