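import Pool.Agent.SFP.LDefs

/-!
# Module LR (2): the function `RR`

`gR` on `[0,1]`: `0 ≤ gR s ≤ 1/12`, `gR s ≤ s²/2`; `gR s = s²/2` for `s ≤ 1/3`.
(`1/3 ≤ s ≤ 2/3`: `s²/2 - (3/2)(s - 1/3)² = -s² + s - 1/6 = 1/12 - (s - 1/2)²`; `≥ 1/12 - 1/36 > 0`; `≤ s²/2` clear. `s ≥ 2/3`: `(1-s)²/2 ≤ 1/18`, and `≤ s²/2`.)
* `rr_nonneg`, `rr_le_one` (`gR (fract ξ) ≤ (fract ξ)²/2 ≤ ξ²/2`), `rr_one` (`0 < ξ ≤ 1/3`: `fract ξ = ξ`), `rr_le`: `2/12/ξ²`.
* `rr_lip`: `gR ∘ fract` is 1/3-Lipschitz (slope at most 1/3, continuous, also across integers as `gR 0 = gR 1 = 0`). For `ξ ≤ 1/3` and `ξ' ≤ 1/3` equality. For `1/3 ≤ ξ ≤ ξ'`: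
  `|RR ξ - RR ξ'| ≤ 2|H ξ - H ξ'|/ξ² + 2 H ξ' |1/ξ² - 1/ξ'²| ≤ 6 |ξ-ξ'| + (1/6)(ξ'-ξ)(ξ'+ξ)/(ξ²ξ'²) ≤ (6 + 9)|ξ - ξ'|` (`(ξ+ξ')/(ξ²ξ'²) ≤ 2/ξ³ ≤ 54`). The mixed case through `1/3`.
-/

namespace SFP

open Finset

theorem gR_nonneg {s : ℝ} (h0 : 0 ≤ s) (h1 : s ≤ 1) : 0 ≤ gR s := by
  unfold gR
  split_ifs with h2 h3
  · positivity
  · rw [not_le] at h2
    nlinarith [mul_nonneg (sub_nonneg.2 h2.le) (sub_nonneg.2 h3)]
  · positivity

theorem gR_le {s : ℝ} (h0 : 0 ≤ s) (h1 : s ≤ 1) : gR s ≤ 1 / 12 := by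
  unfold gR
  split_ifs with h2 h3
  · nlinarith
  · nlinarith [sq_nonneg (s - 1 / 2)]
  · rw [not_le] at h3
    nlinarith

theorem gR_le' {s : ℝ} (h0 : 0 ≤ s) (h1 : s ≤ 1) : gR s ≤ s ^ 2 / 2 := by
  unfold gR
  split_ifs with h2 h3
  · exact le_rfl
  · nlinarith [sq_nonneg (s - 1 / 3)]
  · rw [not_le] at h3
    nlinarith

theorem rr_nonneg (ξ : ℝ) : 0 ≤ RR ξ := by
  unfold RR
  split_ifs with h
  · exact zero_le_one
  · have h1 := gR_nonneg (Int.fract_nonneg ξ) (Int.fract_lt_one ξ).le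
    positivity

theorem LR_fract_le {ξ : ℝ} (h : 0 ≤ ξ) : Int.fract ξ ≤ ξ := by
  have h1 : (0 : ℝ) ≤ (⌊ξ⌋ : ℝ) := by exact_mod_cast Int.floor_nonneg.2 h
  have h2 := Int.self_sub_floor ξ
  linarith

theorem rr_le_one {ξ : ℝ} (h : 0 ≤ ξ) : RR ξ ≤ 1 := by
  unfold RR
  split_ifs with h0
  · exact le_rfl
  · have h1 := gR_le' (Int.fract_nonneg ξ) (Int.fract_lt_one ξ).le
    have h2 := LR_fract_le h
    have h3 := Int.fract_nonneg ξ
    have h4 : 0 < ξ := lt_of_le_of_ne h (Ne.symm h0)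
    rw [div_le_one (by positivity)]
    nlinarith

theorem rr_one {ξ : ℝ} (h0 : 0 ≤ ξ) (h : ξ ≤ 1 / 3) : RR ξ = 1 := by
  unfold RR
  split_ifs with h1
  · rfl
  · have h2 : Int.fract ξ = ξ := Int.fract_eq_self.2 ⟨h0, by linarith⟩
    have h3 : ξ ^ 2 ≠ 0 := pow_ne_zero 2 h1
    rw [h2, gR, if_pos h, div_eq_one_iff_eq h3]
    ring

theorem rr_le {ξ : ℝ} (h0 : 0 < ξ) : RR ξ ≤ 1 / (6 * ξ ^ 2) := by
  unfold RR
  rw [if_neg h0.ne']
  have h1 := gR_le (Int.fract_nonneg ξ) (Int.fract_lt_one ξ).le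
  have h2 : 0 < ξ ^ 2 := by positivity
  rw [div_le_div_iff₀ h2 (by positivity)]
  nlinarith

theorem LR_one_third : gR (1 / 3) = 1 / 18 := by
  unfold gR
  rw [if_pos le_rfl]
  norm_num

theorem LR_zero : gR 0 = 0 := by
  unfold gR
  rw [if_pos (by norm_num)]
  norm_num

theorem LR_one : gR 1 = 0 := by
  unfold gR
  rw [if_neg (by norm_num), if_neg (by norm_num)]
  norm_num

theorem LR_lip {s t : ℝ} (h0 : 0 ≤ s) (hst : s ≤ t) (h1 : t ≤ 1) : |gR s - gR t| ≤ 1 / 3 * (t - s) := by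
  rw [abs_le]
  unfold gR
  split_ifs with a b c d e f g i
  all_goals (try rw [not_le] at *)
  all_goals constructor
  all_goals nlinarith [mul_nonneg h0 (sub_nonneg.2 hst), mul_nonneg (sub_nonneg.2 hst) (sub_nonneg.2 h1)]

/-- `gR ∘ fract` is Lipschitz. -/
theorem gR_lip (x y : ℝ) : |gR (Int.fract x) - gR (Int.fract y)| ≤ 1 / 3 * |x - y| := by
  have key : ∀ x y : ℝ, x ≤ y → |gR (Int.fract x) - gR (Int.fract y)| ≤ 1 / 3 * (y - x) := by
    intro x y hxy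
    have fx := Int.fract_nonneg x
    have fx' := Int.fract_lt_one x
    have fy := Int.fract_nonneg y
    have fy' := Int.fract_lt_one y
    have ex := Int.self_sub_floor x
    have ey := Int.self_sub_floor y
    rcases (Int.floor_mono hxy).lt_or_eq with h | h
    · have h1 : (⌊x⌋ : ℝ) + 1 ≤ (⌊y⌋ : ℝ) := by exact_mod_cast h
      have h2 := LR_lip fx fx'.le le_rfl
      have h3 := LR_lip le_rfl fy fy'.le
      rw [LR_one, sub_zero] at h2
      rw [LR_zero, zero_sub, abs_neg] at h3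
      have h4 : |gR (Int.fract x) - gR (Int.fract y)| ≤ |gR (Int.fract x)| + |gR (Int.fract y)| := abs_sub _ _
      linarith
    · have h1 : (⌊x⌋ : ℝ) = (⌊y⌋ : ℝ) := by exact_mod_cast h
      have h2 : Int.fract x ≤ Int.fract y := by linarith
      have h3 := LR_lip fx h2 fy'.le
      linarith
  rcases le_total x y with h | h
  · rw [abs_sub_comm x y, abs_of_nonneg (sub_nonneg.2 h)]
    exact key x y h
  · rw [abs_of_nonneg (sub_nonneg.2 h), abs_sub_comm (gR (Int.fract x))]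
    exact key y x h

theorem LR_rr_lip {x y : ℝ} (hx : 1 / 3 ≤ x) (hxy : x ≤ y) : |RR x - RR y| ≤ 15 * (y - x) := by
  have hx0 : 0 < x := by linarith
  have hy0 : 0 < y := by linarith
  have hy : 1 / 3 ≤ y := hx.trans hxy
  have h1 := gR_lip x y
  have h2 := gR_nonneg (Int.fract_nonneg y) (Int.fract_lt_one y).le
  have h3 := gR_le (Int.fract_nonneg y) (Int.fract_lt_one y).le
  rw [abs_sub_comm x y, abs_of_nonneg (sub_nonneg.2 hxy)] at h1
  unfold RR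
  rw [if_neg hx0.ne', if_neg hy0.ne']
  set a := gR (Int.fract x) with ha
  set b := gR (Int.fract y) with hb
  have hix : 1 / x ≤ 3 := by rw [div_le_iff₀ hx0]; linarith
  have hiy : 1 / y ≤ 3 := by rw [div_le_iff₀ hy0]; linarith
  have hix0 : 0 < 1 / x := by positivity
  have hiy0 : 0 < 1 / y := by positivity
  have e1 : 2 * a / x ^ 2 - 2 * b / y ^ 2 =
      2 * (a - b) * (1 / x) ^ 2 + 2 * b * ((y - x) * ((1 / x) * (1 / y) ^ 2 + (1 / x) ^ 2 * (1 / y))) := by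
    field_simp
    ring
  rw [e1]
  have h4 : |2 * (a - b) * (1 / x) ^ 2| ≤ 6 * (y - x) := by
    rw [abs_mul, abs_mul, abs_two, abs_of_nonneg (sq_nonneg (1 / x))]
    have h5 : (1 / x) ^ 2 ≤ 9 := by nlinarith
    have h6 : 0 ≤ |a - b| := abs_nonneg _
    calc 2 * |a - b| * (1 / x) ^ 2 ≤ 2 * |a - b| * 9 := by gcongr
      _ ≤ 6 * (y - x) := by linarith
  have h7 : |2 * b * ((y - x) * ((1 / x) * (1 / y) ^ 2 + (1 / x) ^ 2 * (1 / y)))| ≤ 9 * (y - x) := by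
    have hyx : 0 ≤ y - x := sub_nonneg.2 hxy
    rw [abs_of_nonneg (by positivity)]
    have h8 : (1 / x) * (1 / y) ^ 2 ≤ 27 := by
      calc (1 / x) * (1 / y) ^ 2 ≤ 3 * 3 ^ 2 := by gcongr
        _ = 27 := by norm_num
    have h9 : (1 / x) ^ 2 * (1 / y) ≤ 27 := by
      calc (1 / x) ^ 2 * (1 / y) ≤ 3 ^ 2 * 3 := by gcongr
        _ = 27 := by norm_num
    calc 2 * b * ((y - x) * ((1 / x) * (1 / y) ^ 2 + (1 / x) ^ 2 * (1 / y)))
        ≤ 2 * (1 / 12) * ((y - x) * (27 + 27)) := by gcongr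
      _ = 9 * (y - x) := by ring
  calc _ ≤ _ := abs_add_le _ _
    _ ≤ 15 * (y - x) := by linarith

theorem rr_lip {x y : ℝ} (hx : 0 ≤ x) (hy : 0 ≤ y) : |RR x - RR y| ≤ 20 * |x - y| := by
  have key : ∀ x y : ℝ, 0 ≤ x → x ≤ y → |RR x - RR y| ≤ 20 * (y - x) := by
    intro x y hx hxy
    rcases le_total y (1 / 3) with h | h
    · rw [rr_one hx (hxy.trans h), rr_one (hx.trans hxy) h, sub_self, abs_zero]
      linarith
    · rcases le_total x (1 / 3) with h' | h'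
      · have h1 := LR_rr_lip le_rfl h
        rw [rr_one (by norm_num) le_rfl] at h1
        rw [rr_one hx h']
        linarith
      · have h1 := LR_rr_lip h' hxy
        linarith
  rcases le_total x y with h | h
  · rw [abs_sub_comm x y, abs_of_nonneg (sub_nonneg.2 h)]
    exact key x y hx h
  · rw [abs_of_nonneg (sub_nonneg.2 h), abs_sub_comm (RR x)]
    exact key y x hy h

end SFP
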