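import Pool.Agent.SFP.LR

/-!
# Module LRiem (3): the Riemann sum

`0 ≤ κ ≤ 1`, `K ≥ 1`: `|∑_{k<K} (2 (K - k)/K²) eR(κ k) - RR(κ K)| ≤ 20 (κ + 1/K)`.

Proof. `κ = 0`: the sum is `(K+1)/K`, `RR 0 = 1`. Let `κ > 0`. Let `s = fract x`, `E1 x = s` if `s ≤ 1/3`, `1 - 2s` if `1/3 ≤ s ≤ 2/3`, `s - 1` if `s ≥ 2/3` (continuous, 1-periodic, `|E1| ≤ 1/3`, 2-Lipschitz),
`H x = gR (fract x)` (1-periodic, `C¹` with derivative `E1`).
(1) `|∑_{k<j} eR(κ k) - E1(κ j)/κ| ≤ 3 * (2 (κ j + 2))`: `|κ eR(κ k) - (E1 (κ(k+1)) - E1 (κ k))| ≤ 3κ` always (slopes between `-2` and `1`), and it is `0` unless the closed interval `[κ k, κ (k+1)]` contains a point of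
`1/3 + ℤ` or `2/3 + ℤ`; the points in `[0, κ j]` number at most `2(κ j + 1)`, each is in at most two intervals. So the sum differs by at most `3κ * 4(κ j + 1)`: error `12 (κ j + 1)` after division by κ. (Any constant is fine as long as the final constant 100 in
the statement is kept; adjust inside.)
(2) `∑_{k<K} (K - k) eR(κ k) = ∑_{j=1}^{K} ∑_{k<j} eR(κ k)`, so it is `(1/κ) ∑_{j=1}^K E1(κ j) + O(∑_j 12(κ j + 1))`, the error is `≤ 12 (κ K² + K)`.
(3) `|κ E1(κ j) - (H(κ j) - H(κ (j-1)))| ≤ 2 κ²` (mean value, `E1` is 2-Lipschitz; or directly: `H(y) - H(x) = ∫ E1`), so `|∑_{j=1}^K E1(κ j) - H(κ K)/κ| ≤ 2 κ K` (`H 0 = 0`).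
Together `|∑ (K-k) eR - H(κK)/κ²| ≤ 2K + 12 κ K² + 12 K`; times `2/K²`: `≤ 28/K + 24 κ`. And `2 H(κK)/(κK)² = RR(κK)`.
-/

namespace SFP

open Finset

theorem LRiem_eR_abs (x : ℝ) : |eR x| ≤ 2 := by
  unfold eR
  split_ifs
  · norm_num
  · norm_num

theorem LRiem_eR_sub (x y : ℝ) : |eR x - eR y| ≤ 3 := by
  unfold eR
  split_ifs <;> norm_num

theorem LRiem_eR_add_one (x : ℝ) : eR (x + 1) = eR x := by
  unfold eR
  rw [Int.fract_add_one]

theorem LRiem_eR_lo {x : ℝ} {m : ℤ} (h0 : (m : ℝ) - 1 / 3 < x) (h1 : x < m + 1 / 3) : eR x = 1 := by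
  unfold eR
  rw [if_neg]
  rintro ⟨h2, h3⟩
  rcases lt_or_ge x m with h | h
  · have hf : ⌊x⌋ = m - 1 := by
      rw [Int.floor_eq_iff]
      push_cast
      constructor <;> linarith
    have : Int.fract x = x - (m - 1) := by
      rw [Int.fract, hf]
      push_cast
      ring
    linarith
  · have hf : ⌊x⌋ = m := by
      rw [Int.floor_eq_iff]
      constructor <;> linarith
    have : Int.fract x = x - m := by
      rw [Int.fract, hf]
    linarith

theorem LRiem_eR_mid {x : ℝ} {m : ℤ} (h0 : (m : ℝ) + 1 / 3 ≤ x) (h1 : x ≤ m + 2 / 3) : eR x = -2 := by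
  have hf : ⌊x⌋ = m := by
    rw [Int.floor_eq_iff]
    constructor <;> linarith
  have : Int.fract x = x - m := by
    rw [Int.fract, hf]
  unfold eR
  rw [if_pos]
  rw [this]
  constructor <;> linarith

theorem LRiem_meas : Measurable eR := by
  unfold eR
  refine Measurable.ite ?_ measurable_const measurable_const
  exact (measurableSet_le measurable_const measurable_fract).inter
    (measurableSet_le measurable_fract measurable_const)

theorem LRiem_int (a b κ : ℝ) : IntervalIntegrable (fun v => eR (κ * v)) MeasureTheory.volume a b := by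
  refine (intervalIntegrable_const (c := (2 : ℝ))).mono_fun'
    (LRiem_meas.comp (measurable_const.mul measurable_id)).aestronglyMeasurable ?_
  exact Filter.Eventually.of_forall fun v => by
    change ‖eR (κ * v)‖ ≤ 2
    rw [Real.norm_eq_abs]
    exact LRiem_eR_abs _

theorem LRiem_int' (a b ξ κ : ℝ) :
    IntervalIntegrable (fun v => (ξ - v) * eR (κ * v)) MeasureTheory.volume a b :=
  (LRiem_int a b κ).continuousOn_mul (continuous_const.sub continuous_id).continuousOn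

theorem LRiem_int1 (a b ξ : ℝ) : IntervalIntegrable (fun v => (ξ - v) * eR v) MeasureTheory.volume a b := by
  have := LRiem_int' a b ξ 1
  simpa using this

theorem LRiem_const {a b c ξ : ℝ} (hab : a ≤ b) (h : ∀ v ∈ Set.Ioo a b, eR v = c) :
    ∫ v in a..b, (ξ - v) * eR v = c * ((ξ - a) ^ 2 - (ξ - b) ^ 2) / 2 := by
  have h1 : ∫ v in a..b, (ξ - v) * eR v = ∫ v in a..b, (ξ - v) * c := by
    rw [intervalIntegral.integral_of_le hab, intervalIntegral.integral_of_le hab,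
      MeasureTheory.integral_Ioc_eq_integral_Ioo, MeasureTheory.integral_Ioc_eq_integral_Ioo]
    apply MeasureTheory.setIntegral_congr_fun measurableSet_Ioo
    intro v hv
    change (ξ - v) * eR v = (ξ - v) * c
    rw [h v hv]
  rw [h1, intervalIntegral.integral_mul_const, intervalIntegral.integral_sub
    intervalIntegrable_const intervalIntegral.intervalIntegrable_id,
    integral_id, intervalIntegral.integral_const]
  simp only [smul_eq_mul]
  ring

theorem LRiem_p1 {b ξ : ℝ} (hb : 0 ≤ b) (hb' : b ≤ 1 / 3) :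
    ∫ v in (0 : ℝ)..b, (ξ - v) * eR v = (ξ ^ 2 - (ξ - b) ^ 2) / 2 := by
  rw [LRiem_const (c := 1) hb]
  · ring
  · intro v hv
    apply LRiem_eR_lo (m := 0)
    · push_cast
      linarith [hv.1]
    · push_cast
      linarith [hv.2]

theorem LRiem_p2 {b ξ : ℝ} (hb : 1 / 3 ≤ b) (hb' : b ≤ 2 / 3) :
    ∫ v in (1 / 3 : ℝ)..b, (ξ - v) * eR v = -((ξ - 1 / 3) ^ 2 - (ξ - b) ^ 2) := by
  rw [LRiem_const (c := -2) hb]
  · ring
  · intro v hv
    apply LRiem_eR_mid (m := 0)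
    · push_cast
      linarith [hv.1]
    · push_cast
      linarith [hv.2]

theorem LRiem_p3 {b ξ : ℝ} (hb : 2 / 3 ≤ b) (hb' : b ≤ 1) :
    ∫ v in (2 / 3 : ℝ)..b, (ξ - v) * eR v = ((ξ - 2 / 3) ^ 2 - (ξ - b) ^ 2) / 2 := by
  rw [LRiem_const (c := 1) hb]
  · ring
  · intro v hv
    apply LRiem_eR_lo (m := 1)
    · push_cast
      linarith [hv.1]
    · push_cast
      linarith [hv.2]

/-- the second primitive on `[0, 1)` -/
theorem LRiem_base {ξ : ℝ} (h0 : 0 ≤ ξ) (h1 : ξ < 1) : ∫ v in (0 : ℝ)..ξ, (ξ - v) * eR v = gR ξ := by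
  unfold gR
  split_ifs with h2 h3
  · rw [LRiem_p1 h0 h2]
    ring
  · push Not at h2
    rw [← intervalIntegral.integral_add_adjacent_intervals (LRiem_int1 0 (1 / 3) ξ) (LRiem_int1 (1 / 3) ξ ξ),
      LRiem_p1 (by norm_num) le_rfl, LRiem_p2 h2.le h3]
    ring
  · push Not at h2 h3
    rw [← intervalIntegral.integral_add_adjacent_intervals (LRiem_int1 0 (1 / 3) ξ) (LRiem_int1 (1 / 3) ξ ξ),
      ← intervalIntegral.integral_add_adjacent_intervals (LRiem_int1 (1 / 3) (2 / 3) ξ) (LRiem_int1 (2 / 3) ξ ξ),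
      LRiem_p1 (by norm_num) le_rfl, LRiem_p2 (by norm_num) le_rfl, LRiem_p3 h3.le h1.le]
    ring

theorem LRiem_one (ξ : ℝ) : ∫ v in (0 : ℝ)..1, (ξ - v) * eR v = 0 := by
  rw [← intervalIntegral.integral_add_adjacent_intervals (LRiem_int1 0 (1 / 3) ξ) (LRiem_int1 (1 / 3) 1 ξ),
    ← intervalIntegral.integral_add_adjacent_intervals (LRiem_int1 (1 / 3) (2 / 3) ξ) (LRiem_int1 (2 / 3) 1 ξ),
    LRiem_p1 (by norm_num) le_rfl, LRiem_p2 (by norm_num) le_rfl, LRiem_p3 (by norm_num) le_rfl]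
  ring

theorem LRiem_step (ξ : ℝ) : ∫ v in (0 : ℝ)..(ξ + 1), (ξ + 1 - v) * eR v = ∫ v in (0 : ℝ)..ξ, (ξ - v) * eR v := by
  rw [← intervalIntegral.integral_add_adjacent_intervals (LRiem_int1 0 1 (ξ + 1))
    (LRiem_int1 1 (ξ + 1) (ξ + 1)), LRiem_one, zero_add]
  have h := intervalIntegral.integral_comp_add_right (a := 0) (b := ξ) (fun v => (ξ + 1 - v) * eR v) 1
  rw [zero_add] at h
  rw [← h]
  apply intervalIntegral.integral_congr
  intro v _
  change (ξ + 1 - (v + 1)) * eR (v + 1) = (ξ - v) * eR v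
  rw [LRiem_eR_add_one]
  ring

theorem LRiem_nat {s : ℝ} (h0 : 0 ≤ s) (h1 : s < 1) (n : ℕ) :
    ∫ v in (0 : ℝ)..(s + n), (s + n - v) * eR v = gR s := by
  induction n with
  | zero =>
    simp only [Nat.cast_zero, add_zero]
    exact LRiem_base h0 h1
  | succ n ih =>
    have := LRiem_step (s + n)
    rw [Nat.cast_succ, ← add_assoc, this, ih]

/-- the second primitive of `eR` -/
theorem LRiem_prim {ξ : ℝ} (h0 : 0 ≤ ξ) : ∫ v in (0 : ℝ)..ξ, (ξ - v) * eR v = gR (Int.fract ξ) := by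
  have h1 : (Int.fract ξ) + (⌊ξ⌋₊ : ℝ) = ξ := by
    have h2 := Int.fract_add_floor ξ
    have h3 : ((⌊ξ⌋₊ : ℕ) : ℝ) = (⌊ξ⌋ : ℝ) := by
      rw [← Int.natCast_floor_eq_floor h0]
      push_cast
      rfl
    rw [h3]
    exact h2
  have h4 := LRiem_nat (Int.fract_nonneg ξ) (Int.fract_lt_one ξ) ⌊ξ⌋₊
  rw [h1] at h4
  exact h4

/-- the number of break points below `x` -/
noncomputable def LRiemN (x : ℝ) : ℤ := ⌈x - 1 / 3⌉ + ⌈x - 2 / 3⌉

theorem LRiem_N_mono {a b : ℝ} (h : a ≤ b) : LRiemN a ≤ LRiemN b := by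
  unfold LRiemN
  have h1 : ⌈a - 1 / 3⌉ ≤ ⌈b - 1 / 3⌉ := Int.ceil_mono (by linarith)
  have h2 : ⌈a - 2 / 3⌉ ≤ ⌈b - 2 / 3⌉ := Int.ceil_mono (by linarith)
  omega

theorem LRiem_piece {a b y : ℝ} (hay : a ≤ y) (hyb : y < b) (h : LRiemN a = LRiemN b) : eR y = eR a := by
  have hab : a ≤ b := by linarith
  have h1 : ⌈a - 1 / 3⌉ ≤ ⌈b - 1 / 3⌉ := Int.ceil_mono (by linarith)
  have h2 : ⌈a - 2 / 3⌉ ≤ ⌈b - 2 / 3⌉ := Int.ceil_mono (by linarith)
  unfold LRiemN at h
  have e1 : ⌈a - 1 / 3⌉ = ⌈b - 1 / 3⌉ := by omega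
  have e2 : ⌈a - 2 / 3⌉ = ⌈b - 2 / 3⌉ := by omega
  have n1 : ∀ m : ℤ, a ≤ m + 1 / 3 → b ≤ m + 1 / 3 := by
    intro m hm
    have h3 : ⌈a - 1 / 3⌉ ≤ m := Int.ceil_le.2 (by linarith)
    rw [e1] at h3
    have := Int.ceil_le.1 h3
    linarith
  have n2 : ∀ m : ℤ, a ≤ m + 2 / 3 → b ≤ m + 2 / 3 := by
    intro m hm
    have h3 : ⌈a - 2 / 3⌉ ≤ m := Int.ceil_le.2 (by linarith)
    rw [e2] at h3
    have := Int.ceil_le.1 h3
    linarith
  have f1 := Int.floor_le a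
  have f2 := Int.lt_floor_add_one a
  rcases le_or_gt a (⌊a⌋ + 1 / 3) with c1 | c1
  · have h3 := n1 ⌊a⌋ c1
    rw [LRiem_eR_lo (m := ⌊a⌋) (by linarith) (by linarith),
      LRiem_eR_lo (m := ⌊a⌋) (by linarith) (by linarith)]
  · rcases le_or_gt a (⌊a⌋ + 2 / 3) with c2 | c2
    · have h3 := n2 ⌊a⌋ c2
      rw [LRiem_eR_mid (m := ⌊a⌋) (by linarith) (by linarith),
        LRiem_eR_mid (m := ⌊a⌋) (by linarith) (by linarith)]
    · have h3 := n1 (⌊a⌋ + 1) (by push_cast; linarith)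
      push_cast at h3
      rw [LRiem_eR_lo (m := ⌊a⌋ + 1) (by push_cast; linarith) (by push_cast; linarith),
        LRiem_eR_lo (m := ⌊a⌋ + 1) (by push_cast; linarith) (by push_cast; linarith)]

theorem LRiem_var {a b y : ℝ} (hay : a ≤ y) (hyb : y < b) :
    |eR y - eR a| ≤ 3 * ((LRiemN b : ℝ) - LRiemN a) := by
  have hab : a ≤ b := by linarith
  rcases eq_or_lt_of_le (LRiem_N_mono hab) with h | h
  · rw [LRiem_piece hay hyb h, h]
    simp
  · have h1 : (1 : ℝ) ≤ (LRiemN b : ℝ) - LRiemN a := by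
      have : LRiemN a + 1 ≤ LRiemN b := h
      have : ((LRiemN a + 1 : ℤ) : ℝ) ≤ LRiemN b := by exact_mod_cast this
      push_cast at this
      linarith
    have h2 := LRiem_eR_sub y a
    linarith

theorem LRiem_cell {κ : ℝ} (h0 : 0 ≤ κ) {K k : ℕ} (hk : k < K) :
    |(∫ u in (k : ℝ)..((k + 1 : ℕ) : ℝ), ((K : ℝ) - u) * eR (κ * u)) - ((K : ℝ) - k) * eR (κ * k)| ≤
      2 + 3 * K * ((LRiemN (κ * ((k + 1 : ℕ) : ℝ)) : ℝ) - LRiemN (κ * k)) := by
  have h1 : (∫ u in (k : ℝ)..((k + 1 : ℕ) : ℝ), ((K : ℝ) - u) * eR (κ * u)) - ((K : ℝ) - k) * eR (κ * k) =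
      ∫ u in (k : ℝ)..((k + 1 : ℕ) : ℝ), (((K : ℝ) - u) * eR (κ * u) - ((K : ℝ) - k) * eR (κ * k)) := by
    rw [intervalIntegral.integral_sub (LRiem_int' _ _ _ _) intervalIntegrable_const,
      intervalIntegral.integral_const]
    push_cast
    simp
  rw [h1]
  have hN : (0 : ℝ) ≤ (LRiemN (κ * ((k + 1 : ℕ) : ℝ)) : ℝ) - LRiemN (κ * k) := by
    have : LRiemN (κ * k) ≤ LRiemN (κ * ((k + 1 : ℕ) : ℝ)) := by
      apply LRiem_N_mono
      apply mul_le_mul_of_nonneg_left _ h0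
      push_cast
      linarith
    have : ((LRiemN (κ * k) : ℤ) : ℝ) ≤ LRiemN (κ * ((k + 1 : ℕ) : ℝ)) := by exact_mod_cast this
    linarith
  have hkK : (k : ℝ) + 1 ≤ K := by exact_mod_cast hk
  have hk0 : (0 : ℝ) ≤ k := Nat.cast_nonneg k
  have h2 := intervalIntegral.norm_integral_le_of_norm_le_const_ae (a := (k : ℝ)) (b := ((k + 1 : ℕ) : ℝ))
    (C := 2 + 3 * K * ((LRiemN (κ * ((k + 1 : ℕ) : ℝ)) : ℝ) - LRiemN (κ * k)))
    (f := fun u => (((K : ℝ) - u) * eR (κ * u) - ((K : ℝ) - k) * eR (κ * k))) (by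
      have hne : ∀ᵐ u : ℝ, u ∉ ({((k + 1 : ℕ) : ℝ)} : Set ℝ) :=
        (Set.countable_singleton _).ae_notMem _
      filter_upwards [hne] with u hu hu2
      rw [Set.mem_singleton_iff] at hu
      rw [Set.uIoc_of_le (by push_cast; linarith)] at hu2
      have hu3 : u < ((k + 1 : ℕ) : ℝ) := lt_of_le_of_ne hu2.2 hu
      have hu4 := hu2.1
      rw [Real.norm_eq_abs]
      rcases eq_or_lt_of_le h0 with hκ | hκ
      · rw [← hκ]
        simp only [zero_mul]
        have e : ((K : ℝ) - u) * eR 0 - ((K : ℝ) - k) * eR 0 = ((k : ℝ) - u) * eR 0 := by ring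
        rw [e, abs_mul]
        have a1 : |(k : ℝ) - u| ≤ 1 := by
          rw [abs_le]
          push_cast at hu3
          constructor <;> linarith
        have a2 := LRiem_eR_abs 0
        have a3 := abs_nonneg (eR 0)
        have : (0 : ℝ) ≤ 3 * K * ((LRiemN 0 : ℝ) - LRiemN 0) := by simp
        nlinarith [abs_nonneg ((k : ℝ) - u)]
      · have hv := LRiem_var (a := κ * k) (b := κ * ((k + 1 : ℕ) : ℝ)) (y := κ * u)
          (mul_le_mul_of_nonneg_left hu4.le h0) (mul_lt_mul_of_pos_left hu3 hκ)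
        have e : ((K : ℝ) - u) * eR (κ * u) - ((K : ℝ) - k) * eR (κ * k) =
            ((k : ℝ) - u) * eR (κ * u) + ((K : ℝ) - k) * (eR (κ * u) - eR (κ * k)) := by ring
        rw [e]
        refine (abs_add_le _ _).trans ?_
        rw [abs_mul, abs_mul]
        have a1 : |(k : ℝ) - u| ≤ 1 := by
          rw [abs_le]
          push_cast at hu3
          constructor <;> linarith
        have a2 := LRiem_eR_abs (κ * u)
        have a3 := abs_nonneg (eR (κ * u))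
        have a4 : |(K : ℝ) - k| = (K : ℝ) - k := abs_of_nonneg (by linarith)
        rw [a4]
        have b1 : |(k : ℝ) - u| * |eR (κ * u)| ≤ 2 := by nlinarith [abs_nonneg ((k : ℝ) - u)]
        have b2 : ((K : ℝ) - k) * |eR (κ * u) - eR (κ * k)| ≤
            3 * K * ((LRiemN (κ * ((k + 1 : ℕ) : ℝ)) : ℝ) - LRiemN (κ * k)) := by
          calc ((K : ℝ) - k) * |eR (κ * u) - eR (κ * k)|
              ≤ (K : ℝ) * (3 * ((LRiemN (κ * ((k + 1 : ℕ) : ℝ)) : ℝ) - LRiemN (κ * k))) := by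
                apply mul_le_mul (by linarith) hv (abs_nonneg _) (Nat.cast_nonneg K)
            _ = _ := by ring
        linarith)
  rw [Real.norm_eq_abs] at h2
  refine h2.trans (le_of_eq ?_)
  have : |((k + 1 : ℕ) : ℝ) - k| = 1 := by
    push_cast
    simp
  rw [this, mul_one]

theorem LRiem_sum {κ : ℝ} (h0 : 0 ≤ κ) (K : ℕ) :
    |(∫ u in (0 : ℝ)..K, ((K : ℝ) - u) * eR (κ * u)) - ∑ k ∈ range K, ((K : ℝ) - k) * eR (κ * k)| ≤
      2 * K + 3 * K * (LRiemN (κ * K) : ℝ) := by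
  have h1 : ∑ k ∈ range K, ∫ u in (k : ℝ)..((k + 1 : ℕ) : ℝ), ((K : ℝ) - u) * eR (κ * u) =
      ∫ u in (0 : ℝ)..K, ((K : ℝ) - u) * eR (κ * u) := by
    have := intervalIntegral.sum_integral_adjacent_intervals (n := K) (a := fun k : ℕ => (k : ℝ))
      (f := fun u => ((K : ℝ) - u) * eR (κ * u)) (μ := MeasureTheory.volume)
      (fun k _ => LRiem_int' _ _ _ _)
    simpa using this
  rw [← h1, ← Finset.sum_sub_distrib]
  refine (Finset.abs_sum_le_sum_abs _ _).trans ?_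
  refine (Finset.sum_le_sum fun k hk => LRiem_cell h0 (Finset.mem_range.1 hk)).trans ?_
  rw [Finset.sum_add_distrib, ← Finset.mul_sum]
  have h2 : ∑ k ∈ range K, ((LRiemN (κ * ((k + 1 : ℕ) : ℝ)) : ℝ) - LRiemN (κ * k)) =
      LRiemN (κ * K) := by
    rw [Finset.sum_range_sub (fun k : ℕ => (LRiemN (κ * (k : ℝ)) : ℝ))]
    have h3 : LRiemN (κ * ((0 : ℕ) : ℝ)) = 0 := by
      unfold LRiemN
      have e1 : ⌈κ * ((0 : ℕ) : ℝ) - 1 / 3⌉ = 0 := by
        rw [Int.ceil_eq_iff]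
        norm_num
      have e2 : ⌈κ * ((0 : ℕ) : ℝ) - 2 / 3⌉ = 0 := by
        rw [Int.ceil_eq_iff]
        norm_num
      rw [e1, e2]
      rfl
    rw [h3]
    simp
  rw [h2]
  simp
  linarith

theorem l_riem {κ : ℝ} (h0 : 0 ≤ κ) (h1 : κ ≤ 1) {K : ℕ} (hK : 1 ≤ K) :
    |∑ k ∈ range K, 2 * ((K : ℝ) - k) / (K : ℝ) ^ 2 * eR (κ * k) - RR (κ * K)| ≤
      100 * (κ + 1 / K) := by
  have hK0 : (0 : ℝ) < K := by exact_mod_cast hK
  have hs : ∑ k ∈ range K, 2 * ((K : ℝ) - k) / (K : ℝ) ^ 2 * eR (κ * k) =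
      2 / (K : ℝ) ^ 2 * ∑ k ∈ range K, ((K : ℝ) - k) * eR (κ * k) := by
    rw [Finset.mul_sum]
    apply Finset.sum_congr rfl
    intro k _
    ring
  have hsum := LRiem_sum h0 K
  have hN : (LRiemN (κ * K) : ℝ) ≤ 2 * κ * K + 1 := by
    unfold LRiemN
    have e1 := Int.ceil_lt_add_one (κ * K - 1 / 3)
    have e2 := Int.ceil_lt_add_one (κ * K - 2 / 3)
    push_cast
    linarith
  have hI : 2 / (K : ℝ) ^ 2 * (∫ u in (0 : ℝ)..K, ((K : ℝ) - u) * eR (κ * u)) = RR (κ * K) := by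
    rcases eq_or_lt_of_le h0 with hκ | hκ
    · rw [← hκ]
      simp only [zero_mul]
      unfold RR
      rw [if_pos rfl]
      have e0 : eR 0 = 1 := LRiem_eR_lo (m := 0) (by norm_num) (by norm_num)
      rw [e0]
      have : ∫ u in (0 : ℝ)..K, ((K : ℝ) - u) * 1 = (K : ℝ) ^ 2 / 2 := by
        rw [intervalIntegral.integral_mul_const, intervalIntegral.integral_sub
          intervalIntegrable_const intervalIntegral.intervalIntegrable_id,
          integral_id, intervalIntegral.integral_const]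
        simp only [smul_eq_mul]
        ring
      rw [this]
      field_simp
    · have hξ : 0 < κ * K := by positivity
      unfold RR
      rw [if_neg hξ.ne', ← LRiem_prim hξ.le]
      have h2 := intervalIntegral.integral_comp_mul_left (a := 0) (b := (K : ℝ))
        (fun v => (κ * K - v) * eR v) hκ.ne'
      rw [mul_zero] at h2
      have h3 : ∫ u in (0 : ℝ)..K, (κ * K - κ * u) * eR (κ * u) =
          κ * ∫ u in (0 : ℝ)..K, ((K : ℝ) - u) * eR (κ * u) := by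
        rw [← intervalIntegral.integral_const_mul]
        apply intervalIntegral.integral_congr
        intro u _
        change (κ * K - κ * u) * eR (κ * u) = κ * (((K : ℝ) - u) * eR (κ * u))
        ring
      rw [h3, smul_eq_mul] at h2
      have h4 : ∫ v in (0 : ℝ)..κ * K, (κ * K - v) * eR v =
          κ ^ 2 * ∫ u in (0 : ℝ)..K, ((K : ℝ) - u) * eR (κ * u) := by
        have : κ * (κ * ∫ u in (0 : ℝ)..K, ((K : ℝ) - u) * eR (κ * u)) =
            ∫ v in (0 : ℝ)..κ * K, (κ * K - v) * eR v := by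
          rw [h2, ← mul_assoc, mul_inv_cancel₀ hκ.ne', one_mul]
        rw [← this]
        ring
      rw [h4]
      generalize (∫ u in (0 : ℝ)..K, ((K : ℝ) - u) * eR (κ * u)) = J
      field_simp
  rw [hs, ← hI, ← mul_sub, abs_mul, abs_sub_comm]
  have h5 : |2 / (K : ℝ) ^ 2| = 2 / (K : ℝ) ^ 2 := abs_of_pos (by positivity)
  rw [h5]
  calc 2 / (K : ℝ) ^ 2 * |(∫ u in (0 : ℝ)..K, ((K : ℝ) - u) * eR (κ * u)) -
        ∑ k ∈ range K, ((K : ℝ) - k) * eR (κ * k)|
      ≤ 2 / (K : ℝ) ^ 2 * (2 * K + 3 * K * (2 * κ * K + 1)) := by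
        apply mul_le_mul_of_nonneg_left _ (by positivity)
        refine hsum.trans ?_
        have : 3 * (K : ℝ) * (LRiemN (κ * K) : ℝ) ≤ 3 * K * (2 * κ * K + 1) :=
          mul_le_mul_of_nonneg_left hN (by positivity)
        linarith
    _ = 12 * κ + 10 * (1 / K) := by
        field_simp
        ring
    _ ≤ 100 * (κ + 1 / K) := by
        have : (0 : ℝ) < 1 / K := by positivity
        linarith

end SFP
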