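import Pool.Agent.SFP.LRiem
import Pool.Agent.SFP.LCnt
import Pool.Agent.SFP.LPair
import Pool.Agent.SFP.LBlk

/-!
# Module LSmall (4): the last level, small denominators

First `θ ≥ 0` (theorem `l_small_pos`), then `l_small`: for `θ < 0` replace `β = u/t + θ` by `-β = (t u' ...)`: `nd (β y) = nd (-β y)`, `-β = (t - u % t)/t + |θ| - integer`, coprime again; `chi t` and `t |θ| L` do not change.

`θ ≥ 0`. `κ = t² θ ≤ ε`, `Y' = Y + κ/t ≤ 1/6`, `K = ⌈L/t⌉` (`(L + t - 1)/t`), `1/K ≤ t/L ≤ ε`. `ξ = t θ L`; `κ (K-1) ≤ ξ ≤ κ K` (`t(K-1) < L ≤ tK`), `|RR(κK) - RR ξ| ≤ 20 κ ≤ 20 ε`. For `y ∈ S'`, `k = y/t`, `v = u y % t`: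
`(u/t + θ) y = (v + tθ y)/t + integer`, `tθy ∈ [κ k, κ(k+1)]`, so `‖(v + κ k)/t‖ ≥ 1/3 - Y - κ/t = 1/3 - Y'` (`nd_lip`). By `l_blk_res` `#(S' ∩ block k) ≤ Nv t (κ k) Y'`. Write `ω_k = 2(K-k)/K²`, `∑ ω_k = 1 + 1/K ≤ 1 + ε`.
(i) `t Y' ≥ 1/6`: `l_c1`: `Nv ≤ t/3 + 2tY' + 1 ≤ t (1/3 + 8Y')`. `l_blk`: `3∑w - 1 ≤ 3(1+ε)²(1/3 + 8Y') - 1 ≤ 25 Y' + 4ε`, and `-(chi/t) RR ≥ -1/t ≥ -6Y'`. So `≤ -(chi/t)RR + 31Y' + 4ε ≤ .. + 31 Y + 35 ε`.
(ii) `t Y' < 1/6`, `ξ ≤ 1/6`: `κ k ≤ κ(K-1) ≤ ξ ≤ 1/6`, `RR ξ = 1`. If `3 ∤ t`: `l_c2`: `3∑w - 1 ≤ (1+ε)²(1 - chi/t) - 1 ≤ -chi/t + 6ε`. If `t = 3k₀`: by `l_c2'` all `y ∈ S'` have `v ∈ [k₀, 2k₀]`; those with `v = k₀` or `2k₀` contribute `≤ 1/t + 4ε` to `∑w` (`l_pair`; `2/L ≤ 2ε`, `2T/L ≤ 2ε`;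
note `1 ≤ t ≤ ε L`), the others: blocks with `≤ k₀ - 1` elements: `≤ (1+ε)²(k₀-1)/t`. Sum `≤ 1/3 + 8ε`, `chi t = 0`.
(iii) `t Y' < 1/6 < ξ`: `κ > 0`. `l_c3` and `l_blk`: `3∑w - 1 ≤ 3(1+ε)(1/t)[∑ω_k (t - chi eR(κk))/3 + ∑ω_k (i1 + i2)] - 1`. `∑ω_k eR(κ k)` is `RR(κK) + O(100·2ε)`. `ω_k ≤ 2/K`, `l_cnt_int` with `w = tY'`: `#{i1} ≤ (κK + w + 2)(w/κ + 1)`;
`(2/K)(κK + 13/6)(tY'/κ + 1) = 2 tY' + (13/3) tY'/(κK) + 2κ + 13/(3K) ≤ (2 + 26) tY' + 7ε` (`κK ≥ ξ ≥ 1/6`). Two of them: `56 tY' + 14ε`; times `3(1+ε)/t`: `≤ 169 Y' + 43ε`. Main term: `(1+ε)(1 + ε - (chi/t)∑ω eR) - 1 ≤ -(chi/t) RR ξ + 300ε` or so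
(`|∑ω eR| ≤ 2(1+ε)`). Total `≤ -(chi/t)RR ξ + 169 (Y + ε) + 400 ε`.
-/

namespace SFP

open Finset

theorem LSmall_res {t u y : ℕ} (ht : 1 ≤ t) {θ Y : ℝ} (hθ : 0 ≤ θ)
    (h : 1 / 3 - Y ≤ nd (((u : ℝ) / t + θ) * y)) :
    1 / 3 - (Y + (t : ℝ) ^ 2 * θ / t) ≤
      nd ((((u * y % t : ℕ) : ℝ) + (t : ℝ) ^ 2 * θ * ((y / t : ℕ) : ℝ)) / t) := by
  have htr : (0 : ℝ) < t := by exact_mod_cast ht
  have h1 : ((u * y : ℕ) : ℝ) = ((t * (u * y / t) + u * y % t : ℕ) : ℝ) := by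
    exact_mod_cast (Nat.div_add_mod _ _).symm
  have h2 : (y : ℝ) = ((t * (y / t) + y % t : ℕ) : ℝ) := by
    exact_mod_cast (Nat.div_add_mod _ _).symm
  have hr : ((y % t : ℕ) : ℝ) ≤ t := by exact_mod_cast (Nat.mod_lt y ht).le
  have hr0 : (0 : ℝ) ≤ ((y % t : ℕ) : ℝ) := Nat.cast_nonneg _
  push_cast at h1 h2
  set q : ℕ := u * y / t
  set v : ℕ := u * y % t
  set k : ℕ := y / t
  set r : ℕ := y % t
  have e : ((u : ℝ) / t + θ) * y = (((v : ℝ) + (t : ℝ) ^ 2 * θ * k) / t + θ * r) + ((q : ℤ) : ℝ) := by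
    have e1 : ((u : ℝ) / t + θ) * y = ((u : ℝ) * y) / t + θ * y := by ring
    rw [e1, h1]
    have e2 : θ * (y : ℝ) = θ * (t * k + r) := by rw [← h2]
    rw [e2]
    push_cast
    field_simp
    ring
  rw [e, nd_add_int] at h
  have h3 := nd_lip (((v : ℝ) + (t : ℝ) ^ 2 * θ * k) / t + θ * r) (((v : ℝ) + (t : ℝ) ^ 2 * θ * k) / t)
  rw [add_sub_cancel_left, abs_of_nonneg (mul_nonneg hθ hr0)] at h3
  have h4 : θ * (r : ℝ) ≤ (t : ℝ) ^ 2 * θ / t := by
    have e3 : (t : ℝ) ^ 2 * θ / t = θ * t := by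
      field_simp
    rw [e3]
    exact mul_le_mul_of_nonneg_left hr hθ
  linarith

/-- blocks with a constant bound -/
theorem LSmall_const {L t K : ℕ} {ε C : ℝ} (hL : 1 ≤ L) (ht : 1 ≤ t) (hK1 : L ≤ t * K) (hK2 : t * K < L + t)
    (hKp : 1 ≤ K) (hε : 0 < ε) (hε1 : ε ≤ 1 / 1000) (htL : (t : ℝ) / L ≤ ε) (hKε : 1 / (K : ℝ) ≤ ε)
    (S' : Finset ℕ) (hS : ∀ y ∈ S', y < L) (hC : 0 ≤ C)
    (hN : ∀ k < K, ((S'.filter (fun y => y / t = k)).card : ℝ) ≤ C) :
    ∑ y ∈ S', 2 * ((L : ℝ) - y) / (L : ℝ) ^ 2 ≤ (1 + 3 * ε) * (C / t) := by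
  have htr : (0 : ℝ) < t := by exact_mod_cast ht
  have h := l_blk hL ht hK1 hK2 S' hS (fun _ => C) hN
  rw [← Finset.sum_mul, l_blk_sum hKp] at h
  refine h.trans ?_
  have hCt : 0 ≤ C / t := div_nonneg hC htr.le
  have e : (1 + (t : ℝ) / L) * (1 / (t : ℝ) * ((1 + 1 / (K : ℝ)) * C)) =
      ((1 + (t : ℝ) / L) * (1 + 1 / (K : ℝ))) * (C / t) := by
    field_simp
  rw [e]
  refine mul_le_mul_of_nonneg_right ?_ hCt
  have h1 : (1 + (t : ℝ) / L) * (1 + 1 / (K : ℝ)) ≤ (1 + ε) * (1 + ε) :=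
    mul_le_mul (by linarith) (by linarith) (by positivity) (by linarith)
  have h2 : ε * ε ≤ ε * 1 := mul_le_mul_of_nonneg_left (by linarith) hε.le
  linarith

theorem LSmall_chi (t : ℕ) : |chi t| ≤ 1 := by
  unfold chi
  split_ifs <;> simp

/-- case (iii) : the number of exceptional blocks -/
theorem LSmall_B {K : ℕ} (hKp : 1 ≤ K) {κ w c ε : ℝ} (hκ : 0 < κ) (hw : 0 ≤ w) (hw1 : w ≤ 1 / 6)
    (hX : 1 / 6 ≤ κ * K) (hκε : κ ≤ ε) (hKε : 1 / (K : ℝ) ≤ ε) (P : ℕ → Prop) [DecidablePred P]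
    (hP : ∀ k, P k → ∃ v : ℤ, c ≤ v + κ * k ∧ v + κ * k ≤ c + w) :
    ∑ k ∈ range K, 2 * ((K : ℝ) - k) / (K : ℝ) ^ 2 * (if P k then (1 : ℝ) else 0) ≤ 28 * w + 7 * ε := by
  have hK0 : (0 : ℝ) < K := by exact_mod_cast hKp
  have h1 : ∑ k ∈ range K, 2 * ((K : ℝ) - k) / (K : ℝ) ^ 2 * (if P k then (1 : ℝ) else 0) ≤
      ∑ k ∈ range K, 2 / (K : ℝ) * (if P k then (1 : ℝ) else 0) := by
    refine Finset.sum_le_sum fun k _ => ?_
    refine mul_le_mul_of_nonneg_right ?_ (by split_ifs <;> norm_num)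
    rw [div_le_div_iff₀ (by positivity) hK0]
    have : (0 : ℝ) ≤ k := Nat.cast_nonneg k
    nlinarith [mul_nonneg this hK0.le]
  have h2 : ∑ k ∈ range K, 2 / (K : ℝ) * (if P k then (1 : ℝ) else 0) =
      2 / (K : ℝ) * (((range K).filter P).card : ℝ) := by
    rw [← Finset.mul_sum, Finset.sum_boole]
  have h3 := l_cnt_int hκ hw (K := K) P hP
  have h4 : 2 / (K : ℝ) * (((range K).filter P).card : ℝ) ≤
      2 / (K : ℝ) * ((κ * K + w + 2) * (w / κ + 1)) := mul_le_mul_of_nonneg_left h3 (by positivity)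
  have h5 : 2 / (K : ℝ) * ((κ * K + w + 2) * (w / κ + 1)) =
      2 * w * (1 + (w + 2) / (κ * K)) + 2 * κ + 2 * (w + 2) * (1 / (K : ℝ)) := by
    field_simp
    ring
  have hXp : 0 < κ * K := by positivity
  have h6 : (w + 2) / (κ * K) ≤ 13 := by
    rw [div_le_iff₀ hXp]
    nlinarith
  have h7 : 2 * w * (1 + (w + 2) / (κ * K)) ≤ 2 * w * 14 :=
    mul_le_mul_of_nonneg_left (by linarith) (by positivity)
  have h8 : 2 * (w + 2) * (1 / (K : ℝ)) ≤ 2 * (1 / 6 + 2) * ε := by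
    refine mul_le_mul (by linarith) hKε (by positivity) (by norm_num)
  have hε0 : 0 ≤ ε := le_trans (by positivity) hKε
  linarith

theorem l_small_pos {L t u : ℕ} {T ε Y θ : ℝ} (S' : Finset ℕ) (hS : ∀ y ∈ S', 1 ≤ y ∧ y < L)
    (hR : RSF S' T) (hL : 1 ≤ L) (ht : 1 ≤ t) (hu : Nat.Coprime u t) (hε : 0 < ε) (hε1 : ε ≤ 1 / 1000)
    (hT0 : 0 ≤ T) (h1 : (t : ℝ) ≤ ε * L) (hθ : 0 ≤ θ) (h2 : (t : ℝ) ^ 2 * θ ≤ ε) (h3 : T ≤ ε * L)
    (hY0 : 0 ≤ Y) (hY1 : Y ≤ 1 / 12) (hnd : ∀ y ∈ S', 1 / 3 - Y ≤ nd (((u : ℝ) / t + θ) * y)) :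
    3 * (∑ y ∈ S', 2 * ((L : ℝ) - y) / (L : ℝ) ^ 2) - 1 ≤
      -(chi t / t * RR (t * θ * L)) + 200 * Y + 1000 * ε := by
  classical
  have htr : (0 : ℝ) < t := by exact_mod_cast ht
  have ht1 : (1 : ℝ) ≤ t := by exact_mod_cast ht
  have hLr : (0 : ℝ) < L := by exact_mod_cast hL
  set κ : ℝ := (t : ℝ) ^ 2 * θ with hκ_def
  have hκ0 : 0 ≤ κ := by positivity
  set Y' : ℝ := Y + κ / t with hY'_def
  have hκt : κ / t ≤ κ := div_le_self hκ0 ht1
  have hκt0 : 0 ≤ κ / t := by positivity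
  have hY'0 : 0 ≤ Y' := by linarith
  have hY'ε : Y' ≤ Y + ε := by linarith
  have hY'1 : Y' ≤ 1 / 6 := by linarith
  obtain ⟨K, hK_def⟩ : ∃ K, K = (L + t - 1) / t := ⟨_, rfl⟩
  have hKd := Nat.div_add_mod (L + t - 1) t
  have hKm := Nat.mod_lt (L + t - 1) ht
  rw [← hK_def] at hKd
  have hK1 : L ≤ t * K := by omega
  have hK2 : t * K < L + t := by omega
  have hKp : 1 ≤ K := by
    rcases Nat.eq_zero_or_pos K with h | h
    · rw [h, mul_zero] at hK1
      omega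
    · exact h
  have hKr : (0 : ℝ) < K := by exact_mod_cast hKp
  have hK1r : (L : ℝ) ≤ t * K := by exact_mod_cast hK1
  have hK2r : (t : ℝ) * K < L + t := by exact_mod_cast hK2
  have htL : (t : ℝ) / L ≤ ε := by
    rw [div_le_iff₀ hLr]
    exact h1
  have hKε : 1 / (K : ℝ) ≤ ε := by
    refine le_trans ?_ htL
    rw [div_le_div_iff₀ hKr hLr]
    linarith
  have hSL : ∀ y ∈ S', y < L := fun y hy => (hS y hy).2
  have hres : ∀ y ∈ S', 1 / 3 - Y' ≤ nd ((((u * y % t : ℕ) : ℝ) + κ * ((y / t : ℕ) : ℝ)) / t) :=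
    fun y hy => LSmall_res ht hθ (hnd y hy)
  have hblk : ∀ k : ℕ, ((S'.filter (fun y => y / t = k)).card : ℝ) ≤ Nv t (κ * k) Y' := by
    intro k
    have := l_blk_res ht hu S' k (fun v : ℕ => 1 / 3 - Y' ≤ nd (((v : ℝ) + κ * k) / t)) ?_
    · exact this
    · intro y hy hk
      have := hres y hy
      rw [hk] at this
      exact this
  set W := ∑ y ∈ S', 2 * ((L : ℝ) - y) / (L : ℝ) ^ 2 with hW
  set ξ : ℝ := t * θ * L with hξ
  have hξ0 : 0 ≤ ξ := by positivity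
  have hRR0 := rr_nonneg ξ
  have hRR1 := rr_le_one hξ0
  have hchi := abs_le.1 (LSmall_chi t)
  have hit : 1 / (t : ℝ) ≤ 1 := by
    rw [div_le_one htr]
    exact ht1
  have hit0 : 0 < 1 / (t : ℝ) := by positivity
  rcases le_or_gt (1 / 6) (t * Y') with hi | hi
  · -- case (i)
    have hN : ∀ k < K, ((S'.filter (fun y => y / t = k)).card : ℝ) ≤ (t : ℝ) * (1 / 3 + 8 * Y') := by
      intro k _
      have h4 := l_c1 ht (κ * k) hY'0 hY'1
      have h5 := hblk k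
      have h6 : (1 : ℝ) ≤ 6 * (t * Y') := by linarith
      linarith
    have h4 := LSmall_const hL ht hK1 hK2 hKp hε hε1 htL hKε S' hSL (C := (t : ℝ) * (1 / 3 + 8 * Y'))
      (by positivity) hN
    rw [mul_div_cancel_left₀ _ htr.ne', ← hW] at h4
    have h5 : chi t / t * RR ξ ≤ 6 * Y' := by
      have h6 : chi t / t * RR ξ ≤ 1 / t := by
        have h7 : chi t * RR ξ ≤ 1 := (mul_le_mul_of_nonneg_right hchi.2 hRR0).trans (by linarith)
        rw [div_mul_eq_mul_div]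
        exact div_le_div_of_nonneg_right h7 htr.le
      have h8 : 1 / (t : ℝ) ≤ 6 * Y' := by
        rw [div_le_iff₀ htr]
        linarith
      linarith
    have h6 : ε * Y' ≤ ε * (1 / 6) := mul_le_mul_of_nonneg_left hY'1 hε.le
    linarith
  · rcases le_or_gt ξ (1 / 6) with hii | hiii
    · -- case (ii)
      have hRR : RR ξ = 1 := rr_one hξ0 (by linarith)
      have hkξ : ∀ k < K, κ * k + t * Y' < 1 / 3 := by
        intro k hk
        have h4 : (k : ℝ) + 1 ≤ K := by exact_mod_cast hk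
        have h5 : (t : ℝ) * k ≤ L := by
          have := mul_le_mul_of_nonneg_left h4 htr.le
          linarith
        have h6 : κ * k ≤ ξ := by
          rw [hκ_def, hξ]
          have : (t : ℝ) * θ * (t * k) ≤ t * θ * L := mul_le_mul_of_nonneg_left h5 (by positivity)
          linarith
        linarith
      by_cases h3t : 3 ∣ t
      · -- `t = 3 k₀`
        obtain ⟨k₀, hk₀⟩ := h3t
        have hk₀1 : 1 ≤ k₀ := by omega
        have hchi0 : chi t = 0 := by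
          have h4 : t % 3 = 0 := by omega
          unfold chi
          rw [h4]
          norm_num
        have hcls : ∀ y ∈ S', k₀ ≤ u * y % t ∧ u * y % t ≤ 2 * k₀ := by
          intro y hy
          have hk : y / t < K := by
            rw [Nat.div_lt_iff_lt_mul (by omega)]
            have := (hS y hy).2
            rw [mul_comm]
            omega
          have h4 := hres y hy
          have h5 := hkξ _ hk
          have hv : u * y % t < t := Nat.mod_lt _ (by omega)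
          rw [hk₀] at h4 h5 hv ⊢
          exact l_c2' hk₀1 (by positivity) hY'0 hY'1 h5 hv h4
        set S₁ := S'.filter (fun y => u * y % (3 * k₀) = k₀ ∨ u * y % (3 * k₀) = 2 * k₀) with hS₁
        set S₂ := S'.filter (fun y => ¬ (u * y % (3 * k₀) = k₀ ∨ u * y % (3 * k₀) = 2 * k₀)) with hS₂
        have hsplit : W = ∑ y ∈ S₁, 2 * ((L : ℝ) - y) / (L : ℝ) ^ 2 +
            ∑ y ∈ S₂, 2 * ((L : ℝ) - y) / (L : ℝ) ^ 2 :=
          (Finset.sum_filter_add_sum_filter_not S' _ _).symm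
        have hW1 : ∑ y ∈ S₁, 2 * ((L : ℝ) - y) / (L : ℝ) ^ 2 ≤ 1 / t + 4 * ε := by
          have h4 := l_pair hk₀1 (by rw [← hk₀]; exact hu) hT0 hL S' hS hR
          have h5 : 2 / (L : ℝ) ≤ 2 * ε := by
            rw [div_le_iff₀ hLr]
            linarith
          have h6 : 2 * T / (L : ℝ) ≤ 2 * ε := by
            rw [div_le_iff₀ hLr]
            linarith
          have h7 : ((3 * k₀ : ℕ) : ℝ) = t := by rw [hk₀]
          rw [h7] at h4
          linarith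
        have hW2 : ∑ y ∈ S₂, 2 * ((L : ℝ) - y) / (L : ℝ) ^ 2 ≤ (1 + 3 * ε) * (((k₀ : ℝ) - 1) / t) := by
          have hk₀r : (1 : ℝ) ≤ k₀ := by exact_mod_cast hk₀1
          refine LSmall_const hL ht hK1 hK2 hKp hε hε1 htL hKε S₂ (fun y hy => hSL y (Finset.mem_filter.1 hy).1)
            (by linarith) ?_
          intro k _
          have h4 := l_blk_res ht hu S₂ k (fun v : ℕ => k₀ < v ∧ v < 2 * k₀) ?_
          · refine h4.trans ?_
            have h5 : (range t).filter (fun v : ℕ => k₀ < v ∧ v < 2 * k₀) ⊆ Finset.Ioo k₀ (2 * k₀) := by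
              intro v hv
              rw [Finset.mem_filter] at hv
              rw [Finset.mem_Ioo]
              exact hv.2
            have h6 := Finset.card_le_card h5
            rw [Nat.card_Ioo] at h6
            have h7 : (((range t).filter (fun v : ℕ => k₀ < v ∧ v < 2 * k₀)).card : ℝ) ≤ ((k₀ - 1 : ℕ) : ℝ) := by
              exact_mod_cast (by omega : _ ≤ k₀ - 1)
            rw [Nat.cast_sub hk₀1, Nat.cast_one] at h7
            exact h7
          · intro y hy _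
            obtain ⟨hy1, hy2⟩ := Finset.mem_filter.1 hy
            have h5 := hcls y hy1
            rw [← hk₀] at hy2
            push Not at hy2
            exact ⟨lt_of_le_of_ne h5.1 (Ne.symm hy2.1), lt_of_le_of_ne h5.2 hy2.2⟩
        have hk₀t : ((k₀ : ℝ) - 1) / t = 1 / 3 - 1 / t := by
          have h4 : (t : ℝ) = 3 * k₀ := by exact_mod_cast hk₀
          have h5 : (k₀ : ℝ) = t / 3 := by linarith
          rw [h5]
          field_simp
        rw [hk₀t] at hW2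
        rw [hchi0, zero_div, zero_mul, neg_zero, zero_add]
        have h4 : 0 ≤ ε * (1 / (t : ℝ)) := by positivity
        linarith
      · -- `3` does not divide `t`
        have hN : ∀ k < K, ((S'.filter (fun y => y / t = k)).card : ℝ) ≤ ((t : ℝ) - chi t) / 3 := by
          intro k hk
          exact (hblk k).trans (l_c2 ht h3t (by positivity) hY'0 hY'1 (hkξ k hk))
        have h4 := LSmall_const hL ht hK1 hK2 hKp hε hε1 htL hKε S' hSL (C := ((t : ℝ) - chi t) / 3)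
          (by linarith) hN
        rw [← hW] at h4
        have e1 : ((t : ℝ) - chi t) / 3 / t = (1 - chi t / t) / 3 := by
          field_simp
        rw [e1] at h4
        rw [hRR, mul_one]
        have h5 : -1 ≤ chi t / t := by
          rw [le_div_iff₀ htr]
          linarith
        have h6 : chi t / t ≤ 1 := by
          rw [div_le_one htr]
          linarith
        have h7 : ε * (1 - chi t / t) ≤ ε * 2 := mul_le_mul_of_nonneg_left (by linarith) hε.le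
        linarith
    · -- case (iii)
      have hκp : 0 < κ := by
        rcases hκ0.lt_or_eq with h | h
        · exact h
        · exfalso
          have h4 : θ = 0 := by
            rcases mul_eq_zero.1 h.symm with h5 | h5
            · exact absurd (pow_eq_zero_iff (two_ne_zero)|>.1 h5) htr.ne'
            · exact h5
          rw [hξ, h4] at hiii
          norm_num at hiii
      have hX : ξ ≤ κ * K := by
        rw [hκ_def, hξ]
        have : (t : ℝ) * θ * L ≤ t * θ * (t * K) := mul_le_mul_of_nonneg_left hK1r (by positivity)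
        linarith
      have hX2 : κ * K - ξ ≤ κ := by
        rw [hκ_def, hξ]
        have : (t : ℝ) * θ * (t * K) ≤ t * θ * (L + t) := mul_le_mul_of_nonneg_left hK2r.le (by positivity)
        linarith
      set Om : ℕ → ℝ := fun k => 2 * ((K : ℝ) - k) / (K : ℝ) ^ 2 with hOm
      set Sg := ∑ k ∈ range K, 2 * ((K : ℝ) - k) / (K : ℝ) ^ 2 * eR (κ * k) with hSg
      have hriem := l_riem hκ0 (by linarith : κ ≤ 1) hKp
      rw [← hSg] at hriem
      have hlip := rr_lip (x := κ * K) (y := ξ) (by positivity) hξ0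
      rw [abs_of_nonneg (by linarith : (0 : ℝ) ≤ κ * K - ξ)] at hlip
      have hSgR : |Sg - RR ξ| ≤ 220 * ε := by
        have h4 := abs_sub_le Sg (RR (κ * K)) (RR ξ)
        have h5 : 100 * (κ + 1 / (K : ℝ)) ≤ 200 * ε := by linarith
        linarith
      -- the bound of a block
      let P1 : ℕ → Prop := fun k => ∃ v : ℤ, (t : ℝ) / 3 - t * Y' ≤ v + κ * k ∧ v + κ * k ≤ t / 3
      let P2 : ℕ → Prop := fun k => ∃ v : ℤ, 2 * (t : ℝ) / 3 ≤ v + κ * k ∧ v + κ * k ≤ 2 * t / 3 + t * Y'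
      let N : ℕ → ℝ := fun k => ((t : ℝ) - chi t * eR (κ * k)) / 3 + (if P1 k then 1 else 0) +
        (if P2 k then 1 else 0)
      have hN : ∀ k < K, ((S'.filter (fun y => y / t = k)).card : ℝ) ≤ N k := by
        intro k _
        have h4 := l_c3 ht (κ * k) hY'0 hY'1 (by linarith)
        exact (hblk k).trans h4
      have hmain := l_blk hL ht hK1 hK2 S' hSL N hN
      have hw0 : 0 ≤ (t : ℝ) * Y' := by positivity
      have hB1 := LSmall_B hKp hκp (w := t * Y') (c := (t : ℝ) / 3 - t * Y') hw0 hi.le (by linarith) h2 hKε P1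
        (fun k hk => by
          obtain ⟨v, hv1, hv2⟩ := hk
          exact ⟨v, hv1, by linarith⟩)
      have hB2 := LSmall_B hKp hκp (w := t * Y') (c := 2 * (t : ℝ) / 3) hw0 hi.le (by linarith) h2 hKε P2
        (fun k hk => hk)
      have hsum : ∑ k ∈ range K, 2 * ((K : ℝ) - k) / (K : ℝ) ^ 2 * N k =
          (t : ℝ) / 3 * (1 + 1 / (K : ℝ)) - chi t / 3 * Sg +
          ∑ k ∈ range K, 2 * ((K : ℝ) - k) / (K : ℝ) ^ 2 * (if P1 k then (1 : ℝ) else 0) +
          ∑ k ∈ range K, 2 * ((K : ℝ) - k) / (K : ℝ) ^ 2 * (if P2 k then (1 : ℝ) else 0) := by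
        rw [← l_blk_sum hKp, hSg, Finset.mul_sum, Finset.mul_sum, ← Finset.sum_sub_distrib,
          ← Finset.sum_add_distrib, ← Finset.sum_add_distrib]
        refine Finset.sum_congr rfl fun k _ => ?_
        simp only [N]
        ring
      rw [hsum, ← hW] at hmain
      set B1 := ∑ k ∈ range K, 2 * ((K : ℝ) - k) / (K : ℝ) ^ 2 * (if P1 k then (1 : ℝ) else 0) with hB1d
      set B2 := ∑ k ∈ range K, 2 * ((K : ℝ) - k) / (K : ℝ) ^ 2 * (if P2 k then (1 : ℝ) else 0) with hB2d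
      set c := 1 + (t : ℝ) / L with hc
      have hc1 : 1 ≤ c := by
        have : 0 ≤ (t : ℝ) / L := by positivity
        linarith
      have hc2 : c ≤ 1 + ε := by linarith
      have e1 : 3 * (c * (1 / (t : ℝ) * ((t : ℝ) / 3 * (1 + 1 / (K : ℝ)) - chi t / 3 * Sg + B1 + B2))) =
          c * (1 + 1 / (K : ℝ)) - c * (chi t / t) * Sg + 3 * c * (1 / t) * (B1 + B2) := by
        field_simp
        ring
      have hm3 : 3 * W ≤ c * (1 + 1 / (K : ℝ)) - c * (chi t / t) * Sg + 3 * c * (1 / t) * (B1 + B2) := by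
        rw [← e1]
        linarith
      -- main term
      have hct : |chi t / t| ≤ 1 := by
        rw [abs_div, abs_of_pos htr, div_le_one htr]
        exact (LSmall_chi t).trans ht1
      have hSg2 : |Sg| ≤ 2 := by
        have h4 := abs_sub_abs_le_abs_sub Sg (RR ξ)
        rw [abs_of_nonneg hRR0] at h4
        linarith
      have hm1 : -(c * (chi t / t) * Sg) ≤ -(chi t / t * RR ξ) + 222 * ε := by
        have h4 : -(c * (chi t / t) * Sg) = -(chi t / t * RR ξ) - (chi t / t) * (Sg - RR ξ) -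
            (c - 1) * ((chi t / t) * Sg) := by ring
        have h5 : |(chi t / t) * (Sg - RR ξ)| ≤ 1 * (220 * ε) := by
          rw [abs_mul]
          exact mul_le_mul hct hSgR (abs_nonneg _) zero_le_one
        have h6 : |(c - 1) * ((chi t / t) * Sg)| ≤ ε * (1 * 2) := by
          rw [abs_mul, abs_mul, abs_of_nonneg (by linarith : (0 : ℝ) ≤ c - 1)]
          refine mul_le_mul (by linarith) (mul_le_mul hct hSg2 (abs_nonneg _) zero_le_one) (by positivity) hε.le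
        have h7 := (abs_le.1 h5).1
        have h8 := (abs_le.1 h6).1
        linarith
      have hm2 : c * (1 + 1 / (K : ℝ)) ≤ 1 + 3 * ε := by
        have h4 : c * (1 + 1 / (K : ℝ)) ≤ (1 + ε) * (1 + ε) :=
          mul_le_mul hc2 (by linarith) (by positivity) (by linarith)
        have h5 : ε * ε ≤ ε * 1 := mul_le_mul_of_nonneg_left (by linarith) hε.le
        linarith
      -- error term
      have hm4 : 3 * c * (1 / t) * (B1 + B2) ≤ 169 * Y' + 43 * ε := by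
        have h4 : B1 + B2 ≤ 56 * (t * Y') + 14 * ε := by linarith
        have h5 : 3 * c * (1 / (t : ℝ)) * (B1 + B2) ≤ 3 * c * (1 / t) * (56 * (t * Y') + 14 * ε) :=
          mul_le_mul_of_nonneg_left h4 (by positivity)
        have h6 : 3 * c * (1 / (t : ℝ)) * (56 * (t * Y') + 14 * ε) =
            3 * c * (56 * Y') + 3 * c * (14 * ε * (1 / t)) := by
          field_simp
        have h7 : 14 * ε * (1 / (t : ℝ)) ≤ 14 * ε * 1 := mul_le_mul_of_nonneg_left hit (by positivity)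
        have h8 : 3 * c * (14 * ε * (1 / (t : ℝ))) ≤ 3 * c * (14 * ε * 1) :=
          mul_le_mul_of_nonneg_left h7 (by positivity)
        have h9 : c ≤ 1001 / 1000 := by linarith
        have h10 : 3 * c * (56 * Y') ≤ 3 * (1001 / 1000) * (56 * Y') :=
          mul_le_mul_of_nonneg_right (by linarith) (by positivity)
        have h11 : 3 * c * (14 * ε * 1) ≤ 3 * (1001 / 1000) * (14 * ε * 1) :=
          mul_le_mul_of_nonneg_right (by linarith) (by positivity)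
        linarith
      linarith

theorem l_small {L t : ℕ} {u : ℤ} {T ε Y θ : ℝ} (S' : Finset ℕ) (hS : ∀ y ∈ S', 1 ≤ y ∧ y < L)
    (hR : RSF S' T) (hL : 1 ≤ L) (ht : 1 ≤ t) (hu : Int.gcd u t = 1) (hε : 0 < ε) (hε1 : ε ≤ 1 / 1000)
    (hT0 : 0 ≤ T) (h1 : (t : ℝ) ≤ ε * L) (h2 : (t : ℝ) ^ 2 * |θ| ≤ ε) (h3 : T ≤ ε * L)
    (hY0 : 0 ≤ Y) (hY1 : Y ≤ 1 / 12) (hnd : ∀ y ∈ S', 1 / 3 - Y ≤ nd (((u : ℝ) / t + θ) * y)) :
    3 * (∑ y ∈ S', 2 * ((L : ℝ) - y) / (L : ℝ) ^ 2) - 1 ≤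
      -(chi t / t * RR (t * |θ| * L)) + 200 * Y + 1000 * ε := by
  have htr : (0 : ℝ) < t := by exact_mod_cast ht
  -- reduction of `w` modulo `t`
  have key : ∀ (w : ℤ) (θ' : ℝ), Int.gcd w t = 1 → 0 ≤ θ' → (t : ℝ) ^ 2 * θ' ≤ ε →
      (∀ y ∈ S', 1 / 3 - Y ≤ nd (((w : ℝ) / t + θ') * y)) →
      3 * (∑ y ∈ S', 2 * ((L : ℝ) - y) / (L : ℝ) ^ 2) - 1 ≤
        -(chi t / t * RR (t * θ' * L)) + 200 * Y + 1000 * ε := by
    intro w θ' hw hθ' hθε hnd'
    have ht0 : (t : ℤ) ≠ 0 := by exact_mod_cast (by omega : t ≠ 0)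
    have hm0 : 0 ≤ w % t := Int.emod_nonneg _ ht0
    obtain ⟨u', hu'⟩ := Int.eq_ofNat_of_zero_le hm0
    have hcop : Nat.Coprime u' t := by
      have h4 : Int.gcd (w % t) t = 1 := by
        rw [Int.gcd_emod]
        exact hw
      rw [hu'] at h4
      exact h4
    refine l_small_pos (u := u') S' hS hR hL ht hcop hε hε1 hT0 h1 hθ' hθε h3 hY0 hY1 ?_
    intro y hy
    have h4 := hnd' y hy
    have h5 : (w : ℝ) = t * ((w / t : ℤ) : ℝ) + u' := by
      have h6 : w = t * (w / t) + w % t := (Int.mul_ediv_add_emod w t).symm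
      have h7 : (w : ℝ) = ((t * (w / t) + w % t : ℤ) : ℝ) := by exact_mod_cast h6
      rw [h7, hu']
      push_cast
      ring
    have h8 : ((w : ℝ) / t + θ') * y = ((u' : ℝ) / t + θ') * y + (((w / t) * y : ℤ) : ℝ) := by
      rw [h5]
      push_cast
      field_simp
      ring
    rw [h8, nd_add_int] at h4
    exact h4
  rcases le_or_gt 0 θ with hθ | hθ
  · rw [abs_of_nonneg hθ] at h2 ⊢
    exact key u θ hu hθ h2 hnd
  · rw [abs_of_neg hθ] at h2 ⊢
    refine key (-u) (-θ) ?_ (by linarith) h2 ?_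
    · rw [Int.neg_gcd]
      exact hu
    · intro y hy
      have h4 := hnd y hy
      rw [← nd_neg] at h4
      have e : -(((u : ℝ) / t + θ) * y) = (((-u : ℤ) : ℝ) / t + -θ) * y := by
        push_cast
        ring
      rw [e] at h4
      exact h4

end SFP
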