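import Pool.Agent.SFP.NDefs

/-!
# Module NA (2): the local quantities

`lp p = Nat.log 2 p + 1`: `Nat.lt_pow_succ_log_self`, `Nat.pow_log_le_self`. `bp_le`: `p ^ (-2/3) ≤ 2 ^ (-2/3) ≤ 63/100` (`(63/100)^3 ≥ 1/4`),
`√(lp p / L) / 1000 ≤ 1/1000` as `lp p ≤ L`. `fp_le`: `p * bp ≥ p * p ^ (-2/3) = p ^ (1/3)`. `fp_le'`: `2 ^ (-1/3) ≤ 4/5` (`(4/5)^3 = 0.512 ≥ 1/2`).
`fp_le_sqrt`: `p * bp ≥ p * √(lp p / L) / 1000`. `sp`: with `b = bp L p ∈ (0, 63/100]`: `chi p ∈ {0, 1, -1}`: `sp = 1`, or `∑ b^τ` (geometric series,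
between `1` and `1/(1-b)`), or `∑ (-b)^τ = (1 - (-b)^(e+1)) / (1 + b)`, between `1 - b` and `1` (`≥ (1 - b^2)/(1+b)` as `|(-b)^(e+1)| ≤ b^2` if `e ≥ 1`; `= 1` if `e = 0`).
-/

namespace SFP

open Finset

theorem lp_pos (p : ℕ) : 1 ≤ lp p := Nat.le_add_left 1 _

theorem lt_two_pow_lp (p : ℕ) : p < 2 ^ lp p := Nat.lt_pow_succ_log_self (by norm_num) p

theorem two_pow_lp_le {p : ℕ} (hp : 1 ≤ p) : 2 ^ lp p ≤ 2 * p := by
  have h := Nat.pow_log_le_self 2 (x := p) (by omega)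
  unfold lp
  rw [pow_succ]
  omega

theorem lp_le_of_lt {L p : ℕ} (hp : 1 ≤ p) (h : p < 2 ^ L) : lp p ≤ L := by
  have := Nat.log_lt_of_lt_pow (by omega) h
  unfold lp
  omega

theorem NA_bp_nonneg (L p : ℕ) : 0 ≤ bp L p := by
  unfold bp
  refine le_max_of_le_right ?_
  positivity

theorem bp_pos {L p : ℕ} (hp : 1 ≤ p) : 0 < bp L p := by
  unfold bp
  refine lt_max_of_lt_left ?_
  have : (0 : ℝ) < p := by exact_mod_cast hp
  exact Real.rpow_pos_of_pos this _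

/-- cubes: `n ^ (-a/3) ≤ c` if `1 / n ^ a ≤ c ^ 3` -/
theorem NA_cube {n : ℝ} (hn : 0 < n) (a : ℕ) {c : ℝ} (hc : 0 ≤ c) (h : 1 ≤ c ^ 3 * n ^ a) :
    n ^ (-((a : ℝ) / 3)) ≤ c := by
  have h0 : 0 ≤ n ^ (-((a : ℝ) / 3)) := Real.rpow_nonneg hn.le _
  have h1 : (n ^ (-((a : ℝ) / 3))) ^ 3 = (n ^ a)⁻¹ := by
    rw [← Real.rpow_natCast (n ^ (-((a : ℝ) / 3))) 3, ← Real.rpow_mul hn.le, ← Real.rpow_natCast n a,
      ← Real.rpow_neg hn.le]
    congr 1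
    push_cast
    ring
  have h2 : (n ^ (-((a : ℝ) / 3))) ^ 3 ≤ c ^ 3 := by
    rw [h1, inv_le_iff_one_le_mul₀ (pow_pos hn a)]
    exact h
  exact (pow_le_pow_iff_left₀ h0 hc (by norm_num)).1 h2

theorem NA_sqrt {L p : ℕ} (hL : 1 ≤ L) (h : lp p ≤ L) : √((lp p : ℝ) / L) / 1000 ≤ 1 / 1000 := by
  have hL' : (0 : ℝ) < L := by exact_mod_cast hL
  have h' : (lp p : ℝ) ≤ L := by exact_mod_cast h
  have h1 : (lp p : ℝ) / L ≤ 1 := by rw [div_le_one hL']; exact h'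
  have h2 : √((lp p : ℝ) / L) ≤ 1 := by
    exact Real.sqrt_le_one.2 h1
  linarith

theorem bp_le {L p : ℕ} (hL : 1 ≤ L) (hp : 2 ≤ p) (h : lp p ≤ L) : bp L p ≤ 63 / 100 := by
  have hp' : (2 : ℝ) ≤ p := by exact_mod_cast hp
  unfold bp
  refine max_le ?_ ?_
  · have h1 := NA_cube (n := p) (by linarith) 2 (c := 63 / 100) (by norm_num) (by nlinarith)
    have e : (-(2 / 3) : ℝ) = -(((2 : ℕ) : ℝ) / 3) := by norm_num
    rw [e]
    exact h1
  · have := NA_sqrt hL h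
    linarith

/-- For `p ≥ 7` one has `1 / (1 - b_p) ≤ p ^ (5/24)`. -/
theorem bp_inv_le {L p : ℕ} (hL : 1 ≤ L) (hp : 7 ≤ p) (h : lp p ≤ L) :
    1 / (1 - bp L p) ≤ (p : ℝ) ^ (5 / 24 : ℝ) := by
  have hp' : (7 : ℝ) ≤ p := by exact_mod_cast hp
  have hb : bp L p ≤ 28 / 100 := by
    unfold bp
    refine max_le ?_ ?_
    · have h1 := NA_cube (n := p) (by linarith) 2 (c := 28 / 100) (by norm_num) (by nlinarith)
      have e : (-(2 / 3) : ℝ) = -(((2 : ℕ) : ℝ) / 3) := by norm_num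
      rw [e]
      exact h1
    · have := NA_sqrt hL h
      linarith
  have h2 : 1 / (1 - bp L p) ≤ 25 / 18 := by
    rw [div_le_iff₀ (by linarith)]
    linarith
  have h3 : (25 / 18 : ℝ) ≤ (7 : ℝ) ^ (5 / 24 : ℝ) := by
    have h4 : ((7 : ℝ) ^ (5 / 24 : ℝ)) ^ 24 = 7 ^ 5 := by
      rw [← Real.rpow_natCast ((7 : ℝ) ^ (5 / 24 : ℝ)) 24, ← Real.rpow_mul (by norm_num),
        ← Real.rpow_natCast (7 : ℝ) 5]
      congr 1
      norm_num
    have h5 : (25 / 18 : ℝ) ^ 24 ≤ ((7 : ℝ) ^ (5 / 24 : ℝ)) ^ 24 := by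
      rw [h4]; norm_num
    exact (pow_le_pow_iff_left₀ (by norm_num) (by positivity) (by norm_num)).1 h5
  have h6 : (7 : ℝ) ^ (5 / 24 : ℝ) ≤ (p : ℝ) ^ (5 / 24 : ℝ) :=
    Real.rpow_le_rpow (by norm_num) hp' (by norm_num)
  linarith

theorem fp_nonneg (L p : ℕ) : 0 ≤ fp L p := by
  unfold fp
  split_ifs
  · have := NA_bp_nonneg L p
    positivity
  · exact le_rfl

theorem fp_pos {L p : ℕ} (hp : 1 ≤ p) (h : p < 2 ^ L) : 0 < fp L p := by
  unfold fp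
  rw [if_pos h]
  have h1 := bp_pos (L := L) hp
  have h2 : (0 : ℝ) < p := by exact_mod_cast hp
  positivity

theorem fp_eq_zero {L p : ℕ} (h : 2 ^ L ≤ p) : fp L p = 0 := by
  unfold fp
  rw [if_neg (by omega)]

theorem fp_mul {L p : ℕ} (hp : 1 ≤ p) (h : p < 2 ^ L) : (p : ℝ) * fp L p * bp L p = 1 := by
  unfold fp
  rw [if_pos h]
  have h1 := bp_pos (L := L) hp
  have h2 : (0 : ℝ) < p := by exact_mod_cast hp
  field_simp

theorem fp_le {L p : ℕ} (hp : 1 ≤ p) : fp L p ≤ (p : ℝ) ^ (-(1 / 3) : ℝ) := by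
  have h2 : (0 : ℝ) < p := by exact_mod_cast hp
  unfold fp
  split_ifs with h
  · have h1 := bp_pos (L := L) hp
    have h3 : (p : ℝ) ^ (-(2 / 3) : ℝ) ≤ bp L p := le_max_left _ _
    have h4 : (p : ℝ) ^ (1 / 3 : ℝ) ≤ p * bp L p := by
      have e : (p : ℝ) ^ (1 / 3 : ℝ) = p * (p : ℝ) ^ (-(2 / 3) : ℝ) := by
        conv_rhs => rw [← Real.rpow_one (p : ℝ)]
        rw [Real.rpow_one, ← Real.rpow_one_add' h2.le (by norm_num)]
        congr 1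
        norm_num
      rw [e]
      exact mul_le_mul_of_nonneg_left h3 h2.le
    rw [Real.rpow_neg h2.le, one_div]
    exact inv_anti₀ (Real.rpow_pos_of_pos h2 _) h4
  · exact Real.rpow_nonneg h2.le _

theorem fp_le' {L p : ℕ} (hp : 2 ≤ p) : fp L p ≤ 4 / 5 := by
  have hp' : (2 : ℝ) ≤ p := by exact_mod_cast hp
  refine (fp_le (L := L) (by omega)).trans ?_
  have h1 := NA_cube (n := p) (by linarith) 1 (c := 4 / 5) (by norm_num) (by
    rw [pow_one]; linarith)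
  have e : (-(1 / 3) : ℝ) = -(((1 : ℕ) : ℝ) / 3) := by norm_num
  rw [e]
  exact h1

theorem fp_le_sqrt {L p : ℕ} (hL : 1 ≤ L) (hp : 1 ≤ p) :
    fp L p ≤ 1000 / p * √((L : ℝ) / lp p) := by
  have h2 : (0 : ℝ) < p := by exact_mod_cast hp
  have hL' : (0 : ℝ) < L := by exact_mod_cast hL
  have hl : (0 : ℝ) < lp p := by exact_mod_cast lp_pos p
  unfold fp
  split_ifs with h
  · have h3 : √((lp p : ℝ) / L) / 1000 ≤ bp L p := le_max_right _ _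
    have hs : 0 < √((lp p : ℝ) / L) := Real.sqrt_pos.2 (by positivity)
    have h4 : (p : ℝ) * (√((lp p : ℝ) / L) / 1000) ≤ p * bp L p := mul_le_mul_of_nonneg_left h3 h2.le
    have h5 : 1 / ((p : ℝ) * bp L p) ≤ 1 / ((p : ℝ) * (√((lp p : ℝ) / L) / 1000)) :=
      one_div_le_one_div_of_le (by positivity) h4
    refine h5.trans (le_of_eq ?_)
    have h6 : √((L : ℝ) / lp p) = 1 / √((lp p : ℝ) / L) := by
      rw [one_div, ← Real.sqrt_inv, inv_div]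
    rw [h6]
    field_simp
  · positivity

theorem NA_sum_succ (x : ℝ) (e : ℕ) :
    ∑ τ ∈ range (e + 1 + 1), x ^ τ = 1 + x * ∑ τ ∈ range (e + 1), x ^ τ := by
  rw [Finset.sum_range_succ', Finset.mul_sum, pow_zero, add_comm]
  congr 1
  exact Finset.sum_congr rfl fun i _ => by rw [pow_succ]; ring

theorem NA_neg {x b : ℝ} (hb : b ≤ 1) (h1 : -b ≤ x) (h2 : x ≤ 0) (e : ℕ) :
    1 - b ≤ ∑ τ ∈ range (e + 1), x ^ τ ∧ ∑ τ ∈ range (e + 1), x ^ τ ≤ 1 := by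
  induction e with
  | zero => simp; linarith
  | succ e ih =>
    rw [NA_sum_succ]
    obtain ⟨i1, i2⟩ := ih
    have i0 : 0 ≤ ∑ τ ∈ range (e + 1), x ^ τ := by linarith
    constructor
    · nlinarith
    · nlinarith

theorem NA_pos {x b : ℝ} (hb : b < 1) (h1 : 0 ≤ x) (h2 : x ≤ b) (e : ℕ) :
    1 ≤ ∑ τ ∈ range (e + 1), x ^ τ ∧ ∑ τ ∈ range (e + 1), x ^ τ ≤ 1 / (1 - b) := by
  have hb' : 0 < 1 - b := by linarith
  induction e with
  | zero =>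
    simp only [zero_add, Finset.sum_range_one, pow_zero, le_refl, true_and]
    rw [le_div_iff₀ hb']
    linarith
  | succ e ih =>
    rw [NA_sum_succ]
    obtain ⟨i1, i2⟩ := ih
    constructor
    · have := mul_nonneg h1 (by linarith : 0 ≤ ∑ τ ∈ range (e + 1), x ^ τ)
      linarith
    · have h3 : x * ∑ τ ∈ range (e + 1), x ^ τ ≤ b * (1 / (1 - b)) :=
        mul_le_mul h2 i2 (by linarith) (by linarith)
      have h4 : 1 + b * (1 / (1 - b)) = 1 / (1 - b) := by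
        field_simp
        ring
      linarith

theorem NA_chi (p : ℕ) : -1 ≤ chi p ∧ chi p ≤ 1 := by
  unfold chi
  split_ifs <;> norm_num

theorem NA_sp {L p e : ℕ} (hL : 1 ≤ L) (hp : 2 ≤ p) (h : lp p ≤ L) :
    1 - bp L p ≤ sp L p e ∧ sp L p e ≤ 1 / (1 - bp L p) := by
  have hb0 := bp_pos (L := L) (p := p) (by omega)
  have hb1 := bp_le hL hp h
  obtain ⟨c1, c2⟩ := NA_chi p
  unfold sp
  have hone : 1 ≤ 1 / (1 - bp L p) := by
    rw [le_div_iff₀ (by linarith)]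
    linarith
  rcases le_total (chi p) 0 with hc | hc
  · obtain ⟨i1, i2⟩ := NA_neg (x := chi p * bp L p) (b := bp L p) (by linarith) (by nlinarith)
      (by nlinarith) e
    exact ⟨i1, i2.trans hone⟩
  · obtain ⟨i1, i2⟩ := NA_pos (x := chi p * bp L p) (b := bp L p) (by linarith) (by positivity)
      (by nlinarith) e
    exact ⟨by linarith, i2⟩

theorem sp_ge {L p e : ℕ} (hL : 1 ≤ L) (hp : 2 ≤ p) (h : lp p ≤ L) : 1 - bp L p ≤ sp L p e :=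
  (NA_sp hL hp h).1

theorem sp_ge' {L p e : ℕ} (hL : 1 ≤ L) (hp : 2 ≤ p) (h : lp p ≤ L) : 37 / 100 ≤ sp L p e := by
  have h1 := sp_ge (e := e) hL hp h
  have h2 := bp_le hL hp h
  linarith

theorem sp_le {L p e : ℕ} (hL : 1 ≤ L) (hp : 2 ≤ p) (h : lp p ≤ L) :
    sp L p e ≤ 1 / (1 - bp L p) :=
  (NA_sp hL hp h).2

end SFP
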