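import Pool.Agent.SFP.NA

/-!
# Module NCp (2): the coprime part

`cop q r = ∏_{p | q, p ∤ r} p ^ v_p(q)`. Its factorization is `q.factorization` restricted to the primes not dividing `r` (`Nat.factorization_prod`,
or `Nat.eq_of_factorization_eq`/`Nat.prod_pow_factorization_eq_self` for the restricted finsupp). `cop_dvd`: `Nat.factorization_le_iff_dvd`.
`mem`: for `t | q`: `t | cop q r` iff every prime factor of `t` does not divide `r` iff `Nat.Coprime t r`
(`Nat.Coprime` iff no common prime factor, `Nat.coprime_of_dvd`). `PiN_cop`: `∏_{p | q, p ∤ r} s_p = ∏_{p | q} s_p * ∏_{p | q, p | r} s_p⁻¹`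
(`Finset.prod_filter_mul_prod_filter_not`, `s_p ≠ 0` by `sp_ge'`).
-/

namespace SFP

open Finset

theorem cop_pos (q r : ℕ) : 1 ≤ cop q r := by
  unfold cop
  apply Nat.one_le_iff_ne_zero.2
  apply Finset.prod_ne_zero_iff.2
  intro p hp
  exact pow_ne_zero _ (Nat.prime_of_mem_primeFactors (Finset.mem_filter.1 hp).1).ne_zero

theorem NCp_fac (q r p' : ℕ) : (cop q r).factorization p' =
    if p' ∈ q.primeFactors.filter (fun p => ¬ p ∣ r) then q.factorization p' else 0 := by
  unfold cop
  have hne : ∀ p ∈ q.primeFactors.filter (fun p => ¬ p ∣ r), p ^ q.factorization p ≠ 0 := by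
    intro p hp
    exact pow_ne_zero _ (Nat.prime_of_mem_primeFactors (Finset.mem_filter.1 hp).1).ne_zero
  rw [Nat.factorization_prod hne, Finsupp.finsetSum_apply]
  have h1 : ∀ p ∈ q.primeFactors.filter (fun p => ¬ p ∣ r),
      (p ^ q.factorization p).factorization p' = if p' = p then q.factorization p' else 0 := by
    intro p hp
    have hpp := Nat.prime_of_mem_primeFactors (Finset.mem_filter.1 hp).1
    rw [hpp.factorization_pow, Finsupp.single_apply]
    by_cases h : p = p'
    · rw [if_pos h, if_pos h.symm, h]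
    · rw [if_neg h, if_neg (fun h' => h h'.symm)]
  rw [Finset.sum_congr rfl h1, Finset.sum_ite_eq]

theorem cop_dvd {q : ℕ} (hq : 1 ≤ q) (r : ℕ) : cop q r ∣ q := by
  have hc := cop_pos q r
  rw [← Nat.factorization_le_iff_dvd (by omega) (by omega)]
  intro p
  rw [NCp_fac]
  split_ifs
  · exact le_rfl
  · exact Nat.zero_le _

theorem cop_primeFactors {q : ℕ} (hq : 1 ≤ q) (r : ℕ) :
    (cop q r).primeFactors = q.primeFactors.filter (fun p => ¬ p ∣ r) := by
  ext p
  rw [← Nat.support_factorization, Finsupp.mem_support_iff, NCp_fac]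
  constructor
  · intro h
    by_contra h'
    rw [if_neg h'] at h
    exact h rfl
  · intro h
    rw [if_pos h]
    have h1 := (Finset.mem_filter.1 h).1
    rw [← Nat.support_factorization, Finsupp.mem_support_iff] at h1
    exact h1

theorem cop_factorization {q : ℕ} (hq : 1 ≤ q) (r : ℕ) {p : ℕ}
    (hp : p ∈ (cop q r).primeFactors) : (cop q r).factorization p = q.factorization p := by
  rw [cop_primeFactors hq] at hp
  rw [NCp_fac, if_pos hp]

theorem mem_divisors_cop {q r t : ℕ} (hq : 1 ≤ q) :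
    t ∈ (cop q r).divisors ↔ t ∣ q ∧ Nat.Coprime t r := by
  have hc := cop_pos q r
  rw [Nat.mem_divisors]
  constructor
  · rintro ⟨h, _⟩
    refine ⟨h.trans (cop_dvd hq r), ?_⟩
    apply Nat.coprime_of_dvd
    intro k hk hkt hkr
    have h1 : k ∈ (cop q r).primeFactors := Nat.mem_primeFactors.2 ⟨hk, hkt.trans h, by omega⟩
    rw [cop_primeFactors hq] at h1
    exact (Finset.mem_filter.1 h1).2 hkr
  · rintro ⟨h, hcop⟩
    refine ⟨?_, by omega⟩
    have ht : t ≠ 0 := by
      rintro rfl
      have := Nat.eq_zero_of_zero_dvd h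
      omega
    rw [← Nat.factorization_le_iff_dvd ht (by omega)]
    have hle := (Nat.factorization_le_iff_dvd ht (by omega : q ≠ 0)).2 h
    intro p
    rw [NCp_fac]
    split_ifs with hp
    · exact hle p
    · rw [Nat.le_zero]
      by_contra h0
      have hpt : p ∈ t.primeFactors := by
        rw [← Nat.support_factorization, Finsupp.mem_support_iff]
        exact h0
      have hpp := Nat.prime_of_mem_primeFactors hpt
      have hpd := Nat.dvd_of_mem_primeFactors hpt
      apply hp
      rw [Finset.mem_filter]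
      refine ⟨Nat.mem_primeFactors.2 ⟨hpp, hpd.trans h, by omega⟩, ?_⟩
      intro hpr
      have := Nat.dvd_gcd hpd hpr
      rw [hcop.gcd_eq_one] at this
      exact hpp.one_lt.ne' (Nat.dvd_one.1 this)

theorem NCp_sp {L q : ℕ} (hL : 1 ≤ L) (hs : ∀ p ∈ q.primeFactors, p < 2 ^ L) {p : ℕ}
    (hp : p ∈ q.primeFactors) (e : ℕ) : 0 < sp L p e := by
  have hpp := Nat.prime_of_mem_primeFactors hp
  have := sp_ge' (e := e) hL hpp.two_le (lp_le_of_lt hpp.one_le (hs p hp))
  linarith

theorem PiN_cop {L q : ℕ} (hL : 1 ≤ L) (hq : 1 ≤ q) (hs : ∀ p ∈ q.primeFactors, p < 2 ^ L) (r : ℕ) :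
    PiN L (cop q r) = PiN L q * hN L q r := by
  unfold PiN hN
  have e1 : ∏ p ∈ (cop q r).primeFactors, sp L p ((cop q r).factorization p) =
      ∏ p ∈ q.primeFactors.filter (fun p => ¬ p ∣ r), sp L p (q.factorization p) := by
    rw [cop_primeFactors hq]
    apply Finset.prod_congr rfl
    intro p hp
    have h1 : p ∈ (cop q r).primeFactors := by
      rw [cop_primeFactors hq]
      exact hp
    rw [cop_factorization hq r h1]
  rw [e1, ← Finset.prod_filter_mul_prod_filter_not q.primeFactors (fun p => p ∣ r), Finset.prod_inv_distrib]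
  have hA : ∏ p ∈ q.primeFactors.filter (fun p => p ∣ r), sp L p (q.factorization p) ≠ 0 := by
    apply Finset.prod_ne_zero_iff.2
    intro p hp
    exact (NCp_sp hL hs (Finset.mem_filter.1 hp).1 _).ne'
  field_simp

theorem hN_pos {L q : ℕ} (hL : 1 ≤ L) (hs : ∀ p ∈ q.primeFactors, p < 2 ^ L) (r : ℕ) :
    0 < hN L q r := by
  unfold hN
  apply Finset.prod_pos
  intro p hp
  exact inv_pos.2 (NCp_sp hL hs (Finset.mem_filter.1 hp).1 _)

theorem PiN_pos {L q : ℕ} (hL : 1 ≤ L) (hs : ∀ p ∈ q.primeFactors, p < 2 ^ L) : 0 < PiN L q := by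
  unfold PiN
  apply Finset.prod_pos
  intro p hp
  exact NCp_sp hL hs hp _

end SFP
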