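import Pool.Agent.SFP.NM
import Pool.Agent.SFP.NCp

/-!
# Module NBj (3): the bijection `d ↔ (t, r)`

`d = (q/t) r`, `t | q`, `(t, r) = 1`; conversely `t = q / gcd q d`, `r = d / gcd q d`; `gcd q d = q/t`, `lcm q d = q r`. For `q` with all prime factors `< 2^L`:
`fN d = fN (q/t) fN r`, `fN (q/t) fN t = fN q` and `fN t ≠ 0` (`fN_pos`), so `fN d * (chi t / t) = fN q * fN r * cN L t`; `ellN d = ellN q + ellN r - ellN t`.
So the left side is `fN q * ∑_{(t,r)} fN r cN t G(ellN q + ellN r - ellN t) H(q r)` over the pairs with `(q/t) r ≤ M`; the pairs with `r ≤ M`, `(q/t) r > M` contribute zero (`hG`).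
Use an injection `d ↦ (q / gcd q d, d / gcd q d)` of `Icc 1 M` into the set of pairs `r ∈ Icc 1 M`, `t ∈ (cop q r).divisors` (`mem_divisors_cop`), `Finset.sum_subset` for the rest.
-/

namespace SFP

open Finset

/-- The arithmetic of a pair `(t, r)`. -/
theorem NBj_arith {q t r : ℕ} (hq : 1 ≤ q) (hr : 1 ≤ r) (htq : t ∣ q) (hc : Nat.Coprime t r) :
    1 ≤ t ∧ 1 ≤ q / t ∧ q / t * t = q ∧ Nat.gcd q (q / t * r) = q / t ∧
      q / t * r / Nat.gcd q (q / t * r) = r ∧ q / Nat.gcd q (q / t * r) = t ∧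
      Nat.lcm q (q / t * r) = q * r := by
  have ht : 1 ≤ t := Nat.pos_of_dvd_of_pos htq hq
  have h1 : q / t * t = q := Nat.div_mul_cancel htq
  have h2 : 1 ≤ q / t := Nat.div_pos (Nat.le_of_dvd hq htq) ht
  have h3 : Nat.gcd q (q / t * r) = q / t := by
    have h4 : Nat.gcd (q / t * t) (q / t * r) = q / t * Nat.gcd t r := Nat.gcd_mul_left _ _ _
    rw [h1, hc.gcd_eq_one, mul_one] at h4
    exact h4
  refine ⟨ht, h2, h1, h3, ?_, ?_, ?_⟩
  · rw [h3, Nat.mul_div_cancel_left _ h2]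
  · rw [h3]
    exact Nat.div_div_self htq (by omega)
  · have h5 := Nat.gcd_mul_lcm q (q / t * r)
    rw [h3] at h5
    have h6 : q / t * Nat.lcm q (q / t * r) = q / t * (q * r) := by
      rw [h5]
      ring
    exact Nat.eq_of_mul_eq_mul_left h2 h6

/-- The value of the term of a pair. -/
theorem NBj_term {L q t r : ℕ} (hq : 1 ≤ q) (hs : ∀ p ∈ q.primeFactors, p < 2 ^ L)
    (hr : 1 ≤ r) (htq : t ∣ q) (hc : Nat.Coprime t r) (G : ℤ → ℝ) (H : ℕ → ℝ) :
    ((ellN (q / t * r) : ℕ) : ℤ) = (ellN q : ℤ) + ellN r - ellN t ∧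
    fN L (q / t * r) * G (ellN (q / t * r)) *
        (chi (q / Nat.gcd q (q / t * r)) / ((q / Nat.gcd q (q / t * r) : ℕ) : ℝ)) *
          H (Nat.lcm q (q / t * r)) =
      fN L q * (fN L r * H (q * r) *
        (cN L t * G ((ellN q : ℤ) + ellN r - (ellN t : ℤ)))) := by
  obtain ⟨ht, h2, h1, -, -, h5, h6⟩ := NBj_arith hq hr htq hc
  have h7 : ellN (q / t * r) = ellN (q / t) + ellN r := ellN_mul (by omega) (by omega)
  have h8 : ellN q = ellN (q / t) + ellN t := by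
    conv_lhs => rw [← h1]
    exact ellN_mul (by omega) (by omega)
  have h9 : fN L (q / t * r) = fN L (q / t) * fN L r := fN_mul L (by omega) (by omega)
  have h10 : fN L q = fN L (q / t) * fN L t := by
    conv_lhs => rw [← h1]
    exact fN_mul L (by omega) (by omega)
  have h11 : fN L t ≠ 0 := by
    refine (fN_pos fun p hp => hs p ?_).ne'
    exact Nat.primeFactors_mono htq (by omega) hp
  have h12 : ((ellN (q / t * r) : ℕ) : ℤ) = (ellN q : ℤ) + ellN r - ellN t := by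
    rw [h7, h8]
    push_cast
    ring
  have ht' : (t : ℝ) ≠ 0 := by
    have : 0 < t := ht
    positivity
  refine ⟨h12, ?_⟩
  rw [h5, h6, h12, h9, h10, cN]
  field_simp

theorem bij {L q M : ℕ} (hq : 1 ≤ q) (hs : ∀ p ∈ q.primeFactors, p < 2 ^ L) (G : ℤ → ℝ)
    (hG : ∀ d : ℕ, M < d → G (ellN d) = 0) (H : ℕ → ℝ) :
    ∑ d ∈ Icc 1 M, fN L d * G (ellN d) *
        (chi (q / Nat.gcd q d) / ((q / Nat.gcd q d : ℕ) : ℝ)) * H (Nat.lcm q d) =
      fN L q * ∑ r ∈ Icc 1 M, fN L r * H (q * r) * DS L (cop q r) G ((ellN q : ℤ) + ellN r) := by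
  have e1 : fN L q * ∑ r ∈ Icc 1 M, fN L r * H (q * r) *
      DS L (cop q r) G ((ellN q : ℤ) + ellN r) =
      ∑ x ∈ (Icc 1 M).sigma (fun r => (cop q r).divisors), fN L q * (fN L x.1 * H (q * x.1) *
        (cN L x.2 * G ((ellN q : ℤ) + ellN x.1 - (ellN x.2 : ℤ)))) := by
    rw [Finset.sum_sigma, Finset.mul_sum]
    refine Finset.sum_congr rfl fun r _ => ?_
    rw [DS, Finset.mul_sum, Finset.mul_sum]
  rw [e1]
  have e2 : ∑ x ∈ (Icc 1 M).sigma (fun r => (cop q r).divisors), fN L q * (fN L x.1 * H (q * x.1) *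
        (cN L x.2 * G ((ellN q : ℤ) + ellN x.1 - (ellN x.2 : ℤ)))) =
      ∑ x ∈ ((Icc 1 M).sigma (fun r => (cop q r).divisors)).filter
        (fun x => q / x.2 * x.1 ≤ M), fN L q * (fN L x.1 * H (q * x.1) *
        (cN L x.2 * G ((ellN q : ℤ) + ellN x.1 - (ellN x.2 : ℤ)))) := by
    rw [Finset.sum_filter]
    refine Finset.sum_congr rfl fun x hx => ?_
    rw [Finset.mem_sigma, Finset.mem_Icc, mem_divisors_cop hq] at hx
    split_ifs with h
    · rfl
    · have h3 := (NBj_term (L := L) hq hs hx.1.1 hx.2.1 hx.2.2 G H).1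
      have h4 := hG _ (not_le.1 h)
      rw [h3] at h4
      rw [h4]
      ring
  rw [e2]
  refine Finset.sum_nbij' (fun d => (⟨d / Nat.gcd q d, q / Nat.gcd q d⟩ : Σ _ : ℕ, ℕ))
    (fun x => q / x.2 * x.1) ?_ ?_ ?_ ?_ ?_
  · intro d hd
    rw [Finset.mem_Icc] at hd
    have hg : 0 < Nat.gcd q d := Nat.gcd_pos_of_pos_left _ hq
    have h1 : q / Nat.gcd q d ∣ q := Nat.div_dvd_of_dvd (Nat.gcd_dvd_left q d)
    have h2 : q / (q / Nat.gcd q d) = Nat.gcd q d :=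
      Nat.div_div_self (Nat.gcd_dvd_left q d) (by omega)
    have h3 : Nat.gcd q d * (d / Nat.gcd q d) = d := Nat.mul_div_cancel' (Nat.gcd_dvd_right q d)
    have h4 : 1 ≤ d / Nat.gcd q d :=
      Nat.div_pos (Nat.le_of_dvd hd.1 (Nat.gcd_dvd_right q d)) hg
    rw [Finset.mem_filter, Finset.mem_sigma, Finset.mem_Icc, mem_divisors_cop hq]
    refine ⟨⟨⟨h4, (Nat.div_le_self _ _).trans hd.2⟩, h1,
      Nat.coprime_div_gcd_div_gcd hg⟩, ?_⟩
    show q / (q / Nat.gcd q d) * (d / Nat.gcd q d) ≤ M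
    rw [h2, h3]
    exact hd.2
  · intro x hx
    rw [Finset.mem_filter, Finset.mem_sigma, Finset.mem_Icc, mem_divisors_cop hq] at hx
    obtain ⟨⟨hx1, hx2⟩, hx3⟩ := hx
    have h2 := (NBj_arith hq hx1.1 hx2.1 hx2.2).2.1
    rw [Finset.mem_Icc]
    exact ⟨Nat.mul_pos h2 hx1.1, hx3⟩
  · intro d hd
    rw [Finset.mem_Icc] at hd
    have h2 : q / (q / Nat.gcd q d) = Nat.gcd q d :=
      Nat.div_div_self (Nat.gcd_dvd_left q d) (by omega)
    show q / (q / Nat.gcd q d) * (d / Nat.gcd q d) = d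
    rw [h2]
    exact Nat.mul_div_cancel' (Nat.gcd_dvd_right q d)
  · rintro ⟨r, t⟩ hx
    rw [Finset.mem_filter, Finset.mem_sigma, Finset.mem_Icc, mem_divisors_cop hq] at hx
    obtain ⟨⟨hx1, hx2⟩, hx3⟩ := hx
    obtain ⟨-, -, -, -, h5, h6, -⟩ := NBj_arith hq hx1.1 hx2.1 hx2.2
    show (⟨q / t * r / Nat.gcd q (q / t * r), q / Nat.gcd q (q / t * r)⟩ : Σ _ : ℕ, ℕ) = ⟨r, t⟩
    rw [h5, h6]
  · intro d hd
    rw [Finset.mem_Icc] at hd
    have hg : 0 < Nat.gcd q d := Nat.gcd_pos_of_pos_left _ hq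
    have h1 : q / Nat.gcd q d ∣ q := Nat.div_dvd_of_dvd (Nat.gcd_dvd_left q d)
    have h2 : q / (q / Nat.gcd q d) = Nat.gcd q d :=
      Nat.div_div_self (Nat.gcd_dvd_left q d) (by omega)
    have h3 : Nat.gcd q d * (d / Nat.gcd q d) = d := Nat.mul_div_cancel' (Nat.gcd_dvd_right q d)
    have h4 : 1 ≤ d / Nat.gcd q d :=
      Nat.div_pos (Nat.le_of_dvd hd.1 (Nat.gcd_dvd_right q d)) hg
    have h5 := (NBj_term (L := L) hq hs h4 h1 (Nat.coprime_div_gcd_div_gcd hg) G H).2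
    rw [h2, h3] at h5
    exact h5

end SFP
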