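import Pool.Agent.SFP.NA

/-!
# Module NC (3): Chebyshev

For `k ≥ 2` let `n_k` be the number of primes in `[2^(k-1), 2^k)`; for these `lp p = k`. `2 ^ ((k-1) n_k) ≤ ∏ p ≤ primorial (2^k) ≤ 4 ^ (2^k)` (`primorial_le_4_pow`), so
`n_k (k - 1) ≤ 2 ^ (k+1)`. `fp_le_sqrt`: `fp L p ≤ 1000/2^(k-1) √(L/k)`. The block contributes at most
`n_k * k * 1000/2^(k-1) * √(L/k) ≤ (2^(k+1)/(k-1)) k 1000/2^(k-1) √(L/k) = 4000 √L √k/(k-1) ≤ 8000 √L / √k` (`k/(k-1) ≤ 2`). Sum over `2 ≤ k ≤ L`: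
`∑ 1/√k ≤ 2 √L`, total `≤ 16000 L`. (`k = 1`: no primes below 2.)
-/

namespace SFP

open Finset

private theorem NC_count (M k : ℕ) (hk : 1 ≤ k) :
    (k - 1) * (((range M).filter Nat.Prime).filter (fun p => lp p = k)).card ≤ 2 ^ (k + 1) := by
  set P := ((range M).filter Nat.Prime).filter (fun p => lp p = k) with hP
  have h1 : (2 ^ (k - 1)) ^ P.card ≤ ∏ p ∈ P, p := by
    rw [← Finset.prod_const]
    apply Finset.prod_le_prod'
    intro p hp
    rw [hP, mem_filter, mem_filter] at hp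
    have h2 : 2 ^ lp p ≤ 2 * p := two_pow_lp_le hp.1.2.one_lt.le
    rw [hp.2] at h2
    have h3 : 2 ^ k = 2 * 2 ^ (k - 1) := by
      conv_lhs => rw [show k = (k - 1) + 1 by omega]
      rw [pow_succ]; ring
    omega
  have h4 : ∏ p ∈ P, p ≤ primorial (2 ^ k) := by
    unfold primorial
    apply Finset.prod_le_prod_of_subset_of_one_le'
    · intro p hp
      rw [hP, mem_filter, mem_filter] at hp
      have h2 := lt_two_pow_lp p
      rw [hp.2] at h2
      rw [mem_filter, mem_range]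
      exact ⟨by omega, hp.1.2⟩
    · intro p hp _
      rw [mem_filter] at hp
      exact hp.2.one_lt.le
  have h5 := primorial_le_four_pow (2 ^ k)
  have h6 : (2 : ℕ) ^ ((k - 1) * P.card) ≤ 2 ^ (2 ^ (k + 1)) := by
    calc (2 : ℕ) ^ ((k - 1) * P.card) = (2 ^ (k - 1)) ^ P.card := by rw [pow_mul]
      _ ≤ 4 ^ (2 ^ k) := h1.trans (h4.trans h5)
      _ = 2 ^ (2 ^ (k + 1)) := by
        rw [show (4 : ℕ) = 2 ^ 2 by norm_num, ← pow_mul]
        congr 1
        rw [pow_succ]; ring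
  exact (Nat.pow_le_pow_iff_right (by norm_num)).1 h6

private theorem NC_sqrt_sum (m : ℕ) : ∑ k ∈ Icc 1 m, 1 / √(k : ℝ) ≤ 2 * √(m : ℝ) := by
  induction m with
  | zero => simp
  | succ m ih =>
    rw [Finset.sum_Icc_succ_top (by omega)]
    have h0 : (0 : ℝ) ≤ m := Nat.cast_nonneg m
    have hs1 : 0 < √((m + 1 : ℕ) : ℝ) := Real.sqrt_pos.2 (by push_cast; linarith)
    have hs0 : 0 ≤ √(m : ℝ) := Real.sqrt_nonneg _
    have e1 : √((m + 1 : ℕ) : ℝ) ^ 2 = (m : ℝ) + 1 := by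
      rw [Real.sq_sqrt (by positivity)]; push_cast; ring
    have e0 : √(m : ℝ) ^ 2 = (m : ℝ) := Real.sq_sqrt h0
    have key : 1 / √((m + 1 : ℕ) : ℝ) ≤ 2 * √((m + 1 : ℕ) : ℝ) - 2 * √(m : ℝ) := by
      rw [div_le_iff₀ hs1]
      nlinarith [sq_nonneg (√((m + 1 : ℕ) : ℝ) - √(m : ℝ))]
    linarith

theorem cheb {L : ℕ} (hL : 1 ≤ L) :
    ∑ p ∈ (range (2 ^ L)).filter Nat.Prime, (lp p : ℝ) * fp L p ≤ 16000 * L := by
  have hL0 : (0 : ℝ) < L := by exact_mod_cast hL
  have hmaps : ∀ p ∈ (range (2 ^ L)).filter Nat.Prime, lp p ∈ Icc 1 L := by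
    intro p hp
    rw [mem_filter, mem_range] at hp
    rw [mem_Icc]
    exact ⟨lp_pos p, lp_le_of_lt hp.2.one_lt.le hp.1⟩
  rw [← Finset.sum_fiberwise_of_maps_to hmaps]
  have hblock : ∀ k ∈ Icc 1 L, ∑ p ∈ ((range (2 ^ L)).filter Nat.Prime).filter (fun p => lp p = k),
      (lp p : ℝ) * fp L p ≤ 8000 * √(L : ℝ) * (1 / √(k : ℝ)) := by
    intro k hk
    rw [mem_Icc] at hk
    have hk0 : (0 : ℝ) < k := by exact_mod_cast hk.1
    have hsk : 0 < √(k : ℝ) := Real.sqrt_pos.2 hk0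
    have hsL : 0 < √(L : ℝ) := Real.sqrt_pos.2 hL0
    rcases Nat.eq_or_lt_of_le hk.1 with h1 | h1
    · -- no prime
      have : ((range (2 ^ L)).filter Nat.Prime).filter (fun p => lp p = k) = ∅ := by
        rw [Finset.filter_eq_empty_iff]
        intro p hp hpk
        rw [mem_filter] at hp
        have h2 := lt_two_pow_lp p
        rw [hpk, ← h1] at h2
        have h3 := hp.2.two_le
        omega
      rw [this, Finset.sum_empty]
      positivity
    · set P := ((range (2 ^ L)).filter Nat.Prime).filter (fun p => lp p = k) with hP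
      have hc := NC_count (2 ^ L) k hk.1
      rw [← hP] at hc
      have hterm : ∀ p ∈ P, (lp p : ℝ) * fp L p ≤ k * (1000 / 2 ^ (k - 1) * (√(L : ℝ) / √(k : ℝ))) := by
        intro p hp
        rw [hP, mem_filter, mem_filter] at hp
        have hp1 : 1 ≤ p := hp.1.2.one_lt.le
        have h2 : 2 ^ lp p ≤ 2 * p := two_pow_lp_le hp1
        have h3 := fp_le_sqrt (L := L) (p := p) hL hp1
        rw [hp.2] at h2 h3 ⊢
        have h4 : (2 : ℕ) ^ k = 2 * 2 ^ (k - 1) := by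
          conv_lhs => rw [show k = (k - 1) + 1 by omega]
          rw [pow_succ]; ring
        have h5 : (2 : ℝ) ^ (k - 1) ≤ p := by
          have : 2 ^ (k - 1) ≤ p := by omega
          exact_mod_cast this
        have h6 : √((L : ℝ) / k) = √(L : ℝ) / √(k : ℝ) := Real.sqrt_div (Nat.cast_nonneg L) _
        rw [h6] at h3
        apply mul_le_mul_of_nonneg_left _ hk0.le
        refine h3.trans ?_
        apply mul_le_mul_of_nonneg_right _ (by positivity)
        exact div_le_div_of_nonneg_left (by norm_num) (by positivity) h5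
      refine (Finset.sum_le_card_nsmul P _ _ hterm).trans ?_
      rw [nsmul_eq_mul]
      have hk1 : (0 : ℝ) < (k : ℝ) - 1 := by
        have : (1 : ℝ) < k := by exact_mod_cast h1
        linarith
      have hk2 : (2 : ℝ) ≤ k := by exact_mod_cast h1
      have hc' : ((k : ℝ) - 1) * P.card ≤ 4 * 2 ^ (k - 1) := by
        have h7 : ((k - 1 : ℕ) : ℝ) * P.card ≤ ((2 ^ (k + 1) : ℕ) : ℝ) := by exact_mod_cast hc
        have h8 : (2 : ℕ) ^ (k + 1) = 4 * 2 ^ (k - 1) := by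
          conv_lhs => rw [show k + 1 = (k - 1) + 2 by omega]
          rw [pow_add]; ring
        rw [h8, Nat.cast_sub hk.1] at h7
        push_cast at h7
        exact h7
      have hpw : (0 : ℝ) < 2 ^ (k - 1) := by positivity
      have h9 : (P.card : ℝ) * (k * (1000 / 2 ^ (k - 1) * (√(L : ℝ) / √(k : ℝ))))
          = (P.card / 2 ^ (k - 1) * k) * (1000 * (√(L : ℝ) / √(k : ℝ))) := by ring
      have h10 : (P.card : ℝ) / 2 ^ (k - 1) * k ≤ 8 := by
        have h11 : (P.card : ℝ) / 2 ^ (k - 1) ≤ 4 / ((k : ℝ) - 1) := by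
          rw [div_le_div_iff₀ hpw hk1]
          linarith
        calc (P.card : ℝ) / 2 ^ (k - 1) * k ≤ 4 / ((k : ℝ) - 1) * k :=
              mul_le_mul_of_nonneg_right h11 hk0.le
          _ = 4 * k / ((k : ℝ) - 1) := by ring
          _ ≤ 8 := by
            rw [div_le_iff₀ hk1]
            linarith
      rw [h9]
      calc (P.card : ℝ) / 2 ^ (k - 1) * k * (1000 * (√(L : ℝ) / √(k : ℝ)))
          ≤ 8 * (1000 * (√(L : ℝ) / √(k : ℝ))) := mul_le_mul_of_nonneg_right h10 (by positivity)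
        _ = 8000 * √(L : ℝ) * (1 / √(k : ℝ)) := by ring
  refine (Finset.sum_le_sum hblock).trans ?_
  rw [← Finset.mul_sum]
  have h12 := NC_sqrt_sum L
  have hsL : 0 ≤ √(L : ℝ) := Real.sqrt_nonneg _
  calc 8000 * √(L : ℝ) * ∑ k ∈ Icc 1 L, 1 / √(k : ℝ) ≤ 8000 * √(L : ℝ) * (2 * √(L : ℝ)) :=
        mul_le_mul_of_nonneg_left h12 (by positivity)
    _ = 16000 * (√(L : ℝ) * √(L : ℝ)) := by ring
    _ = 16000 * L := by rw [Real.mul_self_sqrt hL0.le]

end SFP
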