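import Pool.Agent.SFP.LDefs

/-!
# Part N: definitions

`L = 8 * lam`, `B = 2 ^ L`.
-/

namespace SFP

open Finset

noncomputable section

/-- `p < 2 ^ lp p ≤ 2 * p`. -/
def lp (p : ℕ) : ℕ := Nat.log 2 p + 1

/-- `b_p = max (p ^ (-2/3), √(l_p / L) / 1000)`. -/
def bp (L p : ℕ) : ℝ := max ((p : ℝ) ^ (-(2 / 3) : ℝ)) (√((lp p : ℝ) / L) / 1000)

/-- `f(p) = 1 / (p b_p)` for `p < 2 ^ L`, else `0`. -/
def fp (L p : ℕ) : ℝ := if p < 2 ^ L then 1 / ((p : ℝ) * bp L p) else 0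

/-- The completely multiplicative function with `f(p) = fp L p`. -/
def fN (L n : ℕ) : ℝ := n.factorization.prod (fun p k => fp L p ^ k)

/-- The completely additive function with `ell(p) = lp p`. -/
def ellN (n : ℕ) : ℕ := n.factorization.sum (fun p k => k * lp p)

/-- `c(t) = χ(t) / (t f(t))`. -/
def cN (L t : ℕ) : ℝ := chi t / ((t : ℝ) * fN L t)

/-- `x_p`. -/
def xp (L p : ℕ) : ℝ := 40 * bp L p * √((lp p : ℝ) / L)

/-- `s_p = ∑_{τ ≤ e} c_p ^ τ`, `c_p = χ(p) b_p`. -/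
def sp (L p e : ℕ) : ℝ := ∑ τ ∈ range (e + 1), (chi p * bp L p) ^ τ

/-- `Π_q = ∏_{p | q} s_p`. -/
def PiN (L q : ℕ) : ℝ := ∏ p ∈ q.primeFactors, sp L p (q.factorization p)

/-- `h(r) = ∏_{p | q, p | r} s_p⁻¹`. -/
def hN (L q r : ℕ) : ℝ :=
  ∏ p ∈ q.primeFactors.filter (fun p => p ∣ r), (sp L p (q.factorization p))⁻¹

/-- The largest divisor of `q` coprime to `r`. -/
def cop (q r : ℕ) : ℕ := ∏ p ∈ q.primeFactors.filter (fun p => ¬ p ∣ r), p ^ q.factorization p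

/-- The averaging operator. -/
def Tw (w : ℕ) (G : ℤ → ℝ) (n : ℤ) : ℝ := (∑ a ∈ range w, G (n + a)) / w

/-- The window lengths. -/
def wi (L i : ℕ) : ℕ := L / i ^ 2 + 1

/-- `GF L C m = T_{w_{L-m+1}} ⋯ T_{w_L} 1_{n ≤ C}`; `FF^(k) = GF L C (L - k)`, `FF = GF L C L`. -/
def GF (L C : ℕ) : ℕ → ℤ → ℝ
  | 0 => fun n => if n ≤ (C : ℤ) then 1 else 0
  | m + 1 => Tw (wi L (L - m)) (GF L C m)

/-- `∑_{t | Q} c(t) G(n - ell t)`. -/
def DS (L Q : ℕ) (G : ℤ → ℝ) (n : ℤ) : ℝ := ∑ t ∈ Q.divisors, cN L t * G (n - (ellN t : ℤ))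

/-- `E_p G (n) = s_p⁻¹ ∑_{τ=1}^e c_p ^ τ (G(n - τ l_p) - G(n))`. -/
def Ep (L p e : ℕ) (G : ℤ → ℝ) (n : ℤ) : ℝ :=
  (∑ τ ∈ Icc 1 e, (chi p * bp L p) ^ τ * (G (n - (τ * lp p : ℕ)) - G n)) / sp L p e

/-- `DS` normalised by `Π_Q`. -/
def ND (L Q : ℕ) (G : ℤ → ℝ) (n : ℤ) : ℝ := DS L Q G n / PiN L Q

/-- The bound for the local factor in (N3). -/
def fac (L p e : ℕ) : ℝ := if p < 2 ^ L then fp L p ^ e / (1 - bp L p) else ((p : ℝ) ^ e)⁻¹

end

/-- Induction over prime powers: add one new prime power at a time. -/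
theorem pp_ind {P : ℕ → Prop} (h1 : P 1)
    (h2 : ∀ p e Q : ℕ, p.Prime → 1 ≤ e → 1 ≤ Q → ¬ p ∣ Q → P Q → P (p ^ e * Q)) :
    ∀ n : ℕ, 1 ≤ n → P n := by
  intro n
  induction n using Nat.strong_induction_on with
  | _ n ih =>
    intro hn
    rcases Nat.eq_or_lt_of_le hn with h | h
    · rw [← h]; exact h1
    · have hp : (Nat.minFac n).Prime := Nat.minFac_prime (by omega)
      obtain ⟨e, Q, hQ, hne⟩ := Nat.exists_eq_pow_mul_and_not_dvd (n := n) (by omega) n.minFac hp.ne_one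
      have he : 1 ≤ e := by
        rcases Nat.eq_zero_or_pos e with h0 | h0
        · exfalso
          apply hQ
          have h3 := Nat.minFac_dvd n
          rw [h0, pow_zero, one_mul] at hne
          rwa [← hne]
        · exact h0
      have hQ1 : 1 ≤ Q := by
        rcases Nat.eq_zero_or_pos Q with h0 | h0
        · rw [h0, mul_zero] at hne; omega
        · exact h0
      have hlt : Q < n := by
        have h4 : 2 ≤ n.minFac ^ e := by
          calc 2 ≤ n.minFac := hp.two_le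
            _ = n.minFac ^ 1 := (pow_one _).symm
            _ ≤ n.minFac ^ e := Nat.pow_le_pow_right hp.pos he
        calc Q < 2 * Q := by omega
          _ ≤ n.minFac ^ e * Q := Nat.mul_le_mul_right _ h4
          _ = n := hne.symm
      have h5 := h2 n.minFac e Q hp he hQ1 hQ (ih Q hlt hQ1)
      rwa [← hne] at h5

end SFP
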