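import Pool.Agent.SFP.NT

/-!
# Module NEa (3): one operator

`b = bp L p ∈ (0, 63/100]`, `|chi p * b| ≤ b`, `s = sp L p e ≥ 1 - b ≥ 37/100`, `w = wi L i ≥ L / i^2` (real). By `tw_shift` with `v = τ * lp p`:
`|c^τ (T G(n - v) - T G n)| ≤ b^τ * 2 g √(τ lp p / w) ≤ 2 g √(lp p / w) * (τ b^τ)` (`√τ ≤ τ`). `∑_{τ ≥ 1} τ b^τ = b / (1 - b)^2`
(finite sums are below; `tsum_coe_mul_geometric_of_norm_lt_one` or induction). So `|E| ≤ 2 g √(lp p / w) b / (1 - b)^3 ≤ 40 b √(lp p / w) g`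
(`2 / 0.37^3 ≤ 40`) and `√(lp p / w) ≤ i √(lp p / L)`.
-/

namespace SFP

open Finset

private theorem nea_sum (b : ℝ) (e : ℕ) :
    (1 - b) ^ 2 * ∑ τ ∈ Icc 1 e, (τ : ℝ) * b ^ τ =
      b - ((e : ℝ) + 1) * b ^ (e + 1) + (e : ℝ) * b ^ (e + 2) := by
  induction e with
  | zero => simp
  | succ e ih =>
    rw [Finset.sum_Icc_succ_top (by omega), mul_add, ih]
    push_cast
    ring

private theorem nea_sum_le {b : ℝ} (h0 : 0 ≤ b) (h1 : b < 1) (e : ℕ) :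
    ∑ τ ∈ Icc 1 e, (τ : ℝ) * b ^ τ ≤ b / (1 - b) ^ 2 := by
  have h2 : 0 < (1 - b) ^ 2 := by
    have : 0 < 1 - b := by linarith
    positivity
  rw [le_div_iff₀ h2, mul_comm, nea_sum]
  have h3 : 0 ≤ b ^ (e + 1) := by positivity
  have h4 : (e : ℝ) * b ^ (e + 2) ≤ (e : ℝ) * b ^ (e + 1) := by
    have : b ^ (e + 2) ≤ b ^ (e + 1) := pow_le_pow_of_le_one h0 h1.le (by omega)
    exact mul_le_mul_of_nonneg_left this (Nat.cast_nonneg _)
  nlinarith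

private theorem nea_chi (p : ℕ) : |chi p| ≤ 1 := by
  unfold chi
  split_ifs <;> norm_num

private theorem nea_w {L p i : ℕ} (hL : 1 ≤ L) (hi : 1 ≤ i) :
    √((lp p : ℝ) / (wi L i : ℕ)) ≤ i * √((lp p : ℝ) / L) := by
  have hLr : (0 : ℝ) < L := by exact_mod_cast hL
  have hir : (0 : ℝ) < i := by exact_mod_cast hi
  have hw : (L : ℝ) / (i : ℝ) ^ 2 ≤ (wi L i : ℕ) := by
    rw [div_le_iff₀ (by positivity)]
    have h1 : L < (L / i ^ 2 + 1) * i ^ 2 := by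
      have h2 := Nat.div_add_mod L (i ^ 2)
      have h3 := Nat.mod_lt L (show 0 < i ^ 2 by positivity)
      nlinarith
    unfold wi
    have h4 : (L : ℝ) < ((L / i ^ 2 + 1 : ℕ) : ℝ) * (i : ℝ) ^ 2 := by exact_mod_cast h1
    exact h4.le
  have hw0 : 0 < (L : ℝ) / (i : ℝ) ^ 2 := by positivity
  have h5 : (lp p : ℝ) / (wi L i : ℕ) ≤ (i : ℝ) ^ 2 * ((lp p : ℝ) / L) := by
    calc (lp p : ℝ) / (wi L i : ℕ) ≤ (lp p : ℝ) / ((L : ℝ) / (i : ℝ) ^ 2) :=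
          div_le_div_of_nonneg_left (Nat.cast_nonneg _) hw0 hw
      _ = (i : ℝ) ^ 2 * ((lp p : ℝ) / L) := by
          field_simp
  calc √((lp p : ℝ) / (wi L i : ℕ)) ≤ √((i : ℝ) ^ 2 * ((lp p : ℝ) / L)) := Real.sqrt_le_sqrt h5
    _ = i * √((lp p : ℝ) / L) := by
        rw [Real.sqrt_mul (by positivity), Real.sqrt_sq hir.le]

theorem ep_tw {L p : ℕ} (hL : 1 ≤ L) (hp : 2 ≤ p) (hl : lp p ≤ L) (e : ℕ) {i : ℕ} (hi : 1 ≤ i)
    {G : ℤ → ℝ} {g : ℝ} (h : ∀ n, |G n| ≤ g) (n : ℤ) :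
    |Ep L p e (Tw (wi L i) G) n| ≤ i * xp L p * g := by
  have hg : 0 ≤ g := (abs_nonneg _).trans (h 0)
  have hb0 : 0 < bp L p := bp_pos (by omega)
  have hb1 : bp L p ≤ 63 / 100 := bp_le hL hp hl
  have hs : 1 - bp L p ≤ sp L p e := sp_ge hL hp hl
  have hs' : 37 / 100 ≤ sp L p e := sp_ge' hL hp hl
  have hw1 : 1 ≤ wi L i := by unfold wi; exact Nat.le_add_left 1 _
  set b := bp L p with hb
  set s := sp L p e with hsd
  set w := wi L i with hw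
  set R := √((lp p : ℝ) / (w : ℕ)) with hR
  have hR0 : 0 ≤ R := Real.sqrt_nonneg _
  have hRle : R ≤ i * √((lp p : ℝ) / L) := nea_w hL hi
  have hterm : ∀ τ ∈ Icc 1 e,
      |(chi p * b) ^ τ * (Tw w G (n - (τ * lp p : ℕ)) - Tw w G n)| ≤
        (2 * g * R) * ((τ : ℝ) * b ^ τ) := by
    intro τ hτ
    rw [mem_Icc] at hτ
    rw [abs_mul, abs_pow, abs_mul, abs_of_pos hb0]
    have h1 : (|chi p| * b) ^ τ ≤ b ^ τ := by
      apply pow_le_pow_left₀ (by positivity)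
      have := nea_chi p
      nlinarith
    have h2 := tw_shift h hw1 (τ * lp p) n
    have h3 : √(((τ * lp p : ℕ) : ℝ) / (w : ℕ)) ≤ (τ : ℝ) * R := by
      have h4 : (((τ * lp p : ℕ) : ℝ) / (w : ℕ)) = (τ : ℝ) * ((lp p : ℝ) / (w : ℕ)) := by
        push_cast
        ring
      rw [h4, Real.sqrt_mul (Nat.cast_nonneg _)]
      apply mul_le_mul_of_nonneg_right _ hR0
      rw [Real.sqrt_le_left (Nat.cast_nonneg _)]
      have h5 : (1 : ℝ) ≤ τ := by exact_mod_cast hτ.1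
      nlinarith
    have h6 : |Tw w G (n - (τ * lp p : ℕ)) - Tw w G n| ≤ 2 * g * ((τ : ℝ) * R) :=
      h2.trans (mul_le_mul_of_nonneg_left h3 (by positivity))
    calc (|chi p| * b) ^ τ * |Tw w G (n - (τ * lp p : ℕ)) - Tw w G n|
        ≤ b ^ τ * (2 * g * ((τ : ℝ) * R)) := by
          apply mul_le_mul h1 h6 (abs_nonneg _) (by positivity)
      _ = (2 * g * R) * ((τ : ℝ) * b ^ τ) := by ring
  have hsum : |∑ τ ∈ Icc 1 e, (chi p * b) ^ τ * (Tw w G (n - (τ * lp p : ℕ)) - Tw w G n)| ≤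
      (2 * g * R) * (b / (1 - b) ^ 2) := by
    calc |∑ τ ∈ Icc 1 e, (chi p * b) ^ τ * (Tw w G (n - (τ * lp p : ℕ)) - Tw w G n)|
        ≤ ∑ τ ∈ Icc 1 e, |(chi p * b) ^ τ * (Tw w G (n - (τ * lp p : ℕ)) - Tw w G n)| :=
          abs_sum_le_sum_abs _ _
      _ ≤ ∑ τ ∈ Icc 1 e, (2 * g * R) * ((τ : ℝ) * b ^ τ) := sum_le_sum hterm
      _ = (2 * g * R) * ∑ τ ∈ Icc 1 e, ((τ : ℝ) * b ^ τ) := by rw [mul_sum]
      _ ≤ (2 * g * R) * (b / (1 - b) ^ 2) :=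
          mul_le_mul_of_nonneg_left (nea_sum_le hb0.le (by linarith) e) (by positivity)
  unfold Ep xp
  rw [← hb, ← hsd, abs_div, abs_of_pos (show 0 < s by linarith)]
  rw [div_le_iff₀ (by linarith)]
  have hc : (0 : ℝ) < 1 - b := by linarith
  have h7 : 2 * (b / (1 - b) ^ 2) ≤ 40 * b * s := by
    have h8 : 2 * (b / (1 - b) ^ 2) ≤ 40 * b * (1 - b) := by
      rw [mul_div_assoc', div_le_iff₀ (by positivity)]
      have h9 : (37 / 100 : ℝ) ^ 3 ≤ (1 - b) ^ 3 := by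
        apply pow_le_pow_left₀ (by norm_num)
        linarith
      have h10 : 2 ≤ 40 * (1 - b) ^ 3 := by
        have : (2 : ℝ) ≤ 40 * (37 / 100 : ℝ) ^ 3 := by norm_num
        linarith
      calc 2 * b = b * 2 := by ring
        _ ≤ b * (40 * (1 - b) ^ 3) := mul_le_mul_of_nonneg_left h10 hb0.le
        _ = 40 * b * (1 - b) * (1 - b) ^ 2 := by ring
    have h11 : 40 * b * (1 - b) ≤ 40 * b * s := mul_le_mul_of_nonneg_left hs (by positivity)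
    linarith
  calc |∑ τ ∈ Icc 1 e, (chi p * b) ^ τ * (Tw w G (n - (τ * lp p : ℕ)) - Tw w G n)|
      ≤ (2 * g * R) * (b / (1 - b) ^ 2) := hsum
    _ = (g * R) * (2 * (b / (1 - b) ^ 2)) := by ring
    _ ≤ (g * R) * (40 * b * s) := mul_le_mul_of_nonneg_left h7 (by positivity)
    _ = (40 * b * s * g) * R := by ring
    _ ≤ (40 * b * s * g) * (i * √((lp p : ℝ) / L)) := by
        apply mul_le_mul_of_nonneg_left hRle
        have : 0 < s := by linarith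
        positivity
    _ = i * (40 * b * √((lp p : ℝ) / L)) * g * s := by ring

end SFP
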