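import Pool.Agent.SFP.NM

/-!
# Module NEb (3): the recursion for `ND`

`nd_one`: `divisors 1 = {1}`, `cN 1 = 1`, `ellN 1 = 0`, `PiN 1 = 1`.
`nd_rec`: `p ∤ Q`, `p < 2^L` prime: the divisors of `p^e * Q` are `p^τ * t`, `τ ≤ e`, `t | Q` (`Nat.divisors_mul`, `Nat.Coprime.sum_divisors_mul..`,
`Nat.divisors_prime_pow`; or a bijection `range (e+1) ×ˢ Q.divisors`), `cN (p^τ t) = c^τ cN t`, `ellN (p^τ t) = τ lp p + ellN t`, so
`DS (p^e Q) G n = ∑_{τ ≤ e} c^τ DS Q G (n - τ lp p) = s_p DS Q G n + ∑_{τ=1}^e c^τ (DS Q G (n - τ lp p) - DS Q G n)`; `PiN (p^e Q) = s_p PiN Q`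
(primeFactors of a coprime product, factorizations). Divide by `s_p PiN Q` (`≠ 0`).
`nd_tw`, `ep_..`: `DS`, `Ep` are linear combinations of translations, so they commute with `Tw` (`Finset.sum_comm`).
`ds_one`: `G = 1`: `∑_{t | Q} cN t = ∏ s_p = PiN Q` (same recursion: `ND L Q 1 = 1`).
-/

namespace SFP

open Finset

theorem NEb_sum {p e Q : ℕ} (hp : p.Prime) (hpQ : ¬ p ∣ Q) (f : ℕ → ℝ) :
    ∑ t ∈ (p ^ e * Q).divisors, f t = ∑ τ ∈ range (e + 1), ∑ t ∈ Q.divisors, f (p ^ τ * t) := by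
  have hcop : Nat.Coprime (p ^ e) Q := Nat.Coprime.pow_left e ((Nat.Prime.coprime_iff_not_dvd hp).2 hpQ)
  rw [Nat.divisors_mul, Finset.mul_def, Finset.sum_image, Finset.sum_product,
    Nat.sum_divisors_prime_pow hp]
  exact hcop.mul_injOn_divisors

theorem NEb_PiN {L p e Q : ℕ} (hp : p.Prime) (he : 1 ≤ e) (hQ : 1 ≤ Q) (hpQ : ¬ p ∣ Q) :
    PiN L (p ^ e * Q) = sp L p e * PiN L Q := by
  have hpp : p ∉ Q.primeFactors := fun h => hpQ (Nat.dvd_of_mem_primeFactors h)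
  have hcop : Nat.Coprime (p ^ e) Q := Nat.Coprime.pow_left e ((Nat.Prime.coprime_iff_not_dvd hp).2 hpQ)
  have hpe : p ^ e ≠ 0 := pow_ne_zero _ hp.ne_zero
  have hQ0 : Q ≠ 0 := by omega
  have h1 : (p ^ e * Q).primeFactors = insert p Q.primeFactors := by
    rw [Nat.primeFactors_mul hpe hQ0, Nat.primeFactors_prime_pow (by omega) hp]
    rfl
  unfold PiN
  rw [h1, Finset.prod_insert hpp]
  congr 1
  · congr 1
    rw [Nat.factorization_mul hpe hQ0, Finsupp.add_apply, Nat.Prime.factorization_pow hp,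
      Finsupp.single_eq_same, Nat.factorization_eq_zero_of_not_dvd hpQ, add_zero]
  · refine Finset.prod_congr rfl (fun r hr => ?_)
    congr 1
    have hrp : r ≠ p := fun h => hpp (h ▸ hr)
    rw [Nat.factorization_mul hpe hQ0, Finsupp.add_apply, Nat.Prime.factorization_pow hp,
      Finsupp.single_eq_of_ne hrp, zero_add]

theorem nd_one (L : ℕ) (G : ℤ → ℝ) (n : ℤ) : ND L 1 G n = G n := by
  unfold ND DS PiN
  rw [Nat.divisors_one, Finset.sum_singleton, Nat.primeFactors_one, Finset.prod_empty, cN_one,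
    ellN_one]
  simp

theorem NEb_DS {L p e Q : ℕ} (hp : p.Prime) (hpQ : ¬ p ∣ Q)
    (hp2 : p < 2 ^ L) (G : ℤ → ℝ) (n : ℤ) :
    DS L (p ^ e * Q) G n
      = ∑ τ ∈ range (e + 1), (chi p * bp L p) ^ τ * DS L Q G (n - (τ * lp p : ℕ)) := by
  unfold DS
  rw [NEb_sum hp hpQ]
  refine Finset.sum_congr rfl (fun τ _ => ?_)
  rw [Finset.mul_sum]
  refine Finset.sum_congr rfl (fun t ht => ?_)
  have ht0 : t ≠ 0 := (Nat.pos_of_mem_divisors ht).ne'
  have hpt : p ^ τ ≠ 0 := pow_ne_zero _ hp.ne_zero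
  rw [cN_mul L hpt ht0, cN_pp hp hp2, ellN_mul hpt ht0, ellN_pp hp, mul_assoc]
  congr 3
  push_cast
  ring

theorem nd_rec {L p e Q : ℕ} (hL : 1 ≤ L) (hp : p.Prime) (he : 1 ≤ e) (hQ : 1 ≤ Q) (hpQ : ¬ p ∣ Q)
    (hp2 : p < 2 ^ L) (hs : ∀ r ∈ Q.primeFactors, r < 2 ^ L) (G : ℤ → ℝ) (n : ℤ) :
    ND L (p ^ e * Q) G n = ND L Q G n + Ep L p e (ND L Q G) n := by
  have hlp : lp p ≤ L := lp_le_of_lt hp.one_le hp2
  have hsp : sp L p e ≠ 0 := by
    have := sp_ge' (L := L) (p := p) (e := e) hL hp.two_le hlp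
    linarith
  have h1 : DS L (p ^ e * Q) G n = sp L p e * DS L Q G n
      + ∑ τ ∈ Icc 1 e, (chi p * bp L p) ^ τ * (DS L Q G (n - (τ * lp p : ℕ)) - DS L Q G n) := by
    rw [NEb_DS hp hpQ hp2]
    have h2 : ∑ τ ∈ Icc 1 e, (chi p * bp L p) ^ τ * (DS L Q G (n - (τ * lp p : ℕ)) - DS L Q G n)
        = ∑ τ ∈ range (e + 1),
          (chi p * bp L p) ^ τ * (DS L Q G (n - (τ * lp p : ℕ)) - DS L Q G n) := by
      apply Finset.sum_subset
      · intro τ hτ
        rw [Finset.mem_Icc] at hτ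
        rw [Finset.mem_range]
        omega
      · intro τ hτ hτ'
        rw [Finset.mem_range] at hτ
        rw [Finset.mem_Icc] at hτ'
        have h0 : τ = 0 := by omega
        rw [h0]
        simp
    rw [h2]
    unfold sp
    rw [Finset.sum_mul, ← Finset.sum_add_distrib]
    refine Finset.sum_congr rfl (fun τ _ => ?_)
    ring
  unfold Ep ND
  rw [h1, NEb_PiN hp he hQ hpQ, add_div, mul_div_mul_left _ _ hsp]
  congr 1
  rw [mul_comm (sp L p e), ← div_div]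
  congr 1
  rw [Finset.sum_div]
  refine Finset.sum_congr rfl (fun τ _ => ?_)
  rw [← sub_div, mul_div_assoc]

theorem nd_tw (L Q w : ℕ) (G : ℤ → ℝ) (n : ℤ) : ND L Q (Tw w G) n = Tw w (ND L Q G) n := by
  unfold ND DS Tw
  rw [← Finset.sum_div]
  have h1 : ∑ t ∈ Q.divisors, cN L t * ((∑ a ∈ range w, G (n - (ellN t : ℤ) + a)) / w)
      = (∑ a ∈ range w, ∑ t ∈ Q.divisors, cN L t * G (n + a - (ellN t : ℤ))) / w := by
    rw [Finset.sum_comm, Finset.sum_div]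
    refine Finset.sum_congr rfl (fun t _ => ?_)
    rw [← Finset.mul_sum, mul_div_assoc]
    congr 2
    refine Finset.sum_congr rfl (fun a _ => ?_)
    congr 1
    ring
  rw [h1, div_div, div_div, mul_comm (w : ℝ)]

theorem ds_one {L Q : ℕ} (hL : 1 ≤ L) (hQ : 1 ≤ Q) (hs : ∀ r ∈ Q.primeFactors, r < 2 ^ L) :
    ∑ t ∈ Q.divisors, cN L t = PiN L Q := by
  revert hs
  refine pp_ind (P := fun Q => (∀ r ∈ Q.primeFactors, r < 2 ^ L) →
    ∑ t ∈ Q.divisors, cN L t = PiN L Q) ?_ ?_ Q hQ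
  · intro _
    unfold PiN
    rw [Nat.divisors_one, Finset.sum_singleton, Nat.primeFactors_one, Finset.prod_empty, cN_one]
  · intro p e Q hp he hQ hpQ ih hs
    have hpe : p ^ e ≠ 0 := pow_ne_zero _ hp.ne_zero
    have hQ0 : Q ≠ 0 := by omega
    have hpf : (p ^ e * Q).primeFactors = insert p Q.primeFactors := by
      rw [Nat.primeFactors_mul hpe hQ0, Nat.primeFactors_prime_pow (by omega) hp]
      rfl
    have hp2 : p < 2 ^ L := hs p (by rw [hpf]; exact Finset.mem_insert_self _ _)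
    have ih' := ih (fun r hr => hs r (by rw [hpf]; exact Finset.mem_insert_of_mem hr))
    rw [NEb_sum hp hpQ, NEb_PiN hp he hQ hpQ, ← ih']
    unfold sp
    rw [Finset.sum_mul]
    refine Finset.sum_congr rfl (fun τ _ => ?_)
    rw [Finset.mul_sum]
    refine Finset.sum_congr rfl (fun t ht => ?_)
    have ht0 : t ≠ 0 := (Nat.pos_of_mem_divisors ht).ne'
    rw [cN_mul L (pow_ne_zero _ hp.ne_zero) ht0, cN_pp hp hp2]

end SFP
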