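import Pool.Agent.SFP.NEa
import Pool.Agent.SFP.NEb

/-!
# Module NEc (3): expansion

`nd_bd`, by `pp_ind` (for all `k` at once): `S = ∑_{p | Q} x_p < 1`, `|Q.primeFactors| + k ≤ L` imply `|ND L Q (GF L C (L - k)) n| ≤ ((1 - S)^(k+1))⁻¹`.
`Q = 1`: `|GF| ≤ 1`. Step `Q' = p^e Q` (`primeFactors Q' = insert p Q.primeFactors`, `S' = S + x`, `x = xp L p > 0`): `k + 1 ≤ L`, so
`GF L C (L - k) = Tw (wi L (k+1)) (GF L C (L - (k+1)))` (`L - k = (L - (k+1)) + 1`, `L - (L - (k+1)) = k + 1`), and by `nd_rec`, `nd_tw`: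
`ND Q' GF^(k) n = ND Q GF^(k) n + Ep (Tw (wi L (k+1)) (ND Q GF^(k+1))) n`, so by `ep_tw` and the induction hypotheses for `k` and `k + 1`
`|..| ≤ (1-S)^{-(k+1)} + (k+1) x (1-S)^{-(k+2)} ≤ (1 - S - x)^{-(k+1)}`: with `u = x/(1-S) < 1`: `1 + (k+1) u ≤ (1+u)^(k+1) ≤ (1-u)^{-(k+1)}` (Bernoulli `one_add_mul_le_pow`, `(1+u)(1-u) ≤ 1`).
`nd_dev`, by `pp_ind`: `|ND L Q (GF L C L) n - GF L C L n| ≤ S / (1 - S)`: step: `≤ S/(1-S) + x (1-S)^{-2} ≤ (S+x)/(1-S-x)`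
(`(S+x)/(1-S-x) - S/(1-S) = x / ((1-S)(1-S-x))`).
`exp_thm`: `S ≤ 1/4`: `S/(1-S) ≤ 1/3`; multiply by `PiN L Q > 0` (`ND = DS / PiN`).
-/

namespace SFP

open Finset

private theorem NEc_gf (L C : ℕ) : ∀ m : ℕ, ∀ n : ℤ, |GF L C m n| ≤ 1 := by
  intro m
  induction m with
  | zero =>
    intro n
    unfold GF
    split_ifs <;> simp
  | succ m ih =>
    intro n
    show |Tw (wi L (L - m)) (GF L C m) n| ≤ 1
    unfold Tw
    have hw : (0 : ℝ) < (wi L (L - m) : ℕ) := by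
      unfold wi
      positivity
    rw [abs_div, abs_of_pos hw, div_le_one hw]
    calc |∑ a ∈ range (wi L (L - m)), GF L C m (n + a)| ≤ ∑ a ∈ range (wi L (L - m)), |GF L C m (n + a)| :=
          Finset.abs_sum_le_sum_abs _ _
      _ ≤ ∑ _a ∈ range (wi L (L - m)), (1 : ℝ) := Finset.sum_le_sum (fun a _ => ih _)
      _ = (wi L (L - m) : ℕ) := by simp

private theorem NEc_xp {L p : ℕ} (hp : 1 ≤ p) : 0 ≤ xp L p := by
  unfold xp
  have := (bp_pos (L := L) hp).le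
  positivity

private theorem NEc_pf {p e Q : ℕ} (hp : p.Prime) (he : 1 ≤ e) (hQ : 1 ≤ Q) :
    (p ^ e * Q).primeFactors = insert p Q.primeFactors := by
  rw [Nat.primeFactors_mul (pow_ne_zero _ hp.ne_zero) (by omega), Nat.primeFactors_prime_pow (by omega) hp]
  rfl

private theorem NEc_notmem {p Q : ℕ} (hpQ : ¬ p ∣ Q) : p ∉ Q.primeFactors :=
  fun h => hpQ (Nat.dvd_of_mem_primeFactors h)

private theorem NEc_S {L Q : ℕ} : 0 ≤ ∑ p ∈ Q.primeFactors, xp L p :=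
  Finset.sum_nonneg (fun _ hp => NEc_xp (Nat.prime_of_mem_primeFactors hp).one_lt.le)

/-- the inequality of the step -/
private theorem NEc_ineq {S x : ℝ} (hx : 0 ≤ x) (h : x + S < 1) (m : ℕ) :
    ((1 - S) ^ m)⁻¹ + m * x * ((1 - S) ^ (m + 1))⁻¹ ≤ ((1 - (x + S)) ^ m)⁻¹ := by
  have ha : 0 < 1 - S := by linarith
  have hb : 0 < 1 - (x + S) := by linarith
  set a := 1 - S with hadef
  set u := x / a with hu
  have hu0 : 0 ≤ u := div_nonneg hx ha.le
  have hu1 : u < 1 := by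
    rw [hu, div_lt_one ha]
    linarith
  have hxu : x = a * u := by
    rw [hu]; field_simp
  have hb' : 1 - (x + S) = a * (1 - u) := by
    rw [mul_sub, ← hxu]; linarith
  rw [hb', mul_pow, hxu]
  have h1u : 0 < 1 - u := by linarith
  have e1 : (a ^ m)⁻¹ + m * (a * u) * (a ^ (m + 1))⁻¹ = (a ^ m)⁻¹ * (1 + m * u) := by
    rw [pow_succ]
    field_simp
  rw [e1, mul_inv]
  apply mul_le_mul_of_nonneg_left _ (by positivity)
  have h2 : 1 + (m : ℝ) * u ≤ (1 + u) ^ m := one_add_mul_le_pow (by linarith) m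
  have h3 : (1 + u) ^ m * (1 - u) ^ m ≤ 1 := by
    rw [← mul_pow]
    apply pow_le_one₀ (by positivity)
    nlinarith
  rw [le_inv_comm₀ (by positivity) (by positivity)]
  rw [← one_div, le_div_iff₀ (by positivity)]
  calc (1 - u) ^ m * (1 + m * u) ≤ (1 - u) ^ m * (1 + u) ^ m :=
        mul_le_mul_of_nonneg_left h2 (by positivity)
    _ = (1 + u) ^ m * (1 - u) ^ m := mul_comm _ _
    _ ≤ 1 := h3

theorem nd_bd {L : ℕ} (hL : 1 ≤ L) (C : ℕ) : ∀ Q : ℕ, 1 ≤ Q → (∀ p ∈ Q.primeFactors, p < 2 ^ L) →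
    ∑ p ∈ Q.primeFactors, xp L p < 1 → ∀ k : ℕ, Q.primeFactors.card + k ≤ L → ∀ n : ℤ,
    |ND L Q (GF L C (L - k)) n| ≤ ((1 - ∑ p ∈ Q.primeFactors, xp L p) ^ (k + 1))⁻¹ := by
  intro Q hQ
  refine pp_ind (P := fun Q => (∀ p ∈ Q.primeFactors, p < 2 ^ L) →
    ∑ p ∈ Q.primeFactors, xp L p < 1 → ∀ k : ℕ, Q.primeFactors.card + k ≤ L → ∀ n : ℤ,
    |ND L Q (GF L C (L - k)) n| ≤ ((1 - ∑ p ∈ Q.primeFactors, xp L p) ^ (k + 1))⁻¹) ?_ ?_ Q hQ
  · intro _ _ k _ n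
    rw [nd_one]
    simp only [Nat.primeFactors_one, Finset.sum_empty, sub_zero, one_pow, inv_one]
    exact NEc_gf L C _ n
  · intro p e Q hp he hQ hpQ ih hs hS k hk n
    rw [NEc_pf hp he hQ] at hs hS hk ⊢
    rw [Finset.sum_insert (NEc_notmem hpQ)] at hS ⊢
    rw [Finset.card_insert_of_notMem (NEc_notmem hpQ)] at hk
    have hp2 : p < 2 ^ L := hs p (mem_insert_self _ _)
    have hs' : ∀ r ∈ Q.primeFactors, r < 2 ^ L := fun r hr => hs r (mem_insert_of_mem hr)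
    have hxp : 0 ≤ xp L p := NEc_xp hp.one_lt.le
    have hS' : ∑ p ∈ Q.primeFactors, xp L p < 1 := by linarith
    rw [nd_rec hL hp he hQ hpQ hp2 hs']
    have i0 := ih hs' hS' k (by omega) n
    have i1 := ih hs' hS' (k + 1) (by omega)
    have hGF : GF L C (L - k) = Tw (wi L (k + 1)) (GF L C (L - (k + 1))) := by
      have e1 : L - k = (L - (k + 1)) + 1 := by omega
      rw [e1]
      show Tw (wi L (L - (L - (k + 1)))) (GF L C (L - (k + 1))) = _
      rw [show L - (L - (k + 1)) = k + 1 by omega]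
    have hND : ND L Q (GF L C (L - k)) = Tw (wi L (k + 1)) (ND L Q (GF L C (L - (k + 1)))) := by
      rw [hGF]
      funext y
      exact nd_tw L Q _ _ y
    have hE := ep_tw hL hp.two_le (lp_le_of_lt hp.one_lt.le hp2) e (i := k + 1) (by omega) i1 n
    rw [← hND] at hE
    have h3 := NEc_ineq hxp hS (k + 1)
    push_cast at h3 hE
    calc |ND L Q (GF L C (L - k)) n + Ep L p e (ND L Q (GF L C (L - k))) n|
        ≤ |ND L Q (GF L C (L - k)) n| + |Ep L p e (ND L Q (GF L C (L - k))) n| := abs_add_le _ _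
      _ ≤ _ := by
        refine (add_le_add i0 hE).trans ?_
        exact h3

private theorem NEc_dev {L : ℕ} (hL : 1 ≤ L) (C : ℕ) (Q : ℕ) (hQ : 1 ≤ Q) :
    (∀ p ∈ Q.primeFactors, p < 2 ^ L) → ∑ p ∈ Q.primeFactors, xp L p < 1 → Q.primeFactors.card ≤ L →
    ∀ n : ℤ, |ND L Q (GF L C L) n - GF L C L n| ≤
      (∑ p ∈ Q.primeFactors, xp L p) / (1 - ∑ p ∈ Q.primeFactors, xp L p) := by
  refine pp_ind (P := fun Q => (∀ p ∈ Q.primeFactors, p < 2 ^ L) →
    ∑ p ∈ Q.primeFactors, xp L p < 1 → Q.primeFactors.card ≤ L →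
    ∀ n : ℤ, |ND L Q (GF L C L) n - GF L C L n| ≤
      (∑ p ∈ Q.primeFactors, xp L p) / (1 - ∑ p ∈ Q.primeFactors, xp L p)) ?_ ?_ Q hQ
  · intro _ _ _ n
    rw [nd_one]
    simp
  · intro p e Q hp he hQ hpQ ih hs hS hk n
    rw [NEc_pf hp he hQ] at hs hS hk ⊢
    rw [Finset.sum_insert (NEc_notmem hpQ)] at hS ⊢
    rw [Finset.card_insert_of_notMem (NEc_notmem hpQ)] at hk
    have hp2 : p < 2 ^ L := hs p (mem_insert_self _ _)
    have hs' : ∀ r ∈ Q.primeFactors, r < 2 ^ L := fun r hr => hs r (mem_insert_of_mem hr)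
    have hxp : 0 ≤ xp L p := NEc_xp hp.one_lt.le
    have hS' : ∑ p ∈ Q.primeFactors, xp L p < 1 := by linarith
    rw [nd_rec hL hp he hQ hpQ hp2 hs']
    have i0 := ih hs' hS' (by omega) n
    have i1 := nd_bd hL C Q hQ hs' hS' 1 (by omega)
    have hGF : GF L C L = Tw (wi L 1) (GF L C (L - 1)) := by
      have e1 : L = (L - 1) + 1 := by omega
      conv_lhs => rw [e1]
      show Tw (wi (L - 1 + 1) (L - 1 + 1 - (L - 1))) (GF (L - 1 + 1) C (L - 1)) = _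
      rw [← e1, show L - (L - 1) = 1 by omega]
    have hND : ND L Q (GF L C L) = Tw (wi L 1) (ND L Q (GF L C (L - 1))) := by
      conv_lhs => rw [hGF]
      funext y
      exact nd_tw L Q _ _ y
    have hE := ep_tw hL hp.two_le (lp_le_of_lt hp.one_lt.le hp2) e (i := 1) le_rfl i1 n
    rw [← hND] at hE
    set S := ∑ p ∈ Q.primeFactors, xp L p with hSdef
    have hS0 : 0 ≤ S := NEc_S
    set x := xp L p with hxdef
    have ha : 0 < 1 - S := by linarith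
    have hb : 0 < 1 - (x + S) := by linarith
    have h3 : S / (1 - S) + x * ((1 - S) ^ 2)⁻¹ ≤ (x + S) / (1 - (x + S)) := by
      have e1 : (x + S) / (1 - (x + S)) - S / (1 - S) = x / ((1 - S) * (1 - (x + S))) := by
        field_simp
        ring
      have e2 : x * ((1 - S) ^ 2)⁻¹ ≤ x / ((1 - S) * (1 - (x + S))) := by
        rw [← div_eq_mul_inv]
        apply div_le_div_of_nonneg_left hxp (by positivity)
        nlinarith
      linarith
    have h4 : |Ep L p e (ND L Q (GF L C L)) n| ≤ x * ((1 - S) ^ 2)⁻¹ := by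
      refine hE.trans (le_of_eq ?_)
      push_cast
      ring
    calc |ND L Q (GF L C L) n + Ep L p e (ND L Q (GF L C L)) n - GF L C L n|
        = |(ND L Q (GF L C L) n - GF L C L n) + Ep L p e (ND L Q (GF L C L)) n| := by ring_nf
      _ ≤ |ND L Q (GF L C L) n - GF L C L n| + |Ep L p e (ND L Q (GF L C L)) n| := abs_add_le _ _
      _ ≤ S / (1 - S) + x * ((1 - S) ^ 2)⁻¹ := add_le_add i0 h4
      _ ≤ _ := h3

theorem exp_thm {L : ℕ} (hL : 1 ≤ L) (C Q : ℕ) (hQ : 1 ≤ Q) (hs : ∀ p ∈ Q.primeFactors, p < 2 ^ L)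
    (hx : ∑ p ∈ Q.primeFactors, xp L p ≤ 1 / 4) (hc : Q.primeFactors.card ≤ L) (n : ℤ) :
    |DS L Q (GF L C L) n - PiN L Q * GF L C L n| ≤ PiN L Q / 3 := by
  have h1 := NEc_dev hL C Q hQ hs (by linarith) hc n
  have hS0 : 0 ≤ ∑ p ∈ Q.primeFactors, xp L p := NEc_S
  have h2 : (∑ p ∈ Q.primeFactors, xp L p) / (1 - ∑ p ∈ Q.primeFactors, xp L p) ≤ 1 / 3 := by
    rw [div_le_iff₀ (by linarith)]
    linarith
  have hPi : 0 < PiN L Q := by
    unfold PiN
    apply Finset.prod_pos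
    intro p hp
    have hpp := Nat.prime_of_mem_primeFactors hp
    have := sp_ge' (L := L) (p := p) (e := Q.factorization p) hL hpp.two_le
      (lp_le_of_lt hpp.one_lt.le (hs p hp))
    linarith
  have h3 : DS L Q (GF L C L) n = PiN L Q * ND L Q (GF L C L) n := by
    unfold ND
    field_simp
  rw [h3, ← mul_sub, abs_mul, abs_of_pos hPi]
  calc PiN L Q * |ND L Q (GF L C L) n - GF L C L n| ≤ PiN L Q * (1 / 3) :=
        mul_le_mul_of_nonneg_left (h1.trans h2) hPi.le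
    _ = PiN L Q / 3 := by ring

end SFP
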