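import Pool.Agent.SFP.NM

/-!
# Module NG (3): the mean of `gcd(q, d) / q`

By `pp_ind` on `q` prove the more general: for every `φ : ℕ → ℝ`, `φ ≥ 0`, such that `φ (p * d) = φ d` for all primes `p | q` and `d ≥ 1`:
`∑_{d ∈ R} fN d φ d gcd(q,d)/q ≤ (∏_{p | q} fac p (v_p q)) ∑_{d ∈ R} fN d φ d`, `R = Icc 1 M`. Step `q' = p^e q`, `p ∤ q`: `gcd(q', d)/q' = (gcd(p^e, d)/p^e) (gcd(q, d)/q)`.
Put `ψ d = φ d gcd(q,d)/q`; `ψ (p d) = ψ d` (`gcd(q, p d) = gcd(q, d)` as `p ∤ q`). `gcd(p^e, d)/p^e ≤ ∑_{k ≤ e, p^k | d} p^k/p^e` (the top term alone), and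
`∑_{d ∈ R, p^k | d} fN d ψ d ≤ fp^k ∑_{R} fN ψ` (`d = p^k d''`, `d'' ∈ R`). So the sum is `≤ (∑_{k ≤ e} fp^k p^(k-e)) ∑_R fN ψ`, and `∑_{k ≤ e} fp^k p^(k-e) ≤ fac L p e`:
for `p < 2^L`: `= fp^e ∑_{j ≤ e} (p fp)^(-j) = fp^e ∑ b^j ≤ fp^e/(1-b)` (`b ≤ 63/100`); for `p ≥ 2^L`: `fp = 0`, only `k = 0` remains: `p^(-e)`. Then the induction hypothesis for `q` with `φ`
(`φ (p' d) = φ d` for the primes `p' | q`).
-/

namespace SFP

open Finset

theorem NG_prod {p e Q : ℕ} (hp : p.Prime) (he : 1 ≤ e) (hQ : 1 ≤ Q) (hpQ : ¬ p ∣ Q) (F : ℕ → ℕ → ℝ) :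
    ∏ x ∈ (p ^ e * Q).primeFactors, F x ((p ^ e * Q).factorization x) =
      F p e * ∏ x ∈ Q.primeFactors, F x (Q.factorization x) := by
  have hpe : p ^ e ≠ 0 := (pow_pos hp.pos e).ne'
  have hQ0 : Q ≠ 0 := by omega
  have h1 : (p ^ e * Q).primeFactors = insert p Q.primeFactors := by
    rw [Nat.primeFactors_mul hpe hQ0, Nat.primeFactors_prime_pow (by omega) hp]
    rfl
  have h2 : p ∉ Q.primeFactors := fun h => hpQ (Nat.dvd_of_mem_primeFactors h)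
  have h3 : ∀ x, (p ^ e * Q).factorization x = (if x = p then e else 0) + Q.factorization x := by
    intro x
    rw [Nat.factorization_mul hpe hQ0, hp.factorization_pow, Finsupp.add_apply, Finsupp.single_apply]
    congr 1
    by_cases h : x = p
    · rw [if_pos h, if_pos h.symm]
    · rw [if_neg h, if_neg (fun h' => h h'.symm)]
  rw [h1, prod_insert h2, h3, if_pos rfl, Nat.factorization_eq_zero_of_not_dvd hpQ, add_zero]
  congr 1
  apply prod_congr rfl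
  intro x hx
  rw [h3, if_neg (by rintro rfl; exact h2 hx), zero_add]

theorem NG_local {L p e : ℕ} (hL : 1 ≤ L) (hp : p.Prime) :
    ∑ k ∈ range (e + 1), fp L p ^ k * ((p : ℝ) ^ k / (p : ℝ) ^ e) ≤ fac L p e := by
  have hp0 : (0 : ℝ) < p := by exact_mod_cast hp.pos
  unfold fac
  split_ifs with h
  · have hb := bp_le hL hp.two_le (lp_le_of_lt hp.one_le h)
    have hb0 : 0 < bp L p := bp_pos hp.one_le
    have hm := fp_mul hp.one_le h
    have h1 : ∀ k ∈ range (e + 1), fp L p ^ (e - k) * ((p : ℝ) ^ (e - k) / (p : ℝ) ^ e) =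
        fp L p ^ e * bp L p ^ k := by
      intro k hk
      have hk' : k ≤ e := by rw [mem_range] at hk; omega
      have h2 : (p : ℝ) ^ e = p ^ (e - k) * p ^ k := by rw [← pow_add, Nat.sub_add_cancel hk']
      have h3 : fp L p ^ e = fp L p ^ (e - k) * fp L p ^ k := by
        rw [← pow_add, Nat.sub_add_cancel hk']
      have h4 : ((p : ℝ) ^ k) * (fp L p ^ k * bp L p ^ k) = 1 := by
        rw [← mul_pow, ← mul_pow, ← mul_assoc, hm, one_pow]
      have h5 : fp L p ^ k * bp L p ^ k = ((p : ℝ) ^ k)⁻¹ := eq_inv_of_mul_eq_one_right h4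
      rw [h3, mul_assoc, h5, h2]
      congr 1
      have h6 : (p : ℝ) ^ (e - k) ≠ 0 := by positivity
      have h7 : (p : ℝ) ^ k ≠ 0 := by positivity
      field_simp
    rw [← Finset.sum_flip, sum_congr rfl h1, ← mul_sum, div_eq_mul_inv]
    apply mul_le_mul_of_nonneg_left _ (pow_nonneg (fp_nonneg L p) e)
    have h8 := geom_sum_mul_neg (bp L p) (e + 1)
    have h9 : 0 < 1 - bp L p := by linarith
    rw [← one_div, le_div_iff₀ h9, h8]
    have := pow_nonneg hb0.le (e + 1)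
    linarith
  · push Not at h
    have h1 := fp_eq_zero h
    rw [h1, sum_range_succ']
    simp

theorem NG_shift {L p M k : ℕ} (hp : p.Prime) {ψ : ℕ → ℝ} (hψ : ∀ d, 0 ≤ ψ d)
    (hinv : ∀ d, 1 ≤ d → ψ (p * d) = ψ d) :
    ∑ d ∈ (Icc 1 M).filter (fun d => p ^ k ∣ d), fN L d * ψ d ≤
      fp L p ^ k * ∑ d ∈ Icc 1 M, fN L d * ψ d := by
  have hpk : 0 < p ^ k := pow_pos hp.pos k
  have hinv' : ∀ k d, 1 ≤ d → ψ (p ^ k * d) = ψ d := by
    intro k
    induction k with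
    | zero => intro d _; rw [pow_zero, one_mul]
    | succ k ih =>
      intro d hd
      rw [pow_succ', mul_assoc, hinv _ (Nat.mul_pos (pow_pos hp.pos k) hd), ih d hd]
  have h1 : (Icc 1 M).filter (fun d => p ^ k ∣ d) =
      ((Icc 1 M).filter (fun d => p ^ k * d ≤ M)).image (fun d => p ^ k * d) := by
    ext d
    simp only [mem_filter, mem_image, mem_Icc]
    constructor
    · rintro ⟨⟨h2, h3⟩, ⟨c, rfl⟩⟩
      have hc : 1 ≤ c := by
        rcases Nat.eq_zero_or_pos c with h0 | h0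
        · rw [h0, mul_zero] at h2; omega
        · exact h0
      exact ⟨c, ⟨⟨hc, (Nat.le_mul_of_pos_left c hpk).trans h3⟩, h3⟩, rfl⟩
    · rintro ⟨c, ⟨⟨h2, -⟩, h3⟩, rfl⟩
      exact ⟨⟨Nat.mul_pos hpk h2, h3⟩, Nat.dvd_mul_right _ _⟩
  rw [h1, sum_image (fun a _ b _ h => Nat.eq_of_mul_eq_mul_left hpk h), mul_sum]
  calc ∑ d ∈ (Icc 1 M).filter (fun d => p ^ k * d ≤ M), fN L (p ^ k * d) * ψ (p ^ k * d)
      = ∑ d ∈ (Icc 1 M).filter (fun d => p ^ k * d ≤ M), fp L p ^ k * (fN L d * ψ d) := by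
        apply sum_congr rfl
        intro d hd
        rw [mem_filter, mem_Icc] at hd
        rw [fN_mul L hpk.ne' (by omega), fN_pp L hp, hinv' k d hd.1.1, mul_assoc]
    _ ≤ ∑ d ∈ Icc 1 M, fp L p ^ k * (fN L d * ψ d) := by
        apply sum_le_sum_of_subset_of_nonneg (filter_subset _ _)
        intro d _ _
        exact mul_nonneg (pow_nonneg (fp_nonneg L p) k) (mul_nonneg (fN_nonneg L d) (hψ d))

theorem NG_gcd {p e d : ℕ} (hp : p.Prime) :
    ((Nat.gcd (p ^ e) d : ℕ) : ℝ) / (p : ℝ) ^ e ≤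
      ∑ k ∈ range (e + 1), if p ^ k ∣ d then (p : ℝ) ^ k / (p : ℝ) ^ e else 0 := by
  obtain ⟨k, hk, hkd⟩ := (Nat.dvd_prime_pow hp).1 (Nat.gcd_dvd_left (p ^ e) d)
  have h1 : p ^ k ∣ d := by rw [← hkd]; exact Nat.gcd_dvd_right _ _
  have h2 : (if p ^ k ∣ d then (p : ℝ) ^ k / (p : ℝ) ^ e else 0) ≤
      ∑ k ∈ range (e + 1), if p ^ k ∣ d then (p : ℝ) ^ k / (p : ℝ) ^ e else 0 := by
    apply single_le_sum (f := fun k => if p ^ k ∣ d then (p : ℝ) ^ k / (p : ℝ) ^ e else 0)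
    · intro i _
      split_ifs
      · positivity
      · exact le_refl _
    · rw [mem_range]; omega
  rw [if_pos h1] at h2
  rw [hkd]
  push_cast
  exact h2

theorem NG_main {L M : ℕ} (hL : 1 ≤ L) : ∀ q : ℕ, 1 ≤ q → ∀ φ : ℕ → ℝ, (∀ d, 0 ≤ φ d) →
    (∀ p : ℕ, p.Prime → p ∣ q → ∀ d, 1 ≤ d → φ (p * d) = φ d) →
    ∑ d ∈ Icc 1 M, fN L d * (φ d * ((Nat.gcd q d : ℝ) / q)) ≤
      (∏ p ∈ q.primeFactors, fac L p (q.factorization p)) * ∑ d ∈ Icc 1 M, fN L d * φ d := by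
  apply pp_ind
  · intro φ _ _
    simp
  · intro p e Q hp he hQ hpQ ih φ hφ hinv
    have hp0 : (0 : ℝ) < p := by exact_mod_cast hp.pos
    have hQ0 : (0 : ℝ) < Q := by exact_mod_cast hQ
    have hcop : Nat.Coprime (p ^ e) Q := Nat.Coprime.pow_left e ((Nat.Prime.coprime_iff_not_dvd hp).2 hpQ)
    rw [NG_prod hp he hQ hpQ (fun x k => fac L x k)]
    obtain ⟨ψ, hψ⟩ : ∃ ψ : ℕ → ℝ, ψ = fun d => φ d * ((Nat.gcd Q d : ℝ) / Q) := ⟨_, rfl⟩
    have hψ0 : ∀ d, 0 ≤ ψ d := by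
      intro d
      rw [hψ]
      exact mul_nonneg (hφ d) (by positivity)
    have hψi : ∀ d, 1 ≤ d → ψ (p * d) = ψ d := by
      intro d hd
      rw [hψ]
      simp only
      rw [hinv p hp ((dvd_pow_self p (by omega)).trans (Nat.dvd_mul_right _ _)) d hd]
      have h1 : Nat.gcd Q (p * d) = Nat.gcd Q d := by
        apply Nat.Coprime.gcd_mul_left_cancel_right
        exact (Nat.Prime.coprime_iff_not_dvd hp).2 hpQ
      rw [h1]
    have hS0 : 0 ≤ ∑ d ∈ Icc 1 M, fN L d * ψ d :=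
      sum_nonneg (fun d _ => mul_nonneg (fN_nonneg L d) (hψ0 d))
    have h2 : ∀ d ∈ Icc 1 M, fN L d * (φ d * ((Nat.gcd (p ^ e * Q) d : ℝ) / ((p ^ e * Q : ℕ) : ℝ))) ≤
        ∑ k ∈ range (e + 1), (if p ^ k ∣ d then (fN L d * ψ d) * ((p : ℝ) ^ k / (p : ℝ) ^ e) else 0) := by
      intro d _
      have h3 : Nat.gcd (p ^ e * Q) d = Nat.gcd (p ^ e) d * Nat.gcd Q d := by
        rw [Nat.gcd_comm, Nat.Coprime.gcd_mul d hcop, Nat.gcd_comm d, Nat.gcd_comm d]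
      have h4 : fN L d * (φ d * ((Nat.gcd (p ^ e * Q) d : ℝ) / ((p ^ e * Q : ℕ) : ℝ))) =
          (fN L d * ψ d) * (((Nat.gcd (p ^ e) d : ℕ) : ℝ) / (p : ℝ) ^ e) := by
        rw [h3, hψ]
        push_cast
        field_simp
      rw [h4]
      refine (mul_le_mul_of_nonneg_left (NG_gcd hp) (mul_nonneg (fN_nonneg L d) (hψ0 d))).trans ?_
      rw [mul_sum]
      apply le_of_eq
      apply sum_congr rfl
      intro k _
      split_ifs
      · rfl
      · rw [mul_zero]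
    calc ∑ d ∈ Icc 1 M, fN L d * (φ d * ((Nat.gcd (p ^ e * Q) d : ℝ) / ((p ^ e * Q : ℕ) : ℝ)))
        ≤ ∑ d ∈ Icc 1 M, ∑ k ∈ range (e + 1),
          (if p ^ k ∣ d then (fN L d * ψ d) * ((p : ℝ) ^ k / (p : ℝ) ^ e) else 0) := sum_le_sum h2
      _ = ∑ k ∈ range (e + 1), ∑ d ∈ Icc 1 M,
          (if p ^ k ∣ d then (fN L d * ψ d) * ((p : ℝ) ^ k / (p : ℝ) ^ e) else 0) := sum_comm
      _ = ∑ k ∈ range (e + 1), (∑ d ∈ (Icc 1 M).filter (fun d => p ^ k ∣ d), fN L d * ψ d) *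
          ((p : ℝ) ^ k / (p : ℝ) ^ e) := by
          apply sum_congr rfl
          intro k _
          rw [← sum_filter, sum_mul]
      _ ≤ ∑ k ∈ range (e + 1), (fp L p ^ k * ∑ d ∈ Icc 1 M, fN L d * ψ d) *
          ((p : ℝ) ^ k / (p : ℝ) ^ e) := by
          apply sum_le_sum
          intro k _
          exact mul_le_mul_of_nonneg_right (NG_shift hp hψ0 hψi) (by positivity)
      _ = (∑ k ∈ range (e + 1), fp L p ^ k * ((p : ℝ) ^ k / (p : ℝ) ^ e)) *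
          ∑ d ∈ Icc 1 M, fN L d * ψ d := by
          rw [sum_mul]
          apply sum_congr rfl
          intro k _
          ring
      _ ≤ fac L p e * ∑ d ∈ Icc 1 M, fN L d * ψ d := mul_le_mul_of_nonneg_right (NG_local hL hp) hS0
      _ ≤ fac L p e * ((∏ x ∈ Q.primeFactors, fac L x (Q.factorization x)) *
          ∑ d ∈ Icc 1 M, fN L d * φ d) := by
          apply mul_le_mul_of_nonneg_left
          · rw [hψ]
            exact ih φ hφ (fun p' hp' hd => hinv p' hp' (hd.trans (Nat.dvd_mul_left _ _)))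
          · refine le_trans ?_ (NG_local hL hp)
            exact sum_nonneg (fun k _ => mul_nonneg (pow_nonneg (fp_nonneg L p) k) (by positivity))
      _ = _ := by ring

theorem gcd_sum {L q M : ℕ} (hL : 1 ≤ L) (hq : 1 ≤ q) :
    ∑ d ∈ Icc 1 M, fN L d * ((Nat.gcd q d : ℝ) / q) ≤
      (∏ p ∈ q.primeFactors, fac L p (q.factorization p)) * ∑ d ∈ Icc 1 M, fN L d := by
  have h := NG_main (M := M) hL q hq (fun _ => 1) (fun _ => zero_le_one) (fun _ _ _ _ _ => rfl)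
  simpa using h

end SFP
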