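import Pool.Agent.SFP.NA

/-!
# Module NM (3): multiplicativity
-/

namespace SFP

open Finset

theorem fN_one (L : ℕ) : fN L 1 = 1 := by
  unfold fN
  rw [Nat.factorization_one, Finsupp.prod_zero_index]

theorem fN_mul (L : ℕ) {m n : ℕ} (hm : m ≠ 0) (hn : n ≠ 0) : fN L (m * n) = fN L m * fN L n := by
  unfold fN
  rw [Nat.factorization_mul hm hn]
  exact Finsupp.prod_add_index' (fun p => pow_zero _) (fun p a b => pow_add _ a b)

theorem fN_pp (L : ℕ) {p : ℕ} (hp : p.Prime) (k : ℕ) : fN L (p ^ k) = fp L p ^ k := by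
  unfold fN
  rw [Nat.Prime.factorization_pow hp]
  exact Finsupp.prod_single_index (pow_zero _)

theorem fN_nonneg (L n : ℕ) : 0 ≤ fN L n := by
  unfold fN Finsupp.prod
  exact Finset.prod_nonneg (fun p _ => pow_nonneg (fp_nonneg L p) _)

theorem fN_pos {L n : ℕ} (h : ∀ p ∈ n.primeFactors, p < 2 ^ L) : 0 < fN L n := by
  unfold fN Finsupp.prod
  refine Finset.prod_pos (fun p hp => ?_)
  have hp' : p ∈ n.primeFactors := by
    rwa [Nat.support_factorization] at hp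
  exact pow_pos (fp_pos (Nat.prime_of_mem_primeFactors hp').pos (h p hp')) _

theorem fN_eq_zero {L n p : ℕ} (hn : 1 ≤ n) (hp : p.Prime) (hpn : p ∣ n) (h : 2 ^ L ≤ p) :
    fN L n = 0 := by
  unfold fN Finsupp.prod
  have hmem : p ∈ n.primeFactors := Nat.mem_primeFactors.mpr ⟨hp, hpn, by omega⟩
  refine Finset.prod_eq_zero (i := p) (by rwa [Nat.support_factorization]) ?_
  have h1 : 0 < n.factorization p := hp.factorization_pos_of_dvd (by omega) hpn
  show fp L p ^ n.factorization p = 0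
  rw [fp_eq_zero h, zero_pow (by omega)]

theorem ellN_one : ellN 1 = 0 := by
  unfold ellN
  rw [Nat.factorization_one, Finsupp.sum_zero_index]

theorem ellN_mul {m n : ℕ} (hm : m ≠ 0) (hn : n ≠ 0) : ellN (m * n) = ellN m + ellN n := by
  unfold ellN
  rw [Nat.factorization_mul hm hn]
  exact Finsupp.sum_add_index' (fun p => zero_mul _) (fun p a b => add_mul a b _)

theorem ellN_pp {p : ℕ} (hp : p.Prime) (k : ℕ) : ellN (p ^ k) = k * lp p := by
  unfold ellN
  rw [Nat.Prime.factorization_pow hp]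
  exact Finsupp.sum_single_index (zero_mul _)

/-- `ellN n` as a sum over the prime powers dividing `n`. -/
theorem ellN_eq_sum {n : ℕ} (hn : 1 ≤ n) :
    ellN n = ∑ p ∈ n.primeFactors, lp p * ((Icc 1 (n.factorization p)).card) := by
  unfold ellN Finsupp.sum
  rw [Nat.support_factorization]
  refine Finset.sum_congr rfl (fun p _ => ?_)
  rw [Nat.card_Icc, mul_comm, Nat.add_sub_cancel]

theorem le_two_pow_ellN {n : ℕ} (hn : 1 ≤ n) : n ≤ 2 ^ ellN n := by
  refine pp_ind (P := fun n => n ≤ 2 ^ ellN n) ?_ ?_ n hn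
  · show 1 ≤ 2 ^ ellN 1
    rw [ellN_one, pow_zero]
  · intro p e Q hp he hQ _ ih
    show p ^ e * Q ≤ 2 ^ ellN (p ^ e * Q)
    rw [ellN_mul (pow_ne_zero _ hp.ne_zero) (by omega), ellN_pp hp, pow_add, mul_comm e, pow_mul]
    exact Nat.mul_le_mul (Nat.pow_le_pow_left (lt_two_pow_lp p).le e) ih

theorem two_pow_ellN_le {n : ℕ} (hn : 1 ≤ n) : 2 ^ ellN n ≤ n ^ 2 := by
  refine pp_ind (P := fun n => 2 ^ ellN n ≤ n ^ 2) ?_ ?_ n hn
  · show 2 ^ ellN 1 ≤ 1 ^ 2
    rw [ellN_one, pow_zero, one_pow]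
  · intro p e Q hp he hQ _ ih
    show 2 ^ ellN (p ^ e * Q) ≤ (p ^ e * Q) ^ 2
    rw [ellN_mul (pow_ne_zero _ hp.ne_zero) (by omega), ellN_pp hp, pow_add, mul_comm e, pow_mul,
      mul_pow]
    refine Nat.mul_le_mul ?_ ih
    rw [← pow_mul p, mul_comm e 2, pow_mul p]
    refine Nat.pow_le_pow_left ?_ e
    calc 2 ^ lp p ≤ 2 * p := two_pow_lp_le hp.pos
      _ ≤ p * p := Nat.mul_le_mul_right _ hp.two_le
      _ = p ^ 2 := (sq p).symm

theorem chi_one : chi 1 = 1 := by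
  unfold chi
  norm_num

theorem chi_mul (m n : ℕ) : chi (m * n) = chi m * chi n := by
  unfold chi
  rw [Nat.mul_mod]
  have h1 : m % 3 = 0 ∨ m % 3 = 1 ∨ m % 3 = 2 := by omega
  have h2 : n % 3 = 0 ∨ n % 3 = 1 ∨ n % 3 = 2 := by omega
  rcases h1 with h1 | h1 | h1 <;> rcases h2 with h2 | h2 | h2 <;> rw [h1, h2] <;> norm_num

theorem cN_one (L : ℕ) : cN L 1 = 1 := by
  unfold cN
  rw [fN_one, chi_one]
  norm_num

theorem cN_mul (L : ℕ) {m n : ℕ} (hm : m ≠ 0) (hn : n ≠ 0) : cN L (m * n) = cN L m * cN L n := by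
  unfold cN
  rw [fN_mul L hm hn, chi_mul, Nat.cast_mul, div_mul_div_comm]
  congr 1
  ring

theorem NM_chi_pow (p k : ℕ) : chi (p ^ k) = chi p ^ k := by
  induction k with
  | zero => rw [pow_zero, pow_zero, chi_one]
  | succ k ih => rw [pow_succ, pow_succ, chi_mul, ih]

theorem cN_pp {L p : ℕ} (hp : p.Prime) (h : p < 2 ^ L) (k : ℕ) :
    cN L (p ^ k) = (chi p * bp L p) ^ k := by
  unfold cN
  rw [fN_pp L hp, NM_chi_pow, Nat.cast_pow, ← mul_pow, ← div_pow]
  congr 1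
  have h1 := fp_mul (L := L) hp.pos h
  have h2 : (p : ℝ) * fp L p ≠ 0 := by
    intro h3
    rw [h3, zero_mul] at h1
    exact one_ne_zero h1.symm
  rw [div_eq_iff h2, mul_assoc, mul_comm (bp L p), h1, mul_one]

end SFP
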