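import Pool.Agent.SFP.NM
import Pool.Agent.SFP.NCp
import Pool.Agent.SFP.NC

/-!
# Module NMs (3): the mass is on small `ell`

Let `R = Icc 1 X`, `φ r = fN L r * hN L q r ≥ 0`, `Z = ∑_{r ∈ R} φ r`.
(1) For a prime `p < 2^L` and `k ≥ 1`: `∑_{r ∈ R, p^k | r} φ r ≤ (271/100) fp^k Z`: write `r = p^k r''` (`r'' ∈ R`), `fN r = fp^k fN r''`,
`hN q r ≤ (271/100) hN q r''` (the two products differ at most in the factor `s_p⁻¹ ≤ 100/37 ≤ 271/100` at `p`; the other primes divide `r` iff they divide `r''`; if the factor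
`s_p⁻¹` is missing in neither, equal).  [`271/100 ≥ 1`.]
(2) If a prime `p ≥ 2^L` divides `r` then `φ r = 0`. So `∑_{r ∈ R} ellN r φ r = ∑_{p < 2^L prime} lp p ∑_{k ≥ 1} ∑_{r ∈ R, p^k | r} φ r` (`ellN_eq_sum`; `k ≤ X` suffices)
`≤ ∑_p lp p (271/100) (fp/(1-fp)) Z ≤ 14 ∑_p lp p fp Z ≤ 14 * 16000 L Z` (`fp ≤ 4/5`: `271/100 * 5 = 13.55`; geometric series; `cheb`).
(3) Markov: `C₀ ∑_{ellN r > C₀} φ r ≤ 224000 L Z ≤ (C₀/2) Z`.
-/

namespace SFP

open Finset

theorem NMs_spinv {L p e : ℕ} (hL : 1 ≤ L) (hp : p.Prime) (h : p < 2 ^ L) :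
    (sp L p e)⁻¹ ≤ 271 / 100 := by
  have h1 := sp_ge' (e := e) hL hp.two_le (lp_le_of_lt hp.one_le h)
  calc (sp L p e)⁻¹ ≤ (37 / 100 : ℝ)⁻¹ := inv_anti₀ (by norm_num) h1
    _ ≤ 271 / 100 := by norm_num

theorem NMs_hN {L q p k r : ℕ} (hL : 1 ≤ L) (hs : ∀ p ∈ q.primeFactors, p < 2 ^ L) (hp : p.Prime)
    (hk : 1 ≤ k) : hN L q (p ^ k * r) ≤ 271 / 100 * hN L q r := by
  have hpos := hN_pos hL hs r
  have hdvd : ∀ x ∈ q.primeFactors, (x ∣ p ^ k * r ↔ x = p ∨ x ∣ r) := by
    intro x hx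
    have hxp := Nat.prime_of_mem_primeFactors hx
    rw [hxp.dvd_mul]
    constructor
    · rintro (h | h)
      · left
        exact (Nat.prime_dvd_prime_iff_eq hxp hp).1 (hxp.dvd_of_dvd_pow h)
      · exact Or.inr h
    · rintro (h | h)
      · left
        rw [h]
        exact dvd_pow_self p (by omega)
      · exact Or.inr h
  by_cases hc : p ∈ q.primeFactors ∧ ¬ p ∣ r
  · have h1 : q.primeFactors.filter (fun x => x ∣ p ^ k * r) =
        insert p (q.primeFactors.filter (fun x => x ∣ r)) := by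
      ext x
      rw [mem_insert, mem_filter, mem_filter]
      constructor
      · rintro ⟨h2, h3⟩
        rcases (hdvd x h2).1 h3 with h4 | h4
        · exact Or.inl h4
        · exact Or.inr ⟨h2, h4⟩
      · rintro (h2 | ⟨h2, h3⟩)
        · rw [h2]
          exact ⟨hc.1, (hdvd p hc.1).2 (Or.inl rfl)⟩
        · exact ⟨h2, (hdvd x h2).2 (Or.inr h3)⟩
    have h2 : p ∉ q.primeFactors.filter (fun x => x ∣ r) := by
      rw [mem_filter]
      exact fun h => hc.2 h.2
    have h3 : hN L q (p ^ k * r) = (sp L p (q.factorization p))⁻¹ * hN L q r := by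
      unfold hN
      rw [h1, prod_insert h2]
    rw [h3]
    exact mul_le_mul_of_nonneg_right (NMs_spinv hL hp (hs p hc.1)) hpos.le
  · have h1 : q.primeFactors.filter (fun x => x ∣ p ^ k * r) =
        q.primeFactors.filter (fun x => x ∣ r) := by
      apply filter_congr
      intro x hx
      rw [hdvd x hx]
      constructor
      · rintro (h | h)
        · rw [h] at hx ⊢
          by_contra h2
          exact hc ⟨hx, h2⟩
        · exact h
      · exact Or.inr
    have h3 : hN L q (p ^ k * r) = hN L q r := by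
      unfold hN
      rw [h1]
    rw [h3]
    linarith

theorem NMs_shift {L q X p k : ℕ} (hL : 1 ≤ L) (hs : ∀ p ∈ q.primeFactors, p < 2 ^ L) (hp : p.Prime)
    (hk : 1 ≤ k) :
    ∑ r ∈ (Icc 1 X).filter (fun r => p ^ k ∣ r), fN L r * hN L q r ≤
      271 / 100 * fp L p ^ k * ∑ r ∈ Icc 1 X, fN L r * hN L q r := by
  have hpk : 0 < p ^ k := pow_pos hp.pos k
  have h1 : (Icc 1 X).filter (fun d => p ^ k ∣ d) =
      ((Icc 1 X).filter (fun d => p ^ k * d ≤ X)).image (fun d => p ^ k * d) := by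
    ext d
    simp only [mem_filter, mem_image, mem_Icc]
    constructor
    · rintro ⟨⟨h2, h3⟩, ⟨c, rfl⟩⟩
      have hc : 1 ≤ c := by
        rcases Nat.eq_zero_or_pos c with h0 | h0
        · rw [h0, mul_zero] at h2; omega
        · exact h0
      exact ⟨c, ⟨⟨hc, (Nat.le_mul_of_pos_left c hpk).trans h3⟩, h3⟩, rfl⟩
    · rintro ⟨c, ⟨⟨h2, -⟩, h3⟩, rfl⟩
      exact ⟨⟨Nat.mul_pos hpk h2, h3⟩, Nat.dvd_mul_right _ _⟩
  have hf : 0 ≤ fp L p ^ k := pow_nonneg (fp_nonneg L p) k
  rw [h1, sum_image (fun a _ b _ h => Nat.eq_of_mul_eq_mul_left hpk h), mul_sum]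
  calc ∑ r ∈ (Icc 1 X).filter (fun r => p ^ k * r ≤ X), fN L (p ^ k * r) * hN L q (p ^ k * r)
      ≤ ∑ r ∈ (Icc 1 X).filter (fun r => p ^ k * r ≤ X), 271 / 100 * fp L p ^ k * (fN L r * hN L q r) := by
        apply sum_le_sum
        intro r hr
        rw [mem_filter, mem_Icc] at hr
        rw [fN_mul L hpk.ne' (by omega), fN_pp L hp]
        have h2 := NMs_hN (r := r) hL hs hp hk
        have h3 : 0 ≤ fp L p ^ k * fN L r := mul_nonneg hf (fN_nonneg L r)
        calc fp L p ^ k * fN L r * hN L q (p ^ k * r) ≤ fp L p ^ k * fN L r * (271 / 100 * hN L q r) :=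
              mul_le_mul_of_nonneg_left h2 h3
          _ = 271 / 100 * fp L p ^ k * (fN L r * hN L q r) := by ring
    _ ≤ ∑ r ∈ Icc 1 X, 271 / 100 * fp L p ^ k * (fN L r * hN L q r) := by
        apply sum_le_sum_of_subset_of_nonneg (filter_subset _ _)
        intro r _ _
        exact mul_nonneg (by positivity) (mul_nonneg (fN_nonneg L r) (hN_pos hL hs r).le)

theorem NMs_geom {f : ℝ} (h0 : 0 ≤ f) (h1 : f ≤ 4 / 5) (X : ℕ) : ∑ k ∈ Icc 1 X, f ^ k ≤ 5 * f := by
  have h2 : ∑ k ∈ Icc 1 X, f ^ k = f * ∑ k ∈ range X, f ^ k := by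
    rw [mul_sum, ← Finset.Ico_succ_right_eq_Icc, Finset.sum_Ico_eq_sum_range]
    apply sum_congr (by simp)
    intro k _
    rw [pow_add, pow_one]
  have h3 := geom_sum_mul_neg f X
  have h4 : ∑ k ∈ range X, f ^ k ≤ 5 := by
    have h5 : 0 ≤ f ^ X := pow_nonneg h0 X
    have h6 : 0 ≤ ∑ k ∈ range X, f ^ k := sum_nonneg (fun k _ => pow_nonneg h0 k)
    nlinarith
  rw [h2]
  nlinarith

/-- the pointwise bound -/
theorem NMs_pt {L X r : ℕ} (hr : 1 ≤ r) (hrX : r ≤ X) {φ : ℝ} (hφ : 0 ≤ φ)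
    (hz : ∀ p : ℕ, p.Prime → p ∣ r → 2 ^ L ≤ p → φ = 0) :
    (ellN r : ℝ) * φ ≤ ∑ p ∈ (range (2 ^ L)).filter Nat.Prime, (lp p : ℝ) *
      ∑ k ∈ Icc 1 X, if p ^ k ∣ r then φ else 0 := by
  have hnn : 0 ≤ ∑ p ∈ (range (2 ^ L)).filter Nat.Prime, (lp p : ℝ) *
      ∑ k ∈ Icc 1 X, if p ^ k ∣ r then φ else 0 := by
    apply sum_nonneg
    intro p _
    apply mul_nonneg (Nat.cast_nonneg _)
    apply sum_nonneg
    intro k _
    split_ifs
    · exact hφ
    · exact le_refl _
  by_cases hb : ∃ p : ℕ, p.Prime ∧ p ∣ r ∧ 2 ^ L ≤ p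
  · obtain ⟨p, h1, h2, h3⟩ := hb
    rw [hz p h1 h2 h3] at hnn ⊢
    rw [mul_zero]
    exact hnn
  · push Not at hb
    have hsub : r.primeFactors ⊆ (range (2 ^ L)).filter Nat.Prime := by
      intro p hp
      have h1 := Nat.prime_of_mem_primeFactors hp
      have h2 := Nat.dvd_of_mem_primeFactors hp
      rw [mem_filter, mem_range]
      exact ⟨hb p h1 h2, h1⟩
    calc (ellN r : ℝ) * φ = ∑ p ∈ r.primeFactors, (lp p : ℝ) * ((r.factorization p : ℝ) * φ) := by
          rw [ellN_eq_sum hr]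
          push_cast
          rw [sum_mul]
          apply sum_congr rfl
          intro p _
          rw [Nat.card_Icc, Nat.add_sub_cancel]
          ring
      _ ≤ ∑ p ∈ r.primeFactors, (lp p : ℝ) * ∑ k ∈ Icc 1 X, if p ^ k ∣ r then φ else 0 := by
          apply sum_le_sum
          intro p hp
          have hpp := Nat.prime_of_mem_primeFactors hp
          apply mul_le_mul_of_nonneg_left _ (Nat.cast_nonneg _)
          have h3 : Icc 1 (r.factorization p) ⊆ Icc 1 X := by
            apply Icc_subset_Icc_right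
            have h4 : r.factorization p < r := Nat.factorization_lt p (by omega)
            omega
          calc (r.factorization p : ℝ) * φ = ∑ k ∈ Icc 1 (r.factorization p), φ := by
                rw [sum_const, Nat.card_Icc, Nat.add_sub_cancel, nsmul_eq_mul]
            _ = ∑ k ∈ Icc 1 (r.factorization p), if p ^ k ∣ r then φ else 0 := by
                apply sum_congr rfl
                intro k hk
                rw [mem_Icc] at hk
                rw [if_pos]
                exact (hpp.pow_dvd_iff_le_factorization (by omega)).2 hk.2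
            _ ≤ _ := by
                apply sum_le_sum_of_subset_of_nonneg h3
                intro k _ _
                split_ifs
                · exact hφ
                · exact le_refl _
      _ ≤ _ := by
          apply sum_le_sum_of_subset_of_nonneg hsub
          intro p _ _
          apply mul_nonneg (Nat.cast_nonneg _)
          apply sum_nonneg
          intro k _
          split_ifs
          · exact hφ
          · exact le_refl _

theorem NMs_mean {L q X : ℕ} (hL : 1 ≤ L) (hs : ∀ p ∈ q.primeFactors, p < 2 ^ L) :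
    ∑ r ∈ Icc 1 X, (ellN r : ℝ) * (fN L r * hN L q r) ≤
      224000 * L * ∑ r ∈ Icc 1 X, fN L r * hN L q r := by
  obtain ⟨Z, hZ⟩ : ∃ Z, Z = ∑ r ∈ Icc 1 X, fN L r * hN L q r := ⟨_, rfl⟩
  have hφ : ∀ r, 0 ≤ fN L r * hN L q r := fun r => mul_nonneg (fN_nonneg L r) (hN_pos hL hs r).le
  have hZ0 : 0 ≤ Z := by rw [hZ]; exact sum_nonneg (fun r _ => hφ r)
  rw [← hZ]
  calc ∑ r ∈ Icc 1 X, (ellN r : ℝ) * (fN L r * hN L q r)
      ≤ ∑ r ∈ Icc 1 X, ∑ p ∈ (range (2 ^ L)).filter Nat.Prime, (lp p : ℝ) *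
        ∑ k ∈ Icc 1 X, if p ^ k ∣ r then fN L r * hN L q r else 0 := by
        apply sum_le_sum
        intro r hr
        rw [mem_Icc] at hr
        apply NMs_pt hr.1 hr.2 (hφ r)
        intro p hp hpr h2
        rw [fN_eq_zero hr.1 hp hpr h2, zero_mul]
    _ = ∑ p ∈ (range (2 ^ L)).filter Nat.Prime, (lp p : ℝ) * ∑ k ∈ Icc 1 X,
        ∑ r ∈ (Icc 1 X).filter (fun r => p ^ k ∣ r), fN L r * hN L q r := by
        rw [sum_comm]
        apply sum_congr rfl
        intro p _
        rw [← mul_sum, sum_comm]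
        congr 1
        apply sum_congr rfl
        intro k _
        rw [sum_filter]
    _ ≤ ∑ p ∈ (range (2 ^ L)).filter Nat.Prime, (lp p : ℝ) * ∑ k ∈ Icc 1 X,
        271 / 100 * fp L p ^ k * Z := by
        apply sum_le_sum
        intro p hp
        rw [mem_filter] at hp
        apply mul_le_mul_of_nonneg_left _ (Nat.cast_nonneg _)
        apply sum_le_sum
        intro k hk
        rw [mem_Icc] at hk
        rw [hZ]
        exact NMs_shift hL hs hp.2 hk.1
    _ ≤ ∑ p ∈ (range (2 ^ L)).filter Nat.Prime, (14 * Z) * ((lp p : ℝ) * fp L p) := by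
        apply sum_le_sum
        intro p hp
        rw [mem_filter] at hp
        have h1 := NMs_geom (fp_nonneg L p) (fp_le' (L := L) hp.2.two_le) X
        have h2 : ∑ k ∈ Icc 1 X, 271 / 100 * fp L p ^ k * Z = 271 / 100 * Z * ∑ k ∈ Icc 1 X, fp L p ^ k := by
          rw [mul_sum]
          apply sum_congr rfl
          intro k _
          ring
        rw [h2]
        have h3 : 271 / 100 * Z * ∑ k ∈ Icc 1 X, fp L p ^ k ≤ 271 / 100 * Z * (5 * fp L p) :=
          mul_le_mul_of_nonneg_left h1 (by positivity)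
        have h4 : 271 / 100 * Z * (5 * fp L p) ≤ 14 * Z * fp L p := by
          have := mul_nonneg hZ0 (fp_nonneg L p)
          nlinarith
        calc (lp p : ℝ) * (271 / 100 * Z * ∑ k ∈ Icc 1 X, fp L p ^ k)
            ≤ (lp p : ℝ) * (14 * Z * fp L p) := mul_le_mul_of_nonneg_left (h3.trans h4) (Nat.cast_nonneg _)
          _ = (14 * Z) * ((lp p : ℝ) * fp L p) := by ring
    _ = (14 * Z) * ∑ p ∈ (range (2 ^ L)).filter Nat.Prime, (lp p : ℝ) * fp L p := by rw [mul_sum]
    _ ≤ (14 * Z) * (16000 * L) := mul_le_mul_of_nonneg_left (cheb hL) (by positivity)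
    _ = 224000 * L * Z := by ring

theorem mass {L q X C₀ : ℕ} (hL : 1 ≤ L) (hs : ∀ p ∈ q.primeFactors, p < 2 ^ L)
    (hC : 448000 * L ≤ C₀) :
    ∑ r ∈ (Icc 1 X).filter (fun r => C₀ < ellN r), fN L r * hN L q r ≤
      1 / 2 * ∑ r ∈ Icc 1 X, fN L r * hN L q r := by
  obtain ⟨Z, hZ⟩ : ∃ Z, Z = ∑ r ∈ Icc 1 X, fN L r * hN L q r := ⟨_, rfl⟩
  have hφ : ∀ r, 0 ≤ fN L r * hN L q r := fun r => mul_nonneg (fN_nonneg L r) (hN_pos hL hs r).le
  have hZ0 : 0 ≤ Z := by rw [hZ]; exact sum_nonneg (fun r _ => hφ r)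
  have h1 := NMs_mean (X := X) hL hs
  rw [← hZ] at h1 ⊢
  have hL' : (1 : ℝ) ≤ L := by exact_mod_cast hL
  have hC' : (448000 : ℝ) * L ≤ C₀ := by exact_mod_cast hC
  have hC0 : (0 : ℝ) < C₀ := by linarith
  have h2 : (C₀ : ℝ) * ∑ r ∈ (Icc 1 X).filter (fun r => C₀ < ellN r), fN L r * hN L q r ≤
      ∑ r ∈ Icc 1 X, (ellN r : ℝ) * (fN L r * hN L q r) := by
    rw [mul_sum]
    calc ∑ r ∈ (Icc 1 X).filter (fun r => C₀ < ellN r), (C₀ : ℝ) * (fN L r * hN L q r)
        ≤ ∑ r ∈ (Icc 1 X).filter (fun r => C₀ < ellN r), (ellN r : ℝ) * (fN L r * hN L q r) := by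
          apply sum_le_sum
          intro r hr
          rw [mem_filter] at hr
          apply mul_le_mul_of_nonneg_right _ (hφ r)
          exact_mod_cast hr.2.le
      _ ≤ _ := by
          apply sum_le_sum_of_subset_of_nonneg (filter_subset _ _)
          intro r _ _
          exact mul_nonneg (Nat.cast_nonneg _) (hφ r)
  have h3 : (C₀ : ℝ) * ∑ r ∈ (Icc 1 X).filter (fun r => C₀ < ellN r), fN L r * hN L q r ≤
      C₀ * (1 / 2 * Z) := by
    refine h2.trans (h1.trans ?_)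
    nlinarith
  exact le_of_mul_le_mul_left h3 hC0

end SFP
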