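import Pool.Agent.SFP.NM

/-!
# Module NQ (2): the size of the local factors

`fac L p e = fp^e/(1 - b_p)` for `p < 2^L`, `= p^(-e)` otherwise. For `e ≥ 1`: `p ≥ 7`, `p < 2^L`: `fac ≤ p^(-e/3) p^(5/24) ≤ p^(-e/8)` (`fp_le`, `bp_inv_le`);
`p ∈ {2, 3, 5}`: `fac ≤ p^(-e/3) * (100/37) ≤ 3 p^(-e/8)`; `p ≥ 2^L`: `p^(-e) ≤ p^(-e/8)`. The product over `p | q` is at most `27 ∏ p^(-e/8) = 27 q^(-1/8)`
(at most three exceptional primes; `Nat.factorization_prod_pow_eq_self`). `prod_fac_nonneg` is clear.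
`pi_le`: `fN q * (PiN q * hN q r) ≤ ∏ fac`, as `PiN q * hN q r = ∏_{p | q, p ∤ r} s_p`, `s_p ≤ 1/(1-b_p)`, `1 ≤ 1/(1 - b_p)`, `fN q = ∏ fp^e`.
-/

namespace SFP

open Finset

theorem NQ_one_sub_pos {L p : ℕ} (hL : 1 ≤ L) (hp : 2 ≤ p) (h : p < 2 ^ L) :
    37 / 100 ≤ 1 - bp L p := by
  have := bp_le hL hp (lp_le_of_lt (by omega) h)
  linarith

theorem fac_nonneg {L p e : ℕ} (hL : 1 ≤ L) (hp : 2 ≤ p) : 0 ≤ fac L p e := by
  unfold fac
  split_ifs with h
  · have h1 := NQ_one_sub_pos hL hp h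
    have h2 : (0 : ℝ) ≤ 1 - bp L p := by linarith
    exact div_nonneg (pow_nonneg (fp_nonneg L p) e) h2
  · positivity

theorem NQ_local {L p e : ℕ} (hL : 1 ≤ L) (hp : 2 ≤ p) (he : 1 ≤ e) :
    fac L p e ≤ (if p < 7 then 3 else 1) * ((p : ℝ) ^ e) ^ (-(1 / 8) : ℝ) := by
  have hp1 : (1 : ℝ) ≤ p := by exact_mod_cast (by omega : 1 ≤ p)
  have hp0 : (0 : ℝ) < p := by linarith
  have hpe1 : (1 : ℝ) ≤ (p : ℝ) ^ e := one_le_pow₀ hp1
  have hpe0 : (0 : ℝ) < (p : ℝ) ^ e := by positivity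
  have hK : (1 : ℝ) ≤ (if p < 7 then 3 else 1) := by split_ifs <;> norm_num
  have hd0 : (0 : ℝ) ≤ ((p : ℝ) ^ e) ^ (-(1 / 8) : ℝ) := by positivity
  unfold fac
  split_ifs with h h7 h7
  · -- small primes
    have h1 := NQ_one_sub_pos hL hp h
    have h2 : fp L p ^ e ≤ ((p : ℝ) ^ e) ^ (-(1 / 3) : ℝ) := by
      calc fp L p ^ e ≤ ((p : ℝ) ^ (-(1 / 3) : ℝ)) ^ e :=
            pow_le_pow_left₀ (fp_nonneg L p) (fp_le (by omega)) e
        _ = ((p : ℝ) ^ e) ^ (-(1 / 3) : ℝ) := by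
            rw [← Real.rpow_natCast, ← Real.rpow_mul hp0.le, ← Real.rpow_natCast,
              ← Real.rpow_mul hp0.le, mul_comm]
    have h3 : ((p : ℝ) ^ e) ^ (-(1 / 3) : ℝ) ≤ ((p : ℝ) ^ e) ^ (-(1 / 8) : ℝ) :=
      Real.rpow_le_rpow_of_exponent_le hpe1 (by norm_num)
    rw [div_le_iff₀ (by linarith)]
    calc fp L p ^ e ≤ ((p : ℝ) ^ e) ^ (-(1 / 8) : ℝ) := h2.trans h3
      _ ≤ 3 * ((p : ℝ) ^ e) ^ (-(1 / 8) : ℝ) * (37 / 100) := by nlinarith
      _ ≤ 3 * ((p : ℝ) ^ e) ^ (-(1 / 8) : ℝ) * (1 - bp L p) :=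
          mul_le_mul_of_nonneg_left h1 (by positivity)
  · have h1 := NQ_one_sub_pos hL hp h
    have h2 : fp L p ^ e ≤ ((p : ℝ) ^ e) ^ (-(1 / 3) : ℝ) := by
      calc fp L p ^ e ≤ ((p : ℝ) ^ (-(1 / 3) : ℝ)) ^ e :=
            pow_le_pow_left₀ (fp_nonneg L p) (fp_le (by omega)) e
        _ = ((p : ℝ) ^ e) ^ (-(1 / 3) : ℝ) := by
            rw [← Real.rpow_natCast, ← Real.rpow_mul hp0.le, ← Real.rpow_natCast,
              ← Real.rpow_mul hp0.le, mul_comm]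
    have h4 : 1 / (1 - bp L p) ≤ (p : ℝ) ^ (5 / 24 : ℝ) :=
      bp_inv_le hL (by omega) (lp_le_of_lt (by omega) h)
    have h5 : (p : ℝ) ^ (5 / 24 : ℝ) ≤ ((p : ℝ) ^ e) ^ (5 / 24 : ℝ) := by
      apply Real.rpow_le_rpow hp0.le _ (by norm_num)
      calc (p : ℝ) = (p : ℝ) ^ 1 := (pow_one _).symm
        _ ≤ (p : ℝ) ^ e := pow_le_pow_right₀ hp1 he
    calc fp L p ^ e / (1 - bp L p) = fp L p ^ e * (1 / (1 - bp L p)) := by ring
      _ ≤ ((p : ℝ) ^ e) ^ (-(1 / 3) : ℝ) * ((p : ℝ) ^ e) ^ (5 / 24 : ℝ) :=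
          mul_le_mul h2 (h4.trans h5) (by
            have : (0 : ℝ) < 1 - bp L p := by linarith
            positivity) (by positivity)
      _ = 1 * ((p : ℝ) ^ e) ^ (-(1 / 8) : ℝ) := by
          rw [← Real.rpow_add hpe0, one_mul]
          norm_num
  · have h3 : ((p : ℝ) ^ e) ^ (-1 : ℝ) ≤ ((p : ℝ) ^ e) ^ (-(1 / 8) : ℝ) :=
      Real.rpow_le_rpow_of_exponent_le hpe1 (by norm_num)
    rw [Real.rpow_neg_one] at h3
    linarith
  · have h3 : ((p : ℝ) ^ e) ^ (-1 : ℝ) ≤ ((p : ℝ) ^ e) ^ (-(1 / 8) : ℝ) :=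
      Real.rpow_le_rpow_of_exponent_le hpe1 (by norm_num)
    rw [Real.rpow_neg_one] at h3
    linarith

theorem NQ_three (q : ℕ) :
    ∏ p ∈ q.primeFactors, (if p < 7 then (3 : ℝ) else 1) ≤ 27 := by
  rw [← Finset.prod_filter, Finset.prod_const]
  have h1 : (q.primeFactors.filter (fun p => p < 7)).card ≤ 3 := by
    have h2 : q.primeFactors.filter (fun p => p < 7) ⊆ {2, 3, 5} := by
      intro p hp
      rw [Finset.mem_filter] at hp
      have h3 := Nat.prime_of_mem_primeFactors hp.1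
      have h4 := hp.2
      interval_cases p <;> simp_all (config := { decide := true })
    exact (Finset.card_le_card h2).trans (by decide)
  calc (3 : ℝ) ^ (q.primeFactors.filter (fun p => p < 7)).card ≤ 3 ^ 3 :=
        pow_le_pow_right₀ (by norm_num) h1
    _ = 27 := by norm_num

theorem prod_fac {L q : ℕ} (hL : 1 ≤ L) (hq : 1 ≤ q) :
    ∏ p ∈ q.primeFactors, fac L p (q.factorization p) ≤ 27 * (q : ℝ) ^ (-(1 / 8) : ℝ) := by
  have hq0 : q ≠ 0 := by omega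
  have h1 : ∏ p ∈ q.primeFactors, fac L p (q.factorization p) ≤
      ∏ p ∈ q.primeFactors, ((if p < 7 then (3 : ℝ) else 1) *
        ((p : ℝ) ^ (q.factorization p)) ^ (-(1 / 8) : ℝ)) := by
    apply Finset.prod_le_prod
    · intro p hp
      exact fac_nonneg hL (Nat.prime_of_mem_primeFactors hp).two_le
    · intro p hp
      have hpp := Nat.prime_of_mem_primeFactors hp
      have hdvd := Nat.dvd_of_mem_primeFactors hp
      exact NQ_local hL hpp.two_le ((hpp.dvd_iff_one_le_factorization hq0).1 hdvd)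
  have h2 : ∏ p ∈ q.primeFactors, ((p : ℝ) ^ (q.factorization p)) ^ (-(1 / 8) : ℝ) =
      (q : ℝ) ^ (-(1 / 8) : ℝ) := by
    rw [Real.finsetProd_rpow _ _ (fun p _ => by positivity)]
    congr 1
    have h3 : ∏ p ∈ q.primeFactors, p ^ (q.factorization p) = q :=
      Nat.prod_factorization_pow_eq_self hq0
    have h4 := congrArg (fun n : ℕ => (n : ℝ)) h3
    simpa using h4
  rw [Finset.prod_mul_distrib, h2] at h1
  exact h1.trans (mul_le_mul_of_nonneg_right (NQ_three q) (by positivity))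

theorem pi_le {L q : ℕ} (hL : 1 ≤ L) (hq : 1 ≤ q) (hs : ∀ p ∈ q.primeFactors, p < 2 ^ L) (r : ℕ) :
    fN L q * (PiN L q * hN L q r) ≤ ∏ p ∈ q.primeFactors, fac L p (q.factorization p) := by
  have h1 : fN L q = ∏ p ∈ q.primeFactors, fp L p ^ q.factorization p := rfl
  rw [h1]
  unfold PiN hN
  rw [Finset.prod_filter, ← Finset.prod_mul_distrib, ← Finset.prod_mul_distrib]
  apply Finset.prod_le_prod
  · intro p hp
    have hpp := Nat.prime_of_mem_primeFactors hp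
    have h2 := sp_ge' (e := q.factorization p) hL hpp.two_le (lp_le_of_lt hpp.one_le (hs p hp))
    have h3 : (0 : ℝ) < sp L p (q.factorization p) := by linarith
    have h4 := fp_nonneg L p
    split_ifs <;> positivity
  · intro p hp
    have hpp := Nat.prime_of_mem_primeFactors hp
    have hlp := lp_le_of_lt hpp.one_le (hs p hp)
    have h2 := sp_ge' (e := q.factorization p) hL hpp.two_le hlp
    have h3 : (0 : ℝ) < sp L p (q.factorization p) := by linarith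
    have h4 := fp_nonneg L p
    have h5 := NQ_one_sub_pos hL hpp.two_le (hs p hp)
    have h6 : bp L p > 0 := bp_pos hpp.one_le
    have h7 : (0 : ℝ) < 1 - bp L p := by linarith
    unfold fac
    rw [if_pos (hs p hp), div_eq_mul_one_div]
    apply mul_le_mul_of_nonneg_left _ (pow_nonneg h4 _)
    split_ifs
    · rw [mul_inv_cancel₀ h3.ne', le_div_iff₀ h7]
      linarith
    · rw [mul_one]
      exact sp_le hL hpp.two_le hlp

end SFP
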