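import Pool.Agent.SFP.NM

/-!
# Module NS (3): `∑_{p | q} x_p ≤ 1/4`

`x_p = 40 b_p √(l_p/L)`, `b_p = max (p^(-2/3)) (√(l_p/L)/1000)`. If the maximum is the second term: `x_p = (1/25) l_p / L`, and the sum of these over `p | q` is at most
`(1/25) ellN q / L ≤ 2/25` (`∑_{p | q} lp p ≤ ellN q`, `2 ^ ellN q ≤ q ^ 2 ≤ 2 ^ (2 L)`). If the maximum is the first term: `√(l_p/L) ≤ 1000 p^(-2/3)`, so
`p^(2/3) ≤ 1000 √(L/l_p) ≤ 1000 √L`, `p ≤ y := (1000 √L)^(3/2)`, `x_p = 40 p^(-2/3) √(l_p/L)`, `l_p ≤ log_2 y + 1 =: l`; the sum of these over `p ≤ y` is at most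
`40 √(l/L) ∑_{n ≤ y} n^(-2/3) ≤ 40 √(l/L) * 3 y^(1/3) = 120 √(l/L) (1000 √L)^(1/2) → 0` as `L → ∞` (`l = O(log L)`): `≤ 1/10` for large `L`. Total `≤ 2/25 + 1/10 ≤ 1/4`.
(`∑_{n=1}^{N} n^(-2/3) ≤ 3 N^(1/3)`: induction, `n^(-2/3) ≤ 3 (n^(1/3) - (n-1)^(1/3))` since `a^3 - b^3 = (a-b)(a²+ab+b²) ≤ 3 a² (a - b)`, `a = n^(1/3)`, `b = (n-1)^(1/3)`.
Any cruder estimate is fine too: e.g. for `p ≤ y`: `l_p ≤ 100 p^{1/12}`..., as long as the exponent of `L` is negative.)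
-/

namespace SFP

open Finset

theorem NS_cube (m : ℕ) : m ^ 3 ≤ 2 ^ (m + 2) := by
  rcases lt_or_ge m 4 with h | h
  · interval_cases m <;> norm_num
  · induction m, h using Nat.le_induction with
    | base => norm_num
    | succ m hm ih =>
      have h1 : (m + 1) ^ 3 ≤ 2 * m ^ 3 := by nlinarith [mul_le_mul hm hm (by norm_num) (by omega)]
      calc (m + 1) ^ 3 ≤ 2 * m ^ 3 := h1
        _ ≤ 2 * 2 ^ (m + 2) := Nat.mul_le_mul_left 2 ih
        _ = 2 ^ (m + 1 + 2) := by ring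

theorem NS_lp {p : ℕ} (hp : 1 ≤ p) : (lp p) ^ 3 ≤ 8 * p := by
  calc (lp p) ^ 3 ≤ 2 ^ (lp p + 2) := NS_cube _
    _ = 4 * 2 ^ lp p := by ring
    _ ≤ 4 * (2 * p) := Nat.mul_le_mul_left 4 (two_pow_lp_le hp)
    _ = 8 * p := by ring

theorem NS_sum (N : ℕ) : ∑ n ∈ Icc 1 N, 1 / √(n : ℝ) ≤ 2 * √(N : ℝ) := by
  induction N with
  | zero => simp
  | succ N ih =>
    rw [← Finset.insert_Icc_right_eq_Icc_add_one (by omega), sum_insert (by simp)]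
    have h1 : (0 : ℝ) ≤ N := Nat.cast_nonneg N
    obtain ⟨a, ha⟩ : ∃ a, a = √((N + 1 : ℕ) : ℝ) := ⟨_, rfl⟩
    obtain ⟨b, hb⟩ : ∃ b, b = √(N : ℝ) := ⟨_, rfl⟩
    rw [← hb] at ih
    rw [← ha]
    have ha0 : 0 < a := by rw [ha]; positivity
    have hb0 : 0 ≤ b := by rw [hb]; positivity
    have ha2 : a ^ 2 = N + 1 := by rw [ha, Real.sq_sqrt (Nat.cast_nonneg _)]; push_cast; ring
    have hb2 : b ^ 2 = N := by rw [hb, Real.sq_sqrt h1]
    have h2 : 1 / a ≤ 2 * (a - b) := by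
      rw [div_le_iff₀ ha0]
      nlinarith [sq_nonneg (a - b)]
    linarith

theorem NS_xp {L p : ℕ} (hL : 1 ≤ L) (hp : 1 ≤ p) {v : ℝ} (hv : 0 < v) (hv8 : v ^ 8 = 10 ^ 6 * L) :
    xp L p ≤ 1 / 25 * ((lp p : ℝ) / L) + (if (p : ℝ) ≤ v ^ 6 then 40 * √(2 / L) * (1 / √(p : ℝ)) else 0) := by
  have hL0 : (0 : ℝ) < L := by exact_mod_cast hL
  have hp0 : (0 : ℝ) < p := by exact_mod_cast hp
  have hlp : (1 : ℝ) ≤ lp p := by exact_mod_cast lp_pos p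
  obtain ⟨s, hs⟩ : ∃ s, s = √((lp p : ℝ) / L) := ⟨_, rfl⟩
  have hs2 : s ^ 2 = (lp p : ℝ) / L := by rw [hs, Real.sq_sqrt (by positivity)]
  have hs0 : 0 < s := by rw [hs]; positivity
  have hif : 0 ≤ (if (p : ℝ) ≤ v ^ 6 then 40 * √(2 / L) * (1 / √(p : ℝ)) else 0) := by
    split_ifs
    · positivity
    · exact le_refl _
  unfold xp bp
  rw [← hs]
  rcases le_total ((p : ℝ) ^ (-(2 / 3) : ℝ)) (s / 1000) with h | h
  · rw [max_eq_right h]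
    have h1 : 40 * (s / 1000) * s = 1 / 25 * ((lp p : ℝ) / L) := by rw [← hs2]; ring
    rw [h1]
    linarith
  · rw [max_eq_left h]
    obtain ⟨u, hu⟩ : ∃ u, u = (p : ℝ) ^ (1 / 3 : ℝ) := ⟨_, rfl⟩
    have hu0 : 0 < u := by rw [hu]; positivity
    have hu3 : u ^ 3 = p := by
      rw [hu, ← Real.rpow_natCast, ← Real.rpow_mul hp0.le]
      norm_num
    have hpu : (p : ℝ) ^ (-(2 / 3) : ℝ) = 1 / u ^ 2 := by
      rw [hu, ← Real.rpow_natCast, ← Real.rpow_mul hp0.le, one_div, ← Real.rpow_neg hp0.le]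
      congr 1
      norm_num
    rw [hpu] at h ⊢
    have hlu : (lp p : ℝ) ≤ 2 * u := by
      have h1 : ((lp p : ℝ)) ^ 3 ≤ (2 * u) ^ 3 := by
        rw [mul_pow, hu3]
        have := NS_lp hp
        have h2 : ((lp p : ℝ)) ^ 3 ≤ 8 * p := by exact_mod_cast this
        linarith
      exact le_of_pow_le_pow_left₀ (by norm_num) (by positivity) h1
    have hsu : s * u ^ 2 ≤ 1000 := by
      rw [div_le_div_iff₀ (by norm_num) (by positivity)] at h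
      linarith
    have hu4 : u ^ 4 ≤ v ^ 8 := by
      rw [hv8]
      have h1 : (s * u ^ 2) ^ 2 ≤ 1000 ^ 2 := pow_le_pow_left₀ (by positivity) hsu 2
      have h2 : (s * u ^ 2) ^ 2 = (lp p : ℝ) * u ^ 4 / L := by
        rw [mul_pow, hs2]
        ring
      rw [h2, div_le_iff₀ hL0] at h1
      have h3 : u ^ 4 ≤ (lp p : ℝ) * u ^ 4 := by
        have : 0 < u ^ 4 := by positivity
        nlinarith
      linarith
    have huv : u ≤ v ^ 2 := by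
      have h1 : u ^ 4 ≤ (v ^ 2) ^ 4 := by rw [← pow_mul]; exact hu4
      exact le_of_pow_le_pow_left₀ (by norm_num) (by positivity) h1
    have hpv : (p : ℝ) ≤ v ^ 6 := by
      rw [← hu3]
      calc u ^ 3 ≤ (v ^ 2) ^ 3 := pow_le_pow_left₀ hu0.le huv 3
        _ = v ^ 6 := by ring
    rw [if_pos hpv]
    have hfin : 1 / u ^ 2 * s ≤ √(2 / L) * (1 / √(p : ℝ)) := by
      have h1 : √(2 / L) * (1 / √(p : ℝ)) = √(2 / (L * p)) := by
        rw [one_div, ← Real.sqrt_inv, ← Real.sqrt_mul (by positivity)]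
        congr 1
        field_simp
      rw [h1]
      apply Real.le_sqrt_of_sq_le
      rw [mul_pow, hs2, ← hu3]
      have h2 : (1 / u ^ 2) ^ 2 * ((lp p : ℝ) / L) = (lp p : ℝ) / (L * u ^ 4) := by
        field_simp
      have h3 : 2 / ((L : ℝ) * u ^ 3) = (2 * u) / (L * u ^ 4) := by
        field_simp
      rw [h2, h3]
      exact div_le_div_of_nonneg_right hlu (by positivity)
    have h5 : 40 * (1 / u ^ 2) * s = 40 * (1 / u ^ 2 * s) := by ring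
    rw [h5]
    have h6 : 0 ≤ 1 / 25 * ((lp p : ℝ) / L) := by positivity
    nlinarith

theorem NS_first {L q : ℕ} (hL : 1 ≤ L) (hq : 1 ≤ q) (h : q ≤ 2 ^ L) :
    ∑ p ∈ q.primeFactors, 1 / 25 * ((lp p : ℝ) / L) ≤ 2 / 25 := by
  have hL0 : (0 : ℝ) < L := by exact_mod_cast hL
  have h1 : ∑ p ∈ q.primeFactors, lp p ≤ ellN q := by
    rw [ellN_eq_sum hq]
    apply sum_le_sum
    intro p hp
    rw [Nat.card_Icc, Nat.add_sub_cancel]
    apply Nat.le_mul_of_pos_right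
    exact (Nat.prime_of_mem_primeFactors hp).factorization_pos_of_dvd (by omega)
      (Nat.dvd_of_mem_primeFactors hp)
  have h2 : ellN q ≤ 2 * L := by
    have h3 : 2 ^ ellN q ≤ 2 ^ (2 * L) := by
      calc 2 ^ ellN q ≤ q ^ 2 := two_pow_ellN_le hq
        _ ≤ (2 ^ L) ^ 2 := Nat.pow_le_pow_left h 2
        _ = 2 ^ (2 * L) := by rw [← pow_mul, mul_comm]
    exact (Nat.pow_le_pow_iff_right (by norm_num)).1 h3
  have h3 : (∑ p ∈ q.primeFactors, (lp p : ℝ)) ≤ 2 * L := by exact_mod_cast h1.trans h2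
  have h4 : ∑ p ∈ q.primeFactors, 1 / 25 * ((lp p : ℝ) / L) =
      (1 / 25 / L) * ∑ p ∈ q.primeFactors, (lp p : ℝ) := by
    rw [mul_sum]
    apply sum_congr rfl
    intro p _
    ring
  rw [h4]
  calc (1 / 25 / (L : ℝ)) * ∑ p ∈ q.primeFactors, (lp p : ℝ) ≤ (1 / 25 / (L : ℝ)) * (2 * L) :=
        mul_le_mul_of_nonneg_left h3 (by positivity)
    _ = 2 / 25 := by field_simp

theorem NS_second {L q : ℕ} (hL : 1 ≤ L) {v : ℝ} (hv : 10 ^ 6 ≤ v)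
    (hv8 : v ^ 8 = 10 ^ 6 * L) :
    ∑ p ∈ q.primeFactors, (if (p : ℝ) ≤ v ^ 6 then 40 * √(2 / L) * (1 / √(p : ℝ)) else 0) ≤ 12 / 100 := by
  have hL0 : (0 : ℝ) < L := by exact_mod_cast hL
  have hv0 : 0 < v := by linarith
  rw [← sum_filter]
  have hsub : q.primeFactors.filter (fun p : ℕ => (p : ℝ) ≤ v ^ 6) ⊆ Icc 1 ⌊v ^ 6⌋₊ := by
    intro p hp
    rw [mem_filter] at hp
    rw [mem_Icc]
    exact ⟨(Nat.prime_of_mem_primeFactors hp.1).one_le, Nat.le_floor hp.2⟩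
  have h1 : ∑ p ∈ q.primeFactors.filter (fun p : ℕ => (p : ℝ) ≤ v ^ 6), 40 * √(2 / L) * (1 / √(p : ℝ)) ≤
      ∑ n ∈ Icc 1 ⌊v ^ 6⌋₊, 40 * √(2 / L) * (1 / √(n : ℝ)) := by
    apply sum_le_sum_of_subset_of_nonneg hsub
    intro n _ _
    positivity
  refine h1.trans ?_
  rw [← mul_sum]
  have h2 : √((⌊v ^ 6⌋₊ : ℕ) : ℝ) ≤ v ^ 3 := by
    have h3 : ((⌊v ^ 6⌋₊ : ℕ) : ℝ) ≤ v ^ 6 := Nat.floor_le (by positivity)
    rw [Real.sqrt_le_left (by positivity)]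
    calc ((⌊v ^ 6⌋₊ : ℕ) : ℝ) ≤ v ^ 6 := h3
      _ = (v ^ 3) ^ 2 := by ring
  have h3 : √(2 / (L : ℝ)) ≤ 1500 / v ^ 4 := by
    rw [Real.sqrt_le_left (by positivity), div_pow, ← pow_mul, div_le_div_iff₀ hL0 (by positivity)]
    norm_num
    rw [hv8]
    linarith
  calc 40 * √(2 / L) * ∑ n ∈ Icc 1 ⌊v ^ 6⌋₊, 1 / √(n : ℝ)
      ≤ 40 * (1500 / v ^ 4) * (2 * v ^ 3) := by
        apply mul_le_mul _ ((NS_sum _).trans (by linarith)) _ (by positivity)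
        · linarith
        · exact sum_nonneg (fun n _ => by positivity)
    _ = 120000 / v := by field_simp; norm_num
    _ ≤ 120000 / 10 ^ 6 := div_le_div_of_nonneg_left (by norm_num) (by norm_num) hv
    _ = 12 / 100 := by norm_num

theorem ns_thm : ∃ L₀ : ℕ, ∀ L : ℕ, L₀ ≤ L → ∀ q : ℕ, 1 ≤ q → q ≤ 2 ^ L →
    ∑ p ∈ q.primeFactors, xp L p ≤ 1 / 4 := by
  refine ⟨10 ^ 42, ?_⟩
  intro L hL q hq hqL
  have hL1 : 1 ≤ L := le_trans (by norm_num) hL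
  have hL' : (10 : ℝ) ^ 42 ≤ L := by exact_mod_cast hL
  have hL0 : (0 : ℝ) < L := by linarith [pow_pos (by norm_num : (0 : ℝ) < 10) 42]
  obtain ⟨v, hv⟩ : ∃ v, v = (10 ^ 6 * L : ℝ) ^ (1 / 8 : ℝ) := ⟨_, rfl⟩
  have hv0 : 0 < v := by rw [hv]; positivity
  have hv8 : v ^ 8 = 10 ^ 6 * L := by
    rw [hv, ← Real.rpow_natCast, ← Real.rpow_mul (by positivity)]
    norm_num
  have hv1 : 10 ^ 6 ≤ v := by
    have h1 : ((10 : ℝ) ^ 6) ^ 8 ≤ v ^ 8 := by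
      rw [hv8]
      have h2 : ((10 : ℝ) ^ 6) ^ 8 = (10 : ℝ) ^ 6 * (10 : ℝ) ^ 42 := by norm_num
      rw [h2]
      exact mul_le_mul_of_nonneg_left hL' (by norm_num)
    exact le_of_pow_le_pow_left₀ (by norm_num) hv0.le h1
  calc ∑ p ∈ q.primeFactors, xp L p
      ≤ ∑ p ∈ q.primeFactors, (1 / 25 * ((lp p : ℝ) / L) +
        (if (p : ℝ) ≤ v ^ 6 then 40 * √(2 / L) * (1 / √(p : ℝ)) else 0)) := by
        apply sum_le_sum
        intro p hp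
        exact NS_xp hL1 (Nat.prime_of_mem_primeFactors hp).one_le hv0 hv8
    _ ≤ 2 / 25 + 12 / 100 := by
        rw [sum_add_distrib]
        exact add_le_add (NS_first hL1 hq hqL) (NS_second hL1 hv1 hv8)
    _ ≤ 1 / 4 := by norm_num

/-- The number of prime factors. -/
theorem card_pf_le {L q : ℕ} (hq : 1 ≤ q) (h : q ≤ 2 ^ L) : q.primeFactors.card ≤ L := by
  have h1 : 2 ^ q.primeFactors.card ≤ ∏ p ∈ q.primeFactors, p := by
    rw [← prod_const]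
    exact prod_le_prod' (fun p hp => (Nat.prime_of_mem_primeFactors hp).two_le)
  have h2 := Nat.le_of_dvd hq (Nat.prod_primeFactors_dvd q)
  exact (Nat.pow_le_pow_iff_right (by norm_num)).1 (h1.trans (h2.trans h))

end SFP
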