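import Pool.Agent.SFP.NEc
import Pool.Agent.SFP.NS
import Pool.Agent.SFP.NMs
import Pool.Agent.SFP.NBj
import Pool.Agent.SFP.NQ
import Pool.Agent.SFP.NG
import Pool.Agent.SFP.LR

/-!
# Module NMain: the weights of the last level (assembly of Part N)
-/

namespace SFP

open Finset

theorem NMain_hN_one (L r : ℕ) : hN L 1 r = 1 := by
  unfold hN
  simp

theorem NMain_prime_lt {L q p : ℕ} (hL : 2 ≤ L) (hq : 1 ≤ q) (h : q ≤ 2 ^ L)
    (hp : p ∈ q.primeFactors) : p < 2 ^ L := by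
  have h1 := Nat.prime_of_mem_primeFactors hp
  have h2 := Nat.le_of_dvd (by omega) (Nat.dvd_of_mem_primeFactors hp)
  rcases lt_or_eq_of_le (h2.trans h) with h3 | h3
  · exact h3
  · exfalso
    rw [h3] at h1
    exact Nat.Prime.not_prime_pow hL h1

theorem NMain_ell_le {L q : ℕ} (hq : 1 ≤ q) (h : q ≤ 2 ^ L) : ellN q ≤ 2 * L := by
  have h1 := two_pow_ellN_le hq
  have h2 : 2 ^ ellN q ≤ 2 ^ (2 * L) := by
    calc 2 ^ ellN q ≤ q ^ 2 := h1
      _ ≤ (2 ^ L) ^ 2 := Nat.pow_le_pow_left h 2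
      _ = 2 ^ (2 * L) := by rw [← pow_mul, mul_comm]
  exact (Nat.pow_le_pow_iff_right (by norm_num)).1 h2

/-- The value of the inner sum. -/
theorem NMain_inner {L q C r : ℕ} (hL : 2 ≤ L) (hq : 1 ≤ q) (hqL : q ≤ 2 ^ L)
    (hx : ∑ p ∈ q.primeFactors, xp L p ≤ 1 / 4) :
    -(PiN L q * hN L q r) / 3 ≤ DS L (cop q r) (GF L C L) ((ellN q : ℤ) + ellN r) ∧
    ((ellN q : ℤ) + ellN r + 2 * L ≤ C →
      DS L (cop q r) (GF L C L) ((ellN q : ℤ) + ellN r) = PiN L q * hN L q r) := by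
  have hL1 : 1 ≤ L := by omega
  have hs : ∀ p ∈ q.primeFactors, p < 2 ^ L := fun p hp => NMain_prime_lt hL hq hqL hp
  have hsub : (cop q r).primeFactors ⊆ q.primeFactors := by
    rw [cop_primeFactors hq]
    exact filter_subset _ _
  have hs' : ∀ p ∈ (cop q r).primeFactors, p < 2 ^ L := fun p hp => hs p (hsub hp)
  have hPi : PiN L (cop q r) = PiN L q * hN L q r := PiN_cop hL1 hq hs r
  constructor
  · have h1 := exp_thm hL1 C (cop q r) (cop_pos q r) hs' (by
      refine le_trans ?_ hx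
      apply sum_le_sum_of_subset_of_nonneg hsub
      intro p hp _
      unfold xp
      have h2 := (bp_pos (L := L) (Nat.prime_of_mem_primeFactors hp).pos).le
      positivity) ((card_le_card hsub).trans (card_pf_le hq hqL)) ((ellN q : ℤ) + ellN r)
    rw [hPi] at h1
    have h2 := (abs_le.1 h1).1
    have h3 : 0 ≤ PiN L q * hN L q r * GF L C L ((ellN q : ℤ) + ellN r) :=
      mul_nonneg (mul_nonneg (PiN_pos hL1 hs).le (hN_pos hL1 hs r).le) (GF_nonneg _ _ _ _)
    linarith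
  · intro h
    rw [← hPi, ← ds_one hL1 (cop_pos q r) hs']
    unfold DS
    apply sum_congr rfl
    intro t _
    rw [GF_one L C (by
      have : (0 : ℤ) ≤ ellN t := Nat.cast_nonneg _
      linarith), mul_one]

theorem n_wts : ∃ (CN lam₀ : ℕ), ∀ lam : ℕ, lam₀ ≤ lam → ∃ a : ℕ → ℝ, Wts lam CN a := by
  obtain ⟨L₀, hL₀⟩ := ns_thm
  refine ⟨896010, L₀ + 1, fun lam hlam => ?_⟩
  obtain ⟨L, hLdef⟩ : ∃ L, L = 8 * lam := ⟨_, rfl⟩
  have hL8 : 8 ≤ L := by omega
  have hL1 : 1 ≤ L := by omega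
  have hL2 : 2 ≤ L := by omega
  have hLL₀ : L₀ ≤ L := by omega
  obtain ⟨C, hC⟩ : ∃ C, C = L * 896010 := ⟨_, rfl⟩
  obtain ⟨M, hM⟩ : ∃ M, M = 2 ^ C := ⟨_, rfl⟩
  have hMeq : 2 ^ (8 * lam * 896010) = M := by rw [hM, hC, hLdef]
  have hM1 : 1 ≤ M := by rw [hM]; exact Nat.one_le_two_pow
  obtain ⟨C₀, hC₀⟩ : ∃ C₀, C₀ = 448000 * L := ⟨_, rfl⟩
  obtain ⟨G, hG⟩ : ∃ G : ℤ → ℝ, G = GF L C L := ⟨_, rfl⟩
  have hG0 : ∀ n, 0 ≤ G n := fun n => by rw [hG]; exact GF_nonneg _ _ _ _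
  have hG1 : ∀ n, G n ≤ 1 := fun n => by rw [hG]; exact GF_le_one _ _ _ _
  have hGone : ∀ n : ℤ, n + 2 * L ≤ C → G n = 1 := fun n hn => by rw [hG]; exact GF_one L C hn
  have hGzero : ∀ d : ℕ, M < d → G (ellN d) = 0 := by
    intro d hd
    rw [hG]
    apply GF_zero
    have h1 := le_two_pow_ellN (n := d) (by omega)
    have h2 : 2 ^ C < 2 ^ ellN d := by
      rw [← hM]
      exact hd.trans_le h1
    have h3 : C < ellN d := (Nat.pow_lt_pow_iff_right (by norm_num)).1 h2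
    exact_mod_cast h3
  obtain ⟨Z, hZ⟩ : ∃ Z : ℝ, Z = ∑ d ∈ Icc 1 M, fN L d * G (ellN d) := ⟨_, rfl⟩
  obtain ⟨Z₀, hZ₀⟩ : ∃ Z₀ : ℝ, Z₀ = ∑ d ∈ Icc 1 M, fN L d := ⟨_, rfl⟩
  have hfG : ∀ d, 0 ≤ fN L d * G (ellN d) := fun d => mul_nonneg (fN_nonneg _ _) (hG0 _)
  have hZ1 : 1 ≤ Z := by
    rw [hZ]
    have h1 : fN L 1 * G (ellN 1) ≤ ∑ d ∈ Icc 1 M, fN L d * G (ellN d) :=
      single_le_sum (f := fun d => fN L d * G (ellN d)) (fun d _ => hfG d)
        (mem_Icc.2 ⟨le_rfl, hM1⟩)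
    rw [fN_one, ellN_one, hGone _ (by rw [hC]; push_cast; omega), mul_one] at h1
    exact h1
  have hZpos : 0 < Z := by linarith
  -- `Z₀ ≤ 2 Z`
  have hZZ : Z₀ ≤ 2 * Z := by
    have h1 := mass (L := L) (q := 1) (X := M) (C₀ := C₀) hL1 (by simp) (by rw [hC₀])
    simp only [NMain_hN_one, mul_one] at h1
    rw [← hZ₀] at h1
    have h2 : ∑ r ∈ (Icc 1 M).filter (fun r => C₀ < ellN r), fN L r +
        ∑ r ∈ (Icc 1 M).filter (fun r => ¬ C₀ < ellN r), fN L r = Z₀ := by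
      rw [hZ₀]
      exact sum_filter_add_sum_filter_not _ _ _
    have h3 : ∑ r ∈ (Icc 1 M).filter (fun r => ¬ C₀ < ellN r), fN L r ≤ Z := by
      rw [hZ]
      calc ∑ r ∈ (Icc 1 M).filter (fun r => ¬ C₀ < ellN r), fN L r
          = ∑ r ∈ (Icc 1 M).filter (fun r => ¬ C₀ < ellN r), fN L r * G (ellN r) := by
            apply sum_congr rfl
            intro r hr
            rw [mem_filter, not_lt] at hr
            rw [hGone _ (by
              have := hr.2
              have h4 : ellN r + 2 * L ≤ C := by rw [hC]; omega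
              exact_mod_cast h4), mul_one]
        _ ≤ ∑ r ∈ Icc 1 M, fN L r * G (ellN r) :=
            sum_le_sum_of_subset_of_nonneg (filter_subset _ _) (fun r _ _ => hfG r)
    linarith
  have hZ₀0 : 0 ≤ Z₀ := by
    rw [hZ₀]
    exact sum_nonneg fun d _ => fN_nonneg _ _
  refine ⟨fun d => fN L d * G (ellN d) / Z, ?_, ?_, ?_, ?_⟩
  · intro d
    exact div_nonneg (hfG d) hZpos.le
  · rw [hMeq, ← sum_div, ← hZ]
    exact div_self hZpos.ne'
  · -- (n1)
    intro q hq hqL β hβ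
    rw [← hLdef] at hqL ⊢
    have hMeq' : 2 ^ (L * 896010) = M := by rw [hM, hC]
    rw [hMeq']
    have hx := hL₀ L hLL₀ q hq hqL
    have hs : ∀ p ∈ q.primeFactors, p < 2 ^ L := fun p hp => NMain_prime_lt hL2 hq hqL hp
    have hell := NMain_ell_le hq hqL
    have hqr : (1 : ℝ) ≤ q := by exact_mod_cast hq
    have h1 : ∑ d ∈ Icc 1 M, fN L d * G (ellN d) / Z *
          (chi (q / Nat.gcd q d) / ((q / Nat.gcd q d : ℕ) : ℝ)) * RR (β * (Nat.lcm q d : ℝ)) =
        (fN L q * ∑ r ∈ Icc 1 M, fN L r * RR (β * ((q * r : ℕ) : ℝ)) *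
          DS L (cop q r) G ((ellN q : ℤ) + ellN r)) / Z := by
      rw [← bij hq hs G hGzero (fun n => RR (β * (n : ℝ))), sum_div]
      apply sum_congr rfl
      intro d _
      ring
    rw [h1, le_div_iff₀ hZpos]
    -- notation
    obtain ⟨φ, hφ⟩ : ∃ φ : ℕ → ℝ, φ = fun r => fN L r * hN L q r := ⟨_, rfl⟩
    obtain ⟨ρ, hρ⟩ : ∃ ρ : ℕ → ℝ, ρ = fun r => RR (β * ((q * r : ℕ) : ℝ)) := ⟨_, rfl⟩
    have hφ0 : ∀ r, 0 ≤ φ r := fun r => by
      rw [hφ]; exact mul_nonneg (fN_nonneg _ _) (hN_pos hL1 hs r).le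
    have hξ0 : ∀ r : ℕ, 0 ≤ β * ((q * r : ℕ) : ℝ) := fun r => mul_nonneg hβ (Nat.cast_nonneg _)
    have hρ0 : ∀ r, 0 ≤ ρ r := fun r => by rw [hρ]; exact rr_nonneg _
    have hρ1 : ∀ r, ρ r ≤ 1 := fun r => by rw [hρ]; exact rr_le_one (hξ0 r)
    have hPi0 : 0 ≤ PiN L q := (PiN_pos hL1 hs).le
    have hf0 : 0 ≤ fN L q := fN_nonneg _ _
    -- pointwise lower bound
    have hpt : ∀ r ∈ Icc 1 M, PiN L q * ((if ellN r ≤ C₀ then ρ r * φ r else 0) -
        (if ellN q + ellN r + 2 * L ≤ C then 0 else 1 / 3 * (ρ r * φ r))) ≤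
        fN L r * RR (β * ((q * r : ℕ) : ℝ)) * DS L (cop q r) G ((ellN q : ℤ) + ellN r) := by
      intro r _
      obtain ⟨hi1, hi2⟩ := NMain_inner (C := C) (r := r) hL2 hq hqL hx
      rw [← hG] at hi1 hi2
      have hρr : RR (β * ((q * r : ℕ) : ℝ)) = ρ r := by rw [hρ]
      rw [hρr]
      have hρφ : 0 ≤ ρ r * φ r := mul_nonneg (hρ0 r) (hφ0 r)
      by_cases hc : ellN q + ellN r + 2 * L ≤ C
      · rw [if_pos hc, hi2 (by exact_mod_cast hc), sub_zero]
        have h2 : fN L r * ρ r * (PiN L q * hN L q r) = PiN L q * (ρ r * φ r) := by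
          rw [hφ]; ring
        rw [h2]
        apply mul_le_mul_of_nonneg_left _ hPi0
        split_ifs
        · exact le_rfl
        · exact hρφ
      · rw [if_neg hc]
        have h3 : ¬ ellN r ≤ C₀ := by
          intro h4
          apply hc
          rw [hC]
          omega
        rw [if_neg h3]
        have h5 : fN L r * ρ r * (-(PiN L q * hN L q r) / 3) ≤
            fN L r * ρ r * DS L (cop q r) G ((ellN q : ℤ) + ellN r) :=
          mul_le_mul_of_nonneg_left hi1 (mul_nonneg (fN_nonneg _ _) (hρ0 r))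
        have h6 : PiN L q * (0 - 1 / 3 * (ρ r * φ r)) =
            fN L r * ρ r * (-(PiN L q * hN L q r) / 3) := by
          rw [hφ]; ring
        rw [h6]
        exact h5
    have hsum := sum_le_sum hpt
    rw [← mul_sum, sum_sub_distrib] at hsum
    have hmass := mass (L := L) (q := q) (X := M) (C₀ := C₀) hL1 hs (by rw [hC₀])
    have hφsum : ∑ r ∈ Icc 1 M, fN L r * hN L q r = ∑ r ∈ Icc 1 M, φ r := by rw [hφ]
    have hφsum' : ∑ r ∈ (Icc 1 M).filter (fun r => C₀ < ellN r), fN L r * hN L q r =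
        ∑ r ∈ (Icc 1 M).filter (fun r => C₀ < ellN r), φ r := by rw [hφ]
    rw [hφsum, hφsum'] at hmass
    have hsplit : ∑ r ∈ (Icc 1 M).filter (fun r => C₀ < ellN r), φ r +
        ∑ r ∈ (Icc 1 M).filter (fun r => ¬ C₀ < ellN r), φ r = ∑ r ∈ Icc 1 M, φ r :=
      sum_filter_add_sum_filter_not _ _ _
    have h2pow : (0 : ℝ) < 2 ^ L := by positivity
    by_cases hcase : β * q * 2 ^ C₀ ≤ 1 / 3
    · -- the bracket is nonnegative
      have hA : ∑ r ∈ (Icc 1 M).filter (fun r => ¬ C₀ < ellN r), φ r ≤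
          ∑ r ∈ Icc 1 M, (if ellN r ≤ C₀ then ρ r * φ r else 0) := by
        rw [← sum_filter]
        have hset : (Icc 1 M).filter (fun r => ¬ C₀ < ellN r) =
            (Icc 1 M).filter (fun r => ellN r ≤ C₀) := by
          apply filter_congr
          intro r _
          exact not_lt
        rw [hset]
        apply sum_le_sum
        intro r hr
        rw [mem_filter, mem_Icc] at hr
        have h3 : ρ r = 1 := by
          rw [hρ]
          apply rr_one (hξ0 r)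
          have h4 : (r : ℝ) ≤ 2 ^ C₀ := by
            have h5 := le_two_pow_ellN hr.1.1
            have h6 : 2 ^ ellN r ≤ 2 ^ C₀ := Nat.pow_le_pow_right (by norm_num) hr.2
            exact_mod_cast h5.trans h6
          push_cast
          calc β * (q * (r : ℝ)) = β * q * r := by ring
            _ ≤ β * q * 2 ^ C₀ := mul_le_mul_of_nonneg_left h4 (by positivity)
            _ ≤ 1 / 3 := hcase
        rw [h3, one_mul]
      have hB : ∑ r ∈ Icc 1 M, (if ellN q + ellN r + 2 * L ≤ C then 0 else 1 / 3 * (ρ r * φ r)) ≤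
          1 / 3 * ∑ r ∈ (Icc 1 M).filter (fun r => C₀ < ellN r), φ r := by
        rw [mul_sum, sum_filter]
        apply sum_le_sum
        intro r _
        by_cases hc : ellN q + ellN r + 2 * L ≤ C
        · rw [if_pos hc]
          split_ifs
          · have := hφ0 r
            positivity
          · exact le_rfl
        · rw [if_neg hc, if_pos (by
            by_contra h4
            apply hc
            rw [hC]
            omega)]
          have h5 : ρ r * φ r ≤ 1 * φ r := mul_le_mul_of_nonneg_right (hρ1 r) (hφ0 r)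
          linarith
      have hgt0 : 0 ≤ ∑ r ∈ (Icc 1 M).filter (fun r => C₀ < ellN r), φ r :=
        sum_nonneg fun r _ => hφ0 r
      have h7 : 0 ≤ ∑ r ∈ Icc 1 M, (if ellN r ≤ C₀ then ρ r * φ r else 0) -
          ∑ r ∈ Icc 1 M, (if ellN q + ellN r + 2 * L ≤ C then 0 else 1 / 3 * (ρ r * φ r)) := by
        linarith
      have h8 : 0 ≤ fN L q * ∑ r ∈ Icc 1 M, fN L r * RR (β * ((q * r : ℕ) : ℝ)) *
          DS L (cop q r) G ((ellN q : ℤ) + ellN r) :=
        mul_nonneg hf0 (le_trans (mul_nonneg hPi0 h7) hsum)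
      have h9 : -(1 / (2 : ℝ) ^ L) * Z ≤ 0 := by
        have : 0 ≤ 1 / (2 : ℝ) ^ L * Z := by positivity
        linarith
      exact h9.trans h8
    · -- large `β`
      rw [not_le] at hcase
      have hψ : ∀ r ∈ Icc 1 M, ¬ ellN q + ellN r + 2 * L ≤ C → ρ r ≤ 3 / 2 / ((2 : ℝ) ^ L) ^ 2 := by
        intro r hr hc
        rw [mem_Icc] at hr
        have h3 : 2 * (C₀ + 3 * L) ≤ ellN r := by
          rw [hC] at hc
          omega
        have h4 : (2 ^ (C₀ + 3 * L)) ^ 2 ≤ r ^ 2 := by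
          calc (2 ^ (C₀ + 3 * L)) ^ 2 = 2 ^ (2 * (C₀ + 3 * L)) := by rw [← pow_mul, mul_comm]
            _ ≤ 2 ^ ellN r := Nat.pow_le_pow_right (by norm_num) h3
            _ ≤ r ^ 2 := two_pow_ellN_le hr.1
        have h5 : 2 ^ (C₀ + 3 * L) ≤ r := (Nat.pow_le_pow_iff_left (by norm_num)).1 h4
        have h5' : (2 : ℝ) ^ (C₀ + 3 * L) ≤ r := by exact_mod_cast h5
        have h6 : 1 / 3 * (2 : ℝ) ^ L ≤ β * ((q * r : ℕ) : ℝ) := by
          push_cast
          have h7 : β * (q * (r : ℝ)) = β * q * r := by ring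
          rw [h7]
          calc 1 / 3 * (2 : ℝ) ^ L ≤ 1 / 3 * (2 : ℝ) ^ (3 * L) := by
                apply mul_le_mul_of_nonneg_left _ (by norm_num)
                exact pow_le_pow_right₀ (by norm_num) (by omega)
            _ ≤ (β * q * 2 ^ C₀) * (2 : ℝ) ^ (3 * L) :=
                mul_le_mul_of_nonneg_right hcase.le (by positivity)
            _ = β * q * (2 : ℝ) ^ (C₀ + 3 * L) := by rw [pow_add]; ring
            _ ≤ β * q * r := mul_le_mul_of_nonneg_left h5' (by positivity)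
        have h8 : 0 < β * ((q * r : ℕ) : ℝ) := lt_of_lt_of_le (by positivity) h6
        rw [hρ]
        refine (rr_le h8).trans ?_
        rw [div_le_div_iff₀ (by positivity) (by positivity)]
        have h9 : (1 / 3 * (2 : ℝ) ^ L) ^ 2 ≤ (β * ((q * r : ℕ) : ℝ)) ^ 2 :=
          pow_le_pow_left₀ (by positivity) h6 2
        nlinarith
      have hB : ∑ r ∈ Icc 1 M, (if ellN q + ellN r + 2 * L ≤ C then 0 else 1 / 3 * (ρ r * φ r)) ≤
          1 / 2 / ((2 : ℝ) ^ L) ^ 2 * ∑ r ∈ Icc 1 M, φ r := by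
        rw [mul_sum]
        apply sum_le_sum
        intro r hr
        have hφr := hφ0 r
        by_cases hc : ellN q + ellN r + 2 * L ≤ C
        · rw [if_pos hc]
          positivity
        · rw [if_neg hc]
          have h5 : ρ r * φ r ≤ 3 / 2 / ((2 : ℝ) ^ L) ^ 2 * φ r :=
            mul_le_mul_of_nonneg_right (hψ r hr hc) hφr
          have h6 : 1 / 2 / ((2 : ℝ) ^ L) ^ 2 * φ r = 1 / 3 * (3 / 2 / ((2 : ℝ) ^ L) ^ 2 * φ r) := by
            ring
          rw [h6]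
          linarith
      have hA : 0 ≤ ∑ r ∈ Icc 1 M, (if ellN r ≤ C₀ then ρ r * φ r else 0) := by
        apply sum_nonneg
        intro r _
        split_ifs
        · exact mul_nonneg (hρ0 r) (hφ0 r)
        · exact le_rfl
      have hpi : ∀ r, fN L q * (PiN L q * hN L q r) ≤ 27 := by
        intro r
        refine (pi_le hL1 hq hs r).trans ((prod_fac hL1 hq).trans ?_)
        have h3 : (q : ℝ) ^ (-(1 / 8) : ℝ) ≤ 1 := Real.rpow_le_one_of_one_le_of_nonpos hqr (by norm_num)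
        linarith
      have hpisum : fN L q * (PiN L q * ∑ r ∈ Icc 1 M, φ r) ≤ 27 * Z₀ := by
        rw [hZ₀, mul_sum, mul_sum, mul_sum]
        apply sum_le_sum
        intro r _
        have h3 : fN L q * (PiN L q * φ r) = fN L q * (PiN L q * hN L q r) * fN L r := by
          rw [hφ]; ring
        rw [h3]
        exact mul_le_mul_of_nonneg_right (hpi r) (fN_nonneg _ _)
      have h7 : -(1 / 2 / ((2 : ℝ) ^ L) ^ 2 * ∑ r ∈ Icc 1 M, φ r) ≤
          ∑ r ∈ Icc 1 M, (if ellN r ≤ C₀ then ρ r * φ r else 0) -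
          ∑ r ∈ Icc 1 M, (if ellN q + ellN r + 2 * L ≤ C then 0 else 1 / 3 * (ρ r * φ r)) := by
        linarith
      have h8 : fN L q * (PiN L q * -(1 / 2 / ((2 : ℝ) ^ L) ^ 2 * ∑ r ∈ Icc 1 M, φ r)) ≤
          fN L q * ∑ r ∈ Icc 1 M, fN L r * RR (β * ((q * r : ℕ) : ℝ)) *
          DS L (cop q r) G ((ellN q : ℤ) + ellN r) := by
        apply mul_le_mul_of_nonneg_left _ hf0
        exact (mul_le_mul_of_nonneg_left h7 hPi0).trans hsum
      refine le_trans ?_ h8
      have h9 : fN L q * (PiN L q * -(1 / 2 / ((2 : ℝ) ^ L) ^ 2 * ∑ r ∈ Icc 1 M, φ r)) =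
          -(1 / 2 / ((2 : ℝ) ^ L) ^ 2 * (fN L q * (PiN L q * ∑ r ∈ Icc 1 M, φ r))) := by ring
      rw [h9]
      have h10 : 1 / 2 / ((2 : ℝ) ^ L) ^ 2 * (fN L q * (PiN L q * ∑ r ∈ Icc 1 M, φ r)) ≤
          1 / 2 / ((2 : ℝ) ^ L) ^ 2 * (27 * (2 * Z)) := by
        apply mul_le_mul_of_nonneg_left _ (by positivity)
        exact hpisum.trans (mul_le_mul_of_nonneg_left hZZ (by norm_num))
      have h11 : 1 / 2 / ((2 : ℝ) ^ L) ^ 2 * (27 * (2 * Z)) ≤ 1 / 2 ^ L * Z := by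
        have h12 : (27 : ℝ) ≤ 2 ^ L := by
          calc (27 : ℝ) ≤ 2 ^ 8 := by norm_num
            _ ≤ 2 ^ L := pow_le_pow_right₀ (by norm_num) hL8
        have h13 : 1 / 2 / ((2 : ℝ) ^ L) ^ 2 * (27 * (2 * Z)) = (27 / 2 ^ L) * (1 / 2 ^ L * Z) := by
          field_simp
        rw [h13]
        have h14 : (27 : ℝ) / 2 ^ L ≤ 1 := by
          rw [div_le_one h2pow]
          exact h12
        have h15 : 0 ≤ 1 / (2 : ℝ) ^ L * Z := by positivity
        nlinarith
      linarith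
  · -- (n3)
    intro q hq
    rw [hMeq]
    have hq1 : 1 ≤ q := by
      have : 1 ≤ 2 ^ (8 * lam) := Nat.one_le_two_pow
      omega
    have hq0 : (0 : ℝ) < q := by exact_mod_cast hq1
    have h1 : ∑ d ∈ Icc 1 M, fN L d * G (ellN d) / Z * ((Nat.gcd q d : ℝ) / q) ≤
        (∑ d ∈ Icc 1 M, fN L d * ((Nat.gcd q d : ℝ) / q)) / Z := by
      rw [sum_div]
      apply sum_le_sum
      intro d _
      have h2 : fN L d * G (ellN d) ≤ fN L d := mul_le_of_le_one_right (fN_nonneg _ _) (hG1 _)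
      have h3 : 0 ≤ (Nat.gcd q d : ℝ) / q := by positivity
      calc fN L d * G (ellN d) / Z * ((Nat.gcd q d : ℝ) / q)
          = (fN L d * G (ellN d)) * ((Nat.gcd q d : ℝ) / q) / Z := by ring
        _ ≤ fN L d * ((Nat.gcd q d : ℝ) / q) / Z := by
            apply div_le_div_of_nonneg_right _ hZpos.le
            exact mul_le_mul_of_nonneg_right h2 h3
    refine h1.trans ?_
    rw [div_le_iff₀ hZpos]
    have h2 := gcd_sum (L := L) (q := q) (M := M) hL1 hq1
    refine h2.trans ?_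
    rw [← hZ₀]
    have h3 : (q : ℝ) ^ (-(1 / 8) : ℝ) ≤ 1 / 2 ^ lam := by
      have h4 : ((2 : ℝ) ^ (8 * lam)) ≤ q := by exact_mod_cast hq.le
      calc (q : ℝ) ^ (-(1 / 8) : ℝ) ≤ ((2 : ℝ) ^ (8 * lam)) ^ (-(1 / 8) : ℝ) :=
            Real.rpow_le_rpow_of_nonpos (by positivity) h4 (by norm_num)
        _ = 1 / 2 ^ lam := by
            rw [← Real.rpow_natCast, ← Real.rpow_mul (by norm_num)]
            have h5 : (((8 * lam : ℕ) : ℝ)) * -(1 / 8) = -(lam : ℝ) := by
              push_cast; ring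
            rw [h5, Real.rpow_neg (by norm_num), Real.rpow_natCast, one_div]
    have h6 : ∏ p ∈ q.primeFactors, fac L p (q.factorization p) ≤ 27 * (1 / 2 ^ lam) :=
      (prod_fac hL1 hq1).trans (mul_le_mul_of_nonneg_left h3 (by norm_num))
    calc (∏ p ∈ q.primeFactors, fac L p (q.factorization p)) * Z₀
        ≤ 27 * (1 / 2 ^ lam) * (2 * Z) := by
          apply mul_le_mul h6 hZZ hZ₀0 (by positivity)
      _ ≤ 60 / 2 ^ lam * Z := by
          have h7 : 27 * (1 / (2 : ℝ) ^ lam) * (2 * Z) = 54 / 2 ^ lam * Z := by ring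
          rw [h7]
          apply mul_le_mul_of_nonneg_right _ hZpos.le
          apply div_le_div_of_nonneg_right (by norm_num) (by positivity)

end SFP
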