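import Pool.Agent.SFP.NA

/-!
# Module NT (3): the averaging operators
-/

namespace SFP

open Finset

private theorem NT_g_nonneg {G : ℤ → ℝ} {g : ℝ} (h : ∀ n, |G n| ≤ g) : 0 ≤ g :=
  le_trans (abs_nonneg _) (h 0)

private theorem NT_sum_bd {G : ℤ → ℝ} {g : ℝ} (h : ∀ n, |G n| ≤ g) (w : ℕ) (n : ℤ) :
    |∑ a ∈ range w, G (n + a)| ≤ g * w := by
  calc |∑ a ∈ range w, G (n + a)| ≤ ∑ a ∈ range w, |G (n + a)| := Finset.abs_sum_le_sum_abs _ _
    _ ≤ ∑ _a ∈ range w, g := Finset.sum_le_sum (fun a _ => h _)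
    _ = g * w := by rw [Finset.sum_const, Finset.card_range, nsmul_eq_mul, mul_comm]

theorem tw_bd {G : ℤ → ℝ} {g : ℝ} (h : ∀ n, |G n| ≤ g) {w : ℕ} (hw : 1 ≤ w) (n : ℤ) :
    |Tw w G n| ≤ g := by
  have hw' : (0 : ℝ) < w := by exact_mod_cast hw
  unfold Tw
  rw [abs_div, abs_of_pos hw', div_le_iff₀ hw']
  exact NT_sum_bd h w n

private theorem NT_shift_one {G : ℤ → ℝ} (w : ℕ) (m : ℤ) :
    (∑ a ∈ range w, G (m - 1 + a)) - (∑ a ∈ range w, G (m + a)) = G (m - 1) - G (m - 1 + w) := by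
  have h1 := Finset.sum_range_succ (fun a : ℕ => G (m - 1 + a)) w
  have h2 := Finset.sum_range_succ' (fun a : ℕ => G (m - 1 + a)) w
  have h3 : ∑ a ∈ range w, G (m - 1 + ((a + 1 : ℕ) : ℤ)) = ∑ a ∈ range w, G (m + a) := by
    refine Finset.sum_congr rfl (fun a _ => ?_)
    congr 1
    push_cast
    ring
  rw [h3] at h2
  have h4 : m - 1 + ((0 : ℕ) : ℤ) = m - 1 := by simp
  rw [h4] at h2
  linarith

private theorem NT_shift {G : ℤ → ℝ} {g : ℝ} (h : ∀ n, |G n| ≤ g) (w : ℕ) (v : ℕ) (n : ℤ) :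
    |(∑ a ∈ range w, G (n - v + a)) - (∑ a ∈ range w, G (n + a))| ≤ 2 * g * v := by
  induction v with
  | zero =>
    simp
  | succ v ih =>
    have h1 := NT_shift_one (G := G) w (n - v)
    have h2 : n - ((v + 1 : ℕ) : ℤ) = n - v - 1 := by push_cast; ring
    rw [h2]
    have h3 : |G (n - v - 1) - G (n - v - 1 + w)| ≤ 2 * g := by
      calc |G (n - v - 1) - G (n - v - 1 + w)| ≤ |G (n - v - 1)| + |G (n - v - 1 + w)| := abs_sub _ _
        _ ≤ g + g := add_le_add (h _) (h _)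
        _ = 2 * g := by ring
    rw [← h1] at h3
    have h4 := abs_add_le ((∑ a ∈ range w, G (n - v - 1 + a)) - (∑ a ∈ range w, G (n - v + a)))
      ((∑ a ∈ range w, G (n - v + a)) - (∑ a ∈ range w, G (n + a)))
    rw [sub_add_sub_cancel] at h4
    push_cast
    linarith

theorem tw_shift {G : ℤ → ℝ} {g : ℝ} (h : ∀ n, |G n| ≤ g) {w : ℕ} (hw : 1 ≤ w) (v : ℕ) (n : ℤ) :
    |Tw w G (n - v) - Tw w G n| ≤ 2 * g * √((v : ℝ) / w) := by
  have hw' : (0 : ℝ) < w := by exact_mod_cast hw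
  have hg := NT_g_nonneg h
  unfold Tw
  rw [← sub_div, abs_div, abs_of_pos hw']
  rcases le_total ((v : ℝ) / w) 1 with h1 | h1
  · have h2 : (v : ℝ) / w ≤ √((v : ℝ) / w) := by
      apply Real.le_sqrt_of_sq_le
      have h0 : 0 ≤ (v : ℝ) / w := by positivity
      nlinarith
    calc |(∑ a ∈ range w, G (n - v + a)) - (∑ a ∈ range w, G (n + a))| / w
        ≤ 2 * g * v / w := div_le_div_of_nonneg_right (NT_shift h w v n) hw'.le
      _ = 2 * g * (v / w) := by ring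
      _ ≤ 2 * g * √((v : ℝ) / w) := mul_le_mul_of_nonneg_left h2 (by positivity)
  · have h2 : 1 ≤ √((v : ℝ) / w) := by
      rw [Real.one_le_sqrt]
      exact h1
    have h3 : |(∑ a ∈ range w, G (n - v + a)) - (∑ a ∈ range w, G (n + a))| ≤ 2 * g * w := by
      calc |(∑ a ∈ range w, G (n - v + a)) - (∑ a ∈ range w, G (n + a))|
          ≤ |∑ a ∈ range w, G (n - v + a)| + |∑ a ∈ range w, G (n + a)| := abs_sub _ _
        _ ≤ g * w + g * w := add_le_add (NT_sum_bd h w _) (NT_sum_bd h w _)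
        _ = 2 * g * w := by ring
    calc |(∑ a ∈ range w, G (n - v + a)) - (∑ a ∈ range w, G (n + a))| / w
        ≤ 2 * g * w / w := div_le_div_of_nonneg_right h3 hw'.le
      _ = 2 * g * 1 := by field_simp
      _ ≤ 2 * g * √((v : ℝ) / w) := mul_le_mul_of_nonneg_left h2 (by positivity)

private theorem NT_wi_pos (L i : ℕ) : (0 : ℝ) < (wi L i : ℝ) := by
  have : 0 < wi L i := Nat.succ_pos _
  exact_mod_cast this

theorem GF_nonneg (L C m : ℕ) (n : ℤ) : 0 ≤ GF L C m n := by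
  induction m generalizing n with
  | zero =>
    show 0 ≤ (if n ≤ (C : ℤ) then (1 : ℝ) else 0)
    split_ifs <;> norm_num
  | succ m ih =>
    show 0 ≤ (∑ a ∈ range (wi L (L - m)), GF L C m (n + a)) / (wi L (L - m) : ℝ)
    exact div_nonneg (Finset.sum_nonneg (fun a _ => ih _)) (NT_wi_pos _ _).le

theorem GF_le_one (L C m : ℕ) (n : ℤ) : GF L C m n ≤ 1 := by
  induction m generalizing n with
  | zero =>
    show (if n ≤ (C : ℤ) then (1 : ℝ) else 0) ≤ 1
    split_ifs <;> norm_num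
  | succ m ih =>
    show (∑ a ∈ range (wi L (L - m)), GF L C m (n + a)) / (wi L (L - m) : ℝ) ≤ 1
    rw [div_le_one (NT_wi_pos _ _)]
    calc ∑ a ∈ range (wi L (L - m)), GF L C m (n + a) ≤ ∑ _a ∈ range (wi L (L - m)), (1 : ℝ) :=
          Finset.sum_le_sum (fun a _ => ih _)
      _ = (wi L (L - m) : ℝ) := by rw [Finset.sum_const, Finset.card_range, nsmul_eq_mul, mul_one]

theorem GF_zero (L C m : ℕ) {n : ℤ} (h : (C : ℤ) < n) : GF L C m n = 0 := by
  induction m generalizing n with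
  | zero =>
    show (if n ≤ (C : ℤ) then (1 : ℝ) else 0) = 0
    rw [if_neg (by omega)]
  | succ m ih =>
    show (∑ a ∈ range (wi L (L - m)), GF L C m (n + a)) / (wi L (L - m) : ℝ) = 0
    rw [Finset.sum_eq_zero (fun a _ => ih (by omega)), zero_div]

private theorem NT_GF_one_aux (L C m : ℕ) {n : ℤ}
    (h : n + ((∑ j ∈ range m, L / (L - j) ^ 2 : ℕ) : ℤ) ≤ C) : GF L C m n = 1 := by
  induction m generalizing n with
  | zero =>
    show (if n ≤ (C : ℤ) then (1 : ℝ) else 0) = 1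
    rw [Finset.sum_range_zero] at h
    rw [if_pos (by push_cast at h; omega)]
  | succ m ih =>
    show (∑ a ∈ range (wi L (L - m)), GF L C m (n + a)) / (wi L (L - m) : ℝ) = 1
    rw [Finset.sum_range_succ] at h
    have h1 : ∑ a ∈ range (wi L (L - m)), GF L C m (n + a)
        = ∑ _a ∈ range (wi L (L - m)), (1 : ℝ) := by
      refine Finset.sum_congr rfl (fun a ha => ?_)
      apply ih
      have h2 : a < L / (L - m) ^ 2 + 1 := Finset.mem_range.mp ha
      have h3 : (a : ℤ) ≤ ((L / (L - m) ^ 2 : ℕ) : ℤ) := by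
        exact_mod_cast Nat.lt_succ_iff.mp h2
      rw [Nat.cast_add] at h
      linarith
    rw [h1, Finset.sum_const, Finset.card_range, nsmul_eq_mul, mul_one,
      div_self (NT_wi_pos _ _).ne']

private theorem NT_sum_sq (m : ℕ) :
    ∑ j ∈ range (m + 1), (1 : ℝ) / ((j : ℝ) + 1) ^ 2 ≤ 2 - 1 / ((m : ℝ) + 1) := by
  induction m with
  | zero => norm_num
  | succ m ih =>
    rw [Finset.sum_range_succ]
    have h1 : (1 : ℝ) / (((m + 1 : ℕ) : ℝ) + 1) ^ 2 ≤ 1 / ((m : ℝ) + 1) - 1 / (((m + 1 : ℕ) : ℝ) + 1) := by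
      push_cast
      have hm : (0 : ℝ) ≤ m := Nat.cast_nonneg m
      rw [div_sub_div _ _ (by positivity) (by positivity), div_le_div_iff₀ (by positivity) (by positivity)]
      nlinarith
    linarith

private theorem NT_sum_le (L : ℕ) : ∑ j ∈ range L, L / (L - j) ^ 2 ≤ 2 * L := by
  rcases Nat.eq_zero_or_pos L with h0 | h0
  · subst h0; simp
  have h1 : ∑ j ∈ range L, L / (L - j) ^ 2 = ∑ j ∈ range L, L / (j + 1) ^ 2 := by
    rw [← Finset.sum_range_reflect (fun j => L / (j + 1) ^ 2) L]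
    refine Finset.sum_congr rfl (fun j hj => ?_)
    have h2 := Finset.mem_range.mp hj
    have h3 : L - j = L - 1 - j + 1 := by omega
    rw [h3]
  rw [h1]
  have h2 : ((∑ j ∈ range L, L / (j + 1) ^ 2 : ℕ) : ℝ) ≤ ((2 * L : ℕ) : ℝ) := by
    rw [Nat.cast_sum]
    calc ∑ j ∈ range L, ((L / (j + 1) ^ 2 : ℕ) : ℝ)
        ≤ ∑ j ∈ range L, (L : ℝ) * (1 / ((j : ℝ) + 1) ^ 2) := by
          refine Finset.sum_le_sum (fun j _ => ?_)
          calc ((L / (j + 1) ^ 2 : ℕ) : ℝ) ≤ (L : ℝ) / (((j + 1) ^ 2 : ℕ) : ℝ) := Nat.cast_div_le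
            _ = (L : ℝ) * (1 / ((j : ℝ) + 1) ^ 2) := by push_cast; ring
      _ = (L : ℝ) * ∑ j ∈ range L, 1 / ((j : ℝ) + 1) ^ 2 := by rw [Finset.mul_sum]
      _ ≤ (L : ℝ) * 2 := by
          refine mul_le_mul_of_nonneg_left ?_ (Nat.cast_nonneg L)
          obtain ⟨m, rfl⟩ : ∃ m, L = m + 1 := ⟨L - 1, by omega⟩
          have h3 := NT_sum_sq m
          have h4 : (0 : ℝ) ≤ 1 / ((m : ℝ) + 1) := by positivity
          linarith
      _ = ((2 * L : ℕ) : ℝ) := by push_cast; ring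
  exact_mod_cast h2

theorem GF_one (L C : ℕ) {n : ℤ} (h : n + 2 * L ≤ C) : GF L C L n = 1 := by
  apply NT_GF_one_aux
  have h1 : ((∑ j ∈ range L, L / (L - j) ^ 2 : ℕ) : ℤ) ≤ ((2 * L : ℕ) : ℤ) := by
    exact_mod_cast NT_sum_le L
  rw [Nat.cast_mul] at h1
  have h2 : ((2 : ℕ) : ℤ) = 2 := rfl
  rw [h2] at h1
  linarith

end SFP
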