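import Pool.Agent.SFP.LDefs

/-!
# Module TBohr (2): Bohr sets and the half bound

`t_bohr`: `q = r.den`, `u = r.num`, `|α - u/q| ≤ 1/(q Q)`. Split `[1, X]` into at most `X/q + 1` blocks of (at most) `q` consecutive integers `b+1, ..., b+q`. `α (b + i) = α b + u i/q + (α - u/q) i`, the last term is `≤ 1/Q` in absolute value. If `nd (α (b+i)) ≥ s` then
`nd (α b + u i/q) ≥ s - 1/Q`. As `i` runs over `q` consecutive integers `u i` runs over all residues mod `q`; the number of residues `v` with `nd (α b + v/q) ≥ s - 1/Q` is at most `q (1 - 2s + 2/Q) + 1` (integers `v` in an interval of that length mod `q`; if `1 - 2s + 2/Q ≥ 1` trivial).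
Total `≤ (X/q + 1)(q(1 - 2s + 2/Q) + 1) ≤ X (1 - 2s + 1/q) + 2X/Q + q (1 + 2) + 1`.

`t_half`: let `x = max S'` (empty: clear). `y ↦ x - y` maps `S' \ {x}` injectively to `[1, x-1]`; the `y` with `x - y ∈ S'` number at most `rm S' x ≤ e`. So `(|S'| - 1) + (|S'| - 1 - e) ≤ x - 1 ≤ X - 1`.
-/

namespace SFP

open Finset

/-- integers in a real interval -/
theorem TBohr_Icc (A B : ℝ) (h : A ≤ B) : ((Finset.Icc ⌈A⌉ ⌊B⌋).card : ℝ) ≤ B - A + 1 := by
  rw [Int.card_Icc]
  rcases le_or_gt 0 (⌊B⌋ + 1 - ⌈A⌉) with h1 | h1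
  · have h2 : (((⌊B⌋ + 1 - ⌈A⌉).toNat : ℤ) : ℝ) = ((⌊B⌋ + 1 - ⌈A⌉ : ℤ) : ℝ) := by
      rw [Int.toNat_of_nonneg h1]
    have h3 : (((⌊B⌋ + 1 - ⌈A⌉).toNat : ℕ) : ℝ) = ((⌊B⌋ + 1 - ⌈A⌉ : ℤ) : ℝ) := by
      rw [← h2]; norm_cast
    rw [h3]
    push_cast
    have h4 := Int.floor_le B
    have h5 := Int.le_ceil A
    linarith
  · rw [Int.toNat_of_nonpos h1.le]
    simp only [Nat.cast_zero]
    linarith

/-- far from the integers -/
theorem TBohr_fract {t s : ℝ} (h : s ≤ nd t) : s ≤ Int.fract t ∧ Int.fract t ≤ 1 - s := by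
  have h1 := nd_le t ⌊t⌋
  have h2 := nd_le t (⌊t⌋ + 1)
  have h3 : t - ⌊t⌋ = Int.fract t := rfl
  have h4 := Int.fract_nonneg t
  have h5 := Int.fract_lt_one t
  rw [h3, abs_of_nonneg h4] at h1
  have h6 : t - ((⌊t⌋ + 1 : ℤ) : ℝ) = Int.fract t - 1 := by
    push_cast
    rw [← h3]; ring
  rw [h6, abs_of_nonpos (by linarith)] at h2
  constructor <;> linarith

open Classical in
/-- one block -/
theorem TBohr_blk {α Q s : ℝ} {r : ℚ} (hQ : 1 ≤ Q) (hr : |α - r| ≤ 1 / (r.den * Q))
    (hs1 : s ≤ 1 / 2) (b : ℕ) :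
    (((Ioc b (b + r.den)).filter (fun y : ℕ => s ≤ nd (α * y))).card : ℝ) ≤
      r.den * (1 - 2 * s + 2 / Q) + 1 := by
  have hq : 0 < r.den := r.den_pos
  have hq' : (0 : ℝ) < r.den := by exact_mod_cast hq
  have hQ0 : 0 < Q := by linarith
  rcases le_or_gt (s - 1 / Q) 0 with hs | hs
  · have h1 : ((Ioc b (b + r.den)).filter (fun y : ℕ => s ≤ nd (α * y))).card ≤ r.den := by
      refine le_trans (Finset.card_filter_le _ _) ?_
      rw [Nat.card_Ioc]
      omega
    have h2 : (((Ioc b (b + r.den)).filter (fun y : ℕ => s ≤ nd (α * y))).card : ℝ) ≤ r.den := by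
      exact_mod_cast h1
    have h3 : (1 : ℝ) ≤ 1 - 2 * s + 2 / Q := by
      have : 2 / Q = 2 * (1 / Q) := by ring
      rw [this]; linarith
    have h4 : (r.den : ℝ) * 1 ≤ r.den * (1 - 2 * s + 2 / Q) := mul_le_mul_of_nonneg_left h3 hq'.le
    linarith
  · set s' := s - 1 / Q with hs'
    have hQi : 0 < 1 / Q := by positivity
    set β : ℝ := (α - r) * b with hβ
    have hrnum : (r : ℝ) = (r.num : ℝ) / r.den := by exact_mod_cast (Rat.num_div_den r).symm
    let w : ℕ → ℤ := fun y => r.num * y - r.den * ⌊β + r * y⌋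
    have hw : ∀ y : ℕ, β + (w y : ℝ) / r.den = Int.fract (β + r * y) := by
      intro y
      have : (w y : ℝ) = r.num * y - r.den * ⌊β + r * y⌋ := by
        show ((r.num * y - r.den * ⌊β + r * y⌋ : ℤ) : ℝ) = _
        push_cast
        ring
      rw [this, Int.fract, sub_div, mul_div_cancel_left₀ _ hq'.ne']
      have h8 : (r.num : ℝ) * y / r.den = (r : ℝ) * y := by rw [hrnum]; ring
      rw [h8]; ring
    have hcard : ((Ioc b (b + r.den)).filter (fun y : ℕ => s ≤ nd (α * y))).card ≤
        (Finset.Icc ⌈(r.den : ℝ) * (s' - β)⌉ ⌊(r.den : ℝ) * (1 - s' - β)⌋).card := by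
      refine Finset.card_le_card_of_injOn w ?_ ?_
      · intro y hy
        have hy := Finset.mem_coe.mp hy
        rw [Finset.mem_filter, Finset.mem_Ioc] at hy
        obtain ⟨⟨hy1, hy2⟩, hy3⟩ := hy
        have hdiff : |α * y - (β + r * y)| ≤ 1 / Q := by
          have e1 : α * y - (β + r * y) = (α - r) * ((y : ℝ) - b) := by rw [hβ]; ring
          rw [e1, abs_mul]
          have e2 : |(y : ℝ) - b| ≤ r.den := by
            have k1 : (b : ℝ) < y := by exact_mod_cast hy1
            have k2 : (y : ℝ) ≤ b + r.den := by exact_mod_cast hy2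
            rw [abs_of_nonneg (by linarith)]
            linarith
          calc |α - r| * |(y : ℝ) - b| ≤ 1 / (r.den * Q) * r.den :=
                mul_le_mul hr e2 (abs_nonneg _) (by positivity)
            _ = 1 / Q := by field_simp
        have hnd : s' ≤ nd (β + r * y) := by
          have := nd_lip (α * y) (β + r * y)
          rw [hs']; linarith
        obtain ⟨f1, f2⟩ := TBohr_fract hnd
        rw [← hw y] at f1 f2
        refine Finset.mem_coe.mpr (Finset.mem_Icc.mpr ⟨?_, ?_⟩)
        · rw [Int.ceil_le]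
          have g1 : s' - β ≤ (w y : ℝ) / r.den := by linarith
          rw [le_div_iff₀ hq'] at g1
          linarith
        · rw [Int.le_floor]
          have g1 : (w y : ℝ) / r.den ≤ 1 - s' - β := by linarith
          rw [div_le_iff₀ hq'] at g1
          linarith
      · intro y hy z hz hyz
        have hy := Finset.mem_coe.mp hy
        have hz := Finset.mem_coe.mp hz
        rw [Finset.mem_filter, Finset.mem_Ioc] at hy hz
        have h1 : r.num * y - r.den * ⌊β + r * y⌋ = r.num * z - r.den * ⌊β + r * z⌋ := hyz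
        have h2 : (r.den : ℤ) ∣ r.num * ((y : ℤ) - z) :=
          ⟨⌊β + r * y⌋ - ⌊β + r * z⌋, by linarith⟩
        have hcop : IsCoprime (r.den : ℤ) r.num := by
          have := r.reduced
          rw [Nat.coprime_comm] at this
          rw [Int.isCoprime_iff_nat_coprime]
          simpa using this
        have h3 : (r.den : ℤ) ∣ (y : ℤ) - z := hcop.dvd_of_dvd_mul_left h2
        have h4 : |(y : ℤ) - z| < r.den := by
          rw [abs_lt]
          constructor <;> omega
        have h5 := Int.eq_zero_of_abs_lt_dvd h3 h4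
        omega
    have hcard' : (((Ioc b (b + r.den)).filter (fun y : ℕ => s ≤ nd (α * y))).card : ℝ) ≤
        ((Finset.Icc ⌈(r.den : ℝ) * (s' - β)⌉ ⌊(r.den : ℝ) * (1 - s' - β)⌋).card : ℝ) := by
      exact_mod_cast hcard
    refine hcard'.trans ?_
    have hs2 : s' ≤ 1 / 2 := by rw [hs']; linarith
    refine (TBohr_Icc _ _ ?_).trans ?_
    · exact mul_le_mul_of_nonneg_left (by linarith) hq'.le
    · have : (r.den : ℝ) * (1 - s' - β) - r.den * (s' - β) + 1 = r.den * (1 - 2 * s + 2 / Q) + 1 := by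
        rw [hs']; ring
      rw [this]

open Classical in
theorem t_bohr {X : ℕ} {α Q s : ℝ} {r : ℚ} (hQ : 1 ≤ Q) (hr : |α - r| ≤ 1 / (r.den * Q))
    (hs0 : 0 ≤ s) (hs1 : s ≤ 1 / 2) :
    (((Icc 1 X).filter (fun y : ℕ => s ≤ nd (α * y))).card : ℝ) ≤
      X * (1 - 2 * s + 1 / r.den) + 2 * X / Q + 3 * r.den + 1 := by
  have hq : 0 < r.den := r.den_pos
  have hq' : (0 : ℝ) < r.den := by exact_mod_cast hq
  have hQ0 : 0 < Q := by linarith
  have hsub : (Icc 1 X).filter (fun y : ℕ => s ≤ nd (α * y)) ⊆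
      (range (X / r.den + 1)).biUnion (fun k =>
        (Ioc (k * r.den) (k * r.den + r.den)).filter (fun y : ℕ => s ≤ nd (α * y))) := by
    intro y hy
    rw [Finset.mem_filter, Finset.mem_Icc] at hy
    obtain ⟨⟨hy1, hy2⟩, hy3⟩ := hy
    rw [Finset.mem_biUnion]
    refine ⟨(y - 1) / r.den, ?_, ?_⟩
    · rw [Finset.mem_range]
      have : (y - 1) / r.den ≤ X / r.den := Nat.div_le_div_right (by omega)
      omega
    · rw [Finset.mem_filter, Finset.mem_Ioc]
      have h1 := Nat.div_mul_le_self (y - 1) r.den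
      have h2 := Nat.lt_div_mul_add (a := y - 1) hq
      refine ⟨⟨by omega, by omega⟩, hy3⟩
  have h1 : (((Icc 1 X).filter (fun y : ℕ => s ≤ nd (α * y))).card : ℝ) ≤
      ∑ k ∈ range (X / r.den + 1),
        (((Ioc (k * r.den) (k * r.den + r.den)).filter (fun y : ℕ => s ≤ nd (α * y))).card : ℝ) := by
    have := (Finset.card_le_card hsub).trans Finset.card_biUnion_le
    exact_mod_cast this
  have h2 : ∑ k ∈ range (X / r.den + 1),
        (((Ioc (k * r.den) (k * r.den + r.den)).filter (fun y : ℕ => s ≤ nd (α * y))).card : ℝ) ≤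
      ∑ _k ∈ range (X / r.den + 1), (r.den * (1 - 2 * s + 2 / Q) + 1) :=
    Finset.sum_le_sum fun k _ => TBohr_blk hQ hr hs1 _
  rw [Finset.sum_const, Finset.card_range, nsmul_eq_mul] at h2
  have h3 : ((X / r.den + 1 : ℕ) : ℝ) ≤ X / r.den + 1 := by
    push_cast
    have := Nat.cast_div_le (α := ℝ) (m := X) (n := r.den)
    linarith
  have hL0 : 0 ≤ 1 - 2 * s + 2 / Q := by
    have : 0 < 2 / Q := by positivity
    linarith
  have hL3 : 1 - 2 * s + 2 / Q ≤ 3 := by
    have : 2 / Q ≤ 2 := by
      rw [div_le_iff₀ hQ0]; linarith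
    linarith
  have h4 : 0 ≤ (r.den : ℝ) * (1 - 2 * s + 2 / Q) + 1 := by positivity
  have h5 := mul_le_mul_of_nonneg_right h3 h4
  have h6 : ((X : ℝ) / r.den + 1) * (r.den * (1 - 2 * s + 2 / Q) + 1) =
      X * (1 - 2 * s + 1 / r.den) + 2 * X / Q + r.den * (1 - 2 * s + 2 / Q) + 1 := by
    field_simp
    ring
  have h7 : (r.den : ℝ) * (1 - 2 * s + 2 / Q) ≤ r.den * 3 := mul_le_mul_of_nonneg_left hL3 hq'.le
  linarith

theorem t_half {X : ℕ} {e : ℝ} (S' : Finset ℕ) (hS : S' ⊆ Icc 1 X) (he : 0 ≤ e) (h : RSF S' e) :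
    2 * (S'.card : ℝ) ≤ X + 1 + e := by
  rcases S'.eq_empty_or_nonempty with h0 | h0
  · rw [h0]
    simp only [Finset.card_empty, Nat.cast_zero]
    have hX0 : (0 : ℝ) ≤ X := Nat.cast_nonneg X
    linarith
  · set x := S'.max' h0 with hx
    have hxS : x ∈ S' := S'.max'_mem h0
    have hxX := hS hxS
    rw [Finset.mem_Icc] at hxX
    have hrm := (h x hxS).2
    set P := S'.filter (fun y => y < x) with hP
    set P' := P.image (fun y => x - y) with hP'
    have hcP : P.card + 1 = S'.card := by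
      have : P = S'.erase x := by
        ext y
        rw [hP, Finset.mem_filter, Finset.mem_erase]
        constructor
        · rintro ⟨h1, h2⟩; exact ⟨by omega, h1⟩
        · rintro ⟨h1, h2⟩
          have := S'.le_max' y h2
          exact ⟨h2, by omega⟩
      rw [this]
      exact Finset.card_erase_add_one hxS
    have hcP' : P'.card = P.card := by
      rw [hP']
      refine Finset.card_image_of_injOn ?_
      intro y hy z hz hyz
      have hy := Finset.mem_coe.mp hy
      have hz := Finset.mem_coe.mp hz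
      rw [hP, Finset.mem_filter] at hy hz
      have hyz' : x - y = x - z := hyz
      omega
    have hinter : (P ∩ P').card ≤ rm S' x := by
      unfold rm
      refine Finset.card_le_card ?_
      intro y hy
      rw [Finset.mem_inter, hP', Finset.mem_image] at hy
      obtain ⟨hy1, z, hz, hzy⟩ := hy
      rw [hP, Finset.mem_filter] at hy1 hz
      rw [Finset.mem_filter]
      refine ⟨hy1.1, hy1.2, ?_⟩
      have : x - y = z := by omega
      rw [this]; exact hz.1
    have hunion : (P ∪ P').card ≤ x - 1 := by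
      have : P ∪ P' ⊆ Icc 1 (x - 1) := by
        intro y hy
        rw [Finset.mem_union] at hy
        rw [Finset.mem_Icc]
        rcases hy with hy | hy
        · rw [hP, Finset.mem_filter] at hy
          have := hS hy.1
          rw [Finset.mem_Icc] at this
          omega
        · rw [hP', Finset.mem_image] at hy
          obtain ⟨z, hz, hzy⟩ := hy
          rw [hP, Finset.mem_filter] at hz
          have := hS hz.1
          rw [Finset.mem_Icc] at this
          omega
      have := Finset.card_le_card this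
      rw [Nat.card_Icc] at this
      omega
    have hsum := Finset.card_union_add_card_inter P P'
    have hnat : 2 * S'.card ≤ X + 1 + rm S' x := by omega
    have hnat' : 2 * (S'.card : ℝ) ≤ X + 1 + rm S' x := by exact_mod_cast hnat
    linarith

end SFP
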