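import Pool.Agent.SFP.LDefs

/-!
# Module TYv (2): small facts on `Yf`, `Yv`, `HH`, `BH`, empty sections

* `yf_nonneg`, `yf_le`: `1/3 - nd (β y) ≤ Yf S' β`; `yf_cases`: `Yf = 0` or `Yf = 1/3 - nd (β y)` for some `y ∈ S'` (`Finset.max'_mem`).
* `yv_nonneg`: induction on `j`. `yv_le`: induction on `j` (all `D`, `α`): `j = 0`: `ρ = 1`; `j + 1`: for `r ∈ [1, B]` apply it to `(j, D (F r), α (F r))`, `ρ = F r ρ'`; the average of numbers `≤ g` is `≤ g` (`B ≥ 1`).
* `hh_succ`: `y ∈ sct S (D (F r)) (cl (2j) M)` ⟹ `F r y ∈ sct S D (cl (2(j+1)) M)` as `F r y ≤ B B cl(2j) M ≤ cl (2j+2) M` (`cl_succ` twice, `E ≥ 1`).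
* `bh_of_hh`: `c = 1/2` for all windows: `nd (t - 1/2) = 1/2 - nd t` (so `nd (α x - 1/2) ≤ .24` iff `nd (α x) ≥ .26`); `cl (2j) ≤ cl (2j) M`; `cl (2j-1) B ≤ cl (2j) ≤ cl (2j) M`.
* `t_empty`: if `sct S D (cl (2j) M) = ∅` then `Val j D = -3 (j+1)` and `Yv j D α = 0`: induction; all cells of block `j` are empty (`ex = -1`, `GG = -3`), and `sct S (D (F r)) (cl (2(j-1)) M) = ∅` as in `hh_succ`. `j = 0`: for `d ≤ M`: `sct S (D d) (cl 0) = ∅` (`d y ≤ cl 0 M`), `exl = -1`,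
`Yf ∅ = 0`. (`∑ a = 1`; averages of a constant over `r ∈ [1,B]`, `B ≥ 1`.)
* `t_emp`: `HH` and an integer `u` with `|α - u| (cl (2j) M) < 26/100` ⟹ `sct S D (cl (2j) M) = ∅` (`nd (α y) ≤ |α y - u y|`).
* `t_dil`: `y ∈ sct S (D ρ) X`, `ρ X ≤ X'` ⟹ `ρ y ∈ sct S D X'`.
-/

namespace SFP

open Finset

theorem yf_nonneg (S' : Finset ℕ) (β : ℝ) : 0 ≤ Yf S' β := by
  unfold Yf
  exact le_max' _ _ (mem_insert_self _ _)

theorem yf_le {S' : Finset ℕ} {β : ℝ} {y : ℕ} (hy : y ∈ S') : 1 / 3 - nd (β * y) ≤ Yf S' β := by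
  unfold Yf
  apply le_max'
  apply mem_insert_of_mem
  rw [mem_image]
  exact ⟨y, hy, rfl⟩

theorem yf_cases (S' : Finset ℕ) (β : ℝ) : Yf S' β = 0 ∨ ∃ y ∈ S', Yf S' β = 1 / 3 - nd (β * y) := by
  have h := max'_mem (insert 0 (S'.image (fun y : ℕ => 1 / 3 - nd (β * y)))) (insert_nonempty _ _)
  rw [mem_insert, mem_image] at h
  rcases h with h | ⟨y, hy, h⟩
  · left
    exact h
  · right
    exact ⟨y, hy, h.symm⟩

theorem TYv_sub_half_le (t : ℝ) : 1 / 2 - nd t ≤ nd (t - 1 / 2) := by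
  unfold nd
  -- set r = round (t - 1/2); t - 1/2 - r; want 1/2 - |t - round t| ≤ |t - 1/2 - r|
  have h1 : |t - round t| ≤ |t - round (t - 1 / 2)| := round_le t _
  have h2 : |t - round t| ≤ |t - (round (t - 1 / 2) + 1 : ℤ)| := round_le t _
  push_cast at h2
  rcases le_total 0 (t - 1 / 2 - round (t - 1 / 2)) with h | h
  · rw [abs_of_nonneg h]
    have h3 := abs_sub_round (t - 1 / 2)
    rw [abs_of_nonneg h] at h3
    have h4 : |t - ((round (t - 1 / 2) : ℝ) + 1)| = (round (t - 1 / 2) : ℝ) + 1 - t := by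
      rw [abs_of_nonpos (by linarith)]
      ring
    have h5 : |(round (t - 1 / 2) : ℝ) + 1 - t| = (round (t - 1 / 2) : ℝ) + 1 - t := by
      rw [abs_of_nonneg (by linarith)]
    have h6 := abs_sub_round t
    -- 1/2 - nd t ≤ t - 1/2 - r  i.e. 1 + r - t ≤ nd t : false in general, so use a direct argument
    by_contra hc
    push Not at hc
    -- nd t < 1 + r - t and all integers other than r, r + 1 are far
    have h7 : (round t : ℝ) = round t := rfl
    rcases lt_or_ge (round t) (round (t - 1 / 2) + 1) with h8 | h8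
    · have h9 : (round t : ℤ) ≤ round (t - 1 / 2) := by omega
      have h10 : (round t : ℝ) ≤ round (t - 1 / 2) := by exact_mod_cast h9
      have h11 : t - round t ≤ |t - round t| := le_abs_self _
      linarith
    · have h10 : ((round (t - 1 / 2) : ℝ) + 1) ≤ round t := by exact_mod_cast h8
      have h11 : -(t - round t) ≤ |t - round t| := neg_le_abs _
      linarith
  · rw [abs_of_nonpos h]
    have h3 := abs_sub_round (t - 1 / 2)
    rw [abs_of_nonpos h] at h3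
    by_contra hc
    push Not at hc
    rcases lt_or_ge (round (t - 1 / 2)) (round t) with h8 | h8
    · have h9 : round (t - 1 / 2) + 1 ≤ round t := by omega
      have h10 : ((round (t - 1 / 2) : ℝ) + 1) ≤ round t := by exact_mod_cast h9
      have h11 : -(t - round t) ≤ |t - round t| := neg_le_abs _
      linarith
    · have h10 : (round t : ℝ) ≤ round (t - 1 / 2) := by exact_mod_cast h8
      have h11 : t - round t ≤ |t - round t| := le_abs_self _
      linarith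

theorem nd_sub_half (t : ℝ) : nd (t - 1 / 2) = 1 / 2 - nd t := by
  apply le_antisymm
  · have h0 := Int.floor_add_fract t
    have h1 := Int.fract_nonneg t
    have h2 := Int.fract_lt_one t
    rcases le_total (Int.fract t) (1 / 2) with h | h
    · have a1 := nd_le t ⌊t⌋
      have a2 := nd_le (t - 1 / 2) ⌊t⌋
      rw [show t - (⌊t⌋ : ℝ) = Int.fract t by linarith, abs_of_nonneg h1] at a1
      rw [show t - 1 / 2 - (⌊t⌋ : ℝ) = Int.fract t - 1 / 2 by linarith,
        abs_of_nonpos (by linarith)] at a2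
      linarith
    · have a1 := nd_le t (⌊t⌋ + 1)
      have a2 := nd_le (t - 1 / 2) ⌊t⌋
      push_cast at a1
      rw [show t - ((⌊t⌋ : ℝ) + 1) = Int.fract t - 1 by linarith,
        abs_of_nonpos (by linarith)] at a1
      rw [show t - 1 / 2 - (⌊t⌋ : ℝ) = Int.fract t - 1 / 2 by linarith,
        abs_of_nonneg (by linarith)] at a2
      linarith
  · exact TYv_sub_half_le t

theorem TYv_avg_le {B : ℕ} (hB : 1 ≤ B) {g : ℝ} (f : ℕ → ℝ) (h : ∀ r ∈ Icc 1 B, f r ≤ g) :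
    (∑ r ∈ Icc 1 B, f r) / B ≤ g := by
  have hB' : (0 : ℝ) < B := by exact_mod_cast hB
  rw [div_le_iff₀ hB']
  calc ∑ r ∈ Icc 1 B, f r ≤ ∑ r ∈ Icc 1 B, g := sum_le_sum h
    _ = g * B := by
      rw [sum_const, Nat.card_Icc, nsmul_eq_mul]
      simp
      ring

theorem TYv_avg_eq {B : ℕ} (hB : 1 ≤ B) {g : ℝ} (f : ℕ → ℝ) (h : ∀ r ∈ Icc 1 B, f r = g) :
    (∑ r ∈ Icc 1 B, f r) / B = g := by
  have hB' : (0 : ℝ) < B := by exact_mod_cast hB
  rw [div_eq_iff hB'.ne', sum_congr rfl h, sum_const, Nat.card_Icc, nsmul_eq_mul]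
  simp
  ring

theorem yv_nonneg {S : Finset ℕ} {T B E F M : ℕ} {a : ℕ → ℝ} (ha : ∀ d, 0 ≤ a d) (j D : ℕ) (α : ℝ) :
    0 ≤ Yv S T B E F M a j D α := by
  induction j generalizing D α with
  | zero =>
    unfold Yv
    exact sum_nonneg fun d _ => mul_nonneg (ha d) (yf_nonneg _ _)
  | succ j ih =>
    unfold Yv
    exact div_nonneg (sum_nonneg fun r _ => ih _ _) (Nat.cast_nonneg _)

theorem yv_le {S : Finset ℕ} {T B E F M : ℕ} {a : ℕ → ℝ} (hB : 1 ≤ B) (hF : 1 ≤ F) (ha : ∀ d, 0 ≤ a d)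
    (hs : ∑ d ∈ Icc 1 M, a d = 1) {g : ℝ} (j D : ℕ) (α : ℝ)
    (h : ∀ ρ d : ℕ, 1 ≤ ρ → ρ ≤ (F * B) ^ j → d ∈ Icc 1 M →
      Yf (sct S (D * ρ * d) (cl T B E 0)) (α * (ρ * d)) ≤ g) :
    Yv S T B E F M a j D α ≤ g := by
  induction j generalizing D α with
  | zero =>
    unfold Yv
    calc ∑ d ∈ Icc 1 M, a d * Yf (sct S (D * d) (cl T B E 0)) (α * d)
        ≤ ∑ d ∈ Icc 1 M, a d * g := by
          apply sum_le_sum
          intro d hd
          have := h 1 d le_rfl (by simp) hd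
          rw [mul_one] at this
          push_cast at this
          rw [one_mul] at this
          exact mul_le_mul_of_nonneg_left this (ha d)
      _ = g := by rw [← sum_mul, hs, one_mul]
  | succ j ih =>
    unfold Yv
    apply TYv_avg_le hB
    intro r hr
    rw [mem_Icc] at hr
    apply ih
    intro ρ d h1 h2 hd
    have h3 := h (F * r * ρ) d (Nat.mul_pos (Nat.mul_pos hF hr.1) h1)
      (by
        calc F * r * ρ ≤ F * B * (F * B) ^ j :=
              Nat.mul_le_mul (Nat.mul_le_mul_left F hr.2) h2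
          _ = (F * B) ^ (j + 1) := by ring) hd
    have e1 : D * (F * r * ρ) * d = D * (F * r) * ρ * d := by ring
    rw [e1] at h3
    have e2 : α * (((F * r * ρ : ℕ) : ℝ) * (d : ℝ)) = α * ((F * r : ℕ) : ℝ) * ((ρ : ℝ) * d) := by
      push_cast
      ring
    rw [e2] at h3
    exact h3

theorem t_dil {S : Finset ℕ} {D ρ X X' y : ℕ} (hρ : 1 ≤ ρ) (h : ρ * X ≤ X') (hy : y ∈ sct S (D * ρ) X) :
    ρ * y ∈ sct S D X' := by
  rw [mem_sct] at hy ⊢
  obtain ⟨⟨h1, h2⟩, h3⟩ := hy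
  refine ⟨⟨Nat.mul_pos hρ h1, (Nat.mul_le_mul_left ρ h2).trans h⟩, ?_⟩
  rwa [← mul_assoc]

theorem TYv_cell {T B E F M j r : ℕ} (hFB : F ≤ B) (hE : 1 ≤ E) (hr : r ∈ Icc 1 B) :
    F * r * (cl T B E (2 * j) * M) ≤ cl T B E (2 * (j + 1)) * M := by
  rw [mem_Icc] at hr
  have hB : 1 ≤ B := hr.1.trans hr.2
  have h1 : B ≤ B ^ E := by
    calc B = B ^ 1 := (pow_one B).symm
      _ ≤ B ^ E := Nat.pow_le_pow_right hB hE
  have h2 : F * r ≤ B ^ E * B ^ E := Nat.mul_le_mul (hFB.trans h1) (hr.2.trans h1)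
  have h3 : cl T B E (2 * (j + 1)) = cl T B E (2 * j) * (B ^ E * B ^ E) := by
    rw [show 2 * (j + 1) = 2 * j + 1 + 1 by ring, cl_succ, cl_succ, mul_assoc]
  rw [h3]
  calc F * r * (cl T B E (2 * j) * M) ≤ B ^ E * B ^ E * (cl T B E (2 * j) * M) :=
        Nat.mul_le_mul_right _ h2
    _ = cl T B E (2 * j) * (B ^ E * B ^ E) * M := by ring

theorem hh_succ {S : Finset ℕ} {T B E F M j D : ℕ} {α : ℝ} (hF : 1 ≤ F) (hFB : F ≤ B) (hE : 1 ≤ E)
    (h : HH S T B E M (j + 1) D α) {r : ℕ} (hr : r ∈ Icc 1 B) :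
    HH S T B E M j (D * (F * r)) (α * ((F * r : ℕ) : ℝ)) := by
  intro y hy
  have hr' := mem_Icc.1 hr
  have h1 : F * r * y ∈ sct S D (cl T B E (2 * (j + 1)) * M) :=
    t_dil (Nat.mul_pos hF hr'.1) (TYv_cell hFB hE hr) hy
  have h2 := h _ h1
  have e : α * ((F * r * y : ℕ) : ℝ) = α * ((F * r : ℕ) : ℝ) * (y : ℝ) := by
    push_cast
    ring
  rwa [e] at h2

theorem bh_of_hh {S : Finset ℕ} {T B E M j D : ℕ} {α ζ : ℝ} (hB : 1 ≤ B) (hE : 1 ≤ E) (hM : 1 ≤ M)
    (hj : 1 ≤ j) (h : HH S T B E M j D α) : BH S T B E ζ j D α := by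
  have hle : cl T B E (2 * j) ≤ cl T B E (2 * j) * M := Nat.le_mul_of_pos_right _ hM
  constructor
  · intro v
    refine ⟨1 / 2, ?_⟩
    intro x hx _ _
    have h1 := h x (sct_mono hle hx)
    rw [nd_sub_half]
    linarith
  · intro x hx
    apply h x
    refine sct_mono (le_trans ?_ hle) hx
    have h1 : B ≤ B ^ E := by
      calc B = B ^ 1 := (pow_one B).symm
        _ ≤ B ^ E := Nat.pow_le_pow_right hB hE
    have h2 : cl T B E (2 * j) = cl T B E (2 * j - 1) * B ^ E := by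
      rw [← cl_succ]
      congr 1
      omega
    rw [h2]
    exact Nat.mul_le_mul_left _ h1

theorem TYv_ex_empty {S : Finset ℕ} {D X : ℕ} (h : sct S D X = ∅) : ex S D X = -1 := by
  unfold ex
  rw [h]
  simp

theorem TYv_yf_empty (β : ℝ) : Yf ∅ β = 0 := by
  rcases yf_cases ∅ β with h | ⟨y, hy, _⟩
  · exact h
  · simp at hy

theorem t_empty {S : Finset ℕ} {T B E F M : ℕ} {a : ℕ → ℝ} (hT : 1 ≤ T) (hF : 1 ≤ F) (hFB : F ≤ B)
    (hE : 1 ≤ E) (hM : 1 ≤ M) (ha : ∀ d, 0 ≤ a d) (hs : ∑ d ∈ Icc 1 M, a d = 1) (j D : ℕ)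
    (h : sct S D (cl T B E (2 * j) * M) = ∅) :
    Val S T B E F M a j D = -3 * (j + 1) ∧ ∀ α, Yv S T B E F M a j D α = 0 := by
  have hB : 1 ≤ B := hF.trans hFB
  induction j generalizing D with
  | zero =>
    have hd : ∀ d ∈ Icc 1 M, sct S (D * d) (cl T B E 0) = ∅ := by
      intro d hd
      rw [mem_Icc] at hd
      rw [eq_empty_iff_forall_notMem]
      intro y hy
      have h1 : d * y ∈ sct S D (cl T B E (2 * 0) * M) := by
        apply t_dil hd.1 _ hy
        rw [mul_zero, mul_comm]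
        exact Nat.mul_le_mul_left _ hd.2
      rw [h] at h1
      simp at h1
    constructor
    · unfold Val
      have : ∀ d ∈ Icc 1 M, a d * exl S (D * d) (cl T B E 0) = a d * (-1) := by
        intro d hd'
        unfold exl
        rw [hd d hd']
        simp
      rw [sum_congr rfl this, ← sum_mul, hs]
      simp
    · intro α
      unfold Yv
      apply sum_eq_zero
      intro d hd'
      rw [hd d hd', TYv_yf_empty, mul_zero]
  | succ j ih =>
    have hr : ∀ r ∈ Icc 1 B, sct S (D * (F * r)) (cl T B E (2 * j) * M) = ∅ := by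
      intro r hr
      have hr' := mem_Icc.1 hr
      rw [eq_empty_iff_forall_notMem]
      intro y hy
      have h1 : F * r * y ∈ sct S D (cl T B E (2 * (j + 1)) * M) :=
        t_dil (Nat.mul_pos hF hr'.1) (TYv_cell hFB hE hr) hy
      rw [h] at h1
      simp at h1
    have hsub : ∀ X, X ≤ cl T B E (2 * (j + 1)) * M → ex S D X = -1 := by
      intro X hX
      apply TYv_ex_empty
      rw [eq_empty_iff_forall_notMem]
      intro y hy
      have := sct_mono hX hy
      rw [h] at this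
      simp at this
    have hle : cl T B E (2 * (j + 1)) ≤ cl T B E (2 * (j + 1)) * M := Nat.le_mul_of_pos_right _ hM
    constructor
    · unfold Val GG
      rw [hsub _ hle, hsub _ ((cl_mono hB (by omega)).trans hle),
        TYv_avg_eq hB (g := -3 * ((j : ℝ) + 1)) _ (fun r hr' => (ih _ (hr r hr')).1)]
      push_cast
      ring
    · intro α
      unfold Yv
      exact TYv_avg_eq hB _ (fun r hr' => (ih _ (hr r hr')).2 _)

theorem t_emp {S : Finset ℕ} {T B E M j D : ℕ} {α : ℝ} (h : HH S T B E M j D α) {u : ℤ}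
    (hu : |α - u| * ((cl T B E (2 * j) * M : ℕ) : ℝ) < 26 / 100) :
    sct S D (cl T B E (2 * j) * M) = ∅ := by
  rw [eq_empty_iff_forall_notMem]
  intro y hy
  have h1 := h y hy
  have h2 := nd_le (α * y) (u * y)
  push_cast at h2
  have h3 : |α * (y : ℝ) - u * y| = |α - u| * y := by
    rw [← sub_mul, abs_mul, abs_of_nonneg (Nat.cast_nonneg y : (0 : ℝ) ≤ y)]
  rw [h3] at h2
  have h4 : (y : ℝ) ≤ ((cl T B E (2 * j) * M : ℕ) : ℝ) := by
    exact_mod_cast (mem_sct.1 hy).1.2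
  have h5 := mul_le_mul_of_nonneg_left h4 (abs_nonneg (α - u))
  linarith

end SFP
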