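import Pool.Agent.SFP.TChain
import Pool.Agent.SFP.TBohr
import Pool.Agent.SFP.TYv

/-!
# Module TBlk (4): the block bound

`X_a = cl (2j)`, `X_b = cl (2j-1)`, `X_a = X_b B^E`, `S_a = sct S D X_a`, `S_b = sct S D X_b = S_a ∩ [1, X_b]`, `q = r.den`, `Q = X_b/B ≥ 1`, `q ≤ Q`. `B` large: `F ≤ B`, `X_b ≤ ζ X_a` (`1 ≤ ζ B^E`).
(1) if `a ∈ S_a`, `a ≤ X_b`, `nd (α a) ≥ .26`: `ex S D X_a ≤ 3 nd (α a) - 1 + C₁/B` : `t_chain` with `ℓ = ζ X_a` (`a ≤ X_b ≤ ζ X_a`), `e = T`: error `3(6a(1/ζ + 1) + T)/X_a`, `a ≤ X_b = X_a/B^E`, `T ≤ X_a/B`.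
(1') if `a ∈ S_a`, `a ≤ X_b/B`: `ex S D X_b ≤ 3 nd (α a) - 1 + C₁/B`: `t_chain` for `S_b` with `ℓ = X_b` and the constant `c` of the window `v = 0` of `BH` (all `x ∈ S_b` have `x ≤ ζ X_a`); `RSF` passes to subsets. Every `a ∈ S_a` with `a ≤ X_b B` has `nd (α a) ≥ .26` by `BH`.
(2) `t_bohr` with `Q`: `ex S D X_b ≤ 3(1 - 2s + 1/q) - 1 + 3(2/Q + (3q + 1)/X_b)` if all `y ∈ S_b` have `nd (α y) ≥ s`; `1/Q = B/X_b ≤ 1/B`, `q/X_b ≤ 1/B`.
(3) `t_half`: `ex S D X_a ≤ 1/2 + C/B`.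
(G1) `GG ≤ 3/q + C₂/B`: if `S_b = ∅`: `ex_b = -1`, `2 ex_a ≤ 1 + ..`. Otherwise let `s = min nd (α y)` over `S_b`, attained at `a` (`a ∈ S_a`, `a ≤ X_b`, `.26 ≤ s ≤ 1/2`): `2(3s - 1) + (2 - 6s + 3/q)`.
(G2) for `1 ≤ ρ ≤ (F B)^j`, `d ≤ M = B^CN`, `y ∈ sct S (D ρ d) (cl 0)`: `a = ρ d y ∈ S_a` (`t_dil`), `a ≤ (F B)^j B^CN cl 0 ≤ X_b/B` (`X_b = cl 0 * B^(E(2j-1))`, `F ≤ B`, `2j + CN + 1 ≤ E (2j-1)`): `GG ≤ 9 nd (α a) - 3 + 3C₁/B = -9 (1/3 - nd (α ρ d y)) + 3 C₁/B` by (1), (1').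
So for every `(ρ, d)`: `Y := Yf (sct S (D ρ d) (cl 0)) (α (ρ d))` satisfies `GG ≤ 3/q - 4.5 Y + C₃/B`: if `Y = 0` by (G1); if `Y = 1/3 - nd (..y)`, `Y ≥ 0`: half the sum of (G1) and (G2) (`yf_cases`). So `Y ≤ (3/q + C₃/B - GG)/4.5 =: g`, and `yv_le` gives the claim.
-/

namespace SFP

open Finset

theorem TBlk_cl {T B E k m : ℕ} (hB : 1 ≤ B) (h : m ≤ E * (k + 1)) : T * B ^ m ≤ cl T B E k := by
  unfold cl
  exact Nat.mul_le_mul_left _ (Nat.pow_le_pow_right hB h)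

/-- the error terms -/
theorem TBlk_ex {S : Finset ℕ} {D X : ℕ} {g C b : ℝ} (hX : 0 < (X : ℝ))
    (h : 3 * ((sct S D X).card : ℝ) ≤ 3 * g * X + C * (X / b)) : ex S D X ≤ 3 * g - 1 + C / b := by
  unfold ex
  have h1 : 3 * ((sct S D X).card : ℝ) / X ≤ 3 * g + C / b := by
    rw [div_le_iff₀ hX]
    calc 3 * ((sct S D X).card : ℝ) ≤ 3 * g * X + C * (X / b) := h
      _ = (3 * g + C / b) * X := by ring
  linarith

section
variable {B E T : ℕ} {S : Finset ℕ} {j D : ℕ} {α ζ : ℝ}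

theorem TBlk_one (hζ : 0 < ζ) (hB : 1 ≤ B) (hζB : 1 ≤ ζ * B) (hE : 1 ≤ E) (hT : 1 ≤ T) (hj : 1 ≤ j)
    (hR : RSF (sct S D (cl T B E (2 * j))) T) (hBH : BH S T B E ζ j D α) {a : ℕ}
    (ha : a ∈ sct S D (cl T B E (2 * j - 1))) :
    ex S D (cl T B E (2 * j)) ≤ 3 * nd (α * a) - 1 + (18 * (1 / ζ + 1) + 3) / B := by
  have e1 : cl T B E (2 * j) = cl T B E (2 * j - 1) * B ^ E := by
    have h1 : 2 * j = (2 * j - 1) + 1 := by omega
    conv_lhs => rw [h1]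
    exact cl_succ
  have hBr : (1 : ℝ) ≤ B := by exact_mod_cast hB
  have hpow : (B : ℝ) ≤ (B : ℝ) ^ E := by
    calc (B : ℝ) = (B : ℝ) ^ 1 := (pow_one _).symm
      _ ≤ (B : ℝ) ^ E := pow_le_pow_right₀ hBr hE
  obtain ⟨xa, hxa⟩ : ∃ xa : ℝ, xa = (cl T B E (2 * j) : ℝ) := ⟨_, rfl⟩
  obtain ⟨xb, hxb⟩ : ∃ xb : ℝ, xb = (cl T B E (2 * j - 1) : ℝ) := ⟨_, rfl⟩
  have hab : xa = xb * (B : ℝ) ^ E := by rw [hxa, hxb, e1]; push_cast; ring
  have hxb1 : 1 ≤ xb := by rw [hxb]; exact_mod_cast cl_pos hT hB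
  have hxab : xb * B ≤ xa := by rw [hab]; gcongr
  have hxa0 : 0 < xa := by nlinarith
  have hζx : xb ≤ ζ * xa := by
    have : xb * 1 ≤ xb * (ζ * B) := by gcongr
    nlinarith
  have hTa : (T : ℝ) * B ≤ xa := by
    rw [hxa]
    have h1 : T * B ^ 1 ≤ cl T B E (2 * j) := TBlk_cl hB (by nlinarith)
    rw [pow_one] at h1
    exact_mod_cast h1
  have ha1 := mem_sct.1 ha
  have haxb : (a : ℝ) ≤ xb := by rw [hxb]; exact_mod_cast ha1.1.2
  have haS : a ∈ sct S D (cl T B E (2 * j)) := sct_mono (cl_mono hB (by omega)) ha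
  have hnd : 26 / 100 ≤ nd (α * a) := by
    refine hBH.2 a (sct_mono ?_ ha)
    exact Nat.le_mul_of_pos_right _ hB
  have hch := t_chain (X := cl T B E (2 * j)) (a := a) (α := α) (ℓ := ζ * (cl T B E (2 * j) : ℝ)) (e := T)
    (sct S D (cl T B E (2 * j))) (filter_subset _ _) ha1.1.1 (by rw [← hxa]; linarith) (hR a haS).1 hnd hBH.1
  rw [← hxa] at hch
  refine TBlk_ex (by rw [← hxa]; exact hxa0) ?_
  rw [← hxa]
  have h1 : xa / (ζ * xa) = 1 / ζ := by field_simp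
  rw [h1] at hch
  have hBp : (0 : ℝ) < B := by linarith
  have h2 : xb ≤ xa / B := by rw [le_div_iff₀ hBp]; exact hxab
  have h3 : (T : ℝ) ≤ xa / B := by rw [le_div_iff₀ hBp]; exact hTa
  have h4 : 0 < 1 / ζ := by positivity
  have h5 : (a : ℝ) * (1 / ζ + 1) ≤ xa / B * (1 / ζ + 1) := by
    gcongr
    linarith
  nlinarith

theorem TBlk_two (hζ1 : ζ ≤ 1) (hζ : 0 < ζ) (hB : 1 ≤ B) (hζB : 1 ≤ ζ * B) (hE : 1 ≤ E) (hT : 1 ≤ T)
    (hj : 1 ≤ j) (hR : RSF (sct S D (cl T B E (2 * j))) T) (hBH : BH S T B E ζ j D α) {a : ℕ}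
    (ha : a ∈ sct S D (cl T B E (2 * j - 1))) (haB : a * B ≤ cl T B E (2 * j - 1)) :
    ex S D (cl T B E (2 * j - 1)) ≤ 3 * nd (α * a) - 1 + (18 * (1 / ζ + 1) + 3) / B := by
  have e1 : cl T B E (2 * j) = cl T B E (2 * j - 1) * B ^ E := by
    have h1 : 2 * j = (2 * j - 1) + 1 := by omega
    conv_lhs => rw [h1]
    exact cl_succ
  have hBr : (1 : ℝ) ≤ B := by exact_mod_cast hB
  have hpow : (B : ℝ) ≤ (B : ℝ) ^ E := by
    calc (B : ℝ) = (B : ℝ) ^ 1 := (pow_one _).symm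
      _ ≤ (B : ℝ) ^ E := pow_le_pow_right₀ hBr hE
  obtain ⟨xa, hxa⟩ : ∃ xa : ℝ, xa = (cl T B E (2 * j) : ℝ) := ⟨_, rfl⟩
  obtain ⟨xb, hxb⟩ : ∃ xb : ℝ, xb = (cl T B E (2 * j - 1) : ℝ) := ⟨_, rfl⟩
  have hab : xa = xb * (B : ℝ) ^ E := by rw [hxa, hxb, e1]; push_cast; ring
  have hxb1 : 1 ≤ xb := by rw [hxb]; exact_mod_cast cl_pos hT hB
  have hxab : xb * B ≤ xa := by rw [hab]; gcongr
  have hζx : xb ≤ ζ * xa := by
    have : xb * 1 ≤ xb * (ζ * B) := by gcongr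
    nlinarith
  have hTb : (T : ℝ) * B ≤ xb := by
    rw [hxb]
    have h1 : T * B ^ 1 ≤ cl T B E (2 * j - 1) := TBlk_cl hB (by
      have : 1 ≤ 2 * j - 1 + 1 := by omega
      nlinarith)
    rw [pow_one] at h1
    exact_mod_cast h1
  have ha1 := mem_sct.1 ha
  have haxb : (a : ℝ) ≤ xb := by rw [hxb]; exact_mod_cast ha1.1.2
  have haB' : (a : ℝ) * B ≤ xb := by rw [hxb]; exact_mod_cast haB
  have hsub : sct S D (cl T B E (2 * j - 1)) ⊆ sct S D (cl T B E (2 * j)) :=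
    sct_mono (cl_mono hB (by omega))
  have hR' : RSF (sct S D (cl T B E (2 * j - 1))) T := rsf_mono hR hsub le_rfl
  have hnd : 26 / 100 ≤ nd (α * a) := by
    refine hBH.2 a (sct_mono ?_ ha)
    exact Nat.le_mul_of_pos_right _ hB
  obtain ⟨c, hc⟩ := hBH.1 0
  have hch := t_chain (X := cl T B E (2 * j - 1)) (a := a) (α := α) (ℓ := (cl T B E (2 * j - 1) : ℝ))
    (e := T) (sct S D (cl T B E (2 * j - 1))) (filter_subset _ _) ha1.1.1 (by rw [← hxb]; exact haxb)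
    (hR' a ha).1 hnd (by
      intro v
      refine ⟨c, fun x hx _ _ => ?_⟩
      refine hc x (hsub hx) (Nat.zero_le _) ?_
      have h1 : (x : ℝ) ≤ xb := by rw [hxb]; exact_mod_cast (mem_sct.1 hx).1.2
      rw [← hxa]
      push_cast
      linarith)
  rw [← hxb] at hch
  refine TBlk_ex (by rw [← hxb]; linarith) ?_
  rw [← hxb]
  have h1 : xb / xb = 1 := div_self (by linarith)
  rw [h1] at hch
  have hBp : (0 : ℝ) < B := by linarith
  have h2 : (a : ℝ) ≤ xb / B := by rw [le_div_iff₀ hBp]; exact haB'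
  have h3 : (T : ℝ) ≤ xb / B := by rw [le_div_iff₀ hBp]; exact hTb
  have h4 : 1 ≤ 1 / ζ := by rw [le_div_iff₀ hζ]; linarith
  have h5 : 0 ≤ xb / B := by positivity
  nlinarith

theorem TBlk_three {r : ℚ} (hB : 1 ≤ B) (hE : 1 ≤ E) (hT : 1 ≤ T) (hj : 1 ≤ j) {s : ℝ} (hs0 : 0 ≤ s)
    (hs1 : s ≤ 1 / 2) (hs : ∀ y ∈ sct S D (cl T B E (2 * j - 1)), s ≤ nd (α * y))
    (hq : (r.den : ℝ) ≤ (cl T B E (2 * j - 1) : ℝ) / B)
    (hr : |α - r| ≤ 1 / (r.den * ((cl T B E (2 * j - 1) : ℝ) / B))) :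
    ex S D (cl T B E (2 * j - 1)) ≤ 3 * (1 - 2 * s + 1 / r.den) - 1 + 18 / B := by
  classical
  have hBr : (1 : ℝ) ≤ B := by exact_mod_cast hB
  obtain ⟨xb, hxb⟩ : ∃ xb : ℝ, xb = (cl T B E (2 * j - 1) : ℝ) := ⟨_, rfl⟩
  have hxb1 : 1 ≤ xb := by rw [hxb]; exact_mod_cast cl_pos hT hB
  have hBB : (B : ℝ) * B ≤ xb := by
    rw [hxb]
    have h1 : T * B ^ 2 ≤ cl T B E (2 * j - 1) := TBlk_cl hB (by
      have : 2 ≤ 2 * j - 1 + 1 := by omega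
      nlinarith)
    have h2 : B * B ≤ cl T B E (2 * j - 1) := by nlinarith
    exact_mod_cast h2
  have hBp : (0 : ℝ) < B := by linarith
  have hQ : (1 : ℝ) ≤ xb / B := by rw [le_div_iff₀ hBp]; nlinarith
  rw [← hxb] at hq hr
  have h0 := t_bohr (X := cl T B E (2 * j - 1)) (α := α) (Q := xb / B) (s := s) (r := r) hQ hr hs0 hs1
  rw [← hxb] at h0
  have hcard : ((sct S D (cl T B E (2 * j - 1))).card : ℝ) ≤
      (((Icc 1 (cl T B E (2 * j - 1))).filter (fun y : ℕ => s ≤ nd (α * y))).card : ℝ) := by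
    have : (sct S D (cl T B E (2 * j - 1))).card ≤
        ((Icc 1 (cl T B E (2 * j - 1))).filter (fun y : ℕ => s ≤ nd (α * y))).card := by
      apply card_le_card
      intro y hy
      rw [mem_filter, mem_Icc]
      exact ⟨(mem_sct.1 hy).1, hs y hy⟩
    exact_mod_cast this
  refine TBlk_ex (by rw [← hxb]; linarith) ?_
  rw [← hxb]
  have h1 : 2 * xb / (xb / B) = 2 * B := by
    have : xb ≠ 0 := by linarith
    field_simp
  rw [h1] at h0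
  have h2 : (B : ℝ) ≤ xb / B := by rw [le_div_iff₀ hBp]; exact hBB
  nlinarith

theorem TBlk_four (hB : 1 ≤ B) (hE : 1 ≤ E) (hT : 1 ≤ T)
    (hR : RSF (sct S D (cl T B E (2 * j))) T) : ex S D (cl T B E (2 * j)) ≤ 1 / 2 + 3 / B := by
  have hBr : (1 : ℝ) ≤ B := by exact_mod_cast hB
  have hBp : (0 : ℝ) < B := by linarith
  obtain ⟨xa, hxa⟩ : ∃ xa : ℝ, xa = (cl T B E (2 * j) : ℝ) := ⟨_, rfl⟩
  have hxa1 : 1 ≤ xa := by rw [hxa]; exact_mod_cast cl_pos hT hB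
  have hTa : (T : ℝ) * B ≤ xa := by
    rw [hxa]
    have h1 : T * B ^ 1 ≤ cl T B E (2 * j) := TBlk_cl hB (by nlinarith)
    rw [pow_one] at h1
    exact_mod_cast h1
  have hTr : (1 : ℝ) ≤ T := by exact_mod_cast hT
  have h0 := t_half (X := cl T B E (2 * j)) (e := T) (sct S D (cl T B E (2 * j))) (filter_subset _ _)
    (by linarith) hR
  rw [← hxa] at h0
  have h3 : (T : ℝ) ≤ xa / B := by rw [le_div_iff₀ hBp]; exact hTa
  have h4 : ex S D (cl T B E (2 * j)) ≤ 3 * (1 / 2) - 1 + 3 / B := by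
    refine TBlk_ex (by rw [← hxa]; linarith) ?_
    rw [← hxa]
    linarith
  linarith

end

theorem t_blk (CN F J : ℕ) {ζ : ℝ} (hζ : 0 < ζ) (hζ1 : ζ ≤ 1) (hF : 1 ≤ F) :
    ∃ (C : ℝ) (B₀ : ℕ), 0 ≤ C ∧ ∀ (B E T : ℕ) (S : Finset ℕ) (a : ℕ → ℝ) (j D : ℕ) (α : ℝ) (r : ℚ),
      B₀ ≤ B → CN + 20 ≤ E → 1 ≤ T → 1 ≤ j → j ≤ J → 1 ≤ D → (∀ d, 0 ≤ a d) →
      ∑ d ∈ Icc 1 (B ^ CN), a d = 1 → RSF (sct S D (cl T B E (2 * j))) T → BH S T B E ζ j D α →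
      (r.den : ℝ) ≤ (cl T B E (2 * j - 1) : ℝ) / B →
      |α - r| ≤ 1 / (r.den * ((cl T B E (2 * j - 1) : ℝ) / B)) →
      GG S T B E D j ≤ 3 / r.den - 9 / 2 * Yv S T B E F (B ^ CN) a j D α + C / B := by
  obtain ⟨C₁, hC₁⟩ : ∃ C₁ : ℝ, C₁ = 18 * (1 / ζ + 1) + 3 := ⟨_, rfl⟩
  have hC0 : 0 ≤ C₁ := by rw [hC₁]; positivity
  refine ⟨5 * C₁ + 18, F + ⌈1 / ζ⌉₊ + 1, by positivity, ?_⟩
  intro B E T S a j D α r hB hE hT hj hjJ hD ha hsum hR hBH hq hr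
  have hB1 : 1 ≤ B := by omega
  have hFB : F ≤ B := by omega
  have hE1 : 1 ≤ E := by omega
  have hBr : (1 : ℝ) ≤ B := by exact_mod_cast hB1
  have hBp : (0 : ℝ) < B := by linarith
  have hζB : 1 ≤ ζ * B := by
    have h1 : 1 / ζ ≤ ⌈1 / ζ⌉₊ := Nat.le_ceil _
    have h2 : ((⌈1 / ζ⌉₊ : ℕ) : ℝ) ≤ B := by exact_mod_cast (by omega : ⌈1 / ζ⌉₊ ≤ B)
    have h3 : 1 / ζ ≤ B := h1.trans h2
    rw [div_le_iff₀ hζ] at h3
    linarith
  have hdenp : (0 : ℝ) < r.den := by exact_mod_cast r.den_pos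
  have hqp : (0 : ℝ) < 3 / r.den := by positivity
  -- (G1)
  have G1 : GG S T B E D j ≤ 3 / r.den + (2 * C₁ + 18) / B := by
    unfold GG
    rcases (sct S D (cl T B E (2 * j - 1))).eq_empty_or_nonempty with he | hne
    · have h1 : ex S D (cl T B E (2 * j - 1)) = -1 := by
        unfold ex
        rw [he]
        simp
      have h2 := TBlk_four hB1 hE1 hT hR
      have h3 : 3 / (B : ℝ) * 2 ≤ (2 * C₁ + 18) / B := by
        rw [div_mul_eq_mul_div]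
        gcongr
        linarith
      linarith
    · obtain ⟨y₀, hy₀, hmin⟩ := exists_min_image _ (fun y : ℕ => nd (α * y)) hne
      have h1 := TBlk_one hζ hB1 hζB hE1 hT hj hR hBH hy₀
      have h2 := TBlk_three (α := α) hB1 hE1 hT hj (nd_nonneg _) (nd_le_half _) hmin hq hr
      rw [← hC₁] at h1
      have h3 : (2 * C₁ + 18) / (B : ℝ) = 2 * (C₁ / B) + 18 / B := by ring
      have h4 : 3 * (1 / (r.den : ℝ)) = 3 / r.den := by ring
      rw [h3]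
      linarith
  obtain ⟨g, hg⟩ : ∃ g : ℝ, g = 2 / 9 * (3 / r.den + (5 * C₁ + 18) / B - GG S T B E D j) := ⟨_, rfl⟩
  have hYv : Yv S T B E F (B ^ CN) a j D α ≤ g := by
    refine yv_le hB1 hF ha hsum j D α ?_
    intro ρ d hρ1 hρ hd
    rw [mem_Icc] at hd
    have h5 : (2 * C₁ + 18) / (B : ℝ) ≤ (5 * C₁ + 18) / B := by
      gcongr
      linarith
    rcases yf_cases (sct S (D * ρ * d) (cl T B E 0)) (α * (ρ * d)) with h0 | ⟨y, hy, h0⟩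
    · rw [h0, hg]
      linarith
    · -- (G2)
      have hX' : ρ * d * cl T B E 0 ≤ (F * B) ^ j * B ^ CN * cl T B E 0 := by
        gcongr
        exact hd.2
      have hXb : (F * B) ^ j * B ^ CN * cl T B E 0 * B ≤ cl T B E (2 * j - 1) := by
        have h1 : (F * B) ^ j ≤ B ^ (2 * j) := by
          calc (F * B) ^ j ≤ (B * B) ^ j := by gcongr
            _ = B ^ (2 * j) := by rw [← pow_two, ← pow_mul]
        calc (F * B) ^ j * B ^ CN * cl T B E 0 * B ≤ B ^ (2 * j) * B ^ CN * cl T B E 0 * B := by gcongr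
          _ = T * B ^ (2 * j + CN + E * (0 + 1) + 1) := by
            unfold cl
            ring
          _ ≤ cl T B E (2 * j - 1) := by
            apply TBlk_cl hB1
            obtain ⟨i, rfl⟩ : ∃ i, j = i + 1 := ⟨j - 1, by omega⟩
            have e1 : 2 * (i + 1) - 1 + 1 = 2 * i + 2 := by omega
            rw [e1]
            nlinarith [Nat.zero_le (E * i)]
      have hy' : y ∈ sct S (D * (ρ * d)) (cl T B E 0) := by
        rw [← mul_assoc]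
        exact hy
      have hmem : ρ * d * y ∈ sct S D ((F * B) ^ j * B ^ CN * cl T B E 0) :=
        t_dil (Nat.mul_pos hρ1 hd.1) hX' hy'
      have hle : ρ * d * y ≤ (F * B) ^ j * B ^ CN * cl T B E 0 := (mem_sct.1 hmem).1.2
      have haB : ρ * d * y * B ≤ cl T B E (2 * j - 1) :=
        (Nat.mul_le_mul_right B hle).trans hXb
      have hXb' : (F * B) ^ j * B ^ CN * cl T B E 0 ≤ cl T B E (2 * j - 1) :=
        (Nat.le_mul_of_pos_right _ hB1).trans hXb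
      have hmem' := sct_mono hXb' hmem
      have h1 := TBlk_one hζ hB1 hζB hE1 hT hj hR hBH hmem'
      have h2 := TBlk_two hζ1 hζ hB1 hζB hE1 hT hj hR hBH hmem' haB
      rw [← hC₁] at h1 h2
      have e1 : α * ((ρ * d * y : ℕ) : ℝ) = α * (ρ * d) * y := by push_cast; ring
      rw [e1] at h1 h2
      have G2 : GG S T B E D j ≤ -9 * (1 / 3 - nd (α * (ρ * d) * y)) + 3 * (C₁ / B) := by
        unfold GG
        linarith
      rw [h0, hg]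
      have e2 : (5 * C₁ + 18) / (B : ℝ) = 5 * (C₁ / B) + 18 / B := by ring
      have e3 : (2 * C₁ + 18) / (B : ℝ) = 2 * (C₁ / B) + 18 / B := by ring
      have e4 : 0 ≤ C₁ / (B : ℝ) := by positivity
      have e5 : 0 ≤ 18 / (B : ℝ) := by positivity
      rw [e2]
      rw [e3] at G1
      linarith
  rw [hg] at hYv
  linarith

end SFP
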