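import Pool.Agent.SFP.LDefs

/-!
# Module TChain (3): the chain bound
-/

namespace SFP

open Finset

theorem TChain_card {A : Finset ℕ} {f : ℕ → ℝ} {lo hi : ℝ} (h : ∀ x ∈ A, lo ≤ f x ∧ f x ≤ hi)
    (hlh : lo ≤ hi) (hinj : ∀ x ∈ A, ∀ y ∈ A, ⌊f x⌋ = ⌊f y⌋ → x = y) :
    (A.card : ℝ) ≤ hi - lo + 2 := by
  have h1 : A.card ≤ (Finset.Icc ⌊lo⌋ ⌊hi⌋).card := by
    apply Finset.card_le_card_of_injOn (fun x => ⌊f x⌋)
    · intro x hx
      have := h x hx
      simp only [coe_Icc, Set.mem_Icc]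
      exact ⟨Int.floor_le_floor this.1, Int.floor_le_floor this.2⟩
    · intro x hx y hy hxy
      exact hinj x hx y hy hxy
  rw [Int.card_Icc] at h1
  have h2 := Int.floor_le hi
  have h3 := Int.lt_floor_add_one lo
  have h4 : ⌊lo⌋ ≤ ⌊hi⌋ := Int.floor_le_floor hlh
  have h5 : ((⌊hi⌋ + 1 - ⌊lo⌋).toNat : ℤ) = ⌊hi⌋ + 1 - ⌊lo⌋ := Int.toNat_of_nonneg (by omega)
  have h6 : (A.card : ℤ) ≤ ⌊hi⌋ + 1 - ⌊lo⌋ := by rw [← h5]; exact_mod_cast h1
  have h7 : (A.card : ℝ) ≤ (⌊hi⌋ : ℝ) + 1 - ⌊lo⌋ := by exact_mod_cast h6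
  linarith

theorem TChain_class {X a w i r : ℕ} {α γ ℓ c : ℝ} {m : ℤ} (S' : Finset ℕ) (hS : S' ⊆ Icc 1 X)
    (ha : 1 ≤ a) (hwl : (w : ℝ) ≤ ℓ) (hw1 : 1 ≤ w) (hiX : i * w ≤ X)
    (hγ : 26 / 100 ≤ γ) (hm : α * a = γ + m)
    (hc : ∀ x ∈ S', i * w ≤ x → (x : ℝ) ≤ (i * w : ℕ) + ℓ → nd (α * x - c) ≤ 24 / 100) :
    (((S'.filter (fun x => x + a ∉ S')).filter (fun x => x / w = i ∧ x % a = r)).card : ℝ)
      ≤ γ * (((min ((i + 1) * w) (X + 1) : ℕ) : ℝ) - ((min (i * w) (X + 1) : ℕ) : ℝ)) / a + 2 := by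
  have haR : (0 : ℝ) < a := by exact_mod_cast ha
  set f : ℕ → ℝ := fun x => α * r - c + 24 / 100 + γ * ((x / a : ℕ) : ℝ) with hf
  set A := (S'.filter (fun x => x + a ∉ S')).filter (fun x => x / w = i ∧ x % a = r) with hA
  set lo : ℝ := α * r - c + 24 / 100 + γ * ((((min (i * w) (X + 1) : ℕ) : ℝ) - r) / a) with hlo
  set hi : ℝ := α * r - c + 24 / 100 + γ * ((((min ((i + 1) * w) (X + 1) : ℕ) : ℝ) - r) / a) with hhi
  have key : (A.card : ℝ) ≤ hi - lo + 2 := by
    have hmem : ∀ x ∈ A, x ∈ S' ∧ x + a ∉ S' ∧ x / w = i ∧ x % a = r := by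
      intro x hx
      rw [hA, mem_filter, mem_filter] at hx
      exact ⟨hx.1.1, hx.1.2, hx.2.1, hx.2.2⟩
    have hdec : ∀ x ∈ A, (x : ℝ) = a * ((x / a : ℕ) : ℝ) + r := by
      intro x hx
      have h1 := Nat.div_add_mod x a
      rw [(hmem x hx).2.2.2] at h1
      exact_mod_cast h1.symm
    have hwin : ∀ x ∈ A, i * w ≤ x ∧ x < (i + 1) * w ∧ x ≤ X := by
      intro x hx
      obtain ⟨h1, h2, h3, h4⟩ := hmem x hx
      refine ⟨?_, ?_, (mem_Icc.mp (hS h1)).2⟩
      · rw [← h3]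
        exact Nat.div_mul_le_self x w
      · rw [← h3]
        have := Nat.lt_div_mul_add (a := x) (b := w) (by omega)
        linarith [Nat.succ_mul (x / w) w]
    have hfl : ∀ x ∈ A, f x ≤ ⌊f x⌋ + 48 / 100 := by
      intro x hx
      obtain ⟨h1, h2, h3, h4⟩ := hmem x hx
      obtain ⟨h5, h6, h7⟩ := hwin x hx
      have h8 : nd (α * x - c) ≤ 24 / 100 := by
        apply hc x h1 h5
        have : (x : ℝ) ≤ ((i + 1) * w : ℕ) := by exact_mod_cast h6.le
        push_cast at this ⊢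
        linarith
      obtain ⟨q, hq⟩ : ∃ q : ℕ, q = x / a := ⟨_, rfl⟩
      have hdx := hdec x hx
      rw [← hq] at hdx
      have h9 : f x = (α * x - c) + 24 / 100 - ((m * (q : ℤ) : ℤ) : ℝ) := by
        rw [hf]
        simp only
        rw [← hq]
        push_cast
        have h91 : α * x = (γ + m) * (q : ℝ) + α * r := by
          rw [← hm, hdx]; ring
        rw [h91]
        ring
      obtain ⟨k, hk⟩ : ∃ k : ℤ, k = round (α * x - c) - m * (q : ℤ) := ⟨_, rfl⟩
      unfold nd at h8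
      rw [abs_le] at h8
      have h10 : (k : ℝ) ≤ f x := by
        rw [h9, hk]; push_cast; linarith [h8.1]
      have h11 : f x ≤ k + 48 / 100 := by
        rw [h9, hk]; push_cast; linarith [h8.2]
      have h12 : k ≤ ⌊f x⌋ := Int.le_floor.mpr h10
      have h13 : (k : ℝ) ≤ ⌊f x⌋ := by exact_mod_cast h12
      linarith
    have hmain : ∀ x ∈ A, ∀ y ∈ A, ⌊f x⌋ = ⌊f y⌋ → x / a < y / a → False := by
      intro x hx y hy hxy hlt
      have h1 := hfl y hy
      have h2 := Int.floor_le (f x)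
      have h3 : f y - f x ≤ 48 / 100 := by
        rw [hxy] at h2
        linarith
      have h4 : f y - f x = γ * (((y / a : ℕ) : ℝ) - ((x / a : ℕ) : ℝ)) := by
        rw [hf]; simp only; ring
      have h5 : y / a = x / a + 1 := by
        by_contra hne
        have h6 : x / a + 2 ≤ y / a := by omega
        have h7 : ((x / a : ℕ) : ℝ) + 2 ≤ ((y / a : ℕ) : ℝ) := by exact_mod_cast h6
        nlinarith
      have h6 : y = x + a := by
        have e1 := Nat.div_add_mod x a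
        have e2 := Nat.div_add_mod y a
        rw [(hmem x hx).2.2.2] at e1
        rw [(hmem y hy).2.2.2, h5] at e2
        rw [← e1, ← e2]; ring
      exact (hmem x hx).2.1 (h6 ▸ (hmem y hy).1)
    apply TChain_card (f := f)
    · intro x hx
      obtain ⟨h5, h6, h7⟩ := hwin x hx
      have hq : ((x / a : ℕ) : ℝ) = ((x : ℝ) - r) / a := by
        rw [eq_div_iff haR.ne', hdec x hx]
        have hq : ((a * ((x / a : ℕ) : ℝ) + r)) = (x : ℝ) := (hdec x hx).symm
        ring_nf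
      have hq' : f x = α * r - c + 24 / 100 + γ * (((x : ℝ) - r) / a) := by
        rw [hf]; simp only; rw [hq]
      rw [hq']
      have hγ0 : 0 ≤ γ := by linarith
      constructor
      · have h8 : ((min (i * w) (X + 1) : ℕ) : ℝ) ≤ x := by
          have : min (i * w) (X + 1) ≤ x := (min_le_left _ _).trans h5
          exact_mod_cast this
        rw [hlo]
        gcongr
      · have h8 : (x : ℝ) ≤ ((min ((i + 1) * w) (X + 1) : ℕ) : ℝ) := by
          have : x ≤ min ((i + 1) * w) (X + 1) := le_min h6.le (by omega)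
          exact_mod_cast this
        rw [hhi]
        gcongr
    · have hγ0 : 0 ≤ γ := by linarith
      have h8 : ((min (i * w) (X + 1) : ℕ) : ℝ) ≤ ((min ((i + 1) * w) (X + 1) : ℕ) : ℝ) := by
        have : min (i * w) (X + 1) ≤ min ((i + 1) * w) (X + 1) :=
          min_le_min (Nat.mul_le_mul_right _ (by omega)) le_rfl
        exact_mod_cast this
      rw [hlo, hhi]
      gcongr
    · intro x hx y hy hxy
      rcases lt_trichotomy (x / a) (y / a) with h | h | h
      · exact (hmain x hx y hy hxy h).elim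
      · have e1 := Nat.div_add_mod x a
        have e2 := Nat.div_add_mod y a
        rw [(hmem x hx).2.2.2] at e1
        rw [(hmem y hy).2.2.2, ← h] at e2
        rw [← e1, ← e2]
      · exact (hmain y hy x hx hxy.symm h).elim
  refine key.trans (le_of_eq ?_)
  rw [hlo, hhi]
  ring

theorem TChain_pos {X a : ℕ} {α γ ℓ : ℝ} {m : ℤ} (S' : Finset ℕ) (hS : S' ⊆ Icc 1 X) (ha : 1 ≤ a)
    (hℓ : (a : ℝ) ≤ ℓ) (hγ : 26 / 100 ≤ γ) (hγ2 : γ ≤ 1 / 2) (hm : α * a = γ + m)
    (hw : ∀ v : ℕ, ∃ c : ℝ, ∀ x ∈ S', v ≤ x → (x : ℝ) ≤ v + ℓ → nd (α * x - c) ≤ 24 / 100) :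
    ((S'.filter (fun x => x + a ∉ S')).card : ℝ) ≤ γ * X + 6 * a * (X / ℓ + 1) := by
  have haR : (1 : ℝ) ≤ a := by exact_mod_cast ha
  have hl1 : (1 : ℝ) ≤ ℓ := haR.trans hℓ
  set w := ⌊ℓ⌋₊ with hwdef
  have hw1 : 1 ≤ w := by
    rw [hwdef]
    exact Nat.le_floor (by exact_mod_cast hl1)
  have hwl : (w : ℝ) ≤ ℓ := Nat.floor_le (by linarith)
  have hlw : ℓ < w + 1 := Nat.lt_floor_add_one ℓ
  have hw1R : (1 : ℝ) ≤ w := by exact_mod_cast hw1
  have hl2w : ℓ ≤ 2 * w := by linarith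
  set A := S'.filter (fun x => x + a ∉ S') with hA
  set N := X / w + 1 with hN
  choose c hc using fun i : ℕ => hw (i * w)
  have hcov : A = (range N).biUnion (fun i => (range a).biUnion
      (fun r => A.filter (fun x => x / w = i ∧ x % a = r))) := by
    ext x
    simp only [mem_biUnion, mem_range, mem_filter]
    constructor
    · intro hx
      refine ⟨x / w, ?_, x % a, Nat.mod_lt _ (by omega), hx, rfl, rfl⟩
      rw [hN]
      have : x ≤ X := (mem_Icc.mp (hS (mem_filter.mp hx).1)).2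
      exact Nat.lt_succ_of_le (Nat.div_le_div_right this)
    · rintro ⟨i, hi, r, hr, hx, -⟩
      exact hx
  have h1 : A.card ≤ ∑ i ∈ range N, ∑ r ∈ range a,
      (A.filter (fun x => x / w = i ∧ x % a = r)).card := by
    conv_lhs => rw [hcov]
    refine card_biUnion_le.trans (sum_le_sum fun i _ => card_biUnion_le)
  have h2 : (A.card : ℝ) ≤ ∑ i ∈ range N, ∑ r ∈ range a,
      ((A.filter (fun x => x / w = i ∧ x % a = r)).card : ℝ) := by exact_mod_cast h1
  set g : ℕ → ℝ := fun i => ((min (i * w) (X + 1) : ℕ) : ℝ) with hg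
  have h3 : ∀ i ∈ range N, ∑ r ∈ range a, ((A.filter (fun x => x / w = i ∧ x % a = r)).card : ℝ)
      ≤ γ * (g (i + 1) - g i) + 2 * a := by
    intro i hi
    have hiX : i * w ≤ X := by
      rw [mem_range, hN] at hi
      calc i * w ≤ (X / w) * w := Nat.mul_le_mul_right _ (by omega)
        _ ≤ X := Nat.div_mul_le_self X w
    calc ∑ r ∈ range a, ((A.filter (fun x => x / w = i ∧ x % a = r)).card : ℝ)
        ≤ ∑ r ∈ range a, (γ * (g (i + 1) - g i) / a + 2) := by
          apply sum_le_sum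
          intro r _
          exact TChain_class (ℓ := ℓ) (c := c i) (m := m) (α := α) S' hS ha hwl hw1 hiX hγ hm
            (fun x hx h5 h6 => hc i x hx h5 h6)
      _ = γ * (g (i + 1) - g i) + 2 * a := by
          rw [sum_const, card_range, nsmul_eq_mul]
          field_simp
  have h4 : (A.card : ℝ) ≤ ∑ i ∈ range N, (γ * (g (i + 1) - g i) + 2 * a) :=
    h2.trans (sum_le_sum h3)
  rw [sum_add_distrib, ← mul_sum, Finset.sum_range_sub, sum_const, card_range, nsmul_eq_mul] at h4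
  have hg0 : g 0 = 0 := by
    have h01 : min (0 * w) (X + 1) = 0 := by rw [Nat.zero_mul]; exact Nat.zero_min _
    show ((min (0 * w) (X + 1) : ℕ) : ℝ) = 0
    rw [h01]; exact Nat.cast_zero
  have hgN : g N ≤ X + 1 := by
    have h01 : min (N * w) (X + 1) ≤ X + 1 := min_le_right _ _
    show ((min (N * w) (X + 1) : ℕ) : ℝ) ≤ X + 1
    exact_mod_cast h01
  have hNR : (N : ℝ) ≤ 2 * (X / ℓ) + 1 := by
    rw [hN]
    push_cast
    have h5 : ((X / w : ℕ) : ℝ) ≤ X / w := Nat.cast_div_le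
    have h6 : (X : ℝ) / w ≤ 2 * (X / ℓ) := by
      rw [div_le_iff₀ (by linarith), mul_assoc, div_mul_eq_mul_div, ← mul_div_assoc, le_div_iff₀ (by linarith)]
      have : (0 : ℝ) ≤ X := Nat.cast_nonneg X
      nlinarith
    linarith
  have hXl : (0 : ℝ) ≤ X / ℓ := by positivity
  have hXR : (0 : ℝ) ≤ X := Nat.cast_nonneg X
  have h5 : γ * (g N - g 0) ≤ γ * X + a := by
    rw [hg0]
    nlinarith
  have h6 : (N : ℝ) * (2 * a) ≤ (2 * (X / ℓ) + 1) * (2 * a) := by
    apply mul_le_mul_of_nonneg_right hNR; linarith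
  have h7 : (0 : ℝ) ≤ a * (X / ℓ) := by positivity
  nlinarith

theorem t_chain {X a : ℕ} {α ℓ e : ℝ} (S' : Finset ℕ) (hS : S' ⊆ Icc 1 X) (ha : 1 ≤ a)
    (hℓ : (a : ℝ) ≤ ℓ) (hrp : (rp S' a : ℝ) ≤ e) (hnd : 26 / 100 ≤ nd (α * a))
    (hw : ∀ v : ℕ, ∃ c : ℝ, ∀ x ∈ S', v ≤ x → (x : ℝ) ≤ v + ℓ → nd (α * x - c) ≤ 24 / 100) :
    (S'.card : ℝ) ≤ nd (α * a) * X + 6 * a * (X / ℓ + 1) + e := by
  have hcard : (S'.card : ℝ) = rp S' a + ((S'.filter (fun x => x + a ∉ S')).card : ℝ) := by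
    have := Finset.card_filter_add_card_filter_not (s := S') (fun x => x + a ∈ S')
    unfold rp
    exact_mod_cast this.symm
  have hmain : ((S'.filter (fun x => x + a ∉ S')).card : ℝ)
      ≤ nd (α * a) * X + 6 * a * (X / ℓ + 1) := by
    have hle := nd_le_half (α * a)
    rcases le_total 0 (α * a - round (α * a)) with h | h
    · have h1 : nd (α * a) = α * a - round (α * a) := abs_of_nonneg h
      exact TChain_pos (α := α) (γ := nd (α * a)) (m := round (α * a)) S' hS ha hℓ hnd hle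
        (by rw [h1]; ring) hw
    · have h1 : nd (α * a) = -(α * a - round (α * a)) := abs_of_nonpos h
      refine TChain_pos (α := -α) (γ := nd (α * a)) (m := -round (α * a)) S' hS ha hℓ hnd hle
        (by rw [h1]; push_cast; ring) ?_
      intro v
      obtain ⟨c, hc⟩ := hw v
      refine ⟨-c, fun x hx h5 h6 => ?_⟩
      have h7 := hc x hx h5 h6
      rw [← nd_neg] at h7
      rw [show -α * x - -c = -(α * x - c) by ring]
      exact h7
  linarith

end SFP
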