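import Pool.Agent.SFP.TBlk
import Pool.Agent.SFP.LLast

/-!
# Module TLdy (4): the value of a node with a frequency

Constants: `C₁, B₀` from `t_blk CN F J`, `lam₀` from `l_last CN`. Induction on `j ≤ J`: claim with constant `C_j = 4000 + j (C₁ + 3)`:
(A) `HH .. j D α` ⟹ `Val j D ≤ (600 - 4.5 j) Yv j D α + C_j/2^lam`.
(B) `j ≥ 1`, `BH ζ j D α`, `HH (j-1) (D (F r)) (α (F r))` for all `r ∈ [1,B]` ⟹ the same.
`j = 0`: (A) is `l_last`. `j ≥ 1`: (A) follows from (B) by `bh_of_hh`, `hh_succ`. (B): Dirichlet (`Real.exists_rat_abs_sub_le_and_den_le α (n := cl (2j-1)/B)`, natural division, exact since `B ∣ cl`): `r : ℚ`, `r.den ≤ cl(2j-1)/B`,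
`|α - r| ≤ 1/((n+1) r.den) ≤ 1/(n r.den)`. `q = r.den`, `B = 2^(8 lam) ≥ 2^lam`.
`t_blk`: `GG ≤ 3/q - 4.5 Yv j + C₁/B`. `Val j D = GG + (1/B) ∑_r Val (j-1) (D (F r))`, `Yv j D α = (1/B) ∑_r Yv (j-1) (D(F r)) (α (F r))`.
If `q > B`: `3/q ≤ 3/B`; (A) for `j - 1` for every `r`: `Val j ≤ 3/B + C₁/B - 4.5 Yv j + (600 - 4.5(j-1)) Yv j + C_{j-1}/2^lam`.
If `q ≤ B`: for `r ∈ [1,B]` with `q ∣ r`: `α F r = integer + (α - r) F r`, `|(α - r)| F r ≤ F B · 1/(q · cl(2j-1)/B) ≤ B · B · B/cl(2j-1)`, times `cl(2(j-1)) M`: `≤ B^(3 + CN) cl(2j-2)/cl(2j-1) = B^(3+CN-E) < .26`: `t_emp`, `t_empty`: `Val (j-1) (..) = -3 j ≤ -3`, `Yv = 0`.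
Their number is `⌊B/q⌋ ≥ B/q - 1`. For the other `r` use (A): `Val (j-1) ≤ (600 - 4.5(j-1)) Yv_r + C_{j-1}/2^lam`. So `(1/B) ∑_r Val ≤ -3 (1/q - 1/B) + (600 - 4.5 (j-1)) Yv j + C_{j-1}/2^lam`. Sum: `3/q - 3/q + 3/B + C₁/B + ..`.
-/

namespace SFP

open Finset

/-- The number of multiples of `q` in `[1, B]`. -/
theorem TLdy_cnt {B q : ℕ} (hq : 1 ≤ q) :
    (B : ℝ) / q - 1 ≤ ∑ r ∈ Icc 1 B, (if q ∣ r then (1 : ℝ) else 0) := by
  have h1 : Icc 1 B = Ioc 0 B := by
    ext x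
    simp only [mem_Icc, mem_Ioc]
    omega
  rw [Finset.sum_boole, h1, Nat.Ioc_filter_dvd_card_eq_div]
  have hq' : (0 : ℝ) < q := by exact_mod_cast hq
  have h2 : (B : ℝ) / q < ((B / q : ℕ) : ℝ) + 1 := by
    rw [div_lt_iff₀ hq']
    have h3 : B < (B / q + 1) * q := by
      have h4 := Nat.div_add_mod B q
      have h5 := Nat.mod_lt B (show 0 < q by omega)
      nlinarith
    exact_mod_cast h3
  linarith

/-- Averages. -/
theorem TLdy_avg {B : ℕ} (hB : 1 ≤ B) {f g : ℕ → ℝ} {k c : ℝ} {b : ℕ → ℝ}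
    (h : ∀ r ∈ Icc 1 B, f r ≤ k * g r + c - 3 * b r) :
    (∑ r ∈ Icc 1 B, f r) / B ≤ k * ((∑ r ∈ Icc 1 B, g r) / B) + c - 3 * ((∑ r ∈ Icc 1 B, b r) / B) := by
  have hB' : (0 : ℝ) < B := by exact_mod_cast hB
  have h1 : ∑ r ∈ Icc 1 B, f r ≤ k * ∑ r ∈ Icc 1 B, g r + B * c - 3 * ∑ r ∈ Icc 1 B, b r := by
    refine (sum_le_sum h).trans (le_of_eq ?_)
    rw [sum_sub_distrib, sum_add_distrib, sum_const, Nat.card_Icc, mul_sum, mul_sum, nsmul_eq_mul]
    congr 3
  rw [div_le_iff₀ hB']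
  refine h1.trans (le_of_eq ?_)
  field_simp

/-- The emptiness estimate. -/
theorem TLdy_small {T B E CN F j r n q : ℕ} {α : ℝ} {x : ℚ} (hT : 1 ≤ T) (hB : 4 ≤ B)
    (hE : CN + 20 ≤ E) (hFB : F ≤ B) (hr : r ∈ Icc 1 B) (hq : q = x.den) (hd : q ∣ r)
    (hn : n = T * B ^ (E * (2 * j + 2) - 1))
    (hx : |α - x| ≤ 1 / (((n : ℝ) + 1) * x.den)) :
    ∃ u : ℤ, |α * ((F * r : ℕ) : ℝ) - u| * ((cl T B E (2 * j) * B ^ CN : ℕ) : ℝ) < 26 / 100 := by
  obtain ⟨r', hr'⟩ := hd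
  refine ⟨x.num * (F * r' : ℕ), ?_⟩
  rw [mem_Icc] at hr
  have hq1 : 1 ≤ x.den := x.den_pos
  have hq0 : (0 : ℝ) < x.den := by exact_mod_cast hq1
  have hxe : (x : ℝ) = (x.num : ℝ) / x.den := by
    exact_mod_cast (Rat.cast_def x : (x : ℝ) = _)
  have e1 : α * ((F * r : ℕ) : ℝ) - ((x.num * (F * r' : ℕ) : ℤ) : ℝ) = (α - x) * ((F * r : ℕ) : ℝ) := by
    rw [hxe, hr', hq]
    push_cast
    field_simp
  rw [e1, abs_mul, abs_of_nonneg (show (0 : ℝ) ≤ ((F * r : ℕ) : ℝ) by positivity)]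
  have hn1 : 1 ≤ n := by
    rw [hn]
    exact Nat.mul_pos hT (Nat.pow_pos (by omega))
  have hn0 : (0 : ℝ) < n := by exact_mod_cast hn1
  have h2 : |α - x| ≤ 1 / n := by
    refine hx.trans ?_
    apply one_div_le_one_div_of_le hn0
    have h3 : (1 : ℝ) ≤ x.den := by exact_mod_cast hq1
    nlinarith
  have h3 : ((F * r : ℕ) : ℝ) ≤ ((B * B : ℕ) : ℝ) := by
    exact_mod_cast Nat.mul_le_mul hFB hr.2
  have h4 : |α - x| * ((F * r : ℕ) : ℝ) * ((cl T B E (2 * j) * B ^ CN : ℕ) : ℝ) ≤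
      1 / n * ((B * B : ℕ) : ℝ) * ((cl T B E (2 * j) * B ^ CN : ℕ) : ℝ) := by
    gcongr
  refine lt_of_le_of_lt h4 ?_
  have h5 : (B * B) * (cl T B E (2 * j) * B ^ CN) * B ≤ n := by
    rw [hn]
    unfold cl
    have h6 : (B * B) * (T * B ^ (E * (2 * j + 1)) * B ^ CN) * B = T * B ^ (E * (2 * j + 1) + CN + 3) := by
      rw [pow_add, pow_add]
      ring
    rw [h6]
    apply Nat.mul_le_mul_left
    apply Nat.pow_le_pow_right (by omega)
    have h7 : E * (2 * j + 2) = E * (2 * j + 1) + E := by ring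
    omega
  have h8 : ((B * B : ℕ) : ℝ) * ((cl T B E (2 * j) * B ^ CN : ℕ) : ℝ) * B ≤ n := by
    exact_mod_cast h5
  have hB4 : (4 : ℝ) ≤ B := by exact_mod_cast hB
  have h9 : ((B * B : ℕ) : ℝ) * ((cl T B E (2 * j) * B ^ CN : ℕ) : ℝ) * 4 ≤ n := by
    refine le_trans ?_ h8
    gcongr
  have h10 : 1 / (n : ℝ) * ((B * B : ℕ) : ℝ) * ((cl T B E (2 * j) * B ^ CN : ℕ) : ℝ) =
      (((B * B : ℕ) : ℝ) * ((cl T B E (2 * j) * B ^ CN : ℕ) : ℝ)) / n := by
    field_simp
  rw [h10, div_lt_iff₀ hn0]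
  linarith

theorem t_ldy (CN F J : ℕ) {ζ : ℝ} (hζ : 0 < ζ) (hζ1 : ζ ≤ 1) (hF : 1 ≤ F) :
    ∃ (C : ℝ) (lam₀ : ℕ), 0 ≤ C ∧ ∀ (lam E T : ℕ) (S : Finset ℕ) (a : ℕ → ℝ), lam₀ ≤ lam → CN + 20 ≤ E →
      1 ≤ T → Wts lam CN a → ∀ (j D : ℕ), j ≤ J → 1 ≤ D →
      (∀ ρ, 1 ≤ ρ → ρ ≤ (F * 2 ^ (8 * lam)) ^ j * 2 ^ (8 * lam * CN) →
        RSF (sct S (D * ρ) (cl T (2 ^ (8 * lam)) E (2 * j))) T) → ∀ α : ℝ,
      (HH S T (2 ^ (8 * lam)) E (2 ^ (8 * lam * CN)) j D α ∨
        (1 ≤ j ∧ BH S T (2 ^ (8 * lam)) E ζ j D α ∧ ∀ r ∈ Icc 1 (2 ^ (8 * lam)),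
          HH S T (2 ^ (8 * lam)) E (2 ^ (8 * lam * CN)) (j - 1) (D * (F * r)) (α * ((F * r : ℕ) : ℝ)))) →
      Val S T (2 ^ (8 * lam)) E F (2 ^ (8 * lam * CN)) a j D ≤
        (600 - 9 / 2 * j) * Yv S T (2 ^ (8 * lam)) E F (2 ^ (8 * lam * CN)) a j D α + C / 2 ^ lam :=
  by
  obtain ⟨C₁, B₀, hC₁, hblk⟩ := t_blk CN F J hζ hζ1 hF
  obtain ⟨lam', hlast⟩ := l_last CN
  refine ⟨4000 + J * (C₁ + 3), max lam' (B₀ + F + 1), by positivity, ?_⟩
  intro lam E T S a hlam hE hT hW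
  have hlam1 : lam' ≤ lam := (le_max_left _ _).trans hlam
  have hlam2 : B₀ + F + 1 ≤ lam := (le_max_right _ _).trans hlam
  have hBlam : 2 ^ lam ≤ 2 ^ (8 * lam) := Nat.pow_le_pow_right (by norm_num) (by omega)
  have hlam3 : lam < 2 ^ lam := Nat.lt_two_pow_self
  have hB4 : 4 ≤ 2 ^ (8 * lam) := by
    calc 4 = 2 ^ 2 := by norm_num
      _ ≤ 2 ^ (8 * lam) := Nat.pow_le_pow_right (by norm_num) (by omega)
  have hBB : B₀ ≤ 2 ^ (8 * lam) := by omega
  have hFB : F ≤ 2 ^ (8 * lam) := by omega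
  have hM : 2 ^ (8 * lam * CN) = (2 ^ (8 * lam)) ^ CN := by rw [← pow_mul]
  have hinv : (1 : ℝ) / ((2 ^ (8 * lam) : ℕ) : ℝ) ≤ 1 / 2 ^ lam := by
    apply one_div_le_one_div_of_le (by positivity)
    exact_mod_cast hBlam
  have hWn := hW.nonneg
  have hWs := hW.sum
  have hlast' := hlast lam hlam1 E F T
  generalize hBdef : 2 ^ (8 * lam) = B at *
  generalize hMdef : 2 ^ (8 * lam * CN) = M at *
  subst hM
  have hB1 : 1 ≤ B := by omega
  have hB0 : (0 : ℝ) < B := by exact_mod_cast hB1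
  have hM1 : 1 ≤ B ^ CN := Nat.pow_pos (by omega)
  have key : ∀ (j D : ℕ), j ≤ J → 1 ≤ D →
      (∀ ρ, 1 ≤ ρ → ρ ≤ (F * B) ^ j * B ^ CN →
        RSF (sct S (D * ρ) (cl T B E (2 * j))) T) → ∀ α : ℝ,
      (HH S T B E (B ^ CN) j D α ∨
        (1 ≤ j ∧ BH S T B E ζ j D α ∧ ∀ r ∈ Icc 1 B,
          HH S T B E (B ^ CN) (j - 1) (D * (F * r)) (α * ((F * r : ℕ) : ℝ)))) →
      Val S T B E F (B ^ CN) a j D ≤
        (600 - 9 / 2 * j) * Yv S T B E F (B ^ CN) a j D α + (4000 + j * (C₁ + 3)) / 2 ^ lam := by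
    intro j
    induction j with
    | zero =>
      intro D _ hD hR α hor
      rcases hor with h | ⟨h, _⟩
      · have := hlast' D a S α hE hT hD hW ?_ h
        · simpa using this
        · intro d hd
          rw [mem_Icc] at hd
          have := hR d hd.1 (by simpa using hd.2)
          simpa using this
      · omega
    | succ j ih =>
      intro D hj hD hR α hor
      have hBH : BH S T B E ζ (j + 1) D α := by
        rcases hor with h | ⟨_, h, _⟩
        · exact bh_of_hh hB1 (by omega) hM1 (by omega) h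
        · exact h
      have hHH : ∀ r ∈ Icc 1 B, HH S T B E (B ^ CN) j (D * (F * r)) (α * ((F * r : ℕ) : ℝ)) := by
        rcases hor with h | ⟨_, _, h⟩
        · intro r hr
          exact hh_succ hF hFB (by omega) h hr
        · simpa using h
      clear hor
      have ih' : ∀ r ∈ Icc 1 B, Val S T B E F (B ^ CN) a j (D * (F * r)) ≤
          (600 - 9 / 2 * j) * Yv S T B E F (B ^ CN) a j (D * (F * r)) (α * ((F * r : ℕ) : ℝ)) +
            (4000 + j * (C₁ + 3)) / 2 ^ lam := by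
        intro r hr
        have hr' := mem_Icc.1 hr
        apply ih (D * (F * r)) (by omega)
        · exact Nat.mul_pos hD (Nat.mul_pos hF hr'.1)
        · intro ρ hρ hρ2
          have h1 := hR (F * r * ρ) (Nat.mul_pos (Nat.mul_pos hF hr'.1) hρ) ?_
          · rw [← mul_assoc] at h1
            refine rsf_mono h1 ?_ le_rfl
            exact sct_mono (cl_mono hB1 (by omega))
          · calc F * r * ρ ≤ (F * B) * ((F * B) ^ j * B ^ CN) :=
                  Nat.mul_le_mul (Nat.mul_le_mul_left _ hr'.2) hρ2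
              _ = (F * B) ^ (j + 1) * B ^ CN := by rw [pow_succ]; ring
        · exact Or.inl (hHH r hr)
      -- Dirichlet
      set n := T * B ^ (E * (2 * j + 2) - 1) with hn
      have hn1 : 0 < n := Nat.mul_pos hT (Nat.pow_pos (by omega))
      have hcl : cl T B E (2 * (j + 1) - 1) = n * B := by
        unfold cl
        rw [hn, mul_assoc, ← pow_succ]
        congr 2
        have h7 : 2 * (j + 1) - 1 + 1 = 2 * j + 2 := by omega
        rw [h7]
        have : 1 ≤ E * (2 * j + 2) := Nat.mul_pos (by omega) (by omega)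
        omega
      have hclR : (cl T B E (2 * (j + 1) - 1) : ℝ) / B = n := by
        rw [hcl]
        push_cast
        field_simp
      obtain ⟨x, hx1, hx2⟩ := Real.exists_rat_abs_sub_le_and_den_le α hn1
      have hq1 : 1 ≤ x.den := x.den_pos
      have hq0 : (0 : ℝ) < x.den := by exact_mod_cast hq1
      have hn0 : (0 : ℝ) < n := by exact_mod_cast hn1
      have hGG := hblk B E T S a (j + 1) D α x hBB hE hT (by omega) hj hD hWn hWs
        (by
          have := hR 1 le_rfl (Nat.mul_pos (Nat.pow_pos (Nat.mul_pos hF (by omega))) hM1)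
          rwa [mul_one] at this) hBH (by rw [hclR]; exact_mod_cast hx2)
        (by
          rw [hclR]
          refine hx1.trans ?_
          apply one_div_le_one_div_of_le (by positivity)
          nlinarith)
      have hVal : Val S T B E F (B ^ CN) a (j + 1) D = GG S T B E D (j + 1) +
        (∑ r ∈ Icc 1 B, Val S T B E F (B ^ CN) a j (D * (F * r))) / B := rfl
      have hYv : Yv S T B E F (B ^ CN) a (j + 1) D α =
        (∑ r ∈ Icc 1 B, Yv S T B E F (B ^ CN) a j (D * (F * r)) (α * ((F * r : ℕ) : ℝ))) / B := rfl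
      have hCj : 0 ≤ (4000 + j * (C₁ + 3)) / (2 : ℝ) ^ lam := by positivity
      have hBi : (C₁ + 3) / B ≤ (C₁ + 3) / 2 ^ lam := by
        have h3 : (C₁ + 3) * (1 / (B : ℝ)) ≤ (C₁ + 3) * (1 / 2 ^ lam) :=
          mul_le_mul_of_nonneg_left hinv (by linarith)
        rwa [mul_one_div, mul_one_div] at h3
      rw [hVal]
      have hfin : (4000 + ((j + 1 : ℕ) : ℝ) * (C₁ + 3)) / (2 : ℝ) ^ lam =
        (4000 + j * (C₁ + 3)) / (2 : ℝ) ^ lam + (C₁ + 3) / 2 ^ lam := by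
        push_cast
        ring
      rw [hfin]
      rw [show C₁ / (B : ℝ) = (C₁ + 3) / B - 3 / B by ring] at hGG
      rcases Nat.lt_or_ge B x.den with hq | hq
      · -- `q > B`
        have h1 := TLdy_avg hB1 (f := fun r => Val S T B E F (B ^ CN) a j (D * (F * r)))
          (g := fun r => Yv S T B E F (B ^ CN) a j (D * (F * r)) (α * ((F * r : ℕ) : ℝ)))
          (k := 600 - 9 / 2 * j) (c := (4000 + j * (C₁ + 3)) / 2 ^ lam) (b := fun _ => 0)
          (by
            intro r hr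
            have := ih' r hr
            simpa using this)
        simp only [sum_const_zero, zero_div, mul_zero, sub_zero] at h1
        rw [← hYv] at h1
        have h2 : (3 : ℝ) / x.den ≤ 3 / B := by
          apply div_le_div_of_nonneg_left (by norm_num) hB0
          exact_mod_cast hq.le
        have h3 : (600 - 9 / 2 * ((j + 1 : ℕ) : ℝ)) * Yv S T B E F (B ^ CN) a (j + 1) D α =
          (600 - 9 / 2 * (j : ℝ)) * Yv S T B E F (B ^ CN) a (j + 1) D α -
            9 / 2 * Yv S T B E F (B ^ CN) a (j + 1) D α := by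
          push_cast
          ring
        rw [h3]
        linarith
      · -- `q ≤ B`
        have h1 := TLdy_avg hB1 (f := fun r => Val S T B E F (B ^ CN) a j (D * (F * r)))
          (g := fun r => Yv S T B E F (B ^ CN) a j (D * (F * r)) (α * ((F * r : ℕ) : ℝ)))
          (k := 600 - 9 / 2 * j) (c := (4000 + j * (C₁ + 3)) / 2 ^ lam)
          (b := fun r => if x.den ∣ r then 1 else 0)
          (by
            intro r hr
            by_cases hd : x.den ∣ r
            · obtain ⟨u, hu⟩ := TLdy_small (F := F) (j := j) (CN := CN) hT hB4 hE hFB hr rfl hd hn hx1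
              have he := t_emp (hHH r hr) hu
              obtain ⟨h5, h6⟩ := t_empty (F := F) (a := a) hT hF hFB (by omega) hM1 hWn hWs j
                (D * (F * r)) he
              simp only [hd, if_true]
              rw [h5, h6]
              have h7 : (0 : ℝ) ≤ j := by positivity
              nlinarith
            · simp only [hd, if_false]
              have := ih' r hr
              simpa using this)
        rw [← hYv] at h1
        have h2 := TLdy_cnt (B := B) hq1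
        have h4 : (B : ℝ) / x.den / B - 1 / B ≤
            (∑ r ∈ Icc 1 B, (if x.den ∣ r then (1 : ℝ) else 0)) / B := by
          rw [← sub_div]
          exact div_le_div_of_nonneg_right h2 hB0.le
        have h5 : (B : ℝ) / x.den / B = 1 / x.den := by field_simp
        rw [h5] at h4
        have h6 : (3 : ℝ) / x.den = 3 * (1 / x.den) := by ring
        have h7 : (3 : ℝ) / B = 3 * (1 / B) := by ring
        rw [h6, h7] at hGG
        have h3 : (600 - 9 / 2 * ((j + 1 : ℕ) : ℝ)) * Yv S T B E F (B ^ CN) a (j + 1) D α =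
          (600 - 9 / 2 * (j : ℝ)) * Yv S T B E F (B ^ CN) a (j + 1) D α -
            9 / 2 * Yv S T B E F (B ^ CN) a (j + 1) D α := by
          push_cast
          ring
        rw [h3]
        linarith
  intro j D hj hD hR α hor
  refine (key j D hj hD hR α hor).trans ?_
  have hjJ : (j : ℝ) ≤ J := by exact_mod_cast hj
  gcongr

end SFP
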