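import Pool.Agent.SFP.TStep
import Pool.Agent.SFP.NMain
import Pool.Agent.SFP.FD

/-!
# Module TMain (2): the main inequality

`st_main` (`δs, ρs, ζ, η, K₁, Z₀`), `ups_cell` with `ε = δs/3` (`≤ 1/2`), `σ = ρs`: `K0`. `F = (K0 + K₁)!` (every `1 ≤ d ≤ K0 + K₁` divides it). `n_wts`: `CN`, `lam₂`. `J = 134 + ⌈900/δs⌉₊`. `E = CN + 20 + J + 1`. Then `B0` from `ups_cell`, `C, lam1` from `t_ldy CN F J`, `lam₀` from `t_step`.
For `lam` large, `a` from `n_wts`, `T ≥ 1`, `S` with the RSF hypothesis (this is `RS`, `Dm = (F B)^J M`). Claim for `134 ≤ j ≤ J`, `1 ≤ D ≤ (F B)^(J - j)`: `Val j D ≤ max 0 (810 - δs (j - 134)) + C/2^lam`. `j = 134`: `t_triv`: `6 * 135 = 810`. Step `j → j+1`: `t_step` (`j ≥ 134`):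
first alternative: `18 - δs (j - 1) ≤ 810 - δs (j + 1 - 134)` iff `132 δs + ... ≤ 792`: `18 - δs(j-1) - 810 + δs (j - 133) = -792 - 132 δs < 0`. Second clear. Third: every `Val j (D (F r)) ≤ max 0 (810 - δs (j - 134)) + C/2^lam` (`D F r ≤ (F B)^(J - j)`), so the average too, and
`-δs + max 0 x ≤ max 0 (x - δs)`. For `j = J`, `D = 1`: `810 - δs (J - 134) ≤ 810 - 900 < 0`. So `Val J 1 ≤ C/2^lam`.
-/

namespace SFP

open Finset

theorem TMain_avg {B : ℕ} (hB : 1 ≤ B) (f : ℕ → ℝ) {x : ℝ} (h : ∀ r ∈ Icc 1 B, f r ≤ x) :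
    (∑ r ∈ Icc 1 B, f r) / (B : ℝ) ≤ x := by
  have hB' : (0 : ℝ) < B := by exact_mod_cast hB
  rw [div_le_iff₀ hB']
  calc ∑ r ∈ Icc 1 B, f r ≤ ∑ _r ∈ Icc 1 B, x := sum_le_sum h
    _ = x * B := by
      rw [sum_const, Nat.card_Icc, nsmul_eq_mul]
      push_cast [Nat.add_sub_cancel]
      ring

theorem main_MI : MI := by
  obtain ⟨δs, ρs, ζ, η, K₁, Z₀, hδ, hδ1, hρ, hρ1, hζ, hζ1, hη, hK₁, hst⟩ := st_main
  obtain ⟨K0, hK0, hups⟩ := ups_cell (ε := δs / 3) (σ := ρs) (by positivity) (by linarith) hρ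
  obtain ⟨CN, lam₂, hwts⟩ := n_wts
  have hF : 1 ≤ (K0 + K₁).factorial := Nat.succ_le_of_lt (Nat.factorial_pos _)
  generalize hFdef : (K0 + K₁).factorial = F at hF
  have hFK0 : ∀ q, 1 ≤ q → q ≤ K0 → q ∣ F := fun q h1 h2 => by
    rw [← hFdef]
    exact Nat.dvd_factorial (by omega) (by omega)
  have hFK1 : ∀ q, 1 ≤ q → q ≤ K₁ → q ∣ F := fun q h1 h2 => by
    rw [← hFdef]
    exact Nat.dvd_factorial (by omega) (by omega)
  have hJ : ∃ J : ℕ, J = 134 + ⌈900 / δs⌉₊ := ⟨_, rfl⟩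
  obtain ⟨J, hJ⟩ := hJ
  obtain ⟨B0, hB0⟩ := hups F J (CN + 20 + J + 1) hF hFK0 (by omega)
  obtain ⟨C, lam1, hC, hldy⟩ := t_ldy CN F J hζ hζ1 hF
  obtain ⟨lam₀, hstep⟩ := t_step CN F J (CN + 20 + J + 1) hδ hδ1 hρ hρ1 hζ hζ1 hη hF hFK1
    (by omega) (by omega) hst (B0 := B0) hB0 hC hldy
  refine ⟨F, J, CN + 20 + J + 1, CN, max lam₀ lam₂, C, hF, by omega, hC, ?_⟩
  intro lam hlam
  obtain ⟨a, ha⟩ := hwts lam (le_trans (le_max_right _ _) hlam)
  refine ⟨a, ha.nonneg, ha.sum, ?_⟩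
  intro T hT S hS
  have hRS : RS S T (2 ^ (8 * lam)) (CN + 20 + J + 1) F (2 ^ (8 * lam * CN)) J := hS
  have hB : 1 ≤ 2 ^ (8 * lam) := Nat.one_le_two_pow
  have hC2 : 0 ≤ C / 2 ^ lam := by positivity
  have key : ∀ k D : ℕ, 134 + k ≤ J → 1 ≤ D → D ≤ (F * 2 ^ (8 * lam)) ^ (J - (134 + k)) →
      Val S T (2 ^ (8 * lam)) (CN + 20 + J + 1) F (2 ^ (8 * lam * CN)) a (134 + k) D ≤
        max 0 (810 - δs * k) + C / 2 ^ lam := by
    intro k
    induction k with
    | zero =>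
      intro D _ _ _
      have h1 := t_triv (S := S) (T := T) (B := 2 ^ (8 * lam)) (E := CN + 20 + J + 1) (F := F)
        (M := 2 ^ (8 * lam * CN)) (a := a) hT hB ha.nonneg ha.sum 134 D
      have h2 : (810 : ℝ) ≤ max 0 (810 - δs * ((0 : ℕ) : ℝ)) := by
        simp
      have h3 : (6 : ℝ) * (((134 : ℕ) : ℝ) + 1) = 810 := by norm_num
      rw [h3] at h1
      exact h1.trans (h2.trans (le_add_of_nonneg_right hC2))
    | succ k ih =>
      intro D hk hD hD2
      have hmax0 : (0 : ℝ) ≤ max 0 (810 - δs * ((k + 1 : ℕ) : ℝ)) := le_max_left _ _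
      have hmax1 : 810 - δs * ((k + 1 : ℕ) : ℝ) ≤ max 0 (810 - δs * ((k + 1 : ℕ) : ℝ)) :=
        le_max_right _ _
      have e1 : 134 + (k + 1) = 134 + k + 1 := by omega
      rw [e1] at hk hD2 ⊢
      rcases hstep lam T S a (le_trans (le_max_left _ _) hlam) hT ha hRS (134 + k) D (by omega) hk
        hD hD2 with h | h | h
      · push_cast at h hmax1 hmax0 ⊢
        nlinarith
      · linarith
      · have hav := TMain_avg (B := 2 ^ (8 * lam)) hB
          (fun r => Val S T (2 ^ (8 * lam)) (CN + 20 + J + 1) F (2 ^ (8 * lam * CN)) a (134 + k)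
            (D * (F * r))) (x := max 0 (810 - δs * k) + C / 2 ^ lam) (by
            intro r hr
            rw [mem_Icc] at hr
            apply ih (D * (F * r)) (by omega)
            · exact Nat.mul_pos hD (Nat.mul_pos hF hr.1)
            · calc D * (F * r) ≤ (F * 2 ^ (8 * lam)) ^ (J - (134 + k + 1)) * (F * 2 ^ (8 * lam)) :=
                    Nat.mul_le_mul hD2 (Nat.mul_le_mul_left _ hr.2)
                _ = (F * 2 ^ (8 * lam)) ^ (J - (134 + k)) := by
                    rw [← pow_succ]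
                    congr 1
                    omega)
        have hmm : -δs + max 0 (810 - δs * k) ≤ max 0 (810 - δs * ((k + 1 : ℕ) : ℝ)) := by
          rcases le_total 0 (810 - δs * k) with h0 | h0
          · rw [max_eq_right h0]
            push_cast at hmax1 ⊢
            linarith
          · rw [max_eq_left h0]
            linarith
        linarith
  have hfin := key ⌈900 / δs⌉₊ 1 (by omega) le_rfl (by
    rw [← hJ, Nat.sub_self, pow_zero])
  rw [← hJ] at hfin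
  have h9 : 900 ≤ δs * (⌈900 / δs⌉₊ : ℝ) := by
    have := Nat.le_ceil (900 / δs)
    rw [div_le_iff₀ hδ] at this
    linarith
  rw [max_eq_left (by linarith)] at hfin
  linarith

end SFP
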