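import Pool.Agent.SFP.LDefs

/-!
# Module TP (2): trivial bounds and the tree

* `ex_le`: `ex ≤ 2` (`|sct| ≤ X`, `X ≥ 1`); `exl ≤ 2` (`∑_{y=1}^L 2(L-y)/L² = (L-1)/L ≤ 1`); `gg_le : GG ≤ 6`; `gg_ne`: not `NE` ⟹ `GG ≤ -3δ`.
* `t_triv`: `Val j D ≤ 6 (j+1)`. * `t_p0`: `P0 j D ⟹ Val j D ≤ 6 - 3 δ j`. * `t_p1`: `P1 j D ⟹ Val j D ≤ 12 - 3 δ (j - 1)` (`δ ≥ 0`). Inductions on `j` for all `D`; averages over `r ∈ [1, B]`, `B ≥ 1`.
  (`t_p1`, step: first alternative: `6 + (6 - 3 δ j) = 12 - 3δ((j+1) - 1)`; second: `-3δ + 12 - 3δ(j-1)`; `j = 0`: `Val ≤ 6 ≤ 12 + 3δ`.)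
* `t_ne0`: `¬ P0 j D` ⟹ there are `1 ≤ l ≤ j` and `1 ≤ ρ ≤ (F B)^(j-l)`, `F ∣ ρ ∨ (ρ = 1 ∧ l = j)`, with `NE (D ρ) l`. Induction. * `t_ne1`: `¬ P1 j D` ⟹ `1 ≤ l' < l ≤ j`, `ρ ≤ (F B)^(j-l)`, `1 ≤ ρ' ≤ (F B)^(l-l')`, `F ∣ ρ'`,
  `NE (D ρ) l`, `NE (D ρ ρ') l'`. Induction: `¬ P1 (j+1) D`: some `r` with `¬ P0 j (D(F r))`, and (`NE D (j+1)` or some `r'` with `¬ P1 j (D (F r'))`). In the second case use the induction hypothesis for `D (F r')` (`ρ := F r' ρ`); in the first `l = j + 1`, `ρ = 1`,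
  and `t_ne0` for `D (F r)` gives `l' ≤ j` and `ρ' = F r ρ''`, `≤ (F B)(F B)^(j - l')`.
-/

namespace SFP

open Finset

variable {S : Finset ℕ} {T B E F M : ℕ} {a : ℕ → ℝ} {δ : ℝ}

theorem TP_card (D X : ℕ) : (sct S D X).card ≤ X := by
  calc (sct S D X).card ≤ (Icc 1 X).card := card_le_card (filter_subset _ _)
    _ = X := by simp

theorem TP_ex (D : ℕ) {X : ℕ} (hX : 1 ≤ X) : ex S D X ≤ 2 := by
  unfold ex
  have h1 : ((sct S D X).card : ℝ) ≤ X := by exact_mod_cast TP_card D X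
  have h2 : (0 : ℝ) < X := by exact_mod_cast hX
  have h3 : 3 * ((sct S D X).card : ℝ) / X ≤ 3 := by
    rw [div_le_iff₀ h2]
    linarith
  linarith

theorem TP_sum (L : ℕ) : ∑ y ∈ Icc 1 L, ((L : ℝ) - y) = (L : ℝ) * (L - 1) / 2 := by
  have h : ∀ (n : ℕ) (c : ℝ), ∑ y ∈ Icc 1 n, (c - (y : ℝ)) = n * c - n * (n + 1) / 2 := by
    intro n
    induction n with
    | zero => intro c; simp
    | succ n ih =>
      intro c
      rw [sum_Icc_succ_top (by omega), ih]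
      push_cast
      ring
  rw [h]
  ring

theorem TP_exl (D : ℕ) {L : ℕ} (hL : 1 ≤ L) : exl S D L ≤ 2 := by
  unfold exl
  have h2 : (0 : ℝ) < L := by exact_mod_cast hL
  have h1 : ∑ y ∈ sct S D L, 2 * ((L : ℝ) - y) / (L : ℝ) ^ 2 ≤ 1 := by
    calc ∑ y ∈ sct S D L, 2 * ((L : ℝ) - y) / (L : ℝ) ^ 2
        ≤ ∑ y ∈ Icc 1 L, 2 * ((L : ℝ) - y) / (L : ℝ) ^ 2 := by
          apply sum_le_sum_of_subset_of_nonneg (filter_subset _ _)
          intro y hy _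
          rw [mem_Icc] at hy
          have : (y : ℝ) ≤ L := by exact_mod_cast hy.2
          apply div_nonneg
          · linarith
          · positivity
      _ = 2 * (∑ y ∈ Icc 1 L, ((L : ℝ) - y)) / (L : ℝ) ^ 2 := by
          rw [← sum_div, mul_sum]
      _ = (L - 1) / L := by
          rw [TP_sum]
          field_simp
      _ ≤ 1 := by
          rw [div_le_one h2]
          linarith
  linarith

theorem gg_le (hT : 1 ≤ T) (hB : 1 ≤ B) (D j : ℕ) : GG S T B E D j ≤ 6 := by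
  unfold GG
  have h1 := TP_ex (S := S) D (cl_pos (E := E) (k := 2 * j) hT hB)
  have h2 := TP_ex (S := S) D (cl_pos (E := E) (k := 2 * j - 1) hT hB)
  linarith

theorem gg_ne (D j : ℕ) (h : ¬ NE S T B E δ D j) : GG S T B E D j ≤ -3 * δ := by
  unfold NE at h
  rw [not_or, not_le, not_le] at h
  unfold GG
  linarith [h.1, h.2]

theorem TP_avg (hB : 1 ≤ B) {f : ℕ → ℝ} {c : ℝ} (h : ∀ r ∈ Icc 1 B, f r ≤ c) :
    (∑ r ∈ Icc 1 B, f r) / B ≤ c := by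
  have h2 : (0 : ℝ) < B := by exact_mod_cast hB
  rw [div_le_iff₀ h2]
  calc ∑ r ∈ Icc 1 B, f r ≤ ∑ r ∈ Icc 1 B, c := sum_le_sum h
    _ = c * B := by
      rw [sum_const, Nat.card_Icc, nsmul_eq_mul]
      simp
      ring

theorem TP_zero (hT : 1 ≤ T) (hB : 1 ≤ B) (ha : ∀ d, 0 ≤ a d) (hs : ∑ d ∈ Icc 1 M, a d = 1) (D : ℕ) :
    Val S T B E F M a 0 D ≤ 6 := by
  unfold Val
  have h1 : ∑ d ∈ Icc 1 M, a d * exl S (D * d) (cl T B E 0) ≤ ∑ d ∈ Icc 1 M, a d * 2 := by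
    apply sum_le_sum
    intro d _
    exact mul_le_mul_of_nonneg_left (TP_exl _ (cl_pos hT hB)) (ha d)
  rw [← sum_mul, hs] at h1
  linarith

theorem t_triv (hT : 1 ≤ T) (hB : 1 ≤ B) (ha : ∀ d, 0 ≤ a d) (hs : ∑ d ∈ Icc 1 M, a d = 1) (j D : ℕ) :
    Val S T B E F M a j D ≤ 6 * (j + 1) := by
  induction j generalizing D with
  | zero =>
    have := TP_zero (S := S) (T := T) (B := B) (E := E) (F := F) hT hB ha hs D
    simpa using this
  | succ j ih =>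
    rw [Val]
    have h1 := gg_le (S := S) (E := E) hT hB D (j + 1)
    have h2 := TP_avg hB (fun r _ => ih (D * (F * r)))
    push_cast
    linarith

theorem t_p0 (hT : 1 ≤ T) (hB : 1 ≤ B) (ha : ∀ d, 0 ≤ a d) (hs : ∑ d ∈ Icc 1 M, a d = 1) (j D : ℕ)
    (h : P0 S T B E F δ j D) : Val S T B E F M a j D ≤ 6 - 3 * δ * j := by
  induction j generalizing D with
  | zero =>
    have := TP_zero (S := S) (T := T) (B := B) (E := E) (F := F) hT hB ha hs D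
    simpa using this
  | succ j ih =>
    rw [Val]
    rw [P0] at h
    have h1 := gg_ne (S := S) D (j + 1) h.1
    have h2 := TP_avg hB (fun r hr => ih (D * (F * r)) (h.2 r hr))
    push_cast
    linarith

theorem t_p1 (hT : 1 ≤ T) (hB : 1 ≤ B) (hδ : 0 ≤ δ) (ha : ∀ d, 0 ≤ a d) (hs : ∑ d ∈ Icc 1 M, a d = 1)
    (j D : ℕ) (h : P1 S T B E F δ j D) : Val S T B E F M a j D ≤ 12 - 3 * δ * (j - 1) := by
  induction j generalizing D with
  | zero =>
    have := TP_zero (S := S) (T := T) (B := B) (E := E) (F := F) hT hB ha hs D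
    push_cast
    linarith
  | succ j ih =>
    rw [Val]
    rw [P1] at h
    rcases h with h | h
    · have h1 := gg_le (S := S) (E := E) hT hB D (j + 1)
      have h2 := TP_avg hB (fun r hr => t_p0 hT hB ha hs j (D * (F * r)) (h r hr))
      push_cast
      linarith
    · have h1 := gg_ne (S := S) D (j + 1) h.1
      have h2 := TP_avg hB (fun r hr => ih (D * (F * r)) (h.2 r hr))
      push_cast
      linarith

theorem t_ne0 (hF : 1 ≤ F) (j D : ℕ) (h : ¬ P0 S T B E F δ j D) :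
    ∃ l ρ : ℕ, 1 ≤ l ∧ l ≤ j ∧ 1 ≤ ρ ∧ ρ ≤ (F * B) ^ (j - l) ∧ (F ∣ ρ ∨ ρ = 1) ∧
      NE S T B E δ (D * ρ) l := by
  induction j generalizing D with
  | zero => exact absurd trivial h
  | succ j ih =>
    rw [P0] at h
    by_cases hn : NE S T B E δ D (j + 1)
    · exact ⟨j + 1, 1, by omega, le_rfl, le_rfl, by simp, Or.inr rfl, by simpa using hn⟩
    · have h2 : ∃ r ∈ Icc 1 B, ¬ P0 S T B E F δ j (D * (F * r)) := by
        by_contra hc
        push Not at hc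
        exact h ⟨hn, hc⟩
      obtain ⟨r, hr, hr'⟩ := h2
      obtain ⟨l, ρ, a1, a2, a3, a4, a5, a6⟩ := ih _ hr'
      rw [mem_Icc] at hr
      refine ⟨l, F * r * ρ, a1, by omega, ?_, ?_, Or.inl ⟨r * ρ, by ring⟩, ?_⟩
      · exact Nat.mul_pos (Nat.mul_pos hF hr.1) a3
      · have e : j + 1 - l = (j - l) + 1 := by omega
        rw [e, pow_succ, mul_comm]
        exact Nat.mul_le_mul a4 (Nat.mul_le_mul_left _ hr.2)
      · rw [← mul_assoc]
        exact a6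

theorem t_ne1 (hF : 1 ≤ F) (j D : ℕ) (h : ¬ P1 S T B E F δ j D) :
    ∃ l l' ρ ρ' : ℕ, 1 ≤ l' ∧ l' < l ∧ l ≤ j ∧ 1 ≤ ρ ∧ ρ ≤ (F * B) ^ (j - l) ∧ (F ∣ ρ ∨ ρ = 1) ∧
      1 ≤ ρ' ∧ ρ' ≤ (F * B) ^ (l - l') ∧ F ∣ ρ' ∧
      NE S T B E δ (D * ρ) l ∧ NE S T B E δ (D * ρ * ρ') l' := by
  induction j generalizing D with
  | zero => exact absurd trivial h
  | succ j ih =>
    rw [P1, not_or] at h
    obtain ⟨h0, h1⟩ := h
    push Not at h0
    obtain ⟨r, hr, hr'⟩ := h0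
    rw [mem_Icc] at hr
    by_cases hn : NE S T B E δ D (j + 1)
    · obtain ⟨l, ρ, a1, a2, a3, a4, a5, a6⟩ := t_ne0 hF j _ hr'
      refine ⟨j + 1, l, 1, F * r * ρ, a1, by omega, le_rfl, le_rfl, by simp, Or.inr rfl, ?_, ?_,
        ⟨r * ρ, by ring⟩, by simpa using hn, ?_⟩
      · exact Nat.mul_pos (Nat.mul_pos hF hr.1) a3
      · have e : j + 1 - l = (j - l) + 1 := by omega
        rw [e, pow_succ, mul_comm]
        exact Nat.mul_le_mul a4 (Nat.mul_le_mul_left _ hr.2)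
      · rw [mul_one, ← mul_assoc]
        exact a6
    · have h2 : ∃ r ∈ Icc 1 B, ¬ P1 S T B E F δ j (D * (F * r)) := by
        by_contra hc
        push Not at hc
        exact h1 ⟨hn, hc⟩
      obtain ⟨r, hr, hr'⟩ := h2
      rw [mem_Icc] at hr
      obtain ⟨l, l', ρ, ρ', a1, a2, a3, a4, a5, a6, a7, a8, a9, a10, a11⟩ := ih _ hr'
      refine ⟨l, l', F * r * ρ, ρ', a1, a2, by omega, ?_, ?_, Or.inl ⟨r * ρ, by ring⟩, a7, a8, a9,
        ?_, ?_⟩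
      · exact Nat.mul_pos (Nat.mul_pos hF hr.1) a4
      · have e : j + 1 - l = (j - l) + 1 := by omega
        rw [e, pow_succ, mul_comm]
        exact Nat.mul_le_mul a5 (Nat.mul_le_mul_left _ hr.2)
      · rw [← mul_assoc]
        exact a10
      · rw [← mul_assoc]
        exact a11

end SFP
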