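import Pool.Agent.SFP.TLdy
import Pool.Agent.SFP.TP
import Pool.Agent.SFP.A8
import Pool.Agent.SFP.CMain

/-!
# Module TStep (4): one step of the tree induction

`B = 2^(8 lam)`, `M = B^CN`. Fixed numbers: `δs ρs ζ η K₁ Z₀` as in `st_main` (its last clause is the hypothesis `hst`), `ε = δs/3`, `ups_cell` with `ε`, `σ = ρs` for `F, J, E` (hypothesis `hups` = its last clause, a threshold `B0`), `t_ldy` (hypothesis `hldy`).
At `(j+1, D)`, `133 ≤ j`, `j + 1 ≤ J`, `D ≤ (F B)^(J - (j+1))`: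
Case 1: `∀ r ∈ [1,B], P1 .. ε j (D (F r))`. `Val (j+1) D = GG + average ≤ 6 + 12 - 3 ε (j - 1)` (`gg_le`, `t_p1`).
Case 2: some `r` with `¬ P1 .. ε j (D (F r))`. `t_ne1`: `l' < l ≤ j`, `ρ₁`, `ρ'`; `ρ := F r ρ₁`, `F ∣ ρ`, `ρ ≤ (F B)(F B)^(j-l) ≤ (F B)^J`, `D (F r) ρ₁ = D ρ`. `hups` with `N = cl (2J)`, `k = 2(j+1)` and `k = 2(j+1) - 1` (`j+1` for `j`): `RSF (sct S D N) T`, `RSF (sct S (D ρ) N) T` from `RS`
(`D ρ ≤ (F B)^(J-(j+1)) (F B)^(j+1-l) ≤ (F B)^J`). For `X = cl k` and `v + w ≤ X`: `(sct S D X).filter (..) = (sct S D N).filter (..)` (subset is enough), residues `c % d`.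
 With `k = 2(j+1) - 1`, `d = 1`, `v = 0`, `w = X` (`ρs X ≤ X`): `ex S D (cl (2(j+1)-1)) ≤ 3ε = δs`.
 2a: `|sct S D X_a| < (1/3 - δs) X_a`, `X_a = cl (2(j+1))`: `GG ≤ -6δs + δs = -5δs ≤ -3ε`.
 2b: otherwise `hst` with `Z = X_a`, `S = sct S D X_a`, `e₀ = T` (`T ≤ η X_a`, `Z₀ ≤ X_a` for `B` large): `d ≤ K₁` divides `F`. `Str`: `α`. `BH ζ (j+1) D α`: the windows are literal; `x ∈ sct S D (cl(2(j+1)-1) B)` has `x ≤ cl(2j+1) B ≤ ζ cl (2j+2)` (`ζ B^(E-1) ≥ 1`).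
 `HH j (D (F r)) (α (F r))`: `y` in the section up to `cl(2j) M`: `F r y ∈ sct S D (ζ-range)`: `F r y ≤ B² B^CN cl (2j) ≤ ζ cl(2j+2)`. `hldy` (second alternative): `Val ≤ (600 - 4.5(j+1)) Yv + C/2^lam ≤ C/2^lam` as `Yv ≥ 0`, `j + 1 ≥ 134`.
-/

namespace SFP

open Finset

/-- The step for fixed `B`, `M`. -/
theorem TStep_main (CN F J E : ℕ) {δs ρs ζ η : ℝ} {K₁ Z₀ : ℕ} (hδ : 0 < δs)
    (hρ1 : ρs ≤ 1) (hζ : 0 < ζ) (hη : 0 < η) (hF : 1 ≤ F)
    (hFK : ∀ d, 1 ≤ d → d ≤ K₁ → d ∣ F) (hE : CN + 20 ≤ E)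
    (hst : ∀ (Z : ℕ) (S : Finset ℕ) (e₀ : ℝ), Z₀ ≤ Z → S ⊆ Icc 1 Z → 0 ≤ e₀ → e₀ ≤ η * Z →
      RSF S e₀ →
      (∀ d : ℕ, 1 ≤ d → d ≤ K₁ → ∀ c v w : ℕ, ρs * Z ≤ w → v + w ≤ Z →
        ((S.filter (fun x => v < x ∧ x ≤ v + w ∧ x % d = c % d)).card : ℝ) ≤ (1 / 3 + δs) * w / d) →
      (1 / 3 - δs) * Z ≤ (S.card : ℝ) → Str S Z ζ)
    {B M T : ℕ} (hM : M = B ^ CN) (hT : 1 ≤ T) (hB : 1 ≤ B) (hFB : F ≤ B) (hζB : 1 ≤ ζ * B)
    (hηB : 1 ≤ η * B) (hZB : Z₀ ≤ B) (S : Finset ℕ)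
    (hups : ∀ (D ρ ρ' N j l l' k : ℕ), 0 < D → 0 < ρ → 0 < ρ' →
        RSF (sct S D N) T → RSF (sct S (D * ρ) N) T → F ∣ ρ → F ∣ ρ' → ρ ≤ (F * B) ^ J →
        ρ' ≤ (F * B) ^ J → 1 ≤ l' → l' < l → l < j → NE S T B E (δs / 3) (D * ρ) l →
        NE S T B E (δs / 3) (D * ρ * ρ') l' → (k = 2 * j ∨ k = 2 * j - 1) → ∀ v w c d : ℕ, 0 < d →
        d ∣ F → ρs * (cl T B E k : ℝ) ≤ w → v + w ≤ N →
        (((sct S D N).filter (fun y => v < y ∧ y ≤ v + w ∧ y % d = c)).card : ℝ) ≤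
          (1 / 3 + δs / 3) * w / d)
    {K : ℝ} (a : ℕ → ℝ) (ha : ∀ d, 0 ≤ a d) (hs : ∑ d ∈ Icc 1 M, a d = 1)
    (hldy : ∀ (j D : ℕ), j ≤ J → 1 ≤ D →
      (∀ ρ, 1 ≤ ρ → ρ ≤ (F * B) ^ j * M →
        RSF (sct S (D * ρ) (cl T B E (2 * j))) T) → ∀ α : ℝ,
      (HH S T B E M j D α ∨
        (1 ≤ j ∧ BH S T B E ζ j D α ∧ ∀ r ∈ Icc 1 B,
          HH S T B E M (j - 1) (D * (F * r)) (α * ((F * r : ℕ) : ℝ)))) →
      Val S T B E F M a j D ≤
        (600 - 9 / 2 * j) * Yv S T B E F M a j D α + K)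
    (hRS : RS S T B E F M J) (j D : ℕ) (hj : 133 ≤ j) (hjJ : j + 1 ≤ J) (hD : 1 ≤ D)
    (hDB : D ≤ (F * B) ^ (J - (j + 1))) :
    Val S T B E F M a (j + 1) D ≤ 18 - δs * (j - 1) ∨
    Val S T B E F M a (j + 1) D ≤ K ∨
    Val S T B E F M a (j + 1) D ≤
        -δs + (∑ r ∈ Icc 1 B, Val S T B E F M a j (D * (F * r))) / (B : ℕ) := by
  have hFB1 : 1 ≤ F * B := Nat.mul_pos hF hB
  have hM1 : 1 ≤ M := by
    rw [hM]
    exact Nat.pow_pos hB
  have hB0 : (0 : ℝ) < B := by exact_mod_cast hB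
  have hVal : Val S T B E F M a (j + 1) D = GG S T B E D (j + 1) +
        (∑ r ∈ Icc 1 B, Val S T B E F M a j (D * (F * r))) / B := rfl
  by_cases hP : ∀ r ∈ Icc 1 B, P1 S T B E F (δs / 3) j (D * (F * r))
  · left
    have h1 : (∑ r ∈ Icc 1 B, Val S T B E F M a j (D * (F * r))) / B ≤ 12 - 3 * (δs / 3) * (j - 1) :=
      TP_avg hB (fun r hr => t_p1 hT hB (by linarith) ha hs j _ (hP r hr))
    have h2 := gg_le (S := S) (E := E) hT hB D (j + 1)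
    rw [hVal]
    have h3 : 3 * (δs / 3) * ((j : ℝ) - 1) = δs * (j - 1) := by ring
    rw [h3] at h1
    linarith
  · right
    push Not at hP
    obtain ⟨r, hr, hnP⟩ := hP
    have hr' := mem_Icc.1 hr
    obtain ⟨l, l', ρ₁, ρ', hl1, hl2, hl3, hρa, hρb, -, hρ'a, hρ'b, hρ'c, hne1, hne2⟩ :=
      t_ne1 hF j (D * (F * r)) hnP
    set ρ := F * r * ρ₁ with hρdef
    have hFr1 : 1 ≤ F * r := Nat.mul_pos hF hr'.1
    have hρpos : 1 ≤ ρ := Nat.mul_pos hFr1 hρa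
    have hρle : ρ ≤ (F * B) ^ (j - l + 1) := by
      calc ρ ≤ (F * B) * (F * B) ^ (j - l) :=
            Nat.mul_le_mul (Nat.mul_le_mul_left _ hr'.2) hρb
        _ = (F * B) ^ (j - l + 1) := by rw [pow_succ]; ring
    have hpw : ∀ x y : ℕ, x ≤ y → (F * B) ^ x ≤ (F * B) ^ y := fun x y h => Nat.pow_le_pow_right hFB1 h
    have hRS1 : ∀ D', 1 ≤ D' → D' ≤ (F * B) ^ J * M → ∀ k, k ≤ 2 * J →
        RSF (sct S D' (cl T B E k)) T := by
      intro D' h1 h2 k hk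
      exact rsf_mono (hRS D' h1 h2) (sct_mono (cl_mono hB hk)) le_rfl
    have hDle : D ≤ (F * B) ^ J * M :=
      hDB.trans ((hpw _ _ (by omega)).trans (Nat.le_mul_of_pos_right _ hM1))
    have hDρle : D * ρ ≤ (F * B) ^ J * M := by
      calc D * ρ ≤ (F * B) ^ (J - (j + 1)) * (F * B) ^ (j - l + 1) := Nat.mul_le_mul hDB hρle
        _ = (F * B) ^ (J - (j + 1) + (j - l + 1)) := by rw [← pow_add]
        _ ≤ (F * B) ^ J := hpw _ _ (by omega)
        _ ≤ (F * B) ^ J * M := Nat.le_mul_of_pos_right _ hM1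
    have hups' : ∀ k, (k = 2 * (j + 1) ∨ k = 2 * (j + 1) - 1) → ∀ v w c d : ℕ, 0 < d →
        d ∣ F → ρs * (cl T B E k : ℝ) ≤ w → v + w ≤ cl T B E (2 * J) →
        (((sct S D (cl T B E (2 * J))).filter
          (fun y => v < y ∧ y ≤ v + w ∧ y % d = c)).card : ℝ) ≤ (1 / 3 + δs / 3) * w / d := by
      intro k hk
      refine hups D ρ ρ' (cl T B E (2 * J)) (j + 1) l l' k (by omega) hρpos hρ'a
        (hRS1 D hD hDle _ le_rfl) (hRS1 (D * ρ) (Nat.mul_pos hD hρpos) hDρle _ le_rfl)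
        ⟨r * ρ₁, by rw [hρdef, mul_assoc]⟩ hρ'c (hρle.trans (hpw _ _ (by omega)))
        (hρ'b.trans (hpw _ _ (by omega))) hl1 hl2 (by omega) ?_ ?_ hk
      · have e1 : D * ρ = D * (F * r) * ρ₁ := by rw [hρdef]; ring
        rw [e1]
        exact hne1
      · have e1 : D * ρ * ρ' = D * (F * r) * ρ₁ * ρ' := by rw [hρdef]; ring
        rw [e1]
        exact hne2
    have hXb0 : 1 ≤ cl T B E (2 * (j + 1) - 1) := cl_pos hT hB
    have hXa0 : 1 ≤ cl T B E (2 * (j + 1)) := cl_pos hT hB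
    have hXb0' : (0 : ℝ) < (cl T B E (2 * (j + 1) - 1) : ℝ) := by exact_mod_cast hXb0
    have hXa0' : (0 : ℝ) < (cl T B E (2 * (j + 1)) : ℝ) := by exact_mod_cast hXa0
    have hXbN : cl T B E (2 * (j + 1) - 1) ≤ cl T B E (2 * J) := cl_mono hB (by omega)
    have hXaN : cl T B E (2 * (j + 1)) ≤ cl T B E (2 * J) := cl_mono hB (by omega)
    have hexb : ex S D (cl T B E (2 * (j + 1) - 1)) ≤ δs := by
      have h1 := hups' (2 * (j + 1) - 1) (Or.inr rfl) 0 (cl T B E (2 * (j + 1) - 1)) 0 1 one_pos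
        (one_dvd _) (by nlinarith) (by omega)
      have h2 : ((sct S D (cl T B E (2 * (j + 1) - 1))).card : ℝ) ≤
          (((sct S D (cl T B E (2 * J))).filter
            (fun y => 0 < y ∧ y ≤ 0 + cl T B E (2 * (j + 1) - 1) ∧ y % 1 = 0)).card : ℝ) := by
        have : (sct S D (cl T B E (2 * (j + 1) - 1))) ⊆ ((sct S D (cl T B E (2 * J))).filter
            (fun y => 0 < y ∧ y ≤ 0 + cl T B E (2 * (j + 1) - 1) ∧ y % 1 = 0)) := by
          intro y hy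
          rw [mem_filter]
          have hy' := mem_sct.1 hy
          exact ⟨sct_mono hXbN hy, by omega, by omega, Nat.mod_one y⟩
        exact_mod_cast card_le_card this
      have h3 := h2.trans h1
      unfold ex
      have h4 : 3 * ((sct S D (cl T B E (2 * (j + 1) - 1))).card : ℝ) /
          (cl T B E (2 * (j + 1) - 1) : ℝ) ≤ 1 + δs := by
        rw [div_le_iff₀ hXb0']
        push_cast at h3
        rw [div_one] at h3
        linarith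
      linarith
    by_cases hd : ((sct S D (cl T B E (2 * (j + 1)))).card : ℝ) <
        (1 / 3 - δs) * (cl T B E (2 * (j + 1)) : ℝ)
    · -- 2a
      right
      have h1 : ex S D (cl T B E (2 * (j + 1))) ≤ -(3 * δs) := by
        unfold ex
        have h4 : 3 * ((sct S D (cl T B E (2 * (j + 1)))).card : ℝ) /
            (cl T B E (2 * (j + 1)) : ℝ) ≤ 1 - 3 * δs := by
          rw [div_le_iff₀ hXa0']
          linarith
        linarith
      rw [hVal]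
      have h2 : GG S T B E D (j + 1) ≤ -δs := by
        unfold GG
        linarith
      linarith
    · -- 2b
      left
      have hE1 : 1 ≤ E * (2 * (j + 1)) := Nat.mul_pos (by omega) (by omega)
      have hTBX : T * B ≤ cl T B E (2 * (j + 1)) := by
        unfold cl
        apply Nat.mul_le_mul_left
        calc B = B ^ 1 := (pow_one B).symm
          _ ≤ _ := Nat.pow_le_pow_right hB (by nlinarith)
      have hTBX' : (T : ℝ) * B ≤ (cl T B E (2 * (j + 1)) : ℝ) := by exact_mod_cast hTBX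
      have hT0 : (1 : ℝ) ≤ T := by exact_mod_cast hT
      have hstr : Str (sct S D (cl T B E (2 * (j + 1)))) (cl T B E (2 * (j + 1))) ζ := by
        refine hst _ _ (T : ℝ) ?_ ?_ (by positivity) ?_ ?_ ?_ (not_lt.1 hd)
        · refine hZB.trans (le_trans ?_ hTBX)
          exact Nat.le_mul_of_pos_left _ hT
        · intro y hy
          rw [mem_Icc]
          exact (mem_sct.1 hy).1
        · calc (T : ℝ) = T * 1 := (mul_one _).symm
            _ ≤ T * (η * B) := by gcongr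
            _ = η * (T * B) := by ring
            _ ≤ η * (cl T B E (2 * (j + 1)) : ℝ) := by gcongr
        · exact hRS1 D hD hDle _ (by omega)
        · intro d hd1 hdK c v w hw hvw
          have h1 := hups' (2 * (j + 1)) (Or.inl rfl) v w (c % d) d hd1 (hFK d hd1 hdK) hw
            (hvw.trans hXaN)
          have h2 : (((sct S D (cl T B E (2 * (j + 1)))).filter
              (fun x => v < x ∧ x ≤ v + w ∧ x % d = c % d)).card : ℝ) ≤
              (((sct S D (cl T B E (2 * J))).filter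
                (fun y => v < y ∧ y ≤ v + w ∧ y % d = c % d)).card : ℝ) := by
            exact_mod_cast card_le_card (filter_subset_filter _ (sct_mono hXaN))
          refine h2.trans (h1.trans ?_)
          gcongr
          linarith
      obtain ⟨α, hα1, hα2⟩ := hstr
      have hclsucc : cl T B E (2 * (j + 1)) = cl T B E (2 * (j + 1) - 1) * B ^ E := by
        rw [← cl_succ]
        congr 1
      have hBE : B * B ≤ B ^ E := by
        calc B * B = B ^ 2 := (sq B).symm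
          _ ≤ B ^ E := Nat.pow_le_pow_right hB (by omega)
      have hXbB : cl T B E (2 * (j + 1) - 1) * B ≤ cl T B E (2 * (j + 1)) := by
        rw [hclsucc]
        apply Nat.mul_le_mul_left
        calc B = B ^ 1 := (pow_one B).symm
          _ ≤ B ^ E := Nat.pow_le_pow_right hB (by omega)
      have hBH : BH S T B E ζ (j + 1) D α := by
        refine ⟨hα2, ?_⟩
        intro x hx
        have hx' := mem_sct.1 hx
        apply hα1 x (sct_mono hXbB hx)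
        have h1 : (x : ℝ) ≤ (cl T B E (2 * (j + 1) - 1) : ℝ) * B := by exact_mod_cast hx'.1.2
        have h2 : ((cl T B E (2 * (j + 1) - 1) * (B * B) : ℕ) : ℝ) ≤ (cl T B E (2 * (j + 1)) : ℝ) := by
          rw [hclsucc]
          exact_mod_cast Nat.mul_le_mul_left _ hBE
        calc (x : ℝ) ≤ (cl T B E (2 * (j + 1) - 1) : ℝ) * B := h1
          _ = (cl T B E (2 * (j + 1) - 1) : ℝ) * B * 1 := (mul_one _).symm
          _ ≤ (cl T B E (2 * (j + 1) - 1) : ℝ) * B * (ζ * B) := by gcongr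
          _ = ζ * ((cl T B E (2 * (j + 1) - 1) * (B * B) : ℕ) : ℝ) := by push_cast; ring
          _ ≤ ζ * (cl T B E (2 * (j + 1)) : ℝ) := by gcongr
      have hbig : B * B * (cl T B E (2 * j) * M) * B ≤ cl T B E (2 * (j + 1)) := by
        rw [hM]
        unfold cl
        have h6 : (B * B) * (T * B ^ (E * (2 * j + 1)) * B ^ CN) * B =
            T * B ^ (E * (2 * j + 1) + CN + 3) := by
          rw [pow_add, pow_add]
          ring
        rw [h6]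
        apply Nat.mul_le_mul_left
        apply Nat.pow_le_pow_right hB
        have h7 : E * (2 * (j + 1) + 1) = E * (2 * j + 1) + 2 * E := by ring
        omega
      have hHH : ∀ r ∈ Icc 1 B,
          HH S T B E M (j + 1 - 1) (D * (F * r)) (α * ((F * r : ℕ) : ℝ)) := by
        intro r hr y hy
        rw [Nat.add_sub_cancel] at hy
        have hr' := mem_Icc.1 hr
        have hFrB : F * r ≤ B * B := Nat.mul_le_mul hFB hr'.2
        have h1 : F * r * (cl T B E (2 * j) * M) ≤ B * B * (cl T B E (2 * j) * M) :=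
          Nat.mul_le_mul_right _ hFrB
        have h2 : B * B * (cl T B E (2 * j) * M) ≤ cl T B E (2 * (j + 1)) :=
          le_trans (Nat.le_mul_of_pos_right _ hB) hbig
        have h3 : F * r * y ∈ sct S D (cl T B E (2 * (j + 1))) :=
          t_dil (Nat.mul_pos hF hr'.1) (h1.trans h2) hy
        have h4 := hα1 (F * r * y) h3 ?_
        · have e1 : α * ((F * r : ℕ) : ℝ) * (y : ℝ) = α * ((F * r * y : ℕ) : ℝ) := by
            push_cast
            ring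
          rw [e1]
          exact h4
        · have hy' := mem_sct.1 hy
          have h5 : F * r * y ≤ B * B * (cl T B E (2 * j) * M) :=
            (Nat.mul_le_mul_left _ hy'.1.2).trans h1
          have h6 : ((F * r * y : ℕ) : ℝ) ≤ ((B * B * (cl T B E (2 * j) * M) : ℕ) : ℝ) := by
            exact_mod_cast h5
          have h7 : ((B * B * (cl T B E (2 * j) * M) : ℕ) : ℝ) * B ≤
              (cl T B E (2 * (j + 1)) : ℝ) := by exact_mod_cast hbig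
          calc ((F * r * y : ℕ) : ℝ) ≤ ((B * B * (cl T B E (2 * j) * M) : ℕ) : ℝ) := h6
            _ = ((B * B * (cl T B E (2 * j) * M) : ℕ) : ℝ) * 1 := (mul_one _).symm
            _ ≤ ((B * B * (cl T B E (2 * j) * M) : ℕ) : ℝ) * (ζ * B) := by gcongr
            _ = ζ * (((B * B * (cl T B E (2 * j) * M) : ℕ) : ℝ) * B) := by ring
            _ ≤ ζ * (cl T B E (2 * (j + 1)) : ℝ) := by gcongr
      have hfin := hldy (j + 1) D hjJ hD ?_ α (Or.inr ⟨by omega, hBH, hHH⟩)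
      · refine hfin.trans ?_
        have hY := yv_nonneg (S := S) (T := T) (B := B) (E := E) (F := F) (M := M) ha (j + 1) D α
        have hj' : (133 : ℝ) ≤ j := by exact_mod_cast hj
        have h1 : (600 - 9 / 2 * ((j + 1 : ℕ) : ℝ)) ≤ 0 := by
          push_cast
          linarith
        have h2 := mul_nonneg (neg_nonneg.2 h1) hY
        linarith
      · intro ρ2 h1 h2
        apply hRS1 (D * ρ2) (Nat.mul_pos hD h1) ?_ _ (by omega)
        calc D * ρ2 ≤ (F * B) ^ (J - (j + 1)) * ((F * B) ^ (j + 1) * M) := Nat.mul_le_mul hDB h2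
          _ = (F * B) ^ (J - (j + 1) + (j + 1)) * M := by rw [pow_add]; ring
          _ = (F * B) ^ J * M := by rw [Nat.sub_add_cancel hjJ]

theorem t_step (CN F J E : ℕ) {δs ρs ζ η : ℝ} {K₁ Z₀ : ℕ} (hδ : 0 < δs) (hδ1 : δs ≤ 1 / 10)
    (hρ : 0 < ρs) (hρ1 : ρs ≤ 1) (hζ : 0 < ζ) (hζ1 : ζ ≤ 1) (hη : 0 < η) (hF : 1 ≤ F) (hFK : ∀ d, 1 ≤ d → d ≤ K₁ → d ∣ F)
    (hE : CN + 20 ≤ E) (hEJ : J + 1 ≤ E)
    (hst : ∀ (Z : ℕ) (S : Finset ℕ) (e₀ : ℝ), Z₀ ≤ Z → S ⊆ Icc 1 Z → 0 ≤ e₀ → e₀ ≤ η * Z →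
      RSF S e₀ →
      (∀ d : ℕ, 1 ≤ d → d ≤ K₁ → ∀ c v w : ℕ, ρs * Z ≤ w → v + w ≤ Z →
        ((S.filter (fun x => v < x ∧ x ≤ v + w ∧ x % d = c % d)).card : ℝ) ≤ (1 / 3 + δs) * w / d) →
      (1 / 3 - δs) * Z ≤ (S.card : ℝ) → Str S Z ζ)
    {B0 : ℕ} (hups : ∀ B, B0 ≤ B →
      ∀ (T : ℕ) (S : Finset ℕ) (D ρ ρ' N j l l' k : ℕ), 1 ≤ T → 0 < D → 0 < ρ → 0 < ρ' →
        RSF (sct S D N) T → RSF (sct S (D * ρ) N) T → F ∣ ρ → F ∣ ρ' → ρ ≤ (F * B) ^ J →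
        ρ' ≤ (F * B) ^ J → 1 ≤ l' → l' < l → l < j → NE S T B E (δs / 3) (D * ρ) l →
        NE S T B E (δs / 3) (D * ρ * ρ') l' → (k = 2 * j ∨ k = 2 * j - 1) → ∀ v w c d : ℕ, 0 < d →
        d ∣ F → ρs * (cl T B E k : ℝ) ≤ w → v + w ≤ N →
        (((sct S D N).filter (fun y => v < y ∧ y ≤ v + w ∧ y % d = c)).card : ℝ) ≤
          (1 / 3 + δs / 3) * w / d)
    {C : ℝ} (hC : 0 ≤ C) {lam1 : ℕ}
    (hldy : ∀ (lam E T : ℕ) (S : Finset ℕ) (a : ℕ → ℝ), lam1 ≤ lam → CN + 20 ≤ E →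
      1 ≤ T → Wts lam CN a → ∀ (j D : ℕ), j ≤ J → 1 ≤ D →
      (∀ ρ, 1 ≤ ρ → ρ ≤ (F * 2 ^ (8 * lam)) ^ j * 2 ^ (8 * lam * CN) →
        RSF (sct S (D * ρ) (cl T (2 ^ (8 * lam)) E (2 * j))) T) → ∀ α : ℝ,
      (HH S T (2 ^ (8 * lam)) E (2 ^ (8 * lam * CN)) j D α ∨
        (1 ≤ j ∧ BH S T (2 ^ (8 * lam)) E ζ j D α ∧ ∀ r ∈ Icc 1 (2 ^ (8 * lam)),
          HH S T (2 ^ (8 * lam)) E (2 ^ (8 * lam * CN)) (j - 1) (D * (F * r)) (α * ((F * r : ℕ) : ℝ)))) →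
      Val S T (2 ^ (8 * lam)) E F (2 ^ (8 * lam * CN)) a j D ≤
        (600 - 9 / 2 * j) * Yv S T (2 ^ (8 * lam)) E F (2 ^ (8 * lam * CN)) a j D α + C / 2 ^ lam) :
    ∃ lam₀ : ℕ, ∀ (lam T : ℕ) (S : Finset ℕ) (a : ℕ → ℝ), lam₀ ≤ lam → 1 ≤ T → Wts lam CN a →
      RS S T (2 ^ (8 * lam)) E F (2 ^ (8 * lam * CN)) J → ∀ j D : ℕ, 133 ≤ j → j + 1 ≤ J → 1 ≤ D →
      D ≤ (F * 2 ^ (8 * lam)) ^ (J - (j + 1)) →
      Val S T (2 ^ (8 * lam)) E F (2 ^ (8 * lam * CN)) a (j + 1) D ≤ 18 - δs * (j - 1) ∨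
      Val S T (2 ^ (8 * lam)) E F (2 ^ (8 * lam * CN)) a (j + 1) D ≤ C / 2 ^ lam ∨
      Val S T (2 ^ (8 * lam)) E F (2 ^ (8 * lam * CN)) a (j + 1) D ≤
        -δs + (∑ r ∈ Icc 1 (2 ^ (8 * lam)),
          Val S T (2 ^ (8 * lam)) E F (2 ^ (8 * lam * CN)) a j (D * (F * r))) / (2 ^ (8 * lam) : ℕ) := by
  refine ⟨lam1 + B0 + F + ⌈1 / ζ⌉₊ + ⌈1 / η⌉₊ + Z₀ + 1, ?_⟩
  intro lam T S a hlam hT hW hRS j D hj hjJ hD hDB
  have hlam3 : lam < 2 ^ lam := Nat.lt_two_pow_self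
  have hBlam : 2 ^ lam ≤ 2 ^ (8 * lam) := Nat.pow_le_pow_right (by norm_num) (by omega)
  have hζB : 1 ≤ ζ * ((2 ^ (8 * lam) : ℕ) : ℝ) := by
    have h1 : 1 / ζ ≤ (⌈1 / ζ⌉₊ : ℝ) := Nat.le_ceil _
    have h2 : (⌈1 / ζ⌉₊ : ℝ) ≤ ((2 ^ (8 * lam) : ℕ) : ℝ) := by
      exact_mod_cast (by omega : ⌈1 / ζ⌉₊ ≤ 2 ^ (8 * lam))
    rw [div_le_iff₀ hζ] at h1
    nlinarith
  have hηB : 1 ≤ η * ((2 ^ (8 * lam) : ℕ) : ℝ) := by
    have h1 : 1 / η ≤ (⌈1 / η⌉₊ : ℝ) := Nat.le_ceil _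
    have h2 : (⌈1 / η⌉₊ : ℝ) ≤ ((2 ^ (8 * lam) : ℕ) : ℝ) := by
      exact_mod_cast (by omega : ⌈1 / η⌉₊ ≤ 2 ^ (8 * lam))
    rw [div_le_iff₀ hη] at h1
    nlinarith
  exact TStep_main CN F J E hδ hρ1 hζ hη hF hFK hE hst (by rw [← pow_mul]) hT (by omega) (by omega)
    hζB hηB (by omega) S
    (fun D ρ ρ' N j l l' k h1 h2 h3 h4 h5 h6 h7 h8 h9 h10 h11 h12 h13 h14 h15 =>
      hups (2 ^ (8 * lam)) (by omega) T S D ρ ρ' N j l l' k hT h1 h2 h3 h4 h5 h6 h7 h8 h9 h10 h11 h12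
        h13 h14 h15)
    a hW.nonneg hW.sum (hldy lam E T S a (by omega) hE hT hW) hRS j D hj hjJ hD hDB

end SFP
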