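import Pool.Agent.SFP.ZDefs

/-!
# Part Z: optimal half circles
-/

namespace SFP

open Finset

/-- `X` is a largest half circle of the symmetric sum-free set `A`, `b` its first and `e` its last point. -/
structure Opt {G : Type*} [AddCommGroup G] [Fintype G] (φ : G → ℝ) (κ : ℝ) (A X : Finset G)
    (b e : G) : Prop where
  rot : Rot φ κ
  ssf : SSF A
  bmem : b ∈ A
  eqX : ∀ z, z ∈ X ↔ z ∈ A ∧ φ (z - b) < 1 / 2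
  emem : e ∈ X
  last : ∀ z ∈ X, φ (z - b) ≤ φ (e - b)
  max : ∀ b', (hc φ A b').card ≤ X.card
  big : 252 / 1000 * (Fintype.card G : ℝ) ≤ X.card
  dens : (1 / 3 - 1 / 10 ^ 4) * (Fintype.card G : ℝ) ≤ A.card
  kap : κ ≤ 1 / 10 ^ 4

/-- Case A: `0` lies in the hull `[-p, L]` of `X`. -/
structure CA {G : Type*} [AddCommGroup G] [Fintype G] (φ : G → ℝ) (κ : ℝ) (A X : Finset G)
    (p L : ℝ) : Prop where
  rot : Rot φ κ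
  ssf : SSF A
  sub : X ⊆ A
  p0 : 0 ≤ p
  pL : p ≤ L
  lam : p + L < 1 / 2
  a1 : ∀ y ∈ X, φ y ≤ L ∨ 1 - p ≤ φ y
  a2 : ∀ y ∈ A, φ y ≤ L ∨ 1 - p ≤ φ y ∨ (1 / 2 - p ≤ φ y ∧ φ y ≤ 1 / 2 + L)
  a3 : ∃ e ∈ X, φ e = L
  fold : (p + L) * Fintype.card G + X.card + A.card ≤ (1 + 3 * κ) * Fintype.card G
  big : 252 / 1000 * (Fintype.card G : ℝ) ≤ X.card
  dens : (1 / 3 - 1 / 10 ^ 4) * (Fintype.card G : ℝ) ≤ A.card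
  kap : κ ≤ 1 / 10 ^ 4

/-- Case B: `1/2` lies in the hull `[1/2 - p, 1/2 + L]` of `X`. -/
structure CB {G : Type*} [AddCommGroup G] [Fintype G] (φ : G → ℝ) (κ : ℝ) (A X : Finset G)
    (p L : ℝ) : Prop where
  rot : Rot φ κ
  ssf : SSF A
  sub : X ⊆ A
  p0 : 0 ≤ p
  pL : p ≤ L
  lam : p + L < 1 / 2
  b1 : ∀ y ∈ X, 1 / 2 - p ≤ φ y ∧ φ y ≤ 1 / 2 + L
  b2 : ∀ y ∈ A, (1 / 2 - p ≤ φ y ∧ φ y ≤ 1 / 2 + L) ∨ φ y ≤ L ∨ 1 - p ≤ φ y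
  b2' : ∀ y ∈ A, 1 / 2 - p ≤ φ y → φ y ≤ 1 / 2 + L → y ∈ X
  b3 : ∃ e ∈ X, φ e = 1 / 2 + L
  fold : (p + L) * Fintype.card G + X.card + A.card ≤ (1 + 3 * κ) * Fintype.card G
  big : 252 / 1000 * (Fintype.card G : ℝ) ≤ X.card
  dens : (1 / 3 - 1 / 10 ^ 4) * (Fintype.card G : ℝ) ≤ A.card
  kap : κ ≤ 1 / 10 ^ 4

end SFP
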