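import Pool.Agent.SFP.ZDefs

/-!
# Module ZFou (3): a very negative cosine sum

`A ⊆ ZMod m` symmetric, sum-free, nonempty. Then there is `0 < u < m` with
`∑_{x ∈ A} cos (2 π u x / m) ≤ - |A|² / (m - |A|)`.

Proof. Let `Â(u) = ∑_{x ∈ A} cos (2 π u x.val / m)`, `u = 0, ..., m - 1`. As `-A = A`, `Â(u) = ∑_{x ∈ A} e(u x/m)` (the sine sum is 0,
substitute `x ↦ -x`). `∑_u Â(u)^2 = m |A|` and `∑_u Â(u)^3 = m * #{(x,y,z) ∈ A³ : x + y + z = 0} = 0`
(expand; `∑_u e(u w / m) = m` if `w = 0` in `ZMod m` and `0` otherwise; if `x + y + z = 0`, then `x + y = -z ∈ A`, impossible).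
`Â(0) = |A|`. Let `μ = max_{0 < u < m} (-Â(u))` (if `m = 1` then `A ⊆ {0}` but `0 + 0 = 0 ∉ A`, so `A` would be empty; so `m ≥ 2`).
`|A|^3 = ∑_{0<u<m} (-Â(u)) Â(u)^2 ≤ μ ∑_{0<u<m} Â(u)^2 = μ (m |A| - |A|^2)`. As `0 ∉ A`, `|A| < m`, so `μ ≥ |A|²/(m - |A|)`.
(Mathlib: `ZMod.dft`, `AddChar`, `ZMod.stdAddChar`, `AddChar.sum_eq_zero_of_ne_one`; or do it directly with
`Complex.exp` and geometric sums / `IsPrimitiveRoot.geom_sum_eq_zero`.)
-/

namespace SFP

open Finset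

theorem zfou_sum {m : ℕ} [NeZero m] (w : ZMod m) :
    ∑ u : ZMod m, (ZMod.stdAddChar (u * w) : ℂ) = if w = 0 then (m : ℂ) else 0 := by
  rw [AddChar.sum_mulShift w (ZMod.isPrimitive_stdAddChar m)]
  rw [ZMod.card]
  split_ifs <;> simp

theorem zfou_re {m : ℕ} [NeZero m] (u x : ZMod m) :
    (ZMod.stdAddChar (u * x) : ℂ).re = Real.cos (2 * Real.pi * ((u.val : ℝ) * (x.val : ℝ) / m)) := by
  have h1 : u * x = (((u.val * x.val : ℕ) : ℤ) : ZMod m) := by
    push_cast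
    simp
  rw [h1, ZMod.stdAddChar_coe]
  have h2 : 2 * (Real.pi : ℂ) * Complex.I * (((u.val * x.val : ℕ) : ℤ) : ℂ) / (m : ℂ)
      = ((2 * Real.pi * ((u.val : ℝ) * (x.val : ℝ) / m) : ℝ) : ℂ) * Complex.I := by
    push_cast
    ring
  rw [h2, Complex.exp_ofReal_mul_I_re]

noncomputable def zfouS {m : ℕ} [NeZero m] (A : Finset (ZMod m)) (u : ZMod m) : ℂ :=
  ∑ x ∈ A, (ZMod.stdAddChar (u * x) : ℂ)

noncomputable def zfouC {m : ℕ} [NeZero m] (A : Finset (ZMod m)) (u : ZMod m) : ℝ :=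
  ∑ x ∈ A, Real.cos (2 * Real.pi * ((u.val : ℝ) * (x.val : ℝ) / m))

theorem zfou_SC {m : ℕ} [NeZero m] (A : Finset (ZMod m)) (hA : ∀ x ∈ A, -x ∈ A) (u : ZMod m) :
    zfouS A u = (zfouC A u : ℂ) := by
  have hconj : (starRingEnd ℂ) (zfouS A u) = zfouS A u := by
    unfold zfouS
    rw [map_sum]
    have h1 : ∀ x ∈ A, (starRingEnd ℂ) (ZMod.stdAddChar (u * x) : ℂ) = ZMod.stdAddChar (u * (-x)) := by
      intro x _
      rw [mul_neg, AddChar.map_neg_eq_conj]
    rw [Finset.sum_congr rfl h1]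
    refine Finset.sum_nbij' (fun x => -x) (fun x => -x) hA hA ?_ ?_ ?_
    · intro x _
      exact neg_neg x
    · intro x _
      exact neg_neg x
    · intro x _
      rfl
  have h2 : (zfouS A u).re = zfouC A u := by
    unfold zfouS zfouC
    rw [Complex.re_sum]
    exact Finset.sum_congr rfl (fun x _ => zfou_re u x)
  rw [← h2]
  exact (Complex.conj_eq_iff_re.1 hconj).symm

theorem zfou_two {m : ℕ} [NeZero m] (A : Finset (ZMod m)) (hA : ∀ x ∈ A, -x ∈ A) :
    ∑ u : ZMod m, zfouC A u ^ 2 = m * A.card := by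
  have h1 : ∑ u : ZMod m, zfouS A u ^ 2 = m * A.card := by
    have h2 : ∀ u : ZMod m, zfouS A u ^ 2 = ∑ x ∈ A, ∑ y ∈ A, (ZMod.stdAddChar (u * (x + y)) : ℂ) := by
      intro u
      rw [pow_two]
      unfold zfouS
      rw [Finset.sum_mul_sum]
      refine Finset.sum_congr rfl (fun x _ => Finset.sum_congr rfl (fun y _ => ?_))
      rw [mul_add, AddChar.map_add_eq_mul]
    rw [Finset.sum_congr rfl (fun u _ => h2 u), Finset.sum_comm]
    have h3 : ∀ x ∈ A, ∑ u : ZMod m, ∑ y ∈ A, (ZMod.stdAddChar (u * (x + y)) : ℂ) = m := by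
      intro x hx
      rw [Finset.sum_comm, Finset.sum_congr rfl (fun y _ => zfou_sum (x + y)),
        Finset.sum_eq_single_of_mem (-x) (hA x hx)]
      · rw [add_neg_cancel, if_pos rfl]
      · intro y _ hy
        rw [if_neg]
        intro h
        exact hy (eq_neg_of_add_eq_zero_right h)
    rw [Finset.sum_congr rfl h3, Finset.sum_const, nsmul_eq_mul, mul_comm]
  have h4 : ((∑ u : ZMod m, zfouC A u ^ 2 : ℝ) : ℂ) = ((m * A.card : ℝ) : ℂ) := by
    push_cast
    rw [← h1]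
    exact Finset.sum_congr rfl (fun u _ => by rw [zfou_SC A hA u])
  exact_mod_cast h4

theorem zfou_three {m : ℕ} [NeZero m] (A : Finset (ZMod m)) (hA : SSF A) :
    ∑ u : ZMod m, zfouC A u ^ 3 = 0 := by
  have h1 : ∑ u : ZMod m, zfouS A u ^ 3 = 0 := by
    have h2 : ∀ u : ZMod m, zfouS A u ^ 3
        = ∑ x ∈ A, ∑ y ∈ A, ∑ z ∈ A, (ZMod.stdAddChar (u * (x + y + z)) : ℂ) := by
      intro u
      rw [pow_succ, pow_two]
      unfold zfouS
      rw [Finset.sum_mul_sum, Finset.sum_mul]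
      refine Finset.sum_congr rfl (fun x _ => ?_)
      rw [Finset.sum_mul_sum]
      refine Finset.sum_congr rfl (fun y _ => Finset.sum_congr rfl (fun z _ => ?_))
      rw [mul_add, mul_add, AddChar.map_add_eq_mul, AddChar.map_add_eq_mul]
    rw [Finset.sum_congr rfl (fun u _ => h2 u), Finset.sum_comm]
    refine Finset.sum_eq_zero (fun x hx => ?_)
    rw [Finset.sum_comm]
    refine Finset.sum_eq_zero (fun y hy => ?_)
    rw [Finset.sum_comm]
    refine Finset.sum_eq_zero (fun z hz => ?_)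
    rw [zfou_sum, if_neg]
    intro h
    have h3 : x + y = -z := eq_neg_of_add_eq_zero_left h
    exact hA.2 x hx y hy (by rw [h3]; exact hA.1 z hz)
  have h4 : ((∑ u : ZMod m, zfouC A u ^ 3 : ℝ) : ℂ) = ((0 : ℝ) : ℂ) := by
    push_cast
    rw [← h1]
    exact Finset.sum_congr rfl (fun u _ => by rw [zfou_SC A hA.1 u])
  exact_mod_cast h4

theorem z_fourier {m : ℕ} [NeZero m] (A : Finset (ZMod m)) (hA : SSF A) (hne : A.Nonempty) :
    ∃ u : ℕ, 0 < u ∧ u < m ∧
      ∑ x ∈ A, Real.cos (2 * Real.pi * (u * (x.val : ℝ) / m)) ≤ -((A.card : ℝ) ^ 2 / (m - A.card)) := by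
  have h0 : (0 : ZMod m) ∉ A := by
    intro h
    exact hA.2 0 h 0 h (by rw [add_zero]; exact h)
  have hlt : (A.card : ℝ) < m := by
    have := Finset.card_lt_univ_of_notMem h0
    rw [ZMod.card] at this
    exact_mod_cast this
  have hcp : (0 : ℝ) < A.card := by exact_mod_cast hne.card_pos
  by_contra hcon
  push Not at hcon
  have hC : ∀ u : ZMod m, u ≠ 0 → -((A.card : ℝ) ^ 2 / (m - A.card)) < zfouC A u := by
    intro u hu
    refine hcon u.val ?_ (ZMod.val_lt u)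
    rw [Nat.pos_iff_ne_zero]
    intro h
    exact hu ((ZMod.val_eq_zero u).1 h)
  have hC0 : zfouC A 0 = A.card := by
    unfold zfouC
    rw [ZMod.val_zero]
    simp
  have h2 := zfou_two A hA.1
  have h3 := zfou_three A hA
  rw [← Finset.add_sum_erase _ _ (Finset.mem_univ (0 : ZMod m)), hC0] at h2 h3
  have hs : ∑ u ∈ univ.erase (0 : ZMod m),
      ((A.card : ℝ) ^ 2 / (m - A.card) + zfouC A u) * zfouC A u ^ 2 = 0 := by
    have h4 : ∀ u ∈ univ.erase (0 : ZMod m),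
        ((A.card : ℝ) ^ 2 / (m - A.card) + zfouC A u) * zfouC A u ^ 2
          = (A.card : ℝ) ^ 2 / (m - A.card) * zfouC A u ^ 2 + zfouC A u ^ 3 := by
      intro u _
      ring
    rw [Finset.sum_congr rfl h4, Finset.sum_add_distrib, ← Finset.mul_sum]
    have h5 : ∑ u ∈ univ.erase (0 : ZMod m), zfouC A u ^ 2 = m * A.card - A.card ^ 2 := by linarith
    have h6 : ∑ u ∈ univ.erase (0 : ZMod m), zfouC A u ^ 3 = -(A.card : ℝ) ^ 3 := by linarith
    rw [h5, h6]
    have h7 : (m : ℝ) - A.card ≠ 0 := by linarith [hlt]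
    field_simp
    ring
  have hall := (Finset.sum_eq_zero_iff_of_nonneg (fun u hu => by
    have := hC u (Finset.ne_of_mem_erase hu)
    exact mul_nonneg (by linarith) (sq_nonneg _))).1 hs
  have h8 : ∑ u ∈ univ.erase (0 : ZMod m), zfouC A u ^ 3 = 0 := by
    refine Finset.sum_eq_zero (fun u hu => ?_)
    have h9 := hall u hu
    have h10 := hC u (Finset.ne_of_mem_erase hu)
    rcases mul_eq_zero.1 h9 with h | h
    · linarith
    · rw [pow_succ, h, zero_mul]
  rw [h8, add_zero] at h3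
  have : (0 : ℝ) < (A.card : ℝ) ^ 3 := by positivity
  linarith

end SFP
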