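import Pool.Agent.SFP.ZDefs

/-!
# Module ZIntA (3): the integral over the half circles

For `t ∈ [0, 1)`: `∫_0^{1/2} π sin (2π c) * 1[fract (t - c) < 1/2] dc = (1 - cos (2π t)) / 2`:
if `t < 1/2` the set of `c ∈ [0,1/2]` with `fract (t - c) < 1/2` is `[0, t]` (for `c ≤ t` the fract is `t - c < 1/2`; for `c > t` it is
`t - c + 1 > 1/2`); if `t ≥ 1/2` it is `(t - 1/2, 1/2]` (there `fract (t-c) = t - c`). Both integrals are `(1 - cos 2πt)/2`.
Sum over `z ∈ A`. All functions are integrable (indicator of an interval times a continuous function).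
-/

namespace SFP

open Finset

theorem ZIntA_int (a b : ℝ) : ∫ c in a..b, Real.pi * Real.sin (2 * Real.pi * c) =
    (Real.cos (2 * Real.pi * a) - Real.cos (2 * Real.pi * b)) / 2 := by
  have hd : ∀ x : ℝ, HasDerivAt (fun c : ℝ => -Real.cos (2 * Real.pi * c) / 2)
      (Real.pi * Real.sin (2 * Real.pi * x)) x := by
    intro x
    have h1 : HasDerivAt (fun c : ℝ => 2 * Real.pi * c) (2 * Real.pi * 1) x :=
      (hasDerivAt_id x).const_mul (2 * Real.pi)
    have h2 := ((Real.hasDerivAt_cos (2 * Real.pi * x)).comp x h1).neg.div_const 2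
    have e : -(-Real.sin (2 * Real.pi * x) * (2 * Real.pi * 1)) / 2 =
        Real.pi * Real.sin (2 * Real.pi * x) := by ring
    rw [e] at h2
    exact h2
  rw [intervalIntegral.integral_eq_sub_of_hasDerivAt (fun x _ => hd x)]
  · ring
  · apply Continuous.intervalIntegrable
    fun_prop

theorem ZIntA_congr {f g : ℝ → ℝ} {a b : ℝ} (hab : a ≤ b) (h : ∀ c, a < c → c ≤ b → g c = f c)
    (hg : Continuous g) :
    IntervalIntegrable f MeasureTheory.volume a b ∧ ∫ c in a..b, f c = ∫ c in a..b, g c := by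
  constructor
  · refine IntervalIntegrable.congr (f := g) ?_ (hg.intervalIntegrable a b)
    intro c hc
    rw [Set.uIoc_of_le hab] at hc
    exact h c hc.1 hc.2
  · rw [intervalIntegral.integral_of_le hab, intervalIntegral.integral_of_le hab]
    exact MeasureTheory.setIntegral_congr_fun measurableSet_Ioc fun c hc => (h c hc.1 hc.2).symm

theorem ZIntA_glue {f g₁ g₂ : ℝ → ℝ} {a m b : ℝ} (ham : a ≤ m) (hmb : m ≤ b)
    (h₁ : ∀ c, a < c → c ≤ m → g₁ c = f c) (h₂ : ∀ c, m < c → c ≤ b → g₂ c = f c)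
    (hg₁ : Continuous g₁) (hg₂ : Continuous g₂) :
    IntervalIntegrable f MeasureTheory.volume a b ∧
      ∫ c in a..b, f c = (∫ c in a..m, g₁ c) + ∫ c in m..b, g₂ c := by
  obtain ⟨i1, e1⟩ := ZIntA_congr ham h₁ hg₁
  obtain ⟨i2, e2⟩ := ZIntA_congr hmb h₂ hg₂
  refine ⟨i1.trans i2, ?_⟩
  rw [← intervalIntegral.integral_add_adjacent_intervals i1 i2, e1, e2]

theorem ZIntA_one {t : ℝ} (h0 : 0 ≤ t) (h1 : t < 1) :
    IntervalIntegrable (fun c : ℝ => Real.pi * Real.sin (2 * Real.pi * c) *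
      (if Int.fract (t - c) < 1 / 2 then (1 : ℝ) else 0)) MeasureTheory.volume 0 (1 / 2) ∧
    ∫ c in (0 : ℝ)..(1 / 2), Real.pi * Real.sin (2 * Real.pi * c) *
      (if Int.fract (t - c) < 1 / 2 then (1 : ℝ) else 0) = (1 - Real.cos (2 * Real.pi * t)) / 2 := by
  have hS : Continuous fun c : ℝ => Real.pi * Real.sin (2 * Real.pi * c) := by fun_prop
  have hZ : Continuous fun _ : ℝ => (0 : ℝ) := continuous_const
  rcases lt_or_ge t (1 / 2) with ht | ht
  · obtain ⟨i, e⟩ := ZIntA_glue (f := fun c : ℝ => Real.pi * Real.sin (2 * Real.pi * c) *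
      (if Int.fract (t - c) < 1 / 2 then (1 : ℝ) else 0)) (a := 0) (m := t) (b := 1 / 2) h0 ht.le
      (g₁ := fun c => Real.pi * Real.sin (2 * Real.pi * c)) (g₂ := fun _ => 0)
      (fun c hc hc' => by
        have hf : Int.fract (t - c) = t - c :=
          Int.fract_eq_self.2 ⟨by linarith, by linarith⟩
        rw [hf, if_pos (by linarith), mul_one])
      (fun c hc hc' => by
        have hf : Int.fract (t - c) = t - c + 1 := by
          rw [← Int.fract_add_one (t - c)]
          exact Int.fract_eq_self.2 ⟨by linarith, by linarith⟩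
        rw [hf, if_neg (by linarith), mul_zero]) hS hZ
    refine ⟨i, ?_⟩
    rw [e, ZIntA_int, mul_zero, Real.cos_zero, intervalIntegral.integral_zero]
    ring
  · obtain ⟨i, e⟩ := ZIntA_glue (f := fun c : ℝ => Real.pi * Real.sin (2 * Real.pi * c) *
      (if Int.fract (t - c) < 1 / 2 then (1 : ℝ) else 0)) (a := 0) (m := t - 1 / 2) (b := 1 / 2)
      (by linarith) (by linarith)
      (g₁ := fun _ => 0) (g₂ := fun c => Real.pi * Real.sin (2 * Real.pi * c))
      (fun c hc hc' => by
        have hf : Int.fract (t - c) = t - c :=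
          Int.fract_eq_self.2 ⟨by linarith, by linarith⟩
        rw [hf, if_neg (by linarith), mul_zero])
      (fun c hc hc' => by
        have hf : Int.fract (t - c) = t - c :=
          Int.fract_eq_self.2 ⟨by linarith, by linarith⟩
        rw [hf, if_pos (by linarith), mul_one]) hZ hS
    refine ⟨i, ?_⟩
    rw [e, ZIntA_int, intervalIntegral.integral_zero]
    have e1 : 2 * Real.pi * (t - 1 / 2) = 2 * Real.pi * t - Real.pi := by ring
    have e2 : 2 * Real.pi * (1 / 2) = Real.pi := by ring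
    rw [e1, e2, Real.cos_pi, Real.cos_sub_pi]
    ring

open Classical in
theorem ZIntA_sum {G : Type*} (A : Finset G) (φ : G → ℝ) (c : ℝ) :
    Real.pi * Real.sin (2 * Real.pi * c) *
        ((A.filter (fun z => Int.fract (φ z - c) < 1 / 2)).card : ℝ) =
      ∑ z ∈ A, Real.pi * Real.sin (2 * Real.pi * c) *
        (if Int.fract (φ z - c) < 1 / 2 then (1 : ℝ) else 0) := by
  rw [← Finset.mul_sum, Finset.card_filter]
  push_cast
  rfl

open Classical in
theorem z_intA {G : Type*} (A : Finset G) (φ : G → ℝ) (h0 : ∀ x, 0 ≤ φ x) (h1 : ∀ x, φ x < 1) :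
    ∫ c in (0 : ℝ)..(1 / 2), Real.pi * Real.sin (2 * Real.pi * c) *
        ((A.filter (fun z => Int.fract (φ z - c) < 1 / 2)).card : ℝ) =
      ∑ z ∈ A, (1 - Real.cos (2 * Real.pi * φ z)) / 2 := by
  have e : (fun c : ℝ => Real.pi * Real.sin (2 * Real.pi * c) *
        ((A.filter (fun z => Int.fract (φ z - c) < 1 / 2)).card : ℝ)) = fun c =>
      ∑ z ∈ A, Real.pi * Real.sin (2 * Real.pi * c) *
        (if Int.fract (φ z - c) < 1 / 2 then (1 : ℝ) else 0) := by
    funext c
    exact ZIntA_sum A φ c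
  rw [e, intervalIntegral.integral_finsetSum fun z _ => (ZIntA_one (h0 z) (h1 z)).1]
  exact Finset.sum_congr rfl fun z _ => (ZIntA_one (h0 z) (h1 z)).2

open Classical in
theorem z_intA' {G : Type*} (A : Finset G) (φ : G → ℝ) (h0 : ∀ x, 0 ≤ φ x) (h1 : ∀ x, φ x < 1) :
    IntervalIntegrable (fun c : ℝ => Real.pi * Real.sin (2 * Real.pi * c) *
        ((A.filter (fun z => Int.fract (φ z - c) < 1 / 2)).card : ℝ)) MeasureTheory.volume 0 (1 / 2) := by
  have e : (fun c : ℝ => Real.pi * Real.sin (2 * Real.pi * c) *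
        ((A.filter (fun z => Int.fract (φ z - c) < 1 / 2)).card : ℝ)) = ∑ z ∈ A, fun c : ℝ =>
      Real.pi * Real.sin (2 * Real.pi * c) *
        (if Int.fract (φ z - c) < 1 / 2 then (1 : ℝ) else 0) := by
    funext c
    rw [Finset.sum_apply]
    exact ZIntA_sum A φ c
  rw [e]
  exact IntervalIntegrable.sum A fun z _ => (ZIntA_one (h0 z) (h1 z)).1

end SFP
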