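import Pool.Agent.SFP.ZDefs2

/-!
# Module ZTwo (2): sets avoiding a translate

`Y ⊆ G`, `Y ∩ (Y + t) = ∅`, `τ = φ t`. All intervals inside `[0, 1)`.
(1) `#{y ∈ Y : α ≤ φ y < α + 2τ} ≤ (τ + κ) n` if `0 ≤ α`, `α + 2 τ ≤ 1`: `y ↦ y + t` maps the elements with `φ y ∈ [α, α + τ)` injectively to elements with
`φ ∈ [α + τ, α + 2τ)` that are not in `Y` (no wrap around, `Rot.add_of_lt`); `#{α + τ ≤ φ < α + 2τ} ≤ (τ + κ) n` (`up`).
(2) If `Y ⊆ {α ≤ φ ≤ β}`, `0 ≤ α`, `β < 1`: `2 |Y| ≤ (β - α + τ + 2κ) n`: the `y ∈ Y` with `φ y ≤ β - τ` are mapped by `+ t` to elements of `{α ≤ φ ≤ β}` outside `Y`; the others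
have `φ y ∈ (β - τ, β]`, at most `(τ + κ) n`; so `|Y| + (|Y| - (τ+κ) n) ≤ (β - α + κ) n`. (If `τ > β - α` it is also true: `|Y| ≤ (β-α+κ) n`.)
(4) `#{y ∈ Y : α ≤ φ y ≤ β} ≤ (τ + κ) n` if `0 ≤ α ≤ β ≤ α + 2τ`, `β + τ < 1`: the elements with `φ y < α + τ`, shifted by `t`, and the elements with `α + τ ≤ φ y ≤ β` are disjoint
subsets of `{α + τ ≤ φ ≤ α + 2τ}` (no wrap around as `φ y + τ ≤ β + τ < 1`); `up`.
(3) `Y, Y + t` in an interval: if `Y ⊆ {α ≤ φ ≤ β}`, `β + τ < 1`: `2|Y| ≤ (β + τ - α + κ) n`.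
-/

namespace SFP

open Finset

variable {G : Type*} [AddCommGroup G] [Fintype G] {φ : G → ℝ} {κ : ℝ}

theorem ZTwo_aux (h : Rot φ κ) (P Q : Finset G) {t : G} (hd : ∀ y ∈ P, y + t ∉ Q) {a b : ℝ}
    (hab : a ≤ b) (hP : ∀ y ∈ P, a ≤ φ (y + t) ∧ φ (y + t) ≤ b)
    (hQ : ∀ y ∈ Q, a ≤ φ y ∧ φ y ≤ b) :
    (P.card : ℝ) + Q.card ≤ (b - a + κ) * Fintype.card G := by
  classical
  refine le_trans ?_ (h.up a b hab)
  have hdisj : Disjoint (P.image (fun y => y + t)) Q := by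
    rw [Finset.disjoint_left]
    intro z hz
    obtain ⟨w, hw, rfl⟩ := Finset.mem_image.1 hz
    exact hd w hw
  have hc : (P.image (fun y => y + t) ∪ Q).card = P.card + Q.card := by
    rw [Finset.card_union_of_disjoint hdisj,
      Finset.card_image_of_injective _ (add_left_injective t)]
  have hsub : P.image (fun y => y + t) ∪ Q ⊆ univ.filter (fun x => a ≤ φ x ∧ φ x ≤ b) := by
    intro z hz
    rw [Finset.mem_filter]
    refine ⟨Finset.mem_univ _, ?_⟩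
    rcases Finset.mem_union.1 hz with hz | hz
    · obtain ⟨w, hw, rfl⟩ := Finset.mem_image.1 hz
      exact hP w hw
    · exact hQ z hz
  have := Finset.card_le_card hsub
  rw [hc] at this
  exact_mod_cast this

theorem z_two1 (h : Rot φ κ) (Y : Finset G) {t : G} (ht : ∀ y ∈ Y, y + t ∉ Y) {α : ℝ}
    (h0 : 0 ≤ α) (h1 : α + 2 * φ t ≤ 1) :
    ((Y.filter (fun y => α ≤ φ y ∧ φ y < α + 2 * φ t)).card : ℝ) ≤
      (φ t + κ) * Fintype.card G := by
  classical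
  have ht0 := h.nonneg t
  set Z := Y.filter (fun y => α ≤ φ y ∧ φ y < α + 2 * φ t) with hZ
  have hZm : ∀ y ∈ Z, y ∈ Y ∧ α ≤ φ y ∧ φ y < α + 2 * φ t := fun y hy => Finset.mem_filter.1 hy
  have key := ZTwo_aux h (Z.filter (fun y => φ y < α + φ t)) (Z.filter (fun y => ¬ φ y < α + φ t))
    (t := t) (a := α + φ t) (b := α + 2 * φ t) ?_ (by linarith) ?_ ?_
  · have hc := Finset.card_filter_add_card_filter_not (s := Z) (fun y => φ y < α + φ t)
    have hc' : ((Z.filter (fun y => φ y < α + φ t)).card : ℝ) +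
      (Z.filter (fun y => ¬ φ y < α + φ t)).card = Z.card := by exact_mod_cast hc
    rw [← hc']
    refine key.trans (le_of_eq ?_)
    ring
  · intro y hy hy2
    exact ht y (hZm y (Finset.mem_filter.1 hy).1).1 (hZm _ (Finset.mem_filter.1 hy2).1).1
  · intro y hy
    obtain ⟨hy1, hy2⟩ := Finset.mem_filter.1 hy
    obtain ⟨_, hy3, hy4⟩ := hZm y hy1
    rw [h.add_of_lt (by linarith)]
    constructor <;> linarith
  · intro y hy
    obtain ⟨hy1, hy2⟩ := Finset.mem_filter.1 hy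
    obtain ⟨_, hy3, hy4⟩ := hZm y hy1
    push Not at hy2
    constructor <;> linarith

theorem z_two2 (h : Rot φ κ) (Y : Finset G) {t : G} (ht : ∀ y ∈ Y, y + t ∉ Y) {α β : ℝ}
    (h0 : 0 ≤ α) (hαβ : α ≤ β) (h1 : β < 1) (hY : ∀ y ∈ Y, α ≤ φ y ∧ φ y ≤ β) :
    2 * (Y.card : ℝ) ≤ (β - α + φ t + 2 * κ) * Fintype.card G := by
  classical
  have ht0 := h.nonneg t
  have key := ZTwo_aux h (Y.filter (fun y => φ y ≤ β - φ t)) Y (t := t) (a := α) (b := β)
    (fun y hy => ht y (Finset.mem_filter.1 hy).1) hαβ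
    (fun y hy => by
      obtain ⟨hy1, hy2⟩ := Finset.mem_filter.1 hy
      obtain ⟨hy3, hy4⟩ := hY y hy1
      rw [h.add_of_lt (by linarith)]
      constructor <;> linarith) hY
  have hc := Finset.card_filter_add_card_filter_not (s := Y) (fun y => φ y ≤ β - φ t)
  have hc' : ((Y.filter (fun y => φ y ≤ β - φ t)).card : ℝ) +
    (Y.filter (fun y => ¬ φ y ≤ β - φ t)).card = Y.card := by exact_mod_cast hc
  have h2 : ((Y.filter (fun y => ¬ φ y ≤ β - φ t)).card : ℝ) ≤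
      (β - (β - φ t) + κ) * Fintype.card G := by
    refine le_trans ?_ (h.up (β - φ t) β (by linarith))
    have : Y.filter (fun y => ¬ φ y ≤ β - φ t) ⊆
        univ.filter (fun x => β - φ t ≤ φ x ∧ φ x ≤ β) := by
      intro y hy
      obtain ⟨hy1, hy2⟩ := Finset.mem_filter.1 hy
      push Not at hy2
      rw [Finset.mem_filter]
      exact ⟨Finset.mem_univ _, hy2.le, (hY y hy1).2⟩
    exact_mod_cast Finset.card_le_card this
  have e : (β - α + φ t + 2 * κ) * (Fintype.card G : ℝ) =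
    (β - α + κ) * Fintype.card G + (β - (β - φ t) + κ) * Fintype.card G := by ring
  rw [e]
  linarith

theorem z_two3 (h : Rot φ κ) (Y : Finset G) {t : G} (ht : ∀ y ∈ Y, y + t ∉ Y) {α β : ℝ}
    (h0 : 0 ≤ α) (hαβ : α ≤ β) (h1 : β + φ t < 1) (hY : ∀ y ∈ Y, α ≤ φ y ∧ φ y ≤ β) :
    2 * (Y.card : ℝ) ≤ (β + φ t - α + κ) * Fintype.card G := by
  have ht0 := h.nonneg t
  have key := ZTwo_aux h Y Y (t := t) (a := α) (b := β + φ t) ht (by linarith)
    (fun y hy => by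
      obtain ⟨hy3, hy4⟩ := hY y hy
      rw [h.add_of_lt (by linarith)]
      constructor <;> linarith)
    (fun y hy => by
      obtain ⟨hy3, hy4⟩ := hY y hy
      constructor <;> linarith)
  linarith

theorem z_two4 (h : Rot φ κ) (Y : Finset G) {t : G} (ht : ∀ y ∈ Y, y + t ∉ Y) {α β : ℝ}
    (h0 : 0 ≤ α) (hαβ : α ≤ β) (hβ : β ≤ α + 2 * φ t) (h1 : β + φ t < 1) :
    ((Y.filter (fun y => α ≤ φ y ∧ φ y ≤ β)).card : ℝ) ≤ (φ t + κ) * Fintype.card G := by
  classical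
  have ht0 := h.nonneg t
  set Z := Y.filter (fun y => α ≤ φ y ∧ φ y ≤ β) with hZ
  have hZm : ∀ y ∈ Z, y ∈ Y ∧ α ≤ φ y ∧ φ y ≤ β := fun y hy => Finset.mem_filter.1 hy
  have key := ZTwo_aux h (Z.filter (fun y => φ y < α + φ t)) (Z.filter (fun y => ¬ φ y < α + φ t))
    (t := t) (a := α + φ t) (b := α + 2 * φ t) ?_ (by linarith) ?_ ?_
  · have hc := Finset.card_filter_add_card_filter_not (s := Z) (fun y => φ y < α + φ t)
    have hc' : ((Z.filter (fun y => φ y < α + φ t)).card : ℝ) +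
      (Z.filter (fun y => ¬ φ y < α + φ t)).card = Z.card := by exact_mod_cast hc
    rw [← hc']
    refine key.trans (le_of_eq ?_)
    ring
  · intro y hy hy2
    exact ht y (hZm y (Finset.mem_filter.1 hy).1).1 (hZm _ (Finset.mem_filter.1 hy2).1).1
  · intro y hy
    obtain ⟨hy1, hy2⟩ := Finset.mem_filter.1 hy
    obtain ⟨_, hy3, hy4⟩ := hZm y hy1
    rw [h.add_of_lt (by linarith)]
    constructor <;> linarith
  · intro y hy
    obtain ⟨hy1, hy2⟩ := Finset.mem_filter.1 hy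
    obtain ⟨_, hy3, hy4⟩ := hZm y hy1
    push Not at hy2
    constructor <;> linarith

end SFP
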